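import Pool.Agent.Run7.h306.CaseB

set_option autoImplicit false

/-! Products of two primes of one class with the same exponent of two. -/

namespace Run7.h306

open Finset Real Pool.Agent.H379R2.W Pool.Agent.W57.SW

/-- a pair of primes of one class, with the same exponent of two -/
def PQ (x p q : ℕ) : Prop :=
  p.Prime ∧ q.Prime ∧ q < p ∧ p * q ≤ x ∧ yy x < q ∧ (∀ ℓ ∈ opr (yy x), o2 p ℓ = o2 q ℓ) ∧
    v2 p = v2 q ∧ gp (yy x) p ∣ q - 1

lemma two_rpow_le {e : ℝ} (he1 : e ≤ 1 / 4) : (2 : ℝ) ^ (4 / 5 + e) ≤ 4 := by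
  calc (2 : ℝ) ^ (4 / 5 + e) ≤ (2 : ℝ) ^ (2 : ℝ) :=
        rpow_le_rpow_of_exponent_le (by norm_num) (by linarith)
    _ = 4 := by norm_num

lemma gcd_facts {p q : ℕ} (hp : 2 ≤ p) (hq : 2 ≤ q) : 1 ≤ Nat.gcd (p - 1) (q - 1) ∧
    ((p - 1) / Nat.gcd (p - 1) (q - 1)) * Nat.gcd (p - 1) (q - 1) + 1 = p ∧
    ((q - 1) / Nat.gcd (p - 1) (q - 1)) * Nat.gcd (p - 1) (q - 1) + 1 = q ∧
    Nat.gcd (p - 1) (q - 1) ≤ q - 1 := by
  have h1 := Nat.gcd_dvd_left (p - 1) (q - 1)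
  have h2 := Nat.gcd_dvd_right (p - 1) (q - 1)
  have h3 : 0 < Nat.gcd (p - 1) (q - 1) := Nat.gcd_pos_of_pos_left _ (by omega)
  have h4 := Nat.div_mul_cancel h1
  have h5 := Nat.div_mul_cancel h2
  have h6 := Nat.le_of_dvd (by omega) h2
  exact ⟨h3, by omega, by omega, h6⟩

/-- large common divisor -/
theorem pairs_big (e τ : ℝ) (he : 0 < e) (he1 : e ≤ 1 / 8) (hτ : 0 < τ) (hτ1 : τ < 1 / 2) :
    ∃ x0 : ℕ, ∀ x : ℕ, x0 ≤ x → ∀ N : Finset ℕ,
    (∀ n ∈ N, ∃ p q, n = p * q ∧ PQ x p q ∧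
      (x : ℝ) ^ (1 / 2 - τ) ≤ (Nat.gcd (p - 1) (q - 1) : ℝ)) →
    (N.card : ℝ) ≤ 32 * (x : ℝ) ^ (3 * τ + 2 / 5 + 3 / 2 * e) := by
  classical
  obtain ⟨L0, hL03, hL0⟩ := pair_bound e he (by linarith)
  obtain ⟨x1, hx1⟩ := ev_log_big L0
  obtain ⟨x2, hx23, hx2⟩ := ev_log_pow 1 e he
  refine ⟨max x1 x2, fun x hx N hN => ?_⟩
  obtain ⟨L, hL⟩ : ∃ L : ℝ, L = log x := ⟨_, rfl⟩
  have hLL0 : L0 ≤ L := by rw [hL]; exact hx1 x ((le_max_left _ _).trans hx)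
  have hLe : L ≤ (x : ℝ) ^ e := by
    have := hx2 x ((le_max_right _ _).trans hx)
    rwa [pow_one, ← hL] at this
  have hL3 : 3 ≤ L := hL03.trans hLL0
  have hx3 : 3 ≤ x := hx23.trans ((le_max_right _ _).trans hx)
  have hx0 : (0 : ℝ) < x := by exact_mod_cast (by omega : 0 < x)
  have hx1' : (1 : ℝ) ≤ x := by exact_mod_cast (by omega : 1 ≤ x)
  obtain ⟨K, hK⟩ : ∃ K : ℕ, K = ⌊(x : ℝ) ^ (1 / 2 : ℝ)⌋₊ + 1 := ⟨_, rfl⟩
  have hM1 : 1 ≤ (x : ℝ) ^ (1 / 2 : ℝ) := one_le_rpow hx1' (by norm_num)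
  have hKM : (K : ℝ) ≤ 2 * (x : ℝ) ^ (1 / 2 : ℝ) := by
    rw [hK]
    push_cast
    have := Nat.floor_le (by linarith : 0 ≤ (x : ℝ) ^ (1 / 2 : ℝ))
    linarith
  have hK1 : 1 ≤ K := by omega
  have hK0 : (0 : ℝ) < K := by exact_mod_cast hK1
  have hKL : log K ≤ 2 * L := by
    have h1 := log_le_log hK0 hKM
    rw [log_mul (by norm_num) (by linarith), log_rpow hx0, ← hL] at h1
    have := log_two_lt_d9
    linarith
  obtain ⟨A, hA⟩ : ∃ A : ℕ, A = ⌊(x : ℝ) ^ (2 * τ)⌋₊ + 1 := ⟨_, rfl⟩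
  obtain ⟨B, hB⟩ : ∃ B : ℕ, B = ⌊(x : ℝ) ^ τ⌋₊ + 1 := ⟨_, rfl⟩
  have hA1 : 1 ≤ (x : ℝ) ^ (2 * τ) := one_le_rpow hx1' (by linarith)
  have hB1 : 1 ≤ (x : ℝ) ^ τ := one_le_rpow hx1' (by linarith)
  have hA2 : (A : ℝ) ≤ 2 * (x : ℝ) ^ (2 * τ) := by
    rw [hA]
    push_cast
    have := Nat.floor_le (by linarith : 0 ≤ (x : ℝ) ^ (2 * τ))
    linarith
  have hB2 : (B : ℝ) ≤ 2 * (x : ℝ) ^ τ := by
    rw [hB]
    push_cast
    have := Nat.floor_le (by linarith : 0 ≤ (x : ℝ) ^ τ)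
    linarith
  obtain ⟨T, hT⟩ : ∃ T : ℕ × ℕ → Finset ℕ, ∀ w, T w =
      (range K).filter (fun G => PQ x (w.1 * G + 1) (w.2 * G + 1)) := ⟨_, fun _ => rfl⟩
  have hcov : N ⊆ (range A ×ˢ range B).biUnion
      (fun w => (T w).image (fun G => (w.1 * G + 1) * (w.2 * G + 1))) := by
    intro n hn
    obtain ⟨p, q, hnpq, hPQ, hG⟩ := hN n hn
    obtain ⟨h1, h2, h3, h4, h5, h6, h7, h8⟩ := hPQ
    obtain ⟨g1, g2, g3, g4⟩ := gcd_facts h1.two_le h2.two_le
    obtain ⟨G, hGG⟩ : ∃ G, G = Nat.gcd (p - 1) (q - 1) := ⟨_, rfl⟩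
    rw [← hGG] at hG g1 g2 g3 g4
    have hq2 := h2.two_le
    have hG0 : (0 : ℝ) < G := by exact_mod_cast g1
    have hqs : (q : ℝ) ≤ (x : ℝ) ^ (1 / 2 : ℝ) := by
      have a1 : q * q ≤ x := (Nat.mul_le_mul_right q h3.le).trans h4
      have a2 : (q : ℝ) * q ≤ x := by exact_mod_cast a1
      have a3 : (q : ℝ) = ((q : ℝ) * q) ^ (1 / 2 : ℝ) := by
        rw [mul_rpow (Nat.cast_nonneg _) (Nat.cast_nonneg _), ← rpow_add (by positivity)]
        norm_num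
      rw [a3]
      exact rpow_le_rpow (by positivity) a2 (by norm_num)
    rw [mem_biUnion]
    refine ⟨((p - 1) / G, (q - 1) / G), ?_, ?_⟩
    · rw [mem_product, mem_range, mem_range, hA, hB]
      constructor
      · rw [Nat.lt_succ_iff]
        apply Nat.le_floor
        have a1 : (p - 1) / G * G * G ≤ x := by
          calc (p - 1) / G * G * G ≤ p * q := Nat.mul_le_mul (by omega) (by omega)
            _ ≤ x := h4
        have a2 : (((p - 1) / G : ℕ) : ℝ) * (G * G) ≤ x := by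
          have : (((p - 1) / G * G * G : ℕ) : ℝ) ≤ x := by exact_mod_cast a1
          push_cast at this
          linarith
        have a3 : (x : ℝ) ^ (1 - 2 * τ) ≤ (G : ℝ) * G := by
          have : (x : ℝ) ^ (1 - 2 * τ) = (x : ℝ) ^ (1 / 2 - τ) * (x : ℝ) ^ (1 / 2 - τ) := by
            rw [← rpow_add hx0]; congr 1; ring
          rw [this]
          exact mul_le_mul hG hG (by positivity) hG0.le
        have a4 : (((p - 1) / G : ℕ) : ℝ) * (x : ℝ) ^ (1 - 2 * τ) ≤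
            (x : ℝ) ^ (2 * τ) * (x : ℝ) ^ (1 - 2 * τ) := by
          calc (((p - 1) / G : ℕ) : ℝ) * (x : ℝ) ^ (1 - 2 * τ) ≤
              (((p - 1) / G : ℕ) : ℝ) * (G * G) := mul_le_mul_of_nonneg_left a3 (Nat.cast_nonneg _)
            _ ≤ x := a2
            _ = _ := by rw [← rpow_add hx0]; norm_num
        exact le_of_mul_le_mul_right a4 (by positivity)
      · rw [Nat.lt_succ_iff]
        apply Nat.le_floor
        have a2 : (((q - 1) / G : ℕ) : ℝ) * G ≤ (x : ℝ) ^ (1 / 2 : ℝ) := by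
          have : (((q - 1) / G * G : ℕ) : ℝ) ≤ q := by exact_mod_cast (by omega)
          push_cast at this
          linarith
        have a4 : (((q - 1) / G : ℕ) : ℝ) * (x : ℝ) ^ (1 / 2 - τ) ≤
            (x : ℝ) ^ τ * (x : ℝ) ^ (1 / 2 - τ) := by
          calc (((q - 1) / G : ℕ) : ℝ) * (x : ℝ) ^ (1 / 2 - τ) ≤
              (((q - 1) / G : ℕ) : ℝ) * G := mul_le_mul_of_nonneg_left hG (Nat.cast_nonneg _)
            _ ≤ (x : ℝ) ^ (1 / 2 : ℝ) := a2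
            _ = _ := by rw [← rpow_add hx0]; congr 1; ring
        exact le_of_mul_le_mul_right a4 (by positivity)
    · rw [mem_image]
      refine ⟨G, ?_, ?_⟩
      · rw [hT, mem_filter, mem_range]
        simp only
        rw [g2, g3]
        refine ⟨?_, h1, h2, h3, h4, h5, h6, h7, h8⟩
        rw [hK, Nat.lt_succ_iff]
        apply Nat.le_floor
        have : (G : ℝ) ≤ q := by exact_mod_cast (by omega)
        linarith
      · simp only
        rw [g2, g3, hnpq]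
  have h1 : (N.card : ℝ) ≤ ∑ w ∈ range A ×ˢ range B, ((T w).card : ℝ) := by
    have h2 := (card_le_card hcov).trans (card_biUnion_le.trans
      (sum_le_sum fun w _ => card_image_le (s := T w)
        (f := fun G => (w.1 * G + 1) * (w.2 * G + 1))))
    exact_mod_cast h2
  refine h1.trans ?_
  have hKe : (K : ℝ) ^ (4 / 5 + e) ≤ 4 * (x : ℝ) ^ (2 / 5 + e / 2) := by
    calc (K : ℝ) ^ (4 / 5 + e) ≤ (2 * (x : ℝ) ^ (1 / 2 : ℝ)) ^ (4 / 5 + e) :=
          rpow_le_rpow hK0.le hKM (by linarith)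
      _ = 2 ^ (4 / 5 + e) * ((x : ℝ) ^ (1 / 2 : ℝ)) ^ (4 / 5 + e) :=
          mul_rpow (by norm_num) (by linarith)
      _ ≤ 4 * ((x : ℝ) ^ (1 / 2 : ℝ)) ^ (4 / 5 + e) := by
          apply mul_le_mul_of_nonneg_right (two_rpow_le (by linarith)) (by positivity)
      _ = 4 * (x : ℝ) ^ (2 / 5 + e / 2) := by
          rw [← rpow_mul hx0.le]; congr 2; ring
  have h2 : ∀ w ∈ range A ×ˢ range B, ((T w).card : ℝ) ≤ 2 * L * (4 * (x : ℝ) ^ (2 / 5 + e / 2)) := by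
    intro w hw
    rw [mem_product, mem_range, mem_range] at hw
    rcases (T w).eq_empty_or_nonempty with hTe | ⟨G, hGT⟩
    · rw [hTe, card_empty, Nat.cast_zero]; positivity
    · have hGT' := hGT
      rw [hT, mem_filter] at hGT'
      obtain ⟨_, b1, b2, b3, b4, b5, _⟩ := hGT'
      have c1 : 1 ≤ w.1 := by
        rcases Nat.eq_zero_or_pos w.1 with h | h
        · rw [h, zero_mul] at b1; exact absurd b1 (by norm_num)
        · exact h
      have c2 : 1 ≤ w.2 := by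
        rcases Nat.eq_zero_or_pos w.2 with h | h
        · rw [h, zero_mul] at b2; exact absurd b2 (by norm_num)
        · exact h
      have c3 : w.1 ≠ w.2 := by
        intro h; rw [h] at b3; omega
      have c4 : log (w.1 : ℝ) ≤ L := by
        rw [hL]
        apply log_le_log (by exact_mod_cast c1)
        have d1 : (w.1 : ℝ) ≤ ⌊(x : ℝ) ^ (2 * τ)⌋₊ := by exact_mod_cast (by omega)
        have d2 := Nat.floor_le (by linarith : 0 ≤ (x : ℝ) ^ (2 * τ))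
        have d3 : (x : ℝ) ^ (2 * τ) ≤ (x : ℝ) ^ (1 : ℝ) :=
          rpow_le_rpow_of_exponent_le hx1' (by linarith)
        rw [rpow_one] at d3
        linarith
      have c5 : log (w.2 : ℝ) ≤ L := by
        rw [hL]
        apply log_le_log (by exact_mod_cast c2)
        have d1 : (w.2 : ℝ) ≤ ⌊(x : ℝ) ^ τ⌋₊ := by exact_mod_cast (by omega)
        have d2 := Nat.floor_le (by linarith : 0 ≤ (x : ℝ) ^ τ)
        have d3 : (x : ℝ) ^ τ ≤ (x : ℝ) ^ (1 : ℝ) :=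
          rpow_le_rpow_of_exponent_le hx1' (by linarith)
        rw [rpow_one] at d3
        linarith
      refine (hL0 L hLL0 w.1 w.2 K c1 c2 c3 c4 c5 hK1 hKL (T w)
        (by rw [hT]; exact filter_subset _ _) ?_).trans ?_
      · intro k hk
        rw [hT, mem_filter] at hk
        obtain ⟨_, b1, b2, b3, b4, b5, b6, b7, b8⟩ := hk
        have e1 : ⌊L ^ 2⌋₊ = yy x := by rw [hL]; rfl
        rw [e1]
        exact ⟨b1, b2, b5.trans b3, b5, b7, b6⟩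
      · exact mul_le_mul_of_nonneg_left hKe (by linarith)
  refine (sum_le_sum h2).trans ?_
  rw [sum_const, card_product, card_range, card_range, nsmul_eq_mul]
  push_cast
  have e1 : (x : ℝ) ^ (3 * τ + 2 / 5 + 3 / 2 * e) =
      (x : ℝ) ^ (2 * τ) * (x : ℝ) ^ τ * ((x : ℝ) ^ e * (x : ℝ) ^ (2 / 5 + e / 2)) := by
    rw [← rpow_add hx0, ← rpow_add hx0, ← rpow_add hx0]; congr 1; ring
  rw [e1]
  calc (A : ℝ) * B * (2 * L * (4 * (x : ℝ) ^ (2 / 5 + e / 2))) ≤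
      (2 * (x : ℝ) ^ (2 * τ)) * (2 * (x : ℝ) ^ τ) * (2 * (x : ℝ) ^ e * (4 * (x : ℝ) ^ (2 / 5 + e / 2))) := by
        gcongr
    _ = _ := by ring

/-- small common divisor -/
theorem pairs_small (e τ : ℝ) (he : 0 < e) (he1 : e ≤ 1 / 8) (hτ : 0 < τ) (hτ1 : τ < 1 / 2) :
    ∃ C : ℝ, 0 < C ∧ ∃ x0 : ℕ, ∀ x : ℕ, x0 ≤ x → ∀ N : Finset ℕ,
    (∀ n ∈ N, ∃ p q, n = p * q ∧ PQ x p q ∧
      (Nat.gcd (p - 1) (q - 1) : ℝ) ≤ (x : ℝ) ^ (1 / 2 - τ)) →
    (N.card : ℝ) ≤ C * (x : ℝ) ^ (1 / 2 - τ / 5 + 3 * e) := by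
  classical
  obtain ⟨L0, hL03, hL0⟩ := prog_bound e he (by linarith)
  obtain ⟨x1, hx1⟩ := ev_log_big L0
  obtain ⟨x2, hx23, hx2⟩ := ev_log_pow 3 e he
  obtain ⟨x4, hx4⟩ := few_gp (τ / 2) (by positivity) (by linarith)
  obtain ⟨C, hC, hdiv⟩ := Pool.Agent.Helper112.divisor_bound e he
  have hev1 : ∀ᶠ x : ℝ in Filter.atTop, (2 : ℝ) ≤ x ^ (τ / 2) :=
    (tendsto_rpow_atTop (by positivity)).eventually (Filter.eventually_ge_atTop _)
  obtain ⟨x5, hx5⟩ := Filter.eventually_atTop.mp hev1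
  obtain ⟨x6, hx6⟩ := exists_nat_ge x5
  refine ⟨288 * C, by positivity, max (max x1 x2) (max x4 x6), fun x hx N hN => ?_⟩
  have ha1 : x1 ≤ x := (le_max_left _ _).trans ((le_max_left _ _).trans hx)
  have ha2 : x2 ≤ x := (le_max_right _ _).trans ((le_max_left _ _).trans hx)
  have ha4 : x4 ≤ x := (le_max_left _ _).trans ((le_max_right _ _).trans hx)
  have ha6 : x6 ≤ x := (le_max_right _ _).trans ((le_max_right _ _).trans hx)
  have hx2τ := hx5 x (hx6.trans (by exact_mod_cast ha6))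
  obtain ⟨L, hL⟩ : ∃ L : ℝ, L = log x := ⟨_, rfl⟩
  have hLL0 : L0 ≤ L := by rw [hL]; exact hx1 x ha1
  have hLe : L ^ 3 ≤ (x : ℝ) ^ e := by
    have := hx2 x ha2
    rwa [← hL] at this
  have hL3 : 3 ≤ L := hL03.trans hLL0
  have hx3 : 3 ≤ x := hx23.trans ha2
  have hx0 : (0 : ℝ) < x := by exact_mod_cast (by omega : 0 < x)
  have hx1' : (1 : ℝ) ≤ x := by exact_mod_cast (by omega : 1 ≤ x)
  have hM1 : 1 ≤ (x : ℝ) ^ (1 / 2 : ℝ) := one_le_rpow hx1' (by norm_num)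
  obtain ⟨Js, hJs⟩ : ∃ Js : Finset ℕ, Js = (range (Nat.log 2 x + 1)).filter
      (fun j => ((2 : ℝ) ^ j) ≤ (x : ℝ) ^ (1 / 2 - τ)) := ⟨_, rfl⟩
  obtain ⟨K, hK⟩ : ∃ K : ℕ → ℕ, ∀ j, K j = ⌊(x : ℝ) ^ (1 / 2 : ℝ) / 2 ^ j⌋₊ + 1 := ⟨_, fun _ => rfl⟩
  obtain ⟨Q, hQ⟩ : ∃ Q : ℕ → Finset ℕ, ∀ j, Q j = (Icc 1 x).filter
      (fun p => p.Prime ∧ yy x < p ∧ gp (yy x) p ≤ 2 ^ (j + 1)) := ⟨_, fun _ => rfl⟩
  obtain ⟨T, hT⟩ : ∃ T : ℕ → ℕ → ℕ → Finset ℕ, ∀ j p G, T j p G =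
      (range (K j)).filter (fun k => PQ x p (G * k + 1)) := ⟨_, fun _ _ _ => rfl⟩
  have hcov : N ⊆ Js.biUnion (fun j => (Q j).biUnion (fun p => ((p - 1).divisors).biUnion
      (fun G => (T j p G).image (fun k => p * (G * k + 1))))) := by
    intro n hn
    obtain ⟨p, q, hnpq, hPQ, hG⟩ := hN n hn
    obtain ⟨h1, h2, h3, h4, h5, h6, h7, h8⟩ := id hPQ
    obtain ⟨g1, g2, g3, g4⟩ := gcd_facts h1.two_le h2.two_le
    obtain ⟨G, hGG⟩ : ∃ G, G = Nat.gcd (p - 1) (q - 1) := ⟨_, rfl⟩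
    have hgG : gp (yy x) p ∣ G := by
      rw [hGG]
      exact Nat.dvd_gcd (gp_dvd h1 (h5.trans h3)) h8
    have hGp : G ∣ p - 1 := by rw [hGG]; exact Nat.gcd_dvd_left _ _
    rw [← hGG] at hG g1 g2 g3 g4
    have hq2 := h2.two_le
    have hp2 := h1.two_le
    have hG0 : (0 : ℝ) < G := by exact_mod_cast g1
    have hqs : (q : ℝ) ≤ (x : ℝ) ^ (1 / 2 : ℝ) := by
      have a1 : q * q ≤ x := (Nat.mul_le_mul_right q h3.le).trans h4
      have a2 : (q : ℝ) * q ≤ x := by exact_mod_cast a1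
      have a3 : (q : ℝ) = ((q : ℝ) * q) ^ (1 / 2 : ℝ) := by
        rw [mul_rpow (Nat.cast_nonneg _) (Nat.cast_nonneg _), ← rpow_add (by positivity)]
        norm_num
      rw [a3]
      exact rpow_le_rpow (by positivity) a2 (by norm_num)
    have hqx : q ≤ x := by
      calc q = 1 * q := (one_mul q).symm
        _ ≤ p * q := Nat.mul_le_mul_right q (by omega)
        _ ≤ x := h4
    have hpx : p ≤ x := by
      calc p = p * 1 := (mul_one p).symm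
        _ ≤ p * q := Nat.mul_le_mul_left p (by omega)
        _ ≤ x := h4
    obtain ⟨j, hj⟩ : ∃ j, j = Nat.log 2 G := ⟨_, rfl⟩
    have hj1 : 2 ^ j ≤ G := by rw [hj]; exact Nat.pow_log_le_self 2 (by omega)
    have hj2 : G < 2 ^ (j + 1) := by rw [hj]; exact Nat.lt_pow_succ_log_self (by norm_num) G
    have hj1r : (2 : ℝ) ^ j ≤ G := by exact_mod_cast hj1
    rw [mem_biUnion]
    refine ⟨j, ?_, ?_⟩
    · rw [hJs, mem_filter, mem_range]
      refine ⟨?_, hj1r.trans hG⟩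
      rw [hj, Nat.lt_succ_iff]
      exact Nat.log_mono_right (by omega)
    · rw [mem_biUnion]
      refine ⟨p, ?_, ?_⟩
      · rw [hQ, mem_filter, mem_Icc]
        have := Nat.le_of_dvd g1 hgG
        exact ⟨⟨by omega, hpx⟩, h1, h5.trans h3, by omega⟩
      · rw [mem_biUnion]
        refine ⟨G, Nat.mem_divisors.mpr ⟨hGp, by omega⟩, ?_⟩
        rw [mem_image]
        have g3' : G * ((q - 1) / G) + 1 = q := by rw [mul_comm]; exact g3
        refine ⟨(q - 1) / G, ?_, by rw [g3', hnpq]⟩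
        rw [hT, mem_filter, mem_range, g3', hK, Nat.lt_succ_iff]
        refine ⟨?_, hPQ⟩
        apply Nat.le_floor
        rw [le_div_iff₀ (by positivity)]
        have a1 : (((q - 1) / G : ℕ) : ℝ) * 2 ^ j ≤ (((q - 1) / G : ℕ) : ℝ) * G :=
          mul_le_mul_of_nonneg_left hj1r (Nat.cast_nonneg _)
        have a2 : (((q - 1) / G * G : ℕ) : ℝ) ≤ q := by exact_mod_cast (by omega)
        push_cast at a2
        linarith
  -- the bound for the innermost sets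
  have hTb : ∀ j ∈ Js, ∀ p ∈ Q j, ∀ G ∈ (p - 1).divisors, ((T j p G).card : ℝ) ≤
      8 * L * ((x : ℝ) ^ (1 / 2 : ℝ) / 2 ^ j) ^ (4 / 5 + e) := by
    intro j hj p hp G hG
    rw [hJs, mem_filter] at hj
    rw [hQ, mem_filter, mem_Icc] at hp
    have hG1 : 1 ≤ G := Nat.pos_of_mem_divisors hG
    have hGx : G ≤ x := (Nat.divisor_le hG).trans (by omega)
    have h2j : (0 : ℝ) < 2 ^ j := by positivity
    have hMj : 1 ≤ (x : ℝ) ^ (1 / 2 : ℝ) / 2 ^ j := by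
      rw [one_le_div h2j]
      exact hj.2.trans (rpow_le_rpow_of_exponent_le hx1' (by linarith))
    have hKM : (K j : ℝ) ≤ 2 * ((x : ℝ) ^ (1 / 2 : ℝ) / 2 ^ j) := by
      rw [hK]
      push_cast
      have := Nat.floor_le (by linarith : 0 ≤ (x : ℝ) ^ (1 / 2 : ℝ) / 2 ^ j)
      linarith
    have hK1 : 1 ≤ K j := by rw [hK]; omega
    have hK0 : (0 : ℝ) < K j := by exact_mod_cast hK1
    have hKL : log (K j) ≤ 2 * L := by
      have h0 : 2 * ((x : ℝ) ^ (1 / 2 : ℝ) / 2 ^ j) ≤ 2 * (x : ℝ) ^ (1 / 2 : ℝ) := by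
        apply mul_le_mul_of_nonneg_left _ (by norm_num)
        apply div_le_self (by linarith)
        exact one_le_pow₀ (by norm_num)
      have h1 := log_le_log hK0 (hKM.trans h0)
      rw [log_mul (by norm_num) (by linarith), log_rpow hx0, ← hL] at h1
      have := log_two_lt_d9
      linarith
    have hGL : log G ≤ 10 * L := by
      have h1 : log (G : ℝ) ≤ log x :=
        log_le_log (by exact_mod_cast hG1) (by exact_mod_cast hGx)
      rw [← hL] at h1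
      linarith
    have h1 := hL0 L hLL0 G (K j) hG1 hGL hK1 hKL (o2 p) (v2 p) (T j p G)
      (by rw [hT]; exact filter_subset _ _) (fun k hk => by
        rw [hT, mem_filter] at hk
        obtain ⟨_, b1, b2, b3, b4, b5, b6, b7, b8⟩ := hk
        have e1 : ⌊L ^ 2⌋₊ = yy x := by rw [hL]; rfl
        rw [e1]
        exact ⟨b2, b5, b7.symm, fun ℓ hℓ => (b6 ℓ hℓ).symm⟩)
    refine h1.trans ?_
    have h2 : (K j : ℝ) ^ (4 / 5 + e) ≤ 4 * ((x : ℝ) ^ (1 / 2 : ℝ) / 2 ^ j) ^ (4 / 5 + e) := by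
      calc (K j : ℝ) ^ (4 / 5 + e) ≤ (2 * ((x : ℝ) ^ (1 / 2 : ℝ) / 2 ^ j)) ^ (4 / 5 + e) :=
            rpow_le_rpow hK0.le hKM (by linarith)
        _ = 2 ^ (4 / 5 + e) * ((x : ℝ) ^ (1 / 2 : ℝ) / 2 ^ j) ^ (4 / 5 + e) :=
            mul_rpow (by norm_num) (by linarith)
        _ ≤ _ := by
            apply mul_le_mul_of_nonneg_right (two_rpow_le (by linarith)) (by positivity)
    calc 2 * L * (K j : ℝ) ^ (4 / 5 + e) ≤
        2 * L * (4 * ((x : ℝ) ^ (1 / 2 : ℝ) / 2 ^ j) ^ (4 / 5 + e)) :=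
          mul_le_mul_of_nonneg_left h2 (by linarith)
      _ = _ := by ring
  have h1 : (N.card : ℝ) ≤ ∑ j ∈ Js, ∑ p ∈ Q j, ∑ G ∈ (p - 1).divisors, ((T j p G).card : ℝ) := by
    have h2 : N.card ≤ ∑ j ∈ Js, ∑ p ∈ Q j, ∑ G ∈ (p - 1).divisors, (T j p G).card := by
      refine (card_le_card hcov).trans (card_biUnion_le.trans (sum_le_sum fun j _ => ?_))
      refine card_biUnion_le.trans (sum_le_sum fun p _ => ?_)
      exact card_biUnion_le.trans (sum_le_sum fun G _ => card_image_le)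
    exact_mod_cast h2
  refine h1.trans ?_
  have h2 : ∀ j ∈ Js, ∑ p ∈ Q j, ∑ G ∈ (p - 1).divisors, ((T j p G).card : ℝ) ≤
      96 * C * L ^ 2 * (x : ℝ) ^ (1 / 2 - τ / 5 + 2 * e) := by
    intro j hj
    obtain ⟨B, hB⟩ : ∃ B : ℝ, B = 8 * L * ((x : ℝ) ^ (1 / 2 : ℝ) / 2 ^ j) ^ (4 / 5 + e) := ⟨_, rfl⟩
    have hB0 : 0 ≤ B := by rw [hB]; positivity
    have h3 : ∑ p ∈ Q j, ∑ G ∈ (p - 1).divisors, ((T j p G).card : ℝ) ≤
        ((Q j).card : ℝ) * (C * (x : ℝ) ^ e * B) := by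
      rw [← nsmul_eq_mul, ← sum_const]
      apply sum_le_sum
      intro p hp
      have h4 : ∑ G ∈ (p - 1).divisors, ((T j p G).card : ℝ) ≤ ((p - 1).divisors.card : ℝ) * B := by
        rw [← nsmul_eq_mul, ← sum_const]
        apply sum_le_sum
        intro G hG
        rw [hB]
        exact hTb j hj p hp G hG
      refine h4.trans ?_
      apply mul_le_mul_of_nonneg_right _ hB0
      rw [hQ, mem_filter, mem_Icc] at hp
      have hp2 := hp.2.1.two_le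
      refine (hdiv (p - 1) (by omega)).trans ?_
      apply mul_le_mul_of_nonneg_left _ hC.le
      apply rpow_le_rpow (Nat.cast_nonneg _) _ he.le
      exact_mod_cast (by omega : p - 1 ≤ x)
    refine h3.trans ?_
    have hj' := hj
    rw [hJs, mem_filter] at hj'
    have hQc : ((Q j).card : ℝ) ≤ 12 * L * 2 ^ j := by
      have h4 := hx4 x ha4 (2 ^ (j + 1)) (by
        push_cast
        rw [pow_succ]
        have e1 : (x : ℝ) ^ (1 / 2 - τ / 2) = (x : ℝ) ^ (1 / 2 - τ) * (x : ℝ) ^ (τ / 2) := by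
          rw [← rpow_add hx0]; congr 1; ring
        rw [e1]
        exact mul_le_mul hj'.2 hx2τ (by norm_num) (by positivity)) (Q j) (fun p hp => by
        rw [hQ, mem_filter] at hp
        exact hp.2)
      rw [← hL] at h4
      refine h4.trans (le_of_eq ?_)
      push_cast
      ring
    have h5 : (2 : ℝ) ^ j * ((x : ℝ) ^ (1 / 2 : ℝ) / 2 ^ j) ^ (4 / 5 + e) ≤
        (x : ℝ) ^ (1 / 2 - τ / 5 + e) := by
      have h2j : (0 : ℝ) < 2 ^ j := by positivity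
      obtain ⟨t, ht⟩ : ∃ t : ℝ, t = (2 : ℝ) ^ j := ⟨_, rfl⟩
      have ht2 := hj'.2
      rw [← ht] at h2j ht2 ⊢
      rw [div_rpow (by linarith) h2j.le, ← rpow_mul hx0.le]
      have e1 : t * ((x : ℝ) ^ (1 / 2 * (4 / 5 + e)) / t ^ (4 / 5 + e)) =
          (x : ℝ) ^ (1 / 2 * (4 / 5 + e)) * t ^ (1 / 5 - e) := by
        have : t = t ^ (1 / 5 - e) * t ^ (4 / 5 + e) := by
          rw [← rpow_add h2j]; norm_num
        nth_rewrite 1 [this]
        field_simp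
      rw [e1]
      have e2 : t ^ (1 / 5 - e) ≤ ((x : ℝ) ^ (1 / 2 - τ)) ^ (1 / 5 - e) :=
        rpow_le_rpow h2j.le ht2 (by linarith)
      rw [← rpow_mul hx0.le] at e2
      calc (x : ℝ) ^ (1 / 2 * (4 / 5 + e)) * t ^ (1 / 5 - e) ≤
          (x : ℝ) ^ (1 / 2 * (4 / 5 + e)) * (x : ℝ) ^ ((1 / 2 - τ) * (1 / 5 - e)) :=
            mul_le_mul_of_nonneg_left e2 (by positivity)
        _ = (x : ℝ) ^ (1 / 2 * (4 / 5 + e) + (1 / 2 - τ) * (1 / 5 - e)) := by rw [rpow_add hx0]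
        _ ≤ _ := rpow_le_rpow_of_exponent_le hx1' (by nlinarith)
    calc ((Q j).card : ℝ) * (C * (x : ℝ) ^ e * B) ≤ (12 * L * 2 ^ j) * (C * (x : ℝ) ^ e * B) :=
          mul_le_mul_of_nonneg_right hQc (by positivity)
      _ = 96 * C * L ^ 2 * ((x : ℝ) ^ e *
          ((2 : ℝ) ^ j * ((x : ℝ) ^ (1 / 2 : ℝ) / 2 ^ j) ^ (4 / 5 + e))) := by rw [hB]; ring
      _ ≤ 96 * C * L ^ 2 * ((x : ℝ) ^ e * (x : ℝ) ^ (1 / 2 - τ / 5 + e)) := by gcongr
      _ = _ := by rw [← rpow_add hx0]; congr 2; ring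
  refine (sum_le_sum h2).trans ?_
  rw [sum_const, nsmul_eq_mul]
  have h6 : (Js.card : ℝ) ≤ 3 * L := by
    have h7 : Js.card ≤ Nat.log 2 x + 1 := by
      rw [hJs]
      exact (card_filter_le _ _).trans (by rw [card_range])
    have h8 : (Js.card : ℝ) ≤ Nat.log 2 x + 1 := by exact_mod_cast h7
    have h9 := natlog_le (by omega : 1 ≤ x)
    rw [← hL] at h9
    linarith
  calc (Js.card : ℝ) * (96 * C * L ^ 2 * (x : ℝ) ^ (1 / 2 - τ / 5 + 2 * e)) ≤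
      (3 * L) * (96 * C * L ^ 2 * (x : ℝ) ^ (1 / 2 - τ / 5 + 2 * e)) :=
        mul_le_mul_of_nonneg_right h6 (by positivity)
    _ = 288 * C * (L ^ 3 * (x : ℝ) ^ (1 / 2 - τ / 5 + 2 * e)) := by ring
    _ ≤ 288 * C * ((x : ℝ) ^ e * (x : ℝ) ^ (1 / 2 - τ / 5 + 2 * e)) := by gcongr
    _ = _ := by rw [← rpow_add hx0]; congr 2; ring

end Run7.h306
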