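import Pool.Agent.Run7.h306.CaseD
import Pool.Agent.Run7.h306.CaseP

set_option autoImplicit false

/-! Assembly: fewer than the square root. -/

namespace Run7.h306

open Finset Real Pool.Agent.H379R2.W Pool.Agent.W57.SW

/-- the classification of the exceptions -/
lemma classify {x n P0 : ℕ} {δ τ φ : ℝ} (hy : 2 ≤ yy x) (hx1 : 1 ≤ x) (hnx : n ≤ x)
    (hX : Xn (yy x) n) (hs : Squarefree n)
    (hP0 : P0 = ⌊(x : ℝ) ^ δ⌋₊) (hδ : 0 < δ) (hP1 : 1 ≤ P0) {Z : ℝ} (hZ1 : 1 ≤ Z) (hZP : (P0 : ℝ) ≤ Z)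
    (hZn : Z < n) :
    (∃ m : ℕ, 2 ≤ m ∧ (m : ℝ) ≤ (x : ℝ) ^ (1 - δ) ∧ m ∈ ET x x ∧ ∃ p, n = p * m ∧ Ex x m p) ∨
    (∃ m : ℕ, 2 ≤ m ∧ (m : ℝ) ≤ (x : ℝ) ^ (1 - δ) ∧ m ∈ DD x x ∧ ∃ p, n = p * m ∧ Ex x m p) ∨
    (∃ m, 2 ≤ m ∧ m ≤ P0 ∧ ∃ p, n = p * m ∧ Ex x m p) ∨
    (∃ p q, n = p * q ∧ PQ x p q ∧ (x : ℝ) ^ (1 / 2 - τ) ≤ (Nat.gcd (p - 1) (q - 1) : ℝ)) ∨
    (∃ p q, n = p * q ∧ PQ x p q ∧ (Nat.gcd (p - 1) (q - 1) : ℝ) ≤ (x : ℝ) ^ (1 / 2 - τ)) ∨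
    (Xn (yy x) n ∧ ∃ D, D ∣ n ∧ Ty x D ∧ 2 ≤ D ∧ ¬ D.Prime ∧ Z < D ∧ (D : ℝ) ≤ Z * (x : ℝ) ^ δ ∧
      (x : ℝ) ^ φ ≤ ff x D) ∨
    (Xn (yy x) n ∧ Ty x n ∧ n.minFac ≤ P0 ∧ ∃ D, D ∣ n ∧ Z < D ∧ (ff x D : ℝ) ≤ (x : ℝ) ^ φ) := by
  have hn2 := hX.1
  have hx0 : (0 : ℝ) < x := by exact_mod_cast hx1
  have hty := hX.ty hy hs
  have hP0x : (P0 : ℝ) ≤ (x : ℝ) ^ δ := by rw [hP0]; exact Nat.floor_le (by positivity)
  have hP0x' : (x : ℝ) ^ δ < P0 + 1 := by rw [hP0]; exact Nat.lt_floor_add_one _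
  have hne : n.primeFactors.Nonempty := Nat.nonempty_primeFactors.mpr (by omega)
  obtain ⟨p, hp, hpmax⟩ := exists_max_image n.primeFactors id hne
  rw [Nat.mem_primeFactors] at hp
  obtain ⟨hpp, hpn, hn0⟩ := hp
  simp only [id] at hpmax
  rcases le_or_gt p P0 with hle | hgt
  · -- all primes small
    right; right; right; right; right
    have hall : ∀ q : ℕ, q.Prime → q ∣ n → q ≤ P0 := fun q hq hqn =>
      (hpmax q (Nat.mem_primeFactors.mpr ⟨hq, hqn, hn0⟩)).trans hle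
    obtain ⟨D, hD1, hD2, hD3⟩ := exists_divisor (by omega : 1 ≤ n) hZ1 hZn hall
    have hD1' : (1 : ℝ) < D := lt_of_le_of_lt hZ1 hD2
    have hD2' : 2 ≤ D := by exact_mod_cast hD1'
    have hDp : ¬ D.Prime := by
      intro h
      have h1 := hall D h hD1
      have h2 : (D : ℝ) ≤ P0 := by exact_mod_cast h1
      linarith
    rcases le_total ((x : ℝ) ^ φ) (ff x D) with h | h
    · left
      refine ⟨hX, D, hD1, hty.dvd hD1, hD2', hDp, hD2, hD3.trans ?_, h⟩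
      exact mul_le_mul_of_nonneg_left hP0x (by linarith)
    · right
      exact ⟨hX, hty, hall _ (Nat.minFac_prime (by omega)) (Nat.minFac_dvd n), D, hD1, hD2, h⟩
  · obtain ⟨m, hm⟩ := hpn
    have hpn : p ∣ n := ⟨m, hm⟩
    have hmn : m ∣ n := ⟨p, by rw [hm, mul_comm]⟩
    have hm0 : 0 < m := Nat.pos_of_dvd_of_pos hmn (by omega)
    have hm1 : m ≠ 1 := by
      rintro rfl
      rw [mul_one] at hm
      exact hX.2.1 (hm ▸ hpp)
    have hm2 : 2 ≤ m := by omega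
    have hmx : m ≤ x := (Nat.le_of_dvd (by omega) hmn).trans hnx
    have hgtr : (x : ℝ) ^ δ < p := by
      have : (P0 : ℝ) + 1 ≤ p := by exact_mod_cast hgt
      linarith
    have hcof : ∀ p' m' : ℕ, p' * m' ≤ x → (x : ℝ) ^ δ < p' → (m' : ℝ) ≤ (x : ℝ) ^ (1 - δ) := by
      intro p' m' h1 h2
      have h3 : (p' : ℝ) * m' ≤ x := by exact_mod_cast h1
      have h4 : (x : ℝ) ^ δ * m' ≤ (x : ℝ) ^ δ * (x : ℝ) ^ (1 - δ) := by
        calc (x : ℝ) ^ δ * m' ≤ p' * m' := mul_le_mul_of_nonneg_right h2.le (Nat.cast_nonneg _)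
          _ ≤ x := h3
          _ = _ := by rw [← rpow_add hx0]; norm_num
      exact le_of_mul_le_mul_left h4 (by positivity)
    have hpm : p * m ≤ x := by rw [← hm]; exact hnx
    have hmle := hcof p m hpm hgtr
    have hEx : Ex x m p := ⟨hpm, hty.cs_cof hm1 hmn hpp hpn, hX.gp_dvd_cof hpp hm⟩
    by_cases hmp : m.Prime
    · -- two primes
      have hmle' : m ≤ p := hpmax m (Nat.mem_primeFactors.mpr ⟨hmp, hmn, hn0⟩)
      have hne' : m ≠ p := by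
        rintro rfl
        have h1 := Nat.squarefree_iff_prime_squarefree.mp hs m hmp
        exact h1 (by rw [hm])
      have hlt : m < p := by omega
      have hpx : p ≤ x := (Nat.le_of_dvd (by omega) hpn).trans hnx
      have hyp := hX.prime_gt hpp hpn
      have hym := hX.prime_gt hmp hmn
      have hsame : ∀ ℓ ∈ opr (yy x), o2 p ℓ = o2 m ℓ := fun ℓ hℓ => hty.2.2 p m hpp hmp hpn hmn ℓ hℓ
      have hnd : ∀ q : ℕ, q.Prime → yy x < q → ∀ ℓ ∈ opr (yy x), ¬ q ∣ ℓ := by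
        intro q hq hyq ℓ hℓ hd
        rw [mem_opr] at hℓ
        have := Nat.le_of_dvd hℓ.1.pos hd
        omega
      have hpodd : p ≠ 2 := by omega
      have hmodd : m ≠ 2 := by omega
      rcases lt_trichotomy (v2 p) (v2 m) with hv | hv | hv
      · -- `m` has symbol one
        right; left
        refine ⟨m, hm2, hmle, ?_, p, hm, hEx⟩
        rw [mem_DD]
        refine ⟨⟨by omega, hmx⟩, hmp.odd_of_ne_two hmodd, hmp.squarefree, fun ℓ hℓ => ?_⟩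
        rw [symbol_o2 hmp hmodd (hnd m hmp hym ℓ hℓ), ← hsame ℓ hℓ]
        have := o2_le hpp (hnd p hpp hyp ℓ hℓ)
        rw [if_neg (by omega)]
      · right; right; right
        have hPQ : PQ x p m := ⟨hpp, hmp, hlt, hpm, hym, hsame, hv, hEx.2.2⟩
        rcases le_total ((x : ℝ) ^ (1 / 2 - τ)) (Nat.gcd (p - 1) (m - 1) : ℝ) with h | h
        · left; exact ⟨p, m, hm, hPQ, h⟩
        · right; left; exact ⟨p, m, hm, hPQ, h⟩
      · -- `p` has symbol one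
        have hpDD : p ∈ DD x x := by
          rw [mem_DD]
          refine ⟨⟨by omega, hpx⟩, hpp.odd_of_ne_two hpodd, hpp.squarefree, fun ℓ hℓ => ?_⟩
          rw [symbol_o2 hpp hpodd (hnd p hpp hyp ℓ hℓ), hsame ℓ hℓ]
          have := o2_le hmp (hnd m hmp hym ℓ hℓ)
          rw [if_neg (by omega)]
        rcases le_or_gt m P0 with hmP | hmP
        · right; right; left
          exact ⟨m, hm2, hmP, p, hm, hEx⟩
        · right; left
          have hmr : (x : ℝ) ^ δ < m := by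
            have : (P0 : ℝ) + 1 ≤ m := by exact_mod_cast hmP
            linarith
          have hm' : n = m * p := by rw [hm, mul_comm]
          have hp1 : p ≠ 1 := hpp.one_lt.ne'
          refine ⟨p, hpp.two_le, hcof m p (by rw [← hm']; exact hnx) hmr, hpDD, m, hm', ?_⟩
          exact ⟨by rw [← hm']; exact hnx, hty.cs_cof hp1 hpn hmp hmn, hX.gp_dvd_cof hmp hm'⟩
    · left
      refine ⟨m, hm2, hmle, ?_, p, hm, hEx⟩
      rw [mem_ET]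
      exact ⟨⟨by omega, hmx⟩, hty.dvd hmn, hm2, hmp⟩

lemma ev_top : ∃ x0 : ℕ, ∀ x : ℕ, x0 ≤ x → ∀ n : ℕ, n ≤ x → x < 2 * n → Bp n →
    Xn (yy x) n ∧ Squarefree n := by
  obtain ⟨N1, hN1⟩ := bp_squarefree
  obtain ⟨x1, hx1⟩ := ev_log_big 3
  refine ⟨max (2 * N1 + 6) x1, fun x hx n hnx hxn hb => ?_⟩
  have ha : 2 * N1 + 6 ≤ x := (le_max_left _ _).trans hx
  have hL := hx1 x ((le_max_right _ _).trans hx)
  have hn3 : 3 ≤ n := by omega
  have hnN : N1 ≤ n := by omega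
  refine ⟨⟨hb.1, hb.2.1, fun b hb1 hb2 => hb.2.2 b hb1 ?_⟩, hN1 n hnN hb⟩
  have hx0 : (0 : ℝ) < x := by exact_mod_cast (by omega : 0 < x)
  have hn0 : (0 : ℝ) < n := by exact_mod_cast (by omega : 0 < n)
  have h1 : (b : ℝ) ≤ yy x := by exact_mod_cast hb2
  have h2 : (yy x : ℝ) ≤ (log x) ^ 2 := Nat.floor_le (by positivity)
  have h3 : log x ≤ log 2 + log n := by
    rw [← log_mul (by norm_num) hn0.ne']
    apply log_le_log hx0
    exact_mod_cast hxn.le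
  have h4 := log_two_lt_d9
  have h5 : log x - 0.7 ≤ log n := by linarith
  nlinarith

lemma le_pow_of {x : ℕ} (hx : 1 ≤ x) {a c C : ℝ} (hC : 0 ≤ C) (h : a ≤ c) :
    C * (x : ℝ) ^ a ≤ C * (x : ℝ) ^ c :=
  mul_le_mul_of_nonneg_left (rpow_le_rpow_of_exponent_le (by exact_mod_cast hx) h) hC

open Classical in
/-- the exceptions in `(x/2, x]` -/
theorem top_count : ∃ K : ℝ, 0 < K ∧ ∃ x0 : ℕ, ∀ x : ℕ, x0 ≤ x →
    (((Icc 1 x).filter (fun n => Bp n ∧ x < 2 * n)).card : ℝ) ≤ K * (x : ℝ) ^ (499 / 1000 : ℝ) := by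
  obtain ⟨e, he⟩ : ∃ e : ℝ, e = 1 / 100000 := ⟨_, rfl⟩
  have he0 : 0 < e := by rw [he]; norm_num
  have he8 : e ≤ 1 / 8 := by rw [he]; norm_num
  obtain ⟨δ, hδ⟩ : ∃ δ : ℝ, δ = 1 / 80 := ⟨_, rfl⟩
  obtain ⟨τ, hτ⟩ : ∃ τ : ℝ, τ = 3 / 100 := ⟨_, rfl⟩
  obtain ⟨θ, hθ⟩ : ∃ θ : ℝ, θ = 197 / 200 := ⟨_, rfl⟩
  obtain ⟨φ, hφ⟩ : ∃ φ : ℝ, φ = 149 / 10000 := ⟨_, rfl⟩
  obtain ⟨ν, hν⟩ : ∃ ν : ℝ, ν = 47 / 100 := ⟨_, rfl⟩
  have hale : al e = (1 / 2 + e) * (4 / 5 + e) := rfl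
  obtain ⟨C1, hC1, x1, h1⟩ := ext_sum e he0 he8
  obtain ⟨C3, hC3, x3, h3⟩ := ext_small e he0 he8
  obtain ⟨x4, h4⟩ := pairs_big e τ he0 he8 (by rw [hτ]; norm_num) (by rw [hτ]; norm_num)
  obtain ⟨C5, hC5, x5, h5⟩ := pairs_small e τ he0 he8 (by rw [hτ]; norm_num) (by rw [hτ]; norm_num)
  obtain ⟨C6, hC6, h6⟩ := case_c1 e he0
  obtain ⟨C7, hC7, x7, h7⟩ := case_c2 (62 / 1000) (66 / 1000) e (4696 / 10000) ν (by norm_num)
    (by norm_num) (by norm_num) he0 he8 (by rw [he]; norm_num) (by rw [hale, he]; norm_num)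
    (by rw [hν]; norm_num) (by rw [hν]; norm_num)
  obtain ⟨R1, hR1, hE⟩ := ET_sum e he0
  obtain ⟨R2, hR2, hD⟩ := DD_sum e he0
  obtain ⟨x8, h8⟩ := ev_top
  obtain ⟨x9, h9⟩ := ev_log_big 10
  have hev1 : ∀ᶠ x : ℝ in Filter.atTop, (2 : ℝ) ≤ x ^ (1 - θ) :=
    (tendsto_rpow_atTop (by rw [hθ]; norm_num)).eventually (Filter.eventually_ge_atTop _)
  obtain ⟨x10', hx10'⟩ := Filter.eventually_atTop.mp hev1
  obtain ⟨x10, hx10⟩ := exists_nat_ge x10'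
  refine ⟨C1 * R1 + C1 * R2 + C3 + 32 + C5 + 2 * C6 + C7, by positivity,
    max (max (max x1 x3) (max x4 x5)) (max (max x7 x8) (max x9 (max x10 1))), fun x hx => ?_⟩
  have b1 : x1 ≤ x := by simp only [max_le_iff] at hx; exact hx.1.1.1
  have b3 : x3 ≤ x := by simp only [max_le_iff] at hx; exact hx.1.1.2
  have b4 : x4 ≤ x := by simp only [max_le_iff] at hx; exact hx.1.2.1
  have b5 : x5 ≤ x := by simp only [max_le_iff] at hx; exact hx.1.2.2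
  have b7 : x7 ≤ x := by simp only [max_le_iff] at hx; exact hx.2.1.1
  have b8 : x8 ≤ x := by simp only [max_le_iff] at hx; exact hx.2.1.2
  have b9 : x9 ≤ x := by simp only [max_le_iff] at hx; exact hx.2.2.1
  have b10 : x10 ≤ x := by simp only [max_le_iff] at hx; exact hx.2.2.2.1
  have bx1 : 1 ≤ x := by simp only [max_le_iff] at hx; exact hx.2.2.2.2
  have hL10 := h9 x b9
  have hx0 : (0 : ℝ) < x := by exact_mod_cast bx1
  have hx1r : (1 : ℝ) ≤ x := by exact_mod_cast bx1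
  have hxθ := hx10' x (hx10.trans (by exact_mod_cast b10))
  have hy : 2 ≤ yy x := by
    apply Nat.le_floor
    push_cast
    nlinarith
  obtain ⟨P0, hP0⟩ : ∃ P0 : ℕ, P0 = ⌊(x : ℝ) ^ δ⌋₊ := ⟨_, rfl⟩
  obtain ⟨Z, hZ⟩ : ∃ Z : ℝ, Z = (x : ℝ) ^ θ := ⟨_, rfl⟩
  have hP0x : (P0 : ℝ) ≤ (x : ℝ) ^ δ := by rw [hP0]; exact Nat.floor_le (by positivity)
  have hxδ1 : 1 ≤ (x : ℝ) ^ δ := one_le_rpow hx1r (by rw [hδ]; norm_num)
  have hP1 : 1 ≤ P0 := by rw [hP0]; exact Nat.le_floor (by exact_mod_cast hxδ1)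
  have hP0xn : P0 ≤ x := by
    have h : (x : ℝ) ^ δ ≤ (x : ℝ) ^ (1 : ℝ) :=
      rpow_le_rpow_of_exponent_le hx1r (by rw [hδ]; norm_num)
    rw [rpow_one] at h
    exact_mod_cast hP0x.trans h
  have hZ1 : 1 ≤ Z := by rw [hZ]; exact one_le_rpow hx1r (by rw [hθ]; norm_num)
  have hZP : (P0 : ℝ) ≤ Z := by
    refine hP0x.trans ?_
    rw [hZ]
    exact rpow_le_rpow_of_exponent_le hx1r (by rw [hδ, hθ]; norm_num)
  obtain ⟨N, hN⟩ : ∃ N : Finset ℕ, N = (Icc 1 x).filter (fun n => Bp n ∧ x < 2 * n) := ⟨_, rfl⟩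
  rw [← hN]
  -- the seven sets
  obtain ⟨N1, hN1⟩ : ∃ S : Finset ℕ, S = N.filter (fun n => ∃ m : ℕ, 2 ≤ m ∧ (m : ℝ) ≤ (x : ℝ) ^ (1 - δ) ∧
    m ∈ ET x x ∧ ∃ p, n = p * m ∧ Ex x m p) := ⟨_, rfl⟩
  obtain ⟨N2, hN2⟩ : ∃ S : Finset ℕ, S = N.filter (fun n => ∃ m : ℕ, 2 ≤ m ∧ (m : ℝ) ≤ (x : ℝ) ^ (1 - δ) ∧
    m ∈ DD x x ∧ ∃ p, n = p * m ∧ Ex x m p) := ⟨_, rfl⟩
  obtain ⟨N3, hN3⟩ : ∃ S : Finset ℕ, S = N.filter (fun n => ∃ m, 2 ≤ m ∧ m ≤ P0 ∧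
    ∃ p, n = p * m ∧ Ex x m p) := ⟨_, rfl⟩
  obtain ⟨N4, hN4⟩ : ∃ S : Finset ℕ, S = N.filter (fun n => ∃ p q, n = p * q ∧ PQ x p q ∧
    (x : ℝ) ^ (1 / 2 - τ) ≤ (Nat.gcd (p - 1) (q - 1) : ℝ)) := ⟨_, rfl⟩
  obtain ⟨N5, hN5⟩ : ∃ S : Finset ℕ, S = N.filter (fun n => ∃ p q, n = p * q ∧ PQ x p q ∧
    (Nat.gcd (p - 1) (q - 1) : ℝ) ≤ (x : ℝ) ^ (1 / 2 - τ)) := ⟨_, rfl⟩
  obtain ⟨N6, hN6⟩ : ∃ S : Finset ℕ, S = N.filter (fun n => Xn (yy x) n ∧ ∃ D, D ∣ n ∧ Ty x D ∧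
    2 ≤ D ∧ ¬ D.Prime ∧ Z < D ∧ (D : ℝ) ≤ Z * (x : ℝ) ^ δ ∧ (x : ℝ) ^ φ ≤ ff x D) := ⟨_, rfl⟩
  obtain ⟨N7, hN7⟩ : ∃ S : Finset ℕ, S = N.filter (fun n => Xn (yy x) n ∧ Ty x n ∧
    n.minFac ≤ P0 ∧ ∃ D, D ∣ n ∧ Z < D ∧ (ff x D : ℝ) ≤ (x : ℝ) ^ φ) := ⟨_, rfl⟩
  have hcov : N ⊆ N1 ∪ (N2 ∪ (N3 ∪ (N4 ∪ (N5 ∪ (N6 ∪ N7))))) := by
    intro n hn
    have hn' := hn
    rw [hN, mem_filter, mem_Icc] at hn'
    obtain ⟨⟨c1, c2⟩, c3, c4⟩ := hn'
    obtain ⟨d1, d2⟩ := h8 x b8 n c2 c4 c3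
    have hZn : Z < n := by
      have f1 : (x : ℝ) < 2 * n := by exact_mod_cast c4
      have f2 : Z * 2 ≤ Z * (x : ℝ) ^ (1 - θ) := mul_le_mul_of_nonneg_left hxθ (by linarith)
      have f3 : Z * (x : ℝ) ^ (1 - θ) = x := by
        rw [hZ, ← rpow_add hx0]; norm_num
      linarith
    have hc := classify (δ := δ) (τ := τ) (φ := φ) hy bx1 c2 d1 d2 hP0 (by rw [hδ]; norm_num) hP1
      hZ1 hZP hZn
    simp only [mem_union, hN1, hN2, hN3, hN4, hN5, hN6, hN7, mem_filter]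
    rcases hc with h | h | h | h | h | h | h
    · exact Or.inl ⟨hn, h⟩
    · exact Or.inr (Or.inl ⟨hn, h⟩)
    · exact Or.inr (Or.inr (Or.inl ⟨hn, h⟩))
    · exact Or.inr (Or.inr (Or.inr (Or.inl ⟨hn, h⟩)))
    · exact Or.inr (Or.inr (Or.inr (Or.inr (Or.inl ⟨hn, h⟩))))
    · exact Or.inr (Or.inr (Or.inr (Or.inr (Or.inr (Or.inl ⟨hn, h⟩)))))
    · exact Or.inr (Or.inr (Or.inr (Or.inr (Or.inr (Or.inr ⟨hn, h⟩)))))
  have hcard : (N.card : ℝ) ≤ N1.card + (N2.card + (N3.card + (N4.card + (N5.card +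
      (N6.card + N7.card))))) := by
    have g1 := card_le_card hcov
    have g2 := card_union_le N1 (N2 ∪ (N3 ∪ (N4 ∪ (N5 ∪ (N6 ∪ N7)))))
    have g3 := card_union_le N2 (N3 ∪ (N4 ∪ (N5 ∪ (N6 ∪ N7))))
    have g4 := card_union_le N3 (N4 ∪ (N5 ∪ (N6 ∪ N7)))
    have g5 := card_union_le N4 (N5 ∪ (N6 ∪ N7))
    have g6 := card_union_le N5 (N6 ∪ N7)
    have g7 := card_union_le N6 N7
    have : N.card ≤ N1.card + (N2.card + (N3.card + (N4.card + (N5.card +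
      (N6.card + N7.card))))) := by omega
    exact_mod_cast this
  have hnle : ∀ n ∈ N, n ≤ x := by
    intro n hn
    rw [hN, mem_filter, mem_Icc] at hn
    exact hn.1.2
  have hZd : 0 ≤ (x : ℝ) ^ (1 - δ) := by positivity
  -- set 1
  have k1 : (N1.card : ℝ) ≤ C1 * R1 * (x : ℝ) ^ (499 / 1000 : ℝ) := by
    have g := h1 x b1 ((x : ℝ) ^ (1 - δ)) R1
      ((ET x x).filter (fun m => 2 ≤ m ∧ (m : ℝ) ≤ (x : ℝ) ^ (1 - δ))) N1 hZd (fun m hm => by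
        rw [mem_filter] at hm
        exact ⟨hm.2.1, (mem_ET.mp hm.1).1.2, hm.2.2⟩)
      (le_trans (sum_le_sum_of_subset_of_nonneg (filter_subset _ _) fun _ _ _ => by positivity)
        (hE x x hy le_rfl)) (fun n hn => by
        rw [hN1, mem_filter] at hn
        obtain ⟨m, f1, f2, f3, f4⟩ := hn.2
        exact ⟨m, mem_filter.mpr ⟨f3, f1, f2⟩, f4⟩)
    refine g.trans ?_
    rw [← rpow_mul hx0.le, ← rpow_add hx0]
    apply le_pow_of bx1 (by positivity)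
    rw [hale, hδ, he]; norm_num
  have k2 : (N2.card : ℝ) ≤ C1 * R2 * (x : ℝ) ^ (499 / 1000 : ℝ) := by
    have g := h1 x b1 ((x : ℝ) ^ (1 - δ)) R2
      ((DD x x).filter (fun m => 2 ≤ m ∧ (m : ℝ) ≤ (x : ℝ) ^ (1 - δ))) N2 hZd (fun m hm => by
        rw [mem_filter] at hm
        exact ⟨hm.2.1, (mem_DD.mp hm.1).1.2, hm.2.2⟩)
      (le_trans (sum_le_sum_of_subset_of_nonneg (filter_subset _ _) fun _ _ _ => by positivity)
        (hD x x le_rfl)) (fun n hn => by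
        rw [hN2, mem_filter] at hn
        obtain ⟨m, f1, f2, f3, f4⟩ := hn.2
        exact ⟨m, mem_filter.mpr ⟨f3, f1, f2⟩, f4⟩)
    refine g.trans ?_
    rw [← rpow_mul hx0.le, ← rpow_add hx0]
    apply le_pow_of bx1 (by positivity)
    rw [hale, hδ, he]; norm_num
  have k3 : (N3.card : ℝ) ≤ C3 * (x : ℝ) ^ (499 / 1000 : ℝ) := by
    have g := h3 x b3 P0 N3 hP0xn (fun n hn => by
      rw [hN3, mem_filter] at hn
      exact hn.2)
    refine g.trans ?_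
    have g2 : (x : ℝ) ^ (e + al e) * P0 ≤ (x : ℝ) ^ (e + al e) * (x : ℝ) ^ δ :=
      mul_le_mul_of_nonneg_left hP0x (by positivity)
    rw [← rpow_add hx0] at g2
    refine (mul_le_mul_of_nonneg_left g2 hC3.le).trans ?_
    apply le_pow_of bx1 (by positivity)
    rw [hale, hδ, he]; norm_num
  have k4 : (N4.card : ℝ) ≤ 32 * (x : ℝ) ^ (499 / 1000 : ℝ) := by
    have g := h4 x b4 N4 (fun n hn => by
      rw [hN4, mem_filter] at hn
      exact hn.2)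
    refine g.trans ?_
    apply le_pow_of bx1 (by positivity)
    rw [hτ, he]; norm_num
  have k5 : (N5.card : ℝ) ≤ C5 * (x : ℝ) ^ (499 / 1000 : ℝ) := by
    have g := h5 x b5 N5 (fun n hn => by
      rw [hN5, mem_filter] at hn
      exact hn.2)
    refine g.trans ?_
    apply le_pow_of bx1 (by positivity)
    rw [hτ, he]; norm_num
  have k6 : (N6.card : ℝ) ≤ 2 * C6 * (x : ℝ) ^ (499 / 1000 : ℝ) := by
    have hW1 : 1 ≤ Z * (x : ℝ) ^ δ := one_le_mul_of_one_le_of_one_le hZ1 hxδ1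
    have hWx : Z * (x : ℝ) ^ δ ≤ x := by
      rw [hZ, ← rpow_add hx0]
      calc (x : ℝ) ^ (θ + δ) ≤ (x : ℝ) ^ (1 : ℝ) :=
            rpow_le_rpow_of_exponent_le hx1r (by rw [hθ, hδ]; norm_num)
        _ = x := rpow_one _
    have g := h6 x hy Z (Z * (x : ℝ) ^ δ) ((x : ℝ) ^ φ) N6 hZ1 hW1 hWx (by positivity)
      (fun n hn => by
        rw [hN6, mem_filter] at hn
        exact ⟨hnle n hn.1, hn.2.1, hn.2.2⟩)
    refine g.trans ?_
    have g2 : (x : ℝ) / (Z * (x : ℝ) ^ φ) = (x : ℝ) ^ (1 - θ - φ) := by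
      rw [hZ, ← rpow_add hx0, div_eq_iff (by positivity), ← rpow_add hx0]
      norm_num
    have g3 : 1 ≤ (x : ℝ) ^ (1 - θ - φ) := one_le_rpow hx1r (by rw [hθ, hφ]; norm_num)
    rw [g2, hZ, ← rpow_add hx0, ← rpow_mul hx0.le]
    calc C6 * (x : ℝ) ^ ((θ + δ) * (1 / 2 + e)) * ((x : ℝ) ^ (1 - θ - φ) + 1) ≤
        C6 * (x : ℝ) ^ ((θ + δ) * (1 / 2 + e)) * (2 * (x : ℝ) ^ (1 - θ - φ)) :=
          mul_le_mul_of_nonneg_left (by linarith) (by positivity)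
      _ = 2 * C6 * (x : ℝ) ^ ((θ + δ) * (1 / 2 + e) + (1 - θ - φ)) := by
          rw [rpow_add hx0]; ring
      _ ≤ _ := by
          apply le_pow_of bx1 (by positivity)
          rw [hθ, hδ, hφ, he]; norm_num
  have k7 : (N7.card : ℝ) ≤ C7 * (x : ℝ) ^ (499 / 1000 : ℝ) := by
    have hFx : (x : ℝ) ^ φ ≤ x := by
      calc (x : ℝ) ^ φ ≤ (x : ℝ) ^ (1 : ℝ) :=
            rpow_le_rpow_of_exponent_le hx1r (by rw [hφ]; norm_num)
        _ = x := rpow_one _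
    have g := h7 x b7 Z ((x : ℝ) ^ φ) P0 N7 hZ1 (by positivity) hFx (fun n hn => by
      rw [hN7, mem_filter] at hn
      exact ⟨hnle n hn.1, hn.2⟩)
    refine g.trans ?_
    rw [hZ, ← rpow_mul hx0.le]
    calc C7 * ((x : ℝ) ^ φ * P0 * ((x : ℝ) ^ (1 / 2 + e) * (x : ℝ) ^ (θ * (-(1 / 2 + e - ν))))) ≤
        C7 * ((x : ℝ) ^ φ * (x : ℝ) ^ δ *
          ((x : ℝ) ^ (1 / 2 + e) * (x : ℝ) ^ (θ * (-(1 / 2 + e - ν))))) := by gcongr
      _ = C7 * (x : ℝ) ^ (φ + δ + (1 / 2 + e + θ * (-(1 / 2 + e - ν)))) := by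
          rw [← rpow_add hx0, ← rpow_add hx0, ← rpow_add hx0]
      _ ≤ _ := by
          apply le_pow_of bx1 (by positivity)
          rw [hθ, hδ, hφ, he, hν]; norm_num
  calc (N.card : ℝ) ≤ _ := hcard
    _ ≤ _ := by linarith

open Classical in
/-- The main counting theorem. -/
theorem main_count : ∃ K : ℝ, 0 < K ∧ ∀ x : ℕ, 1 ≤ x →
    (((Icc 1 x).filter Bp).card : ℝ) ≤ K * (x : ℝ) ^ (499 / 1000 : ℝ) := by
  obtain ⟨K, hK, x0, h⟩ := top_count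
  refine ⟨8 * K + x0, by positivity, ?_⟩
  intro x
  induction x using Nat.strong_induction_on with
  | _ x ih =>
  intro hx
  have hx1 : (1 : ℝ) ≤ x := by exact_mod_cast hx
  have hxpos : (0 : ℝ) < x := by linarith
  have hpow1 : (1 : ℝ) ≤ (x : ℝ) ^ (499 / 1000 : ℝ) := one_le_rpow hx1 (by norm_num)
  rcases lt_or_ge x (max x0 2) with hsmall | hlarge
  · rcases lt_or_ge x x0 with hs | hs
    · have h1 : ((Icc 1 x).filter Bp).card ≤ x := by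
        refine (card_filter_le _ _).trans ?_
        rw [Nat.card_Icc]; omega
      have h2 : (((Icc 1 x).filter Bp).card : ℝ) ≤ x0 := by
        exact_mod_cast h1.trans hs.le
      calc (((Icc 1 x).filter Bp).card : ℝ) ≤ (8 * K + x0) * 1 := by linarith
        _ ≤ _ := mul_le_mul_of_nonneg_left hpow1 (by positivity)
    · have hx2 : x = 1 := by
        rw [lt_max_iff] at hsmall
        omega
      have h1 : (Icc 1 x).filter Bp = ∅ := by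
        rw [filter_eq_empty_iff]
        intro n hn hb
        rw [mem_Icc] at hn
        have := hb.1
        omega
      rw [h1]
      simp only [card_empty, Nat.cast_zero]
      positivity
  · have hxX : x0 ≤ x := (le_max_left _ _).trans hlarge
    have hx2 : 2 ≤ x := (le_max_right _ _).trans hlarge
    have hcov : (Icc 1 x).filter Bp ⊆
        (Icc 1 x).filter (fun n => Bp n ∧ x < 2 * n) ∪ (Icc 1 (x / 2)).filter Bp := by
      intro n hn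
      rw [mem_filter, mem_Icc] at hn
      obtain ⟨⟨hn1, hnx⟩, hb⟩ := hn
      rw [mem_union, mem_filter, mem_filter, mem_Icc, mem_Icc]
      rcases lt_or_ge x (2 * n) with h | h
      · exact Or.inl ⟨⟨hn1, hnx⟩, hb, h⟩
      · right
        exact ⟨⟨hn1, by omega⟩, hb⟩
    have h1 := (card_le_card hcov).trans (card_union_le _ _)
    have h2 : (((Icc 1 x).filter Bp).card : ℝ) ≤
        (((Icc 1 x).filter (fun n => Bp n ∧ x < 2 * n)).card : ℝ) +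
        (((Icc 1 (x / 2)).filter Bp).card : ℝ) := by exact_mod_cast h1
    have h3 := h x hxX
    have h4 := ih (x / 2) (by omega) (by omega)
    have h5 : ((x / 2 : ℕ) : ℝ) ^ (499 / 1000 : ℝ) ≤ 7 / 8 * (x : ℝ) ^ (499 / 1000 : ℝ) := by
      have h6 : ((x / 2 : ℕ) : ℝ) ≤ (1 / 2) * (x : ℝ) := by
        have := @Nat.cast_div_le ℝ _ _ _ x 2
        push_cast at this
        linarith
      have h7 : ((x / 2 : ℕ) : ℝ) ^ (499 / 1000 : ℝ) ≤ ((1 / 2) * (x : ℝ)) ^ (499 / 1000 : ℝ) :=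
        rpow_le_rpow (Nat.cast_nonneg _) h6 (by norm_num)
      rw [mul_rpow (by norm_num) hxpos.le] at h7
      refine h7.trans ?_
      apply mul_le_mul_of_nonneg_right _ (by positivity)
      calc (1 / 2 : ℝ) ^ (499 / 1000 : ℝ) ≤ (1 / 2 : ℝ) ^ (1 / 4 : ℝ) :=
            rpow_le_rpow_of_exponent_ge (by norm_num) (by norm_num) (by norm_num)
        _ ≤ ((7 / 8 : ℝ) ^ (4 : ℝ)) ^ (1 / 4 : ℝ) := by
            apply rpow_le_rpow (by norm_num) _ (by norm_num)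
            norm_num
        _ = 7 / 8 := by
            rw [← rpow_mul (by norm_num)]
            norm_num
    have h6 : (8 * K + x0) * ((x / 2 : ℕ) : ℝ) ^ (499 / 1000 : ℝ) ≤
        (8 * K + x0) * (7 / 8 * (x : ℝ) ^ (499 / 1000 : ℝ)) :=
      mul_le_mul_of_nonneg_left h5 (by positivity)
    have h7 : 0 ≤ (x0 : ℝ) * (x : ℝ) ^ (499 / 1000 : ℝ) := by positivity
    linarith

end Run7.h306
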