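import Pool.Agent.Q202.QT.DensN
import Pool.Agent.Q202.QT.Ker

/-!
# The primes `q ≡ 1` modulo `p` for which `p` is not a `p`-th power
-/

set_option autoImplicit false

namespace Pool.Agent.Run7.h306.FQ

open Finset Filter Pool.Agent.Q202.QT Pool.Agent.Q202.RT
open Pool.Agent.W569.TG (lk)

open Classical in
theorem dens {p : ℕ} [hp : Fact p.Prime] (hp2 : p ≠ 2) (ε : ℝ) (hε : 0 < ε) :
    ∀ᶠ x : ℕ in atTop, (1 - 1 / (p : ℝ) - ε) *
      (((range (x + 1)).filter fun q => q.Prime ∧ p ∣ q - 1).card : ℝ) ≤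
      (((range (x + 1)).filter fun q => q.Prime ∧ p ∣ q - 1 ∧ ∀ y : ZMod q, y ^ p ≠ p).card : ℝ) := by
  have hp0 : (0 : ℝ) < p := by exact_mod_cast hp.out.pos
  obtain ⟨χ, hχ, -⟩ := extend (p := p) (fun _ => 1) ∅ (fun j hj => absurd hj (Set.notMem_empty j))
  have hc : (∑ w : Fin 1 → ZMod p, ((univ : Finset (Fin 1 → ZMod p)).filter fun _ => w ≠ 0).card : ℕ) =
      (p - 1) * p := by
    have h1 : ∀ w : Fin 1 → ZMod p, ((univ : Finset (Fin 1 → ZMod p)).filter fun _ => w ≠ 0).card =
        if w ≠ 0 then p else 0 := by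
      intro w
      by_cases h : w = 0
      · rw [if_neg (by simpa using h)]
        simp [h]
      · rw [if_pos h, filter_true_of_mem (fun _ _ => h), card_univ, Fintype.card_fun, ZMod.card,
          Fintype.card_fin, pow_one]
    rw [sum_congr rfl fun w _ => h1 w, ← sum_filter, sum_const, smul_eq_mul, filter_ne',
      card_erase_of_mem (mem_univ _), card_univ, Fintype.card_fun, ZMod.card, Fintype.card_fin, pow_one]
  have hd := densN (p := p) hp2 χ hχ (m := 0) (Fin.elim0 : Fin 0 → ℕ) (fun i => i.elim0)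
    (fun i => i.elim0) (fun i => i.elim0) (fun w _ => w ≠ 0) (fun w _ h => h) (fun w _ c hc h => by
      intro h0
      apply h
      funext j
      exact (mul_eq_zero.1 (congrFun h0 j)).resolve_left hc) (1 - 1 / (p : ℝ)) (by
        have : (0 : ℝ) < 1 / p := by positivity
        linarith) (by
      rw [Fintype.card_fun, ZMod.card, Fintype.card_fin]
      have h1 : ((∑ w : Fin 1 → ZMod p, ((univ : Finset (Fin 1 → ZMod p)).filter fun _ => w ≠ 0).card : ℕ) : ℝ)
          = ((p : ℝ) - 1) * p := by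
        rw [hc]
        push_cast [hp.out.one_lt.le]
        ring
      rw [le_div_iff₀ (by
        push_cast
        positivity)]
      refine le_of_eq ?_
      refine Eq.trans ?_ (Eq.trans h1.symm (by congr!))
      push_cast
      field_simp) ε hε
  filter_upwards [hd] with x hx
  have e1 : P1 p x = (range (x + 1)).filter fun q => q.Prime ∧ p ∣ q - 1 := by
    ext l
    rw [mem_P1, mem_filter, mem_range]
    constructor
    · rintro ⟨h1, h2, h3⟩
      exact ⟨by omega, h2, h3⟩
    · rintro ⟨h1, h2, h3⟩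
      exact ⟨by omega, h2, h3⟩
  rw [e1] at hx
  refine le_trans (by exact hx) (Nat.cast_le.2 (card_le_card ?_))
  intro q hq
  simp only [Finset.mem_filter] at hq
  obtain ⟨⟨h4, h5, h6⟩, -, h3⟩ := hq
  refine mem_filter.2 ⟨h4, h5, h6, fun y hy => h3 ?_⟩
  funext i
  refine Fin.cases ?_ (fun j => j.elim0) i
  show lk χ p q = 0
  unfold lk
  split_ifs with h
  · have : Fact q.Prime := ⟨h5⟩
    have hy0 : y ≠ 0 := by
      rintro rfl
      rw [zero_pow hp.out.ne_zero] at hy
      have h7 := (ZMod.isUnit_iff_coprime p q).2 h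
      rw [← hy] at h7
      exact not_isUnit_zero h7
    have h8 : ZMod.unitOfCoprime p h = (Units.mk0 y hy0) ^ p := by
      apply Units.ext
      rw [ZMod.coe_unitOfCoprime, Units.val_pow_eq_pow_val, Units.val_mk0, hy]
    rw [h8, map_pow, toAdd_pow, nsmul_eq_mul, CharP.cast_eq_zero, zero_mul]
  · rfl

end Pool.Agent.Run7.h306.FQ
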