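import Pool.Agent.TH831.OE.Dat

/-!
# Characters of the Galois group of `ℚ` of order `p` which are trivial on local groups
-/

set_option autoImplicit false

namespace Pool.Agent.Run7.h306.FQ

open NumberField Pool.Agent.W569.FM Pool.Agent.TH831.OT Pool.Agent.TH831.OE

variable {p : ℕ} [hp : Fact p.Prime]

theorem exists_fun {V : Type} [AddCommGroup V] [Module (ZMod p) V] (v : V) (hv : v ≠ 0) :
    ∃ φ : V →+ ZMod p, φ v ≠ 0 := by
  by_contra h
  push Not at h
  exact hv ((Module.forall_dual_apply_eq_zero_iff (ZMod p) v).1 fun φ => h φ.toAddMonoidHom)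

/-- a nonzero homomorphism to `ℤ/p` on an element which is not a `p`-th power -/
theorem exists_chi {C : Type} [CommGroup C] (c : C) (hc : ∀ x : C, x ^ p ≠ c) :
    ∃ χ : C →* Multiplicative (ZMod p), χ c ≠ 1 := by
  classical
  set N : Subgroup C := (powMonoidHom p : C →* C).range with hN
  have hk : ∀ x : Additive (C ⧸ N), p • x = 0 := by
    intro x
    obtain ⟨y, hy⟩ := QuotientGroup.mk_surjective (Additive.toMul x)
    have h1 : (Additive.toMul x) ^ p = 1 := by
      rw [← hy, ← QuotientGroup.mk_pow]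
      exact (QuotientGroup.eq_one_iff _).2 ⟨y, rfl⟩
    exact congrArg Additive.ofMul h1
  have hv : Additive.ofMul (QuotientGroup.mk c : C ⧸ N) ≠ 0 := by
    intro h
    have h1 : (QuotientGroup.mk c : C ⧸ N) = 1 := congrArg Additive.toMul h
    obtain ⟨y, hy⟩ := (QuotientGroup.eq_one_iff c).1 h1
    exact hc y hy
  obtain ⟨φ, hφ⟩ := @exists_fun p hp (Additive (C ⧸ N)) _ (AddCommGroup.zmodModule hk) _ hv
  refine ⟨{ toFun := fun x => Multiplicative.ofAdd (φ (Additive.ofMul (QuotientGroup.mk x : C ⧸ N)))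
            map_one' := ?_
            map_mul' := ?_ }, ?_⟩
  · have h1 : Additive.ofMul (QuotientGroup.mk 1 : C ⧸ N) = 0 := rfl
    rw [h1, map_zero]
    rfl
  · intro x y
    have h1 : Additive.ofMul (QuotientGroup.mk (x * y) : C ⧸ N) =
        Additive.ofMul (QuotientGroup.mk x : C ⧸ N) + Additive.ofMul (QuotientGroup.mk y : C ⧸ N) := rfl
    rw [h1, map_add]
    rfl
  · intro h
    apply hφ
    exact congrArg Multiplicative.toAdd h

/-- a nontrivial character of the units modulo a prime `l ≡ 1` modulo `p` -/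
theorem exists_chi' {l : ℕ} (hl : l.Prime) (hpl : p ∣ l - 1) :
    ∃ χ : (ZMod l)ˣ →* Multiplicative (ZMod p), ∃ x, χ x ≠ 1 := by
  have : Fact l.Prime := ⟨hl⟩
  obtain ⟨c, hc⟩ : ∃ c : (ZMod l)ˣ, ∀ x : (ZMod l)ˣ, x ^ p ≠ c := by
    by_contra hcon
    push Not at hcon
    have hsurj : Function.Surjective (fun x : (ZMod l)ˣ => x ^ p) := hcon
    have hinj : Function.Injective (fun x : (ZMod l)ˣ => x ^ p) :=
      Finite.injective_iff_surjective.2 hsurj
    obtain ⟨y, hy⟩ := exists_prime_orderOf_dvd_card' (G := (ZMod l)ˣ) p (by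
      rw [Nat.card_eq_fintype_card, ZMod.card_units]
      exact hpl)
    have h1 : y = 1 := hinj (by
      show y ^ p = 1 ^ p
      rw [one_pow, ← hy, pow_orderOf_eq_one])
    rw [h1, orderOf_one] at hy
    exact hp.out.one_lt.ne hy
  obtain ⟨χ, hχ⟩ := exists_chi c hc
  exact ⟨χ, c, hχ⟩

/-- The decomposition group. -/
def DG (P : Ideal (OO ℚ)) : Subgroup (GF ℚ) where
  carrier := {g | ∀ x : OO ℚ, g • x ∈ P ↔ x ∈ P}
  mul_mem' := by
    intro a b ha hb x
    rw [mul_smul, ha, hb]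
  one_mem' := by
    intro x
    rw [one_smul]
  inv_mem' := by
    intro a ha x
    rw [← ha (a⁻¹ • x), smul_inv_smul]

theorem inertia_le {P : Ideal (OO ℚ)} {g : GF ℚ} (h : InInertia P g) : g ∈ DG P := by
  intro x
  have h1 := h x
  constructor
  · intro h2
    have h3 := P.sub_mem h2 h1
    rwa [sub_sub_cancel] at h3
  · intro h2
    have h3 := P.add_mem h1 h2
    rwa [sub_add_cancel] at h3

theorem frob_le {P : Ideal (OO ℚ)} (hP : P.IsMaximal) {g : GF ℚ} (h : FrobAt p P g) : g ∈ DG P := by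
  intro x
  have h1 := h x
  constructor
  · intro h2
    have h3 := P.sub_mem h2 h1
    rw [sub_sub_cancel] at h3
    exact hP.isPrime.mem_of_pow_mem p h3
  · intro h2
    have h3 := P.add_mem h1 (P.pow_mem_of_mem h2 p hp.out.pos)
    rwa [sub_add_cancel] at h3

/-- **Characters of order `p` which are trivial on local groups.** -/
theorem f_trivial (hp2 : p ≠ 2) (S : Finset ℕ) (hS : ∀ l ∈ S, l.Prime ∧ l ≠ p) (q : ℕ)
    (hq : q ∈ S → p ∣ q - 1 → ∀ x : ZMod q, x ^ p ≠ p)
    (P0 : Ideal (OO ℚ)) (hP0 : P0.IsMaximal) (hpP0 : (p : OO ℚ) ∈ P0)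
    (f : GF ℚ →* Multiplicative (ZMod p)) (hf : IsOpen (f.ker : Set (GF ℚ)))
    (hur : ∀ g ∈ UrSet p S, f g = 1)
    (hin : ∀ l ∈ S, p ∣ l - 1 → l ≠ q → ∃ P : Ideal (OO ℚ), P.IsMaximal ∧ (l : OO ℚ) ∈ P ∧
      ∀ τ, InInertia P τ → f τ = 1)
    (hD : ∀ g ∈ DG P0, f g = 1) : ∀ g, f g = 1 := by
  classical
  have hFROB : S_FROB := Pool.Agent.W571.FM.main
  -- the characters of the residue fields
  have e1 : ∀ j : ℕ, ∃ χ : (ZMod j)ˣ →* Multiplicative (ZMod p), (j ∈ S → p ∣ j - 1 → ∃ x, χ x ≠ 1) ∧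
      (j = q → j ∈ S → p ∣ j - 1 → ∀ x : (ZMod j)ˣ, (x : ZMod j) = (p : ZMod j) → χ x ≠ 1) := by
    intro j
    by_cases h1 : j ∈ S ∧ p ∣ j - 1
    · obtain ⟨hj, hpj⟩ := h1
      by_cases h2 : j = q
      · have hcop : Nat.Coprime p j := (Nat.coprime_primes hp.out (hS j hj).1).2 (Ne.symm (hS j hj).2)
        obtain ⟨χ, hχ⟩ := exists_chi (p := p) (ZMod.unitOfCoprime p hcop) (by
          intro x hx
          have h3 := congrArg (fun u : (ZMod j)ˣ => (u : ZMod j)) hx
          simp only [Units.val_pow_eq_pow_val, ZMod.coe_unitOfCoprime] at h3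
          subst h2
          exact hq hj hpj _ h3)
        refine ⟨χ, fun _ _ => ⟨_, hχ⟩, fun _ _ _ x hx => ?_⟩
        have h4 : x = ZMod.unitOfCoprime p hcop := Units.ext (by rw [hx, ZMod.coe_unitOfCoprime])
        rw [h4]
        exact hχ
      · obtain ⟨χ, hχ⟩ := exists_chi' (p := p) (hS j hj).1 hpj
        exact ⟨χ, fun _ _ => hχ, fun h => absurd h h2⟩
    · exact ⟨1, fun h2 h3 => absurd ⟨h2, h3⟩ h1, fun _ h2 h3 => absurd ⟨h2, h3⟩ h1⟩
  choose χ hχ1 hχ2 using e1
  obtain ⟨d⟩ := exists_dat hp2 S hS χ hχ1 P0 hP0 hpP0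
  have hγ : f d.γ = 1 := hD _ (inertia_le d.hγ)
  have hσ : f (d.σ p) = 1 := by
    refine hD _ ?_
    have h1 := d.hσ p hp.out
    rw [d.hPp] at h1
    exact frob_le hP0 h1
  have hoth : ∀ l ∈ S, p ∣ l - 1 → l ≠ q → f (d.τ l) = 1 := by
    intro l hl hpl hlq
    obtain ⟨P, hP, hlP, hPf⟩ := hin l hl hpl hlq
    obtain ⟨h1, h2⟩ := d.hP l (hS l hl).1
    obtain ⟨g, hg⟩ := (hFROB l (hS l hl).1).2 P (d.P l) hP h1 hlP h2
    have h3 := hPf _ (hg _ (d.hτ l hl hpl))
    rwa [map_mul, map_mul, map_inv, mul_comm, mul_inv_cancel_left] at h3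
  have hall : ∀ l ∈ S.filter (fun l => p ∣ l - 1), Multiplicative.toAdd (f (d.τ l)) = 0 := by
    intro l hl
    obtain ⟨hlS, hpl⟩ := Finset.mem_filter.1 hl
    by_cases hlq : l = q
    · have h1 := d.span f hf hur (d.σ p)
      rw [hσ, hγ, toAdd_one, mul_zero, zero_add, Finset.sum_eq_single_of_mem l hl] at h1
      · have hcop : Nat.Coprime p l := (Nat.coprime_primes hp.out (hS l hlS).1).2
          (Ne.symm (hS l hlS).2)
        have h2 := d.hlam l hlS hpl p hp.out (Ne.symm (hS l hlS).2) (ZMod.unitOfCoprime p hcop)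
          (ZMod.coe_unitOfCoprime p hcop)
        have h3 := hχ2 l hlq hlS hpl _ (ZMod.coe_unitOfCoprime p hcop)
        rcases mul_eq_zero.1 h1.symm with h4 | h4
        · exfalso
          apply h3
          rw [← h2]
          exact congrArg Multiplicative.ofAdd h4
        · exact h4
      · intro j hj hjl
        obtain ⟨hjS, hpj⟩ := Finset.mem_filter.1 hj
        rw [hoth j hjS hpj (fun h => hjl (h.trans hlq.symm)), toAdd_one, mul_zero]
    · rw [hoth l hlS hpl hlq, toAdd_one]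
  intro g
  have h1 := d.span f hf hur g
  rw [hγ, toAdd_one, mul_zero, zero_add, Finset.sum_eq_zero (fun l hl => by
    rw [hall l hl, mul_zero])] at h1
  exact congrArg Multiplicative.ofAdd h1

end Pool.Agent.Run7.h306.FQ
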