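import Pool.Agent.Run7.h306.TG1
import Pool.Agent.TH132.A.NumIn

/-!
# Classes of integral cycles
-/

set_option autoImplicit false

open CategoryTheory AlgebraicGeometry
open scoped TensorProduct

namespace Run7.h306.TG

open Pool.Agent.H914 Pool.Agent.H914.VarClass Pool.Agent.H914.VarClass.Obj
  Pool.Agent.H914.WeilCohomology Pool.Agent.H281R3.HT Pool.Agent.W552 Pool.Agent.TH125.Gal
  Pool.Agent.TH132.A

variable {k : Type} [Field k] {𝒱 : VarClass k} {ops : CycleOps 𝒱}
  {W : WeilCohomology.{0, 0} ops} {X Y : 𝒱.Obj}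

/-- Common denominators. -/
theorem exists_denominator (z : X.Cycles) : ∃ n : ℕ, 0 < n ∧ IsIntegralCycle ((n : ℚ) • z) := by
  classical
  let z' : X.V.X →₀ ℚ := z
  refine ⟨∏ x ∈ z'.support, (z' x).den, Finset.prod_pos fun x _ => (z' x).den_pos, ?_⟩
  intro x
  have h0 : ∀ q : ℚ, X.V.coeff (q • z) x = q * z' x := fun q => rfl
  rw [h0]
  by_cases hx : x ∈ z'.support
  · rw [← Finset.mul_prod_erase _ _ hx]
    refine ⟨(z' x).num * ∏ x ∈ z'.support.erase x, (z' x).den, ?_⟩
    have h2 : ((z' x).den : ℚ) * z' x = (z' x).num := Rat.den_mul_eq_num _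
    push_cast
    rw [mul_right_comm, h2]
  · refine ⟨0, ?_⟩
    rw [Finsupp.notMem_support_iff.1 hx, mul_zero, Int.cast_zero]

theorem cycleGroup_alg {j : ℕ} {a : W.H X} (ha : a ∈ cycleGroup W X j) : a ∈ algClasses W X j := by
  obtain ⟨z, hz, -, rfl⟩ := ha
  exact ⟨z, hz, rfl⟩

theorem exists_multiple {j : ℕ} {a : W.H X} (ha : a ∈ algClasses W X j) :
    ∃ n : ℕ, 0 < n ∧ (n : W.K) • a ∈ cycleGroup W X j := by
  obtain ⟨z, hz, rfl⟩ := ha
  obtain ⟨n, hn, h⟩ := exists_denominator z
  refine ⟨n, hn, (n : ℚ) • z, hz.smul _, h, ?_⟩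
  have h1 : (n : ℚ) • z = n • z := by
    rw [Nat.cast_smul_eq_nsmul]
  rw [h1, map_nsmul, Nat.cast_smul_eq_nsmul]

theorem span_cycleGroup (j : ℕ) :
    Submodule.span W.K (cycleGroup W X j : Set (W.H X)) =
      Submodule.span W.K (algClasses W X j) := by
  apply le_antisymm
  · exact Submodule.span_mono fun a ha => cycleGroup_alg ha
  · rw [Submodule.span_le]
    intro a ha
    obtain ⟨n, hn, h⟩ := exists_multiple ha
    have h1 := Submodule.smul_mem (Submodule.span W.K (cycleGroup W X j : Set (W.H X)))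
      ((n : W.K)⁻¹) (Submodule.subset_span h)
    rwa [smul_smul, inv_mul_cancel₀ (by exact_mod_cast hn.ne'), one_smul] at h1

/-- The sums of classes of integral cycles. -/
noncomputable def intAll (W : WeilCohomology.{0, 0} ops) (X : 𝒱.Obj) : AddSubgroup (W.H X) :=
  ⨆ j, cycleGroup W X j

theorem intAll_of {j : ℕ} {a : W.H X} (ha : a ∈ cycleGroup W X j) : a ∈ intAll W X :=
  (le_iSup (fun j => cycleGroup W X j) j) ha

theorem intAll_ind {p : W.H X → Prop} (h0 : p 0) (h1 : ∀ j, ∀ a ∈ cycleGroup W X j, p a)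
    (h2 : ∀ a b, p a → p b → p (a + b)) {a : W.H X} (ha : a ∈ intAll W X) : p a :=
  AddSubgroup.iSup_induction (fun j => cycleGroup W X j) (C := fun a => p a) ha h1 h0
    (fun a b ha hb => h2 a b ha hb)

theorem intAll_AS {a : W.H X} (ha : a ∈ intAll W X) : AS W X a :=
  intAll_ind (p := fun a => AS W X a) AS.zero (fun _ _ h => AS.of (cycleGroup_alg h))
    (fun _ _ h h' => h.add h') ha

theorem exists_multiple_all {a : W.H X} (ha : AS W X a) :
    ∃ n : ℕ, 0 < n ∧ (n : W.K) • a ∈ intAll W X := by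
  refine AS.ind (p := fun a => ∃ n : ℕ, 0 < n ∧ (n : W.K) • a ∈ intAll W X) ?_ ?_ ha
  · intro j a ha
    obtain ⟨n, hn, h⟩ := exists_multiple ha
    exact ⟨n, hn, intAll_of h⟩
  · rintro a b ⟨m, hm, ha⟩ ⟨n, hn, hb⟩
    refine ⟨m * n, Nat.mul_pos hm hn, ?_⟩
    have h1 : ((m * n : ℕ) : W.K) • (a + b) = n • ((m : W.K) • a) + m • ((n : W.K) • b) := by
      rw [smul_add, ← Nat.cast_smul_eq_nsmul W.K n, ← Nat.cast_smul_eq_nsmul W.K m, smul_smul,
        smul_smul]
      push_cast
      rw [mul_comm (n : W.K) m]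
    rw [h1]
    exact AddSubgroup.add_mem _ (AddSubgroup.nsmul_mem _ ha n) (AddSubgroup.nsmul_mem _ hb m)

theorem intAll_proj {a : W.H X} (ha : a ∈ intAll W X) (j : ℕ) :
    proj (W.isInternal X) (2 * j) a ∈ cycleGroup W X j := by
  refine intAll_ind (p := fun a => proj (W.isInternal X) (2 * j) a ∈ cycleGroup W X j)
    (by rw [map_zero]; exact AddSubgroup.zero_mem _) ?_ ?_ ha
  · intro i a ha
    by_cases hij : i = j
    · subst hij
      rw [proj_same _ (alg_gr (cycleGroup_alg ha))]
      exact ha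
    · rw [proj_ne _ (alg_gr (cycleGroup_alg ha)) (by omega)]
      exact AddSubgroup.zero_mem _
  · intro a b ha hb
    rw [map_add]
    exact AddSubgroup.add_mem _ ha hb

theorem isRational_all_iff : IsRational W.K (intAll W X) ↔
    ∀ j, IsRational W.K (cycleGroup W X j) := by
  constructor
  · intro h j
    exact isRational_of_one LinearMap.id (fun a ha => intAll_of ha) (fun a _ h => h) h
  · intro h
    refine isRational_of (R := Fin (X.dim + 1)) (U := fun _ => W.H X)
      (fun j => proj (W.isInternal X) (2 * (j : ℕ))) (B := fun j => cycleGroup W X j)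
      (fun j a ha => intAll_proj ha j) ?_ fun j => h j
    intro a ha h0
    rw [Fr.AS_sum (intAll_AS ha)]
    refine Finset.sum_eq_zero fun j hj => ?_
    exact h0 ⟨j, Finset.mem_range.1 hj⟩

theorem tate_iff {Γ : Type} [Group Γ] {χ : Γ →* W.Kˣ} {X : GVar W Γ} :
    TateConjecture χ X ↔ IsRational W.K (intAll W X.X) ∧ TF.Tate χ X := by
  rw [isRational_all_iff]
  constructor
  · intro h
    refine ⟨fun j => ⟨(h j).1, (h j).2.1⟩, fun j c hc hΔ => ?_⟩
    have h1 := (h j).2.2 c hc hΔ
    rwa [range_naturalMap, span_cycleGroup] at h1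
  · rintro ⟨h1, h2⟩ j
    refine ⟨(h1 j).1, (h1 j).2, fun c hc hΔ => ?_⟩
    rw [range_naturalMap, span_cycleGroup]
    exact h2 j c hc hΔ

section ops

variable (hops : HasIntegralOperations W)
include hops

theorem intAll_mul {a b : W.H X} (ha : a ∈ intAll W X) (hb : b ∈ intAll W X) :
    a * b ∈ intAll W X := by
  refine intAll_ind (p := fun a => a * b ∈ intAll W X)
    (by rw [zero_mul]; exact AddSubgroup.zero_mem _) ?_ ?_ ha
  · intro i a ha
    refine intAll_ind (p := fun b => a * b ∈ intAll W X)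
      (by rw [mul_zero]; exact AddSubgroup.zero_mem _) ?_ ?_ hb
    · intro j b hb
      exact intAll_of (hops.products _ _ _ _ _ ha hb)
    · intro b b' hb hb'
      rw [mul_add]
      exact AddSubgroup.add_mem _ hb hb'
  · intro a a' ha ha'
    rw [add_mul]
    exact AddSubgroup.add_mem _ ha ha'

theorem intAll_map (f : X ⟶ Y) {a : W.H Y} (ha : a ∈ intAll W Y) : W.map f a ∈ intAll W X := by
  refine intAll_ind (p := fun a => W.map f a ∈ intAll W X)
    (by rw [map_zero]; exact AddSubgroup.zero_mem _) ?_ ?_ ha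
  · intro i a ha
    exact intAll_of (hops.pullbacks _ _ f _ _ ha)
  · intro a a' ha ha'
    rw [map_add]
    exact AddSubgroup.add_mem _ ha ha'

theorem intAll_push (f : X ⟶ Y) {a : W.H X} (ha : a ∈ intAll W X) : W.push f a ∈ intAll W Y := by
  refine intAll_ind (p := fun a => W.push f a ∈ intAll W Y)
    (by rw [map_zero]; exact AddSubgroup.zero_mem _) ?_ ?_ ha
  · intro i a ha
    by_cases hi : X.dim ≤ i + Y.dim
    · exact intAll_of (hops.pushforwards _ _ f _ (i + Y.dim - X.dim) _ ha (by omega))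
    · rw [alg_push_zero (g := f) (cycleGroup_alg ha) (by omega)]
      exact AddSubgroup.zero_mem _
  · intro a a' ha ha'
    rw [map_add]
    exact AddSubgroup.add_mem _ ha ha'

theorem intAll_coef {b : W.H X} (hb : b ∈ intAll W X) {z : W.H (X.prod Y)}
    (hz : z ∈ intAll W (X.prod Y)) : coef W b z ∈ intAll W Y :=
  intAll_push hops _ (intAll_mul hops hz (intAll_map hops _ hb))

/-- The group of the classes of integral cycles on a product with splitting cycles. -/
theorem isRational_prod (hD : HomEqNum W X)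
    (hS : ∀ z, AS W (X.prod Y) z →
      z ∈ Submodule.span W.K {w | ∃ x y, AS W X x ∧ w = ext W x y})
    (h : IsRational W.K (intAll W Y)) : IsRational W.K (intAll W (X.prod Y)) := by
  obtain ⟨N, a, b, hab⟩ := exists_dualFam hD
  have h1 : ∀ i, ∃ n : ℕ, 0 < n ∧ (n : W.K) • b i ∈ intAll W X := fun i =>
    exists_multiple_all (hab.hb i)
  choose n hn hb using h1
  refine isRational_of (R := Fin N) (U := fun _ => W.H Y)
    (fun i => W.push (snd X Y) ∘ₗ LinearMap.mulRight W.K (W.map (fst X Y) ((n i : W.K) • b i)))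
    (B := fun _ => intAll W Y) (fun i z hz => intAll_coef hops (hb i) hz) ?_ fun _ => h
  intro z hz h0
  rw [hab.rep (hS z (intAll_AS hz))]
  refine Finset.sum_eq_zero fun i _ => ?_
  have h2 : coef W ((n i : W.K) • b i) z = 0 := h0 i
  rw [coef, map_smul, mul_smul_comm, map_smul] at h2
  have h3 : coef W (b i) z = 0 :=
    (smul_eq_zero.1 h2).resolve_left (by exact_mod_cast (hn i).ne')
  rw [h3]
  simp [ext]

/-- The factor. -/
theorem isRational_factor (h1 : (1 : W.H X) ≠ 0)
    (h : IsRational W.K (intAll W (X.prod Y))) : IsRational W.K (intAll W Y) := by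
  refine isRational_of_one (W.map (snd X Y)).toLinearMap
    (fun a ha => intAll_map hops (snd X Y) ha) ?_ h
  intro a _ h0
  refine one_ext_inj (X := X) h1 ?_
  rw [ext, map_one, one_mul]
  exact h0

end ops

end Run7.h306.TG
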