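import Mathlib

/-!
# The projector on the matrices which intertwine two roots of a separable polynomial, and averages
-/

set_option autoImplicit false

open Matrix Polynomial

namespace Pool.Agent.Run7.h306.AB

section proj

variable {R : Type*} [CommRing R] {n : ℕ}

/-- `∑_{i+j=k-1} b^i x a^j` -/
def dk (a b x : Matrix (Fin n) (Fin n) R) : ℕ → Matrix (Fin n) (Fin n) R
  | 0 => 0
  | k + 1 => b ^ k * x + dk a b x k * a

theorem dk_comm (a b x : Matrix (Fin n) (Fin n) R) (k : ℕ) :
    b * dk a b x k - dk a b x k * a = b ^ k * x - x * a ^ k := by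
  induction k with
  | zero => simp [dk]
  | succ k ih =>
    have h : b * (b ^ k * x + dk a b x k * a) - (b ^ k * x + dk a b x k * a) * a =
        b ^ (k + 1) * x + (b * dk a b x k - dk a b x k * a) * a - b ^ k * x * a := by
      rw [pow_succ']
      noncomm_ring
    rw [dk, h, ih, pow_succ a]
    noncomm_ring

theorem dk_inter {a b x : Matrix (Fin n) (Fin n) R} (h : b * x = x * a) (k : ℕ) :
    dk a b x k = (k : R) • (b ^ (k - 1) * x) := by
  induction k with
  | zero => simp [dk]
  | succ k ih =>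
    rw [dk, ih, Nat.add_sub_cancel]
    rcases Nat.eq_zero_or_pos k with rfl | hk
    · simp
    · obtain ⟨j, rfl⟩ : ∃ j, k = j + 1 := ⟨k - 1, by omega⟩
      rw [Nat.add_sub_cancel, Matrix.smul_mul, mul_assoc, ← h, ← mul_assoc (b ^ j), ← pow_succ]
      push_cast
      simp only [add_smul, one_smul]
      abel

/-- the sum of the `c_k dk k`, for `m = ∑ c_k X^k` -/
noncomputable def Dm (m : R[X]) (a b x : Matrix (Fin n) (Fin n) R) : Matrix (Fin n) (Fin n) R :=
  m.sum fun k c => c • dk a b x k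

theorem Dm_add (m m' : R[X]) (a b x : Matrix (Fin n) (Fin n) R) :
    Dm (m + m') a b x = Dm m a b x + Dm m' a b x :=
  Polynomial.sum_add_index _ _ _ (fun _ => zero_smul _ _) (fun _ _ _ => add_smul _ _ _)

theorem Dm_mono (k : ℕ) (c : R) (a b x : Matrix (Fin n) (Fin n) R) :
    Dm (monomial k c) a b x = c • dk a b x k :=
  Polynomial.sum_monomial_index _ _ (zero_smul _ _)

theorem Dm_comm (m : R[X]) (a b x : Matrix (Fin n) (Fin n) R) :
    b * Dm m a b x - Dm m a b x * a = aeval b m * x - x * aeval a m := by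
  induction m using Polynomial.induction_on' with
  | add p q hp hq =>
    rw [Dm_add, map_add, map_add]
    have h : b * (Dm p a b x + Dm q a b x) - (Dm p a b x + Dm q a b x) * a =
      (b * Dm p a b x - Dm p a b x * a) + (b * Dm q a b x - Dm q a b x * a) := by noncomm_ring
    rw [h, hp, hq]
    noncomm_ring
  | monomial k c =>
    rw [Dm_mono, aeval_monomial, aeval_monomial, Matrix.mul_smul, Matrix.smul_mul, ← smul_sub,
      dk_comm, ← Algebra.smul_def, ← Algebra.smul_def, Matrix.smul_mul, Matrix.mul_smul, ← smul_sub]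

theorem Dm_inter {a b x : Matrix (Fin n) (Fin n) R} (h : b * x = x * a) (m : R[X]) :
    Dm m a b x = aeval b (derivative m) * x := by
  induction m using Polynomial.induction_on' with
  | add p q hp hq =>
    rw [Dm_add, hp, hq, map_add, map_add, add_mul]
  | monomial k c =>
    rw [Dm_mono, dk_inter h, derivative_monomial, aeval_monomial, ← Algebra.smul_def,
      Matrix.smul_mul, smul_smul]

theorem dk_map {R' : Type*} [CommRing R'] (f : R →+* R') (a b x : Matrix (Fin n) (Fin n) R) (k : ℕ) :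
    (dk a b x k).map f = dk (a.map f) (b.map f) (x.map f) k := by
  induction k with
  | zero => ext i j; simp [dk]
  | succ k ih =>
    rw [dk, dk, ← ih]
    have h1 : ((b ^ k * x + dk a b x k * a).map f) =
        (f.mapMatrix (b ^ k * x + dk a b x k * a)) := rfl
    rw [h1, map_add, map_mul, map_mul, map_pow]
    rfl

/-- The projector. -/
noncomputable def proj (m u : R[X]) (a b x : Matrix (Fin n) (Fin n) R) :
    Matrix (Fin n) (Fin n) R := aeval b u * Dm m a b x

theorem proj_comm {m : R[X]} (u : R[X]) {a b : Matrix (Fin n) (Fin n) R} (ha : aeval a m = 0)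
    (hb : aeval b m = 0) (x : Matrix (Fin n) (Fin n) R) :
    b * proj m u a b x = proj m u a b x * a := by
  have h1 := Dm_comm m a b x
  rw [ha, hb, zero_mul, mul_zero, sub_zero, sub_eq_zero] at h1
  have h2 : b * aeval b u = aeval b u * b := by
    have h3 : aeval b (X * u) = aeval b (u * X) := by rw [mul_comm]
    rwa [map_mul, map_mul, aeval_X] at h3
  rw [proj, ← mul_assoc, h2, mul_assoc, h1, mul_assoc]

theorem proj_inter {m u v : R[X]} {a b : Matrix (Fin n) (Fin n) R} (hb : aeval b m = 0)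
    (huv : u * derivative m + v * m = 1) {x : Matrix (Fin n) (Fin n) R} (h : b * x = x * a) :
    proj m u a b x = x := by
  rw [proj, Dm_inter h, ← mul_assoc, ← map_mul]
  have h1 := congrArg (aeval b) huv
  rw [map_add, map_mul (aeval b) v, hb, mul_zero, add_zero, map_one] at h1
  rw [h1, one_mul]

theorem aeval_map' {R' : Type*} [CommRing R'] (f : R →+* R') (a : Matrix (Fin n) (Fin n) R)
    (m : R[X]) : (aeval a m).map f = aeval (a.map f) (m.map f) := by
  induction m using Polynomial.induction_on' with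
  | add p q hp hq =>
    rw [map_add, Polynomial.map_add, map_add, ← hp, ← hq]
    exact map_add f.mapMatrix _ _
  | monomial k c =>
    rw [aeval_monomial, Polynomial.map_monomial, aeval_monomial, ← Algebra.smul_def,
      ← Algebra.smul_def]
    have h1 : (c • a ^ k).map f = f c • (a ^ k).map f := by
      ext i j
      simp
    have h2 : (a ^ k).map f = (a.map f) ^ k := map_pow f.mapMatrix a k
    rw [h1, h2]

theorem proj_map {R' : Type*} [CommRing R'] (f : R →+* R') (m u : R[X])
    (a b x : Matrix (Fin n) (Fin n) R) :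
    (proj m u a b x).map f = proj (m.map f) (u.map f) (a.map f) (b.map f) (x.map f) := by
  have hD : (Dm m a b x).map f = Dm (m.map f) (a.map f) (b.map f) (x.map f) := by
    induction m using Polynomial.induction_on' with
    | add p q hp hq =>
      rw [Dm_add, Polynomial.map_add, Dm_add, ← hp, ← hq]
      exact map_add f.mapMatrix _ _
    | monomial k c =>
      rw [Dm_mono, Polynomial.map_monomial, Dm_mono, ← dk_map]
      ext i j
      simp
  rw [proj, proj, ← hD, ← aeval_map']
  exact map_mul f.mapMatrix _ _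

/-- the image of the projector -/
theorem proj_mem {m u : R[X]} {a x : Matrix (Fin n) (Fin n) R} {U : Submodule R (Fin n → R)}
    (ha : ∀ v ∈ U, a.mulVec v ∈ U) (hx : ∀ v, x.mulVec v ∈ U) (v : Fin n → R) :
    (proj m u a a x).mulVec v ∈ U := by
  have hpow : ∀ (k : ℕ), ∀ v ∈ U, (a ^ k).mulVec v ∈ U := by
    intro k
    induction k with
    | zero => intro v hv; simpa using hv
    | succ k ih =>
      intro v hv
      rw [pow_succ, ← Matrix.mulVec_mulVec]
      exact ih _ (ha v hv)
  have hpol : ∀ (p : R[X]), ∀ v ∈ U, (aeval a p).mulVec v ∈ U := by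
    intro p
    induction p using Polynomial.induction_on' with
    | add p q hp hq =>
      intro v hv
      rw [map_add, Matrix.add_mulVec]
      exact U.add_mem (hp v hv) (hq v hv)
    | monomial k c =>
      intro v hv
      rw [aeval_monomial, ← Algebra.smul_def, Matrix.smul_mulVec]
      exact U.smul_mem _ (hpow k v hv)
  have hdk : ∀ (k : ℕ) (v : Fin n → R), (dk a a x k).mulVec v ∈ U := by
    intro k
    induction k with
    | zero => intro v; simp [dk]
    | succ k ih =>
      intro v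
      rw [dk, Matrix.add_mulVec, ← Matrix.mulVec_mulVec, ← Matrix.mulVec_mulVec]
      exact U.add_mem (hpow k _ (hx v)) (ih _)
  have hD : (Dm m a a x).mulVec v ∈ U := by
    induction m using Polynomial.induction_on' with
    | add p q hp hq =>
      rw [Dm_add, Matrix.add_mulVec]
      exact U.add_mem hp hq
    | monomial k c =>
      rw [Dm_mono, Matrix.smul_mulVec]
      exact U.smul_mem _ (hdk k v)
  rw [proj, ← Matrix.mulVec_mulVec]
  exact hpol u _ hD

/-- the projector on the elements of `U` -/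
theorem proj_fix {m u w : R[X]} {a x : Matrix (Fin n) (Fin n) R} {U : Submodule R (Fin n → R)}
    (ham : aeval a m = 0) (huw : u * derivative m + w * m = 1)
    (ha : ∀ v ∈ U, a.mulVec v ∈ U) (hx : ∀ v ∈ U, x.mulVec v = v) {v : Fin n → R} (hv : v ∈ U) :
    (proj m u a a x).mulVec v = v := by
  have hdk : ∀ (k : ℕ), ∀ v ∈ U, (dk a a x k).mulVec v = (k : R) • (a ^ (k - 1)).mulVec v := by
    intro k
    induction k with
    | zero => intro v _; simp [dk]
    | succ k ih =>
      intro v hv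
      rw [dk, Matrix.add_mulVec, ← Matrix.mulVec_mulVec, ← Matrix.mulVec_mulVec, hx v hv,
        ih _ (ha v hv), Nat.add_sub_cancel]
      rcases Nat.eq_zero_or_pos k with rfl | hk
      · simp
      · obtain ⟨j, rfl⟩ : ∃ j, k = j + 1 := ⟨k - 1, by omega⟩
        rw [Nat.add_sub_cancel, Matrix.mulVec_mulVec, ← pow_succ]
        push_cast
        simp only [add_smul, one_smul]
        abel
  have hD : (Dm m a a x).mulVec v = (aeval a (derivative m)).mulVec v := by
    clear huw ham
    induction m using Polynomial.induction_on' with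
    | add p q hp hq =>
      rw [Dm_add, Matrix.add_mulVec, hp, hq, map_add, map_add, Matrix.add_mulVec]
    | monomial k c =>
      rw [Dm_mono, Matrix.smul_mulVec, hdk k v hv, derivative_monomial, aeval_monomial,
        ← Algebra.smul_def, Matrix.smul_mulVec, smul_smul]
  rw [proj, ← Matrix.mulVec_mulVec, hD, Matrix.mulVec_mulVec, ← map_mul]
  have h1 := congrArg (aeval a) huw
  rw [map_add, map_mul (aeval a) w, ham, mul_zero, add_zero, map_one] at h1
  rw [h1, Matrix.one_mulVec]

end proj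

section avg

variable {R : Type*} [CommRing R] {n : ℕ} {G : Type*} [Group G]

attribute [local instance] Subgroup.fintypeQuotientOfFiniteIndex

/-- the function `g ↦ ρ'(g) x ρ(g)⁻¹` -/
def cj (ρ ρ' : G →* GL (Fin n) R) (x : Matrix (Fin n) (Fin n) R) (g : G) :
    Matrix (Fin n) (Fin n) R := (ρ' g : Matrix (Fin n) (Fin n) R) * x * (ρ g⁻¹ : Matrix _ _ R)

theorem inv_mul_val (ρ : G →* GL (Fin n) R) (g : G) :
    (ρ g⁻¹ : Matrix (Fin n) (Fin n) R) * (ρ g : Matrix (Fin n) (Fin n) R) = 1 := by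
  rw [← Units.val_mul, ← map_mul, inv_mul_cancel, map_one, Units.val_one]

theorem mul_inv_val (ρ : G →* GL (Fin n) R) (g : G) :
    (ρ g : Matrix (Fin n) (Fin n) R) * (ρ g⁻¹ : Matrix (Fin n) (Fin n) R) = 1 := by
  rw [← Units.val_mul, ← map_mul, mul_inv_cancel, map_one, Units.val_one]

theorem cj_mul (ρ ρ' : G →* GL (Fin n) R) (x : Matrix (Fin n) (Fin n) R) (g h : G) :
    cj ρ ρ' x (g * h) = (ρ' g : Matrix (Fin n) (Fin n) R) * cj ρ ρ' x h * (ρ g⁻¹ : Matrix _ _ R) := by
  rw [cj, cj, map_mul, _root_.mul_inv_rev, map_mul, Units.val_mul, Units.val_mul]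
  simp only [mul_assoc]

theorem cj_eq {ρ ρ' : G →* GL (Fin n) R} {x : Matrix (Fin n) (Fin n) R} {g : G}
    (h : (ρ' g : Matrix (Fin n) (Fin n) R) * x = x * ρ g) : cj ρ ρ' x g = x := by
  rw [cj, h, mul_assoc, mul_inv_val, mul_one]

/-- the average over the cosets -/
noncomputable def avg (ρ ρ' : G →* GL (Fin n) R) (Γ : Subgroup G) [Γ.FiniteIndex] (c : R)
    (x : Matrix (Fin n) (Fin n) R) : Matrix (Fin n) (Fin n) R :=
  c • ∑ q : G ⧸ Γ, cj ρ ρ' x q.out

variable {ρ ρ' : G →* GL (Fin n) R} {Γ : Subgroup G} [Γ.FiniteIndex] {c : R}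
  {x : Matrix (Fin n) (Fin n) R}

theorem cj_out (hx : ∀ g ∈ Γ, (ρ' g : Matrix (Fin n) (Fin n) R) * x = x * ρ g) (g : G) :
    cj ρ ρ' x ((g : G ⧸ Γ).out) = cj ρ ρ' x g := by
  obtain ⟨h, hh⟩ := QuotientGroup.mk_out_eq_mul Γ g
  rw [hh, cj_mul, cj_eq (hx _ h.2)]
  rfl

theorem avg_equi (hx : ∀ g ∈ Γ, (ρ' g : Matrix (Fin n) (Fin n) R) * x = x * ρ g) (g : G) :
    (ρ' g : Matrix (Fin n) (Fin n) R) * avg ρ ρ' Γ c x = avg ρ ρ' Γ c x * ρ g := by
  have h1 : (ρ' g : Matrix (Fin n) (Fin n) R) * (∑ q : G ⧸ Γ, cj ρ ρ' x q.out) *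
      (ρ g⁻¹ : Matrix _ _ R) = ∑ q : G ⧸ Γ, cj ρ ρ' x q.out := by
    rw [Matrix.mul_sum, Matrix.sum_mul]
    refine Fintype.sum_equiv (MulAction.toPerm g) _ _ fun q => ?_
    rw [← cj_mul]
    have h2 : MulAction.toPerm g q = ((g * q.out : G) : G ⧸ Γ) := by
      rw [MulAction.toPerm_apply]
      conv_lhs => rw [← QuotientGroup.out_eq' q]
      rfl
    rw [h2, cj_out hx]
  have h3 := congrArg (fun y => y * (ρ g : Matrix (Fin n) (Fin n) R)) h1
  simp only [mul_assoc, inv_mul_val, mul_one] at h3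
  rw [avg, Matrix.mul_smul, h3, Matrix.smul_mul]

theorem avg_fix (hc : c * (Γ.index : R) = 1)
    (hx : ∀ g, (ρ' g : Matrix (Fin n) (Fin n) R) * x = x * ρ g) : avg ρ ρ' Γ c x = x := by
  have h1 : ∀ q : G ⧸ Γ, cj ρ ρ' x q.out = x := fun q => cj_eq (hx _)
  rw [avg]
  simp only [h1]
  rw [Finset.sum_const, Finset.card_univ, ← Nat.card_eq_fintype_card, ← Nat.cast_smul_eq_nsmul R,
    smul_smul]
  change (c * (Γ.index : R)) • x = x
  rw [hc, one_smul]

theorem avg_map {R' : Type*} [CommRing R'] (f : R →+* R') (ρ ρ' : G →* GL (Fin n) R)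
    (ρ₁ ρ₁' : G →* GL (Fin n) R')
    (h : ∀ g, (ρ₁ g : Matrix (Fin n) (Fin n) R') = (ρ g : Matrix (Fin n) (Fin n) R).map f)
    (h' : ∀ g, (ρ₁' g : Matrix (Fin n) (Fin n) R') = (ρ' g : Matrix (Fin n) (Fin n) R).map f)
    (c : R) (x : Matrix (Fin n) (Fin n) R) :
    (avg ρ ρ' Γ c x).map f = avg ρ₁ ρ₁' Γ (f c) (x.map f) := by
  have h1 : ∀ g, (cj ρ ρ' x g).map f = cj ρ₁ ρ₁' (x.map f) g := by
    intro g
    rw [cj, cj, h, h']
    exact (map_mul f.mapMatrix _ _).trans (congrArg (· * _) (map_mul f.mapMatrix _ _))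
  have h2 : (avg ρ ρ' Γ c x).map f = f c • (∑ q : G ⧸ Γ, cj ρ ρ' x q.out).map f := by
    ext i j
    simp [avg]
  have h3 : (∑ q : G ⧸ Γ, cj ρ ρ' x q.out).map f = ∑ q : G ⧸ Γ, (cj ρ ρ' x q.out).map f :=
    map_sum f.mapMatrix _ _
  rw [h2, h3, avg]
  simp only [h1]

/-- averages of matrices with image in `U` -/
theorem avg_mem {U : Submodule R (Fin n → R)}
    (hU : ∀ g, ∀ v ∈ U, (ρ' g : Matrix (Fin n) (Fin n) R).mulVec v ∈ U) (hx : ∀ v, x.mulVec v ∈ U)
    (v : Fin n → R) : (avg ρ ρ' Γ c x).mulVec v ∈ U := by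
  rw [avg, Matrix.smul_mulVec, Matrix.sum_mulVec]
  refine U.smul_mem _ (U.sum_mem fun q _ => ?_)
  rw [cj, ← Matrix.mulVec_mulVec, ← Matrix.mulVec_mulVec]
  exact hU _ _ (hx _)

theorem avg_fix_mem {U : Submodule R (Fin n → R)} (hc : c * (Γ.index : R) = 1)
    {ρ : G →* GL (Fin n) R}
    (hU : ∀ g, ∀ v ∈ U, (ρ g : Matrix (Fin n) (Fin n) R).mulVec v ∈ U)
    (hx : ∀ v ∈ U, x.mulVec v = v) {v : Fin n → R} (hv : v ∈ U) :
    (avg ρ ρ Γ c x).mulVec v = v := by
  have h1 : ∀ q : G ⧸ Γ, (cj ρ ρ x q.out).mulVec v = v := by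
    intro q
    rw [cj, ← Matrix.mulVec_mulVec, ← Matrix.mulVec_mulVec, hx _ (hU _ v hv),
      Matrix.mulVec_mulVec, mul_inv_val, Matrix.one_mulVec]
  rw [avg, Matrix.smul_mulVec, Matrix.sum_mulVec]
  simp only [h1]
  rw [Finset.sum_const, Finset.card_univ, ← Nat.card_eq_fintype_card, ← Nat.cast_smul_eq_nsmul R,
    smul_smul]
  change (c * (Γ.index : R)) • v = v
  rw [hc, one_smul]

end avg

end Pool.Agent.Run7.h306.AB
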