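import Pool.Agent.Run7.h306.AB9

/-!
# A criterion for the finiteness of a class of semisimple integral systems
-/

set_option autoImplicit false
set_option linter.unusedSectionVars false

open Module Matrix Polynomial NumberField Pool.Agent.Y800 Pool.Agent.R390.SF
open Pool.Agent.R390.SF.IntegralSystem
open Pool.Agent.Y126.SH (exists_reps)

namespace Pool.Agent.Run7.h306.AB

variable {F : SubFld ℚ} {n : ℕ}

/-- The representation `ρ'` is the representation on a stable lattice of `V_ℓ`: `B` is a matrix of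
nonzero determinant, and `ρ(g) B = B ρ'(g)`. -/
def OnLattice {ℓ : ℕ} [Fact ℓ.Prime] (ρ ρ' : F.fixingSubgroup →* GL (Fin n) ℤ_[ℓ]) : Prop :=
  ∃ B : Matrix (Fin n) (Fin n) ℤ_[ℓ], B.det ≠ 0 ∧
    ∀ g, (ρ g : Matrix (Fin n) (Fin n) ℤ_[ℓ]) * B = B * ρ' g

/-- For almost all `ℓ` all stable lattices of `V_ℓ` are isomorphic to `T_ℓ`. -/
def UniqueLattices (T : IntegralSystem F n) : Prop :=
  ∃ N : ℕ, ∀ (ℓ : ℕ) [Fact ℓ.Prime], N < ℓ → ∀ ρ' : F.fixingSubgroup →* GL (Fin n) ℤ_[ℓ],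
    OnLattice (T.rho ℓ) ρ' → ∃ A : GL (Fin n) ℤ_[ℓ], ∀ g, ρ' g = A * T.rho ℓ g * A⁻¹

/-- `T'` is given by another lattice in the adelic realisation of `T`, which is the same for almost
all `ℓ`. -/
structure Isogenous (T T' : IntegralSystem F n) : Prop where
  poly : T'.poly = T.poly
  almost : ∃ N : ℕ, ∀ (ℓ : ℕ) [Fact ℓ.Prime], N < ℓ → T'.rho ℓ = T.rho ℓ
  lattice : ∀ (ℓ : ℕ) [Fact ℓ.Prime], OnLattice (T.rho ℓ) (T'.rho ℓ)

/-- The class contains only finitely many systems up to isomorphism of the `T_ℓ` for all `ℓ`. -/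
def FinitelyMany (Cl : IntegralSystem F n → Prop) : Prop :=
  ∃ (m : ℕ) (T : Fin m → IntegralSystem F n), (∀ i, Cl (T i)) ∧
    ∀ T' : IntegralSystem F n, Cl T' → ∃ i, IsomorphicOn Set.univ (T i) T'

section repl

/-- replace the lattice at one prime -/
noncomputable def repl (T : IntegralSystem F n) (ℓ₀ : ℕ) [h₀ : Fact ℓ₀.Prime]
    (ρ' : F.fixingSubgroup →* GL (Fin n) ℤ_[ℓ₀]) : IntegralSystem F n where
  rho := fun ℓ hℓ => by
    classical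
    exact if h : ℓ = ℓ₀ then (by subst h; exact ρ') else T.rho ℓ
  poly := T.poly

theorem repl_same (T : IntegralSystem F n) (ℓ₀ : ℕ) [h₀ : Fact ℓ₀.Prime]
    (ρ' : F.fixingSubgroup →* GL (Fin n) ℤ_[ℓ₀]) : (repl T ℓ₀ ρ').rho ℓ₀ = ρ' := by
  unfold repl
  simp

theorem repl_ne (T : IntegralSystem F n) (ℓ₀ : ℕ) [h₀ : Fact ℓ₀.Prime]
    (ρ' : F.fixingSubgroup →* GL (Fin n) ℤ_[ℓ₀]) (ℓ : ℕ) [Fact ℓ.Prime] (h : ℓ ≠ ℓ₀) :
    (repl T ℓ₀ ρ').rho ℓ = T.rho ℓ := by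
  unfold repl
  simp [h]

theorem repl_isog (T : IntegralSystem F n) (ℓ₀ : ℕ) [h₀ : Fact ℓ₀.Prime]
    (ρ' : F.fixingSubgroup →* GL (Fin n) ℤ_[ℓ₀]) (h : OnLattice (T.rho ℓ₀) ρ') :
    Isogenous T (repl T ℓ₀ ρ') where
  poly := rfl
  almost := ⟨ℓ₀, fun ℓ _ hlt => repl_ne T ℓ₀ ρ' ℓ (by omega)⟩
  lattice := by
    intro ℓ _
    by_cases hℓ : ℓ = ℓ₀
    · subst hℓ
      rw [repl_same]
      exact h
    · rw [repl_ne T ℓ₀ ρ' ℓ hℓ]
      exact ⟨1, by rw [Matrix.det_one]; exact one_ne_zero, fun g => by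
        rw [Matrix.mul_one, Matrix.one_mul]⟩

end repl

theorem iso_symm_trans {ℓ : ℕ} [Fact ℓ.Prime] {ρ ρ₁ ρ₂ : F.fixingSubgroup →* GL (Fin n) ℤ_[ℓ]}
    (h₁ : ∃ A : GL (Fin n) ℤ_[ℓ], ∀ g, ρ₁ g = A * ρ g * A⁻¹)
    (h₂ : ∃ A : GL (Fin n) ℤ_[ℓ], ∀ g, ρ₂ g = A * ρ g * A⁻¹) :
    ∃ A : GL (Fin n) ℤ_[ℓ], ∀ g, ρ₂ g = A * ρ₁ g * A⁻¹ := by
  obtain ⟨A, hA⟩ := h₁
  obtain ⟨A', hA'⟩ := h₂
  refine ⟨A' * A⁻¹, fun g => ?_⟩
  rw [hA, hA']
  group

/-- Finiteness implies uniqueness of the lattices for almost all `ℓ`. -/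
theorem unique_of_finite {Cl : IntegralSystem F n → Prop}
    (hcl : ∀ T T', Cl T → Isogenous T T' → Cl T') (hfin : FinitelyMany Cl)
    {T : IntegralSystem F n} (hT : Cl T) : UniqueLattices T := by
  classical
  by_contra hnot
  -- infinitely many bad primes
  have h1 : ∀ N : ℕ, ∃ ℓ : ℕ, N < ℓ ∧ ∃ T' : IntegralSystem F n, Cl T' ∧
      (∀ (q : ℕ) [Fact q.Prime], q ≠ ℓ → T'.rho q = T.rho q) ∧
      ∃ hℓ : Fact ℓ.Prime, ¬ ∃ A : GL (Fin n) ℤ_[ℓ], ∀ g, T'.rho ℓ g = A * T.rho ℓ g * A⁻¹ := by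
    intro N
    by_contra hcon
    apply hnot
    refine ⟨N, fun ℓ hℓ hlt ρ' hρ' => ?_⟩
    by_contra hA
    refine hcon ⟨ℓ, hlt, repl T ℓ ρ', hcl T _ hT (repl_isog T ℓ ρ' hρ'), fun q _ hq =>
      repl_ne T ℓ ρ' q hq, hℓ, ?_⟩
    rw [repl_same]
    exact hA
  choose f hf T' hT' hsame hprime hbad using h1
  obtain ⟨m, R, hR, hall⟩ := hfin
  -- a strictly increasing sequence of bad primes
  let s : ℕ → ℕ := fun j => Nat.rec 0 (fun _ N => f N) j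
  have hs : ∀ j, s (j + 1) = f (s j) := fun j => rfl
  have hlt : ∀ j, s j < s (j + 1) := fun j => hf (s j)
  have hmono : StrictMono s := strictMono_nat_of_lt_succ hlt
  choose i hi using fun j : ℕ => hall (T' (s j)) (hT' (s j))
  obtain ⟨a, b, hab, hiab⟩ := Finite.exists_ne_map_eq_of_infinite i
  have hne : f (s a) ≠ f (s b) := by
    rw [← hs, ← hs]
    intro h
    have h' : s (a + 1) = s (b + 1) := h
    have h'' : a + 1 = b + 1 := hmono.injective h'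
    omega
  have hℓ := hprime (s a)
  have h2 := hi a (f (s a)) (Set.mem_univ _)
  have h3 := hi b (f (s a)) (Set.mem_univ _)
  rw [← hiab] at h3
  rw [hsame (s b) (f (s a)) hne] at h3
  exact hbad (s a) (iso_symm_trans h3 h2)

variable [hF : FiniteDimensional ℚ F]

/-- Uniqueness of the lattices implies finiteness. -/
theorem finite_of_unique (hn : 0 < n) (w : ℕ) (S : Finset ℕ) {Cl : IntegralSystem F n → Prop}
    (hG : ∀ T, Cl T → T.GoodSystem S w) (hs : ∀ T, Cl T → Semisimple T)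
    (hu : ∀ T, Cl T → UniqueLattices T) : FinitelyMany Cl := by
  classical
  obtain ⟨𝒯, h𝒯, hdet⟩ := traces_of_finite (F := F) hn S
  refine exists_reps (fun T : IntegralSystem F n => Cl T)
    (fun T T' => IsomorphicOn Set.univ T T') (fun T => fun p : 𝒯 => (T.poly p).coeff (n - 1)) ?_ ?_
  · refine (Set.Finite.pi' (t := fun p : 𝒯 => Set.Icc
      (-((Nat.card (𝓞 F ⧸ (p : Ideal (𝓞 F))) ^ w) ^ n * n.choose (n / 2) : ℕ) : ℤ)
      (((Nat.card (𝓞 F ⧸ (p : Ideal (𝓞 F))) ^ w) ^ n * n.choose (n / 2) : ℕ) : ℤ))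
      (fun p => Set.finite_Icc _ _)).subset ?_
    rintro _ ⟨T, hT, rfl⟩ p
    obtain ⟨h1, r, hr, hrS, h2⟩ := h𝒯 p p.2
    exact abs_le.1 (coeff_bound (hG T hT) hr hrS h1 h2 (n - 1))
  · intro T0 hT0
    obtain ⟨N, hN⟩ := hu T0 hT0
    choose k c hk hc using local_code2 (Λ := Set.univ) (T0 := T0) (fun ℓ _ _ => hs T0 hT0 ℓ)
    obtain ⟨K, ⟨e⟩⟩ := Finite.exists_equiv_fin (∀ ℓ : Fin (N + 1), Fin (k ℓ))
    refine ⟨K, fun T => (e fun ℓ => ⟨c ℓ T, hk ℓ T⟩ : ℕ), fun T => Fin.is_lt _, ?_⟩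
    intro T T' hT hT' hi hi' hcode ℓ hℓ hℓΛ
    have h1 := exists_inter (hs T0 hT0 ℓ) (hs T hT ℓ)
      (hdet w w T T0 (hG T hT) (hG T0 hT0) (fun p hp => congrFun hi ⟨p, hp⟩) ℓ)
    have h2 := exists_inter (hs T0 hT0 ℓ) (hs T' hT' ℓ)
      (hdet w w T' T0 (hG T' hT') (hG T0 hT0) (fun p hp => congrFun hi' ⟨p, hp⟩) ℓ)
    by_cases hℓN : ℓ ≤ N
    · have h3 := e.injective (Fin.ext hcode)
      have h4 := congrFun h3 ⟨ℓ, Nat.lt_succ_of_le hℓN⟩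
      exact hc ℓ T T' hℓΛ h1 h2 (congrArg Fin.val h4)
    · exact iso_symm_trans (hN ℓ (not_le.1 hℓN) (T.rho ℓ) h1) (hN ℓ (not_le.1 hℓN) (T'.rho ℓ) h2)

/-- **The theorem.** -/
theorem main (hn : 0 < n) (w : ℕ) (S : Finset ℕ) :
    (FinitelyMany (InClass (F := F) (n := n) S w) ∧
      ∀ T : IntegralSystem F n, InClass S w T → UniqueLattices T) ∧
    ∀ Cl : IntegralSystem F n → Prop, (∀ T, Cl T → T.GoodSystem S w ∧ Semisimple T) →
      ((∀ T, Cl T → UniqueLattices T) → FinitelyMany Cl) ∧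
      ((∀ T T', Cl T → Isogenous T T' → Cl T') →
        (FinitelyMany Cl ↔ ∀ T, Cl T → UniqueLattices T)) := by
  have hu : ∀ T : IntegralSystem F n, InClass S w T → UniqueLattices T := by
    intro T hT
    obtain ⟨N, hN⟩ := exists_bound hT
    exact ⟨N, fun ℓ _ hlt ρ' ⟨B, hB, hBρ⟩ => hN ℓ hlt ρ' B hB hBρ⟩
  refine ⟨⟨finite_of_unique hn w S (fun T hT => hT.good) (fun T hT => hT.semisimple) hu, hu⟩, ?_⟩
  intro Cl hCl
  refine ⟨fun h => finite_of_unique hn w S (fun T hT => (hCl T hT).1) (fun T hT => (hCl T hT).2) h,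
    fun hcl => ⟨fun hfin T hT => unique_of_finite hcl hfin hT, fun h =>
      finite_of_unique hn w S (fun T hT => (hCl T hT).1) (fun T hT => (hCl T hT).2) h⟩⟩

end Pool.Agent.Run7.h306.AB
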