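import Pool.Agent.Run7.h306.AB1
import Pool.Agent.R390.SF.Uniq
import Pool.Agent.R390.SF.BN2

/-!
# Lattices in representations which are abelian on a subgroup of index prime to `ℓ`
-/

set_option autoImplicit false
set_option linter.unusedSectionVars false

open Module Matrix Polynomial Pool.Agent.R390.SF

namespace Pool.Agent.Run7.h306.AB

/-! ### Semisimple representations with the same traces, characteristic `ℓ > n` -/

section bnmod

universe u

variable {k A : Type*} [Field k] [Ring A] [Algebra k A]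

theorem hom_ne_zero' {M N : Type u} [AddCommGroup M] [Module k M] [Module A M] [IsScalarTower k A M]
    [AddCommGroup N] [Module k N] [Module A N] [IsScalarTower k A N] [FiniteDimensional k M]
    [FiniteDimensional k N] [IsSemisimpleModule A M] [IsSemisimpleModule A N]
    (hk : ((finrank k M : ℕ) : k) ≠ 0) (htr : ∀ a : A, trc k M a = trc k N a) :
    ∃ f : M →ₗ[A] N, f ≠ 0 := by
  classical
  by_contra hcon
  push Not at hcon
  have hcon' : ∀ g : N →ₗ[A] M, g = 0 := by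
    intro g
    obtain ⟨s, hs⟩ := IsSemisimpleModule.lifting_property (R := A) g.rangeRestrict
      g.surjective_rangeRestrict LinearMap.id
    obtain ⟨t, ht⟩ := IsSemisimpleModule.extension_property (R := A) (LinearMap.range g).subtype
      (LinearMap.range g).subtype_injective s
    have h1 : s = 0 := by rw [← ht, hcon t, LinearMap.zero_comp]
    rw [h1, LinearMap.comp_zero] at hs
    have h2 : LinearMap.range g = ⊥ := by
      rw [eq_bot_iff]
      rintro x hx
      have h3 := LinearMap.congr_fun hs ⟨x, hx⟩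
      exact (congrArg Subtype.val h3).symm
    exact LinearMap.range_eq_bot.1 h2
  have hf : ∀ (f : Module.End A (M × N)) (x : M) (y : N), (f (x, y)).1 = (f (x, 0)).1 ∧
      (f (x, 0)).2 = 0 := by
    intro f x y
    constructor
    · have h1 : f (x, y) = f (x, 0) + f (0, y) := by
        rw [← map_add]
        simp
      have h2 := LinearMap.congr_fun (hcon' ((LinearMap.fst A M N).comp (f.comp
        (LinearMap.inr A M N)))) y
      have h3 : (f (0, y)).1 = 0 := h2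
      rw [h1, Prod.fst_add, h3, add_zero]
    · exact LinearMap.congr_fun (hcon ((LinearMap.snd A M N).comp (f.comp
        (LinearMap.inl A M N)))) x
  let e : Module.End (Module.End A (M × N)) (M × N) :=
    { toFun := fun p => (p.1, 0)
      map_add' := fun p q => by simp
      map_smul' := fun f p => by
        obtain ⟨x, y⟩ := p
        show ((f (x, y)).1, (0 : N)) = f (x, 0)
        rw [(hf f x y).1]
        exact Prod.ext rfl (hf f x y).2.symm }
  have hss : IsSemisimpleModule A (M × N) := by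
    have h1 : IsSemisimpleModule A (LinearMap.range (LinearMap.inl A M N)) :=
      IsSemisimpleModule.congr (LinearEquiv.ofInjective (LinearMap.inl A M N)
        LinearMap.inl_injective).symm
    have h2 : IsSemisimpleModule A (LinearMap.range (LinearMap.inr A M N)) :=
      IsSemisimpleModule.congr (LinearEquiv.ofInjective (LinearMap.inr A M N)
        LinearMap.inr_injective).symm
    have h3 := IsSemisimpleModule.sup h1 h2
    rw [LinearMap.sup_range_inl_inr] at h3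
    exact IsSemisimpleModule.congr Submodule.topEquiv.symm
  let b := Module.finBasis k (M × N)
  obtain ⟨a, ha⟩ := jacobson_density (R := A) e (Finset.univ.image b)
  have ha' : ∀ p : M × N, a • p = (p.1, 0) := by
    intro p
    have h1 : Algebra.lsmul k k (M × N) a = (LinearMap.inl k M N).comp (LinearMap.fst k M N) := by
      refine b.ext fun i => ?_
      have h2 := ha (b i) (Finset.mem_image_of_mem _ (Finset.mem_univ _))
      exact h2.symm
    exact LinearMap.congr_fun h1 p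
  have h1 : Algebra.lsmul k k M a = 1 := by
    ext x
    have h2 := congrArg Prod.fst (ha' (x, 0))
    exact h2
  have h2 : Algebra.lsmul k k N a = 0 := by
    ext x
    have h3 := congrArg Prod.snd (ha' (0, x))
    exact h3
  have h3 := htr a
  unfold trc at h3
  rw [h1, h2, map_zero, LinearMap.trace_one] at h3
  exact hk h3

theorem iso_of_trc' : ∀ (d : ℕ), (∀ m : ℕ, 0 < m → m ≤ d → (m : k) ≠ 0) →
    ∀ (M N : Type u) [AddCommGroup M] [Module k M]
    [Module A M] [IsScalarTower k A M] [AddCommGroup N] [Module k N] [Module A N]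
    [IsScalarTower k A N] [FiniteDimensional k M] [FiniteDimensional k N] [IsSemisimpleModule A M]
    [IsSemisimpleModule A N], finrank k M = d → finrank k N = d →
      (∀ a : A, trc k M a = trc k N a) → Nonempty (M ≃ₗ[A] N) := by
  intro d
  induction d using Nat.strong_induction_on with
  | _ d ih =>
    intro hk M N _ _ _ _ _ _ _ _ _ _ _ _ hd hd' htr
    rcases Nat.eq_zero_or_pos d with rfl | hpos
    · have hM : Subsingleton M := Module.finrank_zero_iff.1 hd
      have hN : Subsingleton N := Module.finrank_zero_iff.1 hd'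
      exact ⟨LinearEquiv.ofBijective (0 : M →ₗ[A] N)
        ⟨fun x y _ => Subsingleton.elim _ _, fun y => ⟨0, Subsingleton.elim _ _⟩⟩⟩
    · obtain ⟨f, hf⟩ := hom_ne_zero' (k := k) (M := M) (N := N) (by rw [hd]; exact hk d hpos le_rfl) htr
      obtain ⟨K', hK'⟩ := exists_isCompl (LinearMap.ker f)
      obtain ⟨C, hC⟩ := exists_isCompl (LinearMap.range f)
      have hfd : ∀ K : Submodule A M, FiniteDimensional k K := fun K =>
        FiniteDimensional.of_injective (K.subtype.restrictScalars k) K.subtype_injective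
      have hfd' : ∀ K : Submodule A N, FiniteDimensional k K := fun K =>
        FiniteDimensional.of_injective (K.subtype.restrictScalars k) K.subtype_injective
      have := hfd (LinearMap.ker f)
      have := hfd K'
      have := hfd' (LinearMap.range f)
      have := hfd' C
      have e₁ : K' ≃ₗ[A] LinearMap.range f :=
        (Submodule.quotientEquivOfIsCompl _ _ hK').symm.trans f.quotKerEquivRange
      have e₂ := Submodule.prodEquivOfIsCompl _ _ hK'
      have e₃ := Submodule.prodEquivOfIsCompl _ _ hC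
      have h1 : ∀ a : A, trc k (LinearMap.ker f) a = trc k C a := by
        intro a
        have h2 := trc_congr (k := k) e₂ a
        have h3 := trc_congr (k := k) e₃ a
        rw [trc_prod] at h2 h3
        have h4 := trc_congr (k := k) e₁ a
        have h5 := htr a
        rw [← h2, ← h3, h4, add_comm] at h5
        exact add_left_cancel h5
      have h2 : finrank k (LinearMap.ker f) < d := by
        rw [← hd]
        have h3 : (LinearMap.ker f).restrictScalars k ≠ ⊤ := by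
          intro h4
          apply hf
          ext x
          have h5 : x ∈ (LinearMap.ker f).restrictScalars k := by
            rw [h4]
            exact Submodule.mem_top
          exact h5
        exact Submodule.finrank_lt h3
      have hdim1 : finrank k (LinearMap.ker f) + finrank k K' = d := by
        rw [← finrank_prod, (e₂.restrictScalars k).finrank_eq, hd]
      have hdim2 : finrank k (LinearMap.range f) + finrank k C = d := by
        rw [← finrank_prod, (e₃.restrictScalars k).finrank_eq, hd']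
      have hdim3 : finrank k K' = finrank k (LinearMap.range f) :=
        (e₁.restrictScalars k).finrank_eq
      obtain ⟨e₄⟩ := ih _ h2 (fun m h1 h3 => hk m h1 (by omega)) (LinearMap.ker f) C rfl
        (by omega) h1
      exact ⟨e₂.symm.trans ((LinearEquiv.prodCongr e₄ e₁).trans
        ((LinearEquiv.prodComm A _ _).trans e₃))⟩

open scoped MonoidAlgebra in
/-- **Semisimple representations with the same traces are isomorphic.** -/
theorem bn_ss' {G : Type} [Group G] {n : ℕ} {k : Type} [Field k]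
    (hk : ∀ m : ℕ, 0 < m → m ≤ n → (m : k) ≠ 0) {ρ ρ' : G →* GL (Fin n) k} (h : Semis ρ)
    (h' : Semis ρ')
    (ht : ∀ g, (ρ g : Matrix (Fin n) (Fin n) k).trace = (ρ' g : Matrix (Fin n) (Fin n) k).trace) :
    ∃ A : GL (Fin n) k, ∀ g, (ρ' g : Matrix (Fin n) (Fin n) k) * A = A * ρ g := by
  have := semis_module h
  have := semis_module h'
  have hr : finrank k (rp ρ).asModule = n := Module.finrank_fin_fun k
  have hr' : finrank k (rp ρ').asModule = n := Module.finrank_fin_fun k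
  obtain ⟨e⟩ := iso_of_trc' (k := k) (A := k[G]) n hk (rp ρ).asModule (rp ρ').asModule hr hr'
    (trc_asModule ρ ρ' ht)
  let e' : (Fin n → k) ≃ₗ[k] (Fin n → k) := e.restrictScalars k
  have he : ∀ (g : G) (v : Fin n → k), e' ((ρ g : Matrix (Fin n) (Fin n) k).mulVec v) =
      (ρ' g : Matrix (Fin n) (Fin n) k).mulVec (e' v) := by
    intro g v
    have h0 : ∀ (r : Representation k G (Fin n → k)) (x : r.asModule),
        MonoidAlgebra.single g (1 : k) • x = r g (r.asModuleEquiv x) := by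
      intro r x
      rw [Representation.single_smul, one_smul]
    have h1 : e (MonoidAlgebra.single g (1 : k) • ((rp ρ).asModuleEquiv.symm v)) =
        MonoidAlgebra.single g (1 : k) • e ((rp ρ).asModuleEquiv.symm v) := e.map_smul _ _
    rw [h0 (rp ρ), h0 (rp ρ')] at h1
    exact h1
  have h1 : IsUnit (LinearMap.toMatrix' (e' : (Fin n → k) →ₗ[k] (Fin n → k))) := by
    refine ⟨⟨LinearMap.toMatrix' (e' : (Fin n → k) →ₗ[k] (Fin n → k)),
      LinearMap.toMatrix' (e'.symm : (Fin n → k) →ₗ[k] (Fin n → k)), ?_, ?_⟩, rfl⟩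
    · rw [← LinearMap.toMatrix'_comp]
      simp
    · rw [← LinearMap.toMatrix'_comp]
      simp
  obtain ⟨A, hA⟩ := h1
  refine ⟨A, fun g => ?_⟩
  rw [hA]
  apply Matrix.toLin'.injective
  rw [Matrix.toLin'_mul, Matrix.toLin'_mul, Matrix.toLin'_toMatrix']
  exact LinearMap.ext fun v => (he g v).symm

end bnmod

/-! ### Lattices -/

section lattice

variable {n ℓ : ℕ} [hℓ : Fact ℓ.Prime] {G : Type} [Group G]

/-- The polynomial `m`, separable modulo `ℓ`, kills `ρ(σ)`, and the matrices which commute with `ρ(σ)`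
commute with `ρ(Γ)`. -/
structure Etale (ρ : G →* GL (Fin n) ℤ_[ℓ]) (σ : G) (m u w : ℤ_[ℓ][X]) (Γ : Subgroup G) : Prop where
  root : aeval (ρ σ : Matrix (Fin n) (Fin n) ℤ_[ℓ]) m = 0
  sep : u * derivative m + w * m = 1
  cent : ∀ X : Matrix (Fin n) (Fin n) ℤ_[ℓ], (ρ σ : Matrix (Fin n) (Fin n) ℤ_[ℓ]) * X = X * ρ σ →
    ∀ g ∈ Γ, (ρ g : Matrix (Fin n) (Fin n) ℤ_[ℓ]) * X = X * ρ g

theorem cancel_left {B X : Matrix (Fin n) (Fin n) ℤ_[ℓ]} (hB : B.det ≠ 0) (h : B * X = 0) :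
    X = 0 := by
  have h1 : B.det • X = 0 := by
    rw [← Matrix.one_mul X, ← Matrix.smul_mul, ← Matrix.adjugate_mul, Matrix.mul_assoc, h,
      Matrix.mul_zero]
  exact (smul_eq_zero.1 h1).resolve_left hB

theorem cancel_right {B X : Matrix (Fin n) (Fin n) ℤ_[ℓ]} (hB : B.det ≠ 0) (h : X * B = 0) :
    X = 0 := by
  have h1 : B.det • X = 0 := by
    rw [← Matrix.mul_one X, ← Matrix.mul_smul, ← Matrix.mul_adjugate, ← Matrix.mul_assoc, h,
      Matrix.zero_mul]
  exact (smul_eq_zero.1 h1).resolve_left hB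

variable {ρ ρ₀ : G →* GL (Fin n) ℤ_[ℓ]} {σ : G} {m u w : ℤ_[ℓ][X]} {Γ : Subgroup G}
  {B : Matrix (Fin n) (Fin n) ℤ_[ℓ]}

theorem adj_inter (hB : B.det ≠ 0)
    (hBρ : ∀ g, (ρ₀ g : Matrix (Fin n) (Fin n) ℤ_[ℓ]) * B = B * ρ g) (g : G) :
    (ρ g : Matrix (Fin n) (Fin n) ℤ_[ℓ]) * B.adjugate = B.adjugate * ρ₀ g := by
  rw [← sub_eq_zero]
  refine cancel_right hB (cancel_left hB ?_)
  have h1 : B * (((ρ g : Matrix (Fin n) (Fin n) ℤ_[ℓ]) * B.adjugate - B.adjugate * ρ₀ g) * B) =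
      (B * ρ g) * (B.adjugate * B) - (B * B.adjugate) * (ρ₀ g * B) := by noncomm_ring
  rw [h1, Matrix.adjugate_mul, Matrix.mul_adjugate, hBρ, Matrix.mul_smul, Matrix.smul_mul,
    Matrix.mul_one, Matrix.one_mul, sub_self]

theorem inter_aeval (hBρ : ∀ g, (ρ₀ g : Matrix (Fin n) (Fin n) ℤ_[ℓ]) * B = B * ρ g)
    (f : ℤ_[ℓ][X]) (g : G) : aeval (ρ₀ g : Matrix (Fin n) (Fin n) ℤ_[ℓ]) f * B =
      B * aeval (ρ g : Matrix (Fin n) (Fin n) ℤ_[ℓ]) f := by
  induction f using Polynomial.induction_on' with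
  | add p q hp hq => rw [map_add, map_add, add_mul, mul_add, hp, hq]
  | monomial k c =>
    rw [aeval_monomial, aeval_monomial, ← Algebra.smul_def, ← Algebra.smul_def, Matrix.smul_mul,
      Matrix.mul_smul, ← Units.val_pow_eq_pow_val, ← Units.val_pow_eq_pow_val, ← map_pow, ← map_pow,
      hBρ]

theorem root_of (h : Etale ρ₀ σ m u w Γ) (hB : B.det ≠ 0)
    (hBρ : ∀ g, (ρ₀ g : Matrix (Fin n) (Fin n) ℤ_[ℓ]) * B = B * ρ g) :
    aeval (ρ σ : Matrix (Fin n) (Fin n) ℤ_[ℓ]) m = 0 := by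
  refine cancel_left hB ?_
  rw [← inter_aeval hBρ, h.root, Matrix.zero_mul]

theorem inter_of (h : Etale ρ₀ σ m u w Γ) (hB : B.det ≠ 0)
    (hBρ : ∀ g, (ρ₀ g : Matrix (Fin n) (Fin n) ℤ_[ℓ]) * B = B * ρ g)
    {X : Matrix (Fin n) (Fin n) ℤ_[ℓ]} (hX : (ρ₀ σ : Matrix (Fin n) (Fin n) ℤ_[ℓ]) * X = X * ρ σ)
    {g : G} (hg : g ∈ Γ) : (ρ₀ g : Matrix (Fin n) (Fin n) ℤ_[ℓ]) * X = X * ρ g := by
  have h1 := h.cent (X * B.adjugate) (by
    rw [← Matrix.mul_assoc, hX, Matrix.mul_assoc, adj_inter hB hBρ, Matrix.mul_assoc]) g hg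
  rw [← sub_eq_zero]
  refine cancel_right (B := B.adjugate) ?_ ?_
  · intro h0
    have h2 := congrArg Matrix.det (Matrix.mul_adjugate B)
    rw [Matrix.det_mul, h0, mul_zero, Matrix.det_smul, Matrix.det_one, mul_one] at h2
    exact pow_ne_zero _ hB h2.symm
  · rw [Matrix.sub_mul, Matrix.mul_assoc, h1, Matrix.mul_assoc, Matrix.mul_assoc,
      adj_inter hB hBρ, sub_self]

theorem etale_of (h : Etale ρ₀ σ m u w Γ) (hB : B.det ≠ 0)
    (hBρ : ∀ g, (ρ₀ g : Matrix (Fin n) (Fin n) ℤ_[ℓ]) * B = B * ρ g) : Etale ρ σ m u w Γ where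
  root := root_of h hB hBρ
  sep := h.sep
  cent := by
    intro X hX g hg
    have h1 := inter_of h hB hBρ (X := B * X) (by
      rw [← Matrix.mul_assoc, hBρ, Matrix.mul_assoc, hX, Matrix.mul_assoc]) hg
    rw [← sub_eq_zero]
    refine cancel_left hB ?_
    rw [Matrix.mul_sub, ← Matrix.mul_assoc, ← hBρ, Matrix.mul_assoc, h1, Matrix.mul_assoc, sub_self]

theorem sep_map (h : u * derivative m + w * m = 1) :
    (u.map (PadicInt.toZMod (p := ℓ))) * derivative (m.map (PadicInt.toZMod (p := ℓ))) +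
      (w.map (PadicInt.toZMod (p := ℓ))) * (m.map (PadicInt.toZMod (p := ℓ))) = 1 := by
  have h1 := congrArg (Polynomial.map (PadicInt.toZMod (p := ℓ))) h
  rw [Polynomial.map_add, Polynomial.map_mul, Polynomial.map_mul, Polynomial.map_one] at h1
  rw [Polynomial.derivative_map]
  exact h1

theorem rd_surj (X : Matrix (Fin n) (Fin n) (ZMod ℓ)) : ∃ Y : Matrix (Fin n) (Fin n) ℤ_[ℓ],
    rd Y = X := by
  have h1 : ∀ x : ZMod ℓ, ∃ y : ℤ_[ℓ], PadicInt.toZMod y = x := by
    intro x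
    exact ZMod.ringHom_surjective _ x
  choose f hf using h1
  exact ⟨X.map f, by ext i j; exact hf _⟩

/-- Lifting the matrices which intertwine `ρ(σ)`. -/
theorem lift_one (h : Etale ρ₀ σ m u w Γ) (h' : Etale ρ σ m u w Γ)
    {X : Matrix (Fin n) (Fin n) (ZMod ℓ)}
    (hX : (toF ρ₀ σ : Matrix (Fin n) (Fin n) (ZMod ℓ)) * X = X * toF ρ σ) :
    ∃ Y : Matrix (Fin n) (Fin n) ℤ_[ℓ], rd Y = X ∧
      (ρ₀ σ : Matrix (Fin n) (Fin n) ℤ_[ℓ]) * Y = Y * ρ σ := by
  obtain ⟨Y, hY⟩ := rd_surj X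
  refine ⟨proj m u (ρ σ : Matrix (Fin n) (Fin n) ℤ_[ℓ]) (ρ₀ σ : Matrix (Fin n) (Fin n) ℤ_[ℓ]) Y, ?_,
    proj_comm u h'.root h.root Y⟩
  have h1 := proj_map (PadicInt.toZMod (p := ℓ)) m u (ρ σ : Matrix (Fin n) (Fin n) ℤ_[ℓ])
    (ρ₀ σ : Matrix (Fin n) (Fin n) ℤ_[ℓ]) Y
  have h2 : Y.map (PadicInt.toZMod (p := ℓ)) = X := hY
  have h3 : aeval ((ρ₀ σ : Matrix (Fin n) (Fin n) ℤ_[ℓ]).map (PadicInt.toZMod (p := ℓ)))
      (m.map (PadicInt.toZMod (p := ℓ))) = 0 := by
    rw [← aeval_map', h.root]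
    exact map_zero (rd (n := n) (ℓ := ℓ))
  have h4 : proj (m.map (PadicInt.toZMod (p := ℓ))) (u.map (PadicInt.toZMod (p := ℓ)))
      (toF ρ σ : Matrix (Fin n) (Fin n) (ZMod ℓ)) (toF ρ₀ σ : Matrix (Fin n) (Fin n) (ZMod ℓ)) X = X :=
    proj_inter h3 (sep_map h.sep) hX
  rw [h2] at h1
  exact h1.trans h4

attribute [local instance] Subgroup.fintypeQuotientOfFiniteIndex

/-- **Lifting the intertwiners.** -/
theorem lift_all [Γ.FiniteIndex] (h : Etale ρ₀ σ m u w Γ) (hB : B.det ≠ 0)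
    (hBρ : ∀ g, (ρ₀ g : Matrix (Fin n) (Fin n) ℤ_[ℓ]) * B = B * ρ g) {c : ℤ_[ℓ]}
    (hc : c * (Γ.index : ℤ_[ℓ]) = 1) {X : Matrix (Fin n) (Fin n) (ZMod ℓ)}
    (hX : ∀ g, (toF ρ₀ g : Matrix (Fin n) (Fin n) (ZMod ℓ)) * X = X * toF ρ g) :
    ∃ Y : Matrix (Fin n) (Fin n) ℤ_[ℓ], rd Y = X ∧
      ∀ g, (ρ₀ g : Matrix (Fin n) (Fin n) ℤ_[ℓ]) * Y = Y * ρ g := by
  obtain ⟨Y, hY, hYσ⟩ := lift_one h (etale_of h hB hBρ) (hX σ)
  refine ⟨avg ρ ρ₀ Γ c Y, ?_, avg_equi fun g hg => inter_of h hB hBρ hYσ hg⟩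
  have h1 := avg_map (Γ := Γ) (PadicInt.toZMod (p := ℓ)) ρ ρ₀ (toF ρ) (toF ρ₀) (fun _ => rfl)
    (fun _ => rfl) c Y
  have h2 : Y.map (PadicInt.toZMod (p := ℓ)) = X := hY
  have h3 : PadicInt.toZMod c * (Γ.index : ZMod ℓ) = 1 := by
    rw [← map_natCast (PadicInt.toZMod (p := ℓ)), ← map_mul, hc, map_one]
  rw [h2, avg_fix h3 hX] at h1
  exact h1

/-- **Semisimplicity modulo `ℓ`.** -/
theorem semis_res [Γ.FiniteIndex] (h : Etale ρ σ m u w Γ) {c : ℤ_[ℓ]}
    (hc : c * (Γ.index : ℤ_[ℓ]) = 1) : Semis (toF ρ) := by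
  classical
  intro U hU
  obtain ⟨U₁, hU₁⟩ := Submodule.exists_isCompl U
  let P₀ : Matrix (Fin n) (Fin n) (ZMod ℓ) :=
    LinearMap.toMatrix' (U.subtype.comp (U.linearProjOfIsCompl U₁ hU₁))
  have hP₀ : ∀ v, P₀.mulVec v = ((U.linearProjOfIsCompl U₁ hU₁ v : U) : Fin n → ZMod ℓ) := by
    intro v
    rw [← Matrix.toLin'_apply, Matrix.toLin'_toMatrix']
    rfl
  have h0 : ∀ v, P₀.mulVec v ∈ U := fun v => by
    rw [hP₀]
    exact Subtype.property _
  have h0' : ∀ v ∈ U, P₀.mulVec v = v := by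
    intro v hv
    rw [hP₀]
    exact congrArg Subtype.val (Submodule.linearProjOfIsCompl_apply_left hU₁ ⟨v, hv⟩)
  have hroot : aeval (toF ρ σ : Matrix (Fin n) (Fin n) (ZMod ℓ))
      (m.map (PadicInt.toZMod (p := ℓ))) = 0 := by
    have h1 := aeval_map' (PadicInt.toZMod (p := ℓ)) (ρ σ : Matrix (Fin n) (Fin n) ℤ_[ℓ]) m
    rw [h.root] at h1
    have h2 : (0 : Matrix (Fin n) (Fin n) ℤ_[ℓ]).map (PadicInt.toZMod (p := ℓ)) = 0 :=
      map_zero (rd (n := n) (ℓ := ℓ))
    rw [h2] at h1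
    exact h1.symm
  let P₁ := proj (m.map (PadicInt.toZMod (p := ℓ))) (u.map (PadicInt.toZMod (p := ℓ)))
    (toF ρ σ : Matrix (Fin n) (Fin n) (ZMod ℓ)) (toF ρ σ : Matrix (Fin n) (Fin n) (ZMod ℓ)) P₀
  have h1 : ∀ v, P₁.mulVec v ∈ U := proj_mem (hU σ) h0
  have h1' : ∀ v ∈ U, P₁.mulVec v = v := fun v hv =>
    proj_fix hroot (sep_map h.sep) (hU σ) h0' hv
  have h1c : (toF ρ σ : Matrix (Fin n) (Fin n) (ZMod ℓ)) * P₁ = P₁ * toF ρ σ :=
    proj_comm _ hroot hroot P₀
  obtain ⟨Y, hY, hYσ⟩ := lift_one h h h1c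
  have h1d : ∀ g ∈ Γ, (toF ρ g : Matrix (Fin n) (Fin n) (ZMod ℓ)) * P₁ = P₁ * toF ρ g := by
    intro g hg
    have h2 := congrArg rd (h.cent Y hYσ g hg)
    rw [map_mul, map_mul, hY] at h2
    exact h2
  let P₂ := avg (toF ρ) (toF ρ) Γ (PadicInt.toZMod c) P₁
  have h3 : PadicInt.toZMod c * (Γ.index : ZMod ℓ) = 1 := by
    rw [← map_natCast (PadicInt.toZMod (p := ℓ)), ← map_mul, hc, map_one]
  have h2 : ∀ v, P₂.mulVec v ∈ U := avg_mem hU h1
  have h2' : ∀ v ∈ U, P₂.mulVec v = v := fun v hv => avg_fix_mem h3 hU h1' hv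
  have h2c : ∀ g, (toF ρ g : Matrix (Fin n) (Fin n) (ZMod ℓ)) * P₂ = P₂ * toF ρ g :=
    avg_equi h1d
  refine ⟨LinearMap.ker (Matrix.toLin' P₂), ?_, ?_⟩
  · intro g v hv
    rw [LinearMap.mem_ker, Matrix.toLin'_apply] at hv ⊢
    rw [Matrix.mulVec_mulVec, ← h2c, ← Matrix.mulVec_mulVec, hv, Matrix.mulVec_zero]
  · constructor
    · rw [disjoint_iff, eq_bot_iff]
      intro v hv
      rw [Submodule.mem_inf, LinearMap.mem_ker, Matrix.toLin'_apply] at hv
      rw [Submodule.mem_bot, ← h2' v hv.1, hv.2]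
    · rw [codisjoint_iff, eq_top_iff]
      intro v _
      rw [Submodule.mem_sup]
      refine ⟨P₂.mulVec v, h2 v, v - P₂.mulVec v, ?_, by abel⟩
      rw [LinearMap.mem_ker, Matrix.toLin'_apply, Matrix.mulVec_sub, h2' _ (h2 v), sub_self]

theorem trace_eq (hB : B.det ≠ 0)
    (hBρ : ∀ g, (ρ₀ g : Matrix (Fin n) (Fin n) ℤ_[ℓ]) * B = B * ρ g) (g : G) :
    (ρ g : Matrix (Fin n) (Fin n) ℤ_[ℓ]).trace = (ρ₀ g : Matrix (Fin n) (Fin n) ℤ_[ℓ]).trace := by
  have h1 : B.det * (ρ g : Matrix (Fin n) (Fin n) ℤ_[ℓ]).trace =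
      B.det * (ρ₀ g : Matrix (Fin n) (Fin n) ℤ_[ℓ]).trace := by
    rw [← smul_eq_mul, ← smul_eq_mul, ← Matrix.trace_smul, ← Matrix.trace_smul]
    have h2 : B.det • (ρ g : Matrix (Fin n) (Fin n) ℤ_[ℓ]) = B.adjugate * (B * ρ g) := by
      rw [← Matrix.mul_assoc, Matrix.adjugate_mul, Matrix.smul_mul, Matrix.one_mul]
    have h3 : B.det • (ρ₀ g : Matrix (Fin n) (Fin n) ℤ_[ℓ]) = (ρ₀ g * B) * B.adjugate := by
      rw [Matrix.mul_assoc, Matrix.mul_adjugate, Matrix.mul_smul, Matrix.mul_one]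
    rw [h2, h3, Matrix.trace_mul_comm, hBρ]
  exact mul_left_cancel₀ hB h1

theorem rd_trace (D : Matrix (Fin n) (Fin n) ℤ_[ℓ]) :
    (rd D).trace = PadicInt.toZMod D.trace := by
  rw [Matrix.trace, Matrix.trace, map_sum]
  rfl

/-- **Uniqueness of the lattice.** -/
theorem unique_lattice [Γ.FiniteIndex] (hn : n < ℓ) (h : Etale ρ₀ σ m u w Γ) {c : ℤ_[ℓ]}
    (hc : c * (Γ.index : ℤ_[ℓ]) = 1) (hB : B.det ≠ 0)
    (hBρ : ∀ g, (ρ₀ g : Matrix (Fin n) (Fin n) ℤ_[ℓ]) * B = B * ρ g) :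
    ∃ A : GL (Fin n) ℤ_[ℓ], ∀ g, ρ g = A * ρ₀ g * A⁻¹ := by
  have hk : ∀ m : ℕ, 0 < m → m ≤ n → (m : ZMod ℓ) ≠ 0 := by
    intro m hm hmn h0
    rw [ZMod.natCast_eq_zero_iff] at h0
    exact absurd (Nat.le_of_dvd hm h0) (by omega)
  obtain ⟨A, hA⟩ := bn_ss' hk (semis_res (etale_of h hB hBρ) hc) (semis_res h hc) (fun g => by
    rw [toF_val, toF_val, rd_trace, rd_trace, trace_eq hB hBρ g])
  obtain ⟨Y, hY, hYρ⟩ := lift_all h hB hBρ hc hA
  have hdet : IsUnit Y.det := by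
    refine isUnit_of_rd ?_
    rw [← rd_det, hY]
    exact ((Matrix.isUnit_iff_isUnit_det _).1 A.isUnit).ne_zero
  obtain ⟨A', hA'⟩ := (Matrix.isUnit_iff_isUnit_det Y).2 hdet
  refine ⟨A'⁻¹, fun g => ?_⟩
  apply Units.ext
  rw [inv_inv, Units.val_mul, Units.val_mul, Matrix.mul_assoc, hA', hYρ, ← hA', ← Matrix.mul_assoc,
    ← Units.val_mul, inv_mul_cancel, Units.val_one, Matrix.one_mul]

end lattice

end Pool.Agent.Run7.h306.AB
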