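import Pool.Agent.Run7.h306.AB2

/-!
# A subgroup of index prime to `ℓ`
-/

set_option autoImplicit false
set_option linter.unusedSectionVars false

open Module Matrix Polynomial Pool.Agent.R390.SF

namespace Pool.Agent.Run7.h306.AB

section gamma

variable {n ℓ : ℕ} [hℓ : Fact ℓ.Prime]

theorem dk_smul {R : Type*} [CommRing R] (a b x : Matrix (Fin n) (Fin n) R) (c : R) (k : ℕ) :
    dk a b (c • x) k = c • dk a b x k := by
  induction k with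
  | zero => simp [dk]
  | succ k ih => rw [dk, dk, ih, Matrix.mul_smul, Matrix.smul_mul, smul_add]

theorem dk_comm_right {R : Type*} [CommRing R] (a x : Matrix (Fin n) (Fin n) R) (k : ℕ) :
    dk a a (a * x - x * a) k = a ^ k * x - x * a ^ k := by
  induction k with
  | zero => simp [dk]
  | succ k ih =>
    rw [dk, ih, pow_succ a]
    noncomm_ring

theorem dk_one {R : Type*} [CommRing R] (x : Matrix (Fin n) (Fin n) R) (k : ℕ) :
    dk 1 1 x k = (k : R) • x := by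
  induction k with
  | zero => simp [dk]
  | succ k ih =>
    rw [dk, ih, one_pow, Matrix.one_mul, Matrix.mul_one]
    push_cast
    rw [add_smul, one_smul, add_comm]

theorem not_isUnit_ell : ¬ IsUnit (ℓ : ℤ_[ℓ]) := by
  rw [PadicInt.isUnit_iff, PadicInt.norm_p]
  intro h
  have h1 : (1 : ℝ) < ℓ := by exact_mod_cast hℓ.out.one_lt
  have h2 := inv_lt_one_of_one_lt₀ h1
  exact h2.ne h

theorem isUnit_nat {N : ℕ} (hN : ¬ ℓ ∣ N) : IsUnit (N : ℤ_[ℓ]) := by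
  refine isUnit_of_rd ?_
  rw [map_natCast]
  intro h
  exact hN ((ZMod.natCast_eq_zero_iff _ _).1 h)

/-- If `a ≡ 1` modulo `ℓ` and `a ^ N` commutes with `X` then `a` commutes with `X`. -/
theorem comm_of_pow {a X : Matrix (Fin n) (Fin n) ℤ_[ℓ]} (ha : rd a = 1) {N : ℕ} (hN : ¬ ℓ ∣ N)
    (h : a ^ N * X = X * a ^ N) : a * X = X * a := by
  have hℓ0 : (ℓ : ℤ_[ℓ]) ≠ 0 := by exact_mod_cast hℓ.out.ne_zero
  have step : ∀ w : Matrix (Fin n) (Fin n) ℤ_[ℓ], dk a a w N = 0 →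
      ∃ w', w = (ℓ : ℤ_[ℓ]) • w' ∧ dk a a w' N = 0 := by
    intro w hw
    have h1 := dk_map (PadicInt.toZMod (p := ℓ)) a a w N
    have h2 : a.map (PadicInt.toZMod (p := ℓ)) = 1 := ha
    rw [hw, h2, dk_one] at h1
    have h3 : (0 : Matrix (Fin n) (Fin n) ℤ_[ℓ]).map (PadicInt.toZMod (p := ℓ)) = 0 :=
      map_zero (rd (n := n) (ℓ := ℓ))
    rw [h3] at h1
    have h4 : (N : ZMod ℓ) ≠ 0 := fun h0 => hN ((ZMod.natCast_eq_zero_iff _ _).1 h0)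
    have h5 : rd w = 0 := (smul_eq_zero.1 h1.symm).resolve_left h4
    obtain ⟨w', hw'⟩ := rd_eq_zero h5
    refine ⟨w', hw', ?_⟩
    rw [hw', dk_smul] at hw
    exact (smul_eq_zero.1 hw).resolve_left hℓ0
  have hall : ∀ (s : ℕ) (w : Matrix (Fin n) (Fin n) ℤ_[ℓ]), dk a a w N = 0 →
      ∃ w', w = (ℓ : ℤ_[ℓ]) ^ s • w' := by
    intro s
    induction s with
    | zero => exact fun w _ => ⟨w, by rw [pow_zero, one_smul]⟩
    | succ s ih =>
      intro w hw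
      obtain ⟨w', hw', h'⟩ := step w hw
      obtain ⟨w'', h''⟩ := ih w' h'
      exact ⟨w'', by rw [hw', h'', smul_smul, pow_succ']⟩
  have hv : dk a a (a * X - X * a) N = 0 := by rw [dk_comm_right, h, sub_self]
  rw [← sub_eq_zero]
  ext i j
  rw [Matrix.zero_apply]
  by_contra hne
  obtain ⟨s, hs⟩ := FiniteMultiplicity.of_not_isUnit (not_isUnit_ell (ℓ := ℓ)) hne
  obtain ⟨w', hw'⟩ := hall (s + 1) _ hv
  apply hs
  exact ⟨w' i j, by rw [hw', Matrix.smul_apply, smul_eq_mul]⟩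

variable {G : Type} [Group G]

/-- The elements of `H` which commute with the commutant of `ρ(σ)`. -/
def Gam (ρ : G →* GL (Fin n) ℤ_[ℓ]) (H : Subgroup G) (σ : G) : Subgroup G where
  carrier := {g | g ∈ H ∧ ∀ X : Matrix (Fin n) (Fin n) ℤ_[ℓ],
    (ρ σ : Matrix (Fin n) (Fin n) ℤ_[ℓ]) * X = X * ρ σ →
      (ρ g : Matrix (Fin n) (Fin n) ℤ_[ℓ]) * X = X * ρ g}
  mul_mem' := by
    rintro g g' ⟨h1, h2⟩ ⟨h1', h2'⟩
    refine ⟨H.mul_mem h1 h1', fun X hX => ?_⟩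
    rw [map_mul, Units.val_mul, Matrix.mul_assoc, h2' X hX, ← Matrix.mul_assoc, h2 X hX,
      Matrix.mul_assoc]
  one_mem' := ⟨H.one_mem, fun X _ => by rw [map_one, Units.val_one, Matrix.one_mul, Matrix.mul_one]⟩
  inv_mem' := by
    rintro g ⟨h1, h2⟩
    refine ⟨H.inv_mem h1, fun X hX => ?_⟩
    have h3 := congrArg (fun Y => (ρ g⁻¹ : Matrix (Fin n) (Fin n) ℤ_[ℓ]) * Y *
      (ρ g⁻¹ : Matrix (Fin n) (Fin n) ℤ_[ℓ])) (h2 X hX)
    simp only [Matrix.mul_assoc, mul_inv_val, Matrix.mul_one] at h3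
    rw [← Matrix.mul_assoc, ← Matrix.mul_assoc, inv_mul_val, Matrix.one_mul] at h3
    exact h3.symm

variable {ρ : G →* GL (Fin n) ℤ_[ℓ]} {H : Subgroup G} {σ : G}

theorem gam_le : Gam ρ H σ ≤ H := fun _ hg => hg.1

theorem gam_finite [H.FiniteIndex] {N : ℕ} (hN : ¬ ℓ ∣ N)
    (hH : ∀ h ∈ H, ∀ X : Matrix (Fin n) (Fin n) ℤ_[ℓ],
      (ρ σ : Matrix (Fin n) (Fin n) ℤ_[ℓ]) * X = X * ρ σ →
        (ρ h : Matrix (Fin n) (Fin n) ℤ_[ℓ]) ^ N * X = X * (ρ h : Matrix (Fin n) (Fin n) ℤ_[ℓ]) ^ N) :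
    (Gam ρ H σ).FiniteIndex := by
  have h1 : (toF ρ).ker.FiniteIndex := by
    refine ⟨?_⟩
    rw [Subgroup.index_ker]
    have h2 : Finite (toF ρ).range := inferInstance
    exact Nat.card_pos.ne'
  have h2 : (H ⊓ (toF ρ).ker).FiniteIndex := inferInstance
  refine Subgroup.finiteIndex_of_le (H := H ⊓ (toF ρ).ker) ?_
  intro g hg
  rw [Subgroup.mem_inf, MonoidHom.mem_ker] at hg
  refine ⟨hg.1, fun X hX => comm_of_pow ?_ hN (hH g hg.1 X hX)⟩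
  rw [← toF_val, hg.2, Units.val_one]

theorem gam_index [hf : H.FiniteIndex] {N : ℕ} (hN : ¬ ℓ ∣ N) (hHℓ : ¬ ℓ ∣ H.index)
    (hc : ∀ g ∈ H, ∀ h ∈ H, ρ g * ρ h = ρ h * ρ g)
    (hH : ∀ h ∈ H, ∀ X : Matrix (Fin n) (Fin n) ℤ_[ℓ],
      (ρ σ : Matrix (Fin n) (Fin n) ℤ_[ℓ]) * X = X * ρ σ →
        (ρ h : Matrix (Fin n) (Fin n) ℤ_[ℓ]) ^ N * X = X * (ρ h : Matrix (Fin n) (Fin n) ℤ_[ℓ]) ^ N) :
    ¬ ℓ ∣ (Gam ρ H σ).index := by
  have hfin := gam_finite hN hH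
  rw [← Subgroup.relIndex_mul_index (gam_le (ρ := ρ) (H := H) (σ := σ))]
  intro hdvd
  rcases (hℓ.out.dvd_mul).1 hdvd with h1 | h1
  · have hnor : ((Gam ρ H σ).subgroupOf H).Normal := by
      refine ⟨fun g hg h => ?_⟩
      rw [Subgroup.mem_subgroupOf] at hg ⊢
      have h2 : ρ ((h * g * h⁻¹ : H) : G) = ρ (g : G) := by
        have h3 := hc _ h.2 _ g.2
        push_cast
        rw [map_mul, map_mul, h3, mul_assoc, ← map_mul, mul_inv_cancel, map_one, mul_one]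
      refine ⟨(h * g * h⁻¹).2, fun X hX => ?_⟩
      rw [h2]
      exact hg.2 X hX
    have hfi : ((Gam ρ H σ).subgroupOf H).FiniteIndex := inferInstance
    have hfin2 : Finite (H ⧸ (Gam ρ H σ).subgroupOf H) := inferInstance
    have h2 : ℓ ∣ Nat.card (H ⧸ (Gam ρ H σ).subgroupOf H) := h1
    obtain ⟨q, hq⟩ := exists_prime_orderOf_dvd_card' ℓ h2
    induction q using QuotientGroup.induction_on with
    | H x =>
      have h3 : ((x : H) : H ⧸ (Gam ρ H σ).subgroupOf H) ^ N = 1 := by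
        rw [← QuotientGroup.mk_pow, QuotientGroup.eq_one_iff, Subgroup.mem_subgroupOf]
        refine ⟨(x ^ N).2, fun X hX => ?_⟩
        have h4 := hH x x.2 X hX
        rw [← Units.val_pow_eq_pow_val, ← map_pow] at h4
        exact h4
      have h4 := orderOf_dvd_of_pow_eq_one h3
      rw [hq] at h4
      exact hN h4
  · exact hHℓ h1

/-- **Uniqueness of the lattice.** -/
theorem unique_lattice' [hf : H.FiniteIndex] {N : ℕ} (hN : ¬ ℓ ∣ N) (hHℓ : ¬ ℓ ∣ H.index) (hn : n < ℓ)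
    {ρ' : G →* GL (Fin n) ℤ_[ℓ]} {m u w : ℤ_[ℓ][X]}
    (hroot : aeval (ρ σ : Matrix (Fin n) (Fin n) ℤ_[ℓ]) m = 0) (hsep : u * derivative m + w * m = 1)
    (hc : ∀ g ∈ H, ∀ h ∈ H, ρ g * ρ h = ρ h * ρ g)
    (hH : ∀ h ∈ H, ∀ X : Matrix (Fin n) (Fin n) ℤ_[ℓ],
      (ρ σ : Matrix (Fin n) (Fin n) ℤ_[ℓ]) * X = X * ρ σ →
        (ρ h : Matrix (Fin n) (Fin n) ℤ_[ℓ]) ^ N * X = X * (ρ h : Matrix (Fin n) (Fin n) ℤ_[ℓ]) ^ N)
    {B : Matrix (Fin n) (Fin n) ℤ_[ℓ]} (hB : B.det ≠ 0)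
    (hBρ : ∀ g, (ρ g : Matrix (Fin n) (Fin n) ℤ_[ℓ]) * B = B * ρ' g) :
    ∃ A : GL (Fin n) ℤ_[ℓ], ∀ g, ρ' g = A * ρ g * A⁻¹ := by
  have hfin := gam_finite (σ := σ) hN hH
  obtain ⟨c, hc'⟩ := (isUnit_nat (gam_index hN hHℓ hc hH)).exists_left_inv
  exact unique_lattice (Γ := Gam ρ H σ) hn ⟨hroot, hsep, fun X hX g hg => hg.2 X hX⟩ hc' hB hBρ

end gamma

end Pool.Agent.Run7.h306.AB
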