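import Mathlib

/-!
# Roots of unity of bounded degree, quotients of the roots of a polynomial
-/

set_option autoImplicit false

open Polynomial Module

namespace Pool.Agent.Run7.h306.AB

theorem primePow_le {p e D : ℕ} (hp : p.Prime) (he : 0 < e) (h : Nat.totient (p ^ e) ≤ D) :
    p ^ e ≤ D * (D + 1) := by
  rw [Nat.totient_prime_pow hp he] at h
  have h1 : 1 ≤ p - 1 := by have := hp.two_le; omega
  have h2 : 1 ≤ p ^ (e - 1) := Nat.one_le_pow _ _ hp.pos
  have h3 : p ^ (e - 1) ≤ D := le_trans (Nat.le_mul_of_pos_right _ h1) h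
  have h4 : p - 1 ≤ D := le_trans (Nat.le_mul_of_pos_left _ h2) h
  have h5 : p ^ e = p ^ (e - 1) * p := by
    rw [← pow_succ]
    congr 1
    omega
  rw [h5]
  exact Nat.mul_le_mul h3 (by omega)

theorem dvd_fact {M D : ℕ} (hM : 0 < M) (h : Nat.totient M ≤ D) : M ∣ (D * (D + 1)).factorial := by
  rw [Nat.dvd_iff_prime_pow_dvd_dvd]
  intro p e hp hpe
  rcases Nat.eq_zero_or_pos e with rfl | he
  · rw [pow_zero]; exact one_dvd _
  · have h1 : Nat.totient (p ^ e) ≤ D :=
      (Nat.le_of_dvd (Nat.totient_pos.2 hM) (Nat.totient_dvd_of_dvd hpe)).trans h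
    exact Nat.dvd_factorial (pow_pos hp.pos _) (primePow_le hp he h1)

/-- Roots of unity of degree at most `D` are killed by `(D (D + 1))!`. -/
theorem root_of_unity {Ω : Type*} [Field Ω] [CharZero Ω] {ζ : Ω} {D k : ℕ}
    (hD : (minpoly ℚ ζ).natDegree ≤ D) (hk : 0 < k) (h : ζ ^ k = 1) :
    ζ ^ (D * (D + 1)).factorial = 1 := by
  have hpos : 0 < orderOf ζ := orderOf_pos_iff.2 (isOfFinOrder_iff_pow_eq_one.2 ⟨k, hk, h⟩)
  have h1 : IsPrimitiveRoot ζ (orderOf ζ) := IsPrimitiveRoot.orderOf ζ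
  have h2 := cyclotomic_eq_minpoly_rat h1 hpos
  rw [← h2, natDegree_cyclotomic] at hD
  exact orderOf_dvd_iff_pow_eq_one.1 (dvd_fact hpos hD)

theorem natDegree_div {Ω : Type*} [Field Ω] [CharZero Ω] {P : ℤ[X]} (hP : P.Monic) {x y : Ω}
    (hx : (P.map (Int.castRingHom Ω)).IsRoot x) (hy : (P.map (Int.castRingHom Ω)).IsRoot y) :
    (minpoly ℚ (x / y)).natDegree ≤ P.natDegree * P.natDegree := by
  have key : ∀ z : Ω, (P.map (Int.castRingHom Ω)).IsRoot z →
      IsIntegral ℚ z ∧ (minpoly ℚ z).natDegree ≤ P.natDegree := by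
    intro z hz
    have h1 : aeval z (P.map (Int.castRingHom ℚ)) = 0 := by
      rw [IsRoot.def, eval_map] at hz
      rw [aeval_def, eval₂_map]
      have h2 : (algebraMap ℚ Ω).comp (Int.castRingHom ℚ) = Int.castRingHom Ω := RingHom.ext_int _ _
      rw [h2, hz]
    have h2 : (P.map (Int.castRingHom ℚ)).Monic := hP.map _
    refine ⟨⟨_, h2, by rwa [← aeval_def]⟩, ?_⟩
    have h3 := natDegree_le_of_dvd (minpoly.dvd ℚ z h1) h2.ne_zero
    rwa [hP.natDegree_map] at h3
  obtain ⟨hxi, hxd⟩ := key x hx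
  obtain ⟨hyi, hyd⟩ := key y hy
  have hfx : FiniteDimensional ℚ (IntermediateField.adjoin ℚ {x}) :=
    IntermediateField.adjoin.finiteDimensional hxi
  have hfy : FiniteDimensional ℚ (IntermediateField.adjoin ℚ {y}) :=
    IntermediateField.adjoin.finiteDimensional hyi
  have hfxy : FiniteDimensional ℚ ↥(IntermediateField.adjoin ℚ {x} ⊔ IntermediateField.adjoin ℚ {y}) :=
    inferInstance
  have h1 := IntermediateField.finrank_sup_le (IntermediateField.adjoin ℚ {x})
    (IntermediateField.adjoin ℚ {y})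
  rw [IntermediateField.adjoin.finrank hxi, IntermediateField.adjoin.finrank hyi] at h1
  have hz : x / y ∈ IntermediateField.adjoin ℚ {x} ⊔ IntermediateField.adjoin ℚ {y} := by
    refine div_mem ?_ ?_
    · exact (le_sup_left : _ ≤ IntermediateField.adjoin ℚ {x} ⊔ IntermediateField.adjoin ℚ {y})
        (IntermediateField.mem_adjoin_simple_self ℚ x)
    · exact (le_sup_right : _ ≤ IntermediateField.adjoin ℚ {x} ⊔ IntermediateField.adjoin ℚ {y})
        (IntermediateField.mem_adjoin_simple_self ℚ y)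
  have h2 := minpoly.natDegree_le (A := ℚ) (⟨x / y, hz⟩ :
    ↥(IntermediateField.adjoin ℚ {x} ⊔ IntermediateField.adjoin ℚ {y}))
  have h3 : minpoly ℚ (⟨x / y, hz⟩ :
      ↥(IntermediateField.adjoin ℚ {x} ⊔ IntermediateField.adjoin ℚ {y})) = minpoly ℚ (x / y) :=
    (minpoly.algebraMap_eq (B' := Ω) (FaithfulSMul.algebraMap_injective _ _) _).symm
  rw [h3] at h2
  exact h2.trans (h1.trans (Nat.mul_le_mul hxd hyd))

/-- If the `N`-th powers of two roots have the same `k`-th power then they are equal. -/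
theorem neat {Ω : Type*} [Field Ω] [CharZero Ω] {P : ℤ[X]} (hP : P.Monic) {x y : Ω} {n k : ℕ}
    (hn : P.natDegree = n) (hy0 : y ≠ 0)
    (hx : (P.map (Int.castRingHom Ω)).IsRoot x) (hy : (P.map (Int.castRingHom Ω)).IsRoot y)
    (hk : 0 < k) (h : (x ^ (n * n * (n * n + 1)).factorial) ^ k =
      (y ^ (n * n * (n * n + 1)).factorial) ^ k) :
    x ^ (n * n * (n * n + 1)).factorial = y ^ (n * n * (n * n + 1)).factorial := by
  have h1 : (x / y) ^ ((n * n * (n * n + 1)).factorial * k) = 1 := by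
    rw [div_pow, div_eq_one_iff_eq (pow_ne_zero _ hy0), pow_mul, pow_mul, h]
  have h2 := root_of_unity (hn ▸ natDegree_div hP hx hy : (minpoly ℚ (x / y)).natDegree ≤ n * n)
    (Nat.mul_pos (Nat.factorial_pos _) hk) h1
  rwa [div_pow, div_eq_one_iff_eq (pow_ne_zero _ hy0)] at h2

end Pool.Agent.Run7.h306.AB
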