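import Pool.Agent.Run7.h306.AB4

/-!
# Commuting semisimple endomorphisms
-/

set_option autoImplicit false

open Polynomial Module

namespace Pool.Agent.Run7.h306.AB

section endo

variable {Ω V : Type*} [Field Ω] [IsAlgClosed Ω] [AddCommGroup V] [Module Ω V]
  [FiniteDimensional Ω V]

theorem iSup_eigen {f : Module.End Ω V} (hf : f.IsSemisimple) : ⨆ μ, f.eigenspace μ = ⊤ := by
  have h1 := Module.End.iSup_maxGenEigenspace_eq_top f
  have h2 : ∀ μ, f.maxGenEigenspace μ = f.eigenspace μ := fun μ =>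
    (Module.End.IsFinitelySemisimple.maxGenEigenspace_eq_eigenspace hf.isFinitelySemisimple μ)
  simpa only [h2] using h1

/-- the pair `(α, β)` is a joint eigenvalue -/
def Joint (f g : Module.End Ω V) (α β : Ω) : Prop := ∃ v : V, v ≠ 0 ∧ f v = α • v ∧ g v = β • v

theorem map_eigen {f g : Module.End Ω V} (h : f * g = g * f) {α : Ω} {v : V}
    (hv : v ∈ f.eigenspace α) : g v ∈ f.eigenspace α := by
  rw [Module.End.mem_eigenspace_iff] at hv ⊢
  have h1 := LinearMap.congr_fun h v
  rw [Module.End.mul_apply, Module.End.mul_apply, hv, map_smul] at h1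
  exact h1

theorem exists_joint {f g : Module.End Ω V} (h : f * g = g * f) {α : Ω} (hα : f.HasEigenvalue α) :
    ∃ β, Joint f g α β := by
  have hne : Nontrivial (f.eigenspace α) := Submodule.nontrivial_iff_ne_bot.2 hα
  let g' : Module.End Ω (f.eigenspace α) := g.restrict fun v hv => map_eigen h hv
  obtain ⟨β, hβ⟩ := Module.End.exists_eigenvalue g'
  obtain ⟨v, hv⟩ := hβ.exists_hasEigenvector
  refine ⟨β, v.1, fun h0 => hv.2 (Subtype.ext h0), Module.End.mem_eigenspace_iff.1 v.2, ?_⟩
  have h1 := Module.End.mem_eigenspace_iff.1 hv.1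
  exact congrArg Subtype.val h1

/-- If all joint eigenvalues over each `α` are equal then `g` commutes with the commutant of `f`. -/
theorem commute_of_joint {f g : Module.End Ω V} (h : f * g = g * f) (hf : f.IsSemisimple)
    (hg : g.IsSemisimple) (hj : ∀ α β β', Joint f g α β → Joint f g α β' → β = β')
    {X : Module.End Ω V} (hX : f * X = X * f) : g * X = X * g := by
  have key : ∀ α, ∀ v ∈ f.eigenspace α, (g * X) v = (X * g) v := by
    intro α v hv
    by_cases hα : f.HasEigenvalue α
    · obtain ⟨β, hβ⟩ := exists_joint h hα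
      have hsub : f.eigenspace α ≤ g.eigenspace β := by
        have h1 := Submodule.inf_iSup_genEigenspace (f := g) (p := f.eigenspace α)
          (fun x hx => map_eigen h hx) 1
        have h2 : ⨆ μ, g.genEigenspace μ 1 = ⊤ := iSup_eigen hg
        rw [h2, inf_top_eq] at h1
        rw [h1, iSup_le_iff]
        intro μ x hx
        by_cases hx0 : x = 0
        · rw [hx0]; exact Submodule.zero_mem _
        · obtain ⟨hx1, hx2⟩ := Submodule.mem_inf.1 hx
          have h3 : x ∈ g.eigenspace μ := hx2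
          have h4 : μ = β := hj α μ β ⟨x, hx0, Module.End.mem_eigenspace_iff.1 hx1,
            Module.End.mem_eigenspace_iff.1 h3⟩ hβ
          rw [← h4]
          exact h3
      have h1 := Module.End.mem_eigenspace_iff.1 (hsub hv)
      have h2 := Module.End.mem_eigenspace_iff.1 (hsub (map_eigen hX hv))
      rw [Module.End.mul_apply, Module.End.mul_apply, h1, h2, map_smul]
    · have h0 : f.eigenspace α = ⊥ := by
        by_contra hne
        exact hα hne
      rw [h0, Submodule.mem_bot] at hv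
      rw [hv, map_zero, map_zero]
  ext v
  have hv : v ∈ ⨆ μ, f.eigenspace μ := by rw [iSup_eigen hf]; trivial
  induction hv using Submodule.iSup_induction' with
  | mem i x hx => exact key i x hx
  | zero => rw [map_zero, map_zero]
  | add x y _ _ hx hy => rw [map_add, map_add, hx, hy]

/-- **More eigenvalues.** -/
theorem more_eigen {f g : Module.End Ω V} (h : f * g = g * f) (hf : f.IsSemisimple)
    (hg : g.IsSemisimple) (hneat : ∀ α α', f.HasEigenvalue α → f.HasEigenvalue α' →
      ∀ k, 0 < k → α ^ k = α' ^ k → α = α') (hg0 : ∀ β, g.HasEigenvalue β → β ≠ 0)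
    (hf0 : ∀ α, f.HasEigenvalue α → α ≠ 0)
    {X : Module.End Ω V} (hX : f * X = X * f) (hne : g * X ≠ X * g) :
    ∃ k : ℕ, {α | f.HasEigenvalue α}.ncard < {μ | (f ^ k * g).HasEigenvalue μ}.ncard := by
  classical
  have h1 : ∃ α₀ β₀ β₁, Joint f g α₀ β₀ ∧ Joint f g α₀ β₁ ∧ β₀ ≠ β₁ := by
    by_contra hcon
    push Not at hcon
    exact hne (commute_of_joint h hf hg (fun α β β' h1 h2 => hcon α β β' h1 h2) hX)
  obtain ⟨α₀, β₀, β₁, hj0, hj1, hβ⟩ := h1
  have hfin : {α | f.HasEigenvalue α}.Finite := Module.End.finite_hasEigenvalue f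
  let S := hfin.toFinset
  have hS : ∀ α ∈ S, ∃ β, Joint f g α β := fun α hα =>
    exists_joint h (hfin.mem_toFinset.1 hα)
  choose! b hb using hS
  let A : Option S → Ω := fun o => o.elim α₀ fun α => α
  let Bt : Option S → Ω := fun o => o.elim (if b α₀ = β₀ then β₁ else β₀) fun α => b α
  have hα₀ : f.HasEigenvalue α₀ := by
    obtain ⟨v, hv, hv1, -⟩ := hj0
    exact Module.End.hasEigenvalue_of_hasEigenvector ⟨Module.End.mem_eigenspace_iff.2 hv1, hv⟩
  have hJ : ∀ o, Joint f g (A o) (Bt o) := by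
    rintro (_ | α)
    · change Joint f g α₀ (if b α₀ = β₀ then β₁ else β₀)
      split_ifs
      · exact hj1
      · exact hj0
    · exact hb α α.2
  have hA : ∀ o, f.HasEigenvalue (A o) := by
    intro o
    obtain ⟨v, hv, hv1, -⟩ := hJ o
    exact Module.End.hasEigenvalue_of_hasEigenvector ⟨Module.End.mem_eigenspace_iff.2 hv1, hv⟩
  have hB : ∀ o, Bt o ≠ 0 := by
    intro o
    obtain ⟨v, hv, -, hv1⟩ := hJ o
    exact hg0 _ (Module.End.hasEigenvalue_of_hasEigenvector ⟨Module.End.mem_eigenspace_iff.2 hv1, hv⟩)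
  have hsep : ∀ o o' : Option S, o ≠ o' → A o = A o' → Bt o ≠ Bt o' := by
    rintro (_ | α) (_ | α') hne' hA' hB'
    · exact hne' rfl
    · have h2 : α₀ = α' := hA'
      have h3 : (if b α₀ = β₀ then β₁ else β₀) = b α' := hB'
      rw [← h2] at h3
      split_ifs at h3 with h4
      · exact hβ (h4.symm.trans h3.symm)
      · exact h4 h3.symm
    · have h2 : (α : Ω) = α₀ := hA'
      have h3 : b α = (if b α₀ = β₀ then β₁ else β₀) := hB'
      rw [h2] at h3
      split_ifs at h3 with h4
      · exact hβ (h4.symm.trans h3)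
      · exact h4 h3
    · exact hne' (congrArg some (Subtype.ext hA'))
  -- the bad exponents
  let bad : Set ℕ := ⋃ p : Option S × Option S, {k | p.1 ≠ p.2 ∧
    A p.1 ^ k * Bt p.1 = A p.2 ^ k * Bt p.2}
  have hbad : bad.Finite := by
    refine Set.finite_iUnion fun p => Set.Subsingleton.finite ?_
    have hlt : ∀ k k', k < k' → k ∈ {k | p.1 ≠ p.2 ∧ A p.1 ^ k * Bt p.1 = A p.2 ^ k * Bt p.2} →
        k' ∈ {k | p.1 ≠ p.2 ∧ A p.1 ^ k * Bt p.1 = A p.2 ^ k * Bt p.2} → False := by
      rintro k k' hkk ⟨hne', h2⟩ ⟨-, h3⟩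
      obtain ⟨d, rfl⟩ : ∃ d, k' = k + d := ⟨k' - k, by omega⟩
      have hd : 0 < d := by omega
      have h4 : A p.1 ^ d = A p.2 ^ d := by
        have h5 : A p.1 ^ d * (A p.1 ^ k * Bt p.1) = A p.2 ^ d * (A p.1 ^ k * Bt p.1) := by
          calc A p.1 ^ d * (A p.1 ^ k * Bt p.1) = A p.1 ^ (k + d) * Bt p.1 := by ring
            _ = A p.2 ^ (k + d) * Bt p.2 := h3
            _ = A p.2 ^ d * (A p.2 ^ k * Bt p.2) := by ring
            _ = A p.2 ^ d * (A p.1 ^ k * Bt p.1) := by rw [h2]
        exact mul_right_cancel₀ (mul_ne_zero (pow_ne_zero _ (hf0 _ (hA p.1))) (hB p.1)) h5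
      have h5 := hneat _ _ (hA p.1) (hA p.2) d hd h4
      apply hsep p.1 p.2 hne' h5
      rw [h5] at h2
      exact mul_left_cancel₀ (pow_ne_zero _ (hf0 _ (hA p.2))) h2
    intro k hk k' hk'
    rcases lt_trichotomy k k' with h2 | h2 | h2
    · exact (hlt k k' h2 hk hk').elim
    · exact h2
    · exact (hlt k' k h2 hk' hk).elim
  obtain ⟨k, hk⟩ := hbad.exists_notMem
  refine ⟨k, ?_⟩
  have hinj : Function.Injective fun o => A o ^ k * Bt o := by
    intro o o' hoo
    by_contra hne'
    exact hk (Set.mem_iUnion.2 ⟨(o, o'), hne', hoo⟩)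
  have hsub : Set.range (fun o => A o ^ k * Bt o) ⊆ {μ | (f ^ k * g).HasEigenvalue μ} := by
    rintro _ ⟨o, rfl⟩
    obtain ⟨v, hv, hv1, hv2⟩ := hJ o
    have hpow : ∀ j : ℕ, (f ^ j) v = A o ^ j • v := by
      intro j
      induction j with
      | zero => simp
      | succ j ih => rw [pow_succ', Module.End.mul_apply, ih, map_smul, hv1, smul_smul, ← pow_succ]
    refine Module.End.hasEigenvalue_of_hasEigenvector ⟨Module.End.mem_eigenspace_iff.2 ?_, hv⟩
    rw [Module.End.mul_apply, hv2, map_smul, hpow, smul_smul, mul_comm]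
  have hcard : {α | f.HasEigenvalue α}.ncard + 1 = (Set.range fun o => A o ^ k * Bt o).ncard := by
    rw [← Set.image_univ, Set.ncard_image_of_injective _ hinj, Set.ncard_univ, Finite.card_option,
      Nat.card_eq_fintype_card, Fintype.card_coe, Set.ncard_eq_toFinset_card _ hfin]
  have hfin2 : {μ | (f ^ k * g).HasEigenvalue μ}.Finite := Module.End.finite_hasEigenvalue _
  have h3 := Set.ncard_le_ncard hsub hfin2
  omega

end endo

end Pool.Agent.Run7.h306.AB
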