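import Pool.Agent.Run7.h306.AB5
import Pool.Agent.R390.SF.BN2

/-!
# Matrices over a field of characteristic zero, the number of the eigenvalues
-/

set_option autoImplicit false

open Polynomial Module Pool.Agent.R390.SF

namespace Pool.Agent.Run7.h306.AB

section mat

variable {k : Type} [Field k] {n : ℕ}

/-- the endomorphism of `Ω ^ n` given by a matrix over `k`, `Ω` the algebraic closure of `k` -/
noncomputable def en : Matrix (Fin n) (Fin n) k →+*
    Module.End (AlgebraicClosure k) (Fin n → AlgebraicClosure k) :=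
  ((Matrix.toLinAlgEquiv' : Matrix (Fin n) (Fin n) (AlgebraicClosure k) ≃ₐ[AlgebraicClosure k]
    _).toRingEquiv : _ →+* _).comp (algebraMap k (AlgebraicClosure k)).mapMatrix

theorem en_apply (M : Matrix (Fin n) (Fin n) k) :
    en M = Matrix.toLin' (M.map (algebraMap k (AlgebraicClosure k))) := rfl

theorem en_inj : Function.Injective (en (k := k) (n := n)) := by
  intro M M' h
  rw [en_apply, en_apply] at h
  have h1 := Matrix.toLin'.injective h
  ext i j
  exact (algebraMap k (AlgebraicClosure k)).injective (congrFun (congrFun h1 i) j)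

theorem en_aeval (M : Matrix (Fin n) (Fin n) k) (p : k[X]) :
    aeval (en M) (p.map (algebraMap k (AlgebraicClosure k))) = en (aeval M p) := by
  induction p using Polynomial.induction_on' with
  | add p q hp hq => rw [Polynomial.map_add, map_add, map_add, hp, hq, map_add]
  | monomial j c =>
    rw [Polynomial.map_monomial, aeval_monomial, aeval_monomial, map_mul, map_pow]
    congr 1
    rw [en_apply]
    ext i l
    simp [Algebra.algebraMap_eq_smul_one, Matrix.toLin'_apply, Matrix.one_apply, Pi.single_apply]

theorem hasEig_iff (M : Matrix (Fin n) (Fin n) k) (μ : AlgebraicClosure k) :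
    (en M).HasEigenvalue μ ↔ (M.charpoly.map (algebraMap k (AlgebraicClosure k))).IsRoot μ := by
  rw [Module.End.hasEigenvalue_iff_isRoot_charpoly, en_apply, Matrix.charpoly_toLin',
    Matrix.charpoly_map]

theorem indep_of_eig {s : ℕ} (M : Matrix (Fin n) (Fin n) k)
    (hs : s ≤ {μ | (en M).HasEigenvalue μ}.ncard) :
    LinearIndependent k (fun i : Fin s => M ^ (i : ℕ)) := by
  classical
  rw [Fintype.linearIndependent_iff]
  intro c hc
  let p : k[X] := ∑ i : Fin s, C (c i) * X ^ (i : ℕ)
  have hp : aeval M p = 0 := by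
    rw [← hc, map_sum]
    refine Finset.sum_congr rfl fun i _ => ?_
    rw [map_mul, aeval_C, map_pow, aeval_X, ← Algebra.smul_def]
  have hdeg : p.degree < s := by
    refine (degree_sum_le _ _).trans_lt ?_
    rw [Finset.sup_lt_iff (WithBot.bot_lt_coe _)]
    intro i _
    refine (degree_C_mul_X_pow_le _ _).trans_lt ?_
    exact_mod_cast i.2
  have hroot : ∀ μ, (en M).HasEigenvalue μ →
      (p.map (algebraMap k (AlgebraicClosure k))).IsRoot μ := by
    intro μ hμ
    obtain ⟨v, hv⟩ := hμ.exists_hasEigenvector
    have h1 := Module.End.aeval_apply_of_hasEigenvector (p := p.map (algebraMap k _)) hv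
    rw [en_aeval, hp, map_zero, LinearMap.zero_apply] at h1
    exact (smul_eq_zero.1 h1.symm).resolve_right hv.2
  have hp0 : p = 0 := by
    by_contra hne
    have hne' : p.map (algebraMap k (AlgebraicClosure k)) ≠ 0 := by
      rwa [Ne, Polynomial.map_eq_zero]
    have h1 : {μ | (en M).HasEigenvalue μ} ⊆
        ((p.map (algebraMap k (AlgebraicClosure k))).roots.toFinset : Set _) := by
      intro μ hμ
      rw [Finset.mem_coe, Multiset.mem_toFinset, mem_roots hne']
      exact hroot μ hμ
    have h2 := Set.ncard_le_ncard h1 (Finset.finite_toSet _)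
    rw [Set.ncard_coe_finset] at h2
    have h3 := (Multiset.toFinset_card_le _).trans (card_roots' (p.map (algebraMap k
      (AlgebraicClosure k))))
    rw [natDegree_map] at h3
    have h4 : p.natDegree < s := (natDegree_lt_iff_degree_lt hne).2 hdeg
    omega
  intro i
  have h1 : p.coeff i = c i := by
    rw [finset_sum_coeff]
    simp only [coeff_C_mul, coeff_X_pow]
    rw [Finset.sum_eq_single i]
    · simp
    · intro j _ hj
      rw [if_neg, mul_zero]
      intro h
      exact hj (Fin.ext h.symm)
    · intro h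
      exact absurd (Finset.mem_univ i) h
  rw [← h1, hp0, coeff_zero]

variable [CharZero k]

theorem semis_en {M : Matrix (Fin n) (Fin n) k} (hM : Squarefree (minpoly k M)) :
    (en M).IsSemisimple := by
  refine Module.End.isSemisimple_of_squarefree_aeval_eq_zero
    (p := (minpoly k M).map (algebraMap k (AlgebraicClosure k))) ?_ ?_
  · exact ((PerfectField.separable_iff_squarefree.2 hM).map).squarefree
  · rw [en_aeval, minpoly.aeval, map_zero]

theorem eig_of_indep {s : ℕ} {M : Matrix (Fin n) (Fin n) k} (hM : Squarefree (minpoly k M))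
    (hs : LinearIndependent k (fun i : Fin s => M ^ (i : ℕ))) :
    s ≤ {μ | (en M).HasEigenvalue μ}.ncard := by
  classical
  have hmon : (minpoly k M).Monic := minpoly.monic (Algebra.IsIntegral.isIntegral M)
  have h1 : s ≤ (minpoly k M).natDegree := by
    by_contra hlt
    push Not at hlt
    have h2 : aeval M (minpoly k M) = 0 := minpoly.aeval k M
    rw [aeval_eq_sum_range' hlt, ← Fin.sum_univ_eq_sum_range
      (fun i => (minpoly k M).coeff i • M ^ i)] at h2
    have h3 := Fintype.linearIndependent_iff.1 hs (fun i => (minpoly k M).coeff i) h2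
      ⟨_, hlt⟩
    have h4 : (minpoly k M).coeff (minpoly k M).natDegree = 1 := hmon
    exact one_ne_zero (h4.symm.trans h3)
  have hsep : (minpoly k M).Separable := PerfectField.separable_iff_squarefree.2 hM
  have h2 := card_rootSet_eq_natDegree hsep
    (IsAlgClosed.splits ((minpoly k M).map (algebraMap k (AlgebraicClosure k))))
  rw [← h2] at h1
  refine h1.trans ?_
  have h3 : (minpoly k M).rootSet (AlgebraicClosure k) ⊆ {μ | (en M).HasEigenvalue μ} := by
    intro μ hμ
    rw [mem_rootSet] at hμ
    rw [Set.mem_setOf_eq, hasEig_iff]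
    have h4 : (minpoly k M) ∣ M.charpoly := Matrix.minpoly_dvd_charpoly M
    have h5 := Polynomial.map_dvd (algebraMap k (AlgebraicClosure k)) h4
    refine IsRoot.dvd ?_ h5
    rw [IsRoot.def, eval_map, ← aeval_def]
    exact hμ.2
  have h4 := Set.ncard_le_ncard h3 (Module.End.finite_hasEigenvalue _)
  rwa [Set.ncard_eq_toFinset_card', Set.toFinset_card] at h4

omit [CharZero k] in
theorem eig_pow (M : Matrix (Fin n) (Fin n) k) {N : ℕ} (hN : 0 < N) :
    {μ | (en (M ^ N)).HasEigenvalue μ} = (fun x => x ^ N) '' {μ | (en M).HasEigenvalue μ} := by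
  have h1 := spectrum.map_pow_of_pos (𝕜 := AlgebraicClosure k) (en M) hN
  have h2 : ∀ f : Module.End (AlgebraicClosure k) (Fin n → AlgebraicClosure k),
      {μ | f.HasEigenvalue μ} = spectrum (AlgebraicClosure k) f := by
    intro f
    ext μ
    exact Module.End.hasEigenvalue_iff_mem_spectrum
  rw [h2, h2, map_pow]
  exact h1

/-- the number of the `N`-th powers of the roots of `P` -/
noncomputable def cN (P : ℤ[X]) (N : ℕ) : ℕ :=
  ((fun x : AlgebraicClosure ℚ => x ^ N) ''
    {x | (P.map (Int.castRingHom (AlgebraicClosure ℚ))).IsRoot x}).ncard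

theorem cN_eq {Ω : Type} [Field Ω] [IsAlgClosed Ω] [CharZero Ω] {P : ℤ[X]} (hP : P.Monic) (N : ℕ) :
    ((fun x : Ω => x ^ N) '' {x | (P.map (Int.castRingHom Ω)).IsRoot x}).ncard = cN P N := by
  have halg : Algebra.IsAlgebraic ℚ (AlgebraicClosure ℚ) := by
    convert AlgebraicClosure.isAlgebraic ℚ
    · rfl
    · exact Subsingleton.elim _ _
  let ι : AlgebraicClosure ℚ →+* Ω := (IsAlgClosed.lift (R := ℚ) : AlgebraicClosure ℚ →ₐ[ℚ] Ω)
  have hι : Function.Injective ι := ι.injective
  have hcomp : ι.comp (Int.castRingHom (AlgebraicClosure ℚ)) = Int.castRingHom Ω :=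
    RingHom.ext_int _ _
  have h1 : {x : Ω | (P.map (Int.castRingHom Ω)).IsRoot x} =
      ι '' {x | (P.map (Int.castRingHom (AlgebraicClosure ℚ))).IsRoot x} := by
    ext x
    constructor
    · intro hx
      have hs : (P.map (Int.castRingHom (AlgebraicClosure ℚ))).Splits := IsAlgClosed.splits _
      have hne : P.map (Int.castRingHom (AlgebraicClosure ℚ)) ≠ 0 := (hP.map _).ne_zero
      have hmap : P.map (Int.castRingHom Ω) =
          (P.map (Int.castRingHom (AlgebraicClosure ℚ))).map ι := by
        rw [Polynomial.map_map, hcomp]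
      have hx' : x ∈ ((P.map (Int.castRingHom (AlgebraicClosure ℚ))).map ι).roots := by
        rw [mem_roots ((Polynomial.map_ne_zero_iff hι).2 hne), ← hmap]
        exact hx
      rw [hs.roots_map ι, Multiset.mem_map] at hx'
      obtain ⟨y, hy, rfl⟩ := hx'
      exact ⟨y, (mem_roots hne).1 hy, rfl⟩
    · rintro ⟨y, hy, rfl⟩
      rw [Set.mem_setOf_eq, ← hcomp, ← Polynomial.map_map]
      exact IsRoot.map hy
  have h2 : (fun x : Ω => x ^ N) '' (ι '' {x | (P.map (Int.castRingHom
      (AlgebraicClosure ℚ))).IsRoot x}) = ι '' ((fun x : AlgebraicClosure ℚ => x ^ N) ''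
      {x | (P.map (Int.castRingHom (AlgebraicClosure ℚ))).IsRoot x}) := by
    rw [Set.image_image, Set.image_image]
    simp only [map_pow]
  rw [h1, h2, Set.ncard_image_of_injective _ hι, cN]

/-- The number of the eigenvalues of the `N`-th power. -/
theorem ncard_eig {M : Matrix (Fin n) (Fin n) k} {P : ℤ[X]} (hP : P.Monic)
    (hM : M.charpoly = P.map (Int.castRingHom k)) {N : ℕ} (hN : 0 < N) :
    {μ | (en (M ^ N)).HasEigenvalue μ}.ncard = cN P N := by
  have h0 : CharZero (AlgebraicClosure k) := inferInstance
  rw [eig_pow M hN, ← cN_eq (Ω := AlgebraicClosure k) hP N]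
  congr 2
  ext μ
  rw [Set.mem_setOf_eq, Set.mem_setOf_eq, hasEig_iff, hM, Polynomial.map_map,
    RingHom.ext_int ((algebraMap k (AlgebraicClosure k)).comp (Int.castRingHom k))
      (Int.castRingHom (AlgebraicClosure k))]

end mat

end Pool.Agent.Run7.h306.AB
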