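import Pool.Agent.Run7.h306.AB6
import Pool.Agent.Run7.h306.AB3

/-!
# Semisimple representations which are abelian on a normal subgroup
-/

set_option autoImplicit false

open Polynomial Module Matrix Pool.Agent.R390.SF

namespace Pool.Agent.Run7.h306.AB

section cliff

variable {k : Type} [Field k] {n : ℕ}

theorem comm_aeval {a c : Matrix (Fin n) (Fin n) k} (h : a * c = c * a) (f : k[X]) :
    aeval a f * c = c * aeval a f := by
  have hp : ∀ j : ℕ, a ^ j * c = c * a ^ j := fun j => (Commute.pow_left h j : Commute (a ^ j) c)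
  induction f using Polynomial.induction_on' with
  | add p q hp hq => rw [map_add, add_mul, mul_add, hp, hq]
  | monomial j t =>
    rw [aeval_monomial, ← Algebra.smul_def, Matrix.smul_mul, Matrix.mul_smul, hp]

theorem mem_aeval {a : Matrix (Fin n) (Fin n) k} {U : Submodule k (Fin n → k)}
    (h : ∀ u ∈ U, a.mulVec u ∈ U) (f : k[X]) : ∀ u ∈ U, (aeval a f).mulVec u ∈ U := by
  have hp : ∀ j : ℕ, ∀ u ∈ U, (a ^ j).mulVec u ∈ U := by
    intro j
    induction j with
    | zero => intro u hu; simpa using hu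
    | succ j ih =>
      intro u hu
      rw [pow_succ, ← Matrix.mulVec_mulVec]
      exact ih _ (h u hu)
  induction f using Polynomial.induction_on' with
  | add p q hp hq =>
    intro u hu
    rw [map_add, Matrix.add_mulVec]
    exact U.add_mem (hp u hu) (hq u hu)
  | monomial j t =>
    intro u hu
    rw [aeval_monomial, ← Algebra.smul_def, Matrix.smul_mulVec]
    exact U.smul_mem _ (hp j u hu)

variable {G : Type} [Group G] {ρ : G →* GL (Fin n) k}

theorem conj_aeval (g h : G) (f : k[X]) :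
    aeval (ρ (g * h * g⁻¹) : Matrix (Fin n) (Fin n) k) f =
      (ρ g : Matrix (Fin n) (Fin n) k) * aeval (ρ h : Matrix (Fin n) (Fin n) k) f *
        (ρ g⁻¹ : Matrix (Fin n) (Fin n) k) := by
  have hp : ∀ j : ℕ, (ρ (g * h * g⁻¹) : Matrix (Fin n) (Fin n) k) ^ j =
      (ρ g : Matrix (Fin n) (Fin n) k) * (ρ h : Matrix (Fin n) (Fin n) k) ^ j *
        (ρ g⁻¹ : Matrix (Fin n) (Fin n) k) := by
    intro j
    rw [← Units.val_pow_eq_pow_val, ← map_pow, conj_pow, map_mul, map_mul, map_pow, Units.val_mul,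
      Units.val_mul, Units.val_pow_eq_pow_val]
  induction f using Polynomial.induction_on' with
  | add p q hp hq => rw [map_add, map_add, hp, hq, mul_add, add_mul]
  | monomial j t =>
    rw [aeval_monomial, aeval_monomial, ← Algebra.smul_def, ← Algebra.smul_def, Matrix.mul_smul,
      Matrix.smul_mul, hp]

/-- **The matrices `ρ(h)` are semisimple.** -/
theorem squarefree_of_semis (hs : Semis ρ) (H : Subgroup G) [hH : H.Normal]
    (hc : ∀ g ∈ H, ∀ h ∈ H, ρ g * ρ h = ρ h * ρ g) {h₀ : G} (h₀H : h₀ ∈ H) :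
    Squarefree (minpoly k (ρ h₀ : Matrix (Fin n) (Fin n) k)) := by
  classical
  set x : Matrix (Fin n) (Fin n) k := (ρ h₀ : Matrix (Fin n) (Fin n) k) with hx
  have hint : IsIntegral k x := Algebra.IsIntegral.isIntegral x
  intro p hp
  by_contra hpu
  obtain ⟨q, hq⟩ := hp
  -- the nilpotent element
  have hm0 : minpoly k x ≠ 0 := minpoly.ne_zero hint
  have hp0 : p ≠ 0 := by
    rintro rfl
    apply hm0
    rw [hq, zero_mul, zero_mul]
  have hq0 : q ≠ 0 := by
    rintro rfl
    apply hm0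
    rw [hq, mul_zero]
  let f : k[X] := p * q
  have hf0 : aeval x f ≠ 0 := by
    intro h0
    have h2 := natDegree_le_of_dvd (minpoly.dvd k x h0) (mul_ne_zero hp0 hq0)
    rw [hq, mul_assoc, natDegree_mul hp0 (mul_ne_zero hp0 hq0)] at h2
    change p.natDegree + (p * q).natDegree ≤ (p * q).natDegree at h2
    have h3 : 0 < p.natDegree := natDegree_pos_iff_degree_pos.2 (by
      rw [← not_le]
      intro h4
      exact hpu (isUnit_iff_degree_eq_zero.2 (le_antisymm h4 (zero_le_degree_iff.2 hp0))))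
    omega
  have hff : aeval x f * aeval x f = 0 := by
    rw [← map_mul]
    have h1 : f * f = minpoly k x * q := by rw [hq]; ring
    rw [h1, map_mul, minpoly.aeval, zero_mul]
  let y : G → Matrix (Fin n) (Fin n) k := fun g =>
    aeval (ρ (g * h₀ * g⁻¹) : Matrix (Fin n) (Fin n) k) f
  have hmem : ∀ g : G, g * h₀ * g⁻¹ ∈ H := fun g => hH.conj_mem _ h₀H g
  have hcomm : ∀ g g', y g * y g' = y g' * y g := by
    intro g g'
    refine comm_aeval ?_ f
    refine (comm_aeval ?_ f).symm
    have h1 := congrArg Units.val (hc _ (hmem g') _ (hmem g))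
    rwa [Units.val_mul, Units.val_mul] at h1
  have hyy : ∀ g, y g * y g = 0 := by
    intro g
    change aeval _ f * aeval _ f = 0
    rw [conj_aeval]
    have h1 : (ρ g : Matrix (Fin n) (Fin n) k) * aeval x f * (ρ g⁻¹ : Matrix (Fin n) (Fin n) k) *
        ((ρ g : Matrix (Fin n) (Fin n) k) * aeval x f * (ρ g⁻¹ : Matrix (Fin n) (Fin n) k)) =
        (ρ g : Matrix (Fin n) (Fin n) k) * (aeval x f *
          ((ρ g⁻¹ : Matrix (Fin n) (Fin n) k) * (ρ g : Matrix (Fin n) (Fin n) k)) * aeval x f) *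
          (ρ g⁻¹ : Matrix (Fin n) (Fin n) k) := by noncomm_ring
    rw [h1, inv_mul_val, mul_one, hff, mul_zero, zero_mul]
  have hy1 : y 1 ≠ 0 := by
    change aeval (ρ (1 * h₀ * 1⁻¹) : Matrix (Fin n) (Fin n) k) f ≠ 0
    rw [one_mul, inv_one, mul_one]
    exact hf0
  -- a product of minimal rank
  let Q : Set (Matrix (Fin n) (Fin n) k) :=
    {Y | Y ≠ 0 ∧ (∀ g, Y * y g = y g * Y) ∧ ∃ g Z, Y = Z * y g}
  obtain ⟨Y, ⟨hY0, hYc, g₁, Z, hYZ⟩, hmin⟩ := (measure fun Y : Matrix (Fin n) (Fin n) k =>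
    Y.rank).wf.has_min Q ⟨y 1, hy1, fun g => hcomm 1 g, 1, 1, (one_mul _).symm⟩
  have hkill : ∀ g, Y * y g = 0 := by
    intro g
    by_contra hne
    have h1 : ¬ (Y * y g).rank < Y.rank := by
      refine hmin _ ⟨hne, fun g' => ?_, g, Y, rfl⟩
      rw [mul_assoc, hcomm g g', ← mul_assoc, hYc g', mul_assoc]
    -- the range
    have h2 : LinearMap.range (Y * y g).mulVecLin ≤ LinearMap.range Y.mulVecLin := by
      rintro _ ⟨v, rfl⟩
      exact ⟨(y g).mulVec v, by
        rw [Matrix.mulVecLin_apply, Matrix.mulVecLin_apply, Matrix.mulVec_mulVec]⟩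
    have h3 : LinearMap.range (Y * y g).mulVecLin = LinearMap.range Y.mulVecLin :=
      Submodule.eq_of_le_of_finrank_le h2 (not_lt.1 h1)
    -- `y g` is surjective on the range of `Y`
    apply hne
    have h4 : ∀ v, ∃ v', Y.mulVec v = (y g).mulVec (Y.mulVec v') := by
      intro v
      have h5 : Y.mulVec v ∈ LinearMap.range Y.mulVecLin := ⟨v, rfl⟩
      rw [← h3] at h5
      obtain ⟨v', hv'⟩ := h5
      refine ⟨v', ?_⟩
      rw [Matrix.mulVec_mulVec, ← hYc g]
      exact hv'.symm
    have h5 : ∀ v, (Y * y g).mulVec v = 0 := by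
      intro v
      obtain ⟨v', hv'⟩ := h4 v
      rw [hYc g, ← Matrix.mulVec_mulVec, hv', Matrix.mulVec_mulVec, hyy, Matrix.zero_mulVec]
    ext i j
    have h6 := congrFun (h5 (Pi.single j 1)) i
    simpa using h6
  -- the stable subspace
  let V₁ : Submodule k (Fin n → k) := Submodule.span k {u | ∃ g v, u = (y g).mulVec v}
  have hV₁ : IsStable ρ V₁ := by
    intro g u hu
    induction hu using Submodule.span_induction with
    | mem u hu =>
      obtain ⟨g', v, rfl⟩ := hu
      refine Submodule.subset_span ⟨g * g', (ρ g : Matrix (Fin n) (Fin n) k).mulVec v, ?_⟩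
      rw [Matrix.mulVec_mulVec, Matrix.mulVec_mulVec]
      congr 1
      have h1 : g * g' * h₀ * (g * g')⁻¹ = g * (g' * h₀ * g'⁻¹) * g⁻¹ := by group
      change _ = aeval (ρ (g * g' * h₀ * (g * g')⁻¹) : Matrix (Fin n) (Fin n) k) f * _
      rw [h1, conj_aeval, mul_assoc, inv_mul_val, mul_one]
    | zero => rw [Matrix.mulVec_zero]; exact Submodule.zero_mem _
    | add u v _ _ hu hv => rw [Matrix.mulVec_add]; exact Submodule.add_mem _ hu hv
    | smul c u _ hu => rw [Matrix.mulVec_smul]; exact Submodule.smul_mem _ _ hu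
  obtain ⟨U, hU, hUc⟩ := hs V₁ hV₁
  have hYV : ∀ u ∈ V₁, Y.mulVec u = 0 := by
    intro u hu
    induction hu using Submodule.span_induction with
    | mem u hu =>
      obtain ⟨g', v, rfl⟩ := hu
      rw [Matrix.mulVec_mulVec, hkill, Matrix.zero_mulVec]
    | zero => rw [Matrix.mulVec_zero]
    | add u v _ _ hu hv => rw [Matrix.mulVec_add, hu, hv, add_zero]
    | smul c u _ hu => rw [Matrix.mulVec_smul, hu, smul_zero]
  have hYU : ∀ u ∈ U, Y.mulVec u = 0 := by
    intro u hu
    have h1 : (y g₁).mulVec u ∈ U := mem_aeval (hU (g₁ * h₀ * g₁⁻¹)) f u hu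
    have h2 : (y g₁).mulVec u ∈ V₁ := Submodule.subset_span ⟨g₁, u, rfl⟩
    have h3 : (y g₁).mulVec u = 0 := by
      have h4 := Submodule.mem_inf.2 ⟨h2, h1⟩
      rwa [hUc.inf_eq_bot, Submodule.mem_bot] at h4
    rw [hYZ, ← Matrix.mulVec_mulVec, h3, Matrix.mulVec_zero]
  apply hY0
  have hall : ∀ v, Y.mulVec v = 0 := by
    intro v
    have h1 : v ∈ V₁ ⊔ U := by
      rw [hUc.sup_eq_top]
      trivial
    obtain ⟨a, ha, b, hb, rfl⟩ := Submodule.mem_sup.1 h1
    rw [Matrix.mulVec_add, hYV a ha, hYU b hb, add_zero]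
  ext i j
  have h6 := congrFun (hall (Pi.single j 1)) i
  simpa using h6

end cliff

end Pool.Agent.Run7.h306.AB
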