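import Pool.Agent.Run7.h306.AB7
import Pool.Agent.R390.SF.PolMain

/-!
# A Frobenius element which separates the characters
-/

set_option autoImplicit false
set_option linter.unusedSectionVars false

open Module Matrix Polynomial NumberField Pool.Agent.Y800 Pool.Agent.R390.SF
open Pool.Agent.R390.SF.IntegralSystem

namespace Pool.Agent.Run7.h306.AB

/-- the exponent -/
def NN (n : ℕ) : ℕ := (n * n * (n * n + 1)).factorial

theorem NN_pos (n : ℕ) : 0 < NN n := Nat.factorial_pos _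

theorem cN_le {P : ℤ[X]} (hP : P.Monic) (N : ℕ) : cN P N ≤ P.natDegree := by
  classical
  have hne : P.map (Int.castRingHom (AlgebraicClosure ℚ)) ≠ 0 := (hP.map _).ne_zero
  have h1 : {x | (P.map (Int.castRingHom (AlgebraicClosure ℚ))).IsRoot x} =
      ((P.map (Int.castRingHom (AlgebraicClosure ℚ))).roots.toFinset : Set _) := by
    ext x
    rw [Set.mem_setOf_eq, Finset.mem_coe, Multiset.mem_toFinset, mem_roots hne]
  rw [cN]
  refine (Set.ncard_image_le (by rw [h1]; exact Finset.finite_toSet _)).trans ?_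
  rw [h1, Set.ncard_coe_finset]
  refine (Multiset.toFinset_card_le _).trans ((card_roots' _).trans ?_)
  rw [hP.natDegree_map]

/-- a polynomial over `ℤ` which is squarefree over `ℚ` and has the roots of `P` -/
theorem exists_sep {P : ℤ[X]} (hP : P.Monic) : ∃ (m u v : ℤ[X]) (e : ℤ), e ≠ 0 ∧
    u * derivative m + v * m = C e ∧ ∀ (k : Type) [Field k] [CharZero k] (n : ℕ)
      (M : Matrix (Fin n) (Fin n) k), M.charpoly = P.map (Int.castRingHom k) →
        Squarefree (minpoly k M) → aeval M (m.map (Int.castRingHom k)) = 0 := by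
  classical
  have hne : P.map (Int.castRingHom ℚ) ≠ 0 := (hP.map _).ne_zero
  obtain ⟨y, r, hy, -, hPy⟩ := exists_squarefree_dvd_pow_of_ne_zero hne
  have hsep : y.Separable := PerfectField.separable_iff_squarefree.2 hy
  obtain ⟨a, b, hab⟩ := hsep
  have clear : ∀ f : ℚ[X], ∃ (d : ℤ) (g : ℤ[X]), d ≠ 0 ∧
      g.map (Int.castRingHom ℚ) = C (d : ℚ) * f := by
    intro f
    obtain ⟨b, hb⟩ := IsLocalization.integerNormalization_map_to_map (nonZeroDivisors ℤ) f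
    refine ⟨b, IsLocalization.integerNormalization (nonZeroDivisors ℤ) f,
      nonZeroDivisors.coe_ne_zero b, ?_⟩
    have h1 : (algebraMap ℤ ℚ) = Int.castRingHom ℚ := RingHom.ext_int _ _
    rw [h1] at hb
    rw [hb]
    ext i
    simp
  obtain ⟨d₁, m, hd₁, hm⟩ := clear y
  obtain ⟨d₂, v, hd₂, hv⟩ := clear a
  obtain ⟨d₃, u, hd₃, hu⟩ := clear b
  refine ⟨m, C d₂ * u, C d₃ * v, d₁ * d₂ * d₃, by positivity, ?_, ?_⟩
  · apply Polynomial.map_injective (Int.castRingHom ℚ) (RingHom.injective_int _)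
    rw [Polynomial.map_add, Polynomial.map_mul, Polynomial.map_mul, Polynomial.map_mul,
      Polynomial.map_mul, ← Polynomial.derivative_map, hm, hv, hu, derivative_C_mul,
      Polynomial.map_C, Polynomial.map_C, Polynomial.map_C]
    have h2 : (Int.castRingHom ℚ) (d₁ * d₂ * d₃) = (d₁ : ℚ) * d₂ * d₃ := by simp
    rw [h2, C_mul, C_mul]
    have h3 : ((Int.castRingHom ℚ) d₂) = (d₂ : ℚ) := rfl
    have h4 : ((Int.castRingHom ℚ) d₃) = (d₃ : ℚ) := rfl
    rw [h3, h4]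
    linear_combination (C (d₁ : ℚ) * C (d₂ : ℚ) * C (d₃ : ℚ)) * hab
  · intro k _ _ n M hM hsq
    have h1 : (algebraMap ℚ k).comp (Int.castRingHom ℚ) = Int.castRingHom k := RingHom.ext_int _ _
    have h2 : minpoly k M ∣ (y.map (algebraMap ℚ k)) ^ r := by
      refine (Matrix.minpoly_dvd_charpoly M).trans ?_
      rw [hM, ← h1, ← Polynomial.map_map, ← Polynomial.map_pow]
      exact Polynomial.map_dvd _ hPy
    have h3 : minpoly k M ∣ y.map (algebraMap ℚ k) := hsq.isRadical r _ h2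
    obtain ⟨q, hq⟩ := h3
    rw [← h1, ← Polynomial.map_map, hm, Polynomial.map_mul, hq, map_mul, map_mul, minpoly.aeval,
      zero_mul, mul_zero]

variable {F : SubFld ℚ} [hF : FiniteDimensional ℚ F] {n : ℕ}

/-- the Frobenius elements in `H` -/
def Frobs (S : Finset ℕ) (H : Subgroup F.fixingSubgroup) :
    Set (ℕ × Ideal ZBar × F.fixingSubgroup) :=
  {x | x.1.Prime ∧ x.1 ∉ S ∧ x.2.1.IsMaximal ∧ (x.1 : ZBar) ∈ x.2.1 ∧
    IsGeomFrob x.1 x.2.1 (x.2.2 : GQ) ∧ x.2.2 ∈ H}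

theorem frobs_nonempty (S : Finset ℕ) {H : Subgroup F.fixingSubgroup}
    (hH : IsOpen (H : Set F.fixingSubgroup)) : (Frobs S H).Nonempty := by
  by_contra hne
  rw [Set.not_nonempty_iff_eq_empty] at hne
  have h1 := closed_univ' (H : Set F.fixingSubgroup)ᶜ hH.isClosed_compl S (by
    intro p hp hpS P hP hpP σ hσ hσH
    have h2 : (p, P, σ) ∈ Frobs S H := ⟨hp, hpS, hP, hpP, hσ, hσH⟩
    rw [hne] at h2
    exact h2) 1
  exact h1 H.one_mem

section key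

variable {S : Finset ℕ} {w : ℕ} {T : IntegralSystem F n}

theorem poly_good (hT : T.GoodSystem S w) {H : Subgroup F.fixingSubgroup}
    {x : ℕ × Ideal ZBar × F.fixingSubgroup} (hx : x ∈ Frobs S H) :
    (T.poly (x.2.1.under (𝓞 F))).Monic ∧ (T.poly (x.2.1.under (𝓞 F))).natDegree = n := by
  obtain ⟨h1, h2, h3, h4, -, -⟩ := hx
  have hm : (x.2.1.under (𝓞 F)).IsMaximal := under_max h3
  have hpm : (x.1 : 𝓞 F) ∈ x.2.1.under (𝓞 F) := by
    rw [mem_under, map_natCast]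
    exact h4
  exact ⟨(hT.good x.1 h1 h2 _ hm hpm).monic, (hT.good x.1 h1 h2 _ hm hpm).natDegree⟩

theorem rat_charpoly (hT : T.GoodSystem S w) {H : Subgroup F.fixingSubgroup}
    {x : ℕ × Ideal ZBar × F.fixingSubgroup} (hx : x ∈ Frobs S H) {ℓ : ℕ} [Fact ℓ.Prime]
    (hℓ : ℓ ≠ x.1) : (T.rat ℓ x.2.2 : Matrix (Fin n) (Fin n) ℚ_[ℓ]).charpoly =
      (T.poly (x.2.1.under (𝓞 F))).map (Int.castRingHom ℚ_[ℓ]) := by
  obtain ⟨h1, h2, h3, h4, h5, -⟩ := hx
  exact charpoly_frob_rat hT h1 h2 hℓ h3 h4 h5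

theorem rat_comm {H : Subgroup F.fixingSubgroup} {ℓ : ℕ} [Fact ℓ.Prime]
    (hc : ∀ g ∈ H, ∀ h ∈ H, T.rho ℓ g * T.rho ℓ h = T.rho ℓ h * T.rho ℓ g) :
    ∀ g ∈ H, ∀ h ∈ H, T.rat ℓ g * T.rat ℓ h = T.rat ℓ h * T.rat ℓ g := by
  intro g hg h hh
  have h1 := congrArg (Matrix.GeneralLinearGroup.map (n := Fin n) (algebraMap ℤ_[ℓ] ℚ_[ℓ]))
    (hc g hg h hh)
  rw [map_mul, map_mul] at h1
  exact h1

theorem val_pow {ℓ : ℕ} [Fact ℓ.Prime] (g : F.fixingSubgroup) (N : ℕ) :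
    (T.rat ℓ (g ^ N) : Matrix (Fin n) (Fin n) ℚ_[ℓ]) =
      (T.rat ℓ g : Matrix (Fin n) (Fin n) ℚ_[ℓ]) ^ N := by
  rw [map_pow, Units.val_pow_eq_pow_val]

/-- the eigenvalues of an invertible matrix -/
theorem eig_ne_zero {k : Type} [Field k] {M : Matrix (Fin n) (Fin n) k} (hM : IsUnit M)
    {μ : AlgebraicClosure k} (hμ : (en M).HasEigenvalue μ) : μ ≠ 0 := by
  rintro rfl
  obtain ⟨v, hv⟩ := hμ.exists_hasEigenvector
  have h1 := Module.End.mem_eigenspace_iff.1 hv.1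
  rw [zero_smul] at h1
  obtain ⟨M', hM'⟩ := hM
  have h2 : en (M'⁻¹ : GL (Fin n) k).1 (en M v) = v := by
    rw [← Module.End.mul_apply, ← map_mul, ← hM', ← Units.val_mul, inv_mul_cancel, Units.val_one,
      map_one, Module.End.one_apply]
  rw [h1, map_zero] at h2
  exact hv.2 h2.symm

theorem isOpen_indep {ℓ : ℕ} [Fact ℓ.Prime] {X : Type} [TopologicalSpace X] {s : ℕ}
    (f : X → Fin s → Matrix (Fin n) (Fin n) ℚ_[ℓ]) (hf : ∀ i, Continuous fun x => f x i) :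
    IsOpen {x | LinearIndependent ℚ_[ℓ] (f x)} := by
  have h1 : IsOpen {g : Fin s → (Fin n → Fin n → ℚ_[ℓ]) | LinearIndependent ℚ_[ℓ] g} :=
    isOpen_setOf_linearIndependent
  have h2 : Continuous fun x => (f x : Fin s → (Fin n → Fin n → ℚ_[ℓ])) :=
    continuous_pi hf
  exact h1.preimage h2

/-- **The main step.** -/
theorem key (hT : T.GoodSystem S w) (hs : ∀ (ℓ : ℕ) [Fact ℓ.Prime], Semis (T.rat ℓ))
    {H : Subgroup F.fixingSubgroup} (hHo : IsOpen (H : Set F.fixingSubgroup)) [hHn : H.Normal]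
    (hc : ∀ (ℓ : ℕ) [Fact ℓ.Prime], ∀ g ∈ H, ∀ h ∈ H,
      T.rho ℓ g * T.rho ℓ h = T.rho ℓ h * T.rho ℓ g) :
    ∃ x ∈ Frobs S H, ∀ (ℓ : ℕ) [Fact ℓ.Prime], ℓ ≠ x.1 → ∀ X : Matrix (Fin n) (Fin n) ℚ_[ℓ],
      (T.rat ℓ x.2.2 : Matrix (Fin n) (Fin n) ℚ_[ℓ]) * X = X * T.rat ℓ x.2.2 → ∀ h ∈ H,
        (T.rat ℓ h : Matrix (Fin n) (Fin n) ℚ_[ℓ]) ^ NN n * X =
          X * (T.rat ℓ h : Matrix (Fin n) (Fin n) ℚ_[ℓ]) ^ NN n := by
  classical
  let c : ℕ × Ideal ZBar × F.fixingSubgroup → ℕ := fun x => cN (T.poly (x.2.1.under (𝓞 F))) (NN n)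
  have hcn : ∀ x ∈ Frobs S H, c x ≤ n := by
    intro x hx
    obtain ⟨h1, h2⟩ := poly_good hT hx
    exact (cN_le h1 _).trans h2.le
  obtain ⟨x, hx, hmin⟩ := (measure fun x => n - c x).wf.has_min (Frobs S H)
    (frobs_nonempty S hHo)
  have hmax : ∀ y ∈ Frobs S H, c y ≤ c x := by
    intro y hy
    have h1 : ¬ (n - c y < n - c x) := hmin y hy
    have h2 := hcn y hy
    have h3 := hcn x hx
    omega
  refine ⟨x, hx, fun ℓ _ hℓ X hX h hh => ?_⟩
  by_contra hne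
  have hxH : x.2.2 ∈ H := hx.2.2.2.2.2
  obtain ⟨hPm, hPd⟩ := poly_good hT hx
  have hch := rat_charpoly hT hx hℓ
  have hcomm := rat_comm (T := T) (hc ℓ)
  have hsq : ∀ g ∈ H, Squarefree (minpoly ℚ_[ℓ] (T.rat ℓ g : Matrix (Fin n) (Fin n) ℚ_[ℓ])) :=
    fun g hg => squarefree_of_semis (hs ℓ) H hcomm hg
  let M : Matrix (Fin n) (Fin n) ℚ_[ℓ] := (T.rat ℓ x.2.2 : Matrix (Fin n) (Fin n) ℚ_[ℓ])
  let M' : Matrix (Fin n) (Fin n) ℚ_[ℓ] := (T.rat ℓ h : Matrix (Fin n) (Fin n) ℚ_[ℓ])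
  have hMM : Commute M M' := by
    have h1 := congrArg Units.val (hcomm _ hxH _ hh)
    rwa [Units.val_mul, Units.val_mul] at h1
  have hMX : Commute M X := hX
  have e1 : en (M ^ NN n) * en (M' ^ NN n) = en (M' ^ NN n) * en (M ^ NN n) := by
    rw [← map_mul, ← map_mul, (hMM.pow_pow _ _).eq]
  have hf : (en (M ^ NN n)).IsSemisimple := by
    have h1 := semis_en (hsq _ (H.pow_mem hxH (NN n)))
    rwa [val_pow] at h1
  have hg : (en (M' ^ NN n)).IsSemisimple := by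
    have h1 := semis_en (hsq _ (H.pow_mem hh (NN n)))
    rwa [val_pow] at h1
  have hu : ∀ g : F.fixingSubgroup, IsUnit ((T.rat ℓ g : Matrix (Fin n) (Fin n) ℚ_[ℓ]) ^ NN n) :=
    fun g => (Units.isUnit (T.rat ℓ g)).pow _
  have hroot : ∀ α, (en (M ^ NN n)).HasEigenvalue α → ∃ z, (((T.poly (x.2.1.under (𝓞 F))).map
      (Int.castRingHom (AlgebraicClosure ℚ_[ℓ])))).IsRoot z ∧ z ≠ 0 ∧ z ^ NN n = α := by
    intro α hα
    have h1 : α ∈ {μ | (en (M ^ NN n)).HasEigenvalue μ} := hα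
    rw [eig_pow M (NN_pos n)] at h1
    obtain ⟨z, hz, rfl⟩ := h1
    refine ⟨z, ?_, eig_ne_zero (Units.isUnit (T.rat ℓ x.2.2)) hz, rfl⟩
    rw [Set.mem_setOf_eq, hasEig_iff] at hz
    have h2 : M.charpoly = (T.poly (x.2.1.under (𝓞 F))).map (Int.castRingHom ℚ_[ℓ]) := hch
    rw [h2, Polynomial.map_map, RingHom.ext_int ((algebraMap ℚ_[ℓ] (AlgebraicClosure ℚ_[ℓ])).comp
      (Int.castRingHom ℚ_[ℓ])) (Int.castRingHom (AlgebraicClosure ℚ_[ℓ]))] at hz
    exact hz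
  have hchar : CharZero (AlgebraicClosure ℚ_[ℓ]) := inferInstance
  obtain ⟨k, hk⟩ := more_eigen e1 hf hg (by
      intro α α' hα hα' k hk hkk
      obtain ⟨z, hz, hz0, rfl⟩ := hroot α hα
      obtain ⟨z', hz', hz0', rfl⟩ := hroot α' hα'
      exact neat hPm hPd hz0' hz hz' hk hkk)
    (fun β hβ => eig_ne_zero (hu h) hβ) (fun α hα => eig_ne_zero (hu x.2.2) hα)
    (X := en X) (by rw [← map_mul, ← map_mul, (hMX.pow_left _).eq])
    (by
      intro h0
      rw [← map_mul, ← map_mul] at h0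
      exact hne (en_inj h0))
  -- the element `σ ^ k h`
  have hk' : en (M ^ NN n) ^ k * en (M' ^ NN n) =
      en ((T.rat ℓ (x.2.2 ^ k * h) : Matrix (Fin n) (Fin n) ℚ_[ℓ]) ^ NN n) := by
    rw [← map_pow, ← map_mul]
    congr 1
    have h1 : (T.rat ℓ (x.2.2 ^ k * h) : Matrix (Fin n) (Fin n) ℚ_[ℓ]) = M ^ k * M' := by
      rw [map_mul, Units.val_mul, val_pow]
    rw [h1, (hMM.pow_left k).mul_pow, ← pow_mul, ← pow_mul, mul_comm]
  rw [ncard_eig hPm hch (NN_pos n), hk'] at hk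
  have hind := indep_of_eig _ (Nat.succ_le_of_lt hk)
  have hmem : x.2.2 ^ k * h ∈ H := H.mul_mem (H.pow_mem hxH k) hh
  -- the closed set
  let O : Set F.fixingSubgroup := {g | LinearIndependent ℚ_[ℓ]
    (fun i : Fin (c x + 1) => ((T.rat ℓ g : Matrix (Fin n) (Fin n) ℚ_[ℓ]) ^ NN n) ^ (i : ℕ))}
  have hcont : Continuous fun g => (T.rat ℓ g : Matrix (Fin n) (Fin n) ℚ_[ℓ]) :=
    (hT.continuous ℓ).matrix_map continuous_coe
  have hO : IsOpen O := isOpen_indep _ fun i => (hcont.pow _).pow _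
  have hfin := closed_univ' ((H : Set F.fixingSubgroup) ∩ O)ᶜ (hHo.inter hO).isClosed_compl
    (S ∪ {ℓ}) (by
      rintro p hp hpS P hP hpP σ hσ ⟨hσH, hσO⟩
      have h0 : p ∉ S := fun h => hpS (Finset.mem_union_left _ h)
      have hℓp : ℓ ≠ p := fun h => hpS (Finset.mem_union_right _ (Finset.mem_singleton.2 h.symm))
      have hy : (p, P, σ) ∈ Frobs S H := ⟨hp, h0, hP, hpP, hσ, hσH⟩
      have h1 : Squarefree (minpoly ℚ_[ℓ]
          ((T.rat ℓ σ : Matrix (Fin n) (Fin n) ℚ_[ℓ]) ^ NN n)) := by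
        have h2 := hsq _ (H.pow_mem hσH (NN n))
        rwa [val_pow] at h2
      have h2 := eig_of_indep h1 hσO
      rw [ncard_eig (poly_good hT hy).1 (rat_charpoly hT hy hℓp) (NN_pos n)] at h2
      have h3 := hmax _ hy
      exact absurd (h2.trans h3) (Nat.not_succ_le_self _)) (x.2.2 ^ k * h)
  exact hfin ⟨hmem, hind⟩

end key

end Pool.Agent.Run7.h306.AB
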