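import Pool.Agent.Run7.h306.AB8

/-!
# Finiteness of the potentially abelian integral systems
-/

set_option autoImplicit false
set_option linter.unusedSectionVars false

open Module Matrix Polynomial NumberField Pool.Agent.Y800 Pool.Agent.R390.SF
open Pool.Agent.R390.SF.IntegralSystem
open Pool.Agent.Y126.SH (exists_reps)

namespace Pool.Agent.Run7.h306.AB

variable {F : SubFld ℚ} {n : ℕ}

/-- `T` is potentially abelian: the representations on all the `T_ℓ` are abelian on the same open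
subgroup, that is, over a finite extension of `F`. -/
def PotentiallyAbelian (T : IntegralSystem F n) : Prop :=
  ∃ H : Subgroup F.fixingSubgroup, IsOpen (H : Set F.fixingSubgroup) ∧
    ∀ (ℓ : ℕ) [Fact ℓ.Prime], ∀ g ∈ H, ∀ h ∈ H, T.rho ℓ g * T.rho ℓ h = T.rho ℓ h * T.rho ℓ g

/-- The representations on `V_ℓ = T_ℓ ⊗ ℚ_ℓ` are semisimple: stable subspaces have stable
complements. -/
def Semisimple (T : IntegralSystem F n) : Prop := ∀ (ℓ : ℕ) [Fact ℓ.Prime],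
  ∀ U : Submodule ℚ_[ℓ] (Fin n → ℚ_[ℓ]), IsStable (T.rat ℓ) U →
    ∃ U' : Submodule ℚ_[ℓ] (Fin n → ℚ_[ℓ]), IsStable (T.rat ℓ) U' ∧ IsCompl U U'

/-- The systems with good reduction outside `S`, pure of weight `w`, semisimple and potentially
abelian. -/
structure InClass (S : Finset ℕ) (w : ℕ) (T : IntegralSystem F n) : Prop where
  good : T.GoodSystem S w
  semisimple : Semisimple T
  abelian : PotentiallyAbelian T

variable [hF : FiniteDimensional ℚ F]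

/-- **Uniqueness of the lattices in `V_ℓ` for almost all `ℓ`.** -/
theorem exists_bound {S : Finset ℕ} {w : ℕ} {T : IntegralSystem F n} (hT : InClass S w T) :
    ∃ N₀ : ℕ, ∀ (ℓ : ℕ) [Fact ℓ.Prime], N₀ < ℓ → ∀ (ρ' : F.fixingSubgroup →* GL (Fin n) ℤ_[ℓ])
      (B : Matrix (Fin n) (Fin n) ℤ_[ℓ]), B.det ≠ 0 →
      (∀ g, (T.rho ℓ g : Matrix (Fin n) (Fin n) ℤ_[ℓ]) * B = B * ρ' g) →
      ∃ A : GL (Fin n) ℤ_[ℓ], ∀ g, ρ' g = A * T.rho ℓ g * A⁻¹ := by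
  classical
  obtain ⟨H, hHo, hHc⟩ := hT.abelian
  have hfi : H.FiniteIndex := by
    have : Finite (F.fixingSubgroup ⧸ H) := Subgroup.quotient_finite_of_isOpen _ hHo
    exact Subgroup.finiteIndex_of_finite_quotient
  have hoc : IsOpen (H.normalCore : Set F.fixingSubgroup) := isOpen_core hHo
  have hle : H.normalCore ≤ H := Subgroup.normalCore_le H
  have hfc : H.normalCore.FiniteIndex := inferInstance
  have hcc : ∀ (ℓ : ℕ) [Fact ℓ.Prime], ∀ g ∈ H.normalCore, ∀ h ∈ H.normalCore,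
      T.rho ℓ g * T.rho ℓ h = T.rho ℓ h * T.rho ℓ g :=
    fun ℓ _ g hg h hh => hHc ℓ g (hle hg) h (hle hh)
  obtain ⟨x, hx, hkey⟩ := key hT.good hT.semisimple hoc hcc
  have hxH : x.2.2 ∈ H.normalCore := hx.2.2.2.2.2
  obtain ⟨m, u, v, e, he, huv, hroot⟩ := exists_sep (poly_good hT.good hx).1
  refine ⟨x.1 + e.natAbs + NN n + H.normalCore.index + n, ?_⟩
  intro ℓ hℓ hlt ρ' B hB hBρ
  have hℓx : ℓ ≠ x.1 := by omega
  have hnd : ∀ N : ℕ, 0 < N → N < ℓ → ¬ ℓ ∣ N := fun N h1 h2 h3 =>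
    absurd (Nat.le_of_dvd h1 h3) (by omega)
  have hsq : Squarefree (minpoly ℚ_[ℓ] (T.rat ℓ x.2.2 : Matrix (Fin n) (Fin n) ℚ_[ℓ])) :=
    squarefree_of_semis (hT.semisimple ℓ) H.normalCore (rat_comm (hcc ℓ)) hxH
  have h1 := hroot ℚ_[ℓ] n _ (rat_charpoly hT.good hx hℓx) hsq
  -- the root over `ℤ_ℓ`
  have hr : aeval (T.rho ℓ x.2.2 : Matrix (Fin n) (Fin n) ℤ_[ℓ]) (m.map (Int.castRingHom ℤ_[ℓ])) =
      0 := by
    apply qm_inj
    rw [map_zero]
    have h2 := aeval_map' (algebraMap ℤ_[ℓ] ℚ_[ℓ])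
      (T.rho ℓ x.2.2 : Matrix (Fin n) (Fin n) ℤ_[ℓ]) (m.map (Int.castRingHom ℤ_[ℓ]))
    rw [Polynomial.map_map, RingHom.ext_int ((algebraMap ℤ_[ℓ] ℚ_[ℓ]).comp (Int.castRingHom ℤ_[ℓ]))
      (Int.castRingHom ℚ_[ℓ])] at h2
    exact h2.trans h1
  -- the unit `e`
  have hnat : IsUnit (e.natAbs : ℤ_[ℓ]) :=
    isUnit_nat (hnd _ (Int.natAbs_pos.2 he) (by omega))
  have heu : IsUnit ((e : ℤ) : ℤ_[ℓ]) := by
    rcases Int.natAbs_eq e with h2 | h2
    · have h3 := congrArg (Int.cast : ℤ → ℤ_[ℓ]) h2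
      rw [h3, Int.cast_natCast]
      exact hnat
    · have h3 := congrArg (Int.cast : ℤ → ℤ_[ℓ]) h2
      rw [h3, Int.cast_neg, Int.cast_natCast, IsUnit.neg_iff]
      exact hnat
  obtain ⟨c, hc⟩ := heu.exists_left_inv
  have hsep : (C c * u.map (Int.castRingHom ℤ_[ℓ])) * derivative (m.map (Int.castRingHom ℤ_[ℓ])) +
      (C c * v.map (Int.castRingHom ℤ_[ℓ])) * m.map (Int.castRingHom ℤ_[ℓ]) = 1 := by
    have h2 := congrArg (Polynomial.map (Int.castRingHom ℤ_[ℓ])) huv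
    rw [Polynomial.map_add, Polynomial.map_mul, Polynomial.map_mul, ← Polynomial.derivative_map,
      Polynomial.map_C] at h2
    rw [mul_assoc, mul_assoc, ← mul_add, h2, ← C_mul]
    have h3 : c * (Int.castRingHom ℤ_[ℓ]) e = 1 := hc
    rw [h3, C_1]
  refine unique_lattice' (H := H.normalCore) (σ := x.2.2) (N := NN n)
    (hnd _ (NN_pos n) (by omega)) (hnd _ (Nat.pos_of_ne_zero hfc.index_ne_zero) (by omega))
    (by omega) hr hsep (hcc ℓ) ?_ hB hBρ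
  intro h hh X hX
  apply qm_inj
  have h2 := hkey ℓ hℓx (qm X) (by
    have h3 := congrArg qm hX
    rw [map_mul, map_mul] at h3
    exact h3) h hh
  rw [map_mul, map_mul, map_pow]
  exact h2

/-- **Finiteness.** -/
theorem ab_finiteness (hn : 0 < n) (w : ℕ) (S : Finset ℕ) :
    ∃ (m : ℕ) (T : Fin m → IntegralSystem F n), (∀ i, InClass S w (T i)) ∧
      ∀ T' : IntegralSystem F n, InClass S w T' → ∃ i, IsomorphicOn Set.univ (T i) T' := by
  classical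
  obtain ⟨𝒯, h𝒯, hdet⟩ := traces_of_finite (F := F) hn S
  refine exists_reps (fun T : IntegralSystem F n => InClass S w T)
    (fun T T' => IsomorphicOn Set.univ T T') (fun T => fun p : 𝒯 => (T.poly p).coeff (n - 1)) ?_ ?_
  · refine (Set.Finite.pi' (t := fun p : 𝒯 => Set.Icc
      (-((Nat.card (𝓞 F ⧸ (p : Ideal (𝓞 F))) ^ w) ^ n * n.choose (n / 2) : ℕ) : ℤ)
      (((Nat.card (𝓞 F ⧸ (p : Ideal (𝓞 F))) ^ w) ^ n * n.choose (n / 2) : ℕ) : ℤ))
      (fun p => Set.finite_Icc _ _)).subset ?_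
    rintro _ ⟨T, hT, rfl⟩ p
    obtain ⟨h1, r, hr, hrS, h2⟩ := h𝒯 p p.2
    exact abs_le.1 (coeff_bound hT.good hr hrS h1 h2 (n - 1))
  · intro T0 hT0
    obtain ⟨N, hN⟩ := exists_bound hT0
    choose k c hk hc using local_code2 (Λ := Set.univ) (T0 := T0) (fun ℓ _ _ => hT0.semisimple ℓ)
    obtain ⟨K, ⟨e⟩⟩ := Finite.exists_equiv_fin (∀ ℓ : Fin (N + 1), Fin (k ℓ))
    refine ⟨K, fun T => (e fun ℓ => ⟨c ℓ T, hk ℓ T⟩ : ℕ), fun T => Fin.is_lt _, ?_⟩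
    intro T T' hT hT' hi hi' hcode ℓ hℓ hℓΛ
    have h1 := exists_inter (hT0.semisimple ℓ) (hT.semisimple ℓ)
      (hdet w w T T0 hT.good hT0.good (fun p hp => congrFun hi ⟨p, hp⟩) ℓ)
    have h2 := exists_inter (hT0.semisimple ℓ) (hT'.semisimple ℓ)
      (hdet w w T' T0 hT'.good hT0.good (fun p hp => congrFun hi' ⟨p, hp⟩) ℓ)
    by_cases hℓN : ℓ ≤ N
    · have h3 := e.injective (Fin.ext hcode)
      have h4 := congrFun h3 ⟨ℓ, Nat.lt_succ_of_le hℓN⟩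
      exact hc ℓ T T' hℓΛ h1 h2 (congrArg Fin.val h4)
    · obtain ⟨B, hB, hBρ⟩ := h1
      obtain ⟨B', hB', hBρ'⟩ := h2
      obtain ⟨A, hA⟩ := hN ℓ (not_le.1 hℓN) (T.rho ℓ) B hB hBρ
      obtain ⟨A', hA'⟩ := hN ℓ (not_le.1 hℓN) (T'.rho ℓ) B' hB' hBρ'
      refine ⟨A' * A⁻¹, fun g => ?_⟩
      rw [hA, hA']
      group

end Pool.Agent.Run7.h306.AB
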