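import Pool.Agent.Run7.h306.HF9

/-!
# Hodge classes on the products with Fermat varieties: the main theorems
-/

set_option autoImplicit false

open Finset Matrix Pool.Agent.H916R2 Pool.Agent.TH131.GHC Pool.Agent.TH504.VY Pool.Agent.Y1.HZ

namespace Run7.h306.HF

variable {J : Type} [Fintype J] {m n : J → ℕ} [∀ j, NeZero (m j)]

theorem part_one (b : ∀ j, Label (m j) (n j)) (N : ℕ) :
    open Classical in part b N 1 = ∑ j, if m j ∣ N then hodge (b j) else 0 := by
  classical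
  unfold part
  refine sum_congr rfl fun j _ => ?_
  by_cases h : m j ∣ N
  · rw [dif_pos h, if_pos h, map_one, twist_one]
  · rw [dif_neg h, if_neg h]

/-- If the types of all parts vanish then the type vanishes. -/
theorem sum_hodge (b : ∀ j, Label (m j) (n j)) (p k : J → ℕ) (hp : ∀ j, (p j).Prime)
    (hk : ∀ j, 1 ≤ k j) (hm : ∀ j, m j = p j ^ k j)
    (h : ∀ (q K : ℕ), q.Prime → (∃ j, p j = q) → PP m q K → part b (q ^ K) 1 = 0) :
    ∑ j, hodge (b j) = 0 := by
  classical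
  obtain ⟨K, hK⟩ : ∃ K, K = ∑ j, m j := ⟨_, rfl⟩
  have hkK : ∀ j, k j ≤ K := by
    intro j
    have h1 : k j < p j ^ k j := Nat.lt_pow_self (hp j).one_lt
    have h2 : m j ≤ K := by
      rw [hK]
      exact single_le_sum (f := m) (fun _ _ => Nat.zero_le _) (mem_univ j)
    rw [hm j] at h2
    omega
  have hdiv : ∀ j, m j ∣ p j ^ K := by
    intro j
    rw [hm j]
    exact pow_dvd_pow _ (hkK j)
  have hcop : ∀ j q, q.Prime → p j ≠ q → (m j).Coprime q := by
    intro j q hq hne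
    rw [hm j]
    exact Nat.Coprime.pow_left _ ((Nat.coprime_primes (hp j) hq).2 hne)
  have hPP : ∀ q, q.Prime → PP m q K := by
    intro q hq j
    by_cases hjq : p j = q
    · left
      rw [← hjq]
      exact hdiv j
    · right
      exact hcop j q hq hjq
  have h1 : ∑ q ∈ univ.image p, part b (q ^ K) 1 = 0 := by
    refine sum_eq_zero fun q hq => ?_
    obtain ⟨j, _, rfl⟩ := mem_image.1 hq
    exact h _ K (hp j) ⟨j, rfl⟩ (hPP _ (hp j))
  rw [sum_congr rfl fun q _ => part_one b (q ^ K), sum_comm] at h1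
  rw [← h1]
  refine sum_congr rfl fun j _ => ?_
  rw [sum_eq_single (p j)]
  · rw [if_pos (hdiv j)]
  · intro q hq hne
    rw [if_neg]
    intro hd
    obtain ⟨j', _, rfl⟩ := mem_image.1 hq
    have h2 := hcop j (p j') (hp j') (fun h => hne h.symm)
    have h3 : (m j).Coprime (p j' ^ K) := Nat.Coprime.pow_right K h2
    have h4 := Nat.Coprime.eq_one_of_dvd h3 hd
    rw [hm j] at h4
    have h5 : 1 < p j ^ k j := Nat.one_lt_pow (by have := hk j; omega) (hp j).one_lt
    omega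
  · intro hj
    exact absurd (mem_image_of_mem p (mem_univ j)) hj

/-- The part of a label of a Hodge class on `V`. -/
theorem part_zero {ψ : (∀ j, Label (m j) (n j)) → ℂ} (hψ : IsHodgeClass m n ψ)
    (b : ∀ j, Label (m j) (n j)) (hb : ψ b ≠ 0) {q K : ℕ} [Fact q.Prime] (hm : PP m q K)
    (t : (ZMod (q ^ K))ˣ) : part b (q ^ K) t = 0 := by
  have h0 : ∀ σ, tot b σ = 0 := by
    intro σ
    apply hψ.2
    rw [← hψ.1 σ b]
    intro h
    exact hb ((map_eq_zero σ).1 h)
  obtain ⟨σ₁, σ₂, h1, h2, h3⟩ := rest_pm b hm t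
  have h4 := h0 σ₁
  have h5 := h0 σ₂
  rw [tot_eq b (q ^ K), h1] at h4
  rw [tot_eq b (q ^ K), h2, h3] at h5
  omega

theorem sum_ent {m n : ℕ} [NeZero m] {N : ℕ} (h : m ∣ N) (b : Label m n) :
    ∑ i, ent N b i = 0 := by
  cases b with
  | inl i =>
    change ∑ _ : Fin (n + 2), (0 : ZMod N) = 0
    simp
  | inr a =>
    change ∑ i, ((N / m * (a.entry i).val : ℕ) : ZMod N) = 0
    rw [← Nat.cast_sum, ← mul_sum, ZMod.natCast_eq_zero_iff]
    obtain ⟨c, hc⟩ := sum_val_dvd a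
    rw [hc, ← mul_assoc, Nat.div_mul_cancel h]
    exact dvd_mul_right _ _

theorem isHodge_entries (b : ∀ j, Label (m j) (n j)) {q K : ℕ} [hq : Fact q.Prime]
    (h0 : ∀ t, part b (q ^ K) t = 0) : IsHodge (q ^ K) (entries b (q ^ K)) := by
  classical
  have hN0 : 0 < q ^ K := pow_pos hq.out.pos K
  obtain ⟨s, hs⟩ : ∃ s, s = (Finset.univ : Finset (Σ j, Fin (n j + 2))).filter
    (fun x => m x.1 ∣ q ^ K ∧ ent (q ^ K) (b x.1) x.2 ≠ 0) := ⟨_, rfl⟩
  have hent : entries b (q ^ K) = s.val.map fun x => ent (q ^ K) (b x.1) x.2 := by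
    rw [hs]
    unfold entries
    congr
  have hval : ∀ t : (ZMod (q ^ K))ˣ, 2 * ∑ x ∈ s, ((t : ZMod (q ^ K)) *
      ent (q ^ K) (b x.1) x.2).val = q ^ K * s.card := by
    intro t
    have h1 := part_eq b (q ^ K) t
    rw [h0 t, mul_zero] at h1
    have h2 : ∑ x ∈ s, saw ((t : ZMod (q ^ K)) * ent (q ^ K) (b x.1) x.2) = 0 := by
      rw [hs]
      have := h1.symm
      rw [neg_eq_zero] at this
      convert this
    have h3 : ∀ x ∈ s, saw ((t : ZMod (q ^ K)) * ent (q ^ K) (b x.1) x.2) =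
        2 * (((t : ZMod (q ^ K)) * ent (q ^ K) (b x.1) x.2).val : ℤ) - ((q ^ K : ℕ) : ℤ) := by
      intro x hx
      rw [hs] at hx
      have h4 := (mem_filter.1 hx).2.2
      have h5 : (t : ZMod (q ^ K)) * ent (q ^ K) (b x.1) x.2 ≠ 0 := by simpa using h4
      unfold saw
      rw [if_neg h5]
    rw [sum_congr rfl h3, sum_sub_distrib, ← mul_sum, sum_const, nsmul_eq_mul] at h2
    have h6 : ((2 * ∑ x ∈ s, ((t : ZMod (q ^ K)) * ent (q ^ K) (b x.1) x.2).val : ℕ) : ℤ) =
        ((q ^ K * s.card : ℕ) : ℤ) := by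
      push_cast at h2 ⊢
      linarith
    exact_mod_cast h6
  have hsum : ∑ x ∈ s, ent (q ^ K) (b x.1) x.2 = 0 := by
    have h1 : ∑ x ∈ s, ent (q ^ K) (b x.1) x.2 =
        ∑ x : Σ j, Fin (n j + 2), if m x.1 ∣ q ^ K then ent (q ^ K) (b x.1) x.2 else 0 := by
      rw [hs, sum_filter]
      refine sum_congr rfl fun x _ => ?_
      by_cases h : m x.1 ∣ q ^ K
      · by_cases h0 : ent (q ^ K) (b x.1) x.2 = 0
        · rw [if_neg (fun h' => h'.2 h0), if_pos h, h0]
        · rw [if_pos ⟨h, h0⟩, if_pos h]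
      · rw [if_neg (fun h' => h h'.1), if_neg h]
    rw [h1, Fintype.sum_sigma]
    refine sum_eq_zero fun j _ => ?_
    by_cases h : m j ∣ q ^ K
    · simp only [h, if_true]
      exact sum_ent h (b j)
    · simp only [h, if_false]
      simp
  have hcard : Multiset.card (entries b (q ^ K)) = s.card := by
    rw [hent, Multiset.card_map]
    rfl
  refine ⟨?_, ?_, ?_, ?_⟩
  · rw [hent, Multiset.mem_map]
    rintro ⟨x, hx, hx0⟩
    rw [hs] at hx
    exact (mem_filter.1 hx).2.2 hx0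
  · rw [hcard]
    have h1 := hval 1
    have h2 : q ^ K ∣ ∑ x ∈ s, (((1 : (ZMod (q ^ K))ˣ) : ZMod (q ^ K)) *
        ent (q ^ K) (b x.1) x.2).val := by
      rw [← ZMod.natCast_eq_zero_iff, Nat.cast_sum]
      refine Eq.trans (sum_congr rfl fun x _ => ?_) hsum
      rw [ZMod.natCast_zmod_val, Units.val_one, one_mul]
    obtain ⟨c, hc⟩ := h2
    rw [hc] at h1
    refine ⟨c, ?_⟩
    have h3 : q ^ K * (c + c) = q ^ K * s.card := by rw [← h1]; ring
    exact (Nat.eq_of_mul_eq_mul_left hN0 h3).symm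
  · rw [hent]
    exact hsum
  · intro t
    rw [hcard, ← hval t, hent, Multiset.map_map]
    rfl

theorem generated' (b : ∀ j, Label (m j) (n j)) {q K : ℕ} (hq : q.Prime)
    (h0 : ∀ t, part b (q ^ K) t = 0) (hne : entries b (q ^ K) ≠ 0) :
    Generated (q ^ K) (SurfaceCharacter (q ^ K)) (entries b (q ^ K)) := by
  have _ : Fact q.Prime := ⟨hq⟩
  exact Pool.Agent.H916R2.Families.main (q ^ K) (pow_pos hq.pos K)
    (Or.inr (Or.inr (Or.inl ⟨q, K, hq, Or.inl rfl⟩))) _ (isHodge_entries b h0) hne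

/-- **Main theorem, second part.** -/
theorem generated {ψ : (∀ j, Label (m j) (n j)) → ℂ} (hψ : IsHodgeClass m n ψ)
    (b : ∀ j, Label (m j) (n j)) (hb : ψ b ≠ 0) {q K : ℕ} (hq : q.Prime)
    (hm : ∀ j, q ∣ m j → m j ∣ q ^ K) (hne : entries b (q ^ K) ≠ 0) :
    Generated (q ^ K) (SurfaceCharacter (q ^ K)) (entries b (q ^ K)) := by
  have _ : Fact q.Prime := ⟨hq⟩
  have hPP : PP m q K := by
    intro j
    by_cases h : q ∣ m j
    · exact Or.inl (hm j h)
    · exact Or.inr ((Nat.Prime.coprime_iff_not_dvd hq).2 h).symm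
  exact generated' b hq (part_zero hψ b hb hPP) hne

/-- A class all whose coefficients are of type zero is a sum of products. -/
theorem mem_productSpan {v : ℕ} {H : Coh v} {φ : (∀ j, Label (m j) (n j)) → Fin v → ℂ}
    (hφ : IsHodgeClassTimes m n H φ) (h0 : ∀ b, φ b ≠ 0 → ∑ j, hodge (b j) = 0) :
    φ ∈ productSpan m n H := by
  obtain ⟨r, u, l, hu, hl⟩ := exists_coord H
  have hz : ∀ b, H.z *ᵥ φ b = 0 := by
    intro b
    by_cases hb : φ b = 0
    · rw [hb, Matrix.mulVec_zero]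
    · rw [hφ.2 b, h0 b hb, Int.cast_zero, zero_smul, neg_zero]
  have hC : ∀ b, φ b ∈ CZ H := by
    intro b σ
    rw [hφ.1 σ b]
    exact hz _
  have h1 : φ = ∑ i, fun b x => ((u i x : ℚ) : ℂ) * ∑ k, ((l i k : ℚ) : ℂ) * φ b k := by
    funext b x
    have h2 := congrFun (hl (φ b) (hC b)) x
    rw [h2]
    simp only [Finset.sum_apply, Pi.smul_apply, smul_eq_mul, cv]
    refine sum_congr rfl fun i _ => ?_
    rw [mul_comm]
  rw [h1]
  refine Submodule.sum_mem _ fun i _ => Submodule.subset_span ?_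
  have hψ : IsHodgeClass m n (fun b => ∑ k, ((l i k : ℚ) : ℂ) * φ b k) := ?_
  · exact ⟨u i, fun b => ∑ k, ((l i k : ℚ) : ℂ) * φ b k, hu i, hψ,
      fun b hb q K hq hm hne => generated hψ b hb hq hm hne, rfl⟩
  refine ⟨?_, ?_⟩
  · intro σ b
    rw [map_sum]
    refine sum_congr rfl fun k _ => ?_
    rw [map_mul, map_ratCast]
    congr 1
    exact congrFun (hφ.1 σ b) k
  · intro b hb
    apply h0
    intro h2
    apply hb
    refine sum_eq_zero fun k _ => ?_
    rw [h2, Pi.zero_apply, mul_zero]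

/-- **Main theorem, first part.** -/
theorem times_main (ε : ℝ) (hε : 0 < ε) : ∃ C : ℝ, 0 < C ∧
    ∀ (B D v : ℕ) (H : Coh v), (∀ k, betti H k ≤ B) → IsLevel H D →
    ∀ (J : Type) [Fintype J] (m n : J → ℕ) [∀ j, NeZero (m j)],
      (∀ j, ∃ p k : ℕ, p.Prime ∧ 1 ≤ k ∧ m j = p ^ k ∧ C * ((B : ℝ) * D ^ 2) ^ (1 + ε) < p) →
      ∀ φ : (∀ j, Label (m j) (n j)) → Fin v → ℂ, IsHodgeClassTimes m n H φ →
        φ ∈ productSpan m n H := by
  have h1ε : 0 < 1 + ε := by linarith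
  have hε' : 0 < ε / (2 * (1 + ε)) := by positivity
  have hε2 : ε / (2 * (1 + ε)) ≤ 1 / 2 := by
    rw [div_le_div_iff₀ (by positivity) (by norm_num)]
    linarith
  obtain ⟨c, hc, hcore⟩ := core hε' hε2
  have hexp : 1 - 2 * (ε / (2 * (1 + ε))) = 1 / (1 + ε) := by
    field_simp
    ring
  refine ⟨(1 / c) ^ (1 + ε), by positivity, ?_⟩
  intro B D v H hB hD J _ m n _ hm φ hφ
  choose p k hp hk hmp hlarge using hm
  refine mem_productSpan hφ fun b hb => ?_
  refine sum_hodge b p k hp hk hmp fun q K hq hj hPP => ?_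
  obtain ⟨j, rfl⟩ := hj
  have _ : Fact (p j).Prime := ⟨hp j⟩
  refine vanish hcore hB hD hPP ?_ hφ b hb 1
  have h1 := hlarge j
  have hX : (0 : ℝ) ≤ (B : ℝ) * D ^ 2 := by positivity
  rw [← Real.mul_rpow (by positivity) hX] at h1
  have h2 := Real.rpow_lt_rpow (by positivity) h1 (show (0 : ℝ) < 1 / (1 + ε) by positivity)
  rw [← Real.rpow_mul (by positivity), mul_one_div_cancel h1ε.ne', Real.rpow_one, ← hexp] at h2
  have h3 : (B : ℝ) * D ^ 2 = c * (1 / c * ((B : ℝ) * D ^ 2)) := by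
    field_simp
  rw [h3]
  exact mul_lt_mul_of_pos_left h2 hc

end Run7.h306.HF
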