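import Pool.Agent.Run7.h306.AHDefs
import Pool.Agent.Run7.h306.HF10

/-!
# Absolute Hodge classes on the products with Fermat varieties
-/

set_option autoImplicit false

namespace Run7.h306.AH

open Finset Matrix Pool.Agent.TH131.GHC Pool.Agent.TH504.VY Pool.Agent.Y1.HZ Run7.h306.HF

variable {J : Type} [Fintype J] {m n : J → ℕ} [∀ j, NeZero (m j)]

theorem times_zero {v : ℕ} (H : Coh v) : IsHodgeClassTimes m n H 0 := by
  refine ⟨fun σ b => (Rational m n v).zero_mem σ b, fun b => ?_⟩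
  rw [Pi.zero_apply, Matrix.mulVec_zero, smul_zero, neg_zero]

theorem times_add {v : ℕ} {H : Coh v} {φ ψ : (∀ j, Label (m j) (n j)) → Fin v → ℂ}
    (hφ : IsHodgeClassTimes m n H φ) (hψ : IsHodgeClassTimes m n H ψ) :
    IsHodgeClassTimes m n H (φ + ψ) := by
  refine ⟨fun σ b => (Rational m n v).add_mem (x := φ) (y := ψ) hφ.1 hψ.1 σ b, fun b => ?_⟩
  rw [Pi.add_apply, Matrix.mulVec_add, hφ.2 b, hψ.2 b, smul_add, neg_add]

theorem times_smul {v : ℕ} {H : Coh v} (r : ℚ) {φ : (∀ j, Label (m j) (n j)) → Fin v → ℂ}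
    (hφ : IsHodgeClassTimes m n H φ) : IsHodgeClassTimes m n H (r • φ) := by
  refine ⟨fun σ b => (Rational m n v).smul_mem r (x := φ) hφ.1 σ b, fun b => ?_⟩
  have h1 : (r • φ) b = (r : ℂ) • φ b := by
    funext i
    simp only [Pi.smul_apply, Rat.smul_def, smul_eq_mul]
  rw [h1, Matrix.mulVec_smul, hφ.2 b, smul_neg, smul_comm]

theorem cross_times {v : ℕ} {H : Coh v} {x : Fin v → ℚ} {ψ : (∀ j, Label (m j) (n j)) → ℂ}
    (hx : IsHodgeOn H x) (hψ : IsHodgeClass m n ψ) :
    IsHodgeClassTimes m n H (cross m n x ψ) := by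
  refine ⟨fun σ b => ?_, fun b => ?_⟩
  · funext i
    change σ ((x i : ℂ) * ψ b) = (x i : ℂ) * ψ _
    rw [map_mul, map_ratCast, hψ.1 σ b]
  · have h1 : cross m n x ψ b = ψ b • cv x := by
      funext i
      change (x i : ℂ) * ψ b = ψ b * (x i : ℂ)
      rw [mul_comm]
    have hx' : H.z *ᵥ cv x = 0 := hx
    rw [h1, Matrix.mulVec_smul, hx', smul_zero]
    by_cases hb : ψ b = 0
    · rw [hb, zero_smul, smul_zero, neg_zero]
    · rw [hψ.2 b hb, Int.cast_zero, zero_smul, neg_zero]

theorem twist_eq_unit (u : ∀ j, (ZMod (m j))ˣ) (b : ∀ j, Label (m j) (n j)) :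
    (fun j => twist (u j) (b j)) = unit m n ↔ b = unit m n := by
  constructor
  · intro h
    funext j
    have h1 := congrFun h j
    change twist (u j) (b j) = Sum.inl 0 at h1
    change b j = Sum.inl 0
    rcases hb : b j with i | a
    · rw [hb] at h1
      exact h1
    · rw [hb] at h1
      cases h1
  · rintro rfl
    rfl

open Classical in
/-- The class `1` on `V`. -/
noncomputable def oneClass (m n : J → ℕ) [∀ j, NeZero (m j)] : (∀ j, Label (m j) (n j)) → ℂ :=
  fun b => if b = unit m n then 1 else 0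

theorem oneClass_hodge : IsHodgeClass m n (oneClass m n) := by
  classical
  refine ⟨fun σ b => ?_, fun b hb => ?_⟩
  · unfold oneClass
    by_cases h : b = unit m n
    · rw [if_pos h, if_pos ((twist_eq_unit _ b).2 h), map_one]
    · rw [if_neg h, if_neg (fun h' => h ((twist_eq_unit _ b).1 h')), map_zero]
  · unfold oneClass at hb
    by_cases h : b = unit m n
    · subst h
      exact sum_eq_zero fun j _ => rfl
    · rw [if_neg h] at hb
      exact absurd rfl hb

theorem cross_one_unit {v : ℕ} (x : Fin v → ℚ) : cross m n x (oneClass m n) (unit m n) = cv x := by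
  classical
  funext i
  change (x i : ℂ) * oneClass m n (unit m n) = (x i : ℂ)
  unfold oneClass
  rw [if_pos rfl, mul_one]

/-- The fibre over a point. -/
theorem exists_fibre {v : ℕ} {H : Coh v} {φ : (∀ j, Label (m j) (n j)) → Fin v → ℂ}
    (hφ : IsHodgeClassTimes m n H φ) :
    ∃ x : Fin v → ℚ, φ (unit m n) = cv x ∧ IsHodgeOn H x := by
  have h1 : ∀ i, ∃ q : ℚ, φ (unit m n) i = q := by
    intro i
    by_contra hq
    push Not at hq
    obtain ⟨σ, hσ⟩ := Pool.Agent.W437.HD.exists_move hq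
    exact hσ (congrFun (hφ.1 σ (unit m n)) i)
  choose x hx using h1
  have h2 : φ (unit m n) = cv x := funext hx
  refine ⟨x, h2, ?_⟩
  have h3 := hφ.2 (unit m n)
  have h4 : ∑ j, hodge (unit m n j) = 0 := sum_eq_zero fun j _ => rfl
  rw [h4, Int.cast_zero, zero_smul, neg_zero, h2] at h3
  exact h3

/-- The class with given coefficients. -/
def mkClass {v : ℕ} (φ : (∀ j, Label (m j) (n j)) → Fin v → ℂ) (h : φ ∈ Rational m n v) :
    Classes m n v := ⟨φ, h⟩

theorem mkClass_coeff {v : ℕ} (φ : (∀ j, Label (m j) (n j)) → Fin v → ℂ)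
    (h : φ ∈ Rational m n v) : (mkClass φ h).coeff = φ := rfl

/-- A class in the span of the products has the same components as a Hodge class on the other
variety, if this is so for the Hodge classes on `Z`. -/
theorem exists_same {v v' : ℕ} {H : Coh v} {H' : Coh v'} {L : Components}
    {c₀ : Comparison m n L v} {c : Comparison m n L v'} (same : SameCycles m n c₀ c)
    (hZ : ∀ x : Fin v → ℚ, IsHodgeOn H x → ∃ x', IsHodgeOn H' x' ∧ c.onZ x' = c₀.onZ x)
    (φ : (∀ j, Label (m j) (n j)) → Fin v → ℂ) (hφ : φ ∈ productSpan m n H) :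
    ∃ (h : φ ∈ Rational m n v) (φ' : Classes m n v'), IsHodgeClassTimes m n H' φ'.coeff ∧
      c.onTimes φ' = c₀.onTimes (mkClass φ h) := by
  unfold productSpan at hφ
  induction hφ using Submodule.span_induction with
  | zero =>
    refine ⟨Submodule.zero_mem _, 0, times_zero H', ?_⟩
    exact (map_zero c.cV).trans (map_zero c₀.cV).symm
  | add φ ψ _ _ hφ hψ =>
    obtain ⟨h1, φ', h2, h3⟩ := hφ
    obtain ⟨h4, ψ', h5, h6⟩ := hψ
    refine ⟨Submodule.add_mem _ h1 h4, φ' + ψ', times_add h2 h5, ?_⟩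
    refine (map_add c.cV φ' ψ').trans ?_
    refine (congrArg₂ (· + ·) h3 h6).trans ?_
    exact (map_add c₀.cV (mkClass φ h1) (mkClass ψ h4)).symm
  | smul r φ _ hφ =>
    obtain ⟨h1, φ', h2, h3⟩ := hφ
    refine ⟨Submodule.smul_mem _ r h1, r • φ', times_smul r h2, ?_⟩
    refine (map_smul c.cV r φ').trans ?_
    refine (congrArg (r • ·) h3).trans ?_
    exact (map_smul c₀.cV r (mkClass φ h1)).symm
  | mem φ hφ =>
    obtain ⟨x, ψ, hx, hψ, hgen, rfl⟩ := hφ
    obtain ⟨x', hx', hc⟩ := hZ x hx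
    obtain ⟨ψ', hψ', hsame⟩ := same ψ hψ hgen
    have h1 := cross_times hx hψ
    have h2 := cross_times (H := H') hx' hψ'
    exact ⟨h1.1, mkClass _ h2.1, h2, (hsame x x' hc.symm _ _ rfl rfl).symm⟩

/-- **All Hodge classes on `Z × V` are absolute if and only if all Hodge classes on `Z` are.** -/
theorem absolute_iff {v : ℕ} {H : Coh v} (h : HodgeClassesAreProducts m n H)
    (C : Conjugates m n v) : C.AbsoluteTimes H ↔ C.Absolute H := by
  constructor
  · intro h1 x hx
    refine ⟨hx, fun σ => ?_⟩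
    have h2 := cross_times hx oneClass_hodge (m := m) (n := n)
    obtain ⟨φ', hφ', hrel⟩ := (h1 (mkClass _ h2.1) h2).2 σ
    obtain ⟨x', hx1, hx2⟩ := exists_fibre hφ'
    refine ⟨x', hx2, ?_⟩
    rw [← (C.c σ).res φ' x' hx1, hrel]
    exact (C.c₀ σ).res _ x (cross_one_unit x)
  · intro h1 φ hφ
    refine ⟨hφ, fun σ => ?_⟩
    obtain ⟨_, φ', h2, h3⟩ := exists_same (C.same σ) (fun x hx => (h1 x hx).2 σ) φ.coeff
      (h φ.coeff hφ)
    exact ⟨φ', h2, h3⟩

/-- The theorem for Fermat varieties of large prime power degrees. -/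
theorem main (ε : ℝ) (hε : 0 < ε) : ∃ C₀ : ℝ, 0 < C₀ ∧
    ∀ (B D v : ℕ) (H : Coh v) (J : Type) [Fintype J] (m n : J → ℕ) [∀ j, NeZero (m j)],
      IsBounded H B D → AreLargePrimePowers C₀ ε B D m →
        HodgeClassesAreProducts m n H ∧
          ∀ C : Conjugates m n v, C.AbsoluteTimes H ↔ C.Absolute H := by
  obtain ⟨C₀, hC₀, hmain⟩ := times_main ε hε
  refine ⟨C₀, hC₀, ?_⟩
  intro B D v H J _ m n _ hH hm
  have h1 : HodgeClassesAreProducts m n H := hmain B D v H hH.1 hH.2 J m n hm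
  exact ⟨h1, fun C => absolute_iff h1 C⟩

end Run7.h306.AH
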