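import Pool.Agent.Run7.h306.HFDefs

/-!
# Absolute Hodge classes on the products with Fermat varieties: definitions

`V` is the product of the complex Fermat varieties of degrees `m j` and dimensions `n j`, and `Z` is a
smooth projective complex variety with the cohomology `H : Coh v`. A class in the complex cohomology of
`Z × V` is given by its coefficients in the basis (`Label`) of the cohomology of `V`, which are elements
of the complex cohomology of `Z`. (All twists by powers of `2 π i` are suppressed.)
-/

set_option autoImplicit false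

namespace Run7.h306.AH

open Matrix Pool.Agent.TH131.GHC Pool.Agent.TH504.VY Pool.Agent.Y1.HZ Run7.h306.HF

noncomputable section

variable {J : Type} [Fintype J] (m n : J → ℕ) [∀ j, NeZero (m j)]

/-- `φ` is a rational class on `Z × V`, for a variety `Z` with the rational cohomology `ℚ ^ v`: the
automorphisms `σ` of `ℂ` operate on the basis of the complex cohomology of `V` through their operation
on the roots of unity. -/
def IsRational {v : ℕ} (φ : (∀ j, Label (m j) (n j)) → Fin v → ℂ) : Prop :=
  ∀ (σ : ℂ ≃+* ℂ) b, (fun i => σ (φ b i)) = φ fun j => twist (cyc (m j) σ) (b j)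

variable {m n} in
theorem IsRational.add {v : ℕ} {φ ψ : (∀ j, Label (m j) (n j)) → Fin v → ℂ}
    (hφ : IsRational m n φ) (hψ : IsRational m n ψ) : IsRational m n (φ + ψ) := by
  intro σ b
  funext i
  have h1 := congrFun (hφ σ b) i
  have h2 := congrFun (hψ σ b) i
  simp only [Pi.add_apply, map_add] at h1 h2 ⊢
  rw [h1, h2]

theorem IsRational.zero (v : ℕ) :
    IsRational m n (0 : (∀ j, Label (m j) (n j)) → Fin v → ℂ) := by
  intro σ b
  funext i
  exact map_zero σ

variable {m n} in
theorem IsRational.smul {v : ℕ} (r : ℚ) {φ : (∀ j, Label (m j) (n j)) → Fin v → ℂ}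
    (hφ : IsRational m n φ) : IsRational m n (r • φ) := by
  intro σ b
  funext i
  have h1 := congrFun (hφ σ b) i
  simp only [Pi.smul_apply, Rat.smul_def, map_mul, map_ratCast] at h1 ⊢
  rw [h1]

/-- The rational classes on `Z × V`, as a subspace of the complex cohomology. -/
def Rational (v : ℕ) : Submodule ℚ ((∀ j, Label (m j) (n j)) → Fin v → ℂ) where
  carrier := {φ | IsRational m n φ}
  add_mem' := fun h1 h2 => IsRational.add h1 h2
  zero_mem' := IsRational.zero m n v
  smul_mem' := fun r _ h => IsRational.smul r h

/-- The rational cohomology of `Z × V`. -/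
def Classes (v : ℕ) : Type := Rational m n v

instance instGroup (v : ℕ) : AddCommGroup (Classes m n v) :=
  Submodule.addCommGroup (Rational m n v)

instance instModule (v : ℕ) : Module ℚ (Classes m n v) :=
  Submodule.module (Rational m n v)

variable {m n} in
/-- The coefficients of a rational class. -/
def Classes.coeff {v : ℕ} (φ : Classes m n v) : (∀ j, Label (m j) (n j)) → Fin v → ℂ :=
  Subtype.val (p := fun φ => φ ∈ Rational m n v) φ

/-- The element `1` of the basis of the cohomology of `V`. -/
def unit : ∀ j, Label (m j) (n j) := fun _ => Sum.inl 0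

/-- The product `x × ψ` of a class on `Z` and a class on `V`. -/
def cross {v : ℕ} (x : Fin v → ℚ) (ψ : (∀ j, Label (m j) (n j)) → ℂ) :
    (∀ j, Label (m j) (n j)) → Fin v → ℂ :=
  fun b i => (x i : ℂ) * ψ b

/-- Another cohomology of `Z` and `Z × V`: for instance the algebraic de Rham cohomology, the étale
cohomology, their product, or the `ℓ`-adic cohomology, as rational vector spaces, and the restriction
`res` to the fibre over a point of `V`. -/
structure Components where
  LZ : Type
  LV : Type
  [grpLZ : AddCommGroup LZ]
  [modLZ : Module ℚ LZ]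
  [grpLV : AddCommGroup LV]
  [modLV : Module ℚ LV]
  res : LV → LZ

attribute [instance] Components.grpLZ Components.modLZ Components.grpLV Components.modLV

/-- The maps which send the rational classes on `Z` and on `Z × V` to their components. -/
structure ComparisonMaps (L : Components) (v : ℕ) where
  cZ : (Fin v → ℚ) →ₗ[ℚ] L.LZ
  cV : Classes m n v →ₗ[ℚ] L.LV

variable {m n} in
/-- The components of a class on `Z`. -/
def ComparisonMaps.onZ {L : Components} {v : ℕ} (c : ComparisonMaps m n L v) (x : Fin v → ℚ) :
    L.LZ :=
  c.cZ x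

variable {m n} in
/-- The components of a class on `Z × V`. -/
def ComparisonMaps.onTimes {L : Components} {v : ℕ} (c : ComparisonMaps m n L v)
    (φ : Classes m n v) : L.LV :=
  c.cV φ

/-- The maps which send the rational classes on `Z` and on `Z × V` to their components; they are
compatible with the restriction to the fibre over a point of `V`. -/
structure Comparison (L : Components) (v : ℕ) extends ComparisonMaps m n L v where
  res : ∀ (φ : Classes m n v) (x : Fin v → ℚ), φ.coeff (unit m n) = cv x →
    L.res (toComparisonMaps.onTimes φ) = toComparisonMaps.onZ x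

variable {m n} in
/-- The Hodge classes `ψ` and `ψ'` on `V` (and on the conjugate of `V`) correspond to each other: `x × ψ`
and `x' × ψ'` have the same components whenever `x` and `x'` have. -/
def AreSame {L : Components} {v v' : ℕ} (c : Comparison m n L v) (c' : Comparison m n L v')
    (ψ ψ' : (∀ j, Label (m j) (n j)) → ℂ) : Prop :=
  ∀ (x : Fin v → ℚ) (x' : Fin v' → ℚ), c.onZ x = c'.onZ x' →
    ∀ (φ : Classes m n v) (φ' : Classes m n v'), φ.coeff = cross m n x ψ →
      φ'.coeff = cross m n x' ψ' → c.onTimes φ = c'.onTimes φ'

/-- For a rational class `ψ` on `V` all whose components are in lines which consist of algebraic classes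
by `IsGenerated` there is a Hodge class `ψ'` on the (conjugate) variety `V` (the class of the same
cycle, or of the conjugate cycle) which corresponds to it (`AreSame`). -/
def SameCycles {L : Components} {v v' : ℕ} (c : Comparison m n L v) (c' : Comparison m n L v') :
    Prop :=
  ∀ ψ : (∀ j, Label (m j) (n j)) → ℂ, IsHodgeClass m n ψ → (∀ b, ψ b ≠ 0 → IsGenerated b) →
    ∃ ψ' : (∀ j, Label (m j) (n j)) → ℂ, IsHodgeClass m n ψ' ∧ AreSame c c' ψ ψ'

/-- The conjugates `Z^σ` of a variety `Z` with the rational cohomology `ℚ ^ v` for the elements `σ` of a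
set `S` (for instance the automorphisms of `ℂ`), with the cohomology `H σ`; another cohomology `L σ` of
`Z^σ` and `Z^σ × V`, the maps `c₀ σ` which send a rational class on `Z` or `Z × V` to the images under
`σ` of its components, and the maps `c σ` which send a rational class on `Z^σ` or `Z^σ × V` to its
components. (`V` is defined over `ℚ` and isomorphic to its conjugates.) -/
structure Conjugates (v : ℕ) where
  S : Type
  rank : S → ℕ
  H : ∀ σ, Coh (rank σ)
  L : S → Components
  c₀ : ∀ σ, Comparison m n (L σ) v
  c : ∀ σ, Comparison m n (L σ) (rank σ)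
  same : ∀ σ, SameCycles m n (c₀ σ) (c σ)

variable {m n}

/-- The class `x` on `Z` is an absolute Hodge class: it is a Hodge class, and for all `σ` there is a
Hodge class `x'` on `Z^σ` whose components are the images of those of `x` under `σ`. -/
def Conjugates.IsAbsolute {v : ℕ} (C : Conjugates m n v) (H : Coh v) (x : Fin v → ℚ) : Prop :=
  IsHodgeOn H x ∧ ∀ σ, ∃ x' : Fin (C.rank σ) → ℚ, IsHodgeOn (C.H σ) x' ∧
    (C.c σ).onZ x' = (C.c₀ σ).onZ x

/-- The class `φ` on `Z × V` is an absolute Hodge class: it is a Hodge class, and for all `σ` there is a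
Hodge class `φ'` on `Z^σ × V` whose components are the images of those of `φ` under `σ`. -/
def Conjugates.IsAbsoluteTimes {v : ℕ} (C : Conjugates m n v) (H : Coh v) (φ : Classes m n v) :
    Prop :=
  IsHodgeClassTimes m n H φ.coeff ∧ ∀ σ, ∃ φ' : Classes m n (C.rank σ),
    IsHodgeClassTimes m n (C.H σ) φ'.coeff ∧ (C.c σ).onTimes φ' = (C.c₀ σ).onTimes φ

/-- All Hodge classes on `Z` are absolute Hodge classes. -/
def Conjugates.Absolute {v : ℕ} (C : Conjugates m n v) (H : Coh v) : Prop :=
  ∀ x : Fin v → ℚ, IsHodgeOn H x → C.IsAbsolute H x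

/-- All Hodge classes on `Z × V` are absolute Hodge classes. -/
def Conjugates.AbsoluteTimes {v : ℕ} (C : Conjugates m n v) (H : Coh v) : Prop :=
  ∀ φ : Classes m n v, IsHodgeClassTimes m n H φ.coeff → C.IsAbsoluteTimes H φ

/-- All (rational) Hodge classes on `Z × V` are sums of products of Hodge classes on `Z` and Hodge
classes on `V` all whose components are in lines which consist of algebraic classes by
`IsGenerated`. -/
def HodgeClassesAreProducts (m n : J → ℕ) [∀ j, NeZero (m j)] {v : ℕ} (H : Coh v) : Prop :=
  ∀ φ : (∀ j, Label (m j) (n j)) → Fin v → ℂ, IsHodgeClassTimes m n H φ → φ ∈ productSpan m n H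

/-- The degrees `m j` are powers of prime numbers larger than `C (B D ^ 2) ^ (1 + ε)`. -/
def AreLargePrimePowers (C ε : ℝ) (B D : ℕ) (m : J → ℕ) : Prop :=
  ∀ j, ∃ p k : ℕ, p.Prime ∧ 1 ≤ k ∧ m j = p ^ k ∧ C * ((B : ℝ) * D ^ 2) ^ (1 + ε) < p

/-- The Betti numbers are at most `B` and the level is at most `D`. -/
def IsBounded {v : ℕ} (H : Coh v) (B D : ℕ) : Prop := (∀ k, betti H k ≤ B) ∧ IsLevel H D

end

end Run7.h306.AH
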