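import Pool.Agent.Run7.h306.Blk
import Pool.Agent.W57.SW.Smooth

set_option autoImplicit false

/-! The moment inequality with blocks of small primes: asymptotic form. -/

namespace Run7.h306

open Finset Real Pool.Agent.W57.SW

lemma exists_blocks (S : Finset ℕ) (r b : ℕ) (h : r * b ≤ S.card) :
    ∃ q : Fin r → Fin b → ℕ, (∀ i j, q i j ∈ S) ∧
      ∀ i j i' j', q i j = q i' j' → i = i' ∧ j = j' := by
  refine ⟨fun i j => S.orderEmbOfFin rfl (Fin.castLE h (finProdFinEquiv (i, j))), ?_, ?_⟩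
  · intro i j
    exact S.orderEmbOfFin_mem rfl _
  · intro i j i' j' he
    have h1 := (S.orderEmbOfFin rfl).injective he
    have h2 := Fin.castLE_injective h h1
    have h3 := finProdFinEquiv.injective h2
    exact ⟨congrArg Prod.fst h3, congrArg Prod.snd h3⟩

lemma card_primeFactors_le {Δ : ℕ} (hΔ : 0 < Δ) :
    (Δ.primeFactors.card : ℝ) * log 2 ≤ log Δ := by
  have h1 : 2 ^ Δ.primeFactors.card ≤ Δ := by
    calc 2 ^ Δ.primeFactors.card = ∏ _p ∈ Δ.primeFactors, 2 := by rw [prod_const]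
      _ ≤ ∏ p ∈ Δ.primeFactors, p :=
          prod_le_prod' fun p hp => (Nat.prime_of_mem_primeFactors hp).two_le
      _ ≤ Δ := Nat.le_of_dvd hΔ (Nat.prod_primeFactors_dvd Δ)
  rw [← log_pow]
  apply log_le_log (by positivity)
  exact_mod_cast h1

/-- the usable small primes -/
noncomputable def us (L : ℝ) (Δ : ℕ) : Finset ℕ :=
  (opr ⌊L ^ 2⌋₊).filter (fun ℓ => ⌈L⌉₊ ≤ ℓ ∧ ¬ ℓ ∣ Δ)

lemma us_card (η : ℝ) (hη : 0 < η) (hη1 : η ≤ 1 / 2) : ∃ L0 : ℝ, 3 ≤ L0 ∧ ∀ L : ℝ, L0 ≤ L →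
    ∀ Δ : ℕ, 0 < Δ → log Δ ≤ 10 * L → 2 * L ^ (2 - 2 * η) + L ≤ ((us L Δ).card : ℝ) := by
  have hev1 := ev_main 2 η (by norm_num) hη
  have hev2 : ∀ᶠ L : ℝ in Filter.atTop, 2 * L ^ (2 - 2 * η) + 20 * L + 3 ≤ L ^ (2 - η) := by
    have h1 : ∀ᶠ L : ℝ in Filter.atTop, 25 ≤ L ^ η :=
      (tendsto_rpow_atTop hη).eventually (Filter.eventually_ge_atTop _)
    filter_upwards [h1, Filter.eventually_ge_atTop 1] with L a1 a2
    have hL0 : 0 < L := by linarith
    have e1 : L ^ (2 - η) = L ^ (2 - 2 * η) * L ^ η := by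
      rw [← rpow_add hL0]; congr 1; ring
    have e2 : L ≤ L ^ (2 - 2 * η) := by
      nth_rewrite 1 [← rpow_one L]
      exact rpow_le_rpow_of_exponent_le a2 (by linarith)
    rw [e1]
    have e3 : L ^ (2 - 2 * η) * 25 ≤ L ^ (2 - 2 * η) * L ^ η :=
      mul_le_mul_of_nonneg_left a1 (by positivity)
    linarith
  obtain ⟨t0, ht0⟩ := Filter.eventually_atTop.mp (hev1.and hev2)
  refine ⟨max 3 t0, le_max_left _ _, fun L hL Δ hΔ hΔL => ?_⟩
  have hL3 : 3 ≤ L := (le_max_left _ _).trans hL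
  obtain ⟨h1, h2⟩ := ht0 L ((le_max_right _ _).trans hL)
  have hL0 : 0 < L := by linarith
  have hlogL : 0 < log L := log_pos (by linarith)
  obtain ⟨y, hy⟩ : ∃ y : ℕ, y = ⌊L ^ 2⌋₊ := ⟨_, rfl⟩
  have hyle : (y : ℝ) ≤ L ^ 2 := by rw [hy]; exact Nat.floor_le (by positivity)
  have hylt : L ^ 2 < y + 1 := by rw [hy]; exact Nat.lt_floor_add_one _
  have hy8 : (8 : ℝ) < y := by nlinarith
  have hy2 : 2 ≤ y := by
    have : (2 : ℝ) ≤ y := by linarith
    exact_mod_cast this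
  have hy0 : (0 : ℝ) < y := by linarith
  have hlogy : log y ≤ 2 * log L := by
    have := log_le_log hy0 hyle
    rwa [log_pow] at this
  have hlogy0 : 0 < log (y : ℝ) := log_pos (by linarith)
  have e2 : L ^ (2 : ℝ) = L ^ 2 := by norm_cast
  rw [e2] at h1
  have hpi : L ^ (2 - η) + L ≤ (Nat.primeCounting y : ℝ) := by
    have hlow := primeCounting_low (y := y)
    have h6 : (0.69 : ℝ) * (L ^ 2 - 1) ≤ y * log 2 := by
      have h7 : (0.69 : ℝ) ≤ log 2 := by linarith [log_two_gt_d9]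
      have h8 : L ^ 2 - 1 ≤ y := by linarith
      calc 0.69 * (L ^ 2 - 1) ≤ 0.69 * y := mul_le_mul_of_nonneg_left h8 (by norm_num)
        _ ≤ log 2 * y := mul_le_mul_of_nonneg_right h7 hy0.le
        _ = y * log 2 := mul_comm _ _
    have h9 : log ((y : ℝ) + 1) ≤ log (L ^ 2 + 1) := log_le_log (by positivity) (by linarith)
    have h10 : (L ^ (2 - η) + L) * (2 * log L) ≤ Nat.primeCounting y * log y := by nlinarith
    have h11 : (L ^ (2 - η) + L) * (2 * log L) ≤ Nat.primeCounting y * (2 * log L) := by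
      refine h10.trans ?_
      exact mul_le_mul_of_nonneg_left hlogy (Nat.cast_nonneg _)
    exact le_of_mul_le_mul_right h11 (by positivity)
  have hcov : opr y ⊆ us L Δ ∪ (range ⌈L⌉₊ ∪ Δ.primeFactors) := by
    intro ℓ hℓ
    rw [mem_union, mem_union]
    by_cases hc : ⌈L⌉₊ ≤ ℓ ∧ ¬ ℓ ∣ Δ
    · left
      rw [us, mem_filter, ← hy]
      exact ⟨hℓ, hc⟩
    · right
      by_cases hc1 : ⌈L⌉₊ ≤ ℓ
      · right
        rw [Nat.mem_primeFactors]
        refine ⟨(mem_opr.mp hℓ).1, ?_, by omega⟩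
        by_contra hc2
        exact hc ⟨hc1, hc2⟩
      · left
        rw [mem_range]; omega
  have h3 := (card_le_card hcov).trans ((card_union_le _ _).trans
    (Nat.add_le_add_left (card_union_le _ _) _))
  rw [card_range] at h3
  have h4 : ((opr y).card : ℝ) ≤ (us L Δ).card + (⌈L⌉₊ + Δ.primeFactors.card) := by
    exact_mod_cast h3
  rw [card_opr hy2] at h4
  have h5 : (⌈L⌉₊ : ℝ) < L + 1 := Nat.ceil_lt_add_one hL0.le
  have h6 : (Δ.primeFactors.card : ℝ) ≤ 15 * L := by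
    have h7 := card_primeFactors_le hΔ
    have h8 := log_two_gt_d9
    have h9 : (Δ.primeFactors.card : ℝ) * (2 / 3) ≤ Δ.primeFactors.card * log 2 :=
      mul_le_mul_of_nonneg_left (by linarith) (Nat.cast_nonneg _)
    linarith
  linarith

/-- The asymptotic form of the moment inequality. -/
theorem block_asym (ε : ℝ) (hε : 0 < ε) (hε1 : ε ≤ 1 / 2) : ∃ L0 : ℝ, 3 ≤ L0 ∧ ∀ L : ℝ, L0 ≤ L →
    ∀ Δ : ℕ, 0 < Δ → log Δ ≤ 10 * L → ∀ χ : ℕ → ℕ → ℤ, (∀ ℓ k, |χ ℓ k| ≤ 1) →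
    (∀ ℓ ∈ opr ⌊L ^ 2⌋₊, ¬ ℓ ∣ Δ → Function.Periodic (χ ℓ) ℓ ∧ |∑ k ∈ range ℓ, χ ℓ k| ≤ 1) →
    ∀ e : ℕ → ℤ, (∀ ℓ, e ℓ = 1 ∨ e ℓ = -1) → ∀ K : ℕ, 1 ≤ K → log K ≤ 2 * L →
    ∀ T : Finset ℕ, T ⊆ range K →
    (∀ k ∈ T, ∀ ℓ ∈ opr ⌊L ^ 2⌋₊, ¬ ℓ ∣ Δ → χ ℓ k = e ℓ) →
    (T.card : ℝ) ≤ 2 * L * (K : ℝ) ^ (4 / 5 + ε) := by
  obtain ⟨L0, hL03, hL0⟩ := us_card ε hε hε1
  refine ⟨L0, hL03, ?_⟩
  intro L hL Δ hΔ hΔL χ hχ hχ2 e he K hK hKL T hTK hT
  have hL3 : 3 ≤ L := hL03.trans hL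
  have hLpos : 0 < L := by linarith
  have hlogL : 0 < log L := log_pos (by linarith)
  have hcard := hL0 L hL Δ hΔ hΔL
  obtain ⟨S, hS⟩ : ∃ S, S = us L Δ := ⟨_, rfl⟩
  obtain ⟨y, hy⟩ : ∃ y : ℕ, y = ⌊L ^ 2⌋₊ := ⟨_, rfl⟩
  rw [← hS] at hcard
  rw [← hy] at hχ2 hT
  have hSm : ∀ ℓ ∈ S, ℓ ∈ opr y ∧ ⌈L⌉₊ ≤ ℓ ∧ ¬ ℓ ∣ Δ := by
    intro ℓ hℓ
    rw [hS, us, mem_filter, ← hy] at hℓ
    exact hℓ
  have hyle : (y : ℝ) ≤ L ^ 2 := by rw [hy]; exact Nat.floor_le (by positivity)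
  have hylt : L ^ 2 < y + 1 := by rw [hy]; exact Nat.lt_floor_add_one _
  have hy8 : (8 : ℝ) < y := by nlinarith
  have hy0 : (0 : ℝ) < y := by linarith
  have hlogy : log y ≤ 2 * log L := by
    have := log_le_log hy0 hyle
    rwa [log_pow] at this
  have hlogy1 : 1 ≤ log (y : ℝ) := by
    rw [le_log_iff_exp_le hy0]; linarith [exp_one_lt_d9]
  have hK0 : (0 : ℝ) < K := by exact_mod_cast hK
  have hK1 : (1 : ℝ) ≤ K := by exact_mod_cast hK
  have hlogK : 0 ≤ log (K : ℝ) := log_nonneg hK1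
  have hTc : (T.card : ℝ) ≤ K := by
    have := card_le_card hTK
    rw [card_range] at this
    exact_mod_cast this
  obtain ⟨r, hr⟩ : ∃ r : ℕ, r = ⌊2 / 5 * log K / log y⌋₊ := ⟨_, rfl⟩
  have hr1 : (r : ℝ) ≤ 2 / 5 * log K / log y := by rw [hr]; exact Nat.floor_le (by positivity)
  have hr2 : 2 / 5 * log K / log y < r + 1 := by rw [hr]; exact Nat.lt_floor_add_one _
  have hr1' : r * log y ≤ 2 / 5 * log K := by rwa [le_div_iff₀ (by linarith)] at hr1
  have hr2' : 2 / 5 * log K < (r + 1) * log y := by rwa [div_lt_iff₀ (by linarith)] at hr2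
  have hexp : ∀ t : ℝ, (K : ℝ) ^ t = exp (t * log K) := by
    intro t
    rw [rpow_def_of_pos hK0, mul_comm]
  have hLexp : L = exp (log L) := (exp_log hLpos).symm
  rcases Nat.eq_zero_or_pos r with h0 | h0
  · rw [h0, Nat.cast_zero, zero_add, one_mul] at hr2'
    have h1 : log (K : ℝ) ≤ 5 * log L := by linarith
    have h2 : (K : ℝ) ≤ L * (K : ℝ) ^ (4 / 5 + ε) := by
      rw [hexp]
      nth_rewrite 1 [← exp_log hK0]
      nth_rewrite 1 [hLexp]
      rw [← exp_add]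
      apply exp_le_exp.mpr
      have : 0 ≤ ε * log (K : ℝ) := by positivity
      linarith
    have h3 : 0 ≤ L * (K : ℝ) ^ (4 / 5 + ε) := by positivity
    linarith
  · obtain ⟨b, hb⟩ : ∃ b : ℕ, b = S.card / r := ⟨_, rfl⟩
    have hrb : r * b ≤ S.card := by rw [hb]; exact Nat.mul_div_le _ _
    have hrL : (r : ℝ) ≤ L := by
      have h1 : (r : ℝ) * 1 ≤ r * log y := mul_le_mul_of_nonneg_left hlogy1 (Nat.cast_nonneg _)
      linarith
    have hr0 : (0 : ℝ) < r := by exact_mod_cast h0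
    have hblow : 2 * L ^ (1 - 2 * ε) ≤ (b : ℝ) := by
      have h1 : S.card < r * (b + 1) := by
        rw [hb, mul_comm]; exact Nat.lt_mul_of_div_lt (Nat.lt_succ_self _) h0
      have h2 : (S.card : ℝ) < r * (b + 1) := by exact_mod_cast h1
      have h3 : (r : ℝ) * (b + 1) ≤ L * (b + 1) := mul_le_mul_of_nonneg_right hrL (by positivity)
      have h4 : L ^ (2 - 2 * ε) = L * L ^ (1 - 2 * ε) := by
        nth_rewrite 2 [← rpow_one L]
        rw [← rpow_add hLpos]; congr 1; ring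
      rw [h4] at hcard
      have h5 : L * (2 * L ^ (1 - 2 * ε) + 1) ≤ L * (b + 1) := by linarith
      have h6 := le_of_mul_le_mul_left h5 hLpos
      linarith
    have hbpos : (0 : ℝ) < b := lt_of_lt_of_le (by positivity) hblow
    have hScard : S.card ≤ y := by
      have h1 : S ⊆ Icc 1 y := by
        intro ℓ hℓ
        have := mem_opr.mp (hSm ℓ hℓ).1
        rw [mem_Icc]
        exact ⟨this.1.one_lt.le, this.2.1⟩
      have := card_le_card h1
      rwa [Nat.card_Icc, Nat.add_sub_cancel] at this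
    have hby : b ≤ y := by
      have h1 : b ≤ r * b := Nat.le_mul_of_pos_left b h0
      omega
    have hceil : L ≤ (⌈L⌉₊ : ℝ) := Nat.le_ceil L
    have hbs : b ≤ ⌈L⌉₊ ^ 2 := by
      have h1 : (y : ℝ) ≤ ((⌈L⌉₊ ^ 2 : ℕ) : ℝ) := by
        push_cast
        calc (y : ℝ) ≤ L ^ 2 := hyle
          _ ≤ _ := pow_le_pow_left₀ hLpos.le hceil 2
      have h2 : y ≤ ⌈L⌉₊ ^ 2 := by exact_mod_cast h1
      omega
    have hs0 : 0 < ⌈L⌉₊ := Nat.ceil_pos.mpr hLpos
    obtain ⟨q, hq1, hq2⟩ := exists_blocks S r b hrb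
    have hmain := block_moment (q := q) (χ := χ)
      (fun i j => (mem_opr.mp (hSm _ (hq1 i j)).1).1) hq2
      (fun i j => (hχ2 _ (hSm _ (hq1 i j)).1 (hSm _ (hq1 i j)).2.2).1) hχ
      (fun i j => (hχ2 _ (hSm _ (hq1 i j)).1 (hSm _ (hq1 i j)).2.2).2) hs0
      (fun i j => (hSm _ (hq1 i j)).2.1) (fun i j => (mem_opr.mp (hSm _ (hq1 i j)).1).2.1)
      hbs K e he T hTK
      (fun k hk i j => hT k hk _ (hSm _ (hq1 i j)).1 (hSm _ (hq1 i j)).2.2)
    have hb2 : (0 : ℝ) < (b : ℝ) ^ (2 * r) := by positivity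
    -- divide by `b ^ (2r)`
    have h1 : (T.card : ℝ) ≤ K * (2 / (b : ℝ)) ^ r + (y : ℝ) ^ (2 * r) := by
      have e1 : K * (2 * (b : ℝ)) ^ r + (b : ℝ) ^ (2 * r) * (y : ℝ) ^ (2 * r) =
          (K * (2 / (b : ℝ)) ^ r + (y : ℝ) ^ (2 * r)) * (b : ℝ) ^ (2 * r) := by
        have : (2 * (b : ℝ)) ^ r = (2 / (b : ℝ)) ^ r * (b : ℝ) ^ (2 * r) := by
          rw [pow_mul, ← mul_pow]
          congr 1
          field_simp
        rw [this]; ring
      rw [e1] at hmain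
      exact le_of_mul_le_mul_right hmain hb2
    have h2 : (y : ℝ) ^ (2 * r) ≤ (K : ℝ) ^ (4 / 5 + ε) := by
      rw [hexp, ← rpow_natCast, rpow_def_of_pos hy0]
      apply exp_le_exp.mpr
      push_cast
      have : 0 ≤ ε * log (K : ℝ) := by positivity
      linarith
    have h3 : (2 / (b : ℝ)) ^ r ≤ exp (-(r * ((1 / 2 - ε) * log y))) := by
      have h4 : 2 / (b : ℝ) ≤ exp (-((1 / 2 - ε) * log y)) := by
        rw [div_le_iff₀ hbpos]
        have h5 : exp ((1 - 2 * ε) * log L) * 2 ≤ (b : ℝ) := by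
          have : L ^ (1 - 2 * ε) = exp ((1 - 2 * ε) * log L) := by
            rw [rpow_def_of_pos hLpos, mul_comm]
          rw [← this]; linarith
        have h6 : 1 ≤ exp (-((1 / 2 - ε) * log y)) * exp ((1 - 2 * ε) * log L) := by
          rw [← exp_add]
          apply one_le_exp
          have : (1 / 2 - ε) * log y ≤ (1 / 2 - ε) * (2 * log L) :=
            mul_le_mul_of_nonneg_left hlogy (by linarith)
          linarith
        have h7 := mul_le_mul_of_nonneg_left h5 (exp_pos (-((1 / 2 - ε) * log (y : ℝ)))).le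
        linarith
      calc (2 / (b : ℝ)) ^ r ≤ (exp (-((1 / 2 - ε) * log y))) ^ r :=
            pow_le_pow_left₀ (by positivity) h4 r
        _ = _ := by rw [← exp_nat_mul]; congr 1; ring
    have h4 : K * (2 / (b : ℝ)) ^ r ≤ L * (K : ℝ) ^ (4 / 5 + ε) := by
      have h5 : K * (2 / (b : ℝ)) ^ r ≤ exp (log K) * exp (-(r * ((1 / 2 - ε) * log y))) := by
        rw [exp_log hK0]
        exact mul_le_mul_of_nonneg_left h3 hK0.le
      refine h5.trans ?_
      rw [hexp]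
      nth_rewrite 1 [hLexp]
      rw [← exp_add, ← exp_add]
      apply exp_le_exp.mpr
      have h6 : (1 / 2 - ε) * (2 / 5 * log K) ≤ (1 / 2 - ε) * ((r + 1) * log y) :=
        mul_le_mul_of_nonneg_left hr2'.le (by linarith)
      have h7 : (1 / 2 - ε) * log y ≤ (1 / 2) * (2 * log L) := by
        apply mul_le_mul (by linarith) hlogy (by linarith) (by norm_num)
      have h8 : 0 ≤ ε * log (K : ℝ) := by positivity
      linarith
    have h5 : (1 : ℝ) * (K : ℝ) ^ (4 / 5 + ε) ≤ L * (K : ℝ) ^ (4 / 5 + ε) :=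
      mul_le_mul_of_nonneg_right (by linarith) (by positivity)
    linarith

end Run7.h306
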