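import Mathlib

set_option autoImplicit false

/-! A moment inequality for products of characters to distinct small prime moduli. -/

namespace Run7.h306

open Finset

lemma sum_crt {m n : ℕ} (hm : 0 < m) (hn : 0 < n) (hmn : Nat.Coprime m n) (f g : ℕ → ℤ)
    (hf : Function.Periodic f m) (hg : Function.Periodic g n) :
    ∑ k ∈ range (m * n), f k * g k = (∑ k ∈ range m, f k) * ∑ k ∈ range n, g k := by
  rw [sum_mul_sum, ← sum_product']
  apply sum_nbij (fun k => (k % m, k % n))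
  · intro k _
    rw [mem_product, mem_range, mem_range]
    exact ⟨Nat.mod_lt _ hm, Nat.mod_lt _ hn⟩
  · intro k hk k' hk' h
    rw [mem_coe, mem_range] at hk hk'
    simp only [Prod.mk.injEq] at h
    have h1 : k ≡ k' [MOD m * n] := (Nat.modEq_and_modEq_iff_modEq_mul hmn).mp ⟨h.1, h.2⟩
    exact Nat.ModEq.eq_of_lt_of_lt h1 hk hk'
  · intro w hw
    rw [mem_coe, mem_product, mem_range, mem_range] at hw
    refine ⟨Nat.chineseRemainder hmn w.1 w.2, ?_, ?_⟩
    · rw [mem_coe, mem_range]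
      exact Nat.chineseRemainder_lt_mul hmn _ _ hm.ne' hn.ne'
    · have h1 := (Nat.chineseRemainder hmn w.1 w.2).prop.1
      have h2 := (Nat.chineseRemainder hmn w.1 w.2).prop.2
      ext
      · simp only
        rw [h1, Nat.mod_eq_of_lt hw.1]
      · simp only
        rw [h2, Nat.mod_eq_of_lt hw.2]
  · intro k _
    simp only
    rw [hf.map_mod_nat, hg.map_mod_nat]

lemma periodic_mul_right {f : ℕ → ℤ} {m : ℕ} (hf : Function.Periodic f m) (n : ℕ) :
    Function.Periodic f (m * n) := by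
  intro k
  have := hf.nat_mul n k
  rw [← this]
  congr 1
  push_cast
  ring

lemma periodic_prod {ι : Type*} (s : Finset ι) (m : ι → ℕ) (h : ι → ℕ → ℤ)
    (hp : ∀ i ∈ s, Function.Periodic (h i) (m i)) :
    Function.Periodic (fun k => ∏ i ∈ s, h i k) (∏ i ∈ s, m i) := by
  classical
  intro k
  apply prod_congr rfl
  intro i hi
  rw [← mul_prod_erase s m hi]
  exact periodic_mul_right (hp i hi) _ k

lemma sum_crt_prod {ι : Type*} (s : Finset ι) (m : ι → ℕ) (h : ι → ℕ → ℤ)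
    (hm : ∀ i ∈ s, 0 < m i) (hco : ∀ i ∈ s, ∀ j ∈ s, i ≠ j → Nat.Coprime (m i) (m j))
    (hp : ∀ i ∈ s, Function.Periodic (h i) (m i)) :
    ∑ k ∈ range (∏ i ∈ s, m i), ∏ i ∈ s, h i k = ∏ i ∈ s, ∑ k ∈ range (m i), h i k := by
  classical
  induction s using Finset.induction_on with
  | empty => simp
  | insert a s ha ih =>
    rw [prod_insert ha, prod_insert ha]
    have h1 : ∀ k, ∏ i ∈ insert a s, h i k = h a k * ∏ i ∈ s, h i k := fun k => prod_insert ha
    rw [sum_congr rfl (fun k _ => h1 k)]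
    rw [sum_crt (hm a (mem_insert_self a s)) (prod_pos fun i hi => hm i (mem_insert_of_mem hi))
      _ _ _ (hp a (mem_insert_self a s))
      (periodic_prod s m h fun i hi => hp i (mem_insert_of_mem hi))]
    · rw [ih (fun i hi => hm i (mem_insert_of_mem hi))
        (fun i hi j hj => hco i (mem_insert_of_mem hi) j (mem_insert_of_mem hj))
        (fun i hi => hp i (mem_insert_of_mem hi))]
    · apply Nat.Coprime.prod_right
      intro i hi
      apply hco a (mem_insert_self a s) i (mem_insert_of_mem hi)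
      rintro rfl
      exact ha hi

lemma sum_range_mul_period {F : ℕ → ℤ} {M : ℕ} (hF : Function.Periodic F M) (a : ℕ) :
    ∑ k ∈ range (M * a), F k = a * ∑ k ∈ range M, F k := by
  induction a with
  | zero => simp
  | succ a ih =>
    rw [Nat.mul_succ, sum_range_add, ih]
    have h1 : ∀ k ∈ range M, F (M * a + k) = F k := by
      intro k _
      have := periodic_mul_right hF a k
      rw [add_comm]
      exact this
    rw [sum_congr rfl h1]
    push_cast
    ring

lemma incomplete {F : ℕ → ℤ} {M : ℕ} (hM : 0 < M) (hF : Function.Periodic F M)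
    (hF1 : ∀ k, |F k| ≤ 1) (K : ℕ) :
    |((∑ k ∈ range K, F k : ℤ) : ℝ)| ≤ K * (|((∑ k ∈ range M, F k : ℤ) : ℝ)| / M) + M := by
  have h0 : K = M * (K / M) + K % M := (Nat.div_add_mod K M).symm
  have h1 : ∑ k ∈ range K, F k = (K / M : ℕ) * ∑ k ∈ range M, F k +
      ∑ k ∈ range (K % M), F (M * (K / M) + k) := by
    conv_lhs => rw [h0, sum_range_add, sum_range_mul_period hF]
  have h2 : |∑ k ∈ range (K % M), F (M * (K / M) + k)| ≤ M := by
    refine (abs_sum_le_sum_abs _ _).trans ?_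
    refine (sum_le_sum fun k _ => hF1 _).trans ?_
    rw [sum_const, card_range, nsmul_eq_mul, mul_one]
    exact_mod_cast (Nat.mod_lt K hM).le
  have h2' : |((∑ k ∈ range (K % M), F (M * (K / M) + k) : ℤ) : ℝ)| ≤ M := by
    have : ((|∑ k ∈ range (K % M), F (M * (K / M) + k)| : ℤ) : ℝ) ≤ ((M : ℤ) : ℝ) := by
      exact_mod_cast h2
    rw [Int.cast_abs] at this
    simpa using this
  rw [h1]
  push_cast
  push_cast at h2'
  refine (abs_add_le _ _).trans ?_
  apply add_le_add _ h2'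
  rw [abs_mul, mul_div_assoc']
  rw [le_div_iff₀ (by exact_mod_cast hM)]
  have h3 : ((K / M : ℕ) : ℝ) * M ≤ K := by exact_mod_cast Nat.div_mul_le_self K M
  rw [abs_of_nonneg (Nat.cast_nonneg _)]
  calc ((K / M : ℕ) : ℝ) * |∑ k ∈ range M, (F k : ℝ)| * M =
      (((K / M : ℕ) : ℝ) * M) * |∑ k ∈ range M, (F k : ℝ)| := by ring
    _ ≤ K * |∑ k ∈ range M, (F k : ℝ)| := mul_le_mul_of_nonneg_right h3 (abs_nonneg _)

section main

variable {r b : ℕ} (q : Fin r → Fin b → ℕ) (χ : ℕ → ℕ → ℤ)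

/-- modulus of a pair of primes -/
def md (i : Fin r) (w : Fin b × Fin b) : ℕ := if w.1 = w.2 then q i w.1 else q i w.1 * q i w.2

/-- product of the two characters -/
def hh (i : Fin r) (w : Fin b × Fin b) (k : ℕ) : ℤ := χ (q i w.1) k * χ (q i w.2) k

variable {q χ}

lemma md_pos (hq : ∀ i j, (q i j).Prime) (i : Fin r) (w : Fin b × Fin b) : 0 < md q i w := by
  unfold md
  split_ifs
  · exact (hq _ _).pos
  · exact Nat.mul_pos (hq _ _).pos (hq _ _).pos

lemma md_le (hq : ∀ i j, (q i j).Prime) {y : ℕ} (hy : ∀ i j, q i j ≤ y) (i : Fin r)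
    (w : Fin b × Fin b) : md q i w ≤ y ^ 2 := by
  unfold md
  split_ifs
  · calc q i w.1 ≤ y := hy _ _
      _ ≤ y ^ 2 := by
        rw [sq]; exact Nat.le_mul_of_pos_left y ((hq i w.1).pos.trans_le (hy _ _))
  · rw [sq]; exact Nat.mul_le_mul (hy _ _) (hy _ _)

lemma md_coprime (hq : ∀ i j, (q i j).Prime)
    (hinj : ∀ i j i' j', q i j = q i' j' → i = i' ∧ j = j') {i i' : Fin r} (hi : i ≠ i')
    (w w' : Fin b × Fin b) : Nat.Coprime (md q i w) (md q i' w') := by
  have h : ∀ j j', Nat.Coprime (q i j) (q i' j') := fun j j' =>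
    (Nat.coprime_primes (hq _ _) (hq _ _)).mpr fun e => hi (hinj _ _ _ _ e).1
  unfold md
  split_ifs
  · exact h _ _
  · exact (h _ _).mul_right (h _ _)
  · exact (h _ _).mul_left (h _ _)
  · exact ((h _ _).mul_right (h _ _)).mul_left ((h _ _).mul_right (h _ _))

lemma hh_periodic (hper : ∀ i j, Function.Periodic (χ (q i j)) (q i j)) (i : Fin r)
    (w : Fin b × Fin b) : Function.Periodic (hh q χ i w) (md q i w) := by
  intro k
  unfold hh md
  split_ifs with h
  · rw [← h, hper i w.1 k]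
  · have h1 := periodic_mul_right (hper i w.1) (q i w.2) k
    have h2 := periodic_mul_right (hper i w.2) (q i w.1) k
    rw [mul_comm] at h2
    rw [h1, h2]

lemma hh_abs (hχ : ∀ ℓ k, |χ ℓ k| ≤ 1) (i : Fin r) (w : Fin b × Fin b) (k : ℕ) :
    |hh q χ i w k| ≤ 1 := by
  unfold hh
  rw [abs_mul]
  exact mul_le_one₀ (hχ _ _) (abs_nonneg _) (hχ _ _)

/-- weight of a pair -/
noncomputable def rho {b : ℕ} (s : ℕ) (w : Fin b × Fin b) : ℝ := if w.1 = w.2 then 1 else 1 / (s : ℝ) ^ 2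

lemma rho_nonneg {s : ℕ} (w : Fin b × Fin b) : 0 ≤ rho s w := by
  unfold rho
  split_ifs <;> positivity

lemma sum_rho {s : ℕ} (hs : 0 < s) (hsb : b ≤ s ^ 2) :
    ∑ w : Fin b × Fin b, rho s w ≤ 2 * b := by
  have hs0 : (0 : ℝ) < (s : ℝ) ^ 2 := by
    have : (0 : ℝ) < s := by exact_mod_cast hs
    positivity
  have h1 : ∀ w : Fin b × Fin b, rho s w ≤ (if w.1 = w.2 then (1 : ℝ) else 0) + 1 / (s : ℝ) ^ 2 := by
    intro w
    unfold rho
    split_ifs
    · have : (0 : ℝ) ≤ 1 / (s : ℝ) ^ 2 := by positivity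
      linarith
    · linarith
  refine (sum_le_sum fun w _ => h1 w).trans ?_
  rw [sum_add_distrib, sum_const, Fintype.sum_prod_type]
  simp only [sum_ite_eq, mem_univ, if_true, sum_const, card_univ, Fintype.card_fin,
    Fintype.card_prod, nsmul_eq_mul, mul_one]
  have h2 : ((b * b : ℕ) : ℝ) * (1 / (s : ℝ) ^ 2) ≤ b := by
    rw [mul_one_div, div_le_iff₀ hs0]
    push_cast
    have : (b : ℝ) ≤ (s : ℝ) ^ 2 := by exact_mod_cast hsb
    nlinarith [(Nat.cast_nonneg b : (0 : ℝ) ≤ b)]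
  linarith

lemma hh_sum (hq : ∀ i j, (q i j).Prime)
    (hinj : ∀ i j i' j', q i j = q i' j' → i = i' ∧ j = j')
    (hper : ∀ i j, Function.Periodic (χ (q i j)) (q i j)) (hχ : ∀ ℓ k, |χ ℓ k| ≤ 1)
    (hsum : ∀ i j, |∑ k ∈ range (q i j), χ (q i j) k| ≤ 1) {s : ℕ} (hs : 0 < s)
    (hqs : ∀ i j, s ≤ q i j) (i : Fin r) (w : Fin b × Fin b) :
    |((∑ k ∈ range (md q i w), hh q χ i w k : ℤ) : ℝ)| / md q i w ≤ rho s w := by
  have hm : (0 : ℝ) < md q i w := by exact_mod_cast md_pos hq i w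
  have hs0 : (0 : ℝ) < (s : ℝ) ^ 2 := by
    have : (0 : ℝ) < s := by exact_mod_cast hs
    positivity
  rw [div_le_iff₀ hm]
  by_cases h : w.1 = w.2
  · have e1 : rho s w = 1 := by unfold rho; rw [if_pos h]
    rw [e1, one_mul]
    have h1 : |∑ k ∈ range (md q i w), hh q χ i w k| ≤ md q i w := by
      refine (abs_sum_le_sum_abs _ _).trans ?_
      refine (sum_le_sum fun k _ => hh_abs hχ i w k).trans ?_
      rw [sum_const, card_range, nsmul_eq_mul, mul_one]
    have h2 : ((|∑ k ∈ range (md q i w), hh q χ i w k| : ℤ) : ℝ) ≤ ((md q i w : ℤ) : ℝ) := by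
      exact_mod_cast h1
    rw [Int.cast_abs] at h2
    simpa using h2
  · have e1 : rho s w = 1 / (s : ℝ) ^ 2 := by unfold rho; rw [if_neg h]
    have e2 : md q i w = q i w.1 * q i w.2 := by unfold md; rw [if_neg h]
    have hco : Nat.Coprime (q i w.1) (q i w.2) :=
      (Nat.coprime_primes (hq _ _) (hq _ _)).mpr fun e => h (hinj _ _ _ _ e).2
    have h1 : |∑ k ∈ range (md q i w), hh q χ i w k| ≤ 1 := by
      rw [e2]
      unfold hh
      rw [sum_crt (hq _ _).pos (hq _ _).pos hco _ _ (hper _ _) (hper _ _), abs_mul]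
      exact mul_le_one₀ (hsum _ _) (abs_nonneg _) (hsum _ _)
    have h2 : ((|∑ k ∈ range (md q i w), hh q χ i w k| : ℤ) : ℝ) ≤ ((1 : ℤ) : ℝ) := by
      exact_mod_cast h1
    rw [Int.cast_abs] at h2
    refine h2.trans ?_
    rw [e1, e2, div_mul_eq_mul_div, one_mul, le_div_iff₀ hs0]
    push_cast
    have h3 : (s : ℝ) ≤ q i w.1 := by exact_mod_cast hqs i w.1
    have h4 : (s : ℝ) ≤ q i w.2 := by exact_mod_cast hqs i w.2
    have hs1 : (0 : ℝ) < s := by exact_mod_cast hs
    nlinarith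

lemma tuple_bound (hq : ∀ i j, (q i j).Prime)
    (hinj : ∀ i j i' j', q i j = q i' j' → i = i' ∧ j = j')
    (hper : ∀ i j, Function.Periodic (χ (q i j)) (q i j)) (hχ : ∀ ℓ k, |χ ℓ k| ≤ 1)
    (hsum : ∀ i j, |∑ k ∈ range (q i j), χ (q i j) k| ≤ 1) {s y : ℕ} (hs : 0 < s)
    (hqs : ∀ i j, s ≤ q i j) (hqy : ∀ i j, q i j ≤ y) (K : ℕ) (φ : Fin r → Fin b × Fin b) :
    |((∑ k ∈ range K, ∏ i, hh q χ i (φ i) k : ℤ) : ℝ)| ≤
      K * ∏ i, rho s (φ i) + ((y : ℝ) ^ (2 * r)) := by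
  have hM : 0 < ∏ i, md q i (φ i) := prod_pos fun i _ => md_pos hq i _
  have h1 := incomplete hM
    (periodic_prod univ (fun i => md q i (φ i)) (fun i => hh q χ i (φ i))
      (fun i _ => hh_periodic hper i (φ i))) (fun k => by
        rw [abs_prod]
        exact prod_le_one (fun _ _ => abs_nonneg _) (fun i _ => hh_abs hχ i _ k)) K
  refine h1.trans ?_
  apply add_le_add
  · apply mul_le_mul_of_nonneg_left _ (Nat.cast_nonneg K)
    rw [sum_crt_prod univ (fun i => md q i (φ i)) (fun i => hh q χ i (φ i))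
      (fun i _ => md_pos hq i _) (fun i _ j _ hij => md_coprime hq hinj hij _ _)
      (fun i _ => hh_periodic hper i _)]
    push_cast
    rw [abs_prod, ← prod_div_distrib]
    apply prod_le_prod
    · intro i _
      positivity
    · intro i _
      have := hh_sum hq hinj hper hχ hsum hs hqs i (φ i)
      push_cast at this
      exact this
  · have h2 : ∏ i, md q i (φ i) ≤ ∏ _i : Fin r, y ^ 2 :=
      prod_le_prod' fun i _ => md_le hq hqy i _
    rw [prod_const, card_univ, Fintype.card_fin, ← pow_mul] at h2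
    exact_mod_cast h2

/-- The moment inequality. -/
theorem block_moment (hq : ∀ i j, (q i j).Prime)
    (hinj : ∀ i j i' j', q i j = q i' j' → i = i' ∧ j = j')
    (hper : ∀ i j, Function.Periodic (χ (q i j)) (q i j)) (hχ : ∀ ℓ k, |χ ℓ k| ≤ 1)
    (hsum : ∀ i j, |∑ k ∈ range (q i j), χ (q i j) k| ≤ 1) {s y : ℕ} (hs : 0 < s)
    (hqs : ∀ i j, s ≤ q i j) (hqy : ∀ i j, q i j ≤ y) (hsb : b ≤ s ^ 2) (K : ℕ)
    (e : ℕ → ℤ) (he : ∀ ℓ, e ℓ = 1 ∨ e ℓ = -1) (T : Finset ℕ)
    (hTK : T ⊆ range K) (hT : ∀ k ∈ T, ∀ i j, χ (q i j) k = e (q i j)) :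
    (T.card : ℝ) * (b : ℝ) ^ (2 * r) ≤ K * (2 * (b : ℝ)) ^ r + (b : ℝ) ^ (2 * r) * (y : ℝ) ^ (2 * r) := by
  have hee : ∀ ℓ, e ℓ * e ℓ = 1 := by
    intro ℓ
    rcases he ℓ with h | h <;> rw [h] <;> norm_num
  have hea : ∀ ℓ, |e ℓ| = 1 := by
    intro ℓ
    rcases he ℓ with h | h <;> rw [h] <;> norm_num
  -- lower bound
  have h1 : ((T.card * b ^ (2 * r) : ℕ) : ℤ) ≤
      ∑ k ∈ range K, ∏ i : Fin r, (∑ j : Fin b, e (q i j) * χ (q i j) k) ^ 2 := by
    calc ((T.card * b ^ (2 * r) : ℕ) : ℤ) =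
        ∑ k ∈ T, ∏ i : Fin r, (∑ j : Fin b, e (q i j) * χ (q i j) k) ^ 2 := by
          have : ∀ k ∈ T, ∏ i : Fin r, (∑ j : Fin b, e (q i j) * χ (q i j) k) ^ 2 =
              (b : ℤ) ^ (2 * r) := by
            intro k hk
            have h2 : ∀ i : Fin r, (∑ j : Fin b, e (q i j) * χ (q i j) k) ^ 2 = (b : ℤ) ^ 2 := by
              intro i
              congr 1
              rw [sum_congr rfl (fun j _ => by rw [hT k hk i j, hee])]
              simp
            rw [prod_congr rfl (fun i _ => h2 i), prod_const, card_univ, Fintype.card_fin,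
              ← pow_mul]
          rw [sum_congr rfl this, sum_const, nsmul_eq_mul]
          push_cast
          ring
      _ ≤ _ := sum_le_sum_of_subset_of_nonneg hTK fun k _ _ => prod_nonneg fun i _ => sq_nonneg _
  -- expansion
  have h2 : ∑ k ∈ range K, ∏ i : Fin r, (∑ j : Fin b, e (q i j) * χ (q i j) k) ^ 2 =
      ∑ φ : Fin r → Fin b × Fin b, (∏ i, (e (q i (φ i).1) * e (q i (φ i).2))) *
        ∑ k ∈ range K, ∏ i, hh q χ i (φ i) k := by
    have e1 : ∀ k ∈ range K, ∏ i : Fin r, (∑ j : Fin b, e (q i j) * χ (q i j) k) ^ 2 =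
        ∑ φ : Fin r → Fin b × Fin b, (∏ i, (e (q i (φ i).1) * e (q i (φ i).2))) *
          ∏ i, hh q χ i (φ i) k := by
      intro k _
      have e2 : ∀ i : Fin r, (∑ j : Fin b, e (q i j) * χ (q i j) k) ^ 2 =
          ∑ w : Fin b × Fin b, (e (q i w.1) * e (q i w.2)) * hh q χ i w k := by
        intro i
        rw [sq, sum_mul_sum, Fintype.sum_prod_type]
        apply sum_congr rfl; intro j _
        apply sum_congr rfl; intro j' _
        unfold hh
        ring
      rw [prod_congr rfl (fun i _ => e2 i), prod_univ_sum, Fintype.piFinset_univ]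
      apply sum_congr rfl
      intro φ _
      rw [prod_mul_distrib]
    rw [sum_congr rfl e1, sum_comm]
    apply sum_congr rfl
    intro φ _
    rw [mul_sum]
  -- upper bound
  have h3 : ((∑ k ∈ range K, ∏ i : Fin r, (∑ j : Fin b, e (q i j) * χ (q i j) k) ^ 2 : ℤ) : ℝ) ≤
      ∑ φ : Fin r → Fin b × Fin b, (K * ∏ i, rho s (φ i) + ((y : ℝ) ^ (2 * r))) := by
    rw [h2]
    rw [Int.cast_sum]
    apply sum_le_sum
    intro φ _
    refine (le_abs_self _).trans ?_
    rw [Int.cast_mul, abs_mul]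
    have e3 : |((∏ i, (e (q i (φ i).1) * e (q i (φ i).2)) : ℤ) : ℝ)| = 1 := by
      rw [← Int.cast_abs, abs_prod]
      rw [prod_congr rfl (fun i _ => by rw [abs_mul, hea, hea, one_mul])]
      simp
    rw [e3, one_mul]
    exact tuple_bound hq hinj hper hχ hsum hs hqs hqy K φ
  have h4 : ∑ φ : Fin r → Fin b × Fin b, (K * ∏ i, rho s (φ i) + ((y : ℝ) ^ (2 * r))) ≤
      K * (2 * (b : ℝ)) ^ r + (b : ℝ) ^ (2 * r) * (y : ℝ) ^ (2 * r) := by
    rw [sum_add_distrib]
    apply add_le_add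
    · rw [← mul_sum]
      apply mul_le_mul_of_nonneg_left _ (Nat.cast_nonneg K)
      have e4 : ∑ φ : Fin r → Fin b × Fin b, ∏ i, rho s (φ i) =
          ∏ _i : Fin r, ∑ w : Fin b × Fin b, rho s w := by
        rw [prod_univ_sum, Fintype.piFinset_univ]
      rw [e4, prod_const, card_univ, Fintype.card_fin]
      exact pow_le_pow_left₀ (sum_nonneg fun w _ => rho_nonneg w) (sum_rho hs hsb) r
    · rw [sum_const, card_univ, nsmul_eq_mul, Fintype.card_fun, Fintype.card_prod,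
        Fintype.card_fin, Fintype.card_fin]
      apply le_of_eq
      push_cast
      rw [mul_comm 2 r, pow_mul' (b : ℝ) r 2, sq]
  have h5 : (((T.card * b ^ (2 * r) : ℕ) : ℤ) : ℝ) ≤
      ((∑ k ∈ range K, ∏ i : Fin r, (∑ j : Fin b, e (q i j) * χ (q i j) k) ^ 2 : ℤ) : ℝ) := by
    exact_mod_cast h1
  have h6 := h5.trans (h3.trans h4)
  push_cast at h6
  exact h6

end main

end Run7.h306
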