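import Pool.Agent.Run7.h306.Cnt2

set_option autoImplicit false

/-! Sums over cofactors, and products of two primes with the same exponent of two. -/

namespace Run7.h306

open Finset Real Pool.Agent.H379R2.W Pool.Agent.W57.SW

lemma ev_log_pow (k : ℕ) (e : ℝ) (he : 0 < e) : ∃ x0 : ℕ, 3 ≤ x0 ∧ ∀ x : ℕ, x0 ≤ x →
    (log x) ^ k ≤ (x : ℝ) ^ e := by
  have hd : 0 < e / (k + 1) := by positivity
  have h2 := (isLittleO_log_rpow_atTop hd).def (show (0 : ℝ) < 1 by norm_num)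
  have hev : ∀ᶠ x : ℝ in Filter.atTop, (log x) ^ k ≤ x ^ e := by
    filter_upwards [h2, Filter.eventually_ge_atTop 1] with x a1 a2
    have hx0 : 0 < x := by linarith
    have hlog : 0 ≤ log x := log_nonneg a2
    rw [norm_of_nonneg hlog, norm_of_nonneg (by positivity), one_mul] at a1
    calc (log x) ^ k ≤ (x ^ (e / (k + 1))) ^ k := pow_le_pow_left₀ hlog a1 k
      _ = x ^ (e / (k + 1) * k) := by rw [← rpow_natCast, ← rpow_mul hx0.le]
      _ ≤ x ^ e := by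
          apply rpow_le_rpow_of_exponent_le a2
          rw [div_mul_eq_mul_div, div_le_iff₀ (by positivity)]
          nlinarith
  obtain ⟨x1, hx1⟩ := Filter.eventually_atTop.mp hev
  obtain ⟨x0, hx0⟩ := exists_nat_ge x1
  exact ⟨max x0 3, le_max_right _ _, fun x hx =>
    hx1 x (hx0.trans (by exact_mod_cast (le_max_left _ _).trans hx))⟩

lemma ev_log_big (B : ℝ) : ∃ x0 : ℕ, ∀ x : ℕ, x0 ≤ x → B ≤ log x := by
  have hev1 : ∀ᶠ x : ℝ in Filter.atTop, B ≤ log x :=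
    tendsto_log_atTop.eventually (Filter.eventually_ge_atTop _)
  obtain ⟨x1, hx1⟩ := Filter.eventually_atTop.mp hev1
  obtain ⟨x0, hx0⟩ := exists_nat_ge x1
  exact ⟨x0, fun x hx => hx1 x (hx0.trans (by exact_mod_cast hx))⟩

/-- numbers `p m` with `m` in a sparse set -/
theorem ext_sum (e : ℝ) (he : 0 < e) (he1 : e ≤ 1 / 8) : ∃ C : ℝ, 0 < C ∧ ∃ x0 : ℕ, ∀ x : ℕ,
    x0 ≤ x → ∀ (Z R : ℝ) (E N : Finset ℕ), 0 ≤ Z → (∀ m ∈ E, 2 ≤ m ∧ m ≤ x ∧ (m : ℝ) ≤ Z) →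
    ∑ m ∈ E, (m : ℝ) ^ (-(1 / 2 + e)) ≤ R →
    (∀ n ∈ N, ∃ m ∈ E, ∃ p, n = p * m ∧ Ex x m p) →
    (N.card : ℝ) ≤ C * R * ((x : ℝ) ^ (e + al e) * Z ^ (1 / 2 + e - al e)) := by
  classical
  obtain ⟨C, hC, x0, h0⟩ := ext_count e he (by linarith)
  refine ⟨C, hC, max x0 1, fun x hx Z R E N hZ0 hE hR hN => ?_⟩
  have hx1 : 1 ≤ x := (le_max_right _ _).trans hx
  have hxpos : (0 : ℝ) < x := by exact_mod_cast hx1
  obtain ⟨F, hF⟩ : ∃ F : ℕ → Finset ℕ, ∀ m, F m = (Icc 1 x).filter (fun p => Ex x m p) :=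
    ⟨_, fun _ => rfl⟩
  have hcov : N ⊆ E.biUnion (fun m => (F m).image (fun p => p * m)) := by
    intro n hn
    obtain ⟨m, hm, p, hnm, hp⟩ := hN n hn
    rw [mem_biUnion]
    refine ⟨m, hm, mem_image.mpr ⟨p, ?_, hnm.symm⟩⟩
    rw [hF, mem_filter, mem_Icc]
    refine ⟨⟨hp.2.1.1.one_lt.le, ?_⟩, hp⟩
    have h1 := hp.1
    have h2 := (hE m hm).1
    calc p = p * 1 := (mul_one p).symm
      _ ≤ p * m := Nat.mul_le_mul_left p (by omega)
      _ ≤ x := h1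
  have h1 : (N.card : ℝ) ≤ ∑ m ∈ E, ((F m).card : ℝ) := by
    have h2 := (card_le_card hcov).trans (card_biUnion_le.trans
      (sum_le_sum fun m _ => card_image_le (s := F m) (f := fun p => p * m)))
    exact_mod_cast h2
  refine h1.trans ?_
  have hal : 0 ≤ 1 / 2 + e - al e := by unfold al; nlinarith
  have h2 : ∀ m ∈ E, ((F m).card : ℝ) ≤
      C * (x : ℝ) ^ (e + al e) * Z ^ (1 / 2 + e - al e) * (m : ℝ) ^ (-(1 / 2 + e)) := by
    intro m hm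
    obtain ⟨a1, a2, a3⟩ := hE m hm
    have hm0 : (0 : ℝ) < m := by exact_mod_cast (by omega : 0 < m)
    have h3 := h0 x ((le_max_left _ _).trans hx) m a1 a2 (F m) (fun p hp => by
      rw [hF, mem_filter] at hp
      exact hp.2)
    refine h3.trans ?_
    have e1 : C * (x : ℝ) ^ e * ((x : ℝ) / m) ^ (al e) =
        C * (x : ℝ) ^ (e + al e) * (m : ℝ) ^ (1 / 2 + e - al e) * (m : ℝ) ^ (-(1 / 2 + e)) := by
      rw [div_rpow hxpos.le hm0.le, rpow_add hxpos, mul_assoc _ ((m : ℝ) ^ _) ((m : ℝ) ^ _),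
        ← rpow_add hm0, show 1 / 2 + e - al e + -(1 / 2 + e) = -(al e) by ring, rpow_neg hm0.le]
      ring
    rw [e1]
    apply mul_le_mul_of_nonneg_right _ (by positivity)
    apply mul_le_mul_of_nonneg_left _ (by positivity)
    exact rpow_le_rpow hm0.le a3 hal
  refine (sum_le_sum h2).trans ?_
  rw [← mul_sum]
  calc C * (x : ℝ) ^ (e + al e) * Z ^ (1 / 2 + e - al e) * ∑ m ∈ E, (m : ℝ) ^ (-(1 / 2 + e)) ≤
      C * (x : ℝ) ^ (e + al e) * Z ^ (1 / 2 + e - al e) * R :=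
        mul_le_mul_of_nonneg_left hR (by positivity)
    _ = _ := by ring

/-- numbers `p m` with small `m` -/
theorem ext_small (e : ℝ) (he : 0 < e) (he1 : e ≤ 1 / 8) : ∃ C : ℝ, 0 < C ∧ ∃ x0 : ℕ, ∀ x : ℕ,
    x0 ≤ x → ∀ (Z : ℕ) (N : Finset ℕ), Z ≤ x →
    (∀ n ∈ N, ∃ m, 2 ≤ m ∧ m ≤ Z ∧ ∃ p, n = p * m ∧ Ex x m p) →
    (N.card : ℝ) ≤ C * ((x : ℝ) ^ (e + al e) * Z) := by
  classical
  obtain ⟨C, hC, x0, h0⟩ := ext_count e he (by linarith)
  refine ⟨C, hC, max x0 1, fun x hx Z N hZx hN => ?_⟩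
  have hx1 : 1 ≤ x := (le_max_right _ _).trans hx
  have hxpos : (0 : ℝ) < x := by exact_mod_cast hx1
  obtain ⟨F, hF⟩ : ∃ F : ℕ → Finset ℕ, ∀ m, F m = (Icc 1 x).filter (fun p => Ex x m p) :=
    ⟨_, fun _ => rfl⟩
  have hcov : N ⊆ (Icc 2 Z).biUnion (fun m => (F m).image (fun p => p * m)) := by
    intro n hn
    obtain ⟨m, hm2, hmZ, p, hnm, hp⟩ := hN n hn
    rw [mem_biUnion]
    refine ⟨m, mem_Icc.mpr ⟨hm2, hmZ⟩, mem_image.mpr ⟨p, ?_, hnm.symm⟩⟩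
    rw [hF, mem_filter, mem_Icc]
    refine ⟨⟨hp.2.1.1.one_lt.le, ?_⟩, hp⟩
    have h1 := hp.1
    calc p = p * 1 := (mul_one p).symm
      _ ≤ p * m := Nat.mul_le_mul_left p (by omega)
      _ ≤ x := h1
  have h1 : (N.card : ℝ) ≤ ∑ m ∈ Icc 2 Z, ((F m).card : ℝ) := by
    have h2 := (card_le_card hcov).trans (card_biUnion_le.trans
      (sum_le_sum fun m _ => card_image_le (s := F m) (f := fun p => p * m)))
    exact_mod_cast h2
  refine h1.trans ?_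
  have h2 : ∀ m ∈ Icc 2 Z, ((F m).card : ℝ) ≤ C * (x : ℝ) ^ (e + al e) := by
    intro m hm
    rw [mem_Icc] at hm
    have hm0 : (1 : ℝ) ≤ m := by exact_mod_cast (by omega : 1 ≤ m)
    have h3 := h0 x ((le_max_left _ _).trans hx) m hm.1 (by omega) (F m) (fun p hp => by
      rw [hF, mem_filter] at hp
      exact hp.2)
    refine h3.trans ?_
    rw [rpow_add hxpos, mul_assoc]
    apply mul_le_mul_of_nonneg_left _ hC.le
    apply mul_le_mul_of_nonneg_left _ (by positivity)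
    apply rpow_le_rpow (by positivity) _ (by unfold al; positivity)
    exact div_le_self hxpos.le hm0
  refine (sum_le_sum h2).trans ?_
  rw [sum_const, nsmul_eq_mul, Nat.card_Icc]
  have h3 : ((Z + 1 - 2 : ℕ) : ℝ) ≤ Z := by exact_mod_cast (by omega : Z + 1 - 2 ≤ Z)
  calc ((Z + 1 - 2 : ℕ) : ℝ) * (C * (x : ℝ) ^ (e + al e)) ≤ Z * (C * (x : ℝ) ^ (e + al e)) :=
        mul_le_mul_of_nonneg_right h3 (by positivity)
    _ = _ := by ring

end Run7.h306
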