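import Pool.Agent.Run7.h306.CaseB

set_option autoImplicit false

/-! Numbers all of whose prime factors are small. -/

namespace Run7.h306

open Finset Real Pool.Agent.H379R2.W Pool.Agent.W57.SW

/-- the primes of a class modulo which the order of the small primes divides `f` -/
theorem class_f (η1 η2 e α : ℝ) (h0 : 0 < η1) (h12 : η1 < η2) (h2 : η2 < 1) (he : 0 < e)
    (he1 : e ≤ 1 / 8) (hα1 : (1 - η1) / 2 + e ≤ α) (hα2 : al e + η2 + 2 * e ≤ α) :
    ∃ K : ℝ, 0 < K ∧ ∃ x0 : ℕ, ∀ x : ℕ, x0 ≤ x → ∀ f X : ℕ, 1 ≤ f → f ≤ x → 1 ≤ X → X ≤ x →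
    ∀ (σ : ℕ → ℕ) (T : Finset ℕ), (∀ p ∈ T, p ≤ X ∧ Cs x σ p ∧ gp (yy x) p ∣ f) →
    (T.card : ℝ) ≤ K * (X : ℝ) ^ α := by
  classical
  obtain ⟨A, hA⟩ : ∃ A : ℝ, A = 2 / (1 - η1) := ⟨_, rfl⟩
  have hη1 : 0 < 1 - η1 := by linarith
  have hA1 : 1 < A := by
    rw [hA, lt_div_iff₀ hη1]; linarith
  have hA2 : 1 / A = (1 - η1) / 2 := by rw [hA]; field_simp
  obtain ⟨K1, hK1, hcp⟩ := class_primes A e hA1 he
  obtain ⟨x1, hcg⟩ := class_gp e he (by linarith)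
  obtain ⟨L2, hL23, hfd⟩ := few_div η1 η2 e h0 h12 h2 he
  obtain ⟨x2, hx2⟩ := ev_log_big L2
  -- `L² ≤ X^e` when `L^(1-η1) ≤ log X`
  have hev : ∀ᶠ L : ℝ in Filter.atTop, 2 * log L ≤ e * L ^ (1 - η1) := by
    have h3 := (isLittleO_log_rpow_atTop hη1).def (show (0 : ℝ) < e / 2 by positivity)
    filter_upwards [h3, Filter.eventually_ge_atTop 1] with L a1 a2
    have hL0 : 0 < L := by linarith
    rw [norm_of_nonneg (log_nonneg a2), norm_of_nonneg (by positivity)] at a1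
    linarith
  obtain ⟨L3, hL3⟩ := Filter.eventually_atTop.mp hev
  obtain ⟨x3, hx3⟩ := ev_log_big (max L3 2)
  refine ⟨K1 + 24, by positivity, max (max x1 x2) (max x3 1), ?_⟩
  intro x hx f X hf hfx hX hXx σ T hT
  have ha1 : x1 ≤ x := (le_max_left _ _).trans ((le_max_left _ _).trans hx)
  have ha2 : x2 ≤ x := (le_max_right _ _).trans ((le_max_left _ _).trans hx)
  have ha3 : x3 ≤ x := (le_max_left _ _).trans ((le_max_right _ _).trans hx)
  obtain ⟨L, hL⟩ : ∃ L : ℝ, L = log x := ⟨_, rfl⟩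
  have hLL2 : L2 ≤ L := by rw [hL]; exact hx2 x ha2
  have hLL3 : L3 ≤ L := by rw [hL]; exact (le_max_left _ _).trans (hx3 x ha3)
  have hLtwo : 2 ≤ L := by rw [hL]; exact (le_max_right _ _).trans (hx3 x ha3)
  have hL0 : 0 < L := by linarith
  have hX1 : (1 : ℝ) ≤ X := by exact_mod_cast hX
  have hX0 : (0 : ℝ) < X := by linarith
  have hlogX : 0 ≤ log (X : ℝ) := log_nonneg hX1
  have hXα : 0 ≤ (X : ℝ) ^ α := by positivity
  have hy2 : 2 ≤ yy x := by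
    apply Nat.le_floor
    rw [← hL]
    push_cast
    nlinarith
  rcases lt_or_ge (log (X : ℝ)) (L ^ (1 - η1)) with hsm | hlg
  · have h3 : (log (X : ℝ)) ^ A ≤ L ^ 2 := by
      calc (log (X : ℝ)) ^ A ≤ (L ^ (1 - η1)) ^ A := rpow_le_rpow hlogX hsm.le (by linarith)
        _ = L ^ ((1 - η1) * A) := by rw [← rpow_mul hL0.le]
        _ = L ^ (2 : ℝ) := by congr 1; rw [hA]; field_simp
        _ = L ^ 2 := by norm_cast
    have h4 : L ^ 2 < yy x + 1 := by rw [hL]; exact Nat.lt_floor_add_one _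
    have h5 := hcp x X hX hy2 (by linarith) σ T (fun p hp => ⟨(hT p hp).1, (hT p hp).2.1⟩)
    refine h5.trans ?_
    have h6 : (X : ℝ) ^ (1 / A + e) ≤ (X : ℝ) ^ α :=
      rpow_le_rpow_of_exponent_le hX1 (by rw [hA2]; exact hα1)
    have h7 : K1 * (X : ℝ) ^ (1 / A + e) ≤ K1 * (X : ℝ) ^ α := mul_le_mul_of_nonneg_left h6 hK1.le
    linarith
  · have hlogf : log (f : ℝ) ≤ L := by
      rw [hL]; exact log_le_log (by exact_mod_cast hf) (by exact_mod_cast hfx)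
    have h3 := hfd L hLL2 f hf hlogf X hX0 hlg
    have hcov : T ⊆ (f.divisors.filter (fun g : ℕ => (g : ℝ) ≤ X)).biUnion
        (fun g => T.filter (fun p => gp (yy x) p = g)) := by
      intro p hp
      obtain ⟨b1, b2, b3⟩ := hT p hp
      rw [mem_biUnion]
      refine ⟨gp (yy x) p, ?_, mem_filter.mpr ⟨hp, rfl⟩⟩
      rw [mem_filter, Nat.mem_divisors]
      refine ⟨⟨b3, by omega⟩, ?_⟩
      have h4 := Nat.le_of_dvd (by have := b2.1.two_le; omega) (gp_dvd b2.1 b2.2.1)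
      exact_mod_cast (by omega : gp (yy x) p ≤ X)
    have h4 : (T.card : ℝ) ≤ ∑ g ∈ f.divisors.filter (fun g : ℕ => (g : ℝ) ≤ X),
        ((T.filter (fun p => gp (yy x) p = g)).card : ℝ) := by
      exact_mod_cast (card_le_card hcov).trans card_biUnion_le
    have h5 : ∀ g ∈ f.divisors.filter (fun g : ℕ => (g : ℝ) ≤ X),
        ((T.filter (fun p => gp (yy x) p = g)).card : ℝ) ≤ 24 * L ^ 2 * (X : ℝ) ^ (al e) := by
      intro g hg
      rw [mem_filter] at hg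
      have hg1 : 1 ≤ g := Nat.pos_of_mem_divisors hg.1
      have hgx : g ≤ x := (Nat.divisor_le hg.1).trans hfx
      rw [hL]
      apply hcg x X ha1 hX hXx σ g _ hg1 hgx
      intro p hp
      rw [mem_filter] at hp
      exact ⟨(hT p hp.1).1, (hT p hp.1).2.1, hp.2⟩
    have h6 : L ^ 2 ≤ (X : ℝ) ^ e := by
      have h7 := hL3 L hLL3
      have h8 : e * L ^ (1 - η1) ≤ e * log X := mul_le_mul_of_nonneg_left hlg he.le
      have h9 : L ^ 2 = exp (2 * log L) := by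
        rw [mul_comm, ← rpow_def_of_pos hL0]; norm_cast
      rw [h9, rpow_def_of_pos hX0]
      apply exp_le_exp.mpr
      linarith
    have h7 : (T.card : ℝ) ≤ (X : ℝ) ^ (η2 + e) * (24 * (X : ℝ) ^ e * (X : ℝ) ^ (al e)) := by
      refine h4.trans ((sum_le_sum h5).trans ?_)
      rw [sum_const, nsmul_eq_mul]
      apply mul_le_mul h3 _ (by positivity) (by positivity)
      gcongr
    have h8 : (X : ℝ) ^ (η2 + e) * (24 * (X : ℝ) ^ e * (X : ℝ) ^ (al e)) =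
        24 * (X : ℝ) ^ (al e + η2 + 2 * e) := by
      have : (X : ℝ) ^ (al e + η2 + 2 * e) = (X : ℝ) ^ (η2 + e) * (X : ℝ) ^ e * (X : ℝ) ^ (al e) := by
        rw [← rpow_add hX0, ← rpow_add hX0]; congr 1; ring
      rw [this]; ring
    rw [h8] at h7
    have h9 : (X : ℝ) ^ (al e + η2 + 2 * e) ≤ (X : ℝ) ^ α := rpow_le_rpow_of_exponent_le hX1 hα2
    have h10 : 0 ≤ K1 * (X : ℝ) ^ α := by positivity
    linarith

/-- the sum over squarefree products -/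
lemma smf_sum (A : Finset ℕ) (M : ℕ) (σ : ℝ) :
    ∑ m ∈ smf A M, (m : ℝ) ^ (-σ) ≤ exp (∑ q ∈ A, (q : ℝ) ^ (-σ)) := by
  have h1 : ∀ m ∈ smf A M, (m : ℝ) ^ (-σ) = ∏ q ∈ m.primeFactors, (q : ℝ) ^ (-σ) := by
    intro m hm
    rw [smf, mem_filter, mem_Icc] at hm
    rw [Real.finsetProd_rpow _ _ fun i _ => Nat.cast_nonneg i]
    congr 1
    rw [← Nat.cast_prod, Nat.prod_primeFactors_of_squarefree hm.2.1]
  rw [sum_congr rfl h1]
  have hinj : Set.InjOn Nat.primeFactors (smf A M : Set ℕ) := by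
    intro a ha b hb h
    rw [mem_coe, smf, mem_filter] at ha hb
    rw [← Nat.prod_primeFactors_of_squarefree ha.2.1, ← Nat.prod_primeFactors_of_squarefree hb.2.1, h]
  have h3 : ∑ m ∈ smf A M, ∏ q ∈ m.primeFactors, (q : ℝ) ^ (-σ) =
      ∑ T ∈ (smf A M).image Nat.primeFactors, ∏ q ∈ T, (q : ℝ) ^ (-σ) := by
    rw [sum_image fun a ha b hb h => hinj ha hb h]
  rw [h3]
  have h4 : (smf A M).image Nat.primeFactors ⊆ A.powerset := by
    intro T hT
    rw [mem_image] at hT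
    obtain ⟨m, hm, rfl⟩ := hT
    rw [smf, mem_filter] at hm
    exact mem_powerset.mpr hm.2.2
  refine (sum_le_sum_of_subset_of_nonneg h4 fun T _ _ => prod_nonneg fun q _ => by positivity).trans ?_
  rw [← Finset.prod_one_add, exp_sum]
  apply prod_le_prod
  · intro q _; positivity
  · intro q _
    have := add_one_le_exp ((q : ℝ) ^ (-σ))
    linarith

open Classical in
/-- the primes up to `x` of a class -/
noncomputable def Ac (x : ℕ) (σ : ℕ → ℕ) : Finset ℕ := (Icc 1 x).filter (fun p => Cs x σ p)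

lemma mem_Ac {x p : ℕ} {σ : ℕ → ℕ} : p ∈ Ac x σ ↔ (1 ≤ p ∧ p ≤ x) ∧ Cs x σ p := by
  unfold Ac
  simp only [mem_filter, mem_Icc]

open Classical in
/-- the primes up to `x` of a class with order dividing `f` -/
noncomputable def Af (x : ℕ) (σ : ℕ → ℕ) (f : ℕ) : Finset ℕ :=
  (Icc 1 x).filter (fun p => Cs x σ p ∧ gp (yy x) p ∣ f)

lemma mem_Af {x p f : ℕ} {σ : ℕ → ℕ} :
    p ∈ Af x σ f ↔ (1 ≤ p ∧ p ≤ x) ∧ Cs x σ p ∧ gp (yy x) p ∣ f := by
  unfold Af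
  simp only [mem_filter, mem_Icc]

/-- few squarefree products of primes of a class -/
theorem smf_class (e : ℝ) (he : 0 < e) : ∃ C : ℝ, 0 < C ∧ ∀ x : ℕ, 2 ≤ yy x →
    ∀ (σ : ℕ → ℕ) (M : ℕ), ((smf (Ac x σ) M).card : ℝ) ≤ C * (M : ℝ) ^ (1 / 2 + e) := by
  obtain ⟨K, hK, h⟩ := class_primes 2 (e / 2) (by norm_num) (by positivity)
  obtain ⟨R, hR⟩ : ∃ R : ℝ, R = K ^ ((1 / 2 + e) / (1 / 2 + e / 2)) *
    ∑' k : ℕ, (k : ℝ) ^ (-((1 / 2 + e) / (1 / 2 + e / 2))) := ⟨_, rfl⟩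
  refine ⟨exp R, exp_pos R, fun x hy σ M => ?_⟩
  have hA0 : ∀ q ∈ Ac x σ, 1 ≤ q := fun q hq => (mem_Ac.mp hq).1.1
  have h1 := Pool.Agent.W57.SW.rank_sum (Ac x σ) K (1 / 2 + e / 2) (1 / 2 + e) hK (by positivity)
    (by linarith) hA0 (fun q hq => by
      have h2 := (mem_Ac.mp hq).1
      apply h x q h2.1 hy (log_lt_yy h2.1 h2.2) σ
      intro p hp
      rw [mem_filter, mem_Ac] at hp
      exact ⟨hp.2, hp.1.2⟩)
  rw [← hR] at h1
  have h2 := rankin (Ac x σ) M M (1 / 2 + e) le_rfl (by positivity) hA0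
  refine h2.trans ?_
  rw [mul_comm]
  exact mul_le_mul_of_nonneg_right (exp_le_exp.mpr h1) (by positivity)

/-- the sum over squarefree products of the primes of a class with order dividing `f` -/
theorem smf_f (η1 η2 e α ν : ℝ) (h0 : 0 < η1) (h12 : η1 < η2) (h2 : η2 < 1) (he : 0 < e)
    (he1 : e ≤ 1 / 8) (hα1 : (1 - η1) / 2 + e ≤ α) (hα2 : al e + η2 + 2 * e ≤ α) (hαν : α < ν) :
    ∃ C : ℝ, 0 < C ∧ ∃ x0 : ℕ, ∀ x : ℕ, x0 ≤ x → ∀ f : ℕ, 1 ≤ f → f ≤ x → ∀ (σ : ℕ → ℕ) (M : ℕ),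
    ∑ m ∈ smf (Af x σ f) M, (m : ℝ) ^ (-ν) ≤ C := by
  obtain ⟨K, hK, x0, h⟩ := class_f η1 η2 e α h0 h12 h2 he he1 hα1 hα2
  have hα0 : 0 < α := by linarith
  obtain ⟨R, hR⟩ : ∃ R : ℝ, R = K ^ (ν / α) * ∑' k : ℕ, (k : ℝ) ^ (-(ν / α)) := ⟨_, rfl⟩
  refine ⟨exp R, exp_pos R, x0, fun x hx f hf hfx σ M => ?_⟩
  have hA0 : ∀ q ∈ Af x σ f, 1 ≤ q := fun q hq => (mem_Af.mp hq).1.1
  have h1 := Pool.Agent.W57.SW.rank_sum (Af x σ f) K α ν hK hα0 hαν hA0 (fun q hq => by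
      have h2 := (mem_Af.mp hq).1
      apply h x hx f q hf hfx h2.1 h2.2 σ
      intro p hp
      rw [mem_filter, mem_Af] at hp
      exact ⟨hp.2, hp.1.2⟩)
  rw [← hR] at h1
  exact (smf_sum _ _ _).trans (exp_le_exp.mpr h1)

/-- the least common multiple of the orders for the prime factors of `D` -/
noncomputable def ff (x D : ℕ) : ℕ := D.primeFactors.lcm (fun p => gp (yy x) p)

lemma Xn.ff_dvd {x n D : ℕ} (h : Xn (yy x) n) (hD : D ∣ n) : ff x D ∣ n - 1 := by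
  apply Finset.lcm_dvd
  intro p hp
  rw [Nat.mem_primeFactors] at hp
  exact h.gp_dvd_sub (hp.2.1.trans hD)

lemma gp_dvd_ff {x D p : ℕ} (hp : p ∈ D.primeFactors) : gp (yy x) p ∣ ff x D :=
  Finset.dvd_lcm (f := fun p => gp (yy x) p) hp

/-- a divisor in a short interval -/
lemma exists_divisor {n P : ℕ} (hn : 1 ≤ n) {Z : ℝ} (hZ : 1 ≤ Z) (hZn : Z < n)
    (hP : ∀ p : ℕ, p.Prime → p ∣ n → p ≤ P) : ∃ D, D ∣ n ∧ Z < D ∧ (D : ℝ) ≤ Z * P := by
  classical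
  obtain ⟨D, hD, hmin⟩ := Finset.exists_min_image (n.divisors.filter (fun D : ℕ => Z < D)) id
    ⟨n, mem_filter.mpr ⟨Nat.mem_divisors.mpr ⟨dvd_rfl, by omega⟩, hZn⟩⟩
  rw [mem_filter, Nat.mem_divisors] at hD
  refine ⟨D, hD.1.1, hD.2, ?_⟩
  have hD1 : (1 : ℝ) < D := lt_of_le_of_lt hZ hD.2
  have hD1' : 1 < D := by exact_mod_cast hD1
  have hp := Nat.minFac_prime (show D ≠ 1 by omega)
  obtain ⟨r, hr⟩ := Nat.minFac_dvd D
  obtain ⟨p, hpp⟩ : ∃ p, p = D.minFac := ⟨_, rfl⟩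
  rw [← hpp] at hp hr
  have hpD : p ∣ D := ⟨r, hr⟩
  have hr0 : 0 < r := by
    rcases Nat.eq_zero_or_pos r with h | h
    · rw [h, mul_zero] at hr; omega
    · exact h
  have hrD : r ∣ D := ⟨p, by rw [hr, mul_comm]⟩
  have hrlt : r < D := by
    rw [hr]; exact lt_mul_of_one_lt_left hr0 hp.one_lt
  have hrZ : (r : ℝ) ≤ Z := by
    by_contra hc
    push Not at hc
    have := hmin r (mem_filter.mpr ⟨Nat.mem_divisors.mpr ⟨hrD.trans hD.1.1, by omega⟩, hc⟩)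
    simp only [id] at this
    omega
  have hpP : (p : ℝ) ≤ P := by exact_mod_cast hP p hp (hpD.trans hD.1.1)
  rw [hr]
  push_cast
  calc (p : ℝ) * r ≤ P * Z := mul_le_mul hpP hrZ (Nat.cast_nonneg _) (Nat.cast_nonneg _)
    _ = Z * P := mul_comm _ _

/-- numbers divisible by `D` and `≡ 1` modulo `f` -/
lemma count_progression {x D f : ℕ} (hD : 1 ≤ D) (hf : 1 ≤ f) (N : Finset ℕ)
    (hN : ∀ n ∈ N, 1 ≤ n ∧ n ≤ x ∧ D ∣ n ∧ f ∣ n - 1) : (N.card : ℝ) ≤ x / (D * f) + 1 := by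
  classical
  have hDf : 0 < D * f := by positivity
  have hinj : Set.InjOn (fun n => n / (D * f)) (N : Set ℕ) := by
    have hlt : ∀ n ∈ N, ∀ n' ∈ N, n ≤ n' → n / (D * f) = n' / (D * f) → n = n' := by
      intro n hn n' hn' hle h
      obtain ⟨a1, a2, a3, a4⟩ := hN n hn
      obtain ⟨b1, b2, b3, b4⟩ := hN n' hn'
      have hco : Nat.Coprime D f := by
        rw [Nat.coprime_iff_gcd_eq_one]
        have g1 : Nat.gcd D f ∣ n := (Nat.gcd_dvd_left _ _).trans a3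
        have g2 : Nat.gcd D f ∣ n - 1 := (Nat.gcd_dvd_right _ _).trans a4
        have g3 := Nat.dvd_sub g1 g2
        rw [show n - (n - 1) = 1 by omega] at g3
        exact Nat.dvd_one.mp g3
      have h1 : D ∣ n' - n := Nat.dvd_sub b3 a3
      have h2 : f ∣ n' - n := by
        have := Nat.dvd_sub b4 a4
        rwa [show n' - 1 - (n - 1) = n' - n by omega] at this
      have h3 : D * f ∣ n' - n := hco.mul_dvd_of_dvd_of_dvd h1 h2
      by_contra hne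
      have h4 : D * f ≤ n' - n := Nat.le_of_dvd (by omega) h3
      have h5 : n / (D * f) + 1 ≤ n' / (D * f) := by
        rw [Nat.le_div_iff_mul_le hDf, Nat.add_mul, one_mul]
        have := Nat.div_mul_le_self n (D * f)
        omega
      omega
    intro n hn n' hn' h
    rw [mem_coe] at hn hn'
    simp only at h
    rcases le_total n n' with hle | hle
    · exact hlt n hn n' hn' hle h
    · exact (hlt n' hn' n hn hle h.symm).symm
  have h1 : N.card ≤ (range (x / (D * f) + 1)).card := by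
    apply card_le_card_of_injOn _ _ hinj
    intro n hn
    rw [mem_coe] at hn
    rw [mem_coe, mem_range, Nat.lt_succ_iff]
    exact Nat.div_le_div_right (hN n hn).2.1
  rw [card_range] at h1
  have h2 : ((x / (D * f) : ℕ) : ℝ) ≤ (x : ℝ) / (D * f) := by
    have := @Nat.cast_div_le ℝ _ _ _ x (D * f)
    push_cast at this
    exact this
  have h3 : (N.card : ℝ) ≤ ((x / (D * f) + 1 : ℕ) : ℝ) := by exact_mod_cast h1
  push_cast at h3 h2
  linarith

end Run7.h306
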