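import Pool.Agent.Run7.h306.CaseC

set_option autoImplicit false

/-! Numbers all of whose prime factors are small: the two counts. -/

namespace Run7.h306

open Finset Real Pool.Agent.H379R2.W Pool.Agent.W57.SW

lemma Xn.ff_pos {x n D : ℕ} (h : Xn (yy x) n) (hD : D ∣ n) : 1 ≤ ff x D :=
  Nat.pos_of_dvd_of_pos (h.ff_dvd hD) (by have := h.1; omega)

/-- a divisor with many orders -/
theorem case_c1 (e : ℝ) (he : 0 < e) : ∃ C : ℝ, 0 < C ∧ ∀ x : ℕ, 2 ≤ yy x →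
    ∀ (Z W F : ℝ) (N : Finset ℕ), 1 ≤ Z → 1 ≤ W → W ≤ x → 0 < F →
    (∀ n ∈ N, n ≤ x ∧ Xn (yy x) n ∧ ∃ D, D ∣ n ∧ Ty x D ∧ 2 ≤ D ∧ ¬ D.Prime ∧ Z < D ∧ (D : ℝ) ≤ W ∧
      F ≤ ff x D) →
    (N.card : ℝ) ≤ C * W ^ (1 / 2 + e) * (x / (Z * F) + 1) := by
  classical
  obtain ⟨C, hC, h⟩ := ET_card e he
  refine ⟨C, hC, fun x hy Z W F N hZ hW hWx hF hN => ?_⟩
  obtain ⟨S, hS⟩ : ∃ S : Finset ℕ, S = (ET x ⌊W⌋₊).filter (fun D : ℕ => Z < D ∧ F ≤ ff x D ∧ 1 ≤ ff x D) :=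
    ⟨_, rfl⟩
  obtain ⟨T, hT⟩ : ∃ T : ℕ → Finset ℕ, ∀ D, T D = N.filter (fun n => D ∣ n) := ⟨_, fun _ => rfl⟩
  have hcov : N ⊆ S.biUnion T := by
    intro n hn
    obtain ⟨a1, a2, D, b1, b2, b3, b4, b5, b6, b7⟩ := hN n hn
    rw [mem_biUnion]
    refine ⟨D, ?_, ?_⟩
    · rw [hS, mem_filter, mem_ET]
      exact ⟨⟨⟨by omega, Nat.le_floor b6⟩, b2, b3, b4⟩, b5, b7, a2.ff_pos b1⟩
    · rw [hT, mem_filter]
      exact ⟨hn, b1⟩
  have h1 : (N.card : ℝ) ≤ ∑ D ∈ S, ((T D).card : ℝ) := by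
    exact_mod_cast (card_le_card hcov).trans card_biUnion_le
  refine h1.trans ?_
  have h2 : ∀ D ∈ S, ((T D).card : ℝ) ≤ x / (Z * F) + 1 := by
    intro D hD
    rw [hS, mem_filter, mem_ET] at hD
    obtain ⟨⟨⟨a1, a2⟩, a3⟩, a4, a5, a6⟩ := hD
    refine (count_progression (x := x) a1 a6 (T D) (fun n hn => ?_)).trans ?_
    · rw [hT, mem_filter] at hn
      obtain ⟨b1, b2, _⟩ := hN n hn.1
      exact ⟨by have := b2.1; omega, b1, hn.2, b2.ff_dvd hn.2⟩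
    · have : (x : ℝ) / (D * ff x D) ≤ x / (Z * F) := by
        apply div_le_div_of_nonneg_left (Nat.cast_nonneg _) (by positivity)
        exact mul_le_mul a4.le a5 hF.le (Nat.cast_nonneg _)
      linarith
  refine (sum_le_sum h2).trans ?_
  rw [sum_const, nsmul_eq_mul]
  have hW0 : 0 ≤ W := by linarith
  apply mul_le_mul_of_nonneg_right _ (by positivity)
  have h3 : (S.card : ℝ) ≤ ((ET x ⌊W⌋₊).card : ℝ) := by
    rw [hS]; exact_mod_cast card_filter_le _ _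
  have hf1 : 1 ≤ ⌊W⌋₊ := Nat.le_floor (by exact_mod_cast hW)
  have hfx : ⌊W⌋₊ ≤ x := by
    have := Nat.floor_le hW0
    have h4 : ((⌊W⌋₊ : ℕ) : ℝ) ≤ x := this.trans hWx
    exact_mod_cast h4
  refine h3.trans ((h x ⌊W⌋₊ hy hf1 hfx).trans ?_)
  apply mul_le_mul_of_nonneg_left _ hC.le
  exact rpow_le_rpow (Nat.cast_nonneg _) (Nat.floor_le hW0) (by linarith)

/-- a divisor with few orders -/
theorem case_c2 (η1 η2 e α ν : ℝ) (h0 : 0 < η1) (h12 : η1 < η2) (h2 : η2 < 1) (he : 0 < e)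
    (he1 : e ≤ 1 / 8) (hα1 : (1 - η1) / 2 + e ≤ α) (hα2 : al e + η2 + 2 * e ≤ α) (hαν : α < ν)
    (hν : ν ≤ 1 / 2) :
    ∃ C : ℝ, 0 < C ∧ ∃ x0 : ℕ, ∀ x : ℕ, x0 ≤ x → ∀ (Z F : ℝ) (P : ℕ) (N : Finset ℕ), 1 ≤ Z → 0 ≤ F →
    F ≤ x →
    (∀ n ∈ N, n ≤ x ∧ Xn (yy x) n ∧ Ty x n ∧ n.minFac ≤ P ∧ ∃ D, D ∣ n ∧ Z < D ∧ (ff x D : ℝ) ≤ F) →
    (N.card : ℝ) ≤ C * (F * P * ((x : ℝ) ^ (1 / 2 + e) * Z ^ (-(1 / 2 + e - ν)))) := by
  classical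
  obtain ⟨C1, hC1, h1⟩ := smf_class e he
  obtain ⟨C2, hC2, x1, h3⟩ := smf_f η1 η2 e α ν h0 h12 h2 he he1 hα1 hα2 hαν
  obtain ⟨x2, hx2⟩ := ev_log_big 2
  refine ⟨C1 * C2, by positivity, max (max x1 x2) 1, fun x hx Z F P N hZ hF0 hFx hN => ?_⟩
  have ha1 : x1 ≤ x := (le_max_left _ _).trans ((le_max_left _ _).trans hx)
  have ha2 : x2 ≤ x := (le_max_right _ _).trans ((le_max_left _ _).trans hx)
  have hxone : 1 ≤ x := (le_max_right _ _).trans hx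
  have hx0 : (0 : ℝ) < x := by exact_mod_cast hxone
  have hL2 := hx2 x ha2
  have hy2 : 2 ≤ yy x := by
    apply Nat.le_floor
    push_cast
    nlinarith
  have hZ0 : 0 < Z := by linarith
  obtain ⟨SD, hSD⟩ : ∃ SD : ℕ → ℕ → Finset ℕ, ∀ f p, SD f p =
      (smf (Af x (o2 p) f) x).filter (fun D : ℕ => Z < D) := ⟨_, fun _ _ => rfl⟩
  have hcov : N ⊆ (Icc 1 ⌊F⌋₊).biUnion (fun f => (Icc 1 P).biUnion (fun p => (SD f p).biUnion
      (fun D => (smf (Ac x (o2 p)) (x / D)).image (fun m => D * m)))) := by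
    intro n hn
    obtain ⟨a1, a2, a3, a4, D, b1, b2, b3⟩ := hN n hn
    have hn2 := a2.1
    obtain ⟨m, hm⟩ := b1
    have hDn : D ∣ n := ⟨m, hm⟩
    have hmn : m ∣ n := ⟨D, by rw [hm, mul_comm]⟩
    have hD0 : 0 < D := Nat.pos_of_dvd_of_pos hDn (by omega)
    have hm0 : 0 < m := Nat.pos_of_dvd_of_pos hmn (by omega)
    have hcs : ∀ p : ℕ, p.Prime → p ∣ n → Cs x (o2 n.minFac) p := fun p hp hpn => a3.cs hp hpn
    have hple : ∀ p : ℕ, p ∣ n → p ≤ x := fun p hpn => (Nat.le_of_dvd (by omega) hpn).trans a1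
    rw [mem_biUnion]
    refine ⟨ff x D, mem_Icc.mpr ⟨a2.ff_pos hDn, Nat.le_floor b3⟩, ?_⟩
    rw [mem_biUnion]
    refine ⟨n.minFac, mem_Icc.mpr ⟨Nat.minFac_pos n, a4⟩, ?_⟩
    rw [mem_biUnion]
    refine ⟨D, ?_, ?_⟩
    · rw [hSD, mem_filter, smf, mem_filter, mem_Icc]
      refine ⟨⟨⟨hD0, hple D hDn⟩, a3.1.squarefree_of_dvd hDn, ?_⟩, b2⟩
      intro p hp
      have hp' := hp
      rw [Nat.mem_primeFactors] at hp
      rw [mem_Af]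
      have hpn := hp.2.1.trans hDn
      exact ⟨⟨hp.1.one_lt.le, hple p hpn⟩, hcs p hp.1 hpn, gp_dvd_ff hp'⟩
    · rw [mem_image]
      refine ⟨m, ?_, hm.symm⟩
      rw [smf, mem_filter, mem_Icc]
      refine ⟨⟨hm0, ?_⟩, a3.1.squarefree_of_dvd hmn, ?_⟩
      · rw [Nat.le_div_iff_mul_le hD0, mul_comm, ← hm]; exact a1
      · intro p hp
        rw [Nat.mem_primeFactors] at hp
        rw [mem_Ac]
        have hpn := hp.2.1.trans hmn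
        exact ⟨⟨hp.1.one_lt.le, hple p hpn⟩, hcs p hp.1 hpn⟩
  obtain ⟨B, hB⟩ : ∃ B : ℝ, B = C1 * C2 * ((x : ℝ) ^ (1 / 2 + e) * Z ^ (-(1 / 2 + e - ν))) := ⟨_, rfl⟩
  have hB0 : 0 ≤ B := by rw [hB]; positivity
  have hin : ∀ f ∈ Icc 1 ⌊F⌋₊, ∀ p ∈ Icc 1 P,
      ∑ D ∈ SD f p, ((smf (Ac x (o2 p)) (x / D)).card : ℝ) ≤ B := by
    intro f hf p hp
    rw [mem_Icc] at hf
    have hfx : f ≤ x := by
      have h4 : ((⌊F⌋₊ : ℕ) : ℝ) ≤ x := (Nat.floor_le hF0).trans hFx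
      have h5 : ⌊F⌋₊ ≤ x := by exact_mod_cast h4
      omega
    have h4 : ∀ D ∈ SD f p, ((smf (Ac x (o2 p)) (x / D)).card : ℝ) ≤
        C1 * ((x : ℝ) ^ (1 / 2 + e) * Z ^ (-(1 / 2 + e - ν))) * (D : ℝ) ^ (-ν) := by
      intro D hD
      rw [hSD, mem_filter, smf, mem_filter, mem_Icc] at hD
      have hD0 : (0 : ℝ) < D := by exact_mod_cast hD.1.1.1
      refine (h1 x hy2 (o2 p) (x / D)).trans ?_
      rw [mul_assoc]
      apply mul_le_mul_of_nonneg_left _ hC1.le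
      have h5 : ((x / D : ℕ) : ℝ) ^ (1 / 2 + e) ≤ (x : ℝ) ^ (1 / 2 + e) * (D : ℝ) ^ (-(1 / 2 + e)) := by
        calc ((x / D : ℕ) : ℝ) ^ (1 / 2 + e) ≤ ((x : ℝ) / D) ^ (1 / 2 + e) :=
              rpow_le_rpow (Nat.cast_nonneg _) Nat.cast_div_le (by positivity)
          _ = _ := by rw [div_rpow hx0.le hD0.le, rpow_neg hD0.le, div_eq_mul_inv]
      refine h5.trans ?_
      rw [mul_assoc]
      apply mul_le_mul_of_nonneg_left _ (by positivity)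
      have h6 : (D : ℝ) ^ (-(1 / 2 + e)) = (D : ℝ) ^ (-(1 / 2 + e - ν)) * (D : ℝ) ^ (-ν) := by
        rw [← rpow_add hD0]; congr 1; ring
      rw [h6]
      apply mul_le_mul_of_nonneg_right _ (by positivity)
      exact rpow_le_rpow_of_nonpos hZ0 hD.2.le (by linarith)
    refine (sum_le_sum h4).trans ?_
    rw [← mul_sum, hB]
    have h7 : ∑ D ∈ SD f p, (D : ℝ) ^ (-ν) ≤ C2 := by
      refine le_trans ?_ (h3 x ha1 f hf.1 hfx (o2 p) x)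
      rw [hSD]
      exact sum_le_sum_of_subset_of_nonneg (filter_subset _ _) fun _ _ _ => by positivity
    calc C1 * ((x : ℝ) ^ (1 / 2 + e) * Z ^ (-(1 / 2 + e - ν))) * ∑ D ∈ SD f p, (D : ℝ) ^ (-ν) ≤
        C1 * ((x : ℝ) ^ (1 / 2 + e) * Z ^ (-(1 / 2 + e - ν))) * C2 :=
          mul_le_mul_of_nonneg_left h7 (by positivity)
      _ = _ := by ring
  have h4 : (N.card : ℝ) ≤ ∑ f ∈ Icc 1 ⌊F⌋₊, ∑ p ∈ Icc 1 P, ∑ D ∈ SD f p,
      ((smf (Ac x (o2 p)) (x / D)).card : ℝ) := by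
    have h5 : N.card ≤ ∑ f ∈ Icc 1 ⌊F⌋₊, ∑ p ∈ Icc 1 P, ∑ D ∈ SD f p,
        (smf (Ac x (o2 p)) (x / D)).card := by
      refine (card_le_card hcov).trans (card_biUnion_le.trans (sum_le_sum fun f _ => ?_))
      refine card_biUnion_le.trans (sum_le_sum fun p _ => ?_)
      exact card_biUnion_le.trans (sum_le_sum fun D _ => card_image_le)
    exact_mod_cast h5
  refine h4.trans ?_
  have h5 : ∑ f ∈ Icc 1 ⌊F⌋₊, ∑ p ∈ Icc 1 P, ∑ D ∈ SD f p,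
      ((smf (Ac x (o2 p)) (x / D)).card : ℝ) ≤ ∑ _f ∈ Icc 1 ⌊F⌋₊, ∑ _p ∈ Icc 1 P, B :=
    sum_le_sum fun f hf => sum_le_sum fun p hp => hin f hf p hp
  refine h5.trans ?_
  rw [sum_const, sum_const, nsmul_eq_mul, nsmul_eq_mul, Nat.card_Icc, Nat.card_Icc,
    Nat.add_sub_cancel, Nat.add_sub_cancel]
  calc (⌊F⌋₊ : ℝ) * (P * B) ≤ F * (P * B) :=
        mul_le_mul_of_nonneg_right (Nat.floor_le hF0) (by positivity)
    _ = _ := by rw [hB]; ring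

end Run7.h306
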