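import Pool.Agent.H379R2.W.Strong
import Pool.Agent.W57.SW.Group

set_option autoImplicit false

/-! Prime divisors of a number without small witnesses: orders of the small bases. -/

namespace Run7.h306

open Finset Real Pool.Agent.H379R2.W Pool.Agent.W57.SW

/-- exponent of two in the order of `ℓ` modulo `p` -/
noncomputable def o2 (p ℓ : ℕ) : ℕ := (orderOf (ℓ : ZMod p)).factorization 2

/-- the least common multiple of the orders of the primes up to `y` modulo `p` -/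
noncomputable def gp (y p : ℕ) : ℕ := (pr y).lcm (fun b => orderOf (b : ZMod p))

lemma split2 {m : ℕ} (hm : m ≠ 0) : ∃ t, Odd t ∧ m = 2 ^ (m.factorization 2) * t := by
  refine ⟨m / 2 ^ (m.factorization 2), ?_, ?_⟩
  · have := Nat.not_dvd_ordCompl Nat.prime_two hm
    rw [← Nat.not_even_iff_odd, even_iff_two_dvd]
    exact this
  · exact (Nat.ordProj_mul_ordCompl_eq_self m 2).symm

lemma dvd_two_pow_mul {a c s t : ℕ} (hs : Odd s) (ht : Odd t) (h : 2 ^ a * s ∣ 2 ^ c * t) :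
    a ≤ c ∧ s ∣ t := by
  have h2s : Nat.Coprime 2 s := (Nat.coprime_two_left).mpr hs
  have h2t : Nat.Coprime 2 t := (Nat.coprime_two_left).mpr ht
  constructor
  · have h1 : 2 ^ a ∣ 2 ^ c * t := (dvd_mul_right _ _).trans h
    have h2 : 2 ^ a ∣ 2 ^ c := (Nat.Coprime.dvd_of_dvd_mul_right (h2t.pow_left a) h1)
    exact (Nat.pow_dvd_pow_iff_le_right (by norm_num)).mp h2
  · have h1 : s ∣ 2 ^ c * t := (dvd_mul_left _ _).trans h
    exact (Nat.Coprime.dvd_of_dvd_mul_left (h2s.symm.pow_right c) h1)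

lemma o2_of_odd {p b d : ℕ} (hd : Odd d) (h : (b : ZMod p) ^ d = 1) : o2 p b = 0 := by
  have h1 : orderOf (b : ZMod p) ∣ d := orderOf_dvd_of_pow_eq_one h
  apply Nat.factorization_eq_zero_of_not_dvd
  intro h2
  have h3 : 2 ∣ d := h2.trans h1
  rw [← Nat.not_even_iff_odd, even_iff_two_dvd] at hd
  exact hd h3

lemma o2_of_neg {p b d i : ℕ} (hp : p.Prime) (hp2 : p ≠ 2) (hd : Odd d)
    (h : (b : ZMod p) ^ (2 ^ i * d) = -1) : o2 p b = i + 1 := by
  haveI := Fact.mk hp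
  haveI : Fact (2 < p) := ⟨lt_of_le_of_ne hp.two_le (Ne.symm hp2)⟩
  have hne : (-1 : ZMod p) ≠ 1 := ZMod.neg_one_ne_one
  have h1 : (b : ZMod p) ^ (2 ^ (i + 1) * d) = 1 := by
    have e : 2 ^ (i + 1) * d = 2 ^ i * d * 2 := by ring
    rw [e, pow_mul, h]; norm_num
  have h2 := orderOf_dvd_of_pow_eq_one h1
  have h3 : ¬ orderOf (b : ZMod p) ∣ 2 ^ i * d := by
    intro h4
    rw [orderOf_dvd_iff_pow_eq_one, h] at h4
    exact hne h4
  have h0 : orderOf (b : ZMod p) ≠ 0 := by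
    intro h0
    rw [h0, zero_dvd_iff] at h2
    have := hd.pos
    have : 0 < 2 ^ (i + 1) * d := by positivity
    omega
  obtain ⟨t, ht, hot⟩ := split2 h0
  unfold o2
  obtain ⟨a, ha⟩ : ∃ a, a = (orderOf (b : ZMod p)).factorization 2 := ⟨_, rfl⟩
  rw [← ha] at hot ⊢
  rw [hot] at h2 h3
  obtain ⟨h4, h5⟩ := dvd_two_pow_mul ht hd h2
  by_contra h6
  apply h3
  exact mul_dvd_mul (pow_dvd_pow 2 (by omega)) h5

/-- the exponent of two of the orders is the same for all prime divisors -/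
lemma o2_eq {n b p q : ℕ} (h : Passes n b) (hp : p.Prime) (hq : q.Prime) (hp2 : p ≠ 2)
    (hq2 : q ≠ 2) (hpn : p ∣ n) (hqn : q ∣ n) : o2 p b = o2 q b := by
  obtain ⟨j, d, h1, h2, h3⟩ := h
  rcases h3 with h3 | ⟨i, hi, h3⟩
  · have e1 := congrArg (ZMod.castHom hpn (ZMod p)) h3
    rw [map_pow, map_natCast, map_one] at e1
    have e2 := congrArg (ZMod.castHom hqn (ZMod q)) h3
    rw [map_pow, map_natCast, map_one] at e2
    rw [o2_of_odd h2 e1, o2_of_odd h2 e2]
  · have e1 := congrArg (ZMod.castHom hpn (ZMod p)) h3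
    rw [map_pow, map_natCast, map_neg, map_one] at e1
    have e2 := congrArg (ZMod.castHom hqn (ZMod q)) h3
    rw [map_pow, map_natCast, map_neg, map_one] at e2
    rw [o2_of_neg hp hp2 h2 e1, o2_of_neg hq hq2 h2 e2]

/-- the symbol is determined by the exponent of two of the order -/
lemma symbol_o2 {p b : ℕ} (hp : p.Prime) (hp2 : p ≠ 2) (hb : ¬ p ∣ b) :
    jacobiSym (b : ℤ) p = if o2 p b = v2 p then -1 else 1 := by
  haveI := Fact.mk hp
  haveI : Fact (2 < p) := ⟨lt_of_le_of_ne hp.two_le (Ne.symm hp2)⟩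
  have hb0 : (b : ZMod p) ≠ 0 := by
    intro h0
    exact hb ((ZMod.natCast_eq_zero_iff _ _).mp h0)
  have hb0' : ((b : ℤ) : ZMod p) ≠ 0 := by push_cast; exact hb0
  have hj : jacobiSym (b : ℤ) p = legendreSym p (b : ℤ) :=
    (jacobiSym.legendreSym.to_jacobiSym p b).symm
  rw [hj]
  have hleg := legendreSym.eq_one_or_neg_one p hb0'
  have hpow := legendreSym.eq_pow p (b : ℤ)
  push_cast at hpow
  obtain ⟨t, ht, hpt⟩ := v2_spec hp.two_le
  have hv := v2_pos hp hp2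
  obtain ⟨w, hw⟩ : ∃ w, v2 p = w + 1 := ⟨v2 p - 1, by omega⟩
  have hhalf : p / 2 = 2 ^ w * t := by
    rw [hw, pow_succ] at hpt
    have : p = 2 * (2 ^ w * t) + 1 := by
      have := hp.two_le
      have e : 2 ^ w * 2 * t = 2 * (2 ^ w * t) := by ring
      omega
    omega
  have hord : orderOf (b : ZMod p) ∣ p - 1 :=
    orderOf_dvd_of_pow_eq_one (ZMod.pow_card_sub_one_eq_one hb0)
  have hp1 : p - 1 ≠ 0 := by have := hp.two_le; omega
  have h0 : orderOf (b : ZMod p) ≠ 0 := by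
    intro h0
    rw [h0, zero_dvd_iff] at hord
    exact hp1 hord
  obtain ⟨s, hs, hos⟩ := split2 h0
  obtain ⟨a, ha⟩ : ∃ a, a = (orderOf (b : ZMod p)).factorization 2 := ⟨_, rfl⟩
  rw [← ha] at hos
  have hoa : o2 p b = a := by rw [ha]; rfl
  rw [hoa]
  rw [hos, hpt] at hord
  obtain ⟨h4, h5⟩ := dvd_two_pow_mul hs ht hord
  split_ifs with h
  · rcases hleg with h1 | h1
    · exfalso
      rw [h1, hhalf] at hpow
      push_cast at hpow
      have h6 := orderOf_dvd_of_pow_eq_one hpow.symm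
      rw [hos] at h6
      have := (dvd_two_pow_mul hs ht h6).1
      omega
    · exact h1
  · rcases hleg with h1 | h1
    · exact h1
    · exfalso
      rw [h1, hhalf] at hpow
      have h6 : orderOf (b : ZMod p) ∣ 2 ^ w * t := by
        rw [hos]
        exact mul_dvd_mul (pow_dvd_pow 2 (by omega)) h5
      rw [orderOf_dvd_iff_pow_eq_one] at h6
      rw [h6] at hpow
      push_cast at hpow
      exact ZMod.neg_one_ne_one hpow

lemma o2_le {p b : ℕ} (hp : p.Prime) (hb : ¬ p ∣ b) : o2 p b ≤ v2 p := by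
  haveI := Fact.mk hp
  have hb0 : (b : ZMod p) ≠ 0 := by
    intro h0
    exact hb ((ZMod.natCast_eq_zero_iff _ _).mp h0)
  have hord : orderOf (b : ZMod p) ∣ p - 1 :=
    orderOf_dvd_of_pow_eq_one (ZMod.pow_card_sub_one_eq_one hb0)
  have hp1 : p - 1 ≠ 0 := by have := hp.two_le; omega
  have h0 : orderOf (b : ZMod p) ≠ 0 := by
    intro h0
    rw [h0, zero_dvd_iff] at hord
    exact hp1 hord
  exact (Nat.factorization_le_iff_dvd h0 hp1).mpr hord 2

/-- `n` is composite and passes the strong test for all prime bases `b ≤ y` -/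
def Xn (y n : ℕ) : Prop := 2 ≤ n ∧ ¬ n.Prime ∧ ∀ b : ℕ, b.Prime → b ≤ y → Passes n b

lemma Xn.prime_gt {y n p : ℕ} (h : Xn y n) (hp : p.Prime) (hpn : p ∣ n) : y < p := by
  by_contra hle
  push Not at hle
  exact not_dvd_of_passes h.1 hp hpn (h.2.2 p hp hle) dvd_rfl

lemma orderOf_dvd_gp {y p b : ℕ} (h1 : b.Prime) (h2 : b ≤ y) : orderOf (b : ZMod p) ∣ gp y p :=
  Finset.dvd_lcm (f := fun b : ℕ => orderOf (b : ZMod p)) (mem_pr.mpr ⟨h1, h2⟩)

lemma gp_dvd {y p : ℕ} (hp : p.Prime) (hy : y < p) : gp y p ∣ p - 1 := by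
  haveI := Fact.mk hp
  apply Finset.lcm_dvd
  intro b hb
  rw [mem_pr] at hb
  apply orderOf_dvd_of_pow_eq_one
  apply ZMod.pow_card_sub_one_eq_one
  intro h0
  have := Nat.le_of_dvd hb.1.pos ((ZMod.natCast_eq_zero_iff _ _).mp h0)
  omega

lemma gp_pos {y p : ℕ} (hp : p.Prime) (hy : y < p) : 0 < gp y p :=
  Nat.pos_of_dvd_of_pos (gp_dvd hp hy) (by have := hp.two_le; omega)

lemma Xn.gp_dvd_sub {y n p : ℕ} (h : Xn y n) (hpn : p ∣ n) : gp y p ∣ n - 1 := by
  apply Finset.lcm_dvd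
  intro b hb
  rw [mem_pr] at hb
  apply orderOf_dvd_of_pow_eq_one
  exact pow_of_passes_dvd (h.2.2 b hb.1 hb.2) hpn

lemma Xn.gp_dvd_cof {y n p m : ℕ} (h : Xn y n) (hp : p.Prime) (hn : n = p * m) :
    gp y p ∣ m - 1 := by
  have hpn : p ∣ n := ⟨m, hn⟩
  have h1 := h.gp_dvd_sub hpn
  have h2 := gp_dvd hp (h.prime_gt hp hpn)
  have hm1 : 1 ≤ m := by
    rcases Nat.eq_zero_or_pos m with h0 | h0
    · rw [h0, mul_zero] at hn; have := h.1; omega
    · exact h0
  have e1 : n - 1 = (m - 1) + (p - 1) * m := by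
    rw [hn]
    obtain ⟨q', rfl⟩ : ∃ q', p = q' + 1 := ⟨p - 1, by have := hp.two_le; omega⟩
    obtain ⟨m', rfl⟩ : ∃ m', m = m' + 1 := ⟨m - 1, by omega⟩
    simp only [Nat.add_sub_cancel]
    rw [show (q' + 1) * (m' + 1) = m' + q' * (m' + 1) + 1 by ring]
    omega
  rw [e1] at h1
  exact (Nat.dvd_add_iff_left (h2.mul_right m)).mpr h1

/-- the solutions of `z ^ g = 1` modulo a prime -/
lemma card_roots {p g : ℕ} (hp : p.Prime) (hg : 0 < g) (S : Finset ℕ)
    (h1 : ∀ s ∈ S, 1 ≤ s ∧ s ≤ p) (h2 : ∀ s ∈ S, (s : ZMod p) ^ g = 1) : S.card ≤ g := by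
  classical
  haveI := Fact.mk hp
  have h3 : S.card ≤ (Polynomial.nthRoots g (1 : ZMod p)).toFinset.card := by
    apply card_le_card_of_injOn (fun s : ℕ => (s : ZMod p))
    · intro s hs
      rw [mem_coe] at hs
      rw [mem_coe, Multiset.mem_toFinset, Polynomial.mem_nthRoots hg]
      exact h2 s hs
    · intro s hs s' hs' hss
      rw [mem_coe] at hs hs'
      obtain ⟨a1, a2⟩ := h1 s hs
      obtain ⟨b1, b2⟩ := h1 s' hs'
      simp only at hss
      rw [ZMod.natCast_eq_natCast_iff] at hss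
      have h2 : (s - 1) ≡ (s' - 1) [MOD p] := by
        have e1 : s = (s - 1) + 1 := by omega
        have e2 : s' = (s' - 1) + 1 := by omega
        rw [e1, e2] at hss
        exact Nat.ModEq.add_right_cancel' 1 hss
      have h3 := Nat.ModEq.eq_of_lt_of_lt h2 (by omega) (by omega)
      omega
  exact h3.trans ((Multiset.toFinset_card_le _).trans (Polynomial.card_nthRoots g 1))

lemma smooth_pow_gp {y p s : ℕ} (hs : 1 ≤ s) (h : ∀ q : ℕ, q.Prime → q ∣ s → q ≤ y) :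
    (s : ZMod p) ^ gp y p = 1 := by
  apply pow_eq_one_of_primes s hs
  intro q hq hqs
  exact orderOf_dvd_iff_pow_eq_one.mp (orderOf_dvd_gp hq (h q hq hqs))

/-- the group generated by the small primes is large -/
lemma gp_low (e : ℝ) (he : 0 < e) : ∃ D0 : ℕ, ∀ (y p : ℕ), p.Prime → y < p → D0 ≤ p →
    (log p) ^ (2 : ℝ) < y + 1 → (p : ℝ) ^ (1 / 2 - e) ≤ gp y p := by
  obtain ⟨D0, hD0⟩ := smooth_many 2 e (by norm_num) he
  refine ⟨D0, fun y p hp hy hD hlog => ?_⟩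
  obtain ⟨S, hS1, hS2⟩ := hD0 p hD
  have e1 : (1 : ℝ) - 1 / 2 - e = 1 / 2 - e := by ring
  rw [e1] at hS2
  refine hS2.trans ?_
  have h1 := card_roots hp (gp_pos hp hy) S (fun s hs => ⟨(hS1 s hs).1, (hS1 s hs).2.1⟩)
    (fun s hs => ?_)
  · exact_mod_cast h1
  · apply smooth_pow_gp (hS1 s hs).1
    intro q hq hqs
    have h2 := (hS1 s hs).2.2.2.2 q hq hqs
    have h3 : (q : ℝ) < ((y + 1 : ℕ) : ℝ) := by push_cast; linarith
    have h4 : q < y + 1 := by exact_mod_cast h3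
    omega

/-- `n` is composite and passes the strong test for all prime bases `b ≤ 2 (log n)^2` -/
def Bp (n : ℕ) : Prop :=
  2 ≤ n ∧ ¬ n.Prime ∧ ∀ b : ℕ, b.Prime → (b : ℝ) ≤ 2 * (log n) ^ 2 → Passes n b

/-- such a number is squarefree, if it is large -/
lemma bp_squarefree : ∃ N : ℕ, ∀ n : ℕ, N ≤ n → Bp n → Squarefree n := by
  obtain ⟨D0, hD0⟩ := smooth_count
  have h1 : ∀ᶠ x : ℝ in Filter.atTop, (D0 : ℝ) ≤ log x :=
    tendsto_log_atTop.eventually (Filter.eventually_ge_atTop _)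
  have h2 : ∀ᶠ x : ℝ in Filter.atTop, (1 : ℝ) ≤ log x :=
    tendsto_log_atTop.eventually (Filter.eventually_ge_atTop _)
  obtain ⟨Y, hY⟩ := Filter.eventually_atTop.mp (h1.and h2)
  refine ⟨⌈Y⌉₊, fun n hn hb => ?_⟩
  obtain ⟨a1, a2⟩ := hY n (Nat.ceil_le.mp hn)
  rw [Nat.squarefree_iff_prime_squarefree]
  intro p hp hpn
  have hpn' : p ^ 2 ∣ n := by rw [sq]; exact hpn
  have hpn1 : p ∣ n := (dvd_mul_right p p).trans hpn
  have hn0 : 0 < n := by have := hb.1; omega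
  have hlarge : 2 * (log n) ^ 2 < (p : ℝ) := by
    by_contra hle
    push Not at hle
    exact not_dvd_of_passes hb.1 hp hpn1 (hb.2.2 p hp hle) dvd_rfl
  have hD : D0 ≤ p ^ 2 := by
    have e1 : (D0 : ℝ) ≤ p := by nlinarith
    have e2 : D0 ≤ p := by exact_mod_cast e1
    have e3 : p ≤ p ^ 2 := by rw [sq]; exact Nat.le_mul_of_pos_left p hp.pos
    omega
  -- the group bound modulo `p ^ 2`
  have h3 : ((p ^ 2 : ℕ) : ℝ) < (liars n (p ^ 2) : ℝ) ^ 2 := by
    have : NeZero (p ^ 2) := ⟨pow_ne_zero 2 hp.ne_zero⟩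
    obtain ⟨S, hS1, hS2⟩ := hD0 (p ^ 2) hD
    refine hS2.trans_le ?_
    have hD1 : 1 ≤ p ^ 2 := Nat.one_le_pow 2 p hp.pos
    have hDle : p ^ 2 ≤ n := Nat.le_of_dvd hn0 hpn'
    have hlog : log ((p ^ 2 : ℕ) : ℝ) ≤ log n :=
      log_le_log (by exact_mod_cast hD1) (by exact_mod_cast hDle)
    have hlog0 : 0 ≤ log ((p ^ 2 : ℕ) : ℝ) := log_natCast_nonneg _
    have hy : 2 * (log ((p ^ 2 : ℕ) : ℝ)) ^ 2 ≤ 2 * (log n) ^ 2 := by
      have := pow_le_pow_left₀ hlog0 hlog 2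
      linarith
    have hmem : ∀ s ∈ S, (s : ZMod (p ^ 2)) ^ (n - 1) = 1 := by
      intro s hs
      obtain ⟨h1, h2, h3⟩ := hS1 s hs
      refine pow_eq_one_of_primes s h1 fun q hq hqs => ?_
      exact pow_of_passes_dvd (hb.2.2 q hq ((h3 q hq hqs).trans hy)) hpn'
    have hcard : S.card ≤ liars n (p ^ 2) := by
      unfold liars
      have hinj : Function.Injective (fun s : S => (⟨((s : ℕ) : ZMod (p ^ 2)), hmem s s.2⟩ :
          {z : ZMod (p ^ 2) // z ^ (n - 1) = 1})) := by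
        intro s s' hss
        have h1 : ((s : ℕ) : ZMod (p ^ 2)) = ((s' : ℕ) : ZMod (p ^ 2)) :=
          congrArg Subtype.val hss
        rw [ZMod.natCast_eq_natCast_iff] at h1
        obtain ⟨a1, a2, _⟩ := hS1 s s.2
        obtain ⟨b1, b2, _⟩ := hS1 s' s'.2
        apply Subtype.ext
        have h2 : ((s : ℕ) - 1) ≡ ((s' : ℕ) - 1) [MOD p ^ 2] := by
          have e1 : (s : ℕ) = ((s : ℕ) - 1) + 1 := by omega
          have e2 : (s' : ℕ) = ((s' : ℕ) - 1) + 1 := by omega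
          rw [e1, e2] at h1
          exact Nat.ModEq.add_right_cancel' 1 h1
        have h3 := Nat.ModEq.eq_of_lt_of_lt h2 (by omega) (by omega)
        omega
      have h1 := Nat.card_le_card_of_injective _ hinj
      rw [Nat.card_eq_fintype_card, Fintype.card_coe] at h1
      exact h1
    have : (S.card : ℝ) ≤ liars n (p ^ 2) := by exact_mod_cast hcard
    exact pow_le_pow_left₀ (by positivity) this 2
  have h4 := liars_sq hb.1 hp hpn1
  have h5 : (liars n (p ^ 2) : ℝ) ≤ p := by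
    have : liars n (p ^ 2) ≤ p := by omega
    exact_mod_cast this
  have h6 := pow_le_pow_left₀ (by positivity : (0 : ℝ) ≤ liars n (p ^ 2)) h5 2
  push_cast at h3
  linarith

end Run7.h306
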