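import Pool.Agent.H379R2.W.Rankin
import Pool.Agent.Run7.h306.Asy

set_option autoImplicit false

/-! Few small divisors of an integer (Rankin's trick). -/

namespace Run7.h306

open Finset Real Pool.Agent.H379R2.W

/-- the sum of `g^(-η)` over the divisors -/
noncomputable def Fd (η : ℝ) (f : ℕ) : ℝ := ∑ g ∈ f.divisors, (g : ℝ) ^ (-η)

lemma Fd_mul (η : ℝ) (m n : ℕ) : Fd η (m * n) ≤ Fd η m * Fd η n := by
  classical
  unfold Fd
  rw [sum_mul_sum, ← sum_product']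
  have h1 : (m * n).divisors ⊆ (m.divisors ×ˢ n.divisors).image (fun w : ℕ × ℕ => w.1 * w.2) := by
    intro g hg
    rw [Nat.mem_divisors] at hg
    obtain ⟨⟨a, b, ha, hb, hab⟩, h0⟩ := And.intro (Nat.dvd_mul.mp hg.1) hg.2
    rw [mem_image]
    rw [Nat.mul_ne_zero_iff] at h0
    exact ⟨(a, b), mem_product.mpr ⟨Nat.mem_divisors.mpr ⟨ha, h0.1⟩, Nat.mem_divisors.mpr ⟨hb, h0.2⟩⟩, hab⟩
  refine (sum_le_sum_of_subset_of_nonneg h1 fun _ _ _ => by positivity).trans ?_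
  have h2 : ∀ (P : Finset (ℕ × ℕ)), ∑ g ∈ P.image (fun w : ℕ × ℕ => w.1 * w.2), (g : ℝ) ^ (-η) ≤
      ∑ w ∈ P, (w.1 : ℝ) ^ (-η) * (w.2 : ℝ) ^ (-η) := by
    intro P
    have h3 : ∀ w ∈ P, (w.1 : ℝ) ^ (-η) * (w.2 : ℝ) ^ (-η) = ((w.1 * w.2 : ℕ) : ℝ) ^ (-η) := by
      intro w _
      push_cast
      rw [mul_rpow (Nat.cast_nonneg _) (Nat.cast_nonneg _)]
    rw [sum_congr rfl h3]
    exact sum_image_le_of_nonneg (s := P) (g := fun w : ℕ × ℕ => w.1 * w.2)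
      (f := fun g : ℕ => (g : ℝ) ^ (-η)) (fun _ _ => by positivity)
  exact h2 _

lemma Fd_nonneg (η : ℝ) (f : ℕ) : 0 ≤ Fd η f := sum_nonneg fun _ _ => by positivity

lemma Fd_prime_pow (η : ℝ) (hη : 0 < η) {p : ℕ} (hp : p.Prime) (a : ℕ) :
    Fd η (p ^ a) ≤ exp ((1 - (2 : ℝ) ^ (-η))⁻¹ * (p : ℝ) ^ (-η)) := by
  unfold Fd
  rw [Nat.divisors_prime_pow hp, sum_map]
  simp only [Function.Embedding.coeFn_mk]
  have hp0 : (0 : ℝ) < p := by exact_mod_cast hp.pos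
  have hp2 : (2 : ℝ) ≤ p := by exact_mod_cast hp.two_le
  obtain ⟨t, ht⟩ : ∃ t : ℝ, t = (p : ℝ) ^ (-η) := ⟨_, rfl⟩
  have ht0 : 0 < t := by rw [ht]; positivity
  have ht2 : t ≤ (2 : ℝ) ^ (-η) := by
    rw [ht]
    exact rpow_le_rpow_of_nonpos (by norm_num) hp2 (by linarith)
  have h21 : (2 : ℝ) ^ (-η) < 1 := rpow_lt_one_of_one_lt_of_neg (by norm_num) (by linarith)
  have ht1 : t < 1 := by linarith
  have e1 : ∀ i ∈ range (a + 1), ((p ^ i : ℕ) : ℝ) ^ (-η) = t ^ i := by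
    intro i _
    rw [ht, ← rpow_natCast ((p : ℝ) ^ (-η)), ← rpow_mul hp0.le]
    push_cast
    rw [← rpow_natCast (p : ℝ), ← rpow_mul hp0.le]
    congr 1; ring
  rw [sum_congr rfl e1]
  have h3 : ∑ i ∈ range (a + 1), t ^ i ≤ (1 - t)⁻¹ := by
    rw [← tsum_geometric_of_lt_one ht0.le ht1]
    exact (summable_geometric_of_lt_one ht0.le ht1).sum_le_tsum _ fun i _ => by positivity
  refine h3.trans ?_
  rw [← ht]
  have h4 : (1 - t)⁻¹ = 1 + (1 - t)⁻¹ * t := by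
    have : 1 - t ≠ 0 := by linarith
    field_simp
    ring
  have h5 : (1 - t)⁻¹ ≤ (1 - (2 : ℝ) ^ (-η))⁻¹ := by
    apply inv_anti₀ (by linarith) (by linarith)
  have h6 : (1 - t)⁻¹ * t ≤ (1 - (2 : ℝ) ^ (-η))⁻¹ * t := mul_le_mul_of_nonneg_right h5 ht0.le
  have h7 := add_one_le_exp ((1 - (2 : ℝ) ^ (-η))⁻¹ * t)
  linarith

lemma Fd_le (η : ℝ) (hη : 0 < η) {f : ℕ} (hf : 1 ≤ f) :
    Fd η f ≤ exp ((1 - (2 : ℝ) ^ (-η))⁻¹ * ∑ p ∈ f.primeFactors, (p : ℝ) ^ (-η)) := by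
  classical
  have h1 : ∀ s : Finset ℕ, (∀ p ∈ s, p.Prime) → Fd η (∏ p ∈ s, p ^ f.factorization p) ≤
      exp ((1 - (2 : ℝ) ^ (-η))⁻¹ * ∑ p ∈ s, (p : ℝ) ^ (-η)) := by
    intro s
    induction s using Finset.induction_on with
    | empty => intro _; simp [Fd]
    | insert a s ha ih =>
      intro hs
      rw [prod_insert ha, sum_insert ha, mul_add, exp_add]
      refine (Fd_mul η _ _).trans ?_
      exact mul_le_mul (Fd_prime_pow η hη (hs a (mem_insert_self a s)) _)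
        (ih fun p hp => hs p (mem_insert_of_mem hp)) (Fd_nonneg _ _) (exp_pos _).le
  have h2 := h1 f.primeFactors fun p hp => Nat.prime_of_mem_primeFactors hp
  have h3 : ∏ p ∈ f.primeFactors, p ^ f.factorization p = f :=
    Nat.prod_factorization_pow_eq_self (by omega)
  rwa [h3] at h2

lemma sum_pf (η : ℝ) (hη : 0 < η) (hη1 : η ≤ 1) (A : Finset ℕ) (hA : ∀ q ∈ A, 1 ≤ q) :
    ∑ q ∈ A, (q : ℝ) ^ (-η) ≤ (A.card : ℝ) ^ (1 - η) * (2 + log A.card) := by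
  classical
  rcases Nat.eq_zero_or_pos A.card with h0 | h0
  · rw [card_eq_zero] at h0
    rw [h0, sum_empty, card_empty, Nat.cast_zero, log_zero]
    positivity
  obtain ⟨W, hW⟩ : ∃ W, W = A.card := ⟨_, rfl⟩
  rw [← hW] at h0 ⊢
  have hW0 : (0 : ℝ) < W := by exact_mod_cast h0
  rw [← sum_filter_add_sum_filter_not A (fun q => q ≤ W)]
  have h1 : ∑ q ∈ A.filter (fun q => q ≤ W), (q : ℝ) ^ (-η) ≤ (W : ℝ) ^ (1 - η) * (1 + log W) := by
    refine le_trans ?_ (sum_rpow_le W η hη1)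
    apply sum_le_sum_of_subset_of_nonneg
    · intro q hq
      rw [mem_filter] at hq
      exact mem_Icc.mpr ⟨hA q hq.1, hq.2⟩
    · intro q _ _; positivity
  have h2 : ∑ q ∈ A.filter (fun q => ¬ q ≤ W), (q : ℝ) ^ (-η) ≤ (W : ℝ) ^ (1 - η) := by
    have h3 : ∀ q ∈ A.filter (fun q => ¬ q ≤ W), (q : ℝ) ^ (-η) ≤ (W : ℝ) ^ (-η) := by
      intro q hq
      rw [mem_filter] at hq
      apply rpow_le_rpow_of_nonpos hW0 _ (by linarith)
      exact_mod_cast (by omega : W ≤ q)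
    refine (sum_le_sum h3).trans ?_
    rw [sum_const, nsmul_eq_mul]
    have h4 : ((A.filter (fun q => ¬ q ≤ W)).card : ℝ) ≤ W := by
      rw [hW]; exact_mod_cast card_filter_le _ _
    have h5 : (W : ℝ) ^ (1 - η) = W * (W : ℝ) ^ (-η) := by
      rw [show (1 - η) = 1 + (-η) by ring, rpow_add hW0, rpow_one]
    rw [h5]
    exact mul_le_mul_of_nonneg_right h4 (by positivity)
  linarith

/-- an integer has few divisors up to `X`, if `X` is not too small -/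
theorem few_div (η1 η2 ε : ℝ) (h0 : 0 < η1) (h12 : η1 < η2) (h2 : η2 < 1) (hε : 0 < ε) :
    ∃ L0 : ℝ, 3 ≤ L0 ∧ ∀ L : ℝ, L0 ≤ L → ∀ f : ℕ, 1 ≤ f → log f ≤ L → ∀ X : ℝ, 0 < X →
      L ^ (1 - η1) ≤ log X →
      ((f.divisors.filter (fun g : ℕ => (g : ℝ) ≤ X)).card : ℝ) ≤ X ^ (η2 + ε) := by
  obtain ⟨C, hC⟩ : ∃ C : ℝ, C = (1 - (2 : ℝ) ^ (-η2))⁻¹ := ⟨_, rfl⟩
  have h21 : (2 : ℝ) ^ (-η2) < 1 := rpow_lt_one_of_one_lt_of_neg (by norm_num) (by linarith)
  have hC0 : 0 < C := by rw [hC]; exact inv_pos.mpr (by linarith)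
  have hev : ∀ᶠ L : ℝ in Filter.atTop, C * ((2 * L) ^ (1 - η2) * (2 + log (2 * L))) ≤
      ε * L ^ (1 - η1) := by
    have hd : 0 < (η2 - η1) / 2 := by linarith
    have h3 := (isLittleO_log_rpow_atTop hd).def
      (show (0 : ℝ) < 1 by norm_num)
    have h4 : ∀ᶠ L : ℝ in Filter.atTop, C * 2 ^ (1 - η2) * 4 / ε ≤ L ^ ((η2 - η1) / 2) :=
      (tendsto_rpow_atTop hd).eventually (Filter.eventually_ge_atTop _)
    have h5 : ∀ᶠ L : ℝ in Filter.atTop, (1 : ℝ) ≤ L ^ ((η2 - η1) / 2) :=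
      (tendsto_rpow_atTop hd).eventually (Filter.eventually_ge_atTop _)
    filter_upwards [h3, h4, h5, Filter.eventually_ge_atTop 3] with L a1 a2 a3 a4
    have hL0 : 0 < L := by linarith
    have hlog : 0 ≤ log L := log_nonneg (by linarith)
    rw [norm_of_nonneg hlog, norm_of_nonneg (by positivity), one_mul] at a1
    rw [mul_rpow (by norm_num) hL0.le, log_mul (by norm_num) hL0.ne']
    have e0 : 2 + (log 2 + log L) ≤ 4 * L ^ ((η2 - η1) / 2) := by
      have := log_two_lt_d9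
      linarith
    have e1 : L ^ (1 - η1) = L ^ (1 - η2) * L ^ ((η2 - η1) / 2) * L ^ ((η2 - η1) / 2) := by
      rw [← rpow_add hL0, ← rpow_add hL0]; congr 1; ring
    rw [e1]
    rw [div_le_iff₀ hε] at a2
    have e2 : 0 < L ^ (1 - η2) := by positivity
    have e3 : 0 < (2 : ℝ) ^ (1 - η2) := by positivity
    calc C * (2 ^ (1 - η2) * L ^ (1 - η2) * (2 + (log 2 + log L))) ≤
        C * (2 ^ (1 - η2) * L ^ (1 - η2) * (4 * L ^ ((η2 - η1) / 2))) := by gcongr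
      _ = (C * 2 ^ (1 - η2) * 4) * (L ^ (1 - η2) * L ^ ((η2 - η1) / 2)) := by ring
      _ ≤ (L ^ ((η2 - η1) / 2) * ε) * (L ^ (1 - η2) * L ^ ((η2 - η1) / 2)) := by gcongr
      _ = _ := by ring
  obtain ⟨L1, hL1⟩ := Filter.eventually_atTop.mp hev
  refine ⟨max 3 L1, le_max_left _ _, fun L hL f hf hfL X hX hXL => ?_⟩
  have hL3 : 3 ≤ L := (le_max_left _ _).trans hL
  have hL0 : 0 < L := by linarith
  have hmain := hL1 L ((le_max_right _ _).trans hL)
  have hη20 : 0 < η2 := by linarith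
  have h3 : ((f.divisors.filter (fun g : ℕ => (g : ℝ) ≤ X)).card : ℝ) ≤ X ^ η2 * Fd η2 f := by
    rw [card_eq_sum_ones]
    push_cast
    unfold Fd
    rw [mul_sum]
    refine le_trans (sum_le_sum (g := fun g : ℕ => X ^ η2 * (g : ℝ) ^ (-η2)) fun g hg => ?_)
      (sum_le_sum_of_subset_of_nonneg (filter_subset _ _) fun _ _ _ => by positivity)
    rw [mem_filter, Nat.mem_divisors] at hg
    have hg0 : (0 : ℝ) < g := by
      exact_mod_cast Nat.pos_of_dvd_of_pos hg.1.1 (by omega)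
    rw [rpow_neg hg0.le, ← div_eq_mul_inv, one_le_div (by positivity)]
    exact rpow_le_rpow hg0.le hg.2 hη20.le
  refine h3.trans ?_
  rw [rpow_add hX]
  apply mul_le_mul_of_nonneg_left _ (by positivity)
  refine (Fd_le η2 hη20 hf).trans ?_
  rw [← hC]
  have h4 : (X : ℝ) ^ ε = exp (ε * log X) := by rw [rpow_def_of_pos hX, mul_comm]
  rw [h4]
  apply exp_le_exp.mpr
  have h5 : ε * L ^ (1 - η1) ≤ ε * log X := mul_le_mul_of_nonneg_left hXL hε.le
  refine le_trans ?_ h5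
  refine le_trans ?_ hmain
  apply mul_le_mul_of_nonneg_left _ hC0.le
  refine (sum_pf η2 hη20 h2.le f.primeFactors
    fun q hq => (Nat.prime_of_mem_primeFactors hq).one_lt.le).trans ?_
  have h6 : (f.primeFactors.card : ℝ) ≤ 2 * L := by
    have h7 := card_primeFactors_le hf
    have h8 := log_two_gt_d9
    have h9 : (f.primeFactors.card : ℝ) * (1 / 2) ≤ f.primeFactors.card * log 2 :=
      mul_le_mul_of_nonneg_left (by linarith) (Nat.cast_nonneg _)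
    linarith
  rcases Nat.eq_zero_or_pos f.primeFactors.card with h7 | h7
  · rw [h7, Nat.cast_zero, log_zero, zero_rpow (by linarith), zero_mul]
    have : 0 ≤ log (2 * L) := log_nonneg (by linarith)
    positivity
  · have h8 : (0 : ℝ) < f.primeFactors.card := by exact_mod_cast h7
    have h9 : (1 : ℝ) ≤ f.primeFactors.card := by exact_mod_cast h7
    have h10 := log_nonneg h9
    apply mul_le_mul (rpow_le_rpow h8.le h6 (by linarith)) _ (by positivity) (by positivity)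
    have := log_le_log h8 h6
    linarith

end Run7.h306
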