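import Pool.Agent.W57.SW.Rank

set_option autoImplicit false

/-! Odd squarefree numbers with prescribed symbols of the small primes: Heath-Brown's large sieve. -/

namespace Run7.h306

open Finset Real Pool.Agent.W57.SW Pool.Agent.H306R2.RZ

lemma jacobi_pre {s : ℕ} (hs : Squarefree s) (e : ℕ → ℤ) (m : ℕ)
    (h : ∀ p : ℕ, p.Prime → p ∣ s → jacobiSym (p : ℤ) m = e p) :
    jacobiSym (s : ℤ) m = ∏ p ∈ s.primeFactors, e p := by
  have e1 : ∏ q ∈ s.primeFactors, q = s := Nat.prod_primeFactors_of_squarefree hs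
  have h2 : ∀ T : Finset ℕ, T ⊆ s.primeFactors →
      jacobiSym ((∏ q ∈ T, q : ℕ) : ℤ) m = ∏ q ∈ T, e q := by
    intro T
    induction T using Finset.induction_on with
    | empty => intro _; simp
    | insert x T hx ih =>
      intro hT
      rw [prod_insert hx, prod_insert hx]
      push_cast
      rw [jacobiSym.mul_left]
      have h3 := ih fun z hz => hT (mem_insert_of_mem hz)
      push_cast at h3
      rw [h3]
      have h4 := hT (mem_insert_self x T)
      rw [Nat.mem_primeFactors] at h4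
      rw [h x h4.1 h4.2.1]
  have h3 := h2 _ subset_rfl
  rw [e1] at h3
  exact h3

/-- at most `K X^(1/A+ε)` odd squarefree numbers up to `X` have prescribed symbols -/
theorem class_bound (A ε : ℝ) (hA : 1 < A) (hε : 0 < ε) : ∃ K : ℝ, 0 < K ∧ ∀ Y X : ℕ, 1 ≤ X →
    (log X) ^ A < Y + 1 → ∀ e : ℕ → ℤ, (∀ ℓ, e ℓ = 1 ∨ e ℓ = -1) → ∀ T : Finset ℕ,
    (∀ m ∈ T, 1 ≤ m ∧ m ≤ X ∧ Odd m ∧ Squarefree m ∧ ∀ ℓ ∈ opr Y, jacobiSym (ℓ : ℤ) m = e ℓ) →
    (T.card : ℝ) ≤ K * (X : ℝ) ^ (1 / A + ε) := by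
  have hA0 : 0 < A := by linarith
  obtain ⟨X0, hX0⟩ := smooth_many A (ε / 2) hA (by positivity)
  obtain ⟨C, hC, hLS⟩ := Pool.Agent.H423R2.RZL.HBLSn.HBLS (ε / 4) (by positivity)
  refine ⟨2 * C + (X0 : ℝ) + 1, by positivity, ?_⟩
  intro Y X hX1 hXY e he T hTm
  have hX1' : (1 : ℝ) ≤ X := by exact_mod_cast hX1
  have hXpos : (0 : ℝ) < X := by linarith
  have hpow1 : (1 : ℝ) ≤ (X : ℝ) ^ (1 / A + ε) := one_le_rpow hX1' (by positivity)
  rcases lt_or_ge X X0 with hsm | hlg
  · have h1 : T ⊆ Icc 1 X := fun m hm => mem_Icc.mpr ⟨(hTm m hm).1, (hTm m hm).2.1⟩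
    have h2 := card_le_card h1
    rw [Nat.card_Icc, Nat.add_sub_cancel] at h2
    have h3 : (T.card : ℝ) ≤ X0 := by exact_mod_cast h2.trans hsm.le
    calc (T.card : ℝ) ≤ (2 * C + X0 + 1) * 1 := by linarith
      _ ≤ _ := mul_le_mul_of_nonneg_left hpow1 (by positivity)
  · obtain ⟨S, hS1, hS2⟩ := hX0 X hlg
    -- apply the large sieve
    have h1 := hLS X X hX1 hX1 (fun n => if n ∈ T then 1 else 0)
    have hTosf : T ⊆ osf X := by
      intro m hm
      obtain ⟨a1, a2, a3, a4, _⟩ := hTm m hm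
      rw [osf, mem_filter, mem_Icc]
      exact ⟨⟨a1, a2⟩, a3, a4⟩
    have hSsqf : S ⊆ sqf X := by
      intro s hs
      obtain ⟨a1, a2, _, a4, _⟩ := hS1 s hs
      rw [sqf, mem_filter, mem_Icc]
      exact ⟨⟨a1, a2⟩, a4⟩
    have hone : ∀ s ∈ S, ∀ m ∈ T, jacobiSym (s : ℤ) m = ∏ p ∈ s.primeFactors, e p := by
      intro s hs m hm
      obtain ⟨a1, a2, a3, a4, a5⟩ := hS1 s hs
      apply jacobi_pre a4
      intro p hp hps
      apply (hTm m hm).2.2.2.2
      rw [mem_opr]
      have h3 : (p : ℝ) < ((Y + 1 : ℕ) : ℝ) := by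
        push_cast
        exact lt_of_le_of_lt (a5 p hp hps) hXY
      have h4 : p < Y + 1 := by exact_mod_cast h3
      refine ⟨hp, by omega, ?_⟩
      rintro rfl
      rw [← Nat.not_even_iff_odd, even_iff_two_dvd] at a3
      exact a3 hps
    have habs : ∀ s : ℕ, |((∏ p ∈ s.primeFactors, e p : ℤ) : ℝ)| = 1 := by
      intro s
      rw [Int.cast_prod, abs_prod]
      apply prod_eq_one
      intro p _
      rcases he p with h | h <;> rw [h] <;> simp
    have hL : (S.card : ℝ) * (T.card : ℝ) ^ 2 ≤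
        ∑ m ∈ sqf X, ‖∑ n ∈ osf X, (if n ∈ T then (1 : ℂ) else 0) * (js m n : ℂ)‖ ^ 2 := by
      rw [← nsmul_eq_mul, ← sum_const]
      refine le_trans (sum_le_sum fun s hs => ?_)
        (sum_le_sum_of_subset_of_nonneg hSsqf fun _ _ _ => by positivity)
      have e1 : ∑ n ∈ osf X, (if n ∈ T then (1 : ℂ) else 0) * (js s n : ℂ) =
          (T.card : ℂ) * (((∏ p ∈ s.primeFactors, e p : ℤ) : ℝ) : ℂ) := by
        have e2 : ∀ n ∈ osf X, (if n ∈ T then (1 : ℂ) else 0) * (js s n : ℂ) =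
            if n ∈ T then (((∏ p ∈ s.primeFactors, e p : ℤ) : ℝ) : ℂ) else 0 := by
          intro n _
          split_ifs with h
          · have := hone s hs n h
            unfold js
            rw [this, one_mul]
          · simp
        rw [sum_congr rfl e2, sum_ite_mem, inter_eq_right.mpr hTosf]
        simp
      rw [e1, norm_mul]
      have e3 : ‖((((∏ p ∈ s.primeFactors, e p : ℤ) : ℝ)) : ℂ)‖ = 1 := by
        rw [Complex.norm_real, Real.norm_eq_abs]
        exact habs s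
      rw [e3]
      simp
    have hR : ∑ n ∈ osf X, ‖(if n ∈ T then (1 : ℂ) else 0)‖ ^ 2 = T.card := by
      have e2 : ∀ n ∈ osf X, ‖(if n ∈ T then (1 : ℂ) else 0)‖ ^ 2 =
            if n ∈ T then (1 : ℝ) else 0 := by
        intro n _
        split_ifs with h <;> simp
      rw [sum_congr rfl e2, sum_ite_mem, inter_eq_right.mpr hTosf]
      simp
    have h2 := hL.trans h1
    rw [hR] at h2
    rcases Nat.eq_zero_or_pos T.card with h0 | h0
    · rw [h0]
      push_cast
      positivity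
    · have h0' : (0 : ℝ) < T.card := by exact_mod_cast h0
      have h3 : (S.card : ℝ) * T.card ≤ C * ((X : ℝ) * X) ^ (ε / 4) * (X + X) := by
        have h4 : ((S.card : ℝ) * T.card) * T.card ≤
            (C * ((X : ℝ) * X) ^ (ε / 4) * (X + X)) * T.card := by
          calc ((S.card : ℝ) * T.card) * T.card = (S.card : ℝ) * (T.card : ℝ) ^ 2 := by ring
            _ ≤ _ := h2
        exact le_of_mul_le_mul_right h4 h0'
      have h4 : (X : ℝ) ^ (1 - 1 / A - ε / 2) * T.card ≤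
          C * ((X : ℝ) * X) ^ (ε / 4) * (X + X) :=
        (mul_le_mul_of_nonneg_right hS2 h0'.le).trans h3
      have e5 : ((X : ℝ) * X) ^ (ε / 4) = (X : ℝ) ^ (ε / 2) := by
        rw [mul_rpow hXpos.le hXpos.le, ← rpow_add hXpos]; congr 1; ring
      have e6 : C * ((X : ℝ) * X) ^ (ε / 4) * (X + X) =
          (X : ℝ) ^ (1 - 1 / A - ε / 2) * (2 * C * (X : ℝ) ^ (1 / A + ε)) := by
        rw [e5]
        have : (X : ℝ) ^ (1 - 1 / A - ε / 2) * (X : ℝ) ^ (1 / A + ε) =
            (X : ℝ) ^ (ε / 2) * X := by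
          nth_rewrite 4 [← rpow_one (X : ℝ)]
          rw [← rpow_add hXpos, ← rpow_add hXpos]; congr 1; ring
        calc C * (X : ℝ) ^ (ε / 2) * (X + X) = 2 * C * ((X : ℝ) ^ (ε / 2) * X) := by ring
          _ = _ := by rw [← this]; ring
      have h7 : (T.card : ℝ) ≤ 2 * C * (X : ℝ) ^ (1 / A + ε) := by
        have hp : 0 < (X : ℝ) ^ (1 - 1 / A - ε / 2) := by positivity
        rw [e6] at h4
        exact le_of_mul_le_mul_left h4 hp
      refine h7.trans ?_
      apply mul_le_mul_of_nonneg_right _ (by positivity)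
      have : (0 : ℝ) ≤ X0 := Nat.cast_nonneg X0
      linarith

end Run7.h306
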