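import Pool.Agent.Run7.h306.Prog
import Pool.Agent.Run7.h306.Dv
import Pool.Agent.Run7.h306.LS
import Pool.Agent.W57.SW.Count
import Pool.Agent.TH725.TS.Lgs

set_option autoImplicit false

/-! Counting the primes of a class. -/

namespace Run7.h306

open Finset Real Pool.Agent.H379R2.W Pool.Agent.W57.SW

/-- the bound for the small bases -/
noncomputable def yy (x : ℕ) : ℕ := ⌊(log x) ^ 2⌋₊

/-- the primes of the class `σ` -/
def Cs (x : ℕ) (σ : ℕ → ℕ) (p : ℕ) : Prop :=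
  p.Prime ∧ yy x < p ∧ ∀ ℓ ∈ opr (yy x), o2 p ℓ = σ ℓ

lemma log_lt_yy {x X : ℕ} (hX : 1 ≤ X) (hXx : X ≤ x) : (log X) ^ (2 : ℝ) < yy x + 1 := by
  have h1 : (1 : ℝ) ≤ X := by exact_mod_cast hX
  have h2 : log X ≤ log x := log_le_log (by linarith) (by exact_mod_cast hXx)
  have h3 : (log X) ^ 2 ≤ (log x) ^ 2 := pow_le_pow_left₀ (log_nonneg h1) h2 2
  have h4 : (log (x : ℝ)) ^ 2 < yy x + 1 := Nat.lt_floor_add_one _
  have e : (log (X : ℝ)) ^ (2 : ℝ) = (log X) ^ 2 := by norm_cast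
  rw [e]
  linarith

lemma Cs.symbol {x p ℓ : ℕ} {σ : ℕ → ℕ} (hy : 2 ≤ yy x) (h : Cs x σ p) (hℓ : ℓ ∈ opr (yy x)) :
    jacobiSym (ℓ : ℤ) p = if σ ℓ = v2 p then -1 else 1 := by
  have h1 := h.2.2 ℓ hℓ
  rw [mem_opr] at hℓ
  have h2 := h.2.1
  have hnd : ¬ p ∣ ℓ := fun hd => by
    have := Nat.le_of_dvd hℓ.1.pos hd
    omega
  rw [symbol_o2 h.1 (by omega) hnd, h1]

lemma v2_le_log {p X : ℕ} (hp : 2 ≤ p) (hpX : p ≤ X) : v2 p ∈ range (Nat.log 2 X + 1) := by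
  rw [mem_range, Nat.lt_succ_iff]
  obtain ⟨t, ht, hpt⟩ := v2_spec hp
  have h1 : 2 ^ v2 p ≤ p - 1 := by
    calc 2 ^ v2 p = 2 ^ v2 p * 1 := (mul_one _).symm
      _ ≤ 2 ^ v2 p * t := Nat.mul_le_mul_left _ ht.pos
      _ = p - 1 := hpt.symm
  exact Nat.le_log_of_pow_le (by norm_num) (by omega)

lemma natlog_le {X : ℕ} (hX : 1 ≤ X) : (Nat.log 2 X : ℝ) ≤ 2 * log X := by
  have h1 : 2 ^ Nat.log 2 X ≤ X := Nat.pow_log_le_self 2 (by omega)
  have h2 : ((2 ^ Nat.log 2 X : ℕ) : ℝ) ≤ X := by exact_mod_cast h1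
  push_cast at h2
  have h3 := log_le_log (by positivity) h2
  rw [log_pow] at h3
  have h4 := log_two_gt_d9
  have h5 : (Nat.log 2 X : ℝ) * (1 / 2) ≤ Nat.log 2 X * log 2 :=
    mul_le_mul_of_nonneg_left (by linarith) (Nat.cast_nonneg _)
  linarith

/-- splitting according to the exponent of two in `p - 1` -/
lemma card_v2 (T : Finset ℕ) (X : ℕ) (B : ℝ) (hT : ∀ p ∈ T, 2 ≤ p ∧ p ≤ X)
    (hB : ∀ v, ((T.filter (fun p => v2 p = v)).card : ℝ) ≤ B) :
    (T.card : ℝ) ≤ (Nat.log 2 X + 1) * B := by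
  have h1 : T.card = ∑ v ∈ range (Nat.log 2 X + 1), (T.filter (fun p => v2 p = v)).card :=
    card_eq_sum_card_fiberwise fun p hp => v2_le_log (hT p hp).1 (hT p hp).2
  rw [h1]
  push_cast
  refine (sum_le_sum fun v _ => hB v).trans (le_of_eq ?_)
  rw [sum_const, card_range, nsmul_eq_mul]
  push_cast
  ring

/-- the primes up to `X` of a class -/
theorem class_primes (A ε : ℝ) (hA : 1 < A) (hε : 0 < ε) : ∃ K : ℝ, 0 < K ∧ ∀ x X : ℕ, 1 ≤ X →
    2 ≤ yy x → (log X) ^ A < yy x + 1 → ∀ (σ : ℕ → ℕ) (T : Finset ℕ),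
    (∀ p ∈ T, p ≤ X ∧ Cs x σ p) → (T.card : ℝ) ≤ K * (X : ℝ) ^ (1 / A + ε) := by
  obtain ⟨K0, hK0, hcb⟩ := class_bound A (ε / 2) hA (by positivity)
  have hε2 : 0 < ε / 2 := by positivity
  refine ⟨(4 / ε + 1) * K0, by positivity, ?_⟩
  intro x X hX hy hlog σ T hT
  have hX1 : (1 : ℝ) ≤ X := by exact_mod_cast hX
  have hX0 : (0 : ℝ) < X := by linarith
  have h1 := card_v2 T X (K0 * (X : ℝ) ^ (1 / A + ε / 2))
    (fun p hp => ⟨(hT p hp).2.1.two_le, (hT p hp).1⟩) (fun v => by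
      apply hcb (yy x) X hX hlog (fun ℓ => if σ ℓ = v then -1 else 1)
        (fun ℓ => by split_ifs <;> norm_num)
      intro p hp
      rw [mem_filter] at hp
      obtain ⟨h1, h2⟩ := hT p hp.1
      have h3 := h2.1.two_le
      have h4 := h2.2.1
      refine ⟨by omega, h1, h2.1.odd_of_ne_two (by omega), h2.1.squarefree, fun ℓ hℓ => ?_⟩
      rw [h2.symbol hy hℓ, hp.2])
  refine h1.trans ?_
  have h2 : (Nat.log 2 X : ℝ) + 1 ≤ (4 / ε + 1) * (X : ℝ) ^ (ε / 2) := by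
    have h3 := natlog_le hX
    have h4 := log_le_rpow_div hX0.le hε2
    have h5 : (1 : ℝ) ≤ (X : ℝ) ^ (ε / 2) := one_le_rpow hX1 hε2.le
    have h6 : 2 * ((X : ℝ) ^ (ε / 2) / (ε / 2)) = 4 / ε * (X : ℝ) ^ (ε / 2) := by
      field_simp; ring
    linarith
  calc ((Nat.log 2 X : ℝ) + 1) * (K0 * (X : ℝ) ^ (1 / A + ε / 2)) ≤
      ((4 / ε + 1) * (X : ℝ) ^ (ε / 2)) * (K0 * (X : ℝ) ^ (1 / A + ε / 2)) :=
        mul_le_mul_of_nonneg_right h2 (by positivity)
    _ = (4 / ε + 1) * K0 * (X : ℝ) ^ (1 / A + ε) := by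
        have e1 : (X : ℝ) ^ (1 / A + ε) = (X : ℝ) ^ (ε / 2) * (X : ℝ) ^ (1 / A + ε / 2) := by
          rw [← rpow_add hX0]; congr 1; ring
        rw [e1]; ring

/-- the exponent `2/5`, nearly -/
noncomputable def al (e : ℝ) : ℝ := (1 / 2 + e) * (4 / 5 + e)

/-- the primes up to `X` of a class, the small primes generating a group of given order -/
theorem class_gp (e : ℝ) (he : 0 < e) (he1 : e ≤ 1 / 4) : ∃ x0 : ℕ, ∀ x X : ℕ, x0 ≤ x → 1 ≤ X →
    X ≤ x → ∀ (σ : ℕ → ℕ) (g : ℕ) (T : Finset ℕ), 1 ≤ g → g ≤ x →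
    (∀ p ∈ T, p ≤ X ∧ Cs x σ p ∧ gp (yy x) p = g) →
    (T.card : ℝ) ≤ 24 * (log x) ^ 2 * (X : ℝ) ^ (al e) := by
  classical
  obtain ⟨L0, hL03, hL0⟩ := prog_bound e he (by linarith)
  obtain ⟨D0, hD0⟩ := gp_low e he
  have hev1 : ∀ᶠ x : ℝ in Filter.atTop, max L0 (D0 + 3) ≤ log x :=
    tendsto_log_atTop.eventually (Filter.eventually_ge_atTop _)
  obtain ⟨x1, hx1⟩ := Filter.eventually_atTop.mp hev1
  obtain ⟨x0, hx0⟩ := exists_nat_ge x1
  refine ⟨x0, ?_⟩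
  intro x X hx hX hXx σ g T hg hgx hT
  obtain ⟨L, hL⟩ : ∃ L : ℝ, L = log x := ⟨_, rfl⟩
  have hb := hx1 x (hx0.trans (by exact_mod_cast hx))
  rw [← hL] at hb
  have hLL0 : L0 ≤ L := (le_max_left _ _).trans hb
  have hLD : (D0 : ℝ) + 3 ≤ L := (le_max_right _ _).trans hb
  have hD0' : (0 : ℝ) ≤ D0 := Nat.cast_nonneg _
  have hL3 : 3 ≤ L := by linarith
  have hX1 : (1 : ℝ) ≤ X := by exact_mod_cast hX
  have hX0 : (0 : ℝ) < X := by linarith
  have hlogX : 0 ≤ log (X : ℝ) := log_nonneg hX1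
  have hlogXL : log (X : ℝ) ≤ L := by
    rw [hL]; exact log_le_log hX0 (by exact_mod_cast hXx)
  have hyD : D0 ≤ yy x := by
    apply Nat.le_floor
    rw [← hL]
    nlinarith
  obtain ⟨M, hM⟩ : ∃ M : ℝ, M = (X : ℝ) ^ (1 / 2 + e) := ⟨_, rfl⟩
  have hM1 : 1 ≤ M := by rw [hM]; exact one_le_rpow hX1 (by linarith)
  obtain ⟨K, hK⟩ : ∃ K : ℕ, K = ⌊M⌋₊ + 1 := ⟨_, rfl⟩
  have hKM : (K : ℝ) ≤ 2 * M := by
    rw [hK]
    push_cast
    have := Nat.floor_le (by linarith : 0 ≤ M)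
    linarith
  have hK1 : 1 ≤ K := by omega
  have hK0 : (0 : ℝ) < K := by exact_mod_cast hK1
  have hKL : log K ≤ 2 * L := by
    have h1 := log_le_log hK0 hKM
    rw [log_mul (by norm_num) (by linarith), hM, log_rpow hX0] at h1
    have h2 : (1 / 2 + e) * log X ≤ 1 * log X := mul_le_mul_of_nonneg_right (by linarith) hlogX
    have := log_two_lt_d9
    linarith
  have hgL : log g ≤ 10 * L := by
    have h1 : log (g : ℝ) ≤ log x :=
      log_le_log (by exact_mod_cast hg) (by exact_mod_cast hgx)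
    rw [← hL] at h1
    linarith
  -- the cofactors
  have hcof : ∀ p ∈ T, g * ((p - 1) / g) + 1 = p ∧ (p - 1) / g ∈ range K := by
    intro p hp
    obtain ⟨h1, h2, h3⟩ := hT p hp
    have hd := gp_dvd h2.1 h2.2.1
    rw [h3] at hd
    have hp2 := h2.1.two_le
    have h4 : g * ((p - 1) / g) = p - 1 := Nat.mul_div_cancel' hd
    refine ⟨by omega, ?_⟩
    rw [mem_range, hK, Nat.lt_succ_iff]
    apply Nat.le_floor
    have h5 := hD0 (yy x) p h2.1 h2.2.1 (by have := h2.2.1; omega)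
      (log_lt_yy (by omega) (h1.trans hXx))
    rw [h3] at h5
    have h6 := t_small (p := p) (e := g) (t := (p - 1) / g) (β := 1 / 2 + e) hp2 (by omega)
      (by rw [show 1 - (1 / 2 + e) = 1 / 2 - e by ring]; exact h5)
    refine h6.trans ?_
    rw [hM]
    exact rpow_le_rpow (Nat.cast_nonneg _) (by exact_mod_cast h1) (by linarith)
  have hmain := card_v2 T X (2 * L * (K : ℝ) ^ (4 / 5 + e))
    (fun p hp => ⟨(hT p hp).2.1.1.two_le, (hT p hp).1⟩) (fun v => by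
      have hinj : Set.InjOn (fun p => (p - 1) / g) (T.filter (fun p => v2 p = v) : Finset ℕ) := by
        intro p hp q hq h
        rw [mem_coe, mem_filter] at hp hq
        have h1 := (hcof p hp.1).1
        have h2 := (hcof q hq.1).1
        simp only at h
        rw [← h1, ← h2, h]
      rw [← card_image_of_injOn hinj]
      apply hL0 L hLL0 g K hg hgL hK1 hKL σ v
      · intro k hk
        rw [mem_image] at hk
        obtain ⟨p, hp, rfl⟩ := hk
        rw [mem_filter] at hp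
        exact (hcof p hp.1).2
      · intro k hk
        rw [mem_image] at hk
        obtain ⟨p, hp, rfl⟩ := hk
        rw [mem_filter] at hp
        obtain ⟨h1, h2, h3⟩ := hT p hp.1
        rw [(hcof p hp.1).1]
        have e1 : ⌊L ^ 2⌋₊ = yy x := by rw [hL]; rfl
        rw [e1]
        exact ⟨h2.1, h2.2.1, hp.2, h2.2.2⟩)
  refine hmain.trans ?_
  have h1 : (Nat.log 2 X : ℝ) + 1 ≤ 3 * L := by
    have := natlog_le hX
    linarith
  have h2 : (K : ℝ) ^ (4 / 5 + e) ≤ 4 * (X : ℝ) ^ (al e) := by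
    calc (K : ℝ) ^ (4 / 5 + e) ≤ (2 * M) ^ (4 / 5 + e) :=
          rpow_le_rpow hK0.le hKM (by linarith)
      _ = 2 ^ (4 / 5 + e) * M ^ (4 / 5 + e) := mul_rpow (by norm_num) (by linarith)
      _ ≤ 4 * M ^ (4 / 5 + e) := by
          apply mul_le_mul_of_nonneg_right _ (by positivity)
          calc (2 : ℝ) ^ (4 / 5 + e) ≤ (2 : ℝ) ^ (2 : ℝ) :=
                rpow_le_rpow_of_exponent_le (by norm_num) (by linarith)
            _ = 4 := by norm_num
      _ = 4 * (X : ℝ) ^ (al e) := by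
          rw [hM, ← rpow_mul hX0.le, al]
  rw [← hL]
  calc ((Nat.log 2 X : ℝ) + 1) * (2 * L * (K : ℝ) ^ (4 / 5 + e)) ≤
      (3 * L) * (2 * L * (4 * (X : ℝ) ^ (al e))) := by
        apply mul_le_mul h1 _ (by positivity) (by positivity)
        apply mul_le_mul_of_nonneg_left h2 (by positivity)
    _ = 24 * L ^ 2 * (X : ℝ) ^ (al e) := by ring

/-- few primes modulo which the small primes generate a small group -/
theorem few_gp (τ : ℝ) (hτ : 0 < τ) (hτ1 : τ < 1 / 2) : ∃ x0 : ℕ, ∀ x : ℕ, x0 ≤ x → ∀ G : ℕ,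
    (G : ℝ) ≤ (x : ℝ) ^ (1 / 2 - τ) → ∀ Q : Finset ℕ,
    (∀ p ∈ Q, p.Prime ∧ yy x < p ∧ gp (yy x) p ≤ G) → (Q.card : ℝ) ≤ 6 * log x * G := by
  classical
  obtain ⟨D0, hD0⟩ := smooth_many 2 (τ / 2) (by norm_num) (by positivity)
  have hev1 : ∀ᶠ x : ℝ in Filter.atTop, (2 : ℝ) ≤ x ^ (τ / 2) :=
    (tendsto_rpow_atTop (by positivity)).eventually (Filter.eventually_ge_atTop _)
  have hev2 : ∀ᶠ x : ℝ in Filter.atTop, (3 : ℝ) ≤ log x :=
    tendsto_log_atTop.eventually (Filter.eventually_ge_atTop _)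
  obtain ⟨x1, hx1⟩ := Filter.eventually_atTop.mp (hev1.and hev2)
  obtain ⟨x0, hx0⟩ := exists_nat_ge x1
  refine ⟨max x0 (max D0 1), ?_⟩
  intro x hx G hG Q hQ
  obtain ⟨hb1, hb2⟩ := hx1 x (hx0.trans (by exact_mod_cast (le_max_left _ _).trans hx))
  have hxD : D0 ≤ x := (le_max_left _ _).trans ((le_max_right _ _).trans hx)
  have hx1' : 1 ≤ x := (le_max_right _ _).trans ((le_max_right _ _).trans hx)
  have hxpos : (0 : ℝ) < x := by exact_mod_cast hx1'
  obtain ⟨S, hS1, hS2⟩ := hD0 x hxD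
  have hSG : 2 * (G : ℝ) ≤ S.card := by
    refine le_trans ?_ hS2
    have e1 : (x : ℝ) ^ (1 - 1 / 2 - τ / 2) = (x : ℝ) ^ (τ / 2) * (x : ℝ) ^ (1 / 2 - τ) := by
      rw [← rpow_add hxpos]; congr 1; ring
    rw [e1]
    exact mul_le_mul hb1 hG (Nat.cast_nonneg _) (by positivity)
  obtain ⟨T, hT⟩ : ∃ T : ℕ, T = Nat.log 2 x + 1 := ⟨_, rfl⟩
  have hxT : x ≤ 2 ^ T := by rw [hT]; exact (Nat.lt_pow_succ_log_self (by norm_num) x).le
  have hup := Pool.Agent.TH725.TS.pairs_up Q S (fun p hp => (hQ p hp).1)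
    (fun s hs => (hS1 s hs).2.1.trans hxT)
  have hlow : ∀ p ∈ Q, S.card ^ 2 ≤ G * (Pool.Agent.TH725.TS.Pairs S p).card := by
    intro p hp
    obtain ⟨hpp, hpy, hpG⟩ := hQ p hp
    have : Fact p.Prime := ⟨hpp⟩
    have hg0 := gp_pos hpp hpy
    obtain ⟨U, hU⟩ : ∃ U : Finset (ZMod p), U =
        (Polynomial.nthRoots (gp (yy x) p) (1 : ZMod p)).toFinset := ⟨_, rfl⟩
    have hUc : U.card ≤ G := by
      rw [hU]
      exact ((Multiset.toFinset_card_le _).trans (Polynomial.card_nthRoots _ 1)).trans hpG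
    have hmem : ∀ s ∈ S, (s : ZMod p) ∈ U := by
      intro s hs
      rw [hU, Multiset.mem_toFinset, Polynomial.mem_nthRoots hg0]
      apply smooth_pow_gp (hS1 s hs).1
      intro q hq hqs
      have h1 := (hS1 s hs).2.2.2.2 q hq hqs
      have h2 := log_lt_yy (x := x) (X := x) hx1' le_rfl
      have h3 : (q : ℝ) < ((yy x + 1 : ℕ) : ℝ) := by push_cast; linarith
      have h4 : q < yy x + 1 := by exact_mod_cast h3
      omega
    have h1 : S.card = ∑ z ∈ U, (S.filter (fun s : ℕ => (s : ZMod p) = z)).card :=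
      card_eq_sum_card_fiberwise hmem
    have h2 : (∑ z ∈ U, (S.filter (fun s : ℕ => (s : ZMod p) = z)).card) ^ 2 ≤
        U.card * ∑ z ∈ U, (S.filter (fun s : ℕ => (s : ZMod p) = z)).card ^ 2 :=
      sq_sum_le_card_mul_sum_sq
    have h3 : ∑ z ∈ U, (S.filter (fun s : ℕ => (s : ZMod p) = z)).card ^ 2 ≤
        (Pool.Agent.TH725.TS.Pairs S p).card := by
      have g1 : (Pool.Agent.TH725.TS.Pairs S p).card = ∑ z ∈ U,
          ((Pool.Agent.TH725.TS.Pairs S p).filter (fun w => (w.1 : ZMod p) = z)).card := by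
        apply card_eq_sum_card_fiberwise
        intro w hw
        rw [mem_coe, Pool.Agent.TH725.TS.Pairs, mem_filter, mem_product] at hw
        exact hmem _ hw.1.1
      rw [g1]
      apply sum_le_sum
      intro z _
      rw [sq, ← card_product]
      apply card_le_card
      intro w hw
      rw [mem_product, mem_filter, mem_filter] at hw
      rw [mem_filter, Pool.Agent.TH725.TS.Pairs, mem_filter, mem_product]
      exact ⟨⟨⟨hw.1.1, hw.2.1⟩, by rw [hw.1.2, hw.2.2]⟩, hw.1.2⟩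
    calc S.card ^ 2 = (∑ z ∈ U, (S.filter (fun s : ℕ => (s : ZMod p) = z)).card) ^ 2 := by rw [← h1]
      _ ≤ U.card * ∑ z ∈ U, (S.filter (fun s : ℕ => (s : ZMod p) = z)).card ^ 2 := h2
      _ ≤ G * (Pool.Agent.TH725.TS.Pairs S p).card := Nat.mul_le_mul hUc h3
  have h1 : Q.card * S.card ^ 2 ≤ G * (Q.card * S.card + T * S.card ^ 2) := by
    calc Q.card * S.card ^ 2 = ∑ _p ∈ Q, S.card ^ 2 := by rw [sum_const, smul_eq_mul]
      _ ≤ ∑ p ∈ Q, G * (Pool.Agent.TH725.TS.Pairs S p).card := sum_le_sum hlow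
      _ = G * ∑ p ∈ Q, (Pool.Agent.TH725.TS.Pairs S p).card := by rw [mul_sum]
      _ ≤ _ := Nat.mul_le_mul_left _ hup
  have h1' : (Q.card : ℝ) * (S.card : ℝ) ^ 2 ≤
      G * (Q.card * S.card + T * (S.card : ℝ) ^ 2) := by exact_mod_cast h1
  rcases Nat.eq_zero_or_pos G with hG0 | hG0
  · -- no such primes
    rcases Q.eq_empty_or_nonempty with hQe | ⟨p, hp⟩
    · rw [hQe, card_empty, Nat.cast_zero]
      positivity
    · obtain ⟨hpp, hpy, hpG⟩ := hQ p hp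
      have := gp_pos hpp hpy
      omega
  · have hG0' : (0 : ℝ) < G := by exact_mod_cast hG0
    have hS0 : (0 : ℝ) < S.card := by linarith
    have h2 : (Q.card : ℝ) * S.card ≤ G * (Q.card + T * (S.card : ℝ)) := by
      have h3 : ((Q.card : ℝ) * S.card) * S.card ≤ (G * (Q.card + T * (S.card : ℝ))) * S.card := by
        calc ((Q.card : ℝ) * S.card) * S.card = (Q.card : ℝ) * (S.card : ℝ) ^ 2 := by ring
          _ ≤ _ := h1'
          _ = _ := by ring
      exact le_of_mul_le_mul_right h3 hS0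
    have h3 : (Q.card : ℝ) * (2 * G) ≤ Q.card * S.card :=
      mul_le_mul_of_nonneg_left hSG (Nat.cast_nonneg _)
    have h4 : (Q.card : ℝ) * S.card ≤ (2 * G * T) * S.card := by nlinarith
    have h5 := le_of_mul_le_mul_right h4 hS0
    have h6 : (T : ℝ) ≤ 3 * log x := by
      rw [hT]
      push_cast
      have := natlog_le hx1'
      linarith
    calc (Q.card : ℝ) ≤ 2 * G * T := h5
      _ ≤ 2 * G * (3 * log x) := mul_le_mul_of_nonneg_left h6 (by positivity)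
      _ = _ := by ring

end Run7.h306
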