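import Pool.Agent.Run7.h306.Cnt1

set_option autoImplicit false

/-! Counting composite numbers all of whose prime factors lie in one class. -/

namespace Run7.h306

open Finset Real Pool.Agent.H379R2.W Pool.Agent.W57.SW

/-- squarefree, and all prime factors lie in one class -/
def Ty (x m : ℕ) : Prop :=
  Squarefree m ∧ (∀ p : ℕ, p.Prime → p ∣ m → yy x < p) ∧
    ∀ p q : ℕ, p.Prime → q.Prime → p ∣ m → q ∣ m → ∀ ℓ ∈ opr (yy x), o2 p ℓ = o2 q ℓ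

/-- the class of the prime factors of `m` -/
noncomputable def sg (m : ℕ) : ℕ → ℕ := o2 m.minFac

lemma Ty.dvd {x m n : ℕ} (h : Ty x n) (hmn : m ∣ n) : Ty x m :=
  ⟨h.1.squarefree_of_dvd hmn, fun p hp hpm => h.2.1 p hp (hpm.trans hmn),
    fun p q hp hq hpm hqm => h.2.2 p q hp hq (hpm.trans hmn) (hqm.trans hmn)⟩

lemma Xn.ty {x n : ℕ} (hy : 2 ≤ yy x) (h : Xn (yy x) n) (hs : Squarefree n) : Ty x n := by
  refine ⟨hs, fun p hp hpn => h.prime_gt hp hpn, fun p q hp hq hpn hqn ℓ hℓ => ?_⟩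
  have h1 := h.prime_gt hp hpn
  have h2 := h.prime_gt hq hqn
  rw [mem_opr] at hℓ
  exact o2_eq (h.2.2 ℓ hℓ.1 hℓ.2.1) hp hq (by omega) (by omega) hpn hqn

lemma Ty.cs {x m p : ℕ} (h : Ty x m) (hp : p.Prime) (hpm : p ∣ m) : Cs x (sg m) p := by
  refine ⟨hp, h.2.1 p hp hpm, fun ℓ hℓ => ?_⟩
  apply h.2.2 p m.minFac hp _ hpm (Nat.minFac_dvd m) ℓ hℓ
  apply Nat.minFac_prime
  rintro rfl
  exact hp.one_lt.ne' (Nat.dvd_one.mp hpm)

lemma Ty.cs_cof {x n m p : ℕ} (h : Ty x n) (hm : m ≠ 1) (hmn : m ∣ n) (hp : p.Prime) (hpn : p ∣ n) :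
    Cs x (sg m) p :=
  ⟨hp, h.2.1 p hp hpn, fun ℓ hℓ => h.2.2 p m.minFac hp (Nat.minFac_prime hm) hpn
    ((Nat.minFac_dvd m).trans hmn) ℓ hℓ⟩

open Classical in
/-- odd squarefree numbers for which all small odd primes have symbol one -/
noncomputable def DD (x X : ℕ) : Finset ℕ :=
  (Icc 1 X).filter (fun m => Odd m ∧ Squarefree m ∧ ∀ ℓ ∈ opr (yy x), jacobiSym (ℓ : ℤ) m = 1)

lemma mem_DD {x X m : ℕ} : m ∈ DD x X ↔ (1 ≤ m ∧ m ≤ X) ∧ Odd m ∧ Squarefree m ∧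
    ∀ ℓ ∈ opr (yy x), jacobiSym (ℓ : ℤ) m = 1 := by
  rw [DD, mem_filter, mem_Icc]

theorem DD_card (ε : ℝ) (hε : 0 < ε) : ∃ K : ℝ, 0 < K ∧ ∀ x X : ℕ, 1 ≤ X → X ≤ x →
    ((DD x X).card : ℝ) ≤ K * (X : ℝ) ^ (1 / 2 + ε) := by
  obtain ⟨K, hK, h⟩ := class_bound 2 ε (by norm_num) hε
  refine ⟨K, hK, fun x X hX hXx => ?_⟩
  refine h (yy x) X hX (log_lt_yy hX hXx) (fun _ => 1) (fun _ => Or.inl rfl) _ ?_
  intro m hm
  rw [mem_DD] at hm
  exact ⟨hm.1.1, hm.1.2, hm.2.1, hm.2.2.1, hm.2.2.2⟩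

lemma Ty.struct {x m : ℕ} (hy : 2 ≤ yy x) (h : Ty x m) (hm2 : 2 ≤ m) (hmp : ¬ m.Prime) :
    m ∈ DD x m ∨ ∃ p m' : ℕ, m = p * m' ∧ 2 ≤ m' ∧ m' ∈ DD x m ∧ Cs x (sg m') p := by
  have hne : m.primeFactors.Nonempty := Nat.nonempty_primeFactors.mpr (by omega)
  obtain ⟨p, hp, hpmin⟩ := exists_min_image m.primeFactors v2 hne
  rw [Nat.mem_primeFactors] at hp
  obtain ⟨hpp, hpm, hm0⟩ := hp
  obtain ⟨m', hm'⟩ := hpm
  have hm'0 : m' ≠ 0 := by rintro rfl; rw [mul_zero] at hm'; omega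
  have hm'1 : m' ≠ 1 := by rintro rfl; rw [mul_one] at hm'; exact hmp (hm' ▸ hpp)
  have hm'd : m' ∣ m := ⟨p, by rw [hm', mul_comm]⟩
  have hpd : p ∣ m := ⟨m', hm'⟩
  have hsq : Squarefree m' := h.1.squarefree_of_dvd hm'd
  have hodd : ∀ q : ℕ, q.Prime → q ∣ m → q ≠ 2 := by
    intro q hq hqm h2
    have := h.2.1 q hq hqm
    omega
  have hmodd : Odd m := by
    rw [← Nat.not_even_iff_odd, even_iff_two_dvd]
    intro h2
    exact hodd 2 Nat.prime_two h2 rfl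
  have hm'odd : Odd m' := Odd.of_dvd_nat hmodd hm'd
  have hcs : ∀ q : ℕ, q.Prime → q ∣ m → Cs x (o2 p) q := by
    intro q hq hqm
    exact ⟨hq, h.2.1 q hq hqm, fun ℓ hℓ => h.2.2 q p hq hpp hqm hpd ℓ hℓ⟩
  have hnd : ∀ ℓ ∈ opr (yy x), ¬ p ∣ ℓ := by
    intro ℓ hℓ hd
    rw [mem_opr] at hℓ
    have h1 := Nat.le_of_dvd hℓ.1.pos hd
    have h2 := h.2.1 p hpp hpd
    omega
  obtain ⟨s, hs⟩ : ∃ s, s = (m'.primeFactors.filter (fun q => v2 q = v2 p)).card := ⟨_, rfl⟩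
  have hJp : ∀ ℓ ∈ opr (yy x), jacobiSym (ℓ : ℤ) p = 1 ∨ jacobiSym (ℓ : ℤ) p = -1 := by
    intro ℓ hℓ
    rw [(hcs p hpp hpd).symbol hy hℓ]
    split_ifs <;> norm_num
  have hJm : ∀ ℓ ∈ opr (yy x), jacobiSym (ℓ : ℤ) m' = jacobiSym (ℓ : ℤ) p ^ s := by
    intro ℓ hℓ
    have e1 : ∏ q ∈ m'.primeFactors, q = m' := Nat.prod_primeFactors_of_squarefree hsq
    conv_lhs => rw [← e1]
    rw [jacobi_prod _ _ (fun q hq => (Nat.prime_of_mem_primeFactors hq).ne_zero)]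
    have e2 : ∀ q ∈ m'.primeFactors, jacobiSym (ℓ : ℤ) q =
        if v2 q = v2 p then jacobiSym (ℓ : ℤ) p else 1 := by
      intro q hq
      rw [Nat.mem_primeFactors] at hq
      have hqm : q ∣ m := hq.2.1.trans hm'd
      have hmin := hpmin q (Nat.mem_primeFactors.mpr ⟨hq.1, hqm, by omega⟩)
      rw [(hcs q hq.1 hqm).symbol hy hℓ, (hcs p hpp hpd).symbol hy hℓ]
      have hle := o2_le hpp (hnd ℓ hℓ)
      split_ifs <;> first | rfl | omega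
    rw [prod_congr rfl e2, ← prod_filter, prod_const, hs]
  rcases Nat.even_or_odd s with hev | hod
  · right
    refine ⟨p, m', hm', by omega, ?_, h.cs_cof hm'1 hm'd hpp hpd⟩
    rw [mem_DD]
    refine ⟨⟨by omega, Nat.le_of_dvd (by omega) hm'd⟩, hm'odd, hsq, fun ℓ hℓ => ?_⟩
    rw [hJm ℓ hℓ]
    rcases hJp ℓ hℓ with e | e
    · rw [e]; simp
    · rw [e]; exact hev.neg_one_pow
  · left
    rw [mem_DD]
    refine ⟨⟨by omega, le_rfl⟩, hmodd, h.1, fun ℓ hℓ => ?_⟩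
    have : NeZero p := ⟨hpp.ne_zero⟩
    have : NeZero m' := ⟨hm'0⟩
    rw [hm', jacobiSym.mul_right, hJm ℓ hℓ]
    rcases hJp ℓ hℓ with e | e
    · rw [e]; simp
    · rw [e, hod.neg_one_pow]; norm_num

lemma DD_filter {x X q : ℕ} (h : q ≤ X) : (DD x X).filter (fun m => m ≤ q) = DD x q := by
  ext m
  rw [mem_filter, mem_DD, mem_DD]
  constructor
  · rintro ⟨⟨⟨h1, h2⟩, h3⟩, h4⟩; exact ⟨⟨h1, h4⟩, h3⟩
  · rintro ⟨⟨h1, h2⟩, h3⟩; exact ⟨⟨⟨h1, h2.trans h⟩, h3⟩, h2⟩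

open Classical in
/-- the composite numbers up to `X` all of whose prime factors lie in one class -/
noncomputable def ET (x X : ℕ) : Finset ℕ :=
  (Icc 1 X).filter (fun m => Ty x m ∧ 2 ≤ m ∧ ¬ m.Prime)

lemma mem_ET {x X m : ℕ} : m ∈ ET x X ↔ (1 ≤ m ∧ m ≤ X) ∧ Ty x m ∧ 2 ≤ m ∧ ¬ m.Prime := by
  unfold ET
  simp only [mem_filter, mem_Icc]

lemma ET_filter {x X q : ℕ} (h : q ≤ X) : (ET x X).filter (fun m => m ≤ q) = ET x q := by
  ext m
  rw [mem_filter, mem_ET, mem_ET]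
  constructor
  · rintro ⟨⟨⟨h1, h2⟩, h3⟩, h4⟩; exact ⟨⟨h1, h4⟩, h3⟩
  · rintro ⟨⟨h1, h2⟩, h3⟩; exact ⟨⟨⟨h1, h2.trans h⟩, h3⟩, h2⟩

theorem DD_sum (ε : ℝ) (hε : 0 < ε) : ∃ R : ℝ, 0 < R ∧ ∀ x X : ℕ, X ≤ x →
    ∑ m ∈ DD x X, (m : ℝ) ^ (-(1 / 2 + ε)) ≤ R := by
  obtain ⟨K, hK, h⟩ := DD_card (ε / 2) (by positivity)
  refine ⟨K ^ ((1 / 2 + ε) / (1 / 2 + ε / 2)) *
    ∑' k : ℕ, (k : ℝ) ^ (-((1 / 2 + ε) / (1 / 2 + ε / 2))) + 1, by positivity, fun x X hXx => ?_⟩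
  have h1 := Pool.Agent.W57.SW.rank_sum (DD x X) K (1 / 2 + ε / 2) (1 / 2 + ε) hK (by positivity)
    (by linarith) (fun q hq => (mem_DD.mp hq).1.1) (fun q hq => by
      have h2 := (mem_DD.mp hq).1
      rw [DD_filter h2.2]
      exact h x q h2.1 (h2.2.trans hXx))
  linarith

/-- composite numbers of one class are rare -/
theorem ET_card (ε : ℝ) (hε : 0 < ε) : ∃ K : ℝ, 0 < K ∧ ∀ x X : ℕ, 2 ≤ yy x → 1 ≤ X → X ≤ x →
    ((ET x X).card : ℝ) ≤ K * (X : ℝ) ^ (1 / 2 + ε) := by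
  classical
  obtain ⟨K1, hK1, h1⟩ := DD_card ε hε
  obtain ⟨K2, hK2, h2⟩ := class_primes 2 ε (by norm_num) hε
  obtain ⟨R, hR, h3⟩ := DD_sum ε hε
  refine ⟨K1 + K2 * R, by positivity, fun x X hy hX hXx => ?_⟩
  have hX0 : (0 : ℝ) < X := by exact_mod_cast hX
  obtain ⟨F, hF⟩ : ∃ F : ℕ → Finset ℕ, ∀ m, F m = (Icc 1 (X / m)).filter (fun p => Cs x (sg m) p) :=
    ⟨_, fun _ => rfl⟩
  have hcov : ET x X ⊆ DD x X ∪ ((DD x X).filter (fun m => 2 ≤ m)).biUnion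
      (fun m => (F m).image (fun p => p * m)) := by
    intro m hm
    rw [mem_ET] at hm
    obtain ⟨⟨a1, a2⟩, a3, a4, a5⟩ := hm
    rw [mem_union]
    rcases a3.struct hy a4 a5 with h | ⟨p, m', b1, b2, b3, b4⟩
    · left
      rw [mem_DD] at h ⊢
      exact ⟨⟨a1, a2⟩, h.2⟩
    · right
      rw [mem_DD] at b3
      rw [mem_biUnion]
      refine ⟨m', ?_, ?_⟩
      · rw [mem_filter, mem_DD]
        exact ⟨⟨⟨b3.1.1, b3.1.2.trans a2⟩, b3.2⟩, b2⟩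
      · rw [mem_image]
        refine ⟨p, ?_, b1.symm⟩
        rw [hF, mem_filter, mem_Icc]
        refine ⟨⟨b4.1.one_lt.le, ?_⟩, b4⟩
        rw [Nat.le_div_iff_mul_le (by omega)]
        omega
  have h4 := (card_le_card hcov).trans (card_union_le _ _)
  have h5 : ((ET x X).card : ℝ) ≤ (DD x X).card +
      ∑ m ∈ (DD x X).filter (fun m => 2 ≤ m), ((F m).card : ℝ) := by
    have h6 : (((DD x X).filter (fun m => 2 ≤ m)).biUnion
      (fun m => (F m).image (fun p => p * m))).card ≤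
        ∑ m ∈ (DD x X).filter (fun m => 2 ≤ m), (F m).card :=
      card_biUnion_le.trans (sum_le_sum fun m _ => card_image_le)
    exact_mod_cast h4.trans (Nat.add_le_add_left h6 _)
  refine h5.trans ?_
  have h6 : ∀ m ∈ (DD x X).filter (fun m => 2 ≤ m), ((F m).card : ℝ) ≤
      K2 * (X : ℝ) ^ (1 / 2 + ε) * (m : ℝ) ^ (-(1 / 2 + ε)) := by
    intro m hm
    rw [mem_filter, mem_DD] at hm
    have hm0 : (0 : ℝ) < m := by exact_mod_cast hm.1.1.1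
    have hXm : 1 ≤ X / m := by
      rw [Nat.le_div_iff_mul_le (by omega)]
      have := hm.1.1.2
      omega
    have h7 := h2 x (X / m) hXm hy (log_lt_yy hXm ((Nat.div_le_self X m).trans hXx)) (sg m) (F m)
      (fun p hp => by
        rw [hF, mem_filter, mem_Icc] at hp
        exact ⟨hp.1.2, hp.2⟩)
    refine h7.trans ?_
    rw [mul_assoc]
    apply mul_le_mul_of_nonneg_left _ hK2.le
    calc ((X / m : ℕ) : ℝ) ^ (1 / 2 + ε) ≤ ((X : ℝ) / m) ^ (1 / 2 + ε) :=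
          rpow_le_rpow (Nat.cast_nonneg _) Nat.cast_div_le (by positivity)
      _ = _ := by rw [div_rpow hX0.le hm0.le, rpow_neg hm0.le, div_eq_mul_inv]
  have h7 : ∑ m ∈ (DD x X).filter (fun m => 2 ≤ m), ((F m).card : ℝ) ≤
      K2 * (X : ℝ) ^ (1 / 2 + ε) * R := by
    refine (sum_le_sum h6).trans ?_
    rw [← mul_sum]
    apply mul_le_mul_of_nonneg_left _ (by positivity)
    refine le_trans ?_ (h3 x X hXx)
    exact sum_le_sum_of_subset_of_nonneg (filter_subset _ _) fun _ _ _ => by positivity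
  have h8 := h1 x X hX hXx
  linarith

theorem ET_sum (ε : ℝ) (hε : 0 < ε) : ∃ R : ℝ, 0 < R ∧ ∀ x X : ℕ, 2 ≤ yy x → X ≤ x →
    ∑ m ∈ ET x X, (m : ℝ) ^ (-(1 / 2 + ε)) ≤ R := by
  obtain ⟨K, hK, h⟩ := ET_card (ε / 2) (by positivity)
  refine ⟨K ^ ((1 / 2 + ε) / (1 / 2 + ε / 2)) *
    ∑' k : ℕ, (k : ℝ) ^ (-((1 / 2 + ε) / (1 / 2 + ε / 2))) + 1, by positivity, fun x X hy hXx => ?_⟩
  have h1 := Pool.Agent.W57.SW.rank_sum (ET x X) K (1 / 2 + ε / 2) (1 / 2 + ε) hK (by positivity)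
    (by linarith) (fun q hq => (mem_ET.mp hq).1.1) (fun q hq => by
      have h2 := (mem_ET.mp hq).1
      rw [ET_filter h2.2]
      exact h x q hy h2.1 (h2.2.trans hXx))
  linarith

/-- the primes `p` that can be a cofactor of `m` -/
def Ex (x m p : ℕ) : Prop := p * m ≤ x ∧ Cs x (sg m) p ∧ gp (yy x) p ∣ m - 1

/-- few possible cofactors -/
theorem ext_count (e : ℝ) (he : 0 < e) (he1 : e ≤ 1 / 4) : ∃ C : ℝ, 0 < C ∧ ∃ x0 : ℕ, ∀ x : ℕ,
    x0 ≤ x → ∀ m : ℕ, 2 ≤ m → m ≤ x → ∀ T : Finset ℕ, (∀ p ∈ T, Ex x m p) →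
    (T.card : ℝ) ≤ C * (x : ℝ) ^ e * ((x : ℝ) / m) ^ (al e) := by
  classical
  obtain ⟨x1, hx1⟩ := class_gp e he he1
  obtain ⟨C, hC, hdiv⟩ := Pool.Agent.Helper112.divisor_bound (e / 2) (by positivity)
  have hev1 : ∀ᶠ x : ℝ in Filter.atTop, (log x) ^ 2 ≤ x ^ (e / 2) := by
    have h := (isLittleO_pow_log_id_atTop (n := 2)).def (show (0 : ℝ) < 1 by norm_num)
    have h2 := isLittleO_log_rpow_atTop (show (0 : ℝ) < e / 4 by positivity)
    have h3 := h2.def (show (0 : ℝ) < 1 by norm_num)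
    filter_upwards [h3, Filter.eventually_ge_atTop 1] with x a1 a2
    have hx0 : 0 < x := by linarith
    have hlog : 0 ≤ log x := log_nonneg a2
    rw [norm_of_nonneg hlog, norm_of_nonneg (by positivity), one_mul] at a1
    calc (log x) ^ 2 ≤ (x ^ (e / 4)) ^ 2 := pow_le_pow_left₀ hlog a1 2
      _ = x ^ (e / 2) := by rw [← rpow_natCast, ← rpow_mul hx0.le]; congr 1; push_cast; ring
  obtain ⟨x2, hx2⟩ := Filter.eventually_atTop.mp hev1
  obtain ⟨x3, hx3⟩ := exists_nat_ge x2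
  refine ⟨24 * C, by positivity, max (max x1 x3) 1, ?_⟩
  intro x hx m hm hmx T hT
  have hxx1 : x1 ≤ x := (le_max_left _ _).trans ((le_max_left _ _).trans hx)
  have hxx3 : x3 ≤ x := (le_max_right _ _).trans ((le_max_left _ _).trans hx)
  have hxone : 1 ≤ x := (le_max_right _ _).trans hx
  have hx0 : (0 : ℝ) < x := by exact_mod_cast hxone
  have hm0 : (0 : ℝ) < m := by exact_mod_cast (by omega : 0 < m)
  have hlog := hx2 x (hx3.trans (by exact_mod_cast hxx3))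
  have hX1 : 1 ≤ x / m := by
    rw [Nat.le_div_iff_mul_le (by omega)]; omega
  have hcov : T ⊆ (m - 1).divisors.biUnion (fun g => T.filter (fun p => gp (yy x) p = g)) := by
    intro p hp
    rw [mem_biUnion]
    exact ⟨gp (yy x) p, Nat.mem_divisors.mpr ⟨(hT p hp).2.2, by omega⟩, mem_filter.mpr ⟨hp, rfl⟩⟩
  have h1 := (card_le_card hcov).trans card_biUnion_le
  have h2 : (T.card : ℝ) ≤ ∑ g ∈ (m - 1).divisors, ((T.filter (fun p => gp (yy x) p = g)).card : ℝ) := by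
    exact_mod_cast h1
  refine h2.trans ?_
  have h3 : ∀ g ∈ (m - 1).divisors, ((T.filter (fun p => gp (yy x) p = g)).card : ℝ) ≤
      24 * (log x) ^ 2 * ((x : ℝ) / m) ^ (al e) := by
    intro g hg
    have hg1 : 1 ≤ g := Nat.pos_of_mem_divisors hg
    have hgx : g ≤ x := (Nat.divisor_le hg).trans (by omega)
    have h4 := hx1 x (x / m) hxx1 hX1 (Nat.div_le_self _ _) (sg m) g
      (T.filter (fun p => gp (yy x) p = g)) hg1 hgx (fun p hp => by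
        rw [mem_filter] at hp
        obtain ⟨b1, b2, b3⟩ := hT p hp.1
        refine ⟨?_, b2, hp.2⟩
        rw [Nat.le_div_iff_mul_le (by omega)]
        exact b1)
    refine h4.trans ?_
    apply mul_le_mul_of_nonneg_left _ (by positivity)
    apply rpow_le_rpow (Nat.cast_nonneg _) Nat.cast_div_le
    unfold al; positivity
  refine (sum_le_sum h3).trans ?_
  rw [sum_const, nsmul_eq_mul]
  have h5 : ((m - 1).divisors.card : ℝ) ≤ C * (x : ℝ) ^ (e / 2) := by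
    refine (hdiv (m - 1) (by omega)).trans ?_
    apply mul_le_mul_of_nonneg_left _ hC.le
    apply rpow_le_rpow (Nat.cast_nonneg _) _ (by positivity)
    exact_mod_cast (by omega : m - 1 ≤ x)
  have e1 : (x : ℝ) ^ e = (x : ℝ) ^ (e / 2) * (x : ℝ) ^ (e / 2) := by
    rw [← rpow_add hx0]; congr 1; ring
  rw [e1]
  calc ((m - 1).divisors.card : ℝ) * (24 * (log x) ^ 2 * ((x : ℝ) / m) ^ (al e)) ≤
      (C * (x : ℝ) ^ (e / 2)) * (24 * (x : ℝ) ^ (e / 2) * ((x : ℝ) / m) ^ (al e)) := by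
        gcongr
    _ = _ := by ring

end Run7.h306
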