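import Pool.Agent.R384.Z.Pot

/-!
# Subgroups which generate the image of a residually unipotent representation: all primes `p`
-/

set_option autoImplicit false
set_option linter.unusedSectionVars false

namespace Pool.Agent.Run7.h306.FQ

open IsLocalRing Matrix
open Pool.Agent.Z384 (InI InI.mul InI.mulL InI.add InI.mono cong mem_cong cong_normal cong_open)

variable {p : ℕ} [hp : Fact p.Prime]

/-- a proper subgroup of a finite `p`-group is killed by a nonzero homomorphism to `ℤ/p` -/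
theorem exists_hom {P : Type*} [Group P] [Finite P] (hP : IsPGroup p P) {Q : Subgroup P}
    (hQ : Q ≠ ⊤) : ∃ f : P →* Multiplicative (ZMod p), (∀ x ∈ Q, f x = 1) ∧ ∃ x, f x ≠ 1 := by
  classical
  obtain ⟨a, ha⟩ := IsPGroup.iff_card.1 hP
  obtain ⟨m, hm, hQm⟩ := (Nat.dvd_prime_pow hp.out).1 (ha ▸ Subgroup.card_subgroup_dvd_card Q)
  have hma : m ≠ a := by
    rintro rfl
    exact hQ (Subgroup.eq_top_of_card_eq Q (by rw [hQm, ha]))
  obtain ⟨b, rfl⟩ : ∃ b, a = b + 1 := ⟨a - 1, by omega⟩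
  obtain ⟨K, hK, hQK⟩ := Sylow.exists_subgroup_card_pow_prime_le (G := P) p (n := m) (m := b)
    (by rw [ha]; exact pow_dvd_pow _ (by omega)) Q hQm (by omega)
  have hKi : K.index = p := by
    have h1 := K.card_mul_index
    rw [hK, ha, pow_succ] at h1
    exact Nat.eq_of_mul_eq_mul_left (pow_pos hp.out.pos b) h1
  have hKn : K.Normal := Subgroup.normal_of_index_eq_minFac_card (by
    rw [hKi, ha, Nat.Prime.pow_minFac hp.out (by omega)])
  have hc1 : Nat.card (P ⧸ K) = p := hKi
  have hc2 : Nat.card (Multiplicative (ZMod p)) = p := by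
    rw [Nat.card_congr Multiplicative.toAdd, Nat.card_zmod]
  let e : P ⧸ K ≃* Multiplicative (ZMod p) := mulEquivOfPrimeCardEq (p := p) hc1 hc2
  refine ⟨e.toMonoidHom.comp (QuotientGroup.mk' K), fun x hx => ?_, ?_⟩
  · show e (QuotientGroup.mk' K x) = 1
    have h1 : QuotientGroup.mk' K x = 1 := (QuotientGroup.eq_one_iff x).2 (hQK hx)
    rw [h1, map_one]
  · by_contra hcon
    push Not at hcon
    have hKt : K = ⊤ := by
      refine eq_top_iff.2 fun x _ => ?_
      have h1 : e (QuotientGroup.mk' K x) = 1 := hcon x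
      have h2 : QuotientGroup.mk' K x = 1 := by
        apply e.injective
        rw [h1, map_one]
      exact (QuotientGroup.eq_one_iff x).1 h2
    rw [hKt, Subgroup.index_top] at hKi
    exact hp.out.one_lt.ne hKi

section mat

variable {A : Type*} [CommRing A] {n : ℕ}

lemma InI.mulR {I : Ideal A} {Z : Matrix (Fin n) (Fin n) A} (hZ : InI I Z)
    (W : Matrix (Fin n) (Fin n) A) : InI I (Z * W) := fun i j => by
  rw [Matrix.mul_apply]
  exact Ideal.sum_mem _ fun k _ => Ideal.mul_mem_right _ _ (hZ i k)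

lemma InI.sum {ι : Type*} {I : Ideal A} (s : Finset ι) {Z : ι → Matrix (Fin n) (Fin n) A}
    (hZ : ∀ i ∈ s, InI I (Z i)) : InI I (∑ i ∈ s, Z i) := fun i j => by
  rw [Matrix.sum_apply]
  exact Ideal.sum_mem _ fun k hk => hZ k hk i j

variable [IsLocalRing A]

lemma step (hpA : (p : A) ∈ maximalIdeal A) {Y : Matrix (Fin n) (Fin n) A} {k : ℕ}
    (hY : InI (maximalIdeal A ^ (k + 1)) (Y - 1)) :
    InI (maximalIdeal A ^ (k + 2)) (Y ^ p - 1) := by
  have h1 : Y ^ p - 1 = (Y - 1) * ∑ i ∈ Finset.range p, Y ^ i := (mul_geom_sum Y p).symm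
  have h2 : ∑ i ∈ Finset.range p, Y ^ i = ∑ i ∈ Finset.range p, (Y ^ i - 1) + (p : A) • 1 := by
    rw [Finset.sum_sub_distrib, Finset.sum_const, Finset.card_range, Nat.cast_smul_eq_nsmul]
    abel
  have h3 : InI (maximalIdeal A) (∑ i ∈ Finset.range p, Y ^ i) := by
    rw [h2]
    refine InI.add (InI.sum _ fun i _ => ?_) fun i j => ?_
    · rw [← mul_geom_sum Y i]
      exact InI.mulR (hY.mono (Ideal.pow_le_self (Nat.succ_ne_zero k))) _
    · rw [Matrix.smul_apply, smul_eq_mul]
      exact Ideal.mul_mem_right _ _ hpA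
  rw [h1, show k + 2 = (k + 1) + 1 from rfl, pow_succ (maximalIdeal A) (k + 1)]
  exact hY.mul h3

lemma liftp (hpA : (p : A) ∈ maximalIdeal A) {X : Matrix (Fin n) (Fin n) A}
    (hX : InI (maximalIdeal A) (X - 1)) (m : ℕ) :
    InI (maximalIdeal A ^ (m + 1)) (X ^ p ^ m - 1) := by
  induction m with
  | zero => simpa using hX
  | succ m ih =>
    rw [pow_succ p m, pow_mul]
    exact step hpA ih

lemma lift1p (hpA : (p : A) ∈ maximalIdeal A) {X : Matrix (Fin n) (Fin n) A} {N : ℕ}
    (hX : InI (maximalIdeal A) ((X - 1) ^ N)) : InI (maximalIdeal A) (X ^ p ^ N - 1) := by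
  set f : Matrix (Fin n) (Fin n) A →+* Matrix (Fin n) (Fin n) (ResidueField A) :=
    (residue A).mapMatrix with hf
  have hz : ∀ Z : Matrix (Fin n) (Fin n) A, InI (maximalIdeal A) Z ↔ f Z = 0 := by
    intro Z
    constructor
    · intro h
      ext i j
      exact (residue_eq_zero_iff _).2 (h i j)
    · intro h i j
      exact (residue_eq_zero_iff _).1 (congrFun (congrFun h i) j)
  have hc : CharP (ResidueField A) p := by
    refine (CharP.charP_iff_prime_eq_zero hp.out).2 ?_
    have : residue A (p : A) = 0 := (residue_eq_zero_iff _).2 hpA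
    rwa [map_natCast] at this
  rw [hz] at hX ⊢
  have hc2 : CharP (Matrix (Fin n) (Fin n) (ResidueField A)) p ∨ n = 0 := by
    rcases Nat.eq_zero_or_pos n with h | h
    · exact Or.inr h
    · have : Nonempty (Fin n) := ⟨⟨0, h⟩⟩
      exact Or.inl inferInstance
  rcases hc2 with hc2 | hn
  · rw [map_sub, map_pow, map_one] at *
    have h3 : (f X - 1) ^ p ^ N = f X ^ p ^ N - 1 := by
      have := sub_pow_char_pow_of_commute p N (Commute.one_right (f X))
      rwa [one_pow] at this
    rw [← h3]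
    obtain ⟨k, hk⟩ : ∃ k, p ^ N = N + k :=
      ⟨p ^ N - N, by have := Nat.lt_pow_self (n := N) hp.out.one_lt; omega⟩
    rw [hk, pow_add]
    have h4 : (f X - 1) ^ N = 0 := by
      have := hX
      rwa [map_sub, map_one] at this
    rw [h4, zero_mul]
  · subst hn
    exact Subsingleton.elim _ _

end mat

section rep

variable {A : Type*} [CommRing A] [IsLocalRing A] [IsNoetherianRing A] {n : ℕ}
variable {G : Type*} [Group G]

theorem cong_fin (hfin : Finite (ResidueField A)) (ρ : G →* GL (Fin n) A) (m : ℕ) :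
    (cong ρ m).FiniteIndex := by
  have hf1 : Finite (A ⧸ maximalIdeal A) := hfin
  have hf2 : Finite (A ⧸ maximalIdeal A ^ m) :=
    Ideal.finite_quotient_pow (IsNoetherian.noetherian (maximalIdeal A)) m
  have hf3 : Finite (Matrix (Fin n) (Fin n) (A ⧸ maximalIdeal A ^ m)) := inferInstance
  have hf4 : Finite (GL (Fin n) (A ⧸ maximalIdeal A ^ m)) := Finite.of_injective
    (fun u : GL (Fin n) (A ⧸ maximalIdeal A ^ m) =>
      (u : Matrix (Fin n) (Fin n) (A ⧸ maximalIdeal A ^ m))) Units.val_injective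
  unfold cong
  infer_instance

theorem cong_pgroup (hpA : (p : A) ∈ maximalIdeal A) (ρ : G →* GL (Fin n) A)
    (hres : ∀ σ, ∃ N : ℕ, InI (maximalIdeal A) (((ρ σ : Matrix (Fin n) (Fin n) A) - 1) ^ N))
    (m : ℕ) (g : G) : ∃ N : ℕ, g ^ p ^ N ∈ cong ρ m := by
  obtain ⟨N, hN⟩ := hres g
  refine ⟨N + m, mem_cong.2 ?_⟩
  have h3 := liftp hpA (lift1p hpA hN) m
  have e : (ρ (g ^ p ^ (N + m)) : Matrix (Fin n) (Fin n) A) =
      ((ρ g : Matrix (Fin n) (Fin n) A) ^ p ^ N) ^ p ^ m := by
    rw [map_pow, Units.val_pow_eq_pow_val, ← pow_mul, ← pow_add]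
  rw [e]
  exact h3.mono (Ideal.pow_le_pow_right (by omega))

/-- **Density.** A subgroup on which no nonzero homomorphism to `ℤ/p` vanishes that factors through the
image of a residually unipotent representation has dense image. -/
theorem dense [TopologicalSpace G] [IsTopologicalGroup G] [TopologicalSpace A]
    (hA : IsAdic (maximalIdeal A)) (hfin : Finite (ResidueField A))
    (hpA : (p : A) ∈ maximalIdeal A) {ρ : G →* GL (Fin n) A}
    (hρ : ∀ i j, Continuous fun σ => (ρ σ : Matrix (Fin n) (Fin n) A) i j)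
    (hres : ∀ σ, ∃ N : ℕ, InI (maximalIdeal A) (((ρ σ : Matrix (Fin n) (Fin n) A) - 1) ^ N))
    (D : Subgroup G)
    (hkey : ∀ f : G →* Multiplicative (ZMod p), IsOpen (f.ker : Set G) → (∀ g, ρ g = 1 → f g = 1) →
      (∀ g ∈ D, f g = 1) → ∀ g, f g = 1) (m : ℕ) (g : G) :
    ∃ δ ∈ D, δ⁻¹ * g ∈ cong ρ m := by
  classical
  have hUn := cong_normal ρ m
  have hUf := cong_fin hfin ρ m
  have hUo := cong_open hA hρ m
  set U : Subgroup G := cong ρ m with hU
  have hfin2 : Finite (G ⧸ U) := inferInstance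
  have hpg : IsPGroup p (G ⧸ U) := by
    intro x
    obtain ⟨g, rfl⟩ := QuotientGroup.mk_surjective x
    obtain ⟨N, hN⟩ := cong_pgroup hpA ρ hres m g
    refine ⟨N, ?_⟩
    rw [← QuotientGroup.mk_pow]
    exact (QuotientGroup.eq_one_iff _).2 hN
  set Q : Subgroup (G ⧸ U) := D.map (QuotientGroup.mk' U) with hQ
  by_cases h : Q = ⊤
  · have h1 : (QuotientGroup.mk' U g) ∈ Q := by rw [h]; trivial
    obtain ⟨δ, hδ, hδg⟩ := h1
    exact ⟨δ, hδ, QuotientGroup.eq.1 hδg⟩
  · exfalso
    obtain ⟨f, hf, x, hx⟩ := exists_hom hpg h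
    obtain ⟨y, rfl⟩ := QuotientGroup.mk'_surjective U x
    apply hx
    refine hkey (f.comp (QuotientGroup.mk' U)) ?_ ?_ ?_ y
    · refine Subgroup.isOpen_mono (H₁ := U) ?_ hUo
      intro u hu
      show f (QuotientGroup.mk' U u) = 1
      have h1 : QuotientGroup.mk' U u = 1 := (QuotientGroup.eq_one_iff u).2 hu
      rw [h1, map_one]
    · intro u hu
      show f (QuotientGroup.mk' U u) = 1
      have h1 : QuotientGroup.mk' U u = 1 := (QuotientGroup.eq_one_iff u).2 (by
        show GeneralLinearGroup.map (n := Fin n) (Ideal.Quotient.mk (maximalIdeal A ^ m)) (ρ u) = 1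
        rw [hu, map_one])
      rw [h1, map_one]
    · intro u hu
      exact hf _ ⟨u, hu, rfl⟩

end rep

end Pool.Agent.Run7.h306.FQ
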