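import Pool.Agent.Run7.h306.FQ1
import Pool.Agent.Run7.h306.FQ2
import Pool.Agent.TH831.OE.Ord

/-!
# Two-dimensional residually scalar representations and local groups
-/

set_option autoImplicit false
set_option linter.unusedSectionVars false

namespace Pool.Agent.Run7.h306.FQ

open IsLocalRing Matrix NumberField
open Pool.Agent.W569.FM Pool.Agent.TH831.OT
open Pool.Agent.TH831.OE (bas mt red Cts Cong mem_pow_iff cts_of_continuous exists_twistB exists_sqrtA
  natCast_zero_iff two_ne_of ResS Bas)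
open Pool.Agent.Z384 (InI cong mem_cong act act_apply stb Irr dih stb_of_lim mem_stb_line)

variable {A : Type} [CommRing A] [IsDomain A] [IsDiscreteValuationRing A]
variable {G : Type} [Group G] [TopologicalSpace G] [IsTopologicalGroup G]

theorem cont_of_cts [TopologicalSpace A] (hA : IsAdic (maximalIdeal A)) {ρ : G →* GL (Fin 2) A}
    (hρ : Cts (bas A) ρ) (i j : Fin 2) :
    Continuous fun σ => (ρ σ : Matrix (Fin 2) (Fin 2) A) i j := by
  rw [continuous_iff_continuousAt]
  intro g₀
  rw [ContinuousAt, (hA.hasBasis_nhds _).tendsto_right_iff]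
  intro N _
  have h1 := hρ N
  have h2 : Filter.Tendsto (fun g : G => g₀⁻¹ * g) (nhds g₀) (nhds 1) := by
    have : Continuous fun g : G => g₀⁻¹ * g := continuous_const.mul continuous_id
    have h3 := this.tendsto g₀
    rwa [inv_mul_cancel] at h3
  filter_upwards [h2.eventually h1] with g hg
  obtain ⟨α, hα⟩ := hg
  refine ⟨(bas A).π ^ N * (mt (ρ g₀) * α) i j, ?_, ?_⟩
  · exact Ideal.mul_mem_right _ _ ((mem_pow_iff N _).2 dvd_rfl)
  · have e : mt (ρ g) = mt (ρ g₀) * mt (ρ (g₀⁻¹ * g)) := by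
      rw [← Units.val_mul, ← map_mul, mul_inv_cancel_left]
    have e2 : mt (ρ g) i j = mt (ρ g₀) i j + (bas A).π ^ N * (mt (ρ g₀) * α) i j := by
      rw [e, hα, mul_add, mul_one, Matrix.mul_smul, Matrix.add_apply, Matrix.smul_apply, smul_eq_mul]
    exact e2.symm

/-- **The twist** of a residually scalar representation which is residually unipotent. -/
theorem twist {p : ℕ} [hp : Fact p.Prime] (hp2 : p ≠ 2) [IsAdicComplete (maximalIdeal A) A]
    [TopologicalSpace A] (hA : IsAdic (maximalIdeal A)) (hpA : (p : A) ∈ maximalIdeal A)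
    {ρ : G →* GL (Fin 2) A} (hρ : Continuous ρ) {a : G →* (ResidueField A)ˣ}
    (ha : ∀ g, IsNilpotent ((ρ g : Matrix (Fin 2) (Fin 2) A).map (residue A) -
      (a g : ResidueField A) • (1 : Matrix (Fin 2) (Fin 2) (ResidueField A)))) :
    ∃ (ρ' : G →* GL (Fin 2) A) (s : G → A),
      (∀ i j, Continuous fun σ => (ρ' σ : Matrix (Fin 2) (Fin 2) A) i j) ∧
      (∀ g, ∃ N : ℕ, InI (maximalIdeal A) (((ρ' g : Matrix (Fin 2) (Fin 2) A) - 1) ^ N)) ∧
      (∀ g, IsUnit (s g)) ∧ (∀ g, mt (ρ' g) = s g • mt (ρ g)) ∧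
      ∀ (g : G) (c : A), mt (ρ g) = c • 1 → ρ' g = 1 := by
  have hpκ := natCast_zero_iff hp.out hpA
  have h2κ : (2 : ResidueField A) ≠ 0 := two_ne_of hp2 hpκ
  have hcts := cts_of_continuous hA hρ
  have hres' : ResS (bas A) a ρ := fun g => sq_zero_of_nil (ha g)
  obtain ⟨ρ', s, k1, k2, k3, k4, k5, k6⟩ := exists_twistB h2κ
    (fun d x hx hd => by
      obtain ⟨y, rfl⟩ := residue_surjective x
      exact exists_sqrtA h2κ d y hx hd) hcts hres'
  refine ⟨ρ', s, cont_of_cts hA k1, fun g => ⟨2, fun i j => ?_⟩, fun g => ?_, k4, fun g c hc => ?_⟩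
  · rw [← residue_eq_zero_iff]
    have e1 := congrFun (congrFun (k2 g) i) j
    rw [← map_one (red (bas A)), ← map_sub, ← map_mul, ← pow_two] at e1
    exact e1
  · have h1 := k5 g
    rw [k4, Matrix.det_smul, Fintype.card_fin] at h1
    have h2 : IsUnit (s g ^ 2 * (mt (ρ g)).det) := by rw [h1]; exact isUnit_one
    exact isUnit_pow_iff two_ne_zero |>.1 (isUnit_of_mul_isUnit_left h2)
  · have h1 : mt (ρ' g) = (s g * c) • (1 : Matrix (Fin 2) (Fin 2) A) := by
      rw [k4, hc, smul_smul]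
    have h2 := k5 g
    rw [h1, Matrix.det_smul, Fintype.card_fin, Matrix.det_one, mul_one] at h2
    have h3 : (s g * c - 1) * (s g * c + 1) = 0 := by linear_combination h2
    rcases mul_eq_zero.1 h3 with h4 | h4
    · apply Units.ext
      show mt (ρ' g) = 1
      rw [h1, sub_eq_zero.1 h4, one_smul]
    · exfalso
      have h5 : s g * c = -1 := eq_neg_of_add_eq_zero_left h4
      have h6 := congrFun (congrFun (k2 g) 0) 0
      rw [h1, h5] at h6
      have h7 : red (bas A) ((-1 : A) • (1 : Matrix (Fin 2) (Fin 2) A)) =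
          -(1 : Matrix (Fin 2) (Fin 2) (ResidueField A)) := by
        rw [neg_smul, one_smul, map_neg, map_one]
      rw [h7] at h6
      have h8 : ((-(1 : Matrix (Fin 2) (Fin 2) (ResidueField A)) - 1) *
          (-(1 : Matrix (Fin 2) (Fin 2) (ResidueField A)) - 1)) 0 0 = 4 := by
        have e : (-(1 : Matrix (Fin 2) (Fin 2) (ResidueField A)) - 1) *
            (-(1 : Matrix (Fin 2) (Fin 2) (ResidueField A)) - 1) =
            (4 : ResidueField A) • (1 : Matrix (Fin 2) (Fin 2) (ResidueField A)) := by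
          rw [show (4 : ResidueField A) = 1 + 1 + 1 + 1 by norm_num, add_smul, add_smul, add_smul,
            one_smul]
          noncomm_ring
        rw [e, Matrix.smul_apply, Matrix.one_apply_eq, smul_eq_mul, mul_one]
      rw [h8] at h6
      have h9 : (4 : ResidueField A) = 2 * 2 := by norm_num
      rw [h9] at h6
      exact (mul_ne_zero h2κ h2κ) h6

/-- A subgroup of index two of the group of a residually unipotent representation is not the
stabilizer of a subspace. -/
theorem no_index_two {p : ℕ} [hp : Fact p.Prime] (hp2 : p ≠ 2) {n : ℕ}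
    (hpA : (p : A) ∈ maximalIdeal A) {F : Type} [Field F] [Algebra A F] [IsFractionRing A F]
    (ρ : G →* GL (Fin n) A)
    (hres : ∀ σ, ∃ N : ℕ, InI (maximalIdeal A) (((ρ σ : Matrix (Fin n) (Fin n) A) - 1) ^ N))
    (W : Submodule F (Fin n → F)) : (stb ρ W).index ≠ 2 := by
  intro h
  have h1 : ∃ g, g ∉ stb ρ W := by
    by_contra hcon
    push Not at hcon
    have h2 : stb ρ W = ⊤ := eq_top_iff.2 fun x _ => hcon x
    rw [h2, Subgroup.index_top] at h
    exact absurd h (by decide)
  obtain ⟨g, hg⟩ := h1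
  apply hg
  refine stb_of_lim ρ W le_rfl fun m => ?_
  obtain ⟨N, hN⟩ := cong_pgroup hpA ρ hres m g
  have hodd : Odd (p ^ N) := (hp.out.odd_of_ne_two hp2).pow
  have h3 : g ^ p ^ N ∉ stb ρ W := by
    obtain ⟨k, hk⟩ := hodd
    rw [hk, pow_succ, pow_mul]
    intro h4
    have h5 : g ^ 2 ∈ stb ρ W := by
      rw [pow_two]
      exact (Subgroup.mul_mem_iff_of_index_two h).2 Iff.rfl
    have h6 := (Subgroup.mul_mem_cancel_left (stb ρ W) (pow_mem h5 k)).1 h4
    exact hg h6
  refine ⟨g * (g ^ p ^ N)⁻¹, ?_, ?_⟩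
  · refine (Subgroup.mul_mem_iff_of_index_two h).2 ⟨fun h4 => absurd h4 hg, fun h4 => ?_⟩
    exact absurd (inv_mem_iff.1 h4) h3
  · have e : (g * (g ^ p ^ N)⁻¹)⁻¹ * g = g ^ p ^ N := by group
    rw [e]
    exact hN

end Pool.Agent.Run7.h306.FQ
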