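import Mathlib

/-!
# Groups of `2 × 2` matrices with a common eigenvector
-/

set_option autoImplicit false
set_option linter.unusedSectionVars false

namespace Pool.Agent.Run7.h306.FQ

open Matrix

section
variable {K : Type} [Field K]

def wd (x y : Fin 2 → K) : K := x 0 * y 1 - x 1 * y 0

theorem wd_mul (C : Matrix (Fin 2) (Fin 2) K) (x y : Fin 2 → K) :
    wd (C *ᵥ x) (C *ᵥ y) = C.det * wd x y := by
  unfold wd
  simp only [mulVec, dotProduct, Fin.sum_univ_two, det_fin_two]
  ring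

theorem basis_of {v w : Fin 2 → K} (h : wd v w ≠ 0) (u : Fin 2 → K) :
    ∃ a b : K, u = a • v + b • w := by
  refine ⟨wd u w / wd v w, wd v u / wd v w, ?_⟩
  have h' := h
  unfold wd at h' ⊢
  ext i
  fin_cases i
  · simp only [Pi.add_apply, Pi.smul_apply, smul_eq_mul, Fin.zero_eta]
    rw [div_mul_eq_mul_div, div_mul_eq_mul_div, ← add_div, eq_div_iff h']
    ring
  · simp only [Pi.add_apply, Pi.smul_apply, smul_eq_mul, Fin.mk_one]
    rw [div_mul_eq_mul_div, div_mul_eq_mul_div, ← add_div, eq_div_iff h']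
    ring

theorem wd_comb (v w : Fin 2 → K) (a b c d : K) :
    wd (a • v + b • w) (c • v + d • w) = (a * d - b * c) * wd v w := by
  unfold wd
  simp only [Pi.add_apply, Pi.smul_apply, smul_eq_mul]
  ring

theorem exists_comp {v : Fin 2 → K} (hv : v ≠ 0) : ∃ w : Fin 2 → K, wd v w ≠ 0 := by
  by_cases h : v 0 = 0
  · refine ⟨![1, 0], ?_⟩
    unfold wd
    simp only [cons_val_zero, cons_val_one, mul_zero, mul_one, zero_sub, ne_eq, neg_eq_zero]
    intro h1
    apply hv
    ext i
    fin_cases i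
    · exact h
    · exact h1
  · refine ⟨![0, 1], ?_⟩
    unfold wd
    simpa using h

theorem smul_of_wd {e u : Fin 2 → K} (he : e ≠ 0) (h : wd u e = 0) : ∃ c : K, u = c • e := by
  obtain ⟨w, hw⟩ := exists_comp he
  obtain ⟨a, b, hab⟩ := basis_of hw u
  have h1 : wd u e = -(b * wd e w) := by
    rw [hab]
    unfold wd
    simp only [Pi.add_apply, Pi.smul_apply, smul_eq_mul]
    ring
  rw [h1, neg_eq_zero] at h
  rcases mul_eq_zero.1 h with h2 | h2
  · exact ⟨a, by rw [hab, h2, zero_smul, add_zero]⟩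
  · exact absurd h2 hw

theorem exists_eig [IsAlgClosed K] (M : Matrix (Fin 2) (Fin 2) K) :
    ∃ (a : K) (v : Fin 2 → K), v ≠ 0 ∧ M *ᵥ v = a • v := by
  obtain ⟨a, ha⟩ := Module.End.exists_eigenvalue (Matrix.toLin' M)
  obtain ⟨v, hv⟩ := ha.exists_hasEigenvector
  refine ⟨a, v, hv.2, ?_⟩
  have := hv.apply_eq_smul
  rwa [Matrix.toLin'_apply] at this

/-- the stabilizer of a line -/
def lst {G : Type} [Group G] (φ : G →* GL (Fin 2) K) (v : Fin 2 → K) : Subgroup G where
  carrier := {g | ∃ c : K, c ≠ 0 ∧ (φ g : Matrix (Fin 2) (Fin 2) K) *ᵥ v = c • v}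
  mul_mem' := by
    rintro a b ⟨c, hc0, hc⟩ ⟨d, hd0, hd⟩
    refine ⟨c * d, mul_ne_zero hc0 hd0, ?_⟩
    rw [map_mul, Units.val_mul, ← mulVec_mulVec, hd, mulVec_smul, hc, smul_smul, mul_comm]
  one_mem' := ⟨1, one_ne_zero, by rw [map_one, Units.val_one, one_mulVec, one_smul]⟩
  inv_mem' := by
    rintro a ⟨c, hc0, hc⟩
    refine ⟨c⁻¹, inv_ne_zero hc0, ?_⟩
    have h1 : (φ a⁻¹ : Matrix (Fin 2) (Fin 2) K) *ᵥ ((φ a : Matrix (Fin 2) (Fin 2) K) *ᵥ v) = v := by
      rw [mulVec_mulVec, ← Units.val_mul, ← map_mul, inv_mul_cancel, map_one, Units.val_one,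
        one_mulVec]
    rw [hc, mulVec_smul] at h1
    rw [eq_inv_smul_iff₀ hc0]
    exact h1

theorem mem_lst {G : Type} [Group G] (φ : G →* GL (Fin 2) K) {v : Fin 2 → K} (hv : v ≠ 0) {g : G}
    {c : K} (h : (φ g : Matrix (Fin 2) (Fin 2) K) *ᵥ v = c • v) : g ∈ lst φ v := by
  refine ⟨c, ?_, h⟩
  rintro rfl
  apply hv
  have h1 : (φ g⁻¹ : Matrix (Fin 2) (Fin 2) K) *ᵥ ((φ g : Matrix (Fin 2) (Fin 2) K) *ᵥ v) = v := by
    rw [mulVec_mulVec, ← Units.val_mul, ← map_mul, inv_mul_cancel, map_one, Units.val_one,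
      one_mulVec]
  rw [← h1, h, zero_smul, mulVec_zero]

/-- **A group of matrices is reducible over an algebraically closed field if all commutators
`X Y - Y X` are singular.** -/
theorem common_of_det [IsAlgClosed K] {G : Type} [Group G] (φ : G →* GL (Fin 2) K) (B : Subgroup G)
    (hB : ∀ a ∈ B, ∀ b ∈ B, ((φ a : Matrix (Fin 2) (Fin 2) K) * (φ b : Matrix (Fin 2) (Fin 2) K) -
      (φ b : Matrix (Fin 2) (Fin 2) K) * (φ a : Matrix (Fin 2) (Fin 2) K)).det = 0) :
    ∃ v : Fin 2 → K, v ≠ 0 ∧ B ≤ lst φ v := by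
  classical
  by_cases hsc : ∀ g ∈ B, ∃ c : K, (φ g : Matrix (Fin 2) (Fin 2) K) = c • 1
  · refine ⟨![1, 0], fun h => ?_, fun g hg => ?_⟩
    · have := congrFun h 0
      simp at this
    · obtain ⟨c, hc⟩ := hsc g hg
      have hv : (![1, 0] : Fin 2 → K) ≠ 0 := fun h => by
        have := congrFun h 0
        simp at this
      exact mem_lst φ hv (c := c) (by rw [hc, smul_mulVec, one_mulVec])
  push Not at hsc
  obtain ⟨g₀, hg₀, hns⟩ := hsc
  set M : Matrix (Fin 2) (Fin 2) K := (φ g₀ : Matrix (Fin 2) (Fin 2) K) with hM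
  obtain ⟨a, v, hv, hMv⟩ := exists_eig M
  obtain ⟨w, hw⟩ := exists_comp hv
  obtain ⟨c, b, hMw⟩ := basis_of hw (M *ᵥ w)
  -- the equation
  have key : ∀ g ∈ B, ∀ x z y t : K, (φ g : Matrix (Fin 2) (Fin 2) K) *ᵥ v = x • v + z • w →
      (φ g : Matrix (Fin 2) (Fin 2) K) *ᵥ w = y • v + t • w →
      z * (c ^ 2 * z + (b - a) * ((a - b) * y + c * (t - x))) = 0 := by
    intro g hg x z y t h1 h2
    set h : Matrix (Fin 2) (Fin 2) K := (φ g : Matrix (Fin 2) (Fin 2) K) with hh
    have e1 : (M * h - h * M) *ᵥ v = (z * c) • v + (z * (b - a)) • w := by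
      rw [sub_mulVec, ← mulVec_mulVec, ← mulVec_mulVec, h1, hMv, mulVec_smul, h1, mulVec_add,
        mulVec_smul, mulVec_smul, hMv, hMw]
      ext i
      simp only [Pi.add_apply, Pi.sub_apply, Pi.smul_apply, smul_eq_mul]
      ring
    have e2 : (M * h - h * M) *ᵥ w = (a * y + t * c - c * x - b * y) • v + (-(c * z)) • w := by
      rw [sub_mulVec, ← mulVec_mulVec, ← mulVec_mulVec, h2, hMw, mulVec_add, mulVec_add,
        mulVec_smul, mulVec_smul, mulVec_smul, mulVec_smul, hMv, hMw, h1, h2]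
      ext i
      simp only [Pi.add_apply, Pi.sub_apply, Pi.smul_apply, smul_eq_mul]
      ring
    have e3 := wd_mul (M * h - h * M) v w
    rw [hB g₀ hg₀ g hg, zero_mul, e1, e2, wd_comb] at e3
    rcases mul_eq_zero.1 e3 with e4 | e4
    · linear_combination -e4
    · exact absurd e4 hw
  have hstab : ∀ g ∈ B, ∀ x z y t : K, (φ g : Matrix (Fin 2) (Fin 2) K) *ᵥ v = x • v + z • w →
      z = 0 → g ∈ lst φ v := by
    intro g _ x z _ _ h1 hz
    exact mem_lst φ hv (c := x) (by rw [h1, hz, zero_smul, add_zero])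
  by_cases hab : b = a
  · -- one eigenline
    have hc0 : c ≠ 0 := by
      rintro rfl
      apply hns a
      ext i j
      have e1 : ∀ u : Fin 2 → K, M *ᵥ u = (a • (1 : Matrix (Fin 2) (Fin 2) K)) *ᵥ u := by
        intro u
        obtain ⟨α, β, rfl⟩ := basis_of hw u
        rw [mulVec_add, mulVec_smul, mulVec_smul, hMv, hMw, zero_smul, zero_add, hab, smul_mulVec,
          one_mulVec, smul_add, smul_comm a, smul_comm a]
      have e2 := congrFun (e1 (Pi.single j 1)) i
      rwa [mulVec_single_one, mulVec_single_one] at e2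
    refine ⟨v, hv, fun g hg => ?_⟩
    obtain ⟨x, z, h1⟩ := basis_of hw ((φ g : Matrix (Fin 2) (Fin 2) K) *ᵥ v)
    obtain ⟨y, t, h2⟩ := basis_of hw ((φ g : Matrix (Fin 2) (Fin 2) K) *ᵥ w)
    have h3 := key g hg x z y t h1 h2
    rw [hab, sub_self, zero_mul, add_zero] at h3
    have hz : z = 0 := by
      rcases mul_eq_zero.1 h3 with h4 | h4
      · exact h4
      · rcases mul_eq_zero.1 h4 with h5 | h5
        · exact absurd (pow_eq_zero_iff two_ne_zero |>.1 h5) hc0
        · exact h5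
    exact hstab g hg x z y t h1 hz
  · -- two eigenlines
    set e : Fin 2 → K := c • v + (b - a) • w with he
    have he0 : e ≠ 0 := by
      intro h
      have h1 : wd v e = (b - a) * wd v w := by
        rw [he]
        unfold wd
        simp only [Pi.add_apply, Pi.smul_apply, smul_eq_mul]
        ring
      rw [h] at h1
      have h2 : wd v (0 : Fin 2 → K) = 0 := by unfold wd; simp
      rw [h2] at h1
      rcases mul_eq_zero.1 h1.symm with h3 | h3
      · exact hab (sub_eq_zero.1 h3)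
      · exact hw h3
    have hor : ∀ g ∈ B, g ∈ lst φ v ∨ g ∈ lst φ e := by
      intro g hg
      obtain ⟨x, z, h1⟩ := basis_of hw ((φ g : Matrix (Fin 2) (Fin 2) K) *ᵥ v)
      obtain ⟨y, t, h2⟩ := basis_of hw ((φ g : Matrix (Fin 2) (Fin 2) K) *ᵥ w)
      rcases mul_eq_zero.1 (key g hg x z y t h1 h2) with h4 | h4
      · exact Or.inl (hstab g hg x z y t h1 h4)
      · right
        have h5 : (φ g : Matrix (Fin 2) (Fin 2) K) *ᵥ e =
            (c * x + (b - a) * y) • v + (c * z + (b - a) * t) • w := by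
          rw [he, mulVec_add, mulVec_smul, mulVec_smul, h1, h2]
          ext i
          simp only [Pi.add_apply, Pi.smul_apply, smul_eq_mul]
          ring
        obtain ⟨d, hd⟩ := smul_of_wd he0 (u := (φ g : Matrix (Fin 2) (Fin 2) K) *ᵥ e) (by
          rw [h5, he, wd_comb]
          have h6 : (c * x + (b - a) * y) * (b - a) - (c * z + (b - a) * t) * c = 0 := by
            linear_combination -h4
          rw [h6, zero_mul])
        exact mem_lst φ he0 hd
    by_cases h1 : B ≤ lst φ v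
    · exact ⟨v, hv, h1⟩
    · refine ⟨e, he0, fun h hh => ?_⟩
      obtain ⟨g, hg, hgv⟩ := SetLike.not_le_iff_exists.1 h1
      have hge : g ∈ lst φ e := (hor g hg).resolve_left hgv
      rcases hor h hh with h2 | h2
      · rcases hor (g * h) (mul_mem hg hh) with h3 | h3
        · exact absurd ((Subgroup.mul_mem_cancel_right _ h2).1 h3) hgv
        · exact (Subgroup.mul_mem_cancel_left _ hge).1 h3
      · exact h2

end

end Pool.Agent.Run7.h306.FQ
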