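import Pool.Agent.Run7.h306.FQ3
import Pool.Agent.Run7.h306.FQ5

/-!
# Potentially reducible local groups: absolutely irreducible representations
-/

set_option autoImplicit false
set_option linter.unusedSectionVars false

namespace Pool.Agent.Run7.h306.FQ

open IsLocalRing Matrix
open Pool.Agent.Z384 (InI cong mem_cong cong_normal act act_apply stb Irr dih)

section closure

variable {A : Type} [CommRing A] [IsDomain A] [IsDiscreteValuationRing A]
variable {G : Type} [Group G]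
variable (K : Type) [Field K] [Algebra A K]

/-- the closure of a subgroup -/
def cl (ρ : G →* GL (Fin 2) A) (B : Subgroup G) : Subgroup G where
  carrier := {g | ∀ m : ℕ, ∃ δ ∈ B, δ⁻¹ * g ∈ cong ρ m}
  mul_mem' := by
    intro a b ha hb m
    obtain ⟨δ, hδ, h1⟩ := ha m
    obtain ⟨ε, hε, h2⟩ := hb m
    refine ⟨δ * ε, mul_mem hδ hε, ?_⟩
    have h3 := (cong_normal ρ m).conj_mem _ h1 b⁻¹
    have e : (δ * ε)⁻¹ * (a * b) = (ε⁻¹ * b) * (b⁻¹ * (δ⁻¹ * a) * b⁻¹⁻¹) := by group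
    rw [e]
    exact mul_mem h2 h3
  one_mem' := fun m => ⟨1, one_mem _, by rw [inv_one, one_mul]; exact one_mem _⟩
  inv_mem' := by
    intro a ha m
    obtain ⟨δ, hδ, h1⟩ := ha m
    refine ⟨δ⁻¹, inv_mem hδ, ?_⟩
    have h3 := (cong_normal ρ m).conj_mem _ (inv_mem h1) δ
    have e : δ⁻¹⁻¹ * a⁻¹ = δ * (δ⁻¹ * a)⁻¹ * δ⁻¹ := by group
    rw [e]
    exact h3

theorem le_cl (ρ : G →* GL (Fin 2) A) (B : Subgroup G) : B ≤ cl ρ B := fun g hg m =>
  ⟨g, hg, by rw [inv_mul_cancel]; exact one_mem _⟩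

/-- the representation over the field -/
noncomputable def ext (ρ : G →* GL (Fin 2) A) : G →* GL (Fin 2) K :=
  (GeneralLinearGroup.map (n := Fin 2) (algebraMap A K)).comp ρ

theorem ext_val (ρ : G →* GL (Fin 2) A) (g : G) : (ext K ρ g : Matrix (Fin 2) (Fin 2) K) =
    (ρ g : Matrix (Fin 2) (Fin 2) A).map (algebraMap A K) := rfl

theorem iInf_zero {x : A} (h : ∀ m : ℕ, x ∈ maximalIdeal A ^ m) : x = 0 := by
  have h1 : x ∈ ⨅ m : ℕ, maximalIdeal A ^ m := Ideal.mem_iInf.2 h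
  rwa [Ideal.iInf_pow_eq_bot_of_isLocalRing _ (Ideal.IsPrime.ne_top inferInstance)] at h1

/-- **The closure of a reducible group is reducible.** -/
theorem cl_red [IsAlgClosed K] (hinj : Function.Injective (algebraMap A K))
    (ρ : G →* GL (Fin 2) A) (B : Subgroup G) {v : Fin 2 → K} (hv : v ≠ 0) (hB : B ≤ lst (ext K ρ) v) :
    ∃ u : Fin 2 → K, u ≠ 0 ∧ cl ρ B ≤ lst (ext K ρ) u := by
  refine common_of_det (ext K ρ) (cl ρ B) fun a ha b hb => ?_
  set X : Matrix (Fin 2) (Fin 2) A := (ρ a : Matrix (Fin 2) (Fin 2) A) with hX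
  set Y : Matrix (Fin 2) (Fin 2) A := (ρ b : Matrix (Fin 2) (Fin 2) A) with hY
  have h0 : (X * Y - Y * X).det = 0 := by
    refine iInf_zero fun m => ?_
    obtain ⟨δ, hδ, h1⟩ := ha m
    obtain ⟨ε, hε, h2⟩ := hb m
    have q : ∀ (x δ : G), δ⁻¹ * x ∈ cong ρ m →
        (Ideal.Quotient.mk (maximalIdeal A ^ m)).mapMatrix (ρ x : Matrix (Fin 2) (Fin 2) A) =
        (Ideal.Quotient.mk (maximalIdeal A ^ m)).mapMatrix (ρ δ : Matrix (Fin 2) (Fin 2) A) := by
      intro x δ h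
      ext i j
      have e : (ρ x : Matrix (Fin 2) (Fin 2) A) - (ρ δ : Matrix (Fin 2) (Fin 2) A) =
          (ρ δ : Matrix (Fin 2) (Fin 2) A) *
            ((ρ (δ⁻¹ * x) : Matrix (Fin 2) (Fin 2) A) - 1) := by
        rw [mul_sub, mul_one, ← Units.val_mul, ← map_mul, mul_inv_cancel_left]
      have h3 := (mem_cong.1 h).mulL (ρ δ : Matrix (Fin 2) (Fin 2) A) i j
      rw [← e, Matrix.sub_apply] at h3
      exact Ideal.Quotient.eq.2 h3
    -- the determinant for the elements of `B`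
    have hd : ((ρ δ : Matrix (Fin 2) (Fin 2) A) * (ρ ε : Matrix (Fin 2) (Fin 2) A) -
        (ρ ε : Matrix (Fin 2) (Fin 2) A) * (ρ δ : Matrix (Fin 2) (Fin 2) A)).det = 0 := by
      apply hinj
      rw [map_zero, RingHom.map_det]
      obtain ⟨c, -, hc⟩ := hB hδ
      obtain ⟨d, -, hd⟩ := hB hε
      have hc' : (algebraMap A K).mapMatrix (ρ δ : Matrix (Fin 2) (Fin 2) A) *ᵥ v = c • v := hc
      have hd' : (algebraMap A K).mapMatrix (ρ ε : Matrix (Fin 2) (Fin 2) A) *ᵥ v = d • v := hd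
      refine Matrix.exists_mulVec_eq_zero_iff.1 ⟨v, hv, ?_⟩
      rw [map_sub, map_mul, map_mul, sub_mulVec, ← mulVec_mulVec, ← mulVec_mulVec, hc', hd',
        mulVec_smul, mulVec_smul, hc', hd', smul_smul, smul_smul, mul_comm, sub_self]
    rw [← Ideal.Quotient.eq_zero_iff_mem, RingHom.map_det, map_sub, map_mul, map_mul, hX, hY,
      q a δ h1, q b ε h2, ← map_mul, ← map_mul, ← map_sub, ← RingHom.map_det, hd, map_zero]
  rw [ext_val, ext_val, ← hX, ← hY]
  have e : (X.map (algebraMap A K) * Y.map (algebraMap A K) -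
      Y.map (algebraMap A K) * X.map (algebraMap A K)) =
      (algebraMap A K).mapMatrix (X * Y - Y * X) := by
    rw [map_sub, map_mul, map_mul]
    rfl
  rw [e, ← RingHom.map_det, h0, map_zero]

/-- the closure of a subgroup of finite index of a dense subgroup has finite index -/
theorem cl_fin (ρ : G →* GL (Fin 2) A) {D D' : Subgroup G}
    (happ : ∀ (m : ℕ) (g : G), ∃ δ ∈ D, δ⁻¹ * g ∈ cong ρ m)
    {R : Set G} (hRf : R.Finite) (hR : ∀ δ ∈ D, ∃ r ∈ R, r⁻¹ * δ ∈ D') :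
    (cl ρ D').FiniteIndex := by
  have : Finite R := hRf
  have hsur : ∀ g : G, ∃ r : R, (r : G)⁻¹ * g ∈ cl ρ D' := by
    intro g
    choose δ hδ hu using fun m => happ m g
    choose r hr hr' using fun m => hR (δ m) (hδ m)
    obtain ⟨y, hy⟩ := Finite.exists_infinite_fiber (fun m : ℕ => (⟨r m, hr m⟩ : R))
    have hy' : ((fun m : ℕ => (⟨r m, hr m⟩ : R)) ⁻¹' {y}).Infinite := Set.infinite_coe_iff.1 hy
    refine ⟨y, fun m => ?_⟩
    obtain ⟨m', hm', hmm⟩ := hy'.exists_gt m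
    have hym : r m' = y := congrArg Subtype.val hm'
    refine ⟨(y : G)⁻¹ * δ m', ?_, ?_⟩
    · rw [← hym]
      exact hr' m'
    · have h1 : ((y : G)⁻¹ * δ m')⁻¹ * ((y : G)⁻¹ * g) = (δ m')⁻¹ * g := by group
      rw [h1]
      exact mem_cong.2 ((mem_cong.1 (hu m')).mono (Ideal.pow_le_pow_right hmm.le))
  have hfin : Finite (G ⧸ cl ρ D') := by
    refine Finite.of_surjective (fun r : R => (QuotientGroup.mk (r : G) : G ⧸ cl ρ D')) ?_
    intro x
    obtain ⟨g, rfl⟩ := QuotientGroup.mk_surjective x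
    obtain ⟨r, hr⟩ := hsur g
    exact ⟨r, QuotientGroup.eq.2 hr⟩
  exact Subgroup.finiteIndex_of_finite_quotient

/-- the closure of a subgroup of index two is everything -/
theorem cl_two {p : ℕ} [hp : Fact p.Prime] (hp2 : p ≠ 2) (hpA : (p : A) ∈ maximalIdeal A)
    (ρ : G →* GL (Fin 2) A)
    (hres : ∀ σ, ∃ N : ℕ, InI (maximalIdeal A) (((ρ σ : Matrix (Fin 2) (Fin 2) A) - 1) ^ N))
    {T : Subgroup G} (h : T.index = 2) (g : G) : g ∈ cl ρ T := by
  by_cases hg : g ∈ T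
  · exact le_cl ρ T hg
  intro m
  obtain ⟨N, hN⟩ := cong_pgroup hpA ρ hres m g
  have hodd : Odd (p ^ N) := (hp.out.odd_of_ne_two hp2).pow
  have h3 : g ^ p ^ N ∉ T := by
    obtain ⟨k, hk⟩ := hodd
    rw [hk, pow_succ, pow_mul]
    intro h4
    have h5 : g ^ 2 ∈ T := by
      rw [pow_two]
      exact (Subgroup.mul_mem_iff_of_index_two h).2 Iff.rfl
    have h6 := (Subgroup.mul_mem_cancel_left T (pow_mem h5 k)).1 h4
    exact hg h6
  refine ⟨g * (g ^ p ^ N)⁻¹, ?_, ?_⟩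
  · refine (Subgroup.mul_mem_iff_of_index_two h).2 ⟨fun h4 => absurd h4 hg, fun h4 => ?_⟩
    exact absurd (inv_mem_iff.1 h4) h3
  · have e : (g * (g ^ p ^ N)⁻¹)⁻¹ * g = g ^ p ^ N := by group
    rw [e]
    exact hN

end closure

section dihedral

variable {G : Type} [Group G] {K : Type} [Field K]

/-- no common eigenvector -/
theorem irr_of {ψ : G →* GL (Fin 2) K} (h : ¬ ∃ v : Fin 2 → K, v ≠ 0 ∧ ∀ g, g ∈ lst ψ v) :
    Irr K ψ := by
  intro W hW
  by_contra hcon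
  push Not at hcon
  obtain ⟨h0, h1⟩ := hcon
  obtain ⟨v, hvW, hv⟩ := Submodule.exists_mem_ne_zero_of_ne_bot h0
  have hid : ∀ M : Matrix (Fin 2) (Fin 2) K, M.map (algebraMap K K) = M := by
    intro M
    ext i j
    rfl
  apply h
  refine ⟨v, hv, fun g => ?_⟩
  have h2 : (ψ g : Matrix (Fin 2) (Fin 2) K) *ᵥ v ∈ W := by
    have := hW g v hvW
    rwa [hid] at this
  by_cases h3 : wd ((ψ g : Matrix (Fin 2) (Fin 2) K) *ᵥ v) v = 0
  · obtain ⟨c, hc⟩ := smul_of_wd hv h3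
    exact mem_lst ψ hv hc
  · exfalso
    apply h1
    rw [eq_top_iff]
    rintro u -
    obtain ⟨a, b, rfl⟩ := basis_of h3 u
    exact W.add_mem (W.smul_mem _ h2) (W.smul_mem _ hvW)

/-- **Two-dimensional representations with a line which is stable under a subgroup of finite
index.** -/
theorem dihK (ψ : G →* GL (Fin 2) K)
    (hirr : ¬ ∃ v : Fin 2 → K, v ≠ 0 ∧ ∀ g, g ∈ lst ψ v) (T : Subgroup G) [hTf : T.FiniteIndex]
    {v : Fin 2 → K} (hv : v ≠ 0) (hT : T ≤ lst ψ v) :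
    (∃ N : Subgroup G, N.Normal ∧ N.FiniteIndex ∧
      ∀ g ∈ N, ∃ c : K, (ψ g : Matrix (Fin 2) (Fin 2) K) = c • 1) ∨
    ∃ T' : Subgroup G, T'.index = 2 ∧ T' ≤ lst ψ v := by
  classical
  have hid : ∀ M : Matrix (Fin 2) (Fin 2) K, M.map (algebraMap K K) = M := by
    intro M
    ext i j
    rfl
  letI : TopologicalSpace G := ⊥
  haveI : DiscreteTopology G := ⟨rfl⟩
  letI : TopologicalSpace K := ⊥
  haveI : DiscreteTopology K := ⟨rfl⟩
  have hA : IsAdic (maximalIdeal K) := by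
    rw [IsLocalRing.maximalIdeal_eq_bot]
    exact is_bot_adic_iff.2 inferInstance
  have hfin : Finite (G ⧸ T) := inferInstance
  set R : Set G := Set.range (fun x : G ⧸ T => x.out) with hR
  have hRf : R.Finite := Set.finite_range _
  have hcov : ∀ δ ∈ (⊤ : Subgroup G), ∃ r ∈ R, r⁻¹ * δ ∈ T := by
    intro δ _
    refine ⟨(QuotientGroup.mk δ : G ⧸ T).out, ⟨_, rfl⟩, ?_⟩
    exact QuotientGroup.eq.1 (QuotientGroup.out_eq' (QuotientGroup.mk δ : G ⧸ T))
  rcases dih (A := K) (F := K) hA (ρ := ψ) (fun i j => continuous_of_discreteTopology) (D := ⊤)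
    (fun m g => ⟨g, trivial, by rw [inv_mul_cancel]; exact one_mem _⟩) hRf hcov (irr_of hirr) hv
    (fun δ hδ => by
      obtain ⟨c, -, hc⟩ := hT hδ
      exact ⟨c, by rw [act_apply, hid, hc]⟩) with h | h
  · left
    obtain ⟨N, h1, h2, -, h3⟩ := h
    refine ⟨N, h1, h2, fun g hg => ?_⟩
    obtain ⟨c, hc⟩ := h3 g hg
    refine ⟨c, ?_⟩
    ext i j
    have e := congrFun (hc (Pi.single j 1)) i
    rw [act_apply, hid, mulVec_single_one] at e
    have e' : (ψ g : Matrix (Fin 2) (Fin 2) K) i j = (c • (Pi.single j 1 : Fin 2 → K)) i := e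
    rw [e', Pi.smul_apply, Matrix.smul_apply, Matrix.one_apply, Pi.single_apply]
  · right
    obtain ⟨T', h1, -, h3⟩ := h
    refine ⟨T', h1, fun g hg => ?_⟩
    obtain ⟨c, hc⟩ := h3 g hg
    rw [act_apply, hid] at hc
    exact mem_lst ψ hv hc

end dihedral

end Pool.Agent.Run7.h306.FQ
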