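import Pool.Agent.Run7.h306.FQ6

/-!
# Absolutely irreducible residually scalar representations are strongly irreducible on local groups
-/

set_option autoImplicit false
set_option linter.unusedSectionVars false

namespace Pool.Agent.Run7.h306.FQ

open IsLocalRing Matrix
open Pool.Agent.TH831.OE (mt)
open Pool.Agent.Z384 (InI cong mem_cong cong_normal)

variable {A : Type} [CommRing A] [IsDomain A] [IsDiscreteValuationRing A]
variable {G : Type} [Group G]

/-- a finite image is a `p`-group -/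
theorem fin_pgroup {p : ℕ} [hp : Fact p.Prime] (hpA : (p : A) ∈ maximalIdeal A)
    (ρ : G →* GL (Fin 2) A)
    (hres : ∀ σ, ∃ N : ℕ, InI (maximalIdeal A) (((ρ σ : Matrix (Fin 2) (Fin 2) A) - 1) ^ N))
    (hf : ρ.ker.FiniteIndex) : IsPGroup p (G ⧸ ρ.ker) := by
  have hfin : Finite (G ⧸ ρ.ker) := inferInstance
  intro x
  obtain ⟨g, rfl⟩ := QuotientGroup.mk_surjective x
  choose N hN using fun m => cong_pgroup hpA ρ hres m g
  obtain ⟨y, hy⟩ := Finite.exists_infinite_fiber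
    (fun m : ℕ => (QuotientGroup.mk (g ^ p ^ N m) : G ⧸ ρ.ker))
  have hy' : ((fun m : ℕ => (QuotientGroup.mk (g ^ p ^ N m) : G ⧸ ρ.ker)) ⁻¹' {y}).Infinite :=
    Set.infinite_coe_iff.1 hy
  obtain ⟨m₀, hm₀, -⟩ := hy'.exists_gt 0
  refine ⟨N m₀, ?_⟩
  rw [← QuotientGroup.mk_pow]
  refine (QuotientGroup.eq_one_iff _).2 ?_
  show ρ (g ^ p ^ N m₀) = 1
  apply Units.ext
  ext i j
  rw [← sub_eq_zero]
  refine iInf_zero fun m => ?_
  obtain ⟨m', hm', hmm⟩ := hy'.exists_gt m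
  have h1 : (QuotientGroup.mk (g ^ p ^ N m') : G ⧸ ρ.ker) = QuotientGroup.mk (g ^ p ^ N m₀) :=
    (show _ = y from hm').trans (show _ = y from hm₀).symm
  have h2 : (g ^ p ^ N m')⁻¹ * g ^ p ^ N m₀ ∈ ρ.ker := QuotientGroup.eq.1 h1
  have h3 : ρ (g ^ p ^ N m₀) = ρ (g ^ p ^ N m') := by
    have h4 : ρ ((g ^ p ^ N m')⁻¹ * g ^ p ^ N m₀) = 1 := h2
    rw [map_mul, map_inv, inv_mul_eq_one] at h4
    exact h4.symm
  rw [h3]
  exact Ideal.pow_le_pow_right hmm.le (mem_cong.1 (hN m') i j)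

/-- an element which commutes with a group of matrices and is not a scalar gives a common
eigenvector -/
theorem common_of_central {K : Type} [Field K] [IsAlgClosed K] (ψ : G →* GL (Fin 2) K) {z : G}
    (hz : ∀ g, ψ (z * g) = ψ (g * z)) (hns : ¬ ∃ c : K, (ψ z : Matrix (Fin 2) (Fin 2) K) = c • 1) :
    ∃ v : Fin 2 → K, v ≠ 0 ∧ ∀ g, g ∈ lst ψ v := by
  obtain ⟨a, v, hv, hMv⟩ := exists_eig (ψ z : Matrix (Fin 2) (Fin 2) K)
  refine ⟨v, hv, fun g => ?_⟩
  have h1 : (ψ z : Matrix (Fin 2) (Fin 2) K) *ᵥ ((ψ g : Matrix (Fin 2) (Fin 2) K) *ᵥ v) =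
      a • ((ψ g : Matrix (Fin 2) (Fin 2) K) *ᵥ v) := by
    rw [mulVec_mulVec, ← Units.val_mul, ← map_mul, hz, map_mul, Units.val_mul, ← mulVec_mulVec,
      hMv, mulVec_smul]
  by_cases h3 : wd ((ψ g : Matrix (Fin 2) (Fin 2) K) *ᵥ v) v = 0
  · obtain ⟨c, hc⟩ := smul_of_wd hv h3
    exact mem_lst ψ hv hc
  · exfalso
    apply hns
    refine ⟨a, ?_⟩
    ext i j
    have e1 : ∀ u : Fin 2 → K, (ψ z : Matrix (Fin 2) (Fin 2) K) *ᵥ u =
        (a • (1 : Matrix (Fin 2) (Fin 2) K)) *ᵥ u := by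
      intro u
      obtain ⟨α, β, rfl⟩ := basis_of h3 u
      rw [mulVec_add, mulVec_smul, mulVec_smul, hMv, h1, smul_mulVec,
        one_mulVec, smul_add, smul_comm a, smul_comm a]
    have e2 := congrFun (e1 (Pi.single j 1)) i
    rwa [mulVec_single_one, mulVec_single_one] at e2

/-- **Strong irreducibility on local groups.** -/
theorem strong [TopologicalSpace G] [IsTopologicalGroup G] {p : ℕ} [hp : Fact p.Prime] (hp2 : p ≠ 2)
    [IsAdicComplete (maximalIdeal A) A]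
    [TopologicalSpace A] (hA : IsAdic (maximalIdeal A)) (hfin : Finite (ResidueField A))
    (hpA : (p : A) ∈ maximalIdeal A)
    {ρ : G →* GL (Fin 2) A} (hρ : Continuous ρ) {a : G →* (ResidueField A)ˣ}
    (ha : ∀ g, IsNilpotent ((ρ g : Matrix (Fin 2) (Fin 2) A).map (residue A) -
      (a g : ResidueField A) • (1 : Matrix (Fin 2) (Fin 2) (ResidueField A))))
    (H : Subgroup G)
    (hkey : ∀ f : G →* Multiplicative (ZMod p), IsOpen (f.ker : Set G) →
      (∀ (g : G) (c : A), mt (ρ g) = c • 1 → f g = 1) → (∀ g ∈ H, f g = 1) → ∀ g, f g = 1) :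
    (∀ (k : ℕ) (g : G), ∃ h ∈ H, ∃ c : A, IsUnit c ∧
      InI (maximalIdeal A ^ k) (mt (ρ g) - c • mt (ρ h))) ∧
    ∀ (K : Type) [Field K] [IsAlgClosed K] [Algebra A K], Function.Injective (algebraMap A K) →
      ∀ (H' : Subgroup G) (R : Set G) (v : Fin 2 → K), R.Finite → (∀ h ∈ H, ∃ r ∈ R, r⁻¹ * h ∈ H') →
        v ≠ 0 → H' ≤ lst (ext K ρ) v → ∃ u : Fin 2 → K, u ≠ 0 ∧ ∀ g, g ∈ lst (ext K ρ) u := by
  obtain ⟨ρ', s, t1, t2, t3, t4, t5⟩ := twist hp2 hA hpA hρ ha
  have hd := dense (p := p) hA hfin hpA t1 t2 H (fun f hf h1 h2 =>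
    hkey f hf (fun g c hc => h1 g (t5 g c hc)) h2)
  refine ⟨fun k g => ?_, fun K _ _ _ hinj H' R v hRf hR hv hH' => ?_⟩
  · obtain ⟨h, hh, hc⟩ := hd k g
    obtain ⟨u, hu⟩ := t3 g
    have hus : ((u⁻¹ : Aˣ) : A) * s g = 1 := by rw [← hu, Units.inv_mul]
    refine ⟨h, hh, ((u⁻¹ : Aˣ) : A) * s h, (Units.isUnit _).mul (t3 h), ?_⟩
    have e1 : mt (ρ' g) = mt (ρ' h) * mt (ρ' (h⁻¹ * g)) := by
      rw [← Units.val_mul, ← map_mul, mul_inv_cancel_left]
    have e2 : mt (ρ g) - (((u⁻¹ : Aˣ) : A) * s h) • mt (ρ h) =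
        ((u⁻¹ : Aˣ) : A) • (mt (ρ' h) * (mt (ρ' (h⁻¹ * g)) - 1)) := by
      have e3 : mt (ρ g) = ((u⁻¹ : Aˣ) : A) • mt (ρ' g) := by
        rw [t4, smul_smul, hus, one_smul]
      rw [e3, e1, mul_sub, mul_one, smul_sub, t4 h, smul_smul]
    rw [e2]
    intro i j
    rw [Matrix.smul_apply, smul_eq_mul]
    exact Ideal.mul_mem_left _ _ ((mem_cong.1 hc).mulL _ i j)
  · -- the lines of the twist
    have hs0 : ∀ g, algebraMap A K (s g) ≠ 0 := fun g =>
      ((t3 g).map (algebraMap A K)).ne_zero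
    have hx : ∀ (g : G) (w : Fin 2 → K), (ext K ρ' g : Matrix (Fin 2) (Fin 2) K) *ᵥ w =
        algebraMap A K (s g) • ((ext K ρ g : Matrix (Fin 2) (Fin 2) K) *ᵥ w) := by
      intro g w
      rw [ext_val, ext_val]
      have e : (ρ' g : Matrix (Fin 2) (Fin 2) A) = s g • (ρ g : Matrix (Fin 2) (Fin 2) A) := t4 g
      rw [e]
      have e2 : (s g • (ρ g : Matrix (Fin 2) (Fin 2) A)).map (algebraMap A K) =
          algebraMap A K (s g) • ((ρ g : Matrix (Fin 2) (Fin 2) A).map (algebraMap A K)) := by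
        ext i j
        simp [Matrix.map_apply]
      rw [e2, Matrix.smul_mulVec]
    have hto : ∀ {w : Fin 2 → K}, w ≠ 0 → ∀ {g}, g ∈ lst (ext K ρ) w → g ∈ lst (ext K ρ') w := by
      intro w hw g hg
      obtain ⟨c, -, hc⟩ := hg
      exact mem_lst _ hw (c := algebraMap A K (s g) * c) (by rw [hx, hc, smul_smul])
    have hfrom : ∀ {w : Fin 2 → K}, w ≠ 0 → ∀ {g}, g ∈ lst (ext K ρ') w → g ∈ lst (ext K ρ) w := by
      intro w hw g hg
      obtain ⟨c, -, hc⟩ := hg
      refine mem_lst _ hw (c := (algebraMap A K (s g))⁻¹ * c) ?_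
      rw [hx] at hc
      rw [← smul_smul, ← hc, smul_smul, inv_mul_cancel₀ (hs0 g), one_smul]
    by_contra hcon
    have hirr : ¬ ∃ u : Fin 2 → K, u ≠ 0 ∧ ∀ g, g ∈ lst (ext K ρ') u := by
      rintro ⟨u, hu, h⟩
      exact hcon ⟨u, hu, fun g => hfrom hu (h g)⟩
    obtain ⟨u, hu, hcl⟩ := cl_red K hinj ρ' H' hv (fun g hg => hto hv (hH' hg))
    have hTf := cl_fin ρ' hd hRf hR
    rcases dihK (ext K ρ') hirr (cl ρ' H') hu hcl with ⟨N, hN1, hN2, hN3⟩ | ⟨T, hT1, hT2⟩
    · -- the projectively finite case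
      have hNk : N ≤ ρ'.ker := by
        intro g hg
        obtain ⟨c, hc⟩ := hN3 g hg
        have e0 : ∀ i j, algebraMap A K ((ρ' g : Matrix (Fin 2) (Fin 2) A) i j) =
            (c • (1 : Matrix (Fin 2) (Fin 2) K)) i j := fun i j => by
          rw [← hc, ext_val, Matrix.map_apply]
        have e1 : (ρ' g : Matrix (Fin 2) (Fin 2) A) =
            ((ρ' g : Matrix (Fin 2) (Fin 2) A) 0 0) • 1 := by
          ext i j
          apply hinj
          rw [e0]
          fin_cases i <;> fin_cases j <;> simp [e0]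
        obtain ⟨w, hw⟩ := t3 g
        have hws : ((w⁻¹ : Aˣ) : A) * s g = 1 := by rw [← hw, Units.inv_mul]
        refine t5 g (((w⁻¹ : Aˣ) : A) * (ρ' g : Matrix (Fin 2) (Fin 2) A) 0 0) ?_
        have e2 : mt (ρ g) = ((w⁻¹ : Aˣ) : A) • mt (ρ' g) := by
          rw [t4, smul_smul, hws, one_smul]
        rw [e2, ← smul_smul]
        exact congrArg _ e1
      have hkf : ρ'.ker.FiniteIndex := Subgroup.finiteIndex_of_le hNk
      have hpg := fin_pgroup hpA ρ' t2 hkf
      have hQf : Finite (G ⧸ ρ'.ker) := inferInstance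
      rcases subsingleton_or_nontrivial (G ⧸ ρ'.ker) with hQ | hQ
      · have h1 : (![1, 0] : Fin 2 → K) ≠ 0 := fun h => by
          have := congrFun h 0
          simp at this
        refine hirr ⟨![1, 0], h1, fun g => ?_⟩
        have h2' : g ∈ ρ'.ker := (QuotientGroup.eq_one_iff g).1 (Subsingleton.elim _ _)
        have h2 : ρ' g = 1 := h2'
        refine mem_lst _ h1 (c := 1) ?_
        rw [ext_val, h2, Units.val_one, Matrix.map_one _ (map_zero _) (map_one _), one_mulVec,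
          one_smul]
      · have hcn := hpg.center_nontrivial
        obtain ⟨⟨zq, hzc⟩, hz1⟩ := exists_ne (1 : Subgroup.center (G ⧸ ρ'.ker))
        obtain ⟨z, rfl⟩ := QuotientGroup.mk_surjective zq
        have hz2 : z ∉ ρ'.ker := by
          intro h
          apply hz1
          apply Subtype.ext
          exact (QuotientGroup.eq_one_iff z).2 h
        refine hirr (common_of_central (ext K ρ') (z := z) (fun g => ?_) ?_)
        · have h1 := Subgroup.mem_center_iff.1 hzc (QuotientGroup.mk g)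
          rw [← QuotientGroup.mk_mul, ← QuotientGroup.mk_mul] at h1
          have h2 : (g * z)⁻¹ * (z * g) ∈ ρ'.ker := QuotientGroup.eq.1 h1
          have h3 : ρ' (z * g) = ρ' (g * z) := by
            have h4 : ρ' ((g * z)⁻¹ * (z * g)) = 1 := h2
            rw [map_mul, map_inv, inv_mul_eq_one] at h4
            exact h4.symm
          show (GeneralLinearGroup.map (n := Fin 2) (algebraMap A K)) (ρ' (z * g)) =
            (GeneralLinearGroup.map (n := Fin 2) (algebraMap A K)) (ρ' (g * z))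
          rw [h3]
        · rintro ⟨c, hc⟩
          apply hz2
          have e0 : ∀ i j, algebraMap A K ((ρ' z : Matrix (Fin 2) (Fin 2) A) i j) =
              (c • (1 : Matrix (Fin 2) (Fin 2) K)) i j := fun i j => by
            rw [← hc, ext_val, Matrix.map_apply]
          have e1 : (ρ' z : Matrix (Fin 2) (Fin 2) A) =
              ((ρ' z : Matrix (Fin 2) (Fin 2) A) 0 0) • 1 := by
            ext i j
            apply hinj
            rw [e0]
            fin_cases i <;> fin_cases j <;> simp [e0]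
          obtain ⟨w, hw⟩ := t3 z
          have hws : ((w⁻¹ : Aˣ) : A) * s z = 1 := by rw [← hw, Units.inv_mul]
          refine t5 z (((w⁻¹ : Aˣ) : A) * (ρ' z : Matrix (Fin 2) (Fin 2) A) 0 0) ?_
          have e2 : mt (ρ z) = ((w⁻¹ : Aˣ) : A) • mt (ρ' z) := by
            rw [t4, smul_smul, hws, one_smul]
          rw [e2, ← smul_smul]
          exact congrArg _ e1
    · obtain ⟨u', hu', h'⟩ := cl_red K hinj ρ' T hu hT2
      exact hirr ⟨u', hu', fun g => h' (cl_two hp2 hpA ρ' t2 hT1 g)⟩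

end Pool.Agent.Run7.h306.FQ
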