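import Mathlib
import Pool.Agent.H916R2.Defs

/-!
# The cohomology of products of Fermat varieties: the combinatorial part

The Fermat variety `x_0 ^ m + ... + x_(n+1) ^ m = 0` of degree `m` and dimension `n` has the cohomology
classes `h ^ i`, `0 ≤ i ≤ n`, of the linear sections and its primitive cohomology in degree `n`. The
group of the diagonal automorphisms operates on the latter through the characters `a`, tuples of
`n + 2` nonzero residues modulo `m` with sum zero, each of which occurs on a line `V(a)`.
-/

set_option autoImplicit false

namespace Run7.h306.HF

open Pool.Agent.H916R2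

noncomputable section

/-- The characters of the primitive cohomology of the Fermat variety of degree `m` and dimension
`n`. -/
structure Character (m n : ℕ) where
  entry : Fin (n + 2) → ZMod m
  ne_zero : ∀ i, entry i ≠ 0
  sum_eq : ∑ i, entry i = 0

/-- The multiple `u a` of a character. -/
def Character.twist {m n : ℕ} (u : (ZMod m)ˣ) (a : Character m n) : Character m n where
  entry := fun i => u * a.entry i
  ne_zero := fun i h => a.ne_zero i (by simpa using h)
  sum_eq := by rw [← Finset.mul_sum, a.sum_eq, mul_zero]

/-- The basis of the cohomology of the Fermat variety: the classes `h ^ i`, `i ≤ n`, and the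
generators of the lines `V(a)`. -/
abbrev Label (m n : ℕ) : Type := Fin (n + 1) ⊕ Character m n

/-- The operation of a unit modulo `m` on the basis. -/
def twist {m n : ℕ} (u : (ZMod m)ˣ) : Label m n → Label m n
  | Sum.inl i => Sum.inl i
  | Sum.inr a => Sum.inr (a.twist u)

/-- The difference `p - q` for the elements of the basis, of type `(p, q)`. -/
def hodge {m n : ℕ} : Label m n → ℤ
  | Sum.inl _ => 0
  | Sum.inr a => n + 2 - 2 * (((∑ i, (a.entry i).val) / m : ℕ) : ℤ)

/-- The entries of a character as residues modulo a multiple `N` of `m`: the fraction `a i / m` is
written with the denominator `N` (and zero for the classes `h ^ i`). -/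
def ent {m n : ℕ} (N : ℕ) (b : Label m n) (i : Fin (n + 2)) : ZMod N :=
  match b with
  | Sum.inl _ => 0
  | Sum.inr a => ((N / m * (a.entry i).val : ℕ) : ZMod N)

open Classical in
/-- The entries of all characters in the family `b` which belong to the Fermat varieties of degrees
`m j` dividing `N`, as residues modulo `N`. -/
def entries {J : Type} [Fintype J] {m n : J → ℕ} (b : ∀ j, Label (m j) (n j)) (N : ℕ) :
    Multiset (ZMod N) :=
  ((Finset.univ : Finset (Σ j, Fin (n j + 2))).filter
    (fun x => m x.1 ∣ N ∧ ent N (b x.1) x.2 ≠ 0)).val.map fun x => ent N (b x.1) x.2

/-- For each prime number `q` the characters in the family `b` which belong to the Fermat varieties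
whose degree is a power of `q` form (together) a character of a Fermat variety of degree `q ^ K` of
the family generated by the characters of surfaces, the pairs `{a, -a}` and the standard characters,
under union and removing pairs. The line of such a character consists of algebraic classes. -/
def IsGenerated {J : Type} [Fintype J] {m n : J → ℕ} (b : ∀ j, Label (m j) (n j)) : Prop :=
  ∀ q K : ℕ, q.Prime → (∀ j, q ∣ m j → m j ∣ q ^ K) → entries b (q ^ K) ≠ 0 →
    Generated (q ^ K) (SurfaceCharacter (q ^ K)) (entries b (q ^ K))

end

end Run7.h306.HF
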