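import Pool.Agent.Run7.h306.TE6

/-!
# Simultaneous p-adic units
-/

set_option autoImplicit false

namespace Run7.h306.GU

open Finset Polynomial Pool.Agent.N876.TC Pool.Agent.N876.UV Pool.Agent.N876.FL
  Pool.Agent.W528.HA Pool.Agent.W528.HB Run7.h306.HF Run7.h306.TE

/-- The condition on the exponents: in each subgroup of index at most `D` there is a `u` such that all
`u j i` have the weight one. -/
def UnitB {ι : Type} (c : ℕ) (f : ι → ℕ) (N D : ℕ) (d s : ι → ℕ) (a : ∀ i, Fin (s i) → ℕ) : Prop :=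
  ∀ H : Subgroup (ZMod N)ˣ, H.index ≤ D → ∀ I : Finset ι, ∀ j : ι → ℕ,
    (∀ i ∈ I, ¬ d i ∣ j i) → ∃ u ∈ H, ∀ i ∈ I,
      ∑ k, ∑ t ∈ range (f i),
        (((u : (ZMod N)ˣ) : ZMod N).val * j i * a i k * c ^ t) % d i = f i * d i

variable {c : ℕ} [Fact c.Prime]

section

variable {ι : Type} {N D : ℕ} (hN : 0 < N) {d n s : ι → ℕ}
    (hd : ∀ i, 2 ≤ d i) (hdN : ∀ i, d i ∣ N) (κ : ι → Type) [∀ i, Field (κ i)]
    [∀ i, Fintype (κ i)] [∀ i, CharP (κ i) c] {f : ι → ℕ}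
    (hf : ∀ i, Fintype.card (κ i) = c ^ f i) {z : ∀ i, κ i} (hz : ∀ i, IsPrimitiveRoot (z i) (d i))
    (l : ∀ i, Fin (s i) → Fin (n i + 1) → κ i) (a : ∀ i, Fin (s i) → ℕ)
    (ha : ∀ i k, (a i k).Coprime (d i))
    {W : ι → Type} [∀ i, AddCommGroup (W i)] [∀ i, Module ℂ (W i)]
    [∀ i, FiniteDimensional ℂ (W i)] {Φ g : ∀ i, Module.End ℂ (W i)}
    (h : ∀ i, IsCov (d i) (l i) (a i) (z i) (Φ i) (g i))

include hN hd hdN hf hz ha h

/-- For every embedding there is an automorphism which fixes `β'` such that the conjugates of the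
eigenvalues have absolute values at least one. -/
theorem all_unit (hunit : UnitB c f N D d s a) {β' : ℂ} (hβ' : IsAlgebraic ℚ β')
    (hdeg : (minpoly ℚ β').natDegree ≤ D) {I : Finset ι} {α : ι → ℂ}
    (hα : ∀ i ∈ I, (Φ i).HasEigenvalue (α i))
    (hpure : ∀ i ∈ I, ‖α i‖ ^ 2 = (Fintype.card (κ i) : ℝ) ^ n i) :
    ∃ hx : ∀ i ∈ I, α i ∈ AA, ∀ fe : AA →+* PadicAlgCl c, ∃ γ : ℂ ≃+* ℂ, γ β' = β' ∧
      ∀ i (hi : i ∈ I), 1 ≤ ‖fe (res γ ⟨α i, hx i hi⟩)‖ := by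
  classical
  have hN0 : NeZero N := ⟨hN.ne'⟩
  have hq1 : ∀ i, (0 : ℝ) < Fintype.card (κ i) := fun i => by exact_mod_cast Fintype.card_pos
  have hα0 : ∀ i ∈ I, α i ≠ 0 := by
    intro i hi h0
    have h1 := hpure i hi
    rw [h0, norm_zero, zero_pow two_ne_zero] at h1
    exact (pow_pos (hq1 i) (n i)).ne h1
  obtain ⟨k, _, R, res', _, _, hR⟩ := Pool.Agent.W999.HB.TP.main c
  have _ : ∀ i, Algebra (ZMod c) (κ i) := fun i => ZMod.algebra (κ i) c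
  have _ : Algebra (ZMod c) k := ZMod.algebra k c
  have heκ : ∀ i, ∃ e : κ i →+* k, True := by
    intro i
    have _ : Algebra (ZMod c) (κ i) := ZMod.algebra (κ i) c
    have hκk : Nonempty (κ i →ₐ[ZMod c] k) := ⟨IsAlgClosed.lift⟩
    obtain ⟨eκ'⟩ := hκk
    exact ⟨(eκ' : κ i →+* k), trivial⟩
  choose eκ _ using heκ
  have hOm : ∀ i, ∃ Ω : PadicAlgCl c, IsPrimitiveRoot Ω (d i) ∧
      ∃ h : Ω ∈ R, res' ⟨Ω, h⟩ = eκ i (z i) := fun i => exists_Om (hd i) (hf i) (hz i) hR (eκ i)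
  choose Ω hΩ hΩz using hOm
  have hcs := fun (i : ι) (hi : i ∈ I) => cov_slope (hd i) (κ i) (hf i) (hz i) hR (eκ i) (hΩ i)
    (hΩz i) (l i) (a i) (ha i) (h i) (hα i hi) (hα0 i hi)
  choose hx μ hμ1 hμ2 hμ3 using hcs
  refine ⟨hx, ?_⟩
  intro fe
  -- the exponents
  have hj : ∀ i (hi : i ∈ I), ∃ j : ℕ, ¬ d i ∣ j ∧ fe (cj (μ i hi)) = Ω i ^ j := by
    intro i hi
    have : NeZero (d i) := ⟨by have := hd i; omega⟩
    obtain ⟨j, _, hj⟩ := (hΩ i).eq_pow_of_pow_eq_one (ξ := fe (cj (μ i hi)))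
      (by rw [← map_pow, ← map_pow, hμ1, map_one, map_one])
    refine ⟨j, ?_, hj.symm⟩
    intro h0
    apply hμ2 i hi
    apply cj.injective
    apply fe.injective
    rw [← hj, map_one, map_one]
    exact ((hΩ i).pow_eq_one_iff_dvd j).mpr h0
  choose j0 hj0 hj1 using hj
  set j : ι → ℕ := fun i => if hi : i ∈ I then j0 i hi else 0 with hjdef
  have hjI : ∀ i (hi : i ∈ I), j i = j0 i hi := by
    intro i hi
    simp only [hjdef]
    rw [dif_pos hi]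
  obtain ⟨u', hu', hlt⟩ := hunit _ ((index_le (N := N) hβ').trans hdeg) I j
    (fun i hi => by rw [hjI i hi]; exact hj0 i hi)
  obtain ⟨γ, hγ, rfl⟩ := hu'
  refine ⟨γ, mem_stab.1 hγ, ?_⟩
  obtain ⟨u, hu0⟩ : ∃ u : ℕ, u = ((cyc N γ : (ZMod N)ˣ) : ZMod N).val := ⟨_, rfl⟩
  rw [← hu0] at hlt
  have hu : u.Coprime N := by
    rw [hu0]
    exact ZMod.val_coe_unit_coprime _
  set fe' : AA →+* PadicAlgCl c := (fe.comp (res γ)).comp cj with hfe'
  have hμ' : ∀ i (hi : i ∈ I), fe' (μ i hi) = Ω i ^ (u * j i) := by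
    intro i hi
    have h1 : res γ (cj (μ i hi)) = (cj (μ i hi)) ^ u := by
      apply Subtype.ext
      rw [res_coe, SubmonoidClass.coe_pow, hu0]
      apply cyc_spec
      obtain ⟨v, hv⟩ := hdN i
      have h2 : (cj (μ i hi)) ^ d i = 1 := by rw [← map_pow, hμ1, map_one]
      have h3 := congrArg Subtype.val h2
      rw [SubmonoidClass.coe_pow] at h3
      rw [hv, pow_mul, h3]
      exact one_pow _
    rw [hfe', RingHom.comp_apply, RingHom.comp_apply, h1, map_pow, hj1 i hi, ← pow_mul, hjI i hi,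
      mul_comm]
  have hnd : ∀ i (hi : i ∈ I), ¬ d i ∣ u * j i := by
    intro i hi h0
    have h1 : (d i).Coprime u := (Nat.Coprime.coprime_dvd_right (hdN i) hu).symm
    rw [hjI i hi] at h0
    exact hj0 i hi (h1.dvd_of_dvd_mul_left h0)
  have hest := fun i (hi : i ∈ I) => hμ3 i hi fe' (u * j i) (hnd i hi) (hμ' i hi)
  set ρ := ‖((c : ℕ) : PadicAlgCl c)‖ with hρ
  have hρ0 : 0 < ρ := norm_c_pos
  have hρ1 : ρ < 1 := norm_c_lt
  intro i hi
  have h0 := hest i hi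
  rw [hlt i hi] at h0
  have hdi : 0 < d i := by have := hd i; omega
  have h1 : ‖fe' ⟨α i, hx i hi⟩‖ ^ d i ≤ (ρ ^ (f i * n i)) ^ d i := by
    have h2 : f i * (n i + 1) * d i = f i * n i * d i + f i * d i := by ring
    rw [h2, pow_add] at h0
    have h3 := le_of_mul_le_mul_right h0 (pow_pos hρ0 _)
    rwa [pow_mul ρ (f i * n i)] at h3
  have h2 : ‖fe' ⟨α i, hx i hi⟩‖ ≤ ρ ^ (f i * n i) :=
    le_of_pow_le_pow_left₀ hdi.ne' (pow_nonneg hρ0.le _) h1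
  have h3 : ‖fe (res γ ⟨α i, hx i hi⟩)‖ * ‖fe' ⟨α i, hx i hi⟩‖ = ρ ^ (f i * n i) := by
    rw [hfe', RingHom.comp_apply, RingHom.comp_apply, ← norm_mul, ← map_mul, ← map_mul]
    have h4 : (⟨α i, hx i hi⟩ : AA) * cj ⟨α i, hx i hi⟩ =
        ((Fintype.card (κ i) : ℕ) : AA) ^ n i := by
      apply Subtype.ext
      push_cast
      change α i * starRingEnd ℂ (α i) = _
      rw [Complex.mul_conj, Complex.normSq_eq_norm_sq, hpure i hi]
      push_cast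
      rfl
    rw [h4, map_pow, map_natCast, map_pow, map_natCast, norm_pow, hf i]
    push_cast
    rw [norm_pow, ← pow_mul]
  by_contra hlt'
  push Not at hlt'
  have h4 : 0 < ρ ^ (f i * n i) := pow_pos hρ0 _
  have h5 : 0 < ‖fe' ⟨α i, hx i hi⟩‖ := by
    rcases (norm_nonneg (fe' ⟨α i, hx i hi⟩)).lt_or_eq with h6 | h6
    · exact h6
    · rw [← h6, mul_zero] at h3
      exact absurd h3 h4.ne
  have h6 : ‖fe (res γ ⟨α i, hx i hi⟩)‖ * ‖fe' ⟨α i, hx i hi⟩‖ < 1 * ρ ^ (f i * n i) :=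
    mul_lt_mul hlt' h2 h5 zero_le_one
  rw [h3, one_mul] at h6
  exact lt_irrefl _ h6

end

end Run7.h306.GU
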