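import Pool.Agent.Run7.h306.TC2

/-!
# Small representatives in the cosets of a subgroup of the units
-/

set_option autoImplicit false

open Finset Pool.Agent.H916R2

namespace Run7.h306.TE

open Run7.h306.TC

variable {d : ℕ} [NeZero d]

/-- The indicator function of an interval. -/
noncomputable def ind (h : ℕ) (y : ZMod d) : ℂ := if 1 ≤ y.val ∧ y.val ≤ h then 1 else 0

theorem ind_sum {h : ℕ} (hd : h < d) (r : ZMod d) :
    ∑ z : ZMod d, ind h z * e (z * r) = ∑ k ∈ Ico 1 (h + 1), (e r : ℂ) ^ k := by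
  unfold ind
  simp only [ite_mul, one_mul, zero_mul]
  rw [← sum_filter]
  apply sum_bij (fun (z : ZMod d) _ => z.val)
  · intro z hz
    have := (mem_filter.1 hz).2
    rw [mem_Ico]
    omega
  · intro a _ b _ hab
    exact ZMod.val_injective d hab
  · intro k hk
    rw [mem_Ico] at hk
    have h1 : (k : ZMod d).val = k := by rw [ZMod.val_natCast, Nat.mod_eq_of_lt (by omega)]
    refine ⟨(k : ZMod d), ?_, h1⟩
    rw [mem_filter, h1]
    exact ⟨mem_univ _, by omega⟩
  · intro z _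
    rw [← AddChar.map_nsmul_eq_pow, nsmul_eq_mul, ZMod.natCast_zmod_val]

theorem ind_fourier {h : ℕ} (hd : h < d) (r : ZMod d) (hr : r ≠ 0) :
    ‖∑ z : ZMod d, ind h z * (e (z * r) : ℂ)‖ ≤
      (d : ℝ) / 2 * (1 / (r.val : ℝ) + 1 / ((d : ℝ) - r.val)) := by
  rw [ind_sum hd]
  have h1 := geom_sum_Ico_mul_neg (e r : ℂ) (m := 1) (n := h + 1) (by omega)
  have h2 := congrArg norm h1
  rw [norm_mul] at h2
  have h3 : ‖(e r : ℂ) ^ 1 - (e r : ℂ) ^ (h + 1)‖ ≤ 2 := by
    refine (norm_sub_le _ _).trans ?_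
    rw [norm_pow, norm_pow, norm_e, one_pow, one_pow]
    norm_num
  rw [← h2] at h3
  have h7 := le_norm_one_sub r hr
  obtain ⟨A, hA⟩ : ∃ A, A = ‖∑ k ∈ Ico 1 (h + 1), (e r : ℂ) ^ k‖ := ⟨_, rfl⟩
  obtain ⟨Bn, hBn⟩ : ∃ Bn, Bn = ‖1 - (e r : ℂ)‖ := ⟨_, rfl⟩
  have hrv : (r.val : ℝ) < d := by exact_mod_cast ZMod.val_lt r
  obtain ⟨T, hT⟩ : ∃ T, T = 1 / (r.val : ℝ) + 1 / ((d : ℝ) - r.val) := ⟨_, rfl⟩
  have hT0 : 0 ≤ T := by
    rw [hT]
    have : 0 < (d : ℝ) - r.val := by linarith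
    positivity
  rw [← hA, ← hBn] at h3
  rw [← hT, ← hBn] at h7
  rw [← hA, ← hT]
  have hA0 : 0 ≤ A := by rw [hA]; exact norm_nonneg _
  calc A = A * 1 := (mul_one A).symm
    _ ≤ A * ((d : ℝ) / 4 * T * Bn) := mul_le_mul_of_nonneg_left h7 hA0
    _ = (A * Bn) * ((d : ℝ) / 4 * T) := by ring
    _ ≤ 2 * ((d : ℝ) / 4 * T) := mul_le_mul_of_nonneg_right h3 (by positivity)
    _ = (d : ℝ) / 2 * T := by ring

/-- The exponential sum at a nonzero element. -/
theorem SS_at (H : Subgroup (ZMod d)ˣ) (a : (ZMod d)ˣ) (r : ZMod d) (hr : r ≠ 0) :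
    ‖SS H (-((a : ZMod d) * r))‖ * Real.sqrt d ≤
      Nat.card H * H.index * d.divisors.card * Real.sqrt (Nat.gcd r.val d) := by
  have hv : 0 < r.val := Nat.pos_of_ne_zero fun h => hr ((ZMod.val_eq_zero r).1 h)
  obtain ⟨g, hg⟩ : ∃ g, g = Nat.gcd r.val d := ⟨_, rfl⟩
  have hg0 : 0 < g := by rw [hg]; exact Nat.gcd_pos_of_pos_left _ hv
  obtain ⟨k, hk⟩ : g ∣ r.val := by rw [hg]; exact Nat.gcd_dvd_left _ _
  obtain ⟨d', hd'⟩ : g ∣ d := by rw [hg]; exact Nat.gcd_dvd_right _ _
  have hd'0 : NeZero d' := ⟨by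
    rintro rfl
    rw [mul_zero] at hd'
    exact NeZero.ne d hd'⟩
  have hcop : k.Coprime d' := by
    have h3 := Nat.gcd_mul_left g k d'
    rw [← hk, ← hd', ← hg] at h3
    exact Nat.eq_of_mul_eq_mul_left hg0 (by rw [mul_one]; exact h3.symm)
  have h3 : -((a : ZMod d) * r) = (g : ZMod d) * (-(a : ZMod d) * (k : ZMod d)) := by
    have h4 : r = ((g * k : ℕ) : ZMod d) := by rw [← hk, ZMod.natCast_zmod_val]
    rw [h4]
    push_cast
    ring
  have h4 := SS_bound hd'.symm H (-(a : ZMod d) * (k : ZMod d)) (by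
    rw [map_mul, map_neg, map_natCast]
    apply IsUnit.mul
    · exact (a.isUnit.map _).neg
    · exact (ZMod.isUnit_iff_coprime k d').2 hcop)
  rw [h3, ← hg]
  exact h4

/-- **Each coset of a subgroup contains small representatives.** -/
theorem exists_rep (hd : 2 ≤ d) (H : Subgroup (ZMod d)ˣ) (a : (ZMod d)ˣ) (h : ℕ)
    (hh : (d : ℝ) * H.index * (d.divisors.card ^ 2 * (1 + Real.log d)) < h * Real.sqrt d) :
    ∃ u ∈ H, 1 ≤ ((u : ZMod d) * (a : ZMod d)).val ∧
      ((u : ZMod d) * (a : ZMod d)).val ≤ h := by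
  classical
  have _ : Fact (1 < d) := ⟨hd⟩
  rcases Nat.lt_or_ge h d with hlt | hge
  swap
  · refine ⟨1, H.one_mem, ?_, ?_⟩
    · rw [Units.val_one, one_mul]
      exact Nat.pos_of_ne_zero fun h0 => a.ne_zero ((ZMod.val_eq_zero _).1 h0)
    · exact (ZMod.val_lt _).le.trans hge
  by_contra hne
  push Not at hne
  have hd0 : (0 : ℝ) < d := by exact_mod_cast NeZero.pos d
  have h0 : ∑ u : H, ind h (((u : (ZMod d)ˣ) : ZMod d) * (a : ZMod d)) = 0 := by
    refine sum_eq_zero fun u _ => ?_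
    unfold ind
    rw [if_neg]
    rintro ⟨h1, h2⟩
    exact absurd h2 (not_le.2 (hne u.1 u.2 h1))
  have h1 : (0 : ℂ) = ∑ r : ZMod d, (∑ z : ZMod d, ind h z * (e (z * r) : ℂ)) *
      SS H (-((a : ZMod d) * r)) := by
    rw [← mul_zero (d : ℂ), ← h0, mul_sum, sum_congr rfl fun u _ => inversion (ind h) _, sum_comm]
    refine sum_congr rfl fun r _ => ?_
    rw [← mul_sum]
    congr 1
    unfold TC.SS
    refine sum_congr (by ext; simp) fun u _ => ?_
    congr 1
    ring
  rw [← add_sum_erase univ _ (mem_univ (0 : ZMod d))] at h1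
  have h2 : (∑ z : ZMod d, ind h z * (e (z * 0) : ℂ)) * SS H (-((a : ZMod d) * 0)) =
      (h : ℂ) * Nat.card H := by
    rw [ind_sum hlt, mul_zero, neg_zero]
    unfold TC.SS
    simp only [AddChar.map_zero_eq_one, one_pow, mul_zero, sum_const, Nat.card_Ico, card_univ,
      nsmul_eq_mul, mul_one, Nat.card_eq_fintype_card]
    congr 2
  rw [h2] at h1
  have h3 : (h : ℝ) * Nat.card H = ‖∑ r ∈ univ.erase (0 : ZMod d),
      (∑ z : ZMod d, ind h z * (e (z * r) : ℂ)) * SS H (-((a : ZMod d) * r))‖ := by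
    have h4 : ∑ r ∈ univ.erase (0 : ZMod d),
        (∑ z : ZMod d, ind h z * (e (z * r) : ℂ)) * SS H (-((a : ZMod d) * r)) =
        -((h : ℂ) * Nat.card H) := by linear_combination -h1
    rw [h4, norm_neg, norm_mul, Complex.norm_natCast, Complex.norm_natCast]
  have h4 : (h : ℝ) * Nat.card H * Real.sqrt d ≤
      (d : ℝ) / 2 * (Nat.card H * H.index * d.divisors.card) *
        (2 * (d.divisors.card * (1 + Real.log d))) := by
    rw [h3]
    calc _ ≤ (∑ r ∈ univ.erase (0 : ZMod d), ‖(∑ z : ZMod d, ind h z * (e (z * r) : ℂ)) *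
          SS H (-((a : ZMod d) * r))‖) * Real.sqrt d :=
          mul_le_mul_of_nonneg_right (norm_sum_le _ _) (Real.sqrt_nonneg _)
      _ = ∑ r ∈ univ.erase (0 : ZMod d), ‖(∑ z : ZMod d, ind h z * (e (z * r) : ℂ)) *
          SS H (-((a : ZMod d) * r))‖ * Real.sqrt d := by rw [sum_mul]
      _ ≤ ∑ r ∈ univ.erase (0 : ZMod d),
          (d : ℝ) / 2 * (Nat.card H * H.index * d.divisors.card) *
          (Real.sqrt (Nat.gcd r.val d) * (1 / (r.val : ℝ) + 1 / ((d : ℝ) - r.val))) := by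
          refine sum_le_sum fun r hr => ?_
          have hr0 : r ≠ 0 := (mem_erase.1 hr).1
          have h5 := ind_fourier hlt r hr0
          have h6 := SS_at H a r hr0
          have hrv : (r.val : ℝ) < d := by exact_mod_cast ZMod.val_lt r
          have hT0 : 0 ≤ 1 / (r.val : ℝ) + 1 / ((d : ℝ) - r.val) := by
            have : 0 < (d : ℝ) - r.val := by linarith
            positivity
          rw [norm_mul]
          calc ‖∑ z : ZMod d, ind h z * (e (z * r) : ℂ)‖ * ‖SS H (-((a : ZMod d) * r))‖ *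
                Real.sqrt d
              = ‖∑ z : ZMod d, ind h z * (e (z * r) : ℂ)‖ *
                  (‖SS H (-((a : ZMod d) * r))‖ * Real.sqrt d) := by ring
            _ ≤ ((d : ℝ) / 2 * (1 / (r.val : ℝ) + 1 / ((d : ℝ) - r.val))) *
                  (Nat.card H * H.index * d.divisors.card * Real.sqrt (Nat.gcd r.val d)) := by
                apply mul_le_mul h5 h6 (by positivity) (by positivity)
            _ = _ := by ring
      _ = ∑ k ∈ Ico 1 d, (d : ℝ) / 2 * (Nat.card H * H.index * d.divisors.card) *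
          (Real.sqrt (Nat.gcd k d) * (1 / (k : ℝ) + 1 / ((d : ℝ) - k))) := by
          apply sum_bij (fun (r : ZMod d) _ => r.val)
          · intro r hr
            rw [mem_Ico]
            have h7 := (mem_erase.1 hr).1
            exact ⟨Nat.pos_of_ne_zero fun h => h7 ((ZMod.val_eq_zero r).1 h), ZMod.val_lt r⟩
          · intro r _ s _ h
            exact ZMod.val_injective d h
          · intro k hk
            rw [mem_Ico] at hk
            refine ⟨(k : ZMod d), ?_, ?_⟩
            · rw [mem_erase]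
              refine ⟨fun h => ?_, mem_univ _⟩
              rw [ZMod.natCast_eq_zero_iff] at h
              exact absurd (Nat.le_of_dvd (by omega) h) (by omega)
            · rw [ZMod.val_natCast, Nat.mod_eq_of_lt hk.2]
          · intro r _
            rfl
      _ = (d : ℝ) / 2 * (Nat.card H * H.index * d.divisors.card) *
          ∑ k ∈ Ico 1 d, (Real.sqrt (Nat.gcd k d) * (1 / (k : ℝ) + 1 / ((d : ℝ) - k))) := by
          rw [mul_sum]
      _ ≤ _ := mul_le_mul_of_nonneg_left sum_gcd_both (by positivity)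
  have hc : (0 : ℝ) < Nat.card H := by exact_mod_cast Nat.card_pos
  have h5 := mul_lt_mul_of_pos_left hh hc
  have h6 : (d : ℝ) / 2 * (Nat.card H * H.index * d.divisors.card) *
        (2 * (d.divisors.card * (1 + Real.log d))) =
      Nat.card H * ((d : ℝ) * H.index * (d.divisors.card ^ 2 * (1 + Real.log d))) := by ring
  rw [h6] at h4
  have h7 : (h : ℝ) * Nat.card H * Real.sqrt d = Nat.card H * (h * Real.sqrt d) := by ring
  rw [h7] at h4
  exact absurd (lt_of_lt_of_le h5 h4) (lt_irrefl _)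

end Run7.h306.TE
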