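import Pool.Agent.Run7.h306.TE3
import Pool.Agent.Run7.h306.TE4
import Pool.Agent.N876.FL.Crit

/-!
# The condition on the exponents for one covering of large degree
-/

set_option autoImplicit false

namespace Run7.h306.TE

open Finset

/-- The residues of the multiples of a number with a small residue. -/
theorem sum_le {s m y S r : ℕ} (hm : 0 < m) {a : Fin s → ℕ} (k₀ : Fin s)
    (hS : S = ∑ k ∈ univ.erase k₀, a k) (hy : y * S ≤ r * m) (hdvd : m ∣ ∑ k, a k) :
    ∑ k, (y * a k) % m ≤ r * m := by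
  classical
  have h1 : m ∣ ∑ k, (y * a k) % m := by
    rw [Nat.dvd_iff_mod_eq_zero, ← Finset.sum_nat_mod, ← Nat.dvd_iff_mod_eq_zero, ← mul_sum]
    exact hdvd.mul_left y
  have h2 : ∑ k, (y * a k) % m < (r + 1) * m := by
    rw [← add_sum_erase univ _ (mem_univ k₀)]
    have h3 : (y * a k₀) % m < m := Nat.mod_lt _ hm
    have h4 : ∑ k ∈ univ.erase k₀, (y * a k) % m ≤ r * m := by
      refine (sum_le_sum fun k _ => Nat.mod_le (y * a k) m).trans ?_
      rw [← mul_sum, ← hS]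
      exact hy
    calc _ < m + r * m := by omega
      _ = (r + 1) * m := by ring
  obtain ⟨q, hq⟩ := h1
  rw [hq] at h2 ⊢
  have h3 : q < r + 1 := by
    rw [mul_comm] at h2
    exact lt_of_mul_lt_mul_right h2 (Nat.zero_le _)
  rw [mul_comm]
  exact Nat.mul_le_mul_right _ (by omega)

/-- The inequality for the length of the interval. -/
theorem length_ineq {m D S r : ℕ} {X : ℝ} (hm : 2 ≤ m) (hS : 0 < S) (hX : 1 ≤ X) {i : ℕ}
    (hi : i ≤ D) (hi0 : 0 < i) (h : 2 * (S : ℝ) * D * X ≤ r * Real.sqrt m) :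
    (m : ℝ) * i * X < (r * m / S : ℕ) * Real.sqrt m := by
  have hm0 : (0 : ℝ) < m := by exact_mod_cast (by omega : 0 < m)
  have hS0 : (0 : ℝ) < S := by exact_mod_cast hS
  have hs0 : 0 < Real.sqrt m := Real.sqrt_pos.2 hm0
  have hsm : Real.sqrt m * Real.sqrt m = m := Real.mul_self_sqrt hm0.le
  have hs1 : 1 < Real.sqrt m := by
    rw [Real.lt_sqrt (by norm_num), one_pow]
    exact_mod_cast (by omega : 1 < m)
  have hD1 : (1 : ℝ) ≤ D := by exact_mod_cast (by omega : 1 ≤ D)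
  have h1 : (r * m : ℝ) / S < (r * m / S : ℕ) + 1 := by
    rw [div_lt_iff₀ hS0]
    have h2 : r * m < (r * m / S + 1) * S := by
      have h3 := Nat.div_add_mod (r * m) S
      have h4 := Nat.mod_lt (r * m) hS
      calc r * m = S * (r * m / S) + r * m % S := h3.symm
        _ < S * (r * m / S) + S := by omega
        _ = (r * m / S + 1) * S := by ring
    exact_mod_cast h2
  have h2 : (m : ℝ) * D * X + Real.sqrt m ≤ (r * m : ℝ) / S * Real.sqrt m := by
    have h3 : (r * m : ℝ) / S * Real.sqrt m = m * (r * Real.sqrt m) / S := by ring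
    rw [h3, le_div_iff₀ hS0]
    have h4 : (m : ℝ) * (2 * (S : ℝ) * D * X) ≤ m * (r * Real.sqrt m) :=
      mul_le_mul_of_nonneg_left h hm0.le
    have h5 : Real.sqrt m ≤ m * D * X := by
      calc Real.sqrt m ≤ Real.sqrt m * Real.sqrt m := by nlinarith
        _ = m * 1 * 1 := by rw [hsm]; ring
        _ ≤ m * D * X := by
            apply mul_le_mul _ hX (by norm_num) (by positivity)
            exact mul_le_mul_of_nonneg_left hD1 hm0.le
    have h6 : Real.sqrt m * S ≤ m * D * X * S := mul_le_mul_of_nonneg_right h5 hS0.le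
    nlinarith
  have h3 : (r * m : ℝ) / S * Real.sqrt m < ((r * m / S : ℕ) + 1) * Real.sqrt m :=
    mul_lt_mul_of_pos_right h1 hs0
  have h4 : (m : ℝ) * i * X ≤ m * D * X := by
    have : (i : ℝ) ≤ D := by exact_mod_cast hi
    have h5 : (m : ℝ) * i ≤ m * D := mul_le_mul_of_nonneg_left this hm0.le
    exact mul_le_mul_of_nonneg_right h5 (by linarith)
  have h5 : ((r * m / S : ℕ) + 1 : ℝ) * Real.sqrt m =
      (r * m / S : ℕ) * Real.sqrt m + Real.sqrt m := by ring
  rw [h5] at h3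
  linarith

/-- **The condition for one covering.** -/
theorem smallOne_of {c f N D n s : ℕ} {a : Fin s → ℕ} (hN : 2 ≤ N) (hf : 0 < f) (hc : c % N = 1)
    (ha : ∀ k, (a k).Coprime N) (hdvd : N ∣ ∑ k, a k) (k₀ : Fin s) {r : ℕ} (hr : 2 * r < n + 2)
    (h : ∀ m, m ∣ N → 1 < m → 2 * ((∑ k ∈ univ.erase k₀, a k : ℕ) : ℝ) * D *
      (m.divisors.card ^ 2 * (1 + Real.log m)) ≤ r * Real.sqrt m) :
    SmallOne c f N D n s a := by
  classical
  intro H hH j hj
  have hN0 : 0 < N := by omega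
  have _ : NeZero N := ⟨hN0.ne'⟩
  obtain ⟨g, hg⟩ : ∃ g, g = Nat.gcd j N := ⟨_, rfl⟩
  have hg0 : 0 < g := by rw [hg]; exact Nat.gcd_pos_of_pos_right _ hN0
  obtain ⟨j', hj'⟩ : g ∣ j := by rw [hg]; exact Nat.gcd_dvd_left _ _
  obtain ⟨m, hm⟩ : g ∣ N := by rw [hg]; exact Nat.gcd_dvd_right _ _
  have hm0 : 0 < m := Nat.pos_of_ne_zero fun h => by rw [h, mul_zero] at hm; omega
  have hm1 : 1 < m := by
    by_contra hle
    have h1 : m = 1 := by omega
    rw [h1, mul_one] at hm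
    apply hj
    rw [hm, hj']
    exact dvd_mul_right _ _
  have _ : NeZero m := ⟨hm0.ne'⟩
  have hcop : j'.Coprime m := by
    have h3 := Nat.gcd_mul_left g j' m
    rw [← hj', ← hm, ← hg] at h3
    exact Nat.eq_of_mul_eq_mul_left hg0 (by rw [mul_one]; exact h3.symm)
  have hmN : m ∣ N := Dvd.intro_left g hm.symm
  obtain ⟨S, hS⟩ : ∃ S, S = ∑ k ∈ univ.erase k₀, a k := ⟨_, rfl⟩
  have hS0 : 0 < S := by
    by_contra hle
    have h0 : S = 0 := by omega
    rw [← add_sum_erase univ _ (mem_univ k₀), ← hS, h0, add_zero] at hdvd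
    have h1 := Nat.Coprime.eq_one_of_dvd (ha k₀).symm hdvd
    omega
  rw [← hS] at h
  obtain ⟨H', hH'⟩ : ∃ H', H' = H.map (ZMod.unitsMap hmN) := ⟨_, rfl⟩
  have hidx : H'.index ≤ D := by
    rw [hH']
    exact (Nat.le_of_dvd (Nat.pos_of_ne_zero (Subgroup.FiniteIndex.index_ne_zero))
      (Subgroup.index_map_dvd H (ZMod.unitsMap_surjective _))).trans hH
  have hX : (1 : ℝ) ≤ m.divisors.card ^ 2 * (1 + Real.log m) := by
    have h1 : (1 : ℝ) ≤ m.divisors.card := by
      exact_mod_cast Finset.card_pos.2 ⟨1, Nat.one_mem_divisors.2 hm0.ne'⟩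
    have h2 : 0 ≤ Real.log m := Real.log_nonneg (by exact_mod_cast hm0)
    nlinarith
  obtain ⟨u', hu', -, hu2⟩ := exists_rep (d := m) (by omega) H' (ZMod.unitOfCoprime j' hcop)
    (r * m / S) (length_ineq (by omega) hS0 hX hidx
      (Nat.pos_of_ne_zero (Subgroup.FiniteIndex.index_ne_zero)) (h m hmN hm1))
  rw [hH'] at hu'
  obtain ⟨u, hu, rfl⟩ := hu'
  refine ⟨u, hu, ?_⟩
  obtain ⟨y, hy⟩ : ∃ y, y = ((ZMod.unitsMap hmN u : (ZMod m)ˣ) * (ZMod.unitOfCoprime j' hcop : (ZMod m)ˣ) :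
    ZMod m).val := ⟨_, rfl⟩
  rw [← hy] at hu2
  obtain ⟨v, hv⟩ : ∃ v, v = ((u : (ZMod N)ˣ) : ZMod N).val := ⟨_, rfl⟩
  rw [← hv]
  have hvy : v * j' ≡ y [MOD m] := by
    rw [← ZMod.natCast_eq_natCast_iff, hy, ZMod.natCast_zmod_val, Nat.cast_mul, hv,
      ZMod.unitsMap_def, Units.coe_map, ZMod.coe_unitOfCoprime, ZMod.natCast_val]
    rfl
  have hterm : ∀ k t, (v * j * a k * c ^ t) % N = g * ((y * a k) % m) := by
    intro k t
    have h1 : v * j * a k * c ^ t ≡ v * j * a k * 1 [MOD N] := by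
      apply Nat.ModEq.mul_left
      have h4 : c ≡ 1 [MOD N] := by
        show c % N = 1 % N
        rw [hc, Nat.mod_eq_of_lt (by omega)]
      simpa using h4.pow t
    rw [h1, mul_one, hj', hm]
    have h2 : v * (g * j') * a k = g * (v * j' * a k) := by ring
    rw [h2, Nat.mul_mod_mul_left]
    congr 1
    exact hvy.mul_right _
  have h1 : ∑ k, ∑ t ∈ range f, (v * j * a k * c ^ t) % N = f * g * ∑ k, (y * a k) % m := by
    rw [mul_sum]
    refine sum_congr rfl fun k _ => ?_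
    rw [sum_congr rfl fun t _ => hterm k t, sum_const, card_range, smul_eq_mul, mul_assoc]
  have h2 : ∑ k, (y * a k) % m ≤ r * m := by
    refine sum_le hm0 k₀ hS ?_ (hmN.trans hdvd)
    exact (Nat.mul_le_mul_right S hu2).trans (Nat.div_mul_le_self _ _)
  rw [h1]
  calc 2 * (f * g * ∑ k, (y * a k) % m) ≤ 2 * (f * g * (r * m)) := by gcongr
    _ = (2 * r) * (f * (g * m)) := by ring
    _ = (2 * r) * (f * N) := by rw [← hm]
    _ < (n + 2) * (f * N) := Nat.mul_lt_mul_of_pos_right hr (Nat.mul_pos hf hN0)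
    _ = f * N * (n + 2) := by ring

end Run7.h306.TE
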