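import Pool.Agent.Run7.h306.GU1
import Pool.Agent.Run7.h306.TE5

/-!
# The weights one for pairwise coprime large degrees
-/

set_option autoImplicit false

namespace Run7.h306.GU

open Finset Run7.h306.TE

/-- The condition on the exponents for one covering. -/
def UnitOne (c f N D s : ℕ) (a : Fin s → ℕ) : Prop :=
  ∀ H : Subgroup (ZMod N)ˣ, H.index ≤ D → ∀ j : ℕ, ¬ N ∣ j → ∃ u ∈ H,
    ∑ k, ∑ t ∈ range f, (((u : (ZMod N)ˣ) : ZMod N).val * j * a k * c ^ t) % N = f * N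

theorem unitB_of_coprime {ι : Type} [Fintype ι] {c D : ℕ} {f d s : ι → ℕ}
    {a : ∀ i, Fin (s i) → ℕ} (hd : ∀ i, 0 < d i)
    (hco : ∀ i i', i ≠ i' → (d i).Coprime (d i'))
    (h : ∀ i, UnitOne c (f i) (d i) D (s i) (a i)) : UnitB c f (∏ i, d i) D d s a := by
  classical
  intro H hH I j hj
  have hP : Pairwise (Function.onFun Nat.Coprime d) := fun i i' h => hco i i' h
  have hN : 0 < ∏ i, d i := prod_pos fun i _ => hd i
  have _ : NeZero (∏ i, d i) := ⟨hN.ne'⟩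
  have _ : ∀ i, NeZero (d i) := fun i => ⟨(hd i).ne'⟩
  let E := ZMod.prodEquivPi d hP
  let EU : (ZMod (∏ i, d i))ˣ ≃* (∀ i, (ZMod (d i))ˣ) :=
    (Units.mapEquiv E.toMulEquiv).trans MulEquiv.piUnits
  have hEU : ∀ (u : (ZMod (∏ i, d i))ˣ) i, ((EU u i : (ZMod (d i))ˣ) : ZMod (d i)) =
      ZMod.castHom (dvd_prod_of_mem d (mem_univ i)) (ZMod (d i)) (u : ZMod (∏ i, d i)) := by
    intro u i
    exact ZMod.prodEquivPi_apply d hP (u : ZMod (∏ i, d i)) i
  let em : ∀ i, (ZMod (d i))ˣ →* (ZMod (∏ i, d i))ˣ := fun i =>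
    EU.symm.toMonoidHom.comp (MonoidHom.mulSingle (fun i => (ZMod (d i))ˣ) i)
  have hidx : ∀ i, (H.comap (em i)).index ≤ D := by
    intro i
    rw [Subgroup.index_comap]
    refine (Nat.le_of_dvd (Nat.pos_of_ne_zero ?_)
      (Subgroup.relIndex_dvd_index_of_normal (H := H) (K := (em i).range))).trans hH
    exact Subgroup.FiniteIndex.index_ne_zero
  have hch : ∀ i (hi : i ∈ I), ∃ u ∈ H.comap (em i),
      ∑ k, ∑ t ∈ range (f i), (((u : (ZMod (d i))ˣ) : ZMod (d i)).val * j i * a i k * c ^ t) % d i =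
        f i * d i := fun i hi => h i _ (hidx i) (j i) (hj i hi)
  choose v hv1 hv2 using hch
  obtain ⟨u, hu⟩ : ∃ u : (ZMod (∏ i, d i))ˣ, u = ∏ i ∈ I.attach, em i.1 (v i.1 i.2) := ⟨_, rfl⟩
  have huH : u ∈ H := by
    rw [hu]
    exact Subgroup.prod_mem _ fun i _ => hv1 i.1 i.2
  have hui : ∀ i (hi : i ∈ I), EU u i = v i hi := by
    intro i hi
    rw [hu, map_prod, Finset.prod_apply, prod_eq_single (⟨i, hi⟩ : I)]
    · change EU (EU.symm (Pi.mulSingle i (v i hi))) i = _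
      rw [MulEquiv.apply_symm_apply, Pi.mulSingle_eq_same]
    · intro b _ hb
      change EU (EU.symm (Pi.mulSingle b.1 (v b.1 b.2))) i = _
      rw [MulEquiv.apply_symm_apply, Pi.mulSingle_eq_of_ne]
      intro h0
      exact hb (Subtype.ext h0.symm)
    · intro h0
      exact absurd (mem_attach _ _) h0
  have hmod : ∀ i (hi : i ∈ I), (u : ZMod (∏ i, d i)).val ≡ (v i hi : ZMod (d i)).val [MOD d i] := by
    intro i hi
    rw [← ZMod.natCast_eq_natCast_iff, ZMod.natCast_zmod_val, ← hui i hi, hEU]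
    rw [ZMod.castHom_apply, ZMod.natCast_val]
  refine ⟨u, huH, fun i hi => ?_⟩
  rw [← hv2 i hi]
  refine sum_congr rfl fun k _ => sum_congr rfl fun t _ => ?_
  exact (((hmod i hi).mul_right _).mul_right _).mul_right _

/-- **The condition for one covering.** -/
theorem unitOne_of {c f N D s : ℕ} {a : Fin s → ℕ} (hN : 2 ≤ N) (hc : c % N = 1)
    (ha : ∀ k, (a k).Coprime N) (hdvd : N ∣ ∑ k, a k) (k₀ : Fin s)
    (h : ∀ m, m ∣ N → 1 < m → 2 * ((∑ k ∈ univ.erase k₀, a k : ℕ) : ℝ) * D *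
      (m.divisors.card ^ 2 * (1 + Real.log m)) ≤ Real.sqrt m) :
    UnitOne c f N D s a := by
  classical
  intro H hH j hj
  have hN0 : 0 < N := by omega
  have _ : NeZero N := ⟨hN0.ne'⟩
  obtain ⟨g, hg⟩ : ∃ g, g = Nat.gcd j N := ⟨_, rfl⟩
  have hg0 : 0 < g := by rw [hg]; exact Nat.gcd_pos_of_pos_right _ hN0
  obtain ⟨j', hj'⟩ : g ∣ j := by rw [hg]; exact Nat.gcd_dvd_left _ _
  obtain ⟨m, hm⟩ : g ∣ N := by rw [hg]; exact Nat.gcd_dvd_right _ _
  have hm0 : 0 < m := Nat.pos_of_ne_zero fun h => by rw [h, mul_zero] at hm; omega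
  have hm1 : 1 < m := by
    by_contra hle
    have h1 : m = 1 := by omega
    rw [h1, mul_one] at hm
    apply hj
    rw [hm, hj']
    exact dvd_mul_right _ _
  have _ : NeZero m := ⟨hm0.ne'⟩
  have hcop : j'.Coprime m := by
    have h3 := Nat.gcd_mul_left g j' m
    rw [← hj', ← hm, ← hg] at h3
    exact Nat.eq_of_mul_eq_mul_left hg0 (by rw [mul_one]; exact h3.symm)
  have hmN : m ∣ N := Dvd.intro_left g hm.symm
  obtain ⟨S, hS⟩ : ∃ S, S = ∑ k ∈ univ.erase k₀, a k := ⟨_, rfl⟩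
  have hS0 : 0 < S := by
    by_contra hle
    have h0 : S = 0 := by omega
    rw [← add_sum_erase univ _ (mem_univ k₀), ← hS, h0, add_zero] at hdvd
    have h1 := Nat.Coprime.eq_one_of_dvd (ha k₀).symm hdvd
    omega
  rw [← hS] at h
  obtain ⟨H', hH'⟩ : ∃ H', H' = H.map (ZMod.unitsMap hmN) := ⟨_, rfl⟩
  have hidx : H'.index ≤ D := by
    rw [hH']
    exact (Nat.le_of_dvd (Nat.pos_of_ne_zero (Subgroup.FiniteIndex.index_ne_zero))
      (Subgroup.index_map_dvd H (ZMod.unitsMap_surjective _))).trans hH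
  have hX : (1 : ℝ) ≤ m.divisors.card ^ 2 * (1 + Real.log m) := by
    have h1 : (1 : ℝ) ≤ m.divisors.card := by
      exact_mod_cast Finset.card_pos.2 ⟨1, Nat.one_mem_divisors.2 hm0.ne'⟩
    have h2 : 0 ≤ Real.log m := Real.log_nonneg (by exact_mod_cast hm0)
    nlinarith
  obtain ⟨u', hu', -, hu2⟩ := exists_rep (d := m) (by omega) H' (ZMod.unitOfCoprime j' hcop)
    (1 * m / S) (length_ineq (by omega) hS0 hX hidx
      (Nat.pos_of_ne_zero (Subgroup.FiniteIndex.index_ne_zero))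
      (by rw [Nat.cast_one, one_mul]; exact h m hmN hm1))
  rw [hH'] at hu'
  obtain ⟨u, hu, rfl⟩ := hu'
  refine ⟨u, hu, ?_⟩
  obtain ⟨y, hy⟩ : ∃ y, y = ((ZMod.unitsMap hmN u : (ZMod m)ˣ) * (ZMod.unitOfCoprime j' hcop : (ZMod m)ˣ) :
    ZMod m).val := ⟨_, rfl⟩
  rw [← hy] at hu2
  obtain ⟨v, hv⟩ : ∃ v, v = ((u : (ZMod N)ˣ) : ZMod N).val := ⟨_, rfl⟩
  rw [← hv]
  have hvy : v * j' ≡ y [MOD m] := by
    rw [← ZMod.natCast_eq_natCast_iff, hy, ZMod.natCast_zmod_val, Nat.cast_mul, hv,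
      ZMod.unitsMap_def, Units.coe_map, ZMod.coe_unitOfCoprime, ZMod.natCast_val]
    rfl
  have hterm : ∀ k t, (v * j * a k * c ^ t) % N = g * ((y * a k) % m) := by
    intro k t
    have h1 : v * j * a k * c ^ t ≡ v * j * a k * 1 [MOD N] := by
      apply Nat.ModEq.mul_left
      have h4 : c ≡ 1 [MOD N] := by
        show c % N = 1 % N
        rw [hc, Nat.mod_eq_of_lt (by omega)]
      simpa using h4.pow t
    rw [h1, mul_one, hj', hm]
    have h2 : v * (g * j') * a k = g * (v * j' * a k) := by ring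
    rw [h2, Nat.mul_mod_mul_left]
    congr 1
    exact hvy.mul_right _
  have h1 : ∑ k, ∑ t ∈ range f, (v * j * a k * c ^ t) % N = f * g * ∑ k, (y * a k) % m := by
    rw [mul_sum]
    refine sum_congr rfl fun k _ => ?_
    rw [sum_congr rfl fun t _ => hterm k t, sum_const, card_range, smul_eq_mul, mul_assoc]
  have h2 : ∑ k, (y * a k) % m ≤ 1 * m := by
    refine sum_le hm0 k₀ hS ?_ (hmN.trans hdvd)
    exact (Nat.mul_le_mul_right S hu2).trans (Nat.div_mul_le_self _ _)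
  have h3 : m ∣ ∑ k, (y * a k) % m := by
    rw [Nat.dvd_iff_mod_eq_zero, ← Finset.sum_nat_mod, ← Nat.dvd_iff_mod_eq_zero, ← mul_sum]
    exact (hmN.trans hdvd).mul_left y
  have hyc : y.Coprime m := by
    rw [hy]
    have h5 := ZMod.val_coe_unit_coprime (ZMod.unitsMap hmN u * ZMod.unitOfCoprime j' hcop)
    rwa [Units.val_mul] at h5
  have h4 : 0 < ∑ k, (y * a k) % m := by
    refine lt_of_lt_of_le ?_ (single_le_sum (fun k _ => Nat.zero_le _) (mem_univ k₀))
    refine Nat.pos_of_ne_zero fun h0 => ?_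
    have h5 : m ∣ y * a k₀ := Nat.dvd_of_mod_eq_zero h0
    have h6 : (y * a k₀).Coprime m := hyc.mul_left ((ha k₀).coprime_dvd_right hmN)
    have h7 := Nat.Coprime.eq_one_of_dvd h6.symm h5
    omega
  have h5 : ∑ k, (y * a k) % m = m := by
    rw [one_mul] at h2
    exact le_antisymm h2 (Nat.le_of_dvd h4 h3)
  rw [h1, h5, mul_assoc, ← hm]

end Run7.h306.GU
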