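import Pool.Agent.Run7.h306.GU2
import Pool.Agent.N204.GT.Num

/-!
# Divisibility by powers of p
-/

set_option autoImplicit false

namespace Run7.h306.GU

open Finset Polynomial TensorProduct Pool.Agent.N876.TC Pool.Agent.N876.UV Pool.Agent.N876.FL
  Pool.Agent.W528.HA Pool.Agent.W528.HB Run7.h306.HF Run7.h306.TE
open Pool.Agent.N204.GT (int_iff)

/-- For every number `β'` of degree at most `D`, all elements `α i` of the sets `S i`, and every p-adic
embedding there is an automorphism fixing `β'` such that the conjugates of the `α i` have absolute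
value at least one. -/
def IsUnitSystem (c : ℕ) [Fact c.Prime] {ι : Type} (D : ℕ) (S : ι → Set ℂ) : Prop :=
  ∀ β' : ℂ, IsAlgebraic ℚ β' → (minpoly ℚ β').natDegree ≤ D → ∀ (I : Finset ι) (α : ι → ℂ),
    (∀ i ∈ I, α i ∈ S i) → ∃ hx : ∀ i ∈ I, α i ∈ AA, ∀ fe : AA →+* PadicAlgCl c,
      ∃ γ : ℂ ≃+* ℂ, γ β' = β' ∧ ∀ i (hi : i ∈ I), 1 ≤ ‖fe (res γ ⟨α i, hx i hi⟩)‖

variable {c : ℕ} [hc : Fact c.Prime]

theorem norm_other {l : ℕ} [hl : Fact l.Prime] (h : l ≠ c) : ‖((c : ℕ) : PadicAlgCl l)‖ = 1 := by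
  have h1 : ((c : ℚ_[l]) : PadicAlgCl l) = (c : PadicAlgCl l) :=
    map_natCast (algebraMap ℚ_[l] (PadicAlgCl l)) c
  rw [← h1, PadicAlgCl.norm_extends]
  have h2 : ¬ ‖(c : ℚ_[l])‖ < 1 := by
    have h3 := (Padic.norm_intCast_lt_one_iff (p := l) (k := (c : ℤ)))
    rw [Int.cast_natCast] at h3
    rw [h3]
    intro h4
    exact h ((Nat.prime_dvd_prime_iff_eq hl.out hc.out).1 (by exact_mod_cast h4))
  have h5 := Padic.norm_int_le_one (p := l) (c : ℤ)
  rw [Int.cast_natCast] at h5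
  exact le_antisymm h5 (not_lt.1 h2)

/-- **No new divisibilities.** -/
theorem nodivC {ι : Type} {D : ℕ} {S : ι → Set ℂ} (hS : IsUnitSystem c D S) {β : ℂ}
    (hβ : IsIntegral ℤ β) {t : ℕ} (ht : 0 < t) (hdeg : (minpoly ℚ (β ^ t)).natDegree ≤ D)
    {I : Finset ι} {α : ι → ℂ} (hα : ∀ i ∈ I, α i ∈ S i) (k : ι → ℕ) (r A B : ℕ)
    (h : IsIntegral ℤ ((∏ i ∈ I, α i ^ k i) * β ^ r * (c : ℂ) ^ A / (c : ℂ) ^ B)) :
    IsIntegral ℤ (β ^ r * (c : ℂ) ^ A / (c : ℂ) ^ B) := by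
  classical
  have hβA : IsAlgebraic ℚ β := by
    have h1 : IsIntegral ℚ β := hβ.tower_top
    exact h1.isAlgebraic
  obtain ⟨hx, hu⟩ := hS (β ^ t) (hβA.pow t) hdeg I α hα
  have hAA : Algebra.IsAlgebraic ℚ AA := algebraicClosure.isAlgebraic ℚ ℂ
  have hβ' : β ∈ AA := mem_algebraicClosure_iff.mpr hβA
  obtain ⟨b, hb⟩ : ∃ b : AA, b = ⟨β, hβ'⟩ := ⟨_, rfl⟩
  have hbc : (b : ℂ) = β := by rw [hb]
  obtain ⟨a, ha⟩ : ∃ a : ι → AA, a = fun i => if hi : i ∈ I then ⟨α i, hx i hi⟩ else 1 := ⟨_, rfl⟩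
  have hai : ∀ i (hi : i ∈ I), a i = ⟨α i, hx i hi⟩ := by
    intro i hi
    rw [ha]
    exact dif_pos hi
  have hac : ∀ i ∈ I, (a i : ℂ) = α i := by
    intro i hi
    rw [hai i hi]
  obtain ⟨y, hy⟩ : ∃ y : AA, y = b ^ r * (c : AA) ^ A / (c : AA) ^ B := ⟨_, rfl⟩
  have hyc : (y : ℂ) = β ^ r * (c : ℂ) ^ A / (c : ℂ) ^ B := by
    rw [hy]
    push_cast
    rw [hbc]
  obtain ⟨x, hxd⟩ : ∃ x : AA, x = (∏ i ∈ I, a i ^ k i) * y := ⟨_, rfl⟩
  have hxc : (x : ℂ) = (∏ i ∈ I, α i ^ k i) * β ^ r * (c : ℂ) ^ A / (c : ℂ) ^ B := by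
    rw [hxd]
    push_cast
    rw [hyc, prod_congr rfl fun i hi => by rw [hac i hi]]
    ring
  have hinj : Function.Injective (AA.val.restrictScalars ℤ) := Subtype.val_injective
  have hxi : IsIntegral ℤ x := by
    rw [← isIntegral_algHom_iff (AA.val.restrictScalars ℤ) hinj]
    change IsIntegral ℤ (x : ℂ)
    rw [hxc]
    exact h
  have hbi : IsIntegral ℤ b := by
    rw [← isIntegral_algHom_iff (AA.val.restrictScalars ℤ) hinj]
    change IsIntegral ℤ (b : ℂ)
    rw [hbc]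
    exact hβ
  have hyi : IsIntegral ℤ y := by
    rw [int_iff]
    intro l _ ψ
    by_cases hl : l = c
    · subst hl
      obtain ⟨γ, hγ, h1⟩ := hu (ψ : AA →+* PadicAlgCl l)
      have h2 : ‖ψ (res γ x)‖ ≤ 1 := by
        have h3 : IsIntegral ℤ (res γ x) := hxi.map (res γ).toIntAlgHom
        exact (int_iff _).1 h3 l ψ
      have h3 : ‖ψ (res γ y)‖ ≤ 1 := by
        rw [hxd, map_mul, map_mul, norm_mul] at h2
        have h4 : 1 ≤ ‖ψ (res γ (∏ i ∈ I, a i ^ k i))‖ := by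
          rw [map_prod, map_prod, norm_prod]
          refine Finset.prod_induction _ (fun x : ℝ => 1 ≤ x)
            (fun a b ha hb => one_le_mul_of_one_le_of_one_le ha hb) le_rfl fun i hi => ?_
          rw [map_pow, map_pow, norm_pow]
          refine one_le_pow₀ ?_
          rw [hai i hi]
          exact h1 i hi
        calc ‖ψ (res γ y)‖ = 1 * ‖ψ (res γ y)‖ := (one_mul _).symm
          _ ≤ ‖ψ (res γ (∏ i ∈ I, a i ^ k i))‖ * ‖ψ (res γ y)‖ :=
              mul_le_mul_of_nonneg_right h4 (norm_nonneg _)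
          _ ≤ 1 := h2
      have h4 : ‖ψ (res γ b)‖ = ‖ψ b‖ := by
        have h5 : (res γ b) ^ t = b ^ t := by
          apply Subtype.ext
          rw [SubmonoidClass.coe_pow, SubmonoidClass.coe_pow, res_coe, ← map_pow, hbc]
          exact hγ
        have h6 := congrArg (fun x => ‖ψ x‖) h5
        simp only [map_pow, norm_pow] at h6
        exact (pow_left_inj₀ (norm_nonneg _) (norm_nonneg _) ht.ne').1 h6
      have h5 : ‖ψ (res γ y)‖ = ‖ψ y‖ := by
        rw [hy]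
        simp only [map_div₀, map_mul, map_pow, map_natCast, norm_div, norm_mul, norm_pow]
        rw [h4]
      rwa [h5] at h3
    · rw [hy, map_div₀, map_mul, map_pow, map_pow, map_pow, map_natCast, norm_div, norm_mul,
        norm_pow, norm_pow, norm_pow, norm_other hl, one_pow, one_pow, div_one, mul_one]
      exact pow_le_one₀ (norm_nonneg _) ((int_iff b).1 hbi l ψ)
  have h1 : IsIntegral ℤ (y : ℂ) := hyi.map (AA.val.restrictScalars ℤ)
  rwa [hyc] at h1

/-- The same over any field of coefficients. -/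
theorem nodiv {ι : Type} {D : ℕ} {S : ι → Set ℂ} (hS : IsUnitSystem c D S) {E : Type} [Field E]
    (τ : E →+* ℂ) {β : E} (hβ : IsIntegral ℤ β) {t : ℕ} (ht : 0 < t)
    (hdeg : (minpoly ℚ (τ β ^ t)).natDegree ≤ D)
    {I : Finset ι} {α : ι → E} (hα : ∀ i ∈ I, τ (α i) ∈ S i) (k : ι → ℕ) (r A B : ℕ)
    (h : IsIntegral ℤ ((∏ i ∈ I, α i ^ k i) * β ^ r * (c : E) ^ A / (c : E) ^ B)) :
    IsIntegral ℤ (β ^ r * (c : E) ^ A / (c : E) ^ B) := by
  have hinj : Function.Injective τ.toIntAlgHom := τ.injective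
  rw [← isIntegral_algHom_iff τ.toIntAlgHom hinj] at h ⊢
  change IsIntegral ℤ (τ _) at h
  change IsIntegral ℤ (τ _)
  simp only [map_div₀, map_mul, map_pow, map_prod, map_natCast] at h ⊢
  exact nodivC hS (hβ.map τ.toIntAlgHom) ht hdeg hα k r A B h

theorem exists_bc' {κ : Type} [Field κ] {N : ℕ} (hN : 0 < N) {s n : ℕ}
    {l : Fin s → Fin (n + 1) → κ} {a : Fin s → ℕ} {z : κ} {E T : Type} [Field E] [CharZero E]
    [AddCommGroup T] [Module E T] [FiniteDimensional E T] {Φ τ : Module.End E T}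
    (h : IsCov N l a z Φ τ) (σ : E →+* ℂ) :
    ∃ (T' : Type) (_ : AddCommGroup T') (_ : Module ℂ T') (_ : FiniteDimensional ℂ T')
      (Φ' τ' : Module.End ℂ T'), IsCov N l a z Φ' τ' ∧ Φ'.charpoly = Φ.charpoly.map σ := by
  let _ : Algebra E ℂ := σ.toAlgebra
  let B : Module.End E T →ₐ[E] Module.End ℂ (ℂ ⊗[E] T) := Module.End.baseChangeHom E ℂ T
  have hB : ∀ f : Module.End E T, B f = f.baseChange ℂ := fun f => rfl
  refine ⟨ℂ ⊗[E] T, inferInstance, inferInstance, inferInstance, B Φ, B τ, ⟨?_, ?_, ?_, ?_⟩, ?_⟩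
  · exact h.comm.map B
  · rw [← map_pow, h.order, map_one]
  · have hν : ∑ i ∈ range N, τ ^ i = 0 := by
      refine LinearMap.ext fun t => ?_
      refine h.inv _ ?_
      rw [← Module.End.mul_apply, mul_sum]
      have h1 : ∑ i ∈ range N, τ * τ ^ i = ∑ i ∈ range N, τ ^ i := by
        have h2 := sum_range_succ' (fun i => τ ^ i) N
        have h3 := sum_range_succ (fun i => τ ^ i) N
        rw [h3, h.order, pow_zero] at h2
        have h4 := add_right_cancel h2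
        rw [h4]
        exact sum_congr rfl fun i _ => (pow_succ' τ i).symm
      rw [h1]
    intro w hw
    have h1 : ∀ i : ℕ, ((B τ) ^ i) w = w := by
      intro i
      induction i with
      | zero => rw [pow_zero]; rfl
      | succ i ih => rw [pow_succ', Module.End.mul_apply, ih, hw]
    have h2 : (∑ i ∈ range N, (B τ) ^ i) w = (N : ℂ) • w := by
      rw [LinearMap.sum_apply, sum_congr rfl fun i _ => h1 i, sum_const, card_range,
        Nat.cast_smul_eq_nsmul]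
    have h3 : ∑ i ∈ range N, (B τ) ^ i = B (∑ i ∈ range N, τ ^ i) := by
      rw [map_sum]
      exact sum_congr rfl fun i _ => (map_pow B τ i).symm
    rw [h3, hν, map_zero, LinearMap.zero_apply] at h2
    exact (smul_eq_zero.1 h2.symm).resolve_left (by exact_mod_cast hN.ne')
  · intro L _ _ _ i
    have h2 : LinearMap.trace ℂ (ℂ ⊗[E] T) ((B Φ) ^ Module.finrank κ L * (B τ) ^ i) =
        σ (LinearMap.trace E T (Φ ^ Module.finrank κ L * τ ^ i)) := by
      rw [← map_pow, ← map_pow, ← map_mul, hB, LinearMap.trace_baseChange]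
      rfl
    have h0 := h.lef L i
    rw [h2]
    generalize LinearMap.trace E T (Φ ^ Module.finrank κ L * τ ^ i) = t at h0
    have h1 := congrArg σ h0
    simpa only [map_mul, map_sub, map_pow, map_neg, map_one, map_natCast] using h1
  · rw [hB, LinearMap.charpoly_baseChange]
    rfl

/-- The eigenvalues of the coverings. -/
theorem isUnitSystem_of {ι : Type} {N D : ℕ} (hN : 0 < N) {d n s : ι → ℕ}
    (hd : ∀ i, 2 ≤ d i) (hdN : ∀ i, d i ∣ N) (κ : ι → Type) [∀ i, Field (κ i)]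
    [∀ i, Fintype (κ i)] [∀ i, CharP (κ i) c] {f : ι → ℕ}
    (hf : ∀ i, Fintype.card (κ i) = c ^ f i) {z : ∀ i, κ i} (hz : ∀ i, IsPrimitiveRoot (z i) (d i))
    (l : ∀ i, Fin (s i) → Fin (n i + 1) → κ i) (a : ∀ i, Fin (s i) → ℕ)
    (ha : ∀ i k, (a i k).Coprime (d i)) (hunit : UnitB c f N D d s a) {E : Type} [Field E]
    [CharZero E] (σ : E →+* ℂ) {T : ι → Type} [∀ i, AddCommGroup (T i)] [∀ i, Module E (T i)]
    [∀ i, FiniteDimensional E (T i)] {Φ g : ∀ i, Module.End E (T i)}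
    (h : ∀ i, IsCov (d i) (l i) (a i) (z i) (Φ i) (g i))
    (hpure : ∀ i (α : ℂ), ((Φ i).charpoly.map σ).IsRoot α →
      ‖α‖ ^ 2 = (Fintype.card (κ i) : ℝ) ^ n i) :
    IsUnitSystem c D fun i => {α | ((Φ i).charpoly.map σ).IsRoot α} := by
  intro β' hβ' hdeg I α hα
  have h1 : ∀ i, ∃ (T' : Type) (_ : AddCommGroup T') (_ : Module ℂ T')
      (_ : FiniteDimensional ℂ T') (Φ' τ' : Module.End ℂ T'), IsCov (d i) (l i) (a i) (z i) Φ' τ' ∧
        Φ'.charpoly = (Φ i).charpoly.map σ :=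
    fun i => exists_bc' (by have := hd i; omega) (h i) σ
  choose T' i1 i2 i3 Φ' τ' h2 h3 using h1
  refine all_unit hN hd hdN κ hf hz l a ha h2 hunit hβ' hdeg (fun i hi => ?_)
    (fun i hi => hpure i _ (hα i hi))
  rw [Module.End.hasEigenvalue_iff_isRoot_charpoly, h3]
  exact hα i hi

end Run7.h306.GU
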