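import Pool.Agent.Run7.h306.TGDefs

/-!
# Products with cyclic coverings: definitions
-/

set_option autoImplicit false

open CategoryTheory AlgebraicGeometry
open scoped TensorProduct

namespace Run7.h306.TG

open Pool.Agent.H914 Pool.Agent.H914.VarClass Pool.Agent.H914.VarClass.Obj
  Pool.Agent.H914.WeilCohomology Pool.Agent.TH125.Gal

noncomputable section

/-- A cyclic covering `w ^ N = ∏ l_k (x) ^ a_k` of the projective space of dimension `n`, and a root of
unity `z`. -/
structure Covering (κ : Type) [Field κ] : Type where
  N : ℕ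
  n : ℕ
  s : ℕ
  l : Fin s → Fin (n + 1) → κ
  a : Fin s → ℕ
  z : κ

/-- `z` has order `N ≥ 2`, the exponents are prime to `N` and their sum is divisible by `N`. -/
structure Covering.IsAdmissible {κ : Type} [Field κ] (X : Covering κ) : Prop where
  two_le : 2 ≤ X.N
  root : IsPrimitiveRoot X.z X.N
  coprime : ∀ k, (X.a k).Coprime X.N
  dvd : X.N ∣ ∑ k, X.a k

/-- The value of the form `∏ l_k ^ a_k` at a vector with coordinates in `L`. -/
def Covering.value {κ : Type} [Field κ] (X : Covering κ) (L : Type) [Field L] [Algebra κ L]
    (x : Fin (X.n + 1) → L) : L :=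
  ∏ k, (∑ t, algebraMap κ L (X.l k t) * x t) ^ X.a k

/-- The number of vectors over `L` where the form is not zero. -/
def Covering.openCount {κ : Type} [Field κ] (X : Covering κ) (L : Type) [Field L]
    [Algebra κ L] : ℕ :=
  Set.ncard {x : Fin (X.n + 1) → L | X.value L x ≠ 0}

/-- The number of vectors over `L` where the form is not zero and its power with the exponent
`(|L| - 1) / N` is `z ^ i`. -/
def Covering.fixCount {κ : Type} [Field κ] (X : Covering κ) (L : Type) [Field L]
    [Fintype L] [Algebra κ L] (i : ℕ) : ℕ :=
  Set.ncard {x : Fin (X.n + 1) → L | X.value L x ≠ 0 ∧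
    (X.value L x) ^ ((Fintype.card L - 1) / X.N) = algebraMap κ L X.z ^ i}

/-- `T` is the part without invariants of the cohomology of degree `n` of a smooth projective model
of the covering, with coefficients in `K`, with the Frobenius `Φ` and the generator `g` of the
covering group. The trace of `Φ ^ [L : κ] g ^ i` is up to the sign the difference of the number of
fixed points over the open set `∏ l_k ≠ 0` of projective space (`N` points over each point where
the form has the power residue symbol `z ^ i`) and of the number of the points of this open set. -/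
structure IsCyclicCovering {κ : Type} [Field κ] (X : Covering κ) {K : Type} [Field K] {T : Type}
    [AddCommGroup T] [Module K T] (Φ g : Module.End K T) : Prop where
  commute : Commute Φ g
  order : g ^ X.N = 1
  invariants : ∀ w, g w = w → w = 0
  lefschetz : ∀ (L : Type) [Field L] [Fintype L] [Algebra κ L] (i : ℕ),
    ((Fintype.card L : K) - 1) *
        ((-1) ^ X.n * LinearMap.trace K T (Φ ^ Module.finrank κ L * g ^ i)) =
      (X.N : K) * (X.fixCount L i : K) - (X.openCount L : K)

/-- The condition for the degree `N` and the exponents: for a `k₀` and a number `r < n / 2 + 1` and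
all divisors `m > 1` of `N` one has `2 S D τ(m) ^ 2 (1 + log m) ≤ r √m`, where `S` is the sum of the
exponents `a_k`, `k ≠ k₀`, and `τ(m)` is the number of the divisors of `m`. -/
def Covering.IsLarge {κ : Type} [Field κ] (X : Covering κ) (D : ℕ) : Prop :=
  ∃ (k₀ : Fin X.s) (r : ℕ), 2 * r < X.n + 2 ∧ ∀ m, m ∣ X.N → 1 < m →
    2 * ((∑ k ∈ Finset.univ.erase k₀, X.a k : ℕ) : ℝ) * D *
      (m.divisors.card ^ 2 * (1 + Real.log m)) ≤ r * Real.sqrt m

/-- The mean over `j, c j, …, c ^ (f - 1) j` of the sum of the fractional parts of `j a_k / N`. -/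
def Covering.weight {κ : Type} [Field κ] (X : Covering κ) (c f j : ℕ) : ℚ :=
  (∑ k, ∑ t ∈ Finset.range f, (((j * X.a k * c ^ t) % X.N : ℕ) : ℚ)) / (f * X.N)

/-- The general condition on the exponents, for a common multiple `N` of the degrees: for every
subgroup `H` of index at most `D` of `(ℤ / N)ˣ`, every nonempty set `I` of indices and all `j i` not
divisible by the degrees, `i ∈ I`, there is a `u` in `H` such that the sum of the weights of
`u j i` is smaller than the sum of the numbers `n_i / 2 + 1`. -/
def AreSmall {κ : Type} [Field κ] {ι : Type} (X : ι → Covering κ) (c f N D : ℕ) : Prop :=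
  ∀ H : Subgroup (ZMod N)ˣ, H.index ≤ D → ∀ I : Finset ι, I.Nonempty → ∀ j : ι → ℕ,
    (∀ i ∈ I, ¬ (X i).N ∣ j i) → ∃ u ∈ H,
      ∑ i ∈ I, (X i).weight c f ((((u : (ZMod N)ˣ) : ZMod N).val) * j i) <
        ∑ i ∈ I, (((X i).n : ℚ) / 2 + 1)

section alg

variable {K A : Type} [Field K] [Ring A] [Algebra K A] {Γ : Type} [Group Γ]

/-- The subspace `T` is stable under the operator `Φ` and it is the part without invariants of the
cohomology of degree `n` of the covering `X`, where `Φ` is the Frobenius; the eigenvalues of `Φ` on
`T` have the absolute value `q ^ (n / 2)`. -/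
def IsCoveringPart (σ : K ≃+* ℂ) {κ : Type} [Field κ] [Fintype κ] (X : Covering κ)
    (Φ : Module.End K A) (T : Submodule K A) : Prop :=
  ∃ (hT : ∀ t ∈ T, Φ t ∈ T) (g : Module.End K T), IsCyclicCovering X (Φ.restrict hT) g ∧
    ∀ α, Module.End.HasEigenvalue (Φ.restrict hT) α →
      ‖σ α‖ ^ 2 = (Fintype.card κ : ℝ) ^ X.n

/-- The algebra `A` with the operation `ρ` of the Frobenius element `F` is the cohomology of a model
of the cyclic covering `X`, `P` is the subspace generated by the classes of algebraic cycles: `A` is
the sum of `P` and of a subspace `T` with the property `IsCoveringPart`. -/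
def IsCoveringCohomology (σ : K ≃+* ℂ) {κ : Type} [Field κ] [Fintype κ] (X : Covering κ)
    (P : Submodule K A) (ρ : Γ →* (A ≃ₐ[K] A)) (F : Γ) : Prop :=
  (1 : A) ≠ 0 ∧ ∃ T : Submodule K A, P ⊔ T = ⊤ ∧ IsCoveringPart σ X (ρ F).toLinearMap T

/-- The eigenvalues of `F` on `A` are algebraic numbers, their absolute values are integral powers of
`√q`, and some positive power of each of them has at most the degree `D` over `ℚ`. -/
def HasEigenvaluesOfDegree (σ : K ≃+* ℂ) (ρ : Γ →* (A ≃ₐ[K] A)) (F : Γ) (q D : ℕ) : Prop :=
  ∀ β : K, Module.End.HasEigenvalue (ρ F).toLinearMap β → IsAlgebraic ℚ (σ β) ∧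
    (∃ j : ℕ, ‖σ β‖ ^ 2 = (q : ℝ) ^ j) ∧
      ∃ t : ℕ, 0 < t ∧ (minpoly ℚ (σ β ^ t)).natDegree ≤ D

end alg

variable {k : Type} [Field k] {𝒱 : VarClass k} {ops : CycleOps 𝒱}
  {W : WeilCohomology.{0, 0} ops} {Γ : Type} [Group Γ]

/-- `V` is a variety over the finitely generated field, with good reduction at a place with the
residue field `κ` and the Frobenius element `F`, where it is a model of the cyclic covering `X`, see
`IsCoveringCohomology`. -/
def IsCoveringVariety (σ : W.K ≃+* ℂ) (F : Γ) {κ : Type} [Field κ] [Fintype κ] (X : Covering κ)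
    (V : GVar W Γ) : Prop :=
  IsCoveringCohomology σ X (Submodule.span W.K (⋃ j, algClasses W V.X j)) V.act F

/-- The eigenvalues of the Frobenius element `F` on the cohomology of `Z` are algebraic numbers, their
absolute values are integral powers of `√q` (`q` is the number of elements of the residue field),
and some positive power of each of them has at most the degree `D` over `ℚ`. By the theorems of
Deligne the last condition is true if all Betti numbers of `Z` are at most `D`. -/
def IsOfDegree (σ : W.K ≃+* ℂ) (F : Γ) (q D : ℕ) (Z : GVar W Γ) : Prop :=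
  HasEigenvaluesOfDegree σ Z.act F q D

/-- `Y = X_{i_1} × (X_{i_2} × ( ⋯ × Z))` with pairwise different indices; `S` is the set of the
indices. -/
inductive IsTower {ι : Type} (X : ι → GVar W Γ) (Z : GVar W Γ) : Set ι → GVar W Γ → Prop
  | base : IsTower X Z ∅ Z
  | step {S Y Y'} (i : ι) : IsTower X Z S Y → i ∉ S → TF.IsProduct (X i) Y Y' →
      IsTower X Z (insert i S) Y'

end

end Run7.h306.TG
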