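import Pool.Agent.N204.GT.Defs
import Pool.Agent.Run7.h306.TGDefs2

/-!
# The generalized Tate conjecture for products with cyclic coverings: definitions

`W` is a Weil cohomology theory and `Φ` is a system of Frobenius endomorphisms
(`Pool.Agent.W534.FrobSystem`); in the intended use `W` is the `l`-adic cohomology of the smooth
projective varieties over an algebraic closure of the field with `p` elements. The coverings
(`Run7.h306.TG.Covering`) and their cohomology (`Run7.h306.TG.IsCyclicCovering`) are defined in
`Pool/Agent/Run7/h306/TGDefs2.lean`, the conjecture `GTC` in `Pool/Agent/N204/GT/Defs.lean`.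
-/

set_option autoImplicit false

open CategoryTheory AlgebraicGeometry

namespace Run7.h306.GU

open Pool.Agent.H914 Pool.Agent.H914.VarClass Pool.Agent.H914.VarClass.Obj
  Pool.Agent.H914.WeilCohomology Pool.Agent.W534 Pool.Agent.R940 Pool.Agent.N204.GT

noncomputable section

section alg

variable {K A : Type} [Field K] [AddCommGroup A] [Module K A] [FiniteDimensional K A]
  {κ : Type} [Field κ] [Fintype κ]

/-- The subspace `T` is stable under the operator `F` and it is the part without invariants of the
cohomology of degree `n` of the covering `X`, where `F` is the Frobenius; the eigenvalues of `F` on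
`T` have the absolute value `q ^ (n / 2)`. -/
def IsCoveringPart (σ : K →+* ℂ) (X : TG.Covering κ) (F : Module.End K A) (T : Submodule K A) :
    Prop :=
  ∃ (hT : ∀ t ∈ T, F t ∈ T) (g : Module.End K T), TG.IsCyclicCovering X (F.restrict hT) g ∧
    ∀ α : ℂ, ((F.restrict hT).charpoly.map σ).IsRoot α → ‖α‖ ^ 2 = (Fintype.card κ : ℝ) ^ X.n

/-- The space `A` with the operator `F` is the cohomology of a model of the cyclic covering `X`, `P` is
the subspace generated by the classes of algebraic cycles: `A` is the sum of `P` and of a subspace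
`T` with the property `IsCoveringPart`. -/
def IsCoveringCohomology (σ : K →+* ℂ) (X : TG.Covering κ) (P : Submodule K A)
    (F : Module.End K A) : Prop :=
  ∃ T : Submodule K A, P ⊔ T = ⊤ ∧ IsCoveringPart σ X F T

end alg

variable {k : Type} [Field k] {𝒱 : VarClass k} {ops : CycleOps 𝒱}
  {W : WeilCohomology.{0, 0} ops} {p : ℕ}

/-- The subspace of the cohomology of `V` generated by the classes of algebraic cycles. -/
def algebraicPart (W : WeilCohomology.{0, 0} ops) (V : 𝒱.Obj) : Subspace W V :=
  Submodule.span W.K {x | ∃ j, IsCycleClass W V j x}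

/-- `V` has a model over the finite field `κ` which is a model of the cyclic covering `X`, see
`IsCoveringCohomology`. -/
def IsCoveringVariety (Φ : FrobSystem W p) (σ : W.K →+* ℂ) {κ : Type} [Field κ] [Fintype κ]
    (X : TG.Covering κ) (V : 𝒱.Obj) : Prop :=
  ∃ s : ℕ, 0 < s ∧ card Φ V s = Fintype.card κ ∧
    IsCoveringCohomology σ X (algebraicPart W V) (frobenius Φ V s)

/-- Some positive power of each Frobenius eigenvalue of `Z` has at most the degree `D` over `ℚ`. -/
def HasEigenvaluesOfDegree (Φ : FrobSystem W p) (σ : W.K →+* ℂ) (D : ℕ) (Z : 𝒱.Obj) : Prop :=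
  ∀ (i : ℕ) (β : ℂ), (frobPoly Φ σ Z 1 i).IsRoot β →
    ∃ t : ℕ, 0 < t ∧ (minpoly ℚ (β ^ t)).natDegree ≤ D

/-- The product `V i₁ × (V i₂ × (⋯ × Z))`. -/
def productOf {ι : Type} (V : ι → 𝒱.Obj) (Z : 𝒱.Obj) : List ι → 𝒱.Obj
  | [] => Z
  | i :: L => (V i).prod (productOf V Z L)

/-- `Z` has dimension at most one, or `Z` is a surface such that the Tate conjecture and the
semisimplicity of Frobenius are true for `Z` and the class of a divisor `E` (of positive
self-intersection number) satisfies the hard Lefschetz theorem `E H^1(Z) = H^3(Z)`. -/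
def IsCurveOrTateSurface (Φ : FrobSystem W p) (Z : 𝒱.Obj) : Prop :=
  ∃ E : Z.Cycles, Z.IsCyc 1 E ∧ Pool.Agent.Y163.Big ops Z E ∧ Z.dim ≤ 2 ∧
    (Z.dim = 2 → SemisimpleTate Φ Z ∧ ∀ x : W.H Z, Mem (W.gr Z 3) x → ∃ y, x = W.cl Z E * y)

/-- The generalized Tate conjecture for the products of `Z` with different `V i` is equivalent to the
one for `Z`, and it is true if `Z` is a curve or a surface with `IsCurveOrTateSurface`. -/
def GTCForProducts {ι : Type} (Φ : FrobSystem W p) (V : ι → 𝒱.Obj) (Z : 𝒱.Obj) : Prop :=
  ∀ L : List ι, L.Nodup → (GTC Φ (productOf V Z L) ↔ GTC Φ Z) ∧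
    (IsCurveOrTateSurface Φ Z → GTC Φ (productOf V Z L))

/-- The general condition on the exponents, for a common multiple `N` of the degrees: for every
subgroup `H` of index at most `D` of `(ℤ / N)ˣ`, every finite set `I` of indices and all `j i` not
divisible by the degrees, `i ∈ I`, there is a `u` in `H` such that all the weights of `u j i` are
one. The field `κ i` has `p ^ f i` elements. -/
def HaveWeightsOne {ι : Type} {κ : ι → Type} [∀ i, Field (κ i)] (X : ∀ i, TG.Covering (κ i))
    (p : ℕ) (f : ι → ℕ) (N D : ℕ) : Prop :=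
  ∀ H : Subgroup (ZMod N)ˣ, H.index ≤ D → ∀ (I : Finset ι) (j : ι → ℕ),
    (∀ i ∈ I, ¬ (X i).N ∣ j i) → ∃ u ∈ H, ∀ i ∈ I,
      (X i).weight p (f i) ((((u : (ZMod N)ˣ) : ZMod N).val) * j i) = 1

/-- The explicit condition for the degree `N` and the exponents: for a `k₀` and all divisors `m > 1`
of `N` one has `2 S D τ(m) ^ 2 (1 + log m) ≤ √m`, where `S` is the sum of the exponents `a_k`,
`k ≠ k₀`, and `τ(m)` is the number of the divisors of `m`. -/
def IsVeryLarge {κ : Type} [Field κ] (X : TG.Covering κ) (D : ℕ) : Prop :=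
  ∃ k₀ : Fin X.s, ∀ m, m ∣ X.N → 1 < m →
    2 * ((∑ k ∈ Finset.univ.erase k₀, X.a k : ℕ) : ℝ) * D *
      (m.divisors.card ^ 2 * (1 + Real.log m)) ≤ Real.sqrt m

end

end Run7.h306.GU
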