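import Pool.Agent.Run7.h306.GU3
import Pool.Agent.Run7.h306.GUDefs
import Pool.Agent.N204.GT.Fin

/-!
# The coniveau of generalised Frobenius eigenvectors on products
-/

set_option autoImplicit false
set_option linter.unusedSectionVars false

open CategoryTheory AlgebraicGeometry CategoryTheory.Limits

namespace Run7.h306.GU

open Pool.Agent.H914 Pool.Agent.H447 Pool.Agent.W534 Pool.Agent.Y163 VarClass Obj WeilCohomology
  Module Polynomial
open Pool.Agent.R940 Pool.Agent.N204.GT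
open Pool.Agent.N204.GH (cv push_cv ext_cv cv_anti push_mem_cv)

variable {k : Type} [Field k] {𝒱 : VarClass k} {ops : CycleOps 𝒱}
  {W : WeilCohomology.{0, 0} ops} {V Y Y' Z : 𝒱.Obj} {p : ℕ} [hp : Fact p.Prime]
  {Φ : FrobSystem W p}

/-- `x` is a generalised eigenvector of the Frobenius over the field with `p ^ m` elements. -/
def Egen (Φ : FrobSystem W p) (Y : 𝒱.Obj) (m : ℕ) (γ : W.K) (x : W.H Y) : Prop :=
  ∃ s, 0 < s ∧ Φ.e Y * s = m ∧ x ∈ (frob Φ Y s).maxGenEigenspace γ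

lemma Egen.pos {m : ℕ} {γ : W.K} {x : W.H Y} (h : Egen Φ Y m γ x) : 0 < m := by
  obtain ⟨s, hs, rfl, _⟩ := h
  exact Nat.mul_pos (Φ.e_pos Y) hs

lemma Egen.pow {m : ℕ} {γ : W.K} {x : W.H Y} (h : Egen Φ Y m γ x) {r : ℕ} (hr : 0 < r) :
    Egen Φ Y (m * r) (γ ^ r) x := by
  obtain ⟨s, hs, rfl, hx⟩ := h
  refine ⟨s * r, Nat.mul_pos hs hr, by rw [mul_assoc], ?_⟩
  rw [frob_mul_eq]
  exact gen_mono _ _ r hx

lemma Egen.map {m : ℕ} {γ : W.K} {x : W.H Y} (h : Egen Φ Y m γ x) (f : Y' ⟶ Y) :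
    ∃ r, 0 < r ∧ Egen Φ Y' (m * r) (γ ^ r) (W.map f x) := by
  obtain ⟨s, hs, rfl, hx⟩ := h
  obtain ⟨a, b, ha, hb, hab, h1⟩ := frob_comm (W := W) Φ f
  refine ⟨b, hb, a * s, Nat.mul_pos ha hs, ?_, ?_⟩
  · calc Φ.e Y' * (a * s) = (a * Φ.e Y') * s := by ring
      _ = (b * Φ.e Y) * s := by rw [hab]
      _ = Φ.e Y * s * b := by ring
  · refine gen_semi (f := frob Φ Y (b * s)) (θ := (W.map f).toLinearMap) (fun y => h1 s y) ?_
    rw [mul_comm b s, frob_mul_eq]
    exact gen_mono _ _ b hx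

lemma Egen.mul {m : ℕ} {γ δ : W.K} {x y : W.H Y} (hx : Egen Φ Y m γ x) (hy : Egen Φ Y m δ y) :
    Egen Φ Y m (γ * δ) (x * y) := by
  obtain ⟨s, hs, hsm, hx⟩ := hx
  obtain ⟨s', hs', hsm', hy⟩ := hy
  have h1 : s = s' := Nat.eq_of_mul_eq_mul_left (Φ.e_pos Y) (hsm.trans hsm'.symm)
  subst h1
  exact ⟨s, hs, hsm, gen_bilin (β := LinearMap.mul W.K (W.H Y))
    (fun a b => (frob_mul' Φ _ a b).symm) hx hy⟩

/-- Exterior products of generalised eigenvectors. -/
lemma Egen.ext {m M : ℕ} {α γ : W.K} {x : W.H V} {y : W.H Y} (hx : Egen Φ V m α x)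
    (hy : Egen Φ Y M γ y) : ∃ R T, 0 < R ∧ 0 < T ∧ m * R = M * T ∧
      Egen Φ (V.prod Y) (M * T) (α ^ R * γ ^ T) (W.map (fst V Y) x * W.map (snd V Y) y) := by
  obtain ⟨r, hr, h1⟩ := hx.map (fst V Y)
  obtain ⟨t, ht, h2⟩ := hy.map (snd V Y)
  refine ⟨r * (M * t), t * (m * r), Nat.mul_pos hr (Nat.mul_pos hy.pos ht),
    Nat.mul_pos ht (Nat.mul_pos hx.pos hr), by ring, ?_⟩
  have h3 := h1.pow (Nat.mul_pos hy.pos ht)
  have h4 := h2.pow (Nat.mul_pos hx.pos hr)
  rw [show m * r * (M * t) = M * (t * (m * r)) by ring, ← pow_mul] at h3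
  rw [show M * t * (m * r) = M * (t * (m * r)) by ring, ← pow_mul] at h4
  exact h3.mul h4

lemma cv_zero (Y : 𝒱.Obj) (x : W.H Y) : x ∈ cv W 0 Y := by
  have h1 := push_mem_cv (W := W) (j := 0) (𝟙 Y) (by omega) x
  rwa [W.push_id] at h1

/-- The good classes on a tower: their Frobenius eigenvalues are products of elements `α i` of the sets
`S i`, for different `i` in `L`, of an element `β` of `B`, and of a power of `p`; they have the
coniveau predicted by `β` and the power of `p`. -/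
def Good {ι : Type} (Φ : FrobSystem W p) (f : ι → ℕ) (S : ι → Set W.K) (B : Set W.K) (e₀ : ℕ)
    (L : Set ι) (Y : 𝒱.Obj) (y : W.H Y) : Prop :=
  ∃ (M : ℕ) (I : Finset ι) (α : ι → W.K) (k : ι → ℕ) (β : W.K) (r e : ℕ),
    (∀ i ∈ I, i ∈ L ∧ α i ∈ S i ∧ f i * k i = M) ∧ β ∈ B ∧ e₀ * r = M ∧ 0 < r ∧
    Egen Φ Y M ((∏ i ∈ I, α i ^ k i) * β ^ r * (p : W.K) ^ (M * e)) y ∧
    ∀ ν, IsIntegral ℤ (β ^ r * (p : W.K) ^ (M * e) / (p : W.K) ^ (M * ν)) → y ∈ cv W ν Y

variable {ι : Type} {f : ι → ℕ} {S : ι → Set W.K} {B : Set W.K} {e₀ : ℕ} {L : Set ι}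

/-- Products with classes of cycles. -/
lemma Good.alg {y : W.H Y} (hy : Good Φ f S B e₀ L Y y) {m a : ℕ} {x : W.H V}
    (hx : Egen Φ V m ((p : W.K) ^ (m * a)) x) (hxc : x ∈ cv W a V) :
    Good Φ f S B e₀ L (V.prod Y) (W.map (fst V Y) x * W.map (snd V Y) y) := by
  have hpK : (p : W.K) ≠ 0 := Nat.cast_ne_zero.2 hp.out.ne_zero
  obtain ⟨M, I, α, k, β, r, e, h1, hβ, h2, hr, h3, h4⟩ := hy
  obtain ⟨R, T, hR, hT, hRT, h5⟩ := hx.ext h3
  refine ⟨M * T, I, α, fun i => k i * T, β, r * T, e + a, fun i hi => ⟨(h1 i hi).1, (h1 i hi).2.1,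
    by rw [← mul_assoc, (h1 i hi).2.2]⟩, hβ, by rw [← mul_assoc, h2], Nat.mul_pos hr hT, ?_, ?_⟩
  · have e1 : ((p : W.K) ^ (m * a)) ^ R *
        ((∏ i ∈ I, α i ^ k i) * β ^ r * (p : W.K) ^ (M * e)) ^ T =
        (∏ i ∈ I, α i ^ (k i * T)) * β ^ (r * T) * (p : W.K) ^ (M * T * (e + a)) := by
      have e2 : ((p : W.K) ^ (m * a)) ^ R = (p : W.K) ^ (M * T * a) := by
        rw [← pow_mul]
        congr 1
        calc m * a * R = (m * R) * a := by ring
          _ = M * T * a := by rw [hRT]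
      rw [e2, mul_pow, mul_pow, ← Finset.prod_pow, ← pow_mul, ← pow_mul,
        Finset.prod_congr rfl fun i _ => (pow_mul (α i) (k i) T).symm, mul_add, pow_add,
        show M * e * T = M * T * e by ring]
      ring
    rw [← e1]
    exact h5
  · intro ν hν
    rcases Nat.lt_or_ge ν a with hlt | hge
    · have h6 := ext_cv hxc (cv_zero Y y)
      exact cv_anti (by omega) h6
    · obtain ⟨c, rfl⟩ := Nat.exists_eq_add_of_le hge
      have h6 : y ∈ cv W c Y := by
        apply h4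
        refine IsIntegral.of_pow hT ?_
        have e1 : (β ^ r * (p : W.K) ^ (M * e) / (p : W.K) ^ (M * c)) ^ T =
            β ^ (r * T) * (p : W.K) ^ (M * T * (e + a)) / (p : W.K) ^ (M * T * (a + c)) := by
          rw [div_pow, mul_pow, ← pow_mul, ← pow_mul, ← pow_mul,
            div_eq_div_iff (pow_ne_zero _ hpK) (pow_ne_zero _ hpK), mul_assoc (β ^ (r * T)),
            mul_assoc (β ^ (r * T)), ← pow_add, ← pow_add]
          congr 2
          ring
        rw [e1]
        exact hν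
      exact ext_cv hxc h6

/-- Products with the other classes. -/
lemma Good.new {y : W.H Y} (hy : Good Φ f S B e₀ L Y y) {i : ι} (hi : i ∉ L) {α' : W.K}
    (hα' : α' ∈ S i) {x : W.H V} (hx : Egen Φ V (f i) α' x) :
    Good Φ f S B e₀ (insert i L) (V.prod Y) (W.map (fst V Y) x * W.map (snd V Y) y) := by
  classical
  have hpK : (p : W.K) ≠ 0 := Nat.cast_ne_zero.2 hp.out.ne_zero
  obtain ⟨M, I, α, k, β, r, e, h1, hβ, h2, hr, h3, h4⟩ := hy
  obtain ⟨R, T, hR, hT, hRT, h5⟩ := hx.ext h3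
  have hiI : i ∉ I := fun h => hi (h1 i h).1
  refine ⟨M * T, insert i I, Function.update α i α', Function.update (fun i => k i * T) i R, β,
    r * T, e, fun j hj => ?_, hβ, by rw [← mul_assoc, h2], Nat.mul_pos hr hT, ?_, ?_⟩
  · by_cases hji : j = i
    · subst hji
      refine ⟨Set.mem_insert _ _, ?_, ?_⟩
      · rw [Function.update_self]; exact hα'
      · rw [Function.update_self]; exact hRT
    · have hjI : j ∈ I := (Finset.mem_insert.1 hj).resolve_left hji
      refine ⟨Set.mem_insert_of_mem _ (h1 j hjI).1, ?_, ?_⟩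
      · rw [Function.update_of_ne hji]; exact (h1 j hjI).2.1
      · rw [Function.update_of_ne hji, ← mul_assoc, (h1 j hjI).2.2]
  · have e1 : α' ^ R * ((∏ i ∈ I, α i ^ k i) * β ^ r * (p : W.K) ^ (M * e)) ^ T =
        (∏ j ∈ insert i I, (Function.update α i α') j ^
          (Function.update (fun i => k i * T) i R) j) * β ^ (r * T) *
            (p : W.K) ^ (M * T * e) := by
      rw [Finset.prod_insert hiI, Function.update_self, Function.update_self]
      have e2 : ∏ j ∈ I, (Function.update α i α') j ^ (Function.update (fun i => k i * T) i R) j =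
          ∏ j ∈ I, α j ^ (k j * T) := by
        refine Finset.prod_congr rfl fun j hj => ?_
        have hji : j ≠ i := fun h => hiI (h ▸ hj)
        rw [Function.update_of_ne hji, Function.update_of_ne hji]
      rw [e2, mul_pow, mul_pow, ← Finset.prod_pow, ← pow_mul, ← pow_mul,
        Finset.prod_congr rfl fun i _ => (pow_mul (α i) (k i) T).symm,
        show M * e * T = M * T * e by ring]
      ring
    rw [← e1]
    exact h5
  · intro ν hν
    have h6 : y ∈ cv W ν Y := by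
      apply h4
      refine IsIntegral.of_pow hT ?_
      have e1 : (β ^ r * (p : W.K) ^ (M * e) / (p : W.K) ^ (M * ν)) ^ T =
          β ^ (r * T) * (p : W.K) ^ (M * T * e) / (p : W.K) ^ (M * T * ν) := by
        rw [div_pow, mul_pow, ← pow_mul, ← pow_mul, ← pow_mul,
          show M * e * T = M * T * e by ring, show M * ν * T = M * T * ν by ring]
      rw [e1]
      exact hν
    have h7 := ext_cv (cv_zero V x) h6
    rwa [zero_add] at h7

/-- Good classes span the cohomology of a product. -/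
lemma span_prod {G : Set (W.H V)} {G' : Set (W.H Y)} {G'' : Set (W.H (V.prod Y))}
    (h : Submodule.span W.K G = ⊤) (h' : Submodule.span W.K G' = ⊤)
    (h'' : ∀ x ∈ G, ∀ y ∈ G', W.map (fst V Y) x * W.map (snd V Y) y ∈ G'') :
    Submodule.span W.K G'' = ⊤ := by
  rw [eq_top_iff]
  rintro c -
  refine W.kunneth_induction (p := fun c => c ∈ Submodule.span W.K G'') ?_ ?_ c
  · intro a b ha hb
    exact Submodule.add_mem _ ha hb
  · intro _ _ x hx0 y hy0
    clear hx0 hy0
    have hx : x ∈ Submodule.span W.K G := by rw [h]; trivial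
    have hy : y ∈ Submodule.span W.K G' := by rw [h']; trivial
    induction hx using Submodule.span_induction with
    | zero => rw [map_zero, zero_mul]; exact Submodule.zero_mem _
    | add a b _ _ ha hb => rw [map_add, add_mul]; exact Submodule.add_mem _ ha hb
    | smul c a _ ha => rw [map_smul, smul_mul_assoc]; exact Submodule.smul_mem _ _ ha
    | mem x hx =>
      induction hy using Submodule.span_induction with
      | zero => rw [map_zero, mul_zero]; exact Submodule.zero_mem _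
      | add a b _ _ ha hb => rw [map_add, mul_add]; exact Submodule.add_mem _ ha hb
      | smul c a _ ha => rw [map_smul, mul_smul_comm]; exact Submodule.smul_mem _ _ ha
      | mem y hy => exact Submodule.subset_span (h'' x hx y hy)

/-- The classes on a covering. -/
def Spanned (Φ : FrobSystem W p) (V : 𝒱.Obj) (m : ℕ) (S : Set W.K) : Prop :=
  Submodule.span W.K {x | (∃ n a, Egen Φ V n ((p : W.K) ^ (n * a)) x ∧ x ∈ cv W a V) ∨
    ∃ α ∈ S, Egen Φ V m α x} = ⊤

lemma good_step {i : ι} (hi : i ∉ L) (hV : Spanned Φ V (f i) (S i))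
    (hY : Submodule.span W.K {y | Good Φ f S B e₀ L Y y} = ⊤) :
    Submodule.span W.K {y | Good Φ f S B e₀ (insert i L) (V.prod Y) y} = ⊤ := by
  refine span_prod hV hY ?_
  rintro x (⟨n, a, h1, h2⟩ | ⟨α, hα, h1⟩) y hy
  · obtain ⟨M, I, α, k, β, r, e, h3, h4⟩ := hy.alg h1 h2
    exact ⟨M, I, α, k, β, r, e, fun i hi => ⟨Set.mem_insert_of_mem _ (h3 i hi).1, (h3 i hi).2⟩, h4⟩
  · exact hy.new hi hα h1

end Run7.h306.GU
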