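import Pool.Agent.Run7.h306.GU4

/-!
# The generalized Tate conjecture for towers
-/

set_option autoImplicit false
set_option linter.unusedSectionVars false

open CategoryTheory AlgebraicGeometry CategoryTheory.Limits

namespace Run7.h306.GU

open Pool.Agent.H914 Pool.Agent.H447 Pool.Agent.W534 Pool.Agent.Y163 VarClass Obj WeilCohomology
  Module Polynomial
open Pool.Agent.R940 Pool.Agent.N204.GT
open Pool.Agent.N204.GH (cv push_cv ext_cv cv_anti push_mem_cv)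

variable {k : Type} [Field k] {𝒱 : VarClass k} {ops : CycleOps 𝒱}
  {W : WeilCohomology.{0, 0} ops} {V Y Y' Z : 𝒱.Obj} {p : ℕ} [hp : Fact p.Prime]
  {Φ : FrobSystem W p} {ι : Type} {f : ι → ℕ} {S : ι → Set W.K} {B : Set W.K} {e₀ : ℕ} {L : Set ι}

/-- Divisibilities of products come from the last factor. -/
def NoDiv (p : ℕ) {E : Type} [Field E] {ι : Type} (S : ι → Set E) (B : Set E) : Prop :=
  ∀ (I : Finset ι) (α : ι → E) (k : ι → ℕ) (β : E) (r A C : ℕ), (∀ i ∈ I, α i ∈ S i) → β ∈ B →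
    IsIntegral ℤ ((∏ i ∈ I, α i ^ k i) * β ^ r * (p : E) ^ A / (p : E) ^ C) →
      IsIntegral ℤ (β ^ r * (p : E) ^ A / (p : E) ^ C)

/-- **The generalized Tate conjecture if good classes span.** -/
theorem gc_of_good (hS : NoDiv p S B)
    (hY : Submodule.span W.K {y | Good Φ f S B e₀ L Y y} = ⊤) : GC Φ Y := by
  classical
  have hpK : (p : W.K) ≠ 0 := Nat.cast_ne_zero.2 hp.out.ne_zero
  intro i ν x hx
  obtain ⟨s, α₀, hs, hα₀, hE, -⟩ := hx
  let b := Module.Basis.ofSpan hY.ge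
  have hfin : Finite _ := Module.Finite.finite_basis b
  have hft := Fintype.ofFinite ((linearIndepOn_empty W.K (id : W.H Y → W.H Y)).extend
    (Set.empty_subset {y | Good Φ f S B e₀ L Y y}))
  have hb : ∀ j, Good Φ f S B e₀ L Y (b j) := fun j =>
    Module.Basis.ofSpan_subset hY.ge ⟨j, rfl⟩
  choose M I α kk β r e h1 h2 h3 h4 h5 h6 using hb
  have hMpos : ∀ j, 0 < M j := fun j => (h5 j).pos
  obtain ⟨Q, hQ⟩ : ∃ Q, Q = ∏ j, M j := ⟨_, rfl⟩
  have hQ0 : 0 < Q := by rw [hQ]; exact Finset.prod_pos fun j _ => hMpos j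
  have hdiv : ∀ j, ∃ t, 0 < t ∧ M j * t = Φ.e Y * s * Q := by
    intro j
    obtain ⟨c, hc⟩ : M j ∣ Φ.e Y * s * Q := by
      rw [hQ]
      exact (Finset.dvd_prod_of_mem M (Finset.mem_univ j)).mul_left _
    refine ⟨c, Nat.pos_of_ne_zero ?_, hc.symm⟩
    rintro rfl
    rw [mul_zero] at hc
    exact (Nat.mul_pos (Nat.mul_pos (Φ.e_pos Y) hs) hQ0).ne' hc
  choose t ht hMt using hdiv
  have hmem : ∀ j, b j ∈ (frob Φ Y (s * Q)).maxGenEigenspace
      (((∏ i ∈ I j, α j i ^ kk j i) * β j ^ r j * (p : W.K) ^ (M j * e j)) ^ t j) := by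
    intro j
    obtain ⟨s', _, hs', h7⟩ := (h5 j).pow (ht j)
    rw [hMt j, mul_assoc] at hs'
    rw [Nat.eq_of_mul_eq_mul_left (Φ.e_pos Y) hs'] at h7
    exact h7
  have hxm : x ∈ (frob Φ Y (s * Q)).maxGenEigenspace (α₀ ^ Q) := by
    rw [frob_mul_eq]
    exact gen_mono _ _ Q hE
  rw [← b.sum_repr x]
  refine Submodule.sum_mem _ fun j _ => ?_
  by_cases h0 : b.repr x j = 0
  · rw [h0, zero_smul]; exact Submodule.zero_mem _
  refine Submodule.smul_mem _ _ ?_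
  have hEq : ((∏ i ∈ I j, α j i ^ kk j i) * β j ^ r j * (p : W.K) ^ (M j * e j)) ^ t j =
      α₀ ^ Q := by
    by_contra hne
    exact h0 (repr_zero (Module.End.independent_maxGenEigenspace (frob Φ Y (s * Q))) b
      (fun j => ((∏ i ∈ I j, α j i ^ kk j i) * β j ^ r j * (p : W.K) ^ (M j * e j)) ^ t j)
      hmem hxm hne)
  refine h6 j ν (IsIntegral.of_pow (ht j) ?_)
  have e1 : (β j ^ r j * (p : W.K) ^ (M j * e j) / (p : W.K) ^ (M j * ν)) ^ t j =
      β j ^ (r j * t j) * (p : W.K) ^ (M j * e j * t j) / (p : W.K) ^ (Φ.e Y * s * Q * ν) := by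
    rw [div_pow, mul_pow, ← pow_mul, ← pow_mul, ← pow_mul, ← hMt j,
      show M j * ν * t j = M j * t j * ν by ring]
  rw [e1]
  refine hS (I j) (α j) (fun i => kk j i * t j) (β j) _ _ _ (fun i hi => (h1 j i hi).2.1)
    (h2 j) ?_
  have e2 : (∏ i ∈ I j, α j i ^ (kk j i * t j)) * β j ^ (r j * t j) *
      (p : W.K) ^ (M j * e j * t j) / (p : W.K) ^ (Φ.e Y * s * Q * ν) =
      (α₀ / (p : W.K) ^ (Φ.e Y * s * ν)) ^ Q := by
    rw [div_pow, ← pow_mul, ← hEq, mul_pow, mul_pow, ← Finset.prod_pow, ← pow_mul, ← pow_mul,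
      Finset.prod_congr rfl fun i _ => (pow_mul (α j i) (kk j i) (t j)).symm,
      show Φ.e Y * s * Q * ν = Φ.e Y * s * ν * Q by ring]
  rw [e2]
  exact hα₀.pow Q

/-- The base of a tower. -/
theorem good_base [IsAlgClosed W.K] (hZ : GC Φ Z) {ι' : Type} [Finite ι'] {Bs : HBasis W Z ι'}
    {μ : ι' → W.K} (hB : IsEig Φ Bs μ) (hμ : ∀ j, μ j ∈ B) :
    Submodule.span W.K {y | Good Φ f S B (Φ.e Z) ∅ Z y} = ⊤ := by
  rw [eq_top_iff, ← Bs.b.span_eq]
  refine Submodule.span_mono ?_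
  rintro _ ⟨j, rfl⟩
  refine ⟨Φ.e Z, ∅, fun _ => 1, fun _ => 1, μ j, 1, 0, fun i hi => by simp at hi, hμ j, mul_one _,
    one_pos, ⟨1, one_pos, mul_one _, ?_⟩, fun ν hν => ?_⟩
  · rw [Finset.prod_empty, one_mul, pow_one, mul_zero, pow_zero, mul_one]
    exact hB j
  · refine hZ (Bs.deg j) ν _ ⟨1, μ j, one_pos, ?_, hB j, Bs.mem j⟩
    rw [pow_one, mul_zero, pow_zero, mul_one] at hν
    rw [mul_one]
    exact hν

theorem good_tower {V : ι → 𝒱.Obj} (hV : ∀ i, Spanned Φ (V i) (f i) (S i))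
    (hZ : Submodule.span W.K {y | Good Φ f S B e₀ ∅ Z y} = ⊤) : ∀ L : List ι, L.Nodup →
      Submodule.span W.K {y | Good Φ f S B e₀ {i | i ∈ L} (productOf V Z L) y} = ⊤
  | [], _ => by
    have h1 : {i : ι | i ∈ ([] : List ι)} = ∅ := by ext i; simp
    rw [h1]
    exact hZ
  | i :: L, h => by
    have h1 : {j : ι | j ∈ i :: L} = insert i {j | j ∈ L} := by ext j; simp
    rw [h1]
    exact good_step (List.nodup_cons.1 h).1 (hV i) (good_tower hV hZ L (List.nodup_cons.1 h).2)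

/-- **The main theorem over an algebraically closed field of coefficients.** -/
theorem gc_tower [IsAlgClosed W.K] {V : ι → 𝒱.Obj} (hV : ∀ i, Spanned Φ (V i) (f i) (S i))
    (hbig : ∀ i, ∃ E : (V i).Cycles, (V i).IsCyc 1 E ∧ Big ops (V i) E) (hS : NoDiv p S B)
    {ι' : Type} [Finite ι'] {Bs : HBasis W Z ι'} {μ : ι' → W.K} (hB : IsEig Φ Bs μ)
    (hμ : ∀ j, μ j ∈ B) (L : List ι) (hL : L.Nodup) : GC Φ (productOf V Z L) ↔ GC Φ Z := by
  constructor
  · intro h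
    clear hL
    induction L with
    | nil => exact h
    | cons i L ih =>
      obtain ⟨E, hE, hE'⟩ := hbig i
      exact ih (GC.of_dom (dom_snd _ hE hE') h)
  · intro h
    exact gc_of_good hS (good_tower hV (good_base h hB hμ) L hL)

end Run7.h306.GU
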