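import Pool.Agent.Run7.h306.TE5

/-!
# Weights
-/

set_option autoImplicit false

namespace Run7.h306.TE

open Finset

theorem weight_iff {ι : Type} {f N : ℕ} (hf : 0 < f) (hN : 0 < N) {d n : ι → ℕ}
    (hdN : ∀ i, d i ∣ N) (I : Finset ι) (A : ι → ℕ) :
    (∑ i ∈ I, (A i : ℚ) / (f * d i) < ∑ i ∈ I, ((n i : ℚ) / 2 + 1)) ↔
    2 * ∑ i ∈ I, (N / d i) * A i < f * N * ∑ i ∈ I, (n i + 2) := by
  have hf' : (0 : ℚ) < f := by exact_mod_cast hf
  have hN' : (0 : ℚ) < N := by exact_mod_cast hN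
  have h0 : ∀ i, (((N / d i : ℕ) : ℚ)) * (A i : ℚ) = (f * N) * ((A i : ℚ) / (f * d i)) := by
    intro i
    have hd0 : (d i : ℚ) ≠ 0 := by
      have := Nat.pos_of_dvd_of_pos (hdN i) hN
      exact_mod_cast this.ne'
    rw [Nat.cast_div (hdN i) hd0]
    field_simp
  have h1 : ((2 * ∑ i ∈ I, (N / d i) * A i : ℕ) : ℚ) =
      2 * (f * N) * (∑ i ∈ I, (A i : ℚ) / (f * d i)) := by
    rw [Nat.cast_mul, Nat.cast_sum]
    have h00 : ∑ i ∈ I, (((N / d i) * A i : ℕ) : ℚ) =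
        ∑ i ∈ I, (f * N) * ((A i : ℚ) / (f * d i)) :=
      Finset.sum_congr rfl fun i _ => by rw [Nat.cast_mul, h0]
    rw [h00, ← Finset.mul_sum]
    push_cast
    ring
  have h2 : ((f * N * ∑ i ∈ I, (n i + 2) : ℕ) : ℚ) =
      2 * (f * N) * ∑ i ∈ I, ((n i : ℚ) / 2 + 1) := by
    rw [Nat.cast_mul, Nat.cast_sum, mul_assoc 2, mul_sum, mul_sum, mul_sum]
    push_cast
    refine Finset.sum_congr rfl fun i _ => by ring
  have h3 : (0 : ℚ) < 2 * (f * N) := by positivity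
  rw [← Nat.cast_lt (α := ℚ), h1, h2]
  exact (mul_lt_mul_iff_right₀ h3).symm

end Run7.h306.TE
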