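import Pool.Agent.Run7.h306.TG4
import Pool.Agent.Run7.h306.TE6

/-!
# The Tate conjecture for products with cyclic coverings
-/

set_option autoImplicit false

open CategoryTheory AlgebraicGeometry Finset
open scoped TensorProduct

namespace Run7.h306.TG

open Pool.Agent.H914 Pool.Agent.H914.VarClass Pool.Agent.H914.VarClass.Obj
  Pool.Agent.H914.WeilCohomology Pool.Agent.H281R3.HT Pool.Agent.W552 Pool.Agent.TH125.Gal
  Pool.Agent.TH132.A Pool.Agent.N876.FL Pool.Agent.N876.TC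

theorem f_pos {κ : Type} [Field κ] [Fintype κ] {c f : ℕ} (hf : Fintype.card κ = c ^ f) : 0 < f := by
  rcases Nat.eq_zero_or_pos f with h | h
  · rw [h, pow_zero] at hf
    have := Fintype.one_lt_card (α := κ)
    omega
  · exact h

theorem smallB_iff {κ : Type} [Field κ] {ι : Type} {X : ι → Covering κ} {c f N D : ℕ} (hf : 0 < f)
    (hN : 0 < N) (hdN : ∀ i, (X i).N ∣ N) : AreSmall X c f N D ↔
      TE.SmallB c f N D (fun i => (X i).N) (fun i => (X i).n) (fun i => (X i).s)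
        (fun i => (X i).a) := by
  have h1 : ∀ (I : Finset ι) (u : ℕ) (j : ι → ℕ),
      (∑ i ∈ I, (X i).weight c f (u * j i) < ∑ i ∈ I, (((X i).n : ℚ) / 2 + 1)) ↔
      2 * ∑ i ∈ I, (N / (X i).N) * ∑ k, ∑ t ∈ range f, (u * j i * (X i).a k * c ^ t) % (X i).N <
        f * N * ∑ i ∈ I, ((X i).n + 2) := by
    intro I u j
    rw [← TE.weight_iff hf hN hdN I
      (fun i => ∑ k, ∑ t ∈ range f, (u * j i * (X i).a k * c ^ t) % (X i).N)]
    have h2 : ∀ i, (X i).weight c f (u * j i) =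
        ((∑ k, ∑ t ∈ range f, (u * j i * (X i).a k * c ^ t) % (X i).N : ℕ) : ℚ) /
          (f * (X i).N) := by
      intro i
      unfold Covering.weight
      push_cast
      rfl
    rw [sum_congr rfl fun i _ => h2 i]
  constructor
  · intro h H hH I hI j hj
    obtain ⟨u, hu, hlt⟩ := h H hH I hI j hj
    exact ⟨u, hu, (h1 I _ j).1 hlt⟩
  · intro h H hH I hI j hj
    obtain ⟨u, hu, hlt⟩ := h H hH I hI j hj
    exact ⟨u, hu, (h1 I _ j).2 hlt⟩

/-- The explicit condition. -/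
theorem areSmall_of {κ : Type} [Field κ] {ι : Type} [Fintype ι] {X : ι → Covering κ} {c f D : ℕ}
    (hf : 0 < f) (hX : ∀ i, (X i).IsAdmissible)
    (hco : ∀ i i', i ≠ i' → ((X i).N).Coprime (X i').N) (hc : ∀ i, c % (X i).N = 1)
    (h : ∀ i, (X i).IsLarge D) : AreSmall X c f (∏ i, (X i).N) D := by
  have hN0 : ∀ i, 0 < (X i).N := fun i => by have := (hX i).two_le; omega
  rw [smallB_iff hf (prod_pos fun i _ => hN0 i) fun i => dvd_prod_of_mem _ (mem_univ i)]
  refine TE.smallB_of_coprime hN0 hco fun i => ?_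
  obtain ⟨k₀, r, hr, hm⟩ := h i
  exact TE.smallOne_of (hX i).two_le hf (hc i) (hX i).coprime (hX i).dvd k₀ hr hm

variable {k : Type} [Field k] {𝒱 : VarClass k} {ops : CycleOps 𝒱}
  {W : WeilCohomology.{0, 0} ops} {Γ : Type} [Group Γ] {χ : Γ →* W.Kˣ}

/-- **The main theorem.** -/
theorem main (hops : HasIntegralOperations W) (σ : W.K ≃+* ℂ) (F : Γ) {c : ℕ} [Fact c.Prime]
    {κ : Type} [Field κ] [Fintype κ] [CharP κ c] {f : ℕ} (hf : Fintype.card κ = c ^ f)
    (hχ : ((χ F : W.Kˣ) : W.K) = Fintype.card κ) {ι : Type} {C : ι → Covering κ} {N D : ℕ}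
    (hD : 0 < D) (hN : 0 < N) (hdN : ∀ i, (C i).N ∣ N) (hC : ∀ i, (C i).IsAdmissible)
    (hsmall : AreSmall C c f N D) {X : ι → GVar W Γ} {Z : GVar W Γ}
    (hGX : ∀ i, TF.IsGalois χ (X i)) (hX : ∀ i, IsCoveringVariety σ F (C i) (X i))
    (hZ : IsOfDegree σ F (Fintype.card κ) D Z)
    (hG : ∀ L Y, IsTower X Z L Y → TF.IsGalois χ Y) {L : Set ι} {Y : GVar W Γ}
    (hY : IsTower X Z L Y) : TateConjecture χ Y ↔ TateConjecture χ Z := by
  have _ : IsAlgClosed W.K := IsAlgClosed.of_ringEquiv ℂ W.K σ.symm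
  have _ : CharZero W.K := W.charZero
  choose hone T hspan hT g hcov hpure using hX
  have hcov' : ∀ i, IsCov (C i).N (C i).l (C i).a (C i).z ((op (X i) F).restrict (hT i)) (g i) :=
    fun i => ⟨(hcov i).commute, (hcov i).order, (hcov i).invariants,
      fun L _ _ _ t => (hcov i).lefschetz L t⟩
  have hsm := (smallB_iff (f_pos hf) hN hdN).1 hsmall
  have hres : ∀ (SZ : Set W.K), (∀ β ∈ SZ, IsAlgebraic ℚ (σ β) ∧
      ∃ j : ℕ, ‖σ β‖ ^ 2 = (Fintype.card κ : ℝ) ^ j) →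
      (∀ β ∈ SZ, TE.HasPowerOfDegree D (σ β)) →
      NoResF ((χ F : W.Kˣ) : W.K)
        (fun i => {α | Module.End.HasEigenvalue ((op (X i) F).restrict (hT i)) α}) SZ := by
    intro SZ h1 h2
    rw [hχ]
    exact TE.noresF hN (fun i => (hC i).two_le) hdN κ hf (fun i => (hC i).root)
      (fun i => (C i).l) (fun i => (C i).a) (fun i => (hC i).coprime) (σ : W.K →+* ℂ)
      hcov' hsm (fun i α hα => hpure i α hα) h1 h2
  refine tower_full (σ := F)
    (S := fun i => {α | Module.End.HasEigenvalue ((op (X i) F).restrict (hT i)) α})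
    hops hGX (fun i => ⟨T i, hT i, hspan i, fun α hα => hα⟩)
    (hres _ (fun β hβ => ⟨(hZ β hβ).1, (hZ β hβ).2.1⟩) fun β hβ => (hZ β hβ).2.2)
    (hres _ ?_ ?_) hone hG hY
  · rintro β rfl
    refine ⟨by rw [map_one]; exact isAlgebraic_one, 0, ?_⟩
    rw [map_one, norm_one, one_pow, pow_zero]
  · rintro β rfl
    refine ⟨1, one_pos, ?_⟩
    rw [map_one, pow_one]
    have h1 : minpoly ℚ (1 : ℂ) = Polynomial.X - Polynomial.C 1 := by
      rw [minpoly.one, map_one]
    rw [h1, Polynomial.natDegree_X_sub_C]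
    exact hD

end Run7.h306.TG
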