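import Pool.Agent.Run7.h306.GU5
import Pool.Agent.Run7.h306.TG5

/-!
# The generalized Tate conjecture for products with cyclic coverings
-/

set_option autoImplicit false
set_option linter.unusedSectionVars false

open CategoryTheory AlgebraicGeometry CategoryTheory.Limits TensorProduct

namespace Run7.h306.GU

open Pool.Agent.H914 Pool.Agent.H447 Pool.Agent.W534 Pool.Agent.Y163 VarClass Obj WeilCohomology
  Module Polynomial
open Pool.Agent.R940 Pool.Agent.N204.GT
open Pool.Agent.R908 (baseFrob base_map_tmul base_map_eq base_induction_mod mem_baseChange_iff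
  coef coef_baseChange)
open Pool.Agent.N204.GH (cv push_cv ext_cv cv_anti push_mem_cv)

variable {k : Type} [Field k] {𝒱 : VarClass k} {ops : CycleOps 𝒱}
  {W : WeilCohomology.{0, 0} ops} {V Y Y' Z : 𝒱.Obj} {p : ℕ} [hp : Fact p.Prime]
  {Φ : FrobSystem W p}

lemma root_frob {w : ℕ} {z : W.H Z} (hz : z ∈ W.gr Z w) (hz0 : z ≠ 0) {μ : W.K}
    (hμ : z ∈ (frob Φ Z 1).maxGenEigenspace μ) : (frobOn Φ Z 1 w).charpoly.IsRoot μ := by
  obtain ⟨n, hn⟩ := (Module.End.mem_maxGenEigenspace _ _ _).1 hμ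
  let v : W.gr Z w := ⟨z, hz⟩
  have hv0 : v ≠ 0 := fun h => hz0 (congrArg Subtype.val h)
  refine root_of_gen (x := v) ((Module.End.mem_maxGenEigenspace _ _ _).2 ⟨n, ?_⟩) hv0
  apply Subtype.ext
  have key : ∀ (n : ℕ) (x : W.gr Z w),
      ((((frobOn Φ Z 1 w - μ • 1) ^ n) x : W.gr Z w) : W.H Z) =
        ((frob Φ Z 1 - μ • 1) ^ n) (x : W.H Z) := by
    intro n
    induction n with
    | zero => intro x; rfl
    | succ n ih =>
      intro x
      rw [pow_succ, pow_succ, Module.End.mul_apply, Module.End.mul_apply, ih]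
      congr 1
  rw [key]
  exact hn

/-- The span of the classes in `Spanned`. -/
noncomputable def genS (Φ : FrobSystem W p) (V : 𝒱.Obj) (m : ℕ) (S : Set W.K) :
    Submodule W.K (W.H V) :=
  Submodule.span W.K {x | (∃ n a, Egen Φ V n ((p : W.K) ^ (n * a)) x ∧ x ∈ cv W a V) ∨
    ∃ α ∈ S, Egen Φ V m α x}

lemma genS_left {m : ℕ} {S : Set W.K} {n a : ℕ} {x : W.H V}
    (h : Egen Φ V n ((p : W.K) ^ (n * a)) x) (h' : x ∈ cv W a V) : x ∈ genS Φ V m S :=
  Submodule.subset_span (Or.inl ⟨n, a, h, h'⟩)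

lemma genS_right {m : ℕ} {S : Set W.K} {α : W.K} (hα : α ∈ S) {x : W.H V}
    (h : Egen Φ V m α x) : x ∈ genS Φ V m S :=
  Submodule.subset_span (Or.inr ⟨α, hα, h⟩)

variable {L : Type} [Field L] [Algebra W.K L] [IsAlgClosed L]

lemma egen_cyc {j : ℕ} {z : V.Cycles} (hz : V.IsCyc j z) :
    ∃ n, Egen Φ V n ((p : W.K) ^ (n * j)) (W.cl V z) := by
  obtain ⟨s, hs, h⟩ := Φ.cyc hz
  refine ⟨Φ.e V * s, s, hs, rfl, ?_⟩
  rw [Module.End.mem_maxGenEigenspace]
  refine ⟨1, ?_⟩
  rw [pow_one, LinearMap.sub_apply, LinearMap.smul_apply, Module.End.one_apply, frob_apply, h,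
    sub_self]

lemma egen_base {s : ℕ} (hs : 0 < s) {α : L} {y : L ⊗[W.K] W.H V}
    (hy : y ∈ Module.End.maxGenEigenspace ((frob Φ V s).baseChange L) α) :
    Egen (baseFrob Φ L) V (Φ.e V * s) α y := by
  have h5 := frob_base (Φ := Φ) (L := L) V s
  rw [← h5] at hy
  exact ⟨s, hs, rfl, hy⟩

/-- The span of the classes in `Spanned`, over the extended coefficients. -/
noncomputable def genL (Φ : FrobSystem W p) (V : 𝒱.Obj) (m : ℕ) (S : Set L) :
    Submodule L (L ⊗[W.K] W.H V) :=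
  genS (baseFrob Φ L) V m S

lemma genL_left {m : ℕ} {S : Set L} {n a : ℕ} {x : L ⊗[W.K] W.H V}
    (h : Egen (baseFrob Φ L) V n ((p : (baseW W L).K) ^ (n * a)) x)
    (h' : x ∈ (cv (baseW W L) a V : Submodule L (L ⊗[W.K] W.H V))) : x ∈ genL Φ V m S :=
  genS_left (Φ := baseFrob Φ L) h h'

lemma genL_right {m : ℕ} {S : Set L} {α : L} (hα : α ∈ S) {x : L ⊗[W.K] W.H V}
    (h : Egen (baseFrob Φ L) V m α x) : x ∈ genL Φ V m S :=
  genS_right (Φ := baseFrob Φ L) hα h

lemma genL_top {m : ℕ} {S : Set L} (h : genL Φ V m S = ⊤) :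
    Spanned (baseFrob Φ L) V m S := h

/-- The classes on a covering, for the extended coefficients. -/
theorem spanned_base (hcyc : ∀ (Y : 𝒱.Obj) (j : ℕ) (z : Y.Cycles), Y.IsCyc j z →
    W.cl Y z ∈ cv W j Y) {s : ℕ} (hs : 0 < s) {T : Submodule W.K (W.H V)}
    (hT : ∀ t ∈ T, frob Φ V s t ∈ T) (hspan : algebraicPart W V ⊔ T = ⊤) {S : Set L}
    (hS : ∀ α : L, aeval α (charpolyOn (frob Φ V s) T) = 0 → α ∈ S) :
    Spanned (baseFrob Φ L) V (Φ.e V * s) S := by
  have hcyc' := cyc_base (L := L) hcyc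
  apply genL_top
  have hcl : ∀ (j : ℕ) (z : V.Cycles), V.IsCyc j z → (1 : L) ⊗ₜ[W.K] (W.cl V z) ∈
      genL Φ V (Φ.e V * s) S := by
    intro j z hz
    obtain ⟨n, hn⟩ := egen_cyc (Φ := baseFrob Φ L) hz
    exact genL_left hn (hcyc' V j z hz)
  have hTm : ∀ (α : L), α ∈ S →
      ∀ y ∈ Module.End.maxGenEigenspace ((frob Φ V s).baseChange L) α, y ∈
        genL Φ V (Φ.e V * s) S := by
    intro α hα y hy
    exact genL_right hα (egen_base hs hy)
  obtain ⟨G, hG⟩ : ∃ G : Submodule L (L ⊗[W.K] W.H V), G = genL Φ V (Φ.e V * s) S := ⟨_, rfl⟩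
  rw [← hG] at hcl hTm ⊢
  have h1 : ∀ a : W.H V, (1 : L) ⊗ₜ[W.K] a ∈ G := by
    intro a
    have ha : a ∈ algebraicPart W V ⊔ T := by rw [hspan]; trivial
    obtain ⟨b, hb, t, ht, rfl⟩ := Submodule.mem_sup.1 ha
    clear ha
    rw [TensorProduct.tmul_add]
    refine Submodule.add_mem _ ?_ ?_
    · unfold algebraicPart at hb
      induction hb using Submodule.span_induction with
      | zero => rw [TensorProduct.tmul_zero]; exact Submodule.zero_mem _
      | add a b _ _ ha hb => rw [TensorProduct.tmul_add]; exact Submodule.add_mem _ ha hb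
      | smul c a _ ha =>
        rw [TensorProduct.tmul_smul, ← algebraMap_smul L]
        exact Submodule.smul_mem _ _ ha
      | mem x hx =>
        obtain ⟨j, z, hz, rfl⟩ := hx
        exact hcl j z hz
    · have h2 := up (L := L) hT ht
      refine (iSup_le ?_ : (⨆ α : {α : L // aeval α (charpolyOn (frob Φ V s) T) = 0},
        ((Module.End.maxGenEigenspace ((frob Φ V s).baseChange L) α.1) ⊓ T.baseChange L)) ≤ G) h2
      rintro ⟨α, h3⟩ y ⟨hy1, -⟩
      exact hTm α (hS α h3) y hy1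
  rw [eq_top_iff]
  intro x _
  induction x using TensorProduct.induction_on with
  | zero => exact Submodule.zero_mem _
  | add a b ha hb => exact Submodule.add_mem _ (ha trivial) (hb trivial)
  | tmul l a =>
    have h3 : l ⊗ₜ[W.K] a = l • ((1 : L) ⊗ₜ[W.K] a) := by
      rw [TensorProduct.smul_tmul', smul_eq_mul, mul_one]
    rw [h3]
    exact Submodule.smul_mem _ _ (h1 a)

end Run7.h306.GU
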