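import Pool.Agent.Run7.h306.GU6

/-!
# The generalized Tate conjecture for products with cyclic coverings: the theorem
-/

set_option autoImplicit false
set_option linter.unusedSectionVars false

open CategoryTheory AlgebraicGeometry CategoryTheory.Limits TensorProduct

namespace Run7.h306.GU

open Pool.Agent.H914 Pool.Agent.H447 Pool.Agent.W534 Pool.Agent.Y163 VarClass Obj WeilCohomology
  Module Polynomial
open Pool.Agent.R940 Pool.Agent.N204.GT Pool.Agent.N876.TC
open Pool.Agent.R908 (baseFrob)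
open Pool.Agent.N204.GH (cv)

variable {k : Type} [Field k] {𝒱 : VarClass k} {ops : CycleOps 𝒱}
  {W : WeilCohomology.{0, 0} ops} {p : ℕ} [hp : Fact p.Prime]

lemma weight_one_iff {κ : Type} [Field κ] {X : TG.Covering κ} {c f j : ℕ} (hf : 0 < f)
    (hN : 0 < X.N) : X.weight c f j = 1 ↔
      ∑ k, ∑ t ∈ Finset.range f, (j * X.a k * c ^ t) % X.N = f * X.N := by
  have h1 : ((f : ℚ) * X.N) ≠ 0 := by positivity
  unfold TG.Covering.weight
  rw [div_eq_one_iff_eq h1]
  constructor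
  · intro h
    exact_mod_cast h
  · intro h
    exact_mod_cast h

theorem unitB_of {ι : Type} {κ : ι → Type} [∀ i, Field (κ i)] {X : ∀ i, TG.Covering (κ i)}
    {c : ℕ} {f : ι → ℕ} {N D : ℕ} (hf : ∀ i, 0 < f i) (hN : ∀ i, 0 < (X i).N)
    (h : HaveWeightsOne X c f N D) :
    UnitB c f N D (fun i => (X i).N) (fun i => (X i).s) (fun i => (X i).a) := by
  intro H hH I j hj
  obtain ⟨u, hu, h1⟩ := h H hH I j hj
  exact ⟨u, hu, fun i hi => (weight_one_iff (hf i) (hN i)).1 (h1 i hi)⟩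

theorem haveWeightsOne_of {ι : Type} [Fintype ι] {κ : ι → Type} [∀ i, Field (κ i)]
    {X : ∀ i, TG.Covering (κ i)} {c : ℕ} {f : ι → ℕ} {D : ℕ} (hf : ∀ i, 0 < f i)
    (hX : ∀ i, (X i).IsAdmissible) (hco : ∀ i i', i ≠ i' → ((X i).N).Coprime (X i').N)
    (hc : ∀ i, c % (X i).N = 1) (h : ∀ i, IsVeryLarge (X i) D) :
    HaveWeightsOne X c f (∏ i, (X i).N) D := by
  have hN0 : ∀ i, 0 < (X i).N := fun i => by have := (hX i).two_le; omega
  have h1 := unitB_of_coprime (c := c) (f := f) (D := D) (a := fun i => (X i).a) hN0 hco fun i => by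
    obtain ⟨k₀, hm⟩ := h i
    exact unitOne_of (f := f i) (hX i).two_le (hc i) (hX i).coprime (hX i).dvd k₀ hm
  intro H hH I j hj
  obtain ⟨u, hu, h2⟩ := h1 H hH I j hj
  exact ⟨u, hu, fun i hi => (weight_one_iff (hf i) (hN0 i)).2 (h2 i hi)⟩

variable {Φ : FrobSystem W p} {σ : W.K →+* ℂ}

theorem main {ι : Type} {κ : ι → Type} [∀ i, Field (κ i)] [∀ i, Fintype (κ i)]
    {X : ∀ i, TG.Covering (κ i)} (hX : ∀ i, (X i).IsAdmissible) {V : ι → 𝒱.Obj}
    (hV : ∀ i, IsCoveringVariety Φ σ (X i) (V i)) (hbig : ∀ i, HasBigDivisor ops (V i))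
    {f : ι → ℕ} (hf : ∀ i, Fintype.card (κ i) = p ^ f i) (hcyc : CyclesHaveConiveau W)
    {N D : ℕ} (hN : 0 < N) (hdN : ∀ i, (X i).N ∣ N) (hone : HaveWeightsOne X p f N D)
    {Z : 𝒱.Obj} (hW : WeilConjectures Φ σ Z) (hZ : HasEigenvaluesOfDegree Φ σ D Z)
    (L : List ι) (hL : L.Nodup) : GTC Φ (productOf V Z L) ↔ GTC Φ Z := by
  have hN0 : ∀ i, 0 < (X i).N := fun i => by have := (hX i).two_le; omega
  have hf0 : ∀ i, 0 < f i := by
    intro i
    rcases Nat.eq_zero_or_pos (f i) with h | h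
    · have h1 := hf i
      rw [h, pow_zero] at h1
      have := Fintype.one_lt_card (α := κ i)
      omega
    · exact h
  have hchar : ∀ i, CharP (κ i) p := fun i => charP_of_card_eq_prime_pow (hf i)
  have hunit := unitB_of hf0 hN0 hone
  choose s hs hcard T hspan hT g hcov hpure using hV
  have hfe : ∀ i, f i = Φ.e (V i) * s i := by
    intro i
    refine Nat.pow_right_injective hp.out.two_le ?_
    change p ^ f i = p ^ (Φ.e (V i) * s i)
    rw [← hf i, ← hcard i]
    rfl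
  have _ : CharZero W.K := W.charZero
  have hcov' : ∀ i, IsCov (X i).N (X i).l (X i).a (X i).z
      ((frobenius Φ (V i) (s i)).restrict (hT i)) (g i) :=
    fun i => ⟨(hcov i).commute, (hcov i).order, (hcov i).invariants,
      fun L _ _ _ t => (hcov i).lefschetz L t⟩
  have hU := isUnitSystem_of (c := p) hN (fun i => (hX i).two_le) hdN κ hf
    (fun i => (hX i).root) (fun i => (X i).l) (fun i => (X i).a) (fun i => (hX i).coprime) hunit σ
    hcov' (fun i α hα => hpure i α hα)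
  obtain ⟨σ', hσ⟩ := exists_ext (L := AlgebraicClosure W.K) σ
  obtain ⟨S, hS⟩ : ∃ S : ι → Set (AlgebraicClosure W.K), S = fun i =>
      {α | aeval α (charpolyOn (frob Φ (V i) (s i)) (T i)) = 0} := ⟨_, rfl⟩
  obtain ⟨B, hB⟩ : ∃ B : Set (AlgebraicClosure W.K), B =
      {β | IsIntegral ℤ β ∧ ∃ t, 0 < t ∧ (minpoly ℚ (σ' β ^ t)).natDegree ≤ D} := ⟨_, rfl⟩
  have hSC : ∀ i, ∀ α ∈ S i, ((((frobenius Φ (V i) (s i)).restrict (hT i)).charpoly.map σ)).IsRoot
      (σ' α) := by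
    intro i α hα
    rw [hS] at hα
    have h1 : aeval α (charpolyOn (frobenius Φ (V i) (s i)) (T i)) = 0 := hα
    rw [charpolyOn_eq (hT i)] at h1
    have h2 := congrArg σ' h1
    rw [map_zero, aeval_def, hom_eval₂, hσ] at h2
    rw [IsRoot.def, Polynomial.eval_map]
    exact h2
  have hdiv : NoDiv p S B := by
    intro I α kk β r A C hα hβ h
    rw [hB] at hβ
    obtain ⟨hβ1, t, ht, hβ2⟩ := hβ
    exact nodiv hU σ' hβ1 ht hβ2 (fun i hi => hSC i _ (hα i hi)) kk r A C h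
  have hVs : ∀ i, Spanned (baseFrob Φ (AlgebraicClosure W.K)) (V i) (f i) (S i) := by
    intro i
    rw [hfe i]
    refine spanned_base hcyc (hs i) (hT i) (hspan i) fun α hα => ?_
    rw [hS]
    exact hα
  have hclosed : IsAlgClosed (baseW W (AlgebraicClosure W.K)).K :=
    inferInstanceAs (IsAlgClosed (AlgebraicClosure W.K))
  obtain ⟨ι', hfin, Bs, μ, hBs⟩ := exists_ebasis (baseFrob Φ (AlgebraicClosure W.K)) Z
  have hμ : ∀ j, (show AlgebraicClosure W.K from μ j) ∈ B := by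
    intro j
    have h0 : Bs.b j ≠ 0 := Bs.b.ne_zero j
    have h1 := int_of_gen (riemann_base hσ hW.1) (integral_base hσ hW.2) one_pos (Bs.mem j) h0
      (hBs j)
    have h2 := root_frob (Bs.mem j) h0 (hBs j)
    have h3 : (frobPoly (baseFrob Φ (AlgebraicClosure W.K)) σ' Z 1 (Bs.deg j)).IsRoot
        (σ' (μ j)) := by
      have e := frobPoly_eq (baseFrob Φ (AlgebraicClosure W.K)) (Z := Z) σ' 1 (Bs.deg j)
      have h4 := h2.map (f := σ')
      exact e ▸ h4
    rw [frobPoly_base hσ] at h3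
    obtain ⟨t, ht, h4⟩ := hZ _ _ h3
    rw [hB]
    exact ⟨h1.1, t, ht, h4⟩
  rw [gtc_iff', gtc_iff', gtc_iff, gtc_iff]
  exact gc_tower (Φ := baseFrob Φ (AlgebraicClosure W.K)) hVs hbig hdiv hBs hμ L hL

end Run7.h306.GU
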