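import Pool.Agent.Run7.h306.GU7

/-!
# The generalized Tate conjecture for curves and surfaces
-/

set_option autoImplicit false
set_option linter.unusedSectionVars false

open CategoryTheory AlgebraicGeometry CategoryTheory.Limits TensorProduct

namespace Run7.h306.GU

open Pool.Agent.H914 Pool.Agent.H447 Pool.Agent.W534 Pool.Agent.Y163 VarClass Obj WeilCohomology
  Module Polynomial
open Pool.Agent.R940 Pool.Agent.N204.GT
open Pool.Agent.N204.GH (cv cv_anti)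

variable {k : Type} [Field k] {𝒱 : VarClass k} {ops : CycleOps 𝒱}
  {W : WeilCohomology.{0, 0} ops} {p : ℕ} [hp : Fact p.Prime] {Φ : FrobSystem W p}
  {σ : W.K →+* ℂ} {Z : 𝒱.Obj}

/-- The degree and the eigenvalue of a class in the coniveau filtration. -/
theorem cn_cases [IsAlgClosed W.K] (hRH : RiemannHyp Φ σ Z) (hint : HasIntegralPolys Φ σ Z)
    {i ν : ℕ} {x : W.H Z} (hx0 : x ≠ 0) (hxC : Cn Φ Z i ν x) :
    i ≤ 2 * Z.dim ∧ 2 * ν ≤ i ∧
      (i = 2 * ν → ∃ s, 0 < s ∧ x ∈ (frob Φ Z s).maxGenEigenspace ((card Φ Z s : W.K) ^ ν)) := by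
  classical
  obtain ⟨ι, hfin, B, lam, hB⟩ := exists_ebasis Φ Z
  have hF := weilFamily hB hRH hint (slopeDenominator hRH hint)
  have hpK : (p : W.K) ≠ 0 := Nat.cast_ne_zero.2 hp.out.ne_zero
  have hlam0 : ∀ l, lam l ≠ 0 := fun l => gen_ne_zero (hB l) (B.b.ne_zero l)
  have hcardY : ∀ s, card Φ Z s = card Φ Z 1 ^ s := fun s => by
    rw [← card_mul_eq, one_mul]
  have harch : ∀ l, ∀ y : ℂ, aeval y (minpoly ℚ (lam l)) = 0 →
      ‖y‖ ^ 2 = (card Φ Z 1 : ℝ) ^ B.deg l := by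
    intro l y hy
    have h1 := hF.arch l y hy
    rw [h1, card, mul_one]
    push_cast
    rfl
  have hq0 : (card Φ Z 1 : W.K) ≠ 0 := card_ne Φ 1
  obtain ⟨s, α, hs, hα, hxE, hx⟩ := hxC
  obtain ⟨l, hl⟩ : ∃ l, B.b.repr x l ≠ 0 := by
    by_contra hcon
    push Not at hcon
    exact hx0 (B.b.ext_elem fun l => by rw [hcon, map_zero]; rfl)
  have hdeg : B.deg l = i := by
    by_contra hne
    exact hl (repr_zero (W.isInternal Z).submodule_iSupIndep B.b B.deg B.mem hx hne)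
  have hlam : lam l ^ s = α := by
    by_contra hne
    refine hl (repr_zero (Module.End.independent_maxGenEigenspace (frob Φ Z s)) B.b
      (fun l => lam l ^ s) (fun l => ?_) hxE hne)
    have h1 := gen_mono _ _ s (hB l)
    rwa [← frob_mul_eq, one_mul] at h1
  have hint' : IsIntegral ℤ (lam l / (card Φ Z 1 : W.K) ^ ν) := by
    refine IsIntegral.of_pow hs ?_
    have e1 : (lam l / (card Φ Z 1 : W.K) ^ ν) ^ s = α / (p : W.K) ^ (Φ.e Z * s * ν) := by
      rw [div_pow, hlam, ← card_pow, hcardY s, Nat.cast_pow, ← pow_mul, ← pow_mul, mul_comm ν]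
    rw [e1]
    exact hα
  have hq1 : (1 : ℝ) < (card Φ Z 1 : ℝ) := by
    have : 1 < card Φ Z 1 := Nat.one_lt_pow (Nat.mul_pos (Φ.e_pos Z) one_pos).ne' hp.out.one_lt
    exact_mod_cast this
  obtain ⟨y, hy⟩ : ∃ y : ℂ, aeval y (minpoly ℚ (lam l / (card Φ Z 1 : W.K) ^ ν)) = 0 := by
    have h3 : (minpoly ℚ (lam l / (card Φ Z 1 : W.K) ^ ν)).degree ≠ 0 :=
      (minpoly.degree_pos (hint'.tower_top (A := ℚ))).ne'
    exact IsAlgClosed.exists_aeval_eq_zero ℂ _ h3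
  have h1 : ∀ y : ℂ, aeval y (minpoly ℚ (lam l / (card Φ Z 1 : W.K) ^ ν)) = 0 →
      (‖y‖ ^ 2) * (card Φ Z 1 : ℝ) ^ (2 * ν) = (card Φ Z 1 : ℝ) ^ i := by
    intro y hy
    have h1 := norm_root (s := 1) (w := 1) (card_pos Φ 1) (hF.int l)
      (by rw [pow_one, pow_one]) one_pos (harch l) hy
    rw [hdeg, pow_one, pow_one] at h1
    rw [← h1]
    ring
  have h5 : 0 < (card Φ Z 1 : ℝ) ^ (2 * ν) := by positivity
  -- the case of small weights
  have hzero : i ≤ 2 * ν → ∃ n : ℕ, 0 < n ∧ (lam l / (card Φ Z 1 : W.K) ^ ν) ^ n = 1 ∧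
      i = 2 * ν := by
    intro hle
    have h2 : ∀ y : ℂ, aeval y (minpoly ℚ (lam l / (card Φ Z 1 : W.K) ^ ν)) = 0 → ‖y‖ ≤ 1 := by
      intro y hy
      have h3 := h1 y hy
      have h4 : (card Φ Z 1 : ℝ) ^ i ≤ (card Φ Z 1 : ℝ) ^ (2 * ν) :=
        pow_le_pow_right₀ hq1.le hle
      rw [← h3] at h4
      have h6 : ‖y‖ ^ 2 ≤ 1 := by
        by_contra hcon
        have h6 : 1 * (card Φ Z 1 : ℝ) ^ (2 * ν) < ‖y‖ ^ 2 * (card Φ Z 1 : ℝ) ^ (2 * ν) :=
          mul_lt_mul_of_pos_right (not_le.1 hcon) h5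
        rw [one_mul] at h6
        exact absurd h4 (not_le.2 h6)
      exact (pow_le_one_iff_of_nonneg (norm_nonneg _) two_ne_zero).1 h6
    obtain ⟨n, hn, h3⟩ := kron hint' (div_ne_zero (hlam0 l) (pow_ne_zero _ hq0)) h2
    refine ⟨n, hn, h3, ?_⟩
    have h4 := h1 y hy
    have h6 : y ^ n = 1 := by
      have h6 : aeval (lam l / (card Φ Z 1 : W.K) ^ ν) (X ^ n - 1 : ℤ[X]) = 0 := by
        rw [map_sub, map_pow, aeval_X, map_one, h3, sub_self]
      have h7 := aeval_of_minpoly h6 hy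
      rw [map_sub, map_pow, aeval_X, map_one, sub_eq_zero] at h7
      exact h7
    have h7 : ‖y‖ = 1 := by
      have h7 := congrArg norm h6
      rw [norm_pow, norm_one] at h7
      exact (pow_eq_one_iff_of_nonneg (norm_nonneg _) hn.ne').1 h7
    rw [h7, one_pow, one_mul] at h4
    exact (pow_right_injective₀ (zero_lt_one.trans hq1) hq1.ne' h4).symm
  have hle : 2 * ν ≤ i := by
    by_contra hcon
    obtain ⟨n, hn, h3, h4⟩ := hzero (by omega)
    omega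
  refine ⟨hdeg ▸ deg_le B l, hle, fun hi => ?_⟩
  obtain ⟨n, hn, h3, -⟩ := hzero (by omega)
  refine ⟨s * n, Nat.mul_pos hs hn, ?_⟩
  have h4 : x ∈ (frob Φ Z (s * n)).maxGenEigenspace (α ^ n) := by
    rw [frob_mul_eq]
    exact gen_mono _ _ n hxE
  have h6 : α ^ n = (card Φ Z (s * n) : W.K) ^ ν := by
    rw [div_pow, div_eq_one_iff_eq (pow_ne_zero _ (pow_ne_zero _ hq0))] at h3
    rw [← hlam, ← pow_mul, mul_comm s n, pow_mul, h3, hcardY (n * s), Nat.cast_pow]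
    ring
  rw [← h6]
  exact h4

/-- The classes of the top degree. -/
theorem top_cv (hcyc : ∀ (Y : 𝒱.Obj) (j : ℕ) (z : Y.Cycles), Y.IsCyc j z → W.cl Y z ∈ cv W j Y)
    {E : Z.Cycles} (hE : Z.IsCyc 1 E) (hbig : Big ops Z E) {x : W.H Z}
    (hx : x ∈ W.gr Z (2 * Z.dim)) : x ∈ cv W Z.dim Z := by
  have h1 : W.cl Z E ^ Z.dim ∈ cv W Z.dim Z := by
    rw [← cl_divPow_fund]
    exact hcyc Z Z.dim _ (divPow_fund_mem hE _)
  have h2 := hbig.tr (W := W) hE
  have h3 : x = (W.tr Z x / W.tr Z (W.cl Z E ^ Z.dim)) • W.cl Z E ^ Z.dim := by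
    apply W.tr_ext
    intro b
    refine gr_induction (W.isInternal Z) (p := fun b => W.tr Z (x * b) =
      W.tr Z ((W.tr Z x / W.tr Z (W.cl Z E ^ Z.dim)) • W.cl Z E ^ Z.dim * b)) ?_ ?_ b
    · intro j b hb
      rcases Nat.eq_zero_or_pos j with hj | hj
      · subst hj
        rw [W.gr_zero] at hb
        obtain ⟨c, rfl⟩ := Submodule.mem_span_singleton.1 hb
        rw [mul_smul_comm, mul_one, mul_smul_comm, mul_one, map_smul, map_smul, map_smul,
          smul_eq_mul, smul_eq_mul, smul_eq_mul, div_mul_cancel₀ _ h2]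
      · rw [W.tr_eq_zero (W.mul_mem hx hb) (by omega), smul_mul_assoc, map_smul,
          W.tr_eq_zero (W.mul_mem (pow_mem_gr hE _) hb) (by omega), smul_zero]
    · intro a b ha hb
      rw [mul_add, mul_add, map_add, map_add, ha, hb]
  rw [h3]
  exact Submodule.smul_mem _ _ h1

/-- The conjecture for curves and surfaces. -/
theorem gc_of_dim [IsAlgClosed W.K] (hRH : RiemannHyp Φ σ Z) (hint : HasIntegralPolys Φ σ Z)
    (hcyc : ∀ (Y : 𝒱.Obj) (j : ℕ) (z : Y.Cycles), Y.IsCyc j z → W.cl Y z ∈ cv W j Y)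
    {E : Z.Cycles} (hE : Z.IsCyc 1 E) (hbig : Big ops Z E) (hdim : Z.dim ≤ 2)
    (hT : Z.dim = 2 → SemisimpleTateIn Φ Z 1)
    (hL : Z.dim = 2 → ∀ x ∈ W.gr Z 3, ∃ y, x = W.cl Z E * y) : GC Φ Z := by
  intro i ν x hxC
  by_cases hx0 : x = 0
  · rw [hx0]; exact Submodule.zero_mem _
  obtain ⟨h1, h2, h3⟩ := cn_cases hRH hint hx0 hxC
  have hx : x ∈ W.gr Z i := by
    obtain ⟨s, α, hs, hα, hxE, hx⟩ := hxC
    exact hx
  rcases Nat.eq_zero_or_pos ν with hν | hν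
  · rw [hν]
    exact cv_zero Z x
  by_cases htop : i = 2 * Z.dim
  · rw [htop] at hx
    exact cv_anti (by omega) (top_cv hcyc hE hbig hx)
  have hd : Z.dim = 2 := by omega
  have hν1 : ν = 1 := by omega
  subst hν1
  have hi : i = 2 ∨ i = 3 := by omega
  rcases hi with hi | hi
  · obtain ⟨s, hs, h4⟩ := h3 (by omega)
    rw [hi] at hx
    have h5 : x ∈ spanCycles W Z 1 := hT hd s hs ⟨h4, hx⟩
    refine (Submodule.span_le.2 ?_ : spanCycles W Z 1 ≤ cv W 1 Z) h5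
    rintro _ ⟨r, hr, z, hz, rfl⟩
    have hr1 : r = 1 := by exact_mod_cast hr
    subst hr1
    exact hcyc Z 1 z hz
  · rw [hi] at hx
    obtain ⟨y, rfl⟩ := hL hd x hx
    exact cv_mul (hcyc Z 1 E hE) y

end Run7.h306.GU
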