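import Pool.Agent.Run7.h306.GU8

/-!
# The generalized Tate conjecture for products with cyclic coverings: all results
-/

set_option autoImplicit false
set_option linter.unusedSectionVars false

open CategoryTheory AlgebraicGeometry CategoryTheory.Limits TensorProduct

namespace Run7.h306.GU

open Pool.Agent.H914 Pool.Agent.H447 Pool.Agent.W534 Pool.Agent.Y163 VarClass Obj WeilCohomology
  Module Polynomial
open Pool.Agent.R940 Pool.Agent.N204.GT
open Pool.Agent.R908 (baseFrob base_map_tmul base_map_eq base_induction_mod mem_baseChange_iff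
  coef coef_baseChange)
open Pool.Agent.N204.GH (cv cv_anti)

variable {k : Type} [Field k] {𝒱 : VarClass k} {ops : CycleOps 𝒱}
  {W : WeilCohomology.{0, 0} ops} {p : ℕ} [hp : Fact p.Prime] {Φ : FrobSystem W p}
  {σ : W.K →+* ℂ} {Z : 𝒱.Obj} {L : Type} [Field L] [Algebra W.K L]

lemma lef_base {E : Z.Cycles} (h : ∀ x ∈ W.gr Z 3, ∃ y, x = W.cl Z E * y) :
    ∀ x ∈ (baseW W L).gr Z 3, ∃ y, x = (baseW W L).cl Z E * y := by
  intro x hx
  have key : ∀ x : L ⊗[W.K] W.H Z, x ∈ (W.gr Z 3).baseChange L →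
      ∃ y : L ⊗[W.K] W.H Z, x = ((1 : L) ⊗ₜ[W.K] (W.cl Z E)) * y := by
    intro x hx
    refine base_induction_mod (P := fun x : L ⊗[W.K] W.H Z =>
      ∃ y : L ⊗[W.K] W.H Z, x = ((1 : L) ⊗ₜ[W.K] (W.cl Z E)) * y) ⟨0, (mul_zero _).symm⟩ ?_ ?_ hx
    · rintro _ _ ⟨y, rfl⟩ ⟨y', rfl⟩
      exact ⟨y + y', (mul_add _ _ _).symm⟩
    · intro l a ha
      obtain ⟨y, rfl⟩ := h a ha
      refine ⟨l ⊗ₜ[W.K] y, ?_⟩
      rw [Algebra.TensorProduct.tmul_mul_tmul, one_mul]
  exact key x hx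

theorem gtc_of_curve (hW : WeilConjectures Φ σ Z) (hcyc : CyclesHaveConiveau W)
    (h : IsCurveOrTateSurface Φ Z) : GTC Φ Z := by
  obtain ⟨E, hE, hbig, hdim, h2⟩ := h
  obtain ⟨σ', hσ⟩ := exists_ext (L := AlgebraicClosure W.K) σ
  have hclosed : IsAlgClosed (baseW W (AlgebraicClosure W.K)).K :=
    inferInstanceAs (IsAlgClosed (AlgebraicClosure W.K))
  rw [gtc_iff', gtc_iff]
  exact gc_of_dim (riemann_base hσ hW.1) (integral_base hσ hW.2) (cyc_base hcyc) hE hbig hdim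
    (fun hd => tate_base (semi_of (h2 hd).1 1)) (fun hd => lef_base fun x hx => (h2 hd).2 x hx)

theorem products {ι : Type} {κ : ι → Type} [∀ i, Field (κ i)] [∀ i, Fintype (κ i)]
    {X : ∀ i, TG.Covering (κ i)} (hX : ∀ i, (X i).IsAdmissible) {V : ι → 𝒱.Obj}
    (hV : ∀ i, IsCoveringVariety Φ σ (X i) (V i)) (hbig : ∀ i, HasBigDivisor ops (V i))
    {f : ι → ℕ} (hf : ∀ i, Fintype.card (κ i) = p ^ f i) (hcyc : CyclesHaveConiveau W)
    {N D : ℕ} (hN : 0 < N) (hdN : ∀ i, (X i).N ∣ N) (hone : HaveWeightsOne X p f N D)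
    (hW : WeilConjectures Φ σ Z) (hZ : HasEigenvaluesOfDegree Φ σ D Z) :
    GTCForProducts Φ V Z := by
  intro L hL
  have h1 := main hX hV hbig hf hcyc hN hdN hone hW hZ L hL
  exact ⟨h1, fun h => h1.2 (gtc_of_curve hW hcyc h)⟩

theorem products_large {ι : Type} [Fintype ι] {κ : ι → Type} [∀ i, Field (κ i)]
    [∀ i, Fintype (κ i)] {X : ∀ i, TG.Covering (κ i)} (hX : ∀ i, (X i).IsAdmissible)
    {V : ι → 𝒱.Obj} (hV : ∀ i, IsCoveringVariety Φ σ (X i) (V i))
    (hbig : ∀ i, HasBigDivisor ops (V i)) {f : ι → ℕ}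
    (hf : ∀ i, Fintype.card (κ i) = p ^ f i) (hcyc : CyclesHaveConiveau W) {D : ℕ}
    (hco : ∀ i i', i ≠ i' → ((X i).N).Coprime (X i').N) (hc : ∀ i, p % (X i).N = 1)
    (hlarge : ∀ i, IsVeryLarge (X i) D)
    (hW : WeilConjectures Φ σ Z) (hZ : HasEigenvaluesOfDegree Φ σ D Z) :
    GTCForProducts Φ V Z := by
  have hf0 : ∀ i, 0 < f i := by
    intro i
    rcases Nat.eq_zero_or_pos (f i) with h | h
    · have h1 := hf i
      rw [h, pow_zero] at h1
      have := Fintype.one_lt_card (α := κ i)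
      omega
    · exact h
  have hN0 : ∀ i, 0 < (X i).N := fun i => by have := (hX i).two_le; omega
  exact products hX hV hbig hf hcyc (Finset.prod_pos fun i _ => hN0 i)
    (fun i => Finset.dvd_prod_of_mem _ (Finset.mem_univ i)) (haveWeightsOne_of hf0 hX hco hc hlarge)
    hW hZ

end Run7.h306.GU
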