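import Pool.Agent.H307R2.Sg6
import Pool.Agent.H379R2.SW2
import Pool.Agent.H916R2.Indep
import Pool.Agent.Helper112.MultLS

/-!
# Lower bounds for the Stickelberger sums of odd characters
-/

set_option autoImplicit false

open Finset Complex Filter Topology

namespace Run7.h306.HF

/-- A lower bound for `L(1, χ)` for all primitive characters (Siegel's theorem for the real ones). -/
theorem L1_lower {ε : ℝ} (hε : 0 < ε) : ∃ c : ℝ, 0 < c ∧ ∀ (q : ℕ) [NeZero q]
    (χ : DirichletCharacter ℂ q), χ.IsPrimitive → χ ≠ 1 →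
      c * (q : ℝ) ^ (-ε) ≤ ‖χ.LFunction 1‖ := by
  obtain ⟨c₀, hc₀, hS⟩ := Pool.Agent.H307R2.siegel ε hε
  obtain ⟨η, hη⟩ : ∃ η : ℝ, η = min (ε / 14) (1 / 4) := ⟨_, rfl⟩
  have hη0 : 0 < η := by rw [hη]; positivity
  have hη4 : η ≤ 1 / 4 := by rw [hη]; exact min_le_right _ _
  have hηε : η ≤ ε / 14 := by rw [hη]; exact min_le_left _ _
  obtain ⟨A, hA⟩ : ∃ A : ℝ, A = (9 + 1 / η) / η * 6 ^ (2 * η) := ⟨_, rfl⟩
  have hA0 : 0 < A := by rw [hA]; positivity
  refine ⟨min c₀ (1 / (4320 * A ^ 7)), lt_min hc₀ (by positivity), fun q _ χ hprim h1 => ?_⟩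
  have hq : 1 ≤ q := NeZero.one_le
  have hqr : (1 : ℝ) ≤ q := by exact_mod_cast hq
  have hq0 : (0 : ℝ) < q := by linarith
  by_cases h2 : χ ^ 2 = 1
  · refine le_trans ?_ (hS q χ hprim h2 h1)
    exact mul_le_mul_of_nonneg_right (min_le_left _ _) (by positivity)
  · obtain ⟨V, hV⟩ : ∃ V : ℝ, V = (9 + 1 / η) * (6 * q) ^ (2 * η) / η := ⟨_, rfl⟩
    have hVA : V = A * (q : ℝ) ^ (2 * η) := by
      rw [hV, hA, Real.mul_rpow (by norm_num) hq0.le]
      ring
    have h3 : ∀ x : ℝ, 0 < x → x ≤ 1 → 1 / (4320 * V ^ 7) ≤ ‖χ.LFunction (1 + x)‖ := by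
      intro x hx hx1
      have h4 := Pool.Agent.H379R2.SW.char_lower (q := q) h1 (σ := 1) one_pos le_rfl
        (fun h => absurd h h2) hη0 (by linarith) (t := 0) (N := 6 * q) hx hx1
        (by rw [abs_zero]; linarith) hV
      simpa using h4
    have hcont : Filter.Tendsto (fun x : ℝ => ‖χ.LFunction (1 + x)‖) (𝓝[>] 0)
        (𝓝 ‖χ.LFunction 1‖) := by
      have h5 : ContinuousAt (fun x : ℝ => ‖χ.LFunction (1 + x)‖) 0 := by
        have h6 : Continuous fun s => χ.LFunction s :=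
          (DirichletCharacter.differentiable_LFunction h1).continuous
        fun_prop
      have h7 := h5.tendsto
      simp only [ofReal_zero, add_zero] at h7
      exact h7.mono_left nhdsWithin_le_nhds
    have h8 : 1 / (4320 * V ^ 7) ≤ ‖χ.LFunction 1‖ := by
      refine ge_of_tendsto hcont ?_
      filter_upwards [Ioo_mem_nhdsGT (show (0 : ℝ) < 1 from one_pos)] with x hx
      exact h3 x hx.1 hx.2.le
    refine le_trans ?_ h8
    have h9 : V ^ 7 = A ^ 7 * (q : ℝ) ^ (14 * η) := by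
      rw [hVA, mul_pow, ← Real.rpow_natCast ((q : ℝ) ^ (2 * η)), ← Real.rpow_mul hq0.le]
      congr 2
      push_cast
      ring
    have h10 : (q : ℝ) ^ (14 * η) ≤ (q : ℝ) ^ ε :=
      Real.rpow_le_rpow_of_exponent_le hqr (by linarith)
    calc min c₀ (1 / (4320 * A ^ 7)) * (q : ℝ) ^ (-ε)
        ≤ (1 / (4320 * A ^ 7)) * (q : ℝ) ^ (-ε) :=
          mul_le_mul_of_nonneg_right (min_le_right _ _) (by positivity)
      _ = 1 / (4320 * (A ^ 7 * (q : ℝ) ^ ε)) := by
          rw [Real.rpow_neg hq0.le]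
          have : (q : ℝ) ^ ε ≠ 0 := (Real.rpow_pos_of_pos hq0 ε).ne'
          field_simp
      _ ≤ 1 / (4320 * V ^ 7) := by
          rw [h9]
          apply one_div_le_one_div_of_le (by positivity)
          have : 0 < A ^ 7 := by positivity
          nlinarith

end Run7.h306.HF
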