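import Pool.Agent.Run7.h306.HF1

/-!
# Stickelberger sums: conductors and the lower bound
-/

set_option autoImplicit false

open Finset Complex Filter Topology Pool.Agent.H916R2 HurwitzZeta ZMod

namespace Run7.h306.HF

/-- The Stickelberger sum of a primitive odd character and `L(1, χ⁻¹)`. -/
theorem SS_norm {m : ℕ} [NeZero m] (χ : DirichletCharacter ℂ m) (hχ : χ.Odd)
    (hprim : χ.IsPrimitive) :
    ‖SS χ 1‖ * (Real.pi * Real.sqrt m) = 2 * (m : ℝ) ^ 2 * ‖(χ⁻¹).LFunction 1‖ := by
  obtain ⟨ψ, hψ⟩ : ∃ ψ : DirichletCharacter ℂ m, ψ = χ⁻¹ := ⟨_, rfl⟩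
  have hψodd : ψ.Odd := by
    unfold DirichletCharacter.Odd at hχ ⊢
    rw [hψ, MulChar.inv_apply_eq_inv', hχ]
    norm_num
  have hψ1 : ψ ≠ 1 := by
    intro h
    unfold DirichletCharacter.Odd at hψodd
    rw [h] at hψodd
    rw [MulChar.one_apply (by simp : IsUnit (-1 : ZMod m))] at hψodd
    norm_num at hψodd
  have hψprim : ψ.IsPrimitive := by
    rw [hψ, DirichletCharacter.isPrimitive_def, DirichletCharacter.conductor_inv]
    exact hprim
  have hm : (m : ℂ) ≠ 0 := Nat.cast_ne_zero.mpr (NeZero.ne m)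
  set F : ZMod m → ℂ := ZMod.dft (fun j => ψ j) with hF
  have hF0 : F 0 = 0 := by
    rw [hF, ZMod.dft_apply_zero]
    exact MulChar.sum_eq_zero_of_ne_one hψ1
  have hfun : Function.Odd (fun j : ZMod m => ψ j) := hψodd.to_fun
  have hFodd : ∀ j, F (-j) = - F j := by
    have := ZMod.dft_odd_iff.mpr hfun
    exact this
  have hFF : ZMod.dft F = fun j => (m : ℂ) * (- ψ j) := by
    rw [hF, ZMod.dft_dft]
    funext j
    simp only [smul_eq_mul]
    rw [DirichletCharacter.Odd.eval_neg (ψ := ψ) j hψodd]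
  have hLF := ZMod.LFunction_dft F (s := 1) (Or.inl hF0)
  rw [hFF] at hLF
  have hlhs : ZMod.LFunction (fun j => (m : ℂ) * (- ψ j)) 1 =
      - (m : ℂ) * DirichletCharacter.LFunction ψ 1 := by
    unfold DirichletCharacter.LFunction ZMod.LFunction
    simp only [mul_sum]
    refine sum_congr rfl fun j _ => ?_
    ring
  have hrhs : ∑ j : ZMod m, F j * expZeta (toAddCircle (-j)) 1 =
      (-I) * ∑ j : ZMod m, F j * sinZeta (toAddCircle j) 1 := by
    have h1 : ∑ j : ZMod m, F j * expZeta (toAddCircle (-j)) 1 =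
        ∑ j : ZMod m, (- F j) * expZeta (toAddCircle j) 1 := by
      rw [← Equiv.sum_comp (Equiv.neg (ZMod m))]
      refine sum_congr rfl fun j _ => ?_
      simp only [Equiv.neg_apply, neg_neg, hFodd]
    have h2 : 2 * ∑ j : ZMod m, F j * expZeta (toAddCircle (-j)) 1 =
        2 * ((-I) * ∑ j : ZMod m, F j * sinZeta (toAddCircle j) 1) := by
      rw [two_mul]
      nth_rewrite 2 [h1]
      rw [← sum_add_distrib, mul_sum, mul_sum]
      refine sum_congr rfl fun j _ => ?_
      rw [sinZeta_eq, map_neg]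
      have hI : (2 : ℂ) * I ≠ 0 := by simp
      field_simp
      ring
    exact mul_left_cancel₀ two_ne_zero h2
  have hFg : ∀ j, F j = -(χ j * gaussSum ψ (ZMod.stdAddChar : AddChar (ZMod m) ℂ)) := by
    intro j
    have h := DirichletCharacter.IsPrimitive.fourierTransform_eq_inv_mul_gaussSum hψprim j
    have h2 : ψ⁻¹ (-j) = - χ j := by
      rw [hψ, inv_inv, DirichletCharacter.Odd.eval_neg (ψ := χ) j hχ]
    rw [h2] at h
    rw [hF, h]
    ring
  have hsum : ∑ j : ZMod m, F j * sinZeta (toAddCircle j) 1 =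
      (Real.pi / (2 * m)) * gaussSum ψ (ZMod.stdAddChar : AddChar (ZMod m) ℂ) * SS χ 1 := by
    have h3 : SS χ 1 = ∑ j : ZMod m, χ j * (saw j : ℂ) := by
      unfold SS
      simp only [mul_one]
      have h4 := sum_filter_add_sum_filter_not (univ : Finset (ZMod m)) (fun a => IsUnit a)
        (fun a => χ a * (saw a : ℂ))
      rw [← h4]
      have h0 : ∑ a ∈ univ.filter (fun a : ZMod m => ¬ IsUnit a), χ a * (saw a : ℂ) = 0 := by
        apply sum_eq_zero
        intro a ha
        rw [mem_filter] at ha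
        rw [MulChar.map_nonunit _ ha.2, zero_mul]
      rw [h0, add_zero]
      apply sum_bij (fun (a : (ZMod m)ˣ) _ => (a : ZMod m))
      · intro a _; simp
      · intro a _ b _ hab; exact Units.ext hab
      · intro b hb
        rw [mem_filter] at hb
        exact ⟨hb.2.unit, mem_univ _, rfl⟩
      · intro a _
        rfl
    rw [h3, mul_sum]
    refine sum_congr rfl fun j _ => ?_
    rw [sinZeta_toAddCircle, hFg]
    ring
  rw [hlhs, hrhs, hsum] at hLF
  have h5 := congrArg norm hLF
  rw [norm_mul, norm_mul, norm_mul, norm_mul, norm_neg, norm_neg, norm_I, one_mul, norm_div,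
    norm_mul, Complex.norm_natCast, Complex.norm_real, Complex.norm_ofNat,
    Real.norm_of_nonneg Real.pi_pos.le] at h5
  have h6 := Pool.Agent.Helper112.MLS.norm_gauss m hψprim
  have h7 : ‖gaussSum ψ (ZMod.stdAddChar : AddChar (ZMod m) ℂ)‖ = Real.sqrt m := by
    rw [← h6, Real.sqrt_sq (norm_nonneg _)]
  rw [h7] at h5
  have hm0 : (0 : ℝ) < m := by exact_mod_cast NeZero.pos m
  rw [← hψ]
  field_simp at h5
  linarith

end Run7.h306.HF
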