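import Pool.Agent.Run7.h306.HF2

/-!
# The lower bound for the Stickelberger sums modulo prime powers
-/

set_option autoImplicit false

open Finset Complex Filter Topology Pool.Agent.H916R2 HurwitzZeta ZMod

namespace Run7.h306.HF

theorem sum_comp_hom {G H : Type*} [Group G] [Group H] [Fintype G] [Fintype H] (π : G →* H)
    (hπ : Function.Surjective π) (F : H → ℂ) :
    (Fintype.card H : ℂ) * ∑ g, F (π g) = (Fintype.card G : ℂ) * ∑ h, F h := by
  have h1 : ∀ h : H, ∑ g, F (h * π g) = ∑ g, F (π g) := by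
    intro h
    obtain ⟨g₀, rfl⟩ := hπ h
    rw [← Equiv.sum_comp (Equiv.mulLeft g₀) (fun g => F (π g))]
    refine sum_congr rfl fun g _ => ?_
    rw [Equiv.coe_mulLeft, map_mul]
  have h2 : ∀ g : G, ∑ h, F (h * π g) = ∑ h, F h := by
    intro g
    rw [← Equiv.sum_comp (Equiv.mulRight (π g)) (fun h => F h)]
    rfl
  calc (Fintype.card H : ℂ) * ∑ g, F (π g) = ∑ h : H, ∑ g, F (h * π g) := by
        rw [sum_congr rfl fun h _ => h1 h, sum_const, card_univ, nsmul_eq_mul]
    _ = ∑ g : G, ∑ h, F (h * π g) := sum_comm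
    _ = (Fintype.card G : ℂ) * ∑ h, F h := by
        rw [sum_congr rfl fun g _ => h2 g, sum_const, card_univ, nsmul_eq_mul]

theorem saw_level {f g N : ℕ} [NeZero f] [NeZero N] (hgf : g * f = N) (t : ZMod N) :
    saw (t * (g : ZMod N)) = g * saw (ZMod.castHom (Dvd.intro_left g hgf) (ZMod f) t) := by
  have hg : g ≠ 0 := by
    rintro rfl
    rw [zero_mul] at hgf
    exact NeZero.ne N hgf.symm
  have h1 : (t * (g : ZMod N)).val = g * (ZMod.castHom (Dvd.intro_left g hgf) (ZMod f) t).val := by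
    have h2 : t * (g : ZMod N) = ((t.val * g : ℕ) : ZMod N) := by
      push_cast
      rw [ZMod.natCast_zmod_val]
    have h3 : ZMod.castHom (Dvd.intro_left g hgf) (ZMod f) t = ((t.val : ℕ) : ZMod f) := by
      rw [ZMod.castHom_apply, ZMod.cast_eq_val]
    have h5 : t.val * g % (g * f) = g * (t.val % f) := by
      rw [mul_comm t.val g, Nat.mul_mod_mul_left]
    rw [hgf] at h5
    rw [h2, h3, ZMod.val_natCast, ZMod.val_natCast, h5]
  have h4 : t * (g : ZMod N) = 0 ↔ ZMod.castHom (Dvd.intro_left g hgf) (ZMod f) t = 0 := by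
    rw [← ZMod.val_eq_zero, h1, ← ZMod.val_eq_zero]
    constructor
    · intro h
      rcases Nat.mul_eq_zero.1 h with h | h
      · exact absurd h hg
      · exact h
    · intro h
      rw [h, mul_zero]
  unfold saw
  by_cases h : t * (g : ZMod N) = 0
  · rw [if_pos h, if_pos (h4.1 h), mul_zero]
  · rw [if_neg h, if_neg (fun h' => h (h4.2 h')), h1]
    have hN : ((N : ℕ) : ℤ) = g * f := by exact_mod_cast hgf.symm
    rw [hN]
    push_cast
    ring

theorem unit_of {p K : ℕ} [Fact p.Prime] {c : ℕ} (hc : 1 ≤ c) (x : ZMod (p ^ K)) :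
    IsUnit (1 + x * ((p ^ c : ℕ) : ZMod (p ^ K))) := by
  apply IsNilpotent.isUnit_one_add
  refine ⟨K, ?_⟩
  rw [mul_pow]
  have h1 : (((p ^ c : ℕ) : ZMod (p ^ K)) ^ K) = 0 := by
    rw [← Nat.cast_pow, ← pow_mul, ZMod.natCast_eq_zero_iff]
    apply pow_dvd_pow
    nlinarith
  rw [h1, mul_zero]

/-- **The lower bound** -/
theorem SS_lower {ε : ℝ} (hε : 0 < ε) (hε2 : ε ≤ 1 / 2) : ∃ c : ℝ, 0 < c ∧
    ∀ (p K : ℕ) [Fact p.Prime] (χ : DirichletCharacter ℂ (p ^ K)), χ.Odd →
      c * ((p ^ K : ℕ) : ℝ) * (p : ℝ) ^ (1 / 2 - ε) ≤ ‖SS χ 1‖ := by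
  obtain ⟨c, hc, hL⟩ := L1_lower hε
  refine ⟨c / 2, by positivity, fun p K _ χ hχ => ?_⟩
  have hp : p.Prime := Fact.out
  have hp0 : (0 : ℝ) < p := by exact_mod_cast hp.pos
  have hp1 : (1 : ℝ) ≤ p := by exact_mod_cast hp.one_lt.le
  obtain ⟨f, hf⟩ : ∃ f, f = χ.conductor := ⟨_, rfl⟩
  have hdvd : χ.conductor ∣ p ^ K := χ.conductor_dvd_level
  obtain ⟨k, hkK, hk⟩ := (Nat.dvd_prime_pow hp).1 hdvd
  have hf0 : χ.conductor ≠ 0 := χ.conductor_ne_zero
  have : NeZero χ.conductor := ⟨hf0⟩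
  have hlev : DirichletCharacter.changeLevel hdvd χ.primitiveCharacter = χ :=
    χ.changeLevel_primitiveCharacter
  have hprim : χ.primitiveCharacter.IsPrimitive := χ.primitiveCharacter_isPrimitive
  have hval : ∀ u : (ZMod (p ^ K))ˣ, χ u = χ.primitiveCharacter (ZMod.unitsMap hdvd u) := by
    intro u
    conv_lhs => rw [← hlev]
    rw [DirichletCharacter.changeLevel_eq_cast_of_dvd]
    congr 1
  have hodd0 : χ.primitiveCharacter.Odd := by
    have h1 := hval (-1)
    unfold DirichletCharacter.Odd at hχ ⊢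
    rw [Units.val_neg, Units.val_one, hχ] at h1
    rw [h1]
    congr 1
    simp [ZMod.unitsMap]
  have hne1 : χ.primitiveCharacter ≠ 1 := by
    intro h
    unfold DirichletCharacter.Odd at hodd0
    rw [h, MulChar.one_apply (by simp : IsUnit (-1 : ZMod χ.conductor))] at hodd0
    norm_num at hodd0
  have hk1 : 1 ≤ k := by
    rcases Nat.eq_zero_or_pos k with h | h
    · exfalso
      apply hne1
      have h2 : χ.conductor = 1 := by rw [hk, h, pow_zero]
      apply MulChar.ext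
      intro a
      have h3 : Subsingleton (ZMod χ.conductor)ˣ := by
        rw [h2]
        infer_instance
      rw [Subsingleton.elim a 1]
      simp
    · exact h
  obtain ⟨g, hg⟩ : ∃ g, g = p ^ (K - k) := ⟨_, rfl⟩
  have hgf : g * χ.conductor = p ^ K := by
    rw [hg, hk, ← pow_add]
    congr 1
    omega
  -- first relation
  have hA : SS χ ((g : ZMod (p ^ K))) = g * SS χ 1 := by
    have h1 := SS_dist χ hgf 1
    rw [mul_one] at h1
    rw [← h1]
    have h2 : ∀ i ∈ range g, SS χ (1 + (i : ZMod (p ^ K)) * ((χ.conductor : ℕ) : ZMod (p ^ K))) =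
        SS χ 1 := by
      intro i _
      have h3 : IsUnit (1 + (i : ZMod (p ^ K)) * ((χ.conductor : ℕ) : ZMod (p ^ K))) := by
        have := unit_of (p := p) (K := K) hk1 (i : ZMod (p ^ K))
        rw [← hk] at this
        exact this
      obtain ⟨u, hu⟩ := h3
      have h4 := SS_unit χ u 1
      rw [mul_one] at h4
      rw [← hu, h4]
      have h5 : χ u = 1 := by
        rw [hval u]
        have h6 : ZMod.unitsMap hdvd u = 1 := by
          apply Units.ext
          rw [ZMod.unitsMap_def, Units.coe_map]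
          change ZMod.castHom hdvd (ZMod χ.conductor) (u : ZMod (p ^ K)) = 1
          rw [hu, map_add, map_one, map_mul, map_natCast, map_natCast, ZMod.natCast_self, mul_zero,
            add_zero]
        rw [h6, Units.val_one, map_one]
      rw [h5, inv_one, one_mul]
    rw [sum_congr rfl h2, sum_const, card_range, nsmul_eq_mul]
  -- second relation
  have hcard : Fintype.card (ZMod (p ^ K))ˣ = g * Fintype.card (ZMod χ.conductor)ˣ := by
    rw [ZMod.card_units_eq_totient, ZMod.card_units_eq_totient, hk, Nat.totient_prime_pow hp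
      (by omega), Nat.totient_prime_pow hp (by omega), hg, ← mul_assoc, ← pow_add]
    congr 2
    omega
  have hB : SS χ ((g : ZMod (p ^ K))) = g * g * SS χ.primitiveCharacter 1 := by
    have h1 : SS χ ((g : ZMod (p ^ K))) = ∑ t : (ZMod (p ^ K))ˣ,
        (fun a : (ZMod χ.conductor)ˣ => χ.primitiveCharacter a * ((g * saw (a : ZMod χ.conductor) :
          ℤ) : ℂ)) (ZMod.unitsMap hdvd t) := by
      unfold SS
      refine sum_congr rfl fun t _ => ?_
      rw [hval t, saw_level hgf]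
      rfl
    have h2 := sum_comp_hom (ZMod.unitsMap hdvd) (ZMod.unitsMap_surjective hdvd)
      (fun a : (ZMod χ.conductor)ˣ => χ.primitiveCharacter a * ((g * saw (a : ZMod χ.conductor) :
          ℤ) : ℂ))
    rw [← h1, hcard] at h2
    have h3 : ∑ a : (ZMod χ.conductor)ˣ, χ.primitiveCharacter a * ((g * saw (a : ZMod χ.conductor) :
          ℤ) : ℂ) = g * SS χ.primitiveCharacter 1 := by
      unfold SS
      rw [mul_sum]
      refine sum_congr rfl fun t _ => ?_
      rw [mul_one]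
      push_cast
      ring
    rw [h3] at h2
    have h4 : (Fintype.card (ZMod χ.conductor)ˣ : ℂ) ≠ 0 := by
      exact_mod_cast Fintype.card_ne_zero
    apply mul_left_cancel₀ h4
    rw [h2]
    push_cast
    ring
  have hg0 : 0 < g := by
    rw [hg]
    exact pow_pos hp.pos _
  have hgC : (g : ℂ) ≠ 0 := by exact_mod_cast hg0.ne'
  have hAB : SS χ 1 = g * SS χ.primitiveCharacter 1 := by
    apply mul_left_cancel₀ hgC
    rw [← hA, hB]
    ring
  have h1 := SS_norm χ.primitiveCharacter hodd0 hprim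
  have hinv1 : (χ.primitiveCharacter)⁻¹ ≠ 1 := fun h => hne1 (inv_eq_one.1 h)
  have hinvp : ((χ.primitiveCharacter)⁻¹).IsPrimitive := by
    rw [DirichletCharacter.isPrimitive_def, DirichletCharacter.conductor_inv]
    exact hprim
  have h2 := hL χ.conductor _ hinvp hinv1
  obtain ⟨fr, hfr⟩ : ∃ fr : ℝ, fr = (χ.conductor : ℝ) := ⟨_, rfl⟩
  rw [← hfr] at h1 h2
  have hfr1 : (p : ℝ) ≤ fr := by
    rw [hfr, hk]
    push_cast
    exact le_self_pow₀ hp1 (by omega)
  have hfr0 : 0 < fr := by linarith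
  have hsq : Real.sqrt fr = fr ^ (1 / 2 : ℝ) := Real.sqrt_eq_rpow fr
  have h3 : fr ^ (1 / 2 : ℝ) * fr ^ (1 / 2 : ℝ) = fr := by
    rw [← Real.rpow_add hfr0]
    norm_num
  have hsp : 0 < fr ^ (1 / 2 : ℝ) := Real.rpow_pos_of_pos hfr0 _
  have h4 : c * fr * (fr ^ (1 / 2 - ε)) / 2 ≤ ‖SS χ.primitiveCharacter 1‖ := by
    have h5 : fr ^ (1 / 2 - ε) = fr ^ (1 / 2 : ℝ) * fr ^ (-ε) := by
      rw [← Real.rpow_add hfr0]
      congr 1
    have h6 : ‖SS χ.primitiveCharacter 1‖ * (Real.pi * fr ^ (1 / 2 : ℝ)) ≤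
        ‖SS χ.primitiveCharacter 1‖ * (4 * fr ^ (1 / 2 : ℝ)) := by
      apply mul_le_mul_of_nonneg_left _ (norm_nonneg _)
      apply mul_le_mul_of_nonneg_right _ hsp.le
      have := Real.pi_lt_four
      linarith
    rw [hsq] at h1
    rw [h1] at h6
    have h7 : 2 * fr ^ 2 * (c * fr ^ (-ε)) ≤ ‖SS χ.primitiveCharacter 1‖ * (4 * fr ^ (1 / 2 : ℝ)) :=
      le_trans (mul_le_mul_of_nonneg_left h2 (by positivity)) h6
    have h8 : (c * fr * (fr ^ (1 / 2 - ε)) / 2) * (4 * fr ^ (1 / 2 : ℝ)) =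
        2 * fr ^ 2 * (c * fr ^ (-ε)) := by
      rw [h5]
      calc (c * fr * (fr ^ (1 / 2 : ℝ) * fr ^ (-ε)) / 2) * (4 * fr ^ (1 / 2 : ℝ))
          = 2 * (fr * (fr ^ (1 / 2 : ℝ) * fr ^ (1 / 2 : ℝ))) * (c * fr ^ (-ε)) := by ring
        _ = 2 * fr ^ 2 * (c * fr ^ (-ε)) := by rw [h3]; ring
    rw [← h8] at h7
    exact le_of_mul_le_mul_right h7 (by positivity)
  rw [hAB, norm_mul, Complex.norm_natCast]
  have h9 : (((p ^ K : ℕ) : ℝ)) = g * fr := by
    rw [← hgf, hfr]
    push_cast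
    ring
  have h10 : (p : ℝ) ^ (1 / 2 - ε) ≤ fr ^ (1 / 2 - ε) :=
    Real.rpow_le_rpow hp0.le hfr1 (by linarith)
  rw [h9]
  have hgr : (0 : ℝ) < g := by exact_mod_cast hg0
  calc c / 2 * (g * fr) * (p : ℝ) ^ (1 / 2 - ε) ≤ c / 2 * (g * fr) * fr ^ (1 / 2 - ε) :=
        mul_le_mul_of_nonneg_left h10 (by positivity)
    _ = g * (c * fr * (fr ^ (1 / 2 - ε)) / 2) := by ring
    _ ≤ g * ‖SS χ.primitiveCharacter 1‖ := mul_le_mul_of_nonneg_left h4 hgr.le

end Run7.h306.HF
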