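import Pool.Agent.Run7.h306.HF3

/-!
# The energy inequality and the stabilizers of combinations of sawtooth functions
-/

set_option autoImplicit false

open Finset Complex Filter Topology Pool.Agent.H916R2

namespace Run7.h306.HF

variable {N : ℕ} [NeZero N]

/-- the combination of sawtooth functions with multiplicities `n` -/
def FF (n : ZMod N → ℤ) (t : ZMod N) : ℤ := ∑ b : (ZMod N)ˣ, n b * saw (t * (b : ZMod N))

theorem units_sum (χ : DirichletCharacter ℂ N) (g : ZMod N → ℂ) :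
    ∑ a : ZMod N, χ a * g a = ∑ a : (ZMod N)ˣ, χ a * g a := by
  have h4 := sum_filter_add_sum_filter_not (univ : Finset (ZMod N)) (fun a => IsUnit a)
    (fun a => χ a * g a)
  rw [← h4]
  have h0 : ∑ a ∈ univ.filter (fun a : ZMod N => ¬ IsUnit a), χ a * g a = 0 := by
    apply sum_eq_zero
    intro a ha
    rw [mem_filter] at ha
    rw [MulChar.map_nonunit _ ha.2, zero_mul]
  rw [h0, add_zero]
  symm
  apply sum_bij (fun (a : (ZMod N)ˣ) _ => (a : ZMod N))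
  · intro a _; simp
  · intro a _ b _ hab; exact Units.ext hab
  · intro b hb
    rw [mem_filter] at hb
    exact ⟨hb.2.unit, mem_univ _, rfl⟩
  · intro a _
    rfl

theorem SS_even (χ : DirichletCharacter ℂ N) (hχ : χ.Even) (a : ZMod N) : SS χ a = 0 := by
  have h1 := SS_unit χ (-1) a
  have h2 : χ ((-1 : (ZMod N)ˣ) : ZMod N) = 1 := by
    rw [Units.val_neg, Units.val_one]
    exact hχ
  rw [h2, inv_one, one_mul, Units.val_neg, Units.val_one, neg_one_mul, SS_neg] at h1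
  have h3 : (2 : ℂ) * SS χ a = 0 := by linear_combination -h1
  simpa using h3

/-- The coefficients of `FF` for a character. -/
theorem FF_char (χ : DirichletCharacter ℂ N) (n : ZMod N → ℤ) :
    2 * ∑ t : (ZMod N)ˣ, χ⁻¹ t * (FF n t : ℂ) =
      (∑ b : (ZMod N)ˣ, χ b * ((n b - n (-b) : ℤ) : ℂ)) * SS χ⁻¹ 1 := by
  have h1 : ∑ t : (ZMod N)ˣ, χ⁻¹ t * (FF n t : ℂ) =
      (∑ b : (ZMod N)ˣ, χ b * (n b : ℂ)) * SS χ⁻¹ 1 := by
    unfold FF
    push_cast
    simp only [mul_sum]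
    rw [sum_comm, sum_mul]
    refine sum_congr rfl fun b _ => ?_
    have h2 := SS_unit χ⁻¹ b 1
    rw [mul_one, MulChar.inv_apply_eq_inv', inv_inv] at h2
    rw [mul_comm (χ b), mul_assoc, ← h2]
    unfold SS
    rw [mul_sum]
    refine sum_congr rfl fun t _ => ?_
    ring
  rw [h1]
  rcases χ.even_or_odd with he | ho
  · have h2 : (χ⁻¹).Even := by
      unfold DirichletCharacter.Even at he ⊢
      rw [MulChar.inv_apply_eq_inv', he, inv_one]
    rw [SS_even _ h2, mul_zero, mul_zero, mul_zero]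
  · have h2 : ∑ b : (ZMod N)ˣ, χ b * ((n b - n (-b) : ℤ) : ℂ) =
        2 * ∑ b : (ZMod N)ˣ, χ b * (n b : ℂ) := by
      have h3 : ∑ b : (ZMod N)ˣ, χ b * ((n (-b) : ℤ) : ℂ) =
          - ∑ b : (ZMod N)ˣ, χ b * (n b : ℂ) := by
        rw [← Equiv.sum_comp (Equiv.neg (ZMod N)ˣ), ← sum_neg_distrib]
        refine sum_congr rfl fun b _ => ?_
        rw [Equiv.neg_apply, Units.val_neg, neg_neg, DirichletCharacter.Odd.eval_neg (ψ := χ) _ ho]
        ring
      push_cast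
      simp only [mul_sub, sum_sub_distrib]
      rw [h3]
      ring
    rw [h2]
    ring

theorem energy {β : ℝ} (hβ : 0 ≤ β)
    (hSS : ∀ χ : DirichletCharacter ℂ N, χ.Odd → β ≤ ‖SS χ 1‖) (n : ZMod N → ℤ) :
    β ^ 2 * ∑ b : (ZMod N)ˣ, ((n b - n (-b) : ℤ) : ℝ) ^ 2 ≤
      4 * ∑ t : (ZMod N)ˣ, ((FF n t : ℤ) : ℝ) ^ 2 := by
  classical
  have hφ : (0 : ℝ) < Nat.totient N := by
    exact_mod_cast Nat.totient_pos.2 (NeZero.pos N)
  have h1 := Pool.Agent.Helper112.MLS.sum_all N (fun a => ((FF n a : ℤ) : ℂ))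
  have h2 := Pool.Agent.Helper112.MLS.sum_all N (fun a => ((n a - n (-a) : ℤ) : ℂ))
  have h3 : ∀ χ : DirichletCharacter ℂ N,
      β ^ 2 * ‖∑ a : ZMod N, χ a * ((n a - n (-a) : ℤ) : ℂ)‖ ^ 2 ≤
        4 * ‖∑ a : ZMod N, χ⁻¹ a * ((FF n a : ℤ) : ℂ)‖ ^ 2 := by
    intro χ
    rw [units_sum, units_sum]
    have h4 := congrArg norm (FF_char χ n)
    rw [norm_mul, norm_mul, Complex.norm_ofNat] at h4
    have h5 : 4 * ‖∑ t : (ZMod N)ˣ, χ⁻¹ t * (FF n t : ℂ)‖ ^ 2 =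
        (‖∑ b : (ZMod N)ˣ, χ b * ((n b - n (-b) : ℤ) : ℂ)‖ * ‖SS χ⁻¹ 1‖) ^ 2 := by
      rw [← h4]
      ring
    rw [h5, mul_pow, mul_comm]
    rcases χ.even_or_odd with he | ho
    · have h6 : ∑ b : (ZMod N)ˣ, χ b * ((n b - n (-b) : ℤ) : ℂ) = 0 := by
        have h7 : ∑ b : (ZMod N)ˣ, χ b * ((n b - n (-b) : ℤ) : ℂ) =
            - ∑ b : (ZMod N)ˣ, χ b * ((n b - n (-b) : ℤ) : ℂ) := by
          nth_rewrite 1 [← Equiv.sum_comp (Equiv.neg (ZMod N)ˣ)]
          rw [← sum_neg_distrib]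
          refine sum_congr rfl fun b _ => ?_
          rw [Equiv.neg_apply, Units.val_neg, neg_neg, DirichletCharacter.Even.eval_neg (ψ := χ) _ he]
          push_cast
          ring
        have h8 : (2 : ℂ) * ∑ b : (ZMod N)ˣ, χ b * ((n b - n (-b) : ℤ) : ℂ) = 0 := by
          linear_combination h7
        simpa using h8
      rw [h6, norm_zero]
      simp
    · have h2 : (χ⁻¹).Odd := by
        unfold DirichletCharacter.Odd at ho ⊢
        rw [MulChar.inv_apply_eq_inv', ho]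
        norm_num
      have h7 := hSS _ h2
      apply mul_le_mul_of_nonneg_left _ (by positivity)
      exact pow_le_pow_left₀ hβ h7 2
  have h4 : ∑ χ : DirichletCharacter ℂ N, ‖∑ a : ZMod N, χ a * ((n a - n (-a) : ℤ) : ℂ)‖ ^ 2 =
      Nat.totient N * ∑ a : (ZMod N)ˣ, ‖((n a - n (-a) : ℤ) : ℂ)‖ ^ 2 := by
    rw [← h2]
    exact (Equiv.sum_comp (Equiv.inv (DirichletCharacter ℂ N))
      (fun χ => ‖∑ a : ZMod N, χ a * ((n a - n (-a) : ℤ) : ℂ)‖ ^ 2)).symm
  have h5 : β ^ 2 * (Nat.totient N * ∑ a : (ZMod N)ˣ, ‖((n a - n (-a) : ℤ) : ℂ)‖ ^ 2) ≤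
      4 * (Nat.totient N * ∑ a : (ZMod N)ˣ, ‖((FF n a : ℤ) : ℂ)‖ ^ 2) := by
    rw [← h4, ← h1, mul_sum, mul_sum]
    exact sum_le_sum fun χ _ => h3 χ
  have h6 : ∀ z : ℤ, ‖((z : ℤ) : ℂ)‖ ^ 2 = ((z : ℤ) : ℝ) ^ 2 := by
    intro z
    rw [Complex.norm_intCast, sq_abs]
  simp only [h6] at h5
  have h7 : Nat.totient N * (β ^ 2 * ∑ b : (ZMod N)ˣ, ((n b - n (-b) : ℤ) : ℝ) ^ 2) ≤
      Nat.totient N * (4 * ∑ t : (ZMod N)ˣ, ((FF n t : ℤ) : ℝ) ^ 2) := by linarith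
  exact le_of_mul_le_mul_left h7 hφ

/-- **The stabilizer of a combination of sawtooth functions.** -/
theorem stab {β : ℝ} (hβ : 0 < β)
    (hSS : ∀ χ : DirichletCharacter ℂ N, χ.Odd → β ≤ ‖SS χ 1‖) (n : ZMod N → ℤ)
    (H : Subgroup (ZMod N)ˣ) (hinv : ∀ h ∈ H, ∀ t : (ZMod N)ˣ, FF n ((h * t : (ZMod N)ˣ)) = FF n t)
    (M : ℝ) (hM : ∀ t : (ZMod N)ˣ, |((FF n t : ℤ) : ℝ)| ≤ M) (hne : ∃ t : (ZMod N)ˣ, FF n t ≠ 0) :
    β ^ 2 ≤ 2 * H.index * M ^ 2 := by
  classical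
  obtain ⟨ν, hν⟩ : ∃ ν : (ZMod N)ˣ → ℤ,
      ν = fun b : (ZMod N)ˣ => n (b : ZMod N) - n (-(b : ZMod N)) := ⟨_, rfl⟩
  -- injectivity
  have hinj : ∀ n' : ZMod N → ℤ, (∀ t : (ZMod N)ˣ, FF n' t = 0) →
      ∀ b : (ZMod N)ˣ, n' b - n' (-b) = 0 := by
    intro n' h0 b
    have h1 := energy hβ.le hSS n'
    have h2 : ∑ t : (ZMod N)ˣ, ((FF n' t : ℤ) : ℝ) ^ 2 = 0 := by
      apply sum_eq_zero
      intro t _
      rw [h0 t]
      simp
    rw [h2, mul_zero] at h1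
    have h3 : ∑ b : (ZMod N)ˣ, ((n' b - n' (-b) : ℤ) : ℝ) ^ 2 ≤ 0 := by
      by_contra h4
      push Not at h4
      have : 0 < β ^ 2 * ∑ b : (ZMod N)ˣ, ((n' b - n' (-b) : ℤ) : ℝ) ^ 2 := by positivity
      linarith
    have h5 : ∑ b : (ZMod N)ˣ, ((n' b - n' (-b) : ℤ) : ℝ) ^ 2 = 0 :=
      le_antisymm h3 (sum_nonneg fun _ _ => sq_nonneg _)
    have h6 := (sum_eq_zero_iff_of_nonneg (fun _ _ => sq_nonneg _)).1 h5 b (mem_univ _)
    have h7 : ((n' b - n' (-b) : ℤ) : ℝ) = 0 := by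
      exact pow_eq_zero_iff two_ne_zero |>.1 h6
    exact_mod_cast h7
  have hνinv : ∀ h ∈ H, ∀ b, ν (h * b) = ν b := by
    intro h hh b
    have h1 := hinj (fun a => n ((h : ZMod N) * a) - n a) (fun t => by
      have h2 : FF (fun a => n ((h : ZMod N) * a)) t = FF n ((h⁻¹ * t : (ZMod N)ˣ)) := by
        unfold FF
        rw [← Equiv.sum_comp (Equiv.mulLeft h⁻¹) (fun b : (ZMod N)ˣ =>
          n ((h : ZMod N) * (b : ZMod N)) * saw ((t : ZMod N) * (b : ZMod N)))]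
        refine sum_congr rfl fun b _ => ?_
        rw [Equiv.coe_mulLeft, ← Units.val_mul, ← Units.val_mul, ← Units.val_mul,
          mul_inv_cancel_left, ← mul_assoc, mul_comm t h⁻¹]
      have h3 := hinv _ (H.inv_mem hh) t
      have h4 : FF (fun a => n ((h : ZMod N) * a) - n a) t =
          FF (fun a => n ((h : ZMod N) * a)) t - FF n t := by
        unfold FF
        rw [← sum_sub_distrib]
        refine sum_congr rfl fun b _ => ?_
        ring
      rw [h4, h2, h3, sub_self]) b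
    rw [hν]
    change n ((h * b : (ZMod N)ˣ)) - n (-((h * b : (ZMod N)ˣ))) = n b - n (-b)
    have h5 : n ((h : ZMod N) * (b : ZMod N)) - n b -
        (n ((h : ZMod N) * (-(b : ZMod N))) - n (-(b : ZMod N))) = 0 := h1
    rw [Units.val_mul, ← mul_neg]
    linarith
  have hνneg : ∀ b, ν (-b) = - ν b := by
    intro b
    rw [hν]
    simp only [Units.val_neg, neg_neg]
    ring
  obtain ⟨b₀, hb₀⟩ : ∃ b, ν b ≠ 0 := by
    by_contra hall
    push Not at hall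
    obtain ⟨t, ht⟩ := hne
    apply ht
    have h1 : FF n t = - FF n t := by
      nth_rewrite 1 [FF]
      rw [← Equiv.sum_comp (Equiv.neg (ZMod N)ˣ), FF, ← sum_neg_distrib]
      refine sum_congr rfl fun b _ => ?_
      rw [Equiv.neg_apply, Units.val_neg, mul_neg, saw_neg]
      have h2 := hall b
      rw [hν] at h2
      simp only at h2
      have h3 : n (-(b : ZMod N)) = n b := by linarith
      rw [h3]
      ring
    omega
  have hsum : 2 * (Nat.card H : ℝ) ≤ ∑ b : (ZMod N)ˣ, ((ν b : ℤ) : ℝ) ^ 2 := by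
    let e : Bool × H → (ZMod N)ˣ := fun x => if x.1 then x.2 * b₀ else -(x.2 * b₀)
    have hν1 : ∀ x, ((ν (e x) : ℤ) : ℝ) ^ 2 = ((ν b₀ : ℤ) : ℝ) ^ 2 := by
      rintro ⟨s, h⟩
      cases s
      · change ((ν (if false = true then h * b₀ else -(h * b₀)) : ℤ) : ℝ) ^ 2 = _
        rw [if_neg (by simp), hνneg, hνinv _ h.2]
        push_cast
        ring
      · change ((ν (if true = true then h * b₀ else -(h * b₀)) : ℤ) : ℝ) ^ 2 = _
        rw [if_pos rfl, hνinv _ h.2]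
    have hsgn : ∀ x, ν (e x) = if x.1 then ν b₀ else - ν b₀ := by
      rintro ⟨s, h⟩
      cases s
      · change ν (if false = true then h * b₀ else -(h * b₀)) = _
        rw [if_neg (by simp), hνneg, hνinv _ h.2]
        simp
      · change ν (if true = true then h * b₀ else -(h * b₀)) = _
        rw [if_pos rfl, hνinv _ h.2]
        simp
    have heinj : Function.Injective e := by
      rintro ⟨s, h⟩ ⟨s', h'⟩ hee
      have h1 := congrArg ν hee
      rw [hsgn, hsgn] at h1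
      have hss : s = s' := by
        cases s <;> cases s' <;> simp at h1 ⊢
        · omega
        · omega
      subst hss
      cases s
      · have h2 : -((h : (ZMod N)ˣ) * b₀) = -((h' : (ZMod N)ˣ) * b₀) := by simpa [e] using hee
        have h3 := mul_right_cancel (neg_injective h2)
        rw [Subtype.ext h3]
      · have h2 : (h : (ZMod N)ˣ) * b₀ = (h' : (ZMod N)ˣ) * b₀ := by simpa [e] using hee
        have h3 := mul_right_cancel h2
        rw [Subtype.ext h3]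
    have h1 : ∑ x : Bool × H, ((ν (e x) : ℤ) : ℝ) ^ 2 ≤ ∑ b : (ZMod N)ˣ, ((ν b : ℤ) : ℝ) ^ 2 := by
      rw [← sum_image (s := univ) (g := e) (f := fun b => ((ν b : ℤ) : ℝ) ^ 2)
        (fun x _ y _ h => heinj h)]
      exact sum_le_sum_of_subset_of_nonneg (subset_univ _) (fun _ _ _ => sq_nonneg _)
    refine le_trans ?_ h1
    rw [sum_congr rfl fun x _ => hν1 x, sum_const, card_univ, nsmul_eq_mul, Fintype.card_prod,
      Fintype.card_bool]
    have h2 : (1 : ℝ) ≤ ((ν b₀ : ℤ) : ℝ) ^ 2 := by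
      have h3 : (1 : ℤ) ≤ (ν b₀) ^ 2 := by
        have : 0 < (ν b₀) ^ 2 := by positivity
        omega
      exact_mod_cast h3
    rw [Nat.card_eq_fintype_card]
    push_cast
    have h3 : (0 : ℝ) ≤ Fintype.card H := Nat.cast_nonneg _
    nlinarith
  have hE := energy hβ.le hSS n
  have hup : ∑ t : (ZMod N)ˣ, ((FF n t : ℤ) : ℝ) ^ 2 ≤ Nat.card (ZMod N)ˣ * M ^ 2 := by
    have h1 : ∀ t ∈ (univ : Finset (ZMod N)ˣ), ((FF n t : ℤ) : ℝ) ^ 2 ≤ M ^ 2 := by
      intro t _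
      rw [← sq_abs]
      exact pow_le_pow_left₀ (abs_nonneg _) (hM t) 2
    refine (sum_le_sum h1).trans ?_
    rw [sum_const, card_univ, nsmul_eq_mul, Nat.card_eq_fintype_card]
  have hcard : (Nat.card (ZMod N)ˣ : ℝ) = Nat.card H * H.index := by
    have := H.card_mul_index
    exact_mod_cast this.symm
  have hH0 : (0 : ℝ) < Nat.card H := by exact_mod_cast Nat.card_pos
  have h1 : β ^ 2 * (2 * (Nat.card H : ℝ)) ≤ 4 * (Nat.card H * H.index * M ^ 2) := by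
    have h2 : ∑ b : (ZMod N)ˣ, ((ν b : ℤ) : ℝ) ^ 2 =
        ∑ b : (ZMod N)ˣ, ((n b - n (-b) : ℤ) : ℝ) ^ 2 := by rw [hν]
    rw [← h2] at hE
    have h3 : β ^ 2 * (2 * (Nat.card H : ℝ)) ≤ β ^ 2 * ∑ b : (ZMod N)ˣ, ((ν b : ℤ) : ℝ) ^ 2 :=
      mul_le_mul_of_nonneg_left hsum (by positivity)
    rw [hcard] at hup
    linarith
  have h4 : (2 * (Nat.card H : ℝ)) * β ^ 2 ≤ (2 * (Nat.card H : ℝ)) * (2 * H.index * M ^ 2) := by
    nlinarith
  exact le_of_mul_le_mul_left h4 (by positivity)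

end Run7.h306.HF
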