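import Pool.Agent.Run7.h306.HF4

/-!
# Sums of sawtooth functions modulo prime powers and their stabilizers
-/

set_option autoImplicit false

open Finset Complex Filter Topology Pool.Agent.H916R2

namespace Run7.h306.HF

theorem FF_add {N : ℕ} [NeZero N] (n n' : ZMod N → ℤ) (t : ZMod N) :
    FF (fun a => n a + n' a) t = FF n t + FF n' t := by
  unfold FF
  rw [← sum_add_distrib]
  refine sum_congr rfl fun b _ => ?_
  ring

theorem exists_FF_sum {N : ℕ} [NeZero N] {ι : Type*} (s : Finset ι) (F : ι → (ZMod N)ˣ → ℤ)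
    (h : ∀ i ∈ s, ∃ n : ZMod N → ℤ, ∀ t : (ZMod N)ˣ, FF n t = F i t) :
    ∃ n : ZMod N → ℤ, ∀ t : (ZMod N)ˣ, FF n t = ∑ i ∈ s, F i t := by
  classical
  induction s using Finset.induction_on with
  | empty =>
    refine ⟨fun _ => 0, fun t => ?_⟩
    unfold FF
    simp
  | insert i s hi ih =>
    obtain ⟨n, hn⟩ := ih fun j hj => h j (mem_insert_of_mem hj)
    obtain ⟨n', hn'⟩ := h i (mem_insert_self i s)
    refine ⟨fun a => n' a + n a, fun t => ?_⟩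
    rw [FF_add, hn, hn', sum_insert hi]

theorem exists_FF_unit {N : ℕ} [NeZero N] (u : (ZMod N)ˣ) :
    ∃ n : ZMod N → ℤ, ∀ t : (ZMod N)ˣ, FF n t = saw ((t : ZMod N) * (u : ZMod N)) := by
  classical
  refine ⟨fun a => if a = u then 1 else 0, fun t => ?_⟩
  unfold FF
  rw [sum_eq_single u]
  · beta_reduce
    rw [if_pos rfl, one_mul]
  · intro b _ hb
    beta_reduce
    rw [if_neg (fun h => hb (Units.ext h)), zero_mul]
  · intro h
    exact absurd (mem_univ _) h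

theorem exists_FF {p K : ℕ} [hp : Fact p.Prime] (x : ZMod (p ^ K)) (hx : x ≠ 0) :
    ∃ n : ZMod (p ^ K) → ℤ, ∀ t : (ZMod (p ^ K))ˣ, FF n t = saw ((t : ZMod (p ^ K)) * x) := by
  have hx0 : x.val ≠ 0 := fun h => hx ((ZMod.val_eq_zero x).1 h)
  obtain ⟨v, y, hy, hxy⟩ := Nat.exists_eq_pow_mul_and_not_dvd hx0 p hp.out.ne_one
  have hvK : v < K := by
    by_contra h
    push Not at h
    have h1 : p ^ K ∣ x.val := by
      rw [hxy]
      exact (pow_dvd_pow p h).trans (dvd_mul_right _ _)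
    have h2 := Nat.le_of_dvd (Nat.pos_of_ne_zero hx0) h1
    have h3 := ZMod.val_lt x
    omega
  have hcop : y.Coprime (p ^ K) := by
    apply Nat.Coprime.pow_right
    rw [Nat.coprime_comm]
    exact (Nat.Prime.coprime_iff_not_dvd hp.out).2 hy
  obtain ⟨u, hu⟩ : ∃ u : (ZMod (p ^ K))ˣ, (u : ZMod (p ^ K)) = (y : ZMod (p ^ K)) :=
    ⟨ZMod.unitOfCoprime y hcop, ZMod.coe_unitOfCoprime y hcop⟩
  have hpd : p ^ v * p ^ (K - v) = p ^ K := by
    rw [← pow_add]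
    congr 1
    omega
  have hxe : x = ((p ^ v : ℕ) : ZMod (p ^ K)) * u := by
    rw [hu, ← Nat.cast_mul, ← hxy, ZMod.natCast_zmod_val]
  have h1 : ∀ i ∈ range (p ^ v), ∃ n : ZMod (p ^ K) → ℤ, ∀ t : (ZMod (p ^ K))ˣ, FF n t =
      saw ((t : ZMod (p ^ K)) * ((u : ZMod (p ^ K)) +
        (i : ZMod (p ^ K)) * ((p ^ (K - v) : ℕ) : ZMod (p ^ K)))) := by
    intro i _
    have h2 : IsUnit (1 + ((u⁻¹ : (ZMod (p ^ K))ˣ) * (i : ZMod (p ^ K))) *
        ((p ^ (K - v) : ℕ) : ZMod (p ^ K))) := unit_of (by omega) _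
    obtain ⟨w, hw⟩ := h2
    obtain ⟨n, hn⟩ := exists_FF_unit (u * w)
    refine ⟨n, fun t => ?_⟩
    rw [hn t, Units.val_mul, hw]
    congr 2
    rw [mul_add, mul_one]
    congr 1
    rw [← mul_assoc, ← mul_assoc, Units.mul_inv, one_mul]
  obtain ⟨n, hn⟩ := exists_FF_sum (range (p ^ v)) _ h1
  refine ⟨n, fun t => ?_⟩
  rw [hn t, saw_dist_unit hpd, hxe]

/-- **The core estimate**: a nonzero sum of sawtooth functions modulo a power of `p` with small values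
has a stabilizer of large index. -/
theorem core {ε : ℝ} (hε : 0 < ε) (hε2 : ε ≤ 1 / 2) : ∃ c : ℝ, 0 < c ∧
    ∀ (p K : ℕ) [Fact p.Prime] {ι : Type} (s : Finset ι) (x : ι → ZMod (p ^ K))
      (_ : ∀ i ∈ s, x i ≠ 0) (H : Subgroup (ZMod (p ^ K))ˣ)
      (_ : ∀ h ∈ H, ∀ t : (ZMod (p ^ K))ˣ, ∑ i ∈ s, saw (((h * t : (ZMod (p ^ K))ˣ) :
        ZMod (p ^ K)) * x i) = ∑ i ∈ s, saw ((t : ZMod (p ^ K)) * x i)) (M : ℝ)
      (_ : ∀ t : (ZMod (p ^ K))ˣ, |((∑ i ∈ s, saw ((t : ZMod (p ^ K)) * x i) : ℤ) : ℝ)| ≤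
        ((p ^ K : ℕ) : ℝ) * M)
      (_ : ∃ t : (ZMod (p ^ K))ˣ, ∑ i ∈ s, saw ((t : ZMod (p ^ K)) * x i) ≠ 0),
      c * (p : ℝ) ^ (1 - 2 * ε) ≤ H.index * M ^ 2 := by
  obtain ⟨c, hc, hL⟩ := SS_lower hε hε2
  refine ⟨c ^ 2 / 2, by positivity, ?_⟩
  intro p K _ ι s x hx H hinv M hM hne
  have hp : p.Prime := Fact.out
  have hp0 : (0 : ℝ) < p := by exact_mod_cast hp.pos
  obtain ⟨n, hn⟩ := exists_FF_sum s (fun i (t : (ZMod (p ^ K))ˣ) => saw ((t : ZMod (p ^ K)) * x i))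
    (fun i hi => exists_FF (x i) (hx i hi))
  have hN : (0 : ℝ) < ((p ^ K : ℕ) : ℝ) := by exact_mod_cast pow_pos hp.pos K
  have h1 := stab (N := p ^ K) (β := c * ((p ^ K : ℕ) : ℝ) * (p : ℝ) ^ (1 / 2 - ε))
    (by positivity) (fun χ hχ => hL p K χ hχ) n H (fun h hh t => by
      rw [hn, hn]
      exact hinv h hh t) (((p ^ K : ℕ) : ℝ) * M) (fun t => by
      rw [hn]
      exact hM t) (by
      obtain ⟨t, ht⟩ := hne
      exact ⟨t, by rw [hn]; exact ht⟩)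
  have h2 : (c * ((p ^ K : ℕ) : ℝ) * (p : ℝ) ^ (1 / 2 - ε)) ^ 2 =
      ((p ^ K : ℕ) : ℝ) ^ 2 * (c ^ 2 * (p : ℝ) ^ (1 - 2 * ε)) := by
    rw [mul_pow, mul_pow, ← Real.rpow_natCast ((p : ℝ) ^ (1 / 2 - ε)), ← Real.rpow_mul hp0.le]
    have : (1 / 2 - ε) * ((2 : ℕ) : ℝ) = 1 - 2 * ε := by push_cast; ring
    rw [this]
    ring
  rw [h2] at h1
  have h3 : ((p ^ K : ℕ) : ℝ) ^ 2 * (c ^ 2 * (p : ℝ) ^ (1 - 2 * ε)) ≤
      ((p ^ K : ℕ) : ℝ) ^ 2 * (2 * (H.index * M ^ 2)) := by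
    refine h1.trans (le_of_eq ?_)
    ring
  have h4 := le_of_mul_le_mul_left h3 (by positivity)
  linarith

end Run7.h306.HF
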