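import Pool.Agent.Run7.h306.HFDefs
import Pool.Agent.H977R3.CM.Aut

/-!
# Automorphisms of `ℂ` and roots of unity
-/

set_option autoImplicit false

open Complex

namespace Run7.h306.HF

/-- For `k` a unit modulo `N` there is an automorphism of `ℂ` which acts as the `k`-th power map on
the `N`-th roots of unity (proof from `Helper606_LC/Aut`). -/
theorem exists_aut_pow {N : ℕ} (hN : 0 < N) (k : (ZMod N)ˣ) :
    ∃ σ : ℂ ≃+* ℂ, ∀ z : ℂ, z ^ N = 1 → σ z = z ^ (k : ZMod N).val := by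
  have hN' : NeZero N := ⟨hN.ne'⟩
  have hcyc : IsCyclotomicExtension {N} ℚ (CyclotomicField N ℚ) :=
    CyclotomicField.isCyclotomicExtension N ℚ
  have hirr : Irreducible (Polynomial.cyclotomic N ℚ) := Polynomial.cyclotomic.irreducible_rat hN
  let g : CyclotomicField N ℚ ≃ₐ[ℚ] CyclotomicField N ℚ :=
    (IsCyclotomicExtension.autEquivPow (CyclotomicField N ℚ) hirr).symm k
  obtain ⟨j⟩ : Nonempty (CyclotomicField N ℚ →+* ℂ) := inferInstance
  obtain ⟨σ, hσ⟩ := Pool.Agent.H977R3.CM.exists_aut j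
    (g : CyclotomicField N ℚ ≃+* CyclotomicField N ℚ)
  have hμ := IsCyclotomicExtension.zeta_spec N ℚ (CyclotomicField N ℚ)
  set μ := IsCyclotomicExtension.zeta N ℚ (CyclotomicField N ℚ) with hμdef
  refine ⟨σ, fun z hz => ?_⟩
  have hjμ : IsPrimitiveRoot (j μ) N := hμ.map_of_injective j.injective
  obtain ⟨i, -, rfl⟩ := hjμ.eq_pow_of_pow_eq_one hz
  have h1 : g μ = μ ^ (k : ZMod N).val := by
    have h2 := hμ.autToPow_spec ℚ g
    have h3 : hμ.autToPow ℚ g = k := by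
      have h4 := (IsCyclotomicExtension.autEquivPow (CyclotomicField N ℚ) hirr).apply_symm_apply k
      exact h4
    rw [h3] at h2
    exact h2.symm
  rw [map_pow, hσ]
  have h5 : (g : CyclotomicField N ℚ ≃+* CyclotomicField N ℚ) μ = g μ := rfl
  rw [h5, h1, map_pow, ← pow_mul, ← pow_mul, mul_comm]

theorem pow_mod_of {n : ℕ} {t : ℂ} (h1 : t ^ n = 1) (j : ℕ) : t ^ (j % n) = t ^ j := by
  conv_rhs => rw [← Nat.mod_add_div j n, pow_add, pow_mul, h1, one_pow, mul_one]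

theorem cyc_spec {n : ℕ} [NeZero n] (σ : ℂ ≃+* ℂ) {ξ : ℂ} (h : ξ ^ n = 1) :
    σ ξ = ξ ^ ((cyc n σ : ZMod n).val) := by
  have hne : ξ ≠ 0 := by
    rintro rfl
    rw [zero_pow (NeZero.ne n)] at h
    exact zero_ne_one h
  have hm : Units.mk0 ξ hne ∈ rootsOfUnity n ℂ := by
    rw [_root_.mem_rootsOfUnity]
    ext
    simpa using h
  exact modularCyclotomicCharacter.spec ℂ (HasEnoughRootsOfUnity.natCard_rootsOfUnity ℂ n) σ hm

theorem cyc_unique {n : ℕ} [NeZero n] (σ : ℂ ≃+* ℂ) {j : ℕ}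
    (h : ∀ ξ : ℂ, ξ ^ n = 1 → σ ξ = ξ ^ j) : (cyc n σ : ZMod n) = j := by
  symm
  apply modularCyclotomicCharacter.unique ℂ (HasEnoughRootsOfUnity.natCard_rootsOfUnity ℂ n)
  intro t ht
  have h1 : (t : ℂ) ^ n = 1 := by
    rw [_root_.mem_rootsOfUnity] at ht
    have := congrArg Units.val ht
    simpa using this
  rw [h _ h1, ZMod.val_natCast]
  exact (pow_mod_of h1 j).symm

theorem cyc_dvd {n N : ℕ} [NeZero n] [NeZero N] (h : n ∣ N) (σ : ℂ ≃+* ℂ) :
    cyc n σ = ZMod.unitsMap h (cyc N σ) := by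
  apply Units.ext
  rw [cyc_unique σ (j := (cyc N σ : ZMod N).val) (fun ξ hξ => cyc_spec (n := N) σ (by
    obtain ⟨c, rfl⟩ := h
    rw [pow_mul, hξ, one_pow]))]
  rw [ZMod.unitsMap_def, Units.coe_map]
  change _ = ZMod.castHom h (ZMod n) (cyc N σ : ZMod N)
  rw [ZMod.castHom_apply, ZMod.cast_eq_val]

/-- Prescribed operations on the roots of unity of two coprime orders. -/
theorem exists_cyc {a b : ℕ} [NeZero a] [NeZero b] (hab : a.Coprime b) (u : (ZMod a)ˣ)
    (w : (ZMod b)ˣ) : ∃ σ : ℂ ≃+* ℂ, cyc a σ = u ∧ cyc b σ = w := by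
  obtain ⟨t, h1, h2⟩ := Nat.chineseRemainder hab (u : ZMod a).val (w : ZMod b).val
  have hta : (t : ZMod a) = u := by
    rw [← ZMod.natCast_zmod_val (u : ZMod a)]
    exact (ZMod.natCast_eq_natCast_iff _ _ _).2 h1
  have htb : (t : ZMod b) = w := by
    rw [← ZMod.natCast_zmod_val (w : ZMod b)]
    exact (ZMod.natCast_eq_natCast_iff _ _ _).2 h2
  have h3 : t.Coprime (a * b) := by
    apply Nat.Coprime.mul_right
    · rw [← ZMod.isUnit_iff_coprime, hta]
      exact u.isUnit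
    · rw [← ZMod.isUnit_iff_coprime, htb]
      exact w.isUnit
  have hab0 : 0 < a * b := Nat.mul_pos (NeZero.pos a) (NeZero.pos b)
  have : NeZero (a * b) := ⟨hab0.ne'⟩
  obtain ⟨σ, hσ⟩ := exists_aut_pow hab0 (ZMod.unitOfCoprime t h3)
  have h4 : ∀ z : ℂ, z ^ (a * b) = 1 → σ z = z ^ t := by
    intro z hz
    rw [hσ z hz, ZMod.coe_unitOfCoprime, ZMod.val_natCast, pow_mod_of hz]
  refine ⟨σ, Units.ext ?_, Units.ext ?_⟩
  · rw [cyc_unique σ (j := t) (fun z hz => h4 z (by rw [pow_mul, hz, one_pow])), hta]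
  · rw [cyc_unique σ (j := t) (fun z hz => h4 z (by rw [mul_comm, pow_mul, hz, one_pow])), htb]

end Run7.h306.HF
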