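import Pool.Agent.Run7.h306.HF5
import Pool.Agent.Run7.h306.HF6
import Pool.Agent.Y1.HZ.Betti

/-!
# The types of the coefficients
-/

set_option autoImplicit false

open Finset Matrix Pool.Agent.H916R2 Pool.Agent.TH131.GHC Pool.Agent.TH504.VY Pool.Agent.Y1.HZ

namespace Run7.h306.HF

section one

variable {m n : ℕ} [NeZero m]

theorem sum_val_dvd (a : Character m n) : m ∣ ∑ i, (a.entry i).val := by
  rw [← ZMod.natCast_eq_zero_iff]
  push_cast
  refine Eq.trans (sum_congr rfl fun i _ => ?_) a.sum_eq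
  rw [ZMod.natCast_zmod_val]

theorem hodge_saw (a : Character m n) : (m : ℤ) * hodge (Sum.inr a : Label m n) =
    -∑ i, saw (a.entry i) := by
  obtain ⟨c, hc⟩ := sum_val_dvd a
  have h1 : ∀ i, saw (a.entry i) = 2 * ((a.entry i).val : ℤ) - m := by
    intro i
    unfold saw
    rw [if_neg (a.ne_zero i)]
  have h2 : ((∑ i, (a.entry i).val : ℕ) : ℤ) = m * c := by rw [hc]; push_cast; ring
  have hm : 0 < m := NeZero.pos m
  have h3 : (∑ i, (a.entry i).val) / m = c := by
    rw [hc, Nat.mul_div_cancel_left _ hm]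
  change (m : ℤ) * (n + 2 - 2 * (((∑ i, (a.entry i).val) / m : ℕ) : ℤ)) = _
  rw [h3, sum_congr rfl fun i _ => h1 i, sum_sub_distrib, ← mul_sum, sum_const, card_univ,
    Fintype.card_fin, nsmul_eq_mul]
  push_cast at h2 ⊢
  rw [h2]
  ring

theorem type_eq {N : ℕ} [NeZero N] (h : m ∣ N) (t : (ZMod N)ˣ) (b : Label m n) :
    (N : ℤ) * hodge (twist (ZMod.unitsMap h t) b) = -∑ i, saw ((t : ZMod N) * ent N b i) := by
  cases b with
  | inl i =>
    change (N : ℤ) * 0 = -∑ i, saw ((t : ZMod N) * 0)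
    simp [saw_zero]
  | inr a =>
    have hNm : N / m * m = N := Nat.div_mul_cancel h
    have h1 : ∀ i, saw ((t : ZMod N) * ((N / m * (a.entry i).val : ℕ) : ZMod N)) =
        ((N / m : ℕ) : ℤ) * saw (((ZMod.unitsMap h t : (ZMod m)ˣ) : ZMod m) * a.entry i) := by
      intro i
      have h2 := saw_level (f := m) (g := N / m) (N := N) hNm
        ((t : ZMod N) * (((a.entry i).val : ℕ) : ZMod N))
      have h3 : (t : ZMod N) * ((N / m * (a.entry i).val : ℕ) : ZMod N) =
          (t : ZMod N) * (((a.entry i).val : ℕ) : ZMod N) * ((N / m : ℕ) : ZMod N) := by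
        rw [Nat.cast_mul]
        ring
      rw [h3, h2]
      congr 2
      rw [map_mul, map_natCast, ZMod.natCast_zmod_val]
      rfl
    have h4 := hodge_saw (a.twist (ZMod.unitsMap h t))
    change (N : ℤ) * hodge (Sum.inr (a.twist (ZMod.unitsMap h t)) : Label m n) =
      -∑ i, saw ((t : ZMod N) * ((N / m * (a.entry i).val : ℕ) : ZMod N))
    rw [sum_congr rfl fun i _ => h1 i, ← mul_sum]
    have h5 : (N : ℤ) = ((N / m : ℕ) : ℤ) * m := by
      conv_lhs => rw [← hNm]
      push_cast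
      ring
    rw [h5, mul_assoc, h4, mul_neg]
    rfl

theorem hodge_neg (u : (ZMod m)ˣ) (b : Label m n) :
    hodge (twist (-u) b) = - hodge (twist u b) := by
  have hm : (m : ℤ) ≠ 0 := by exact_mod_cast NeZero.ne m
  apply mul_left_cancel₀ hm
  have h1 := type_eq (dvd_refl m) (-u) b
  have h2 := type_eq (dvd_refl m) u b
  have h3 : ∀ w : (ZMod m)ˣ, ZMod.unitsMap (dvd_refl m) w = w := by
    intro w
    rw [ZMod.unitsMap_self]
    rfl
  rw [h3] at h1 h2
  rw [mul_neg, h1, h2, neg_neg, ← sum_neg_distrib]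
  refine sum_congr rfl fun i _ => ?_
  rw [Units.val_neg, neg_mul, saw_neg, neg_neg]

end one

end Run7.h306.HF
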