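import Pool.Agent.Run7.h306.HF7

/-!
# The types vanish
-/

set_option autoImplicit false

open Finset Matrix Pool.Agent.H916R2 Pool.Agent.TH131.GHC Pool.Agent.TH504.VY Pool.Agent.Y1.HZ

namespace Run7.h306.HF

variable {J : Type} [Fintype J] {m n : J → ℕ} [∀ j, NeZero (m j)]

open Classical in
/-- the type of the part of the label belonging to the degrees dividing `N` -/
noncomputable def part (b : ∀ j, Label (m j) (n j)) (N : ℕ) (t : (ZMod N)ˣ) : ℤ :=
  ∑ j, if h : m j ∣ N then hodge (twist (ZMod.unitsMap h t) (b j)) else 0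

/-- the type of the other part -/
noncomputable def rest (b : ∀ j, Label (m j) (n j)) (N : ℕ) (σ : ℂ ≃+* ℂ) : ℤ :=
  open Classical in ∑ j, if m j ∣ N then 0 else hodge (twist (cyc (m j) σ) (b j))

/-- the type of the conjugate of a label -/
noncomputable def tot (b : ∀ j, Label (m j) (n j)) (σ : ℂ ≃+* ℂ) : ℤ :=
  ∑ j, hodge (twist (cyc (m j) σ) (b j))

theorem tot_eq (b : ∀ j, Label (m j) (n j)) (N : ℕ) [NeZero N] (σ : ℂ ≃+* ℂ) :
    tot b σ = part b N (cyc N σ) + rest b N σ := by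
  classical
  unfold tot part rest
  rw [← sum_add_distrib]
  refine sum_congr rfl fun j _ => ?_
  by_cases h : m j ∣ N
  · rw [dif_pos h, if_pos h, add_zero, cyc_dvd h]
  · rw [dif_neg h, if_neg h, zero_add]

theorem part_eq (b : ∀ j, Label (m j) (n j)) (N : ℕ) [NeZero N] (t : (ZMod N)ˣ) :
    open Classical in (N : ℤ) * part b N t =
      -∑ x ∈ (univ : Finset (Σ j, Fin (n j + 2))).filter
        (fun x => m x.1 ∣ N ∧ ent N (b x.1) x.2 ≠ 0), saw ((t : ZMod N) * ent N (b x.1) x.2) := by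
  classical
  have h1 : ∀ j, (N : ℤ) * (if h : m j ∣ N then hodge (twist (ZMod.unitsMap h t) (b j)) else 0) =
      -∑ i, if m j ∣ N ∧ ent N (b j) i ≠ 0 then saw ((t : ZMod N) * ent N (b j) i) else 0 := by
    intro j
    by_cases h : m j ∣ N
    · rw [dif_pos h, type_eq h t (b j)]
      refine congrArg Neg.neg (sum_congr rfl fun i _ => ?_)
      by_cases h0 : ent N (b j) i = 0
      · rw [if_neg (fun h' => h'.2 h0), h0, mul_zero, saw_zero]
      · rw [if_pos ⟨h, h0⟩]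
    · rw [dif_neg h, mul_zero]
      have : ∀ i, (if m j ∣ N ∧ ent N (b j) i ≠ 0 then saw ((t : ZMod N) * ent N (b j) i) else 0) =
          0 := fun i => if_neg (fun h' => h h'.1)
      rw [sum_congr rfl fun i _ => this i]
      simp
  unfold part
  rw [mul_sum, sum_congr rfl fun j _ => h1 j, sum_neg_distrib, sum_filter, Fintype.sum_sigma]

/-- the degrees are prime powers -/
def PP (m : J → ℕ) (q K : ℕ) : Prop := ∀ j, m j ∣ q ^ K ∨ (m j).Coprime q

theorem rest_pm (b : ∀ j, Label (m j) (n j)) {q K : ℕ} [hq : Fact q.Prime] (hm : PP m q K)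
    (t : (ZMod (q ^ K))ˣ) : ∃ σ₁ σ₂ : ℂ ≃+* ℂ, cyc (q ^ K) σ₁ = t ∧ cyc (q ^ K) σ₂ = t ∧
      rest b (q ^ K) σ₂ = - rest b (q ^ K) σ₁ := by
  classical
  obtain ⟨M, hM⟩ : ∃ M : ℕ, M = ∏ j, if m j ∣ q ^ K then 1 else m j := ⟨_, rfl⟩
  have hM0 : M ≠ 0 := by
    rw [hM]
    refine prod_ne_zero_iff.2 fun j _ => ?_
    split_ifs
    · exact one_ne_zero
    · exact NeZero.ne _
  have _ : NeZero M := ⟨hM0⟩
  have hcop : (q ^ K).Coprime M := by
    rw [hM]
    refine Nat.Coprime.prod_right fun j _ => ?_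
    split_ifs with h
    · exact Nat.coprime_one_right _
    · rcases hm j with h1 | h1
      · exact absurd h1 h
      · exact (Nat.Coprime.pow_right K h1).symm
  have hdvd : ∀ j, ¬ m j ∣ q ^ K → m j ∣ M := by
    intro j hj
    rw [hM]
    have h1 := dvd_prod_of_mem (fun j => if m j ∣ q ^ K then 1 else m j) (mem_univ j)
    rwa [if_neg hj] at h1
  obtain ⟨σ₁, h1, h1'⟩ := exists_cyc hcop t 1
  obtain ⟨σ₂, h2, h2'⟩ := exists_cyc hcop t (-1)
  refine ⟨σ₁, σ₂, h1, h2, ?_⟩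
  unfold rest
  rw [← sum_neg_distrib]
  refine sum_congr rfl fun j _ => ?_
  by_cases h : m j ∣ q ^ K
  · rw [if_pos h, if_pos h, neg_zero]
  · rw [if_neg h, if_neg h, cyc_dvd (hdvd j h) σ₁, cyc_dvd (hdvd j h) σ₂, h1', h2', map_one]
    have h3 : ZMod.unitsMap (hdvd j h) (-1) = -1 := by
      apply Units.ext
      rw [ZMod.unitsMap_def, Units.coe_map]
      change ZMod.castHom (hdvd j h) (ZMod (m j)) ((-1 : (ZMod M)ˣ) : ZMod M) = _
      rw [Units.val_neg, Units.val_one, map_neg, map_one, Units.val_neg, Units.val_one]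
    rw [h3, hodge_neg]

theorem rest_one (b : ∀ j, Label (m j) (n j)) {q K : ℕ} [hq : Fact q.Prime] (hm : PP m q K)
    (t : (ZMod (q ^ K))ˣ) : ∃ σ : ℂ ≃+* ℂ, cyc (q ^ K) σ = t ∧
      ∀ ρ : ℂ ≃+* ℂ, rest b (q ^ K) (σ.symm.trans ρ) = rest b (q ^ K) ρ := by
  classical
  obtain ⟨M, hM⟩ : ∃ M : ℕ, M = ∏ j, if m j ∣ q ^ K then 1 else m j := ⟨_, rfl⟩
  have hM0 : M ≠ 0 := by
    rw [hM]
    refine prod_ne_zero_iff.2 fun j _ => ?_
    split_ifs
    · exact one_ne_zero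
    · exact NeZero.ne _
  have _ : NeZero M := ⟨hM0⟩
  have hcop : (q ^ K).Coprime M := by
    rw [hM]
    refine Nat.Coprime.prod_right fun j _ => ?_
    split_ifs with h
    · exact Nat.coprime_one_right _
    · rcases hm j with h1 | h1
      · exact absurd h1 h
      · exact (Nat.Coprime.pow_right K h1).symm
  have hdvd : ∀ j, ¬ m j ∣ q ^ K → m j ∣ M := by
    intro j hj
    rw [hM]
    have h1 := dvd_prod_of_mem (fun j => if m j ∣ q ^ K then 1 else m j) (mem_univ j)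
    rwa [if_neg hj] at h1
  obtain ⟨σ, h1, h1'⟩ := exists_cyc hcop t 1
  refine ⟨σ, h1, fun ρ => ?_⟩
  unfold rest
  refine sum_congr rfl fun j _ => ?_
  by_cases h : m j ∣ q ^ K
  · rw [if_pos h, if_pos h]
  · rw [if_neg h, if_neg h]
    congr 2
    have h3 : σ.symm.trans ρ = ρ * σ⁻¹ := rfl
    rw [h3, map_mul, map_inv, cyc_dvd (hdvd j h) σ, h1', map_one, inv_one, mul_one]

variable {v : ℕ} {H : Coh v}

theorem hasTypes {φ : (∀ j, Label (m j) (n j)) → Fin v → ℂ} (hφ : IsHodgeClassTimes m n H φ)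
    (b : ∀ j, Label (m j) (n j)) : HasTypes H (φ b) (fun σ => - tot b σ) := by
  intro σ
  rw [hφ.1 σ b, hφ.2]
  simp only [Int.cast_neg, neg_smul]
  rfl

/-- **The vanishing of the types.** -/
theorem vanish {ε c : ℝ} (hc : ∀ (p K : ℕ) [Fact p.Prime] {ι : Type} (s : Finset ι)
      (x : ι → ZMod (p ^ K))
      (_ : ∀ i ∈ s, x i ≠ 0) (H : Subgroup (ZMod (p ^ K))ˣ)
      (_ : ∀ h ∈ H, ∀ t : (ZMod (p ^ K))ˣ, ∑ i ∈ s, saw (((h * t : (ZMod (p ^ K))ˣ) :
        ZMod (p ^ K)) * x i) = ∑ i ∈ s, saw ((t : ZMod (p ^ K)) * x i)) (M : ℝ)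
      (_ : ∀ t : (ZMod (p ^ K))ˣ, |((∑ i ∈ s, saw ((t : ZMod (p ^ K)) * x i) : ℤ) : ℝ)| ≤
        ((p ^ K : ℕ) : ℝ) * M)
      (_ : ∃ t : (ZMod (p ^ K))ˣ, ∑ i ∈ s, saw ((t : ZMod (p ^ K)) * x i) ≠ 0),
      c * (p : ℝ) ^ (1 - 2 * ε) ≤ H.index * M ^ 2)
    {B D : ℕ} (hB : ∀ k, betti H k ≤ B) (hD : IsLevel H D)
    {q K : ℕ} [hq : Fact q.Prime] (hm : PP m q K) (hlarge : (B : ℝ) * D ^ 2 < c * (q : ℝ) ^ (1 - 2 * ε))
    {φ : (∀ j, Label (m j) (n j)) → Fin v → ℂ} (hφ : IsHodgeClassTimes m n H φ)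
    (b : ∀ j, Label (m j) (n j)) (hb : φ b ≠ 0) (t : (ZMod (q ^ K))ˣ) :
    part b (q ^ K) t = 0 := by
  classical
  obtain ⟨i₀, hi₀⟩ : ∃ i, φ b i ≠ 0 := by
    by_contra hall
    push Not at hall
    exact hb (funext hall)
  have hw := hasTypes hφ b
  obtain ⟨hfin, hcard⟩ := ncard_dd hw hi₀
  have hN0 : (0 : ℤ) < ((q ^ K : ℕ) : ℤ) := by exact_mod_cast pow_pos hq.out.pos K
  -- the level
  have hlev : ∀ σ : ℂ ≃+* ℂ, |tot b σ| ≤ D := by
    intro σ
    have h1 := hD (fun i => σ (φ b i)) (- tot b σ) (fun h0 => hi₀ (by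
      have h2 := congrFun h0 i₀
      simpa using h2)) (hw σ)
    rwa [abs_neg] at h1
  have hpart : ∀ t, |part b (q ^ K) t| ≤ D := by
    intro t
    obtain ⟨σ₁, σ₂, h1, h2, h3⟩ := rest_pm b hm t
    have h4 := hlev σ₁
    have h5 := hlev σ₂
    rw [tot_eq b (q ^ K), h1] at h4
    rw [tot_eq b (q ^ K), h2, h3] at h5
    rw [abs_le] at h4 h5 ⊢
    constructor <;> omega
  -- the stabilizer
  let S : Subgroup (ZMod (q ^ K))ˣ :=
    { carrier := {h | ∀ t, part b (q ^ K) (h * t) = part b (q ^ K) t}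
      mul_mem' := by
        intro h h' hh hh' t
        rw [mul_assoc, hh, hh']
      one_mem' := by
        intro t
        rw [one_mul]
      inv_mem' := by
        intro h hh t
        rw [← hh (h⁻¹ * t), mul_inv_cancel_left] }
  choose s hs1 hs2 using fun t => rest_one b hm t
  have hidx : S.index ≤ B := by
    refine le_trans ?_ (hB (H.dg i₀))
    refine le_trans ?_ hcard
    have hcoset : ∀ t t', dd (fun σ => - tot b σ) (s t) = dd (fun σ => - tot b σ) (s t') →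
        t'⁻¹ * t ∈ S := by
      intro t t' h u
      obtain ⟨ρ, hρ, -⟩ := rest_one b hm (t * u)
      have h1 := congrFun h ρ
      simp only [dd, tot_eq b (q ^ K), hs2] at h1
      have h2 : ∀ σ ρ : ℂ ≃+* ℂ, cyc (q ^ K) (σ.symm.trans ρ) = cyc (q ^ K) ρ * (cyc (q ^ K) σ)⁻¹ := by
        intro σ ρ
        have h3 : σ.symm.trans ρ = ρ * σ⁻¹ := rfl
        rw [h3, map_mul, map_inv]
      rw [h2, h2, hs1, hs1, hρ] at h1
      have h4 : t * u * t⁻¹ = u := by rw [mul_comm t u, mul_inv_cancel_right]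
      have h5 : t * u * t'⁻¹ = t'⁻¹ * t * u := by rw [mul_comm (t * u), mul_assoc]
      rw [h4, h5] at h1
      omega
    let g : (ZMod (q ^ K))ˣ ⧸ S → Set.range (dd (fun σ => - tot b σ)) := fun x =>
      ⟨dd (fun σ => - tot b σ) (s x.out), ⟨_, rfl⟩⟩
    have hg : Function.Injective g := by
      intro x y hxy
      have h1 := hcoset x.out y.out (congrArg Subtype.val hxy)
      have h2 : (QuotientGroup.mk y.out : (ZMod (q ^ K))ˣ ⧸ S) = QuotientGroup.mk x.out :=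
        QuotientGroup.eq.2 h1
      rw [QuotientGroup.out_eq', QuotientGroup.out_eq'] at h2
      exact h2.symm
    have _ : Finite (Set.range (dd (fun σ => - tot b σ))) := hfin.to_subtype
    have h1 := Nat.card_le_card_of_injective g hg
    rw [Nat.card_coe_set_eq] at h1
    exact h1
  by_contra hne
  have h1 := hc q K ((univ : Finset (Σ j, Fin (n j + 2))).filter
        (fun x => m x.1 ∣ q ^ K ∧ ent (q ^ K) (b x.1) x.2 ≠ 0)) (fun x => ent (q ^ K) (b x.1) x.2)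
    (fun x hx => (mem_filter.1 hx).2.2) S (fun h hh t => by
      have h2 := part_eq b (q ^ K) (h * t)
      have h3 := part_eq b (q ^ K) t
      rw [hh t] at h2
      rw [h2] at h3
      exact neg_injective h3) D (fun t => by
      have h3 := part_eq b (q ^ K) t
      rw [← neg_eq_iff_eq_neg] at h3
      rw [← h3, ← neg_mul, Int.cast_mul, abs_mul]
      have h4 : |(((-((q ^ K : ℕ) : ℤ) : ℤ)) : ℝ)| = ((q ^ K : ℕ) : ℝ) := by
        rw [Int.cast_neg, abs_neg, Int.cast_natCast, abs_of_nonneg (Nat.cast_nonneg _)]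
      rw [h4]
      apply mul_le_mul_of_nonneg_left _ (Nat.cast_nonneg _)
      have h5 := hpart t
      have h6 : ((|part b (q ^ K) t| : ℤ) : ℝ) ≤ D := by exact_mod_cast h5
      rwa [Int.cast_abs] at h6) ⟨t, fun h0 => hne (by
      have h3 := part_eq b (q ^ K) t
      rw [h0, neg_zero] at h3
      rcases mul_eq_zero.1 h3 with h4 | h4
      · exact absurd h4 hN0.ne'
      · exact h4)⟩
  have h2 : (S.index : ℝ) * (D : ℝ) ^ 2 ≤ B * (D : ℝ) ^ 2 := by
    apply mul_le_mul_of_nonneg_right _ (by positivity)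
    exact_mod_cast hidx
  linarith

end Run7.h306.HF
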