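import Pool.Agent.Run7.h306.HF8
import Pool.Agent.W437.HD.Fixed
import Pool.Agent.H916R2.Families

/-!
# Hodge classes on the products with Fermat varieties: the main theorems
-/

set_option autoImplicit false

open Finset Matrix Pool.Agent.H916R2 Pool.Agent.TH131.GHC Pool.Agent.TH504.VY Pool.Agent.Y1.HZ

namespace Run7.h306.HF

theorem twist_one {m n : ℕ} (b : Label m n) : twist 1 b = b := by
  cases b with
  | inl i => rfl
  | inr a =>
    change (Sum.inr (a.twist 1) : Label m n) = Sum.inr a
    congr 1
    unfold Character.twist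
    cases a with
    | mk e h1 h2 =>
      congr 1
      funext i
      simp

variable {J : Type} [Fintype J] {m n : J → ℕ} [∀ j, NeZero (m j)]

section span

variable {v : ℕ} (H : Coh v)

/-- The rational Hodge classes. -/
def HZ : Submodule ℚ (Fin v → ℚ) where
  carrier := {x | IsHodgeOn H x}
  add_mem' := by
    intro x y hx hy
    change H.z *ᵥ cv (x + y) = 0
    have h1 : cv (x + y) = cv x + cv y := by
      funext b
      simp only [cv, Pi.add_apply, Rat.cast_add]
    rw [h1, Matrix.mulVec_add]
    have hx' : H.z *ᵥ cv x = 0 := hx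
    have hy' : H.z *ᵥ cv y = 0 := hy
    rw [hx', hy', add_zero]
  zero_mem' := by
    change H.z *ᵥ cv 0 = 0
    have h1 : cv (0 : Fin v → ℚ) = 0 := by
      funext b
      simp only [cv, Pi.zero_apply, Rat.cast_zero]
    rw [h1, Matrix.mulVec_zero]
  smul_mem' := by
    intro r x hx
    change H.z *ᵥ cv (r • x) = 0
    have h1 : cv (r • x) = (r : ℂ) • cv x := by
      funext b
      simp only [cv, Pi.smul_apply, smul_eq_mul, Rat.cast_mul]
    have hx' : H.z *ᵥ cv x = 0 := hx
    rw [h1, Matrix.mulVec_smul, hx', smul_zero]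

/-- The vectors all whose conjugates are of type zero. -/
def CZ : Submodule ℂ (Fin v → ℂ) where
  carrier := {w | ∀ σ : ℂ ≃+* ℂ, H.z *ᵥ (fun i => σ (w i)) = 0}
  add_mem' := by
    intro x y hx hy σ
    have h1 : (fun i => σ ((x + y) i)) = (fun i => σ (x i)) + fun i => σ (y i) := by
      funext i
      simp
    rw [h1, Matrix.mulVec_add, hx σ, hy σ, add_zero]
  zero_mem' := by
    intro σ
    have h1 : (fun i => σ ((0 : Fin v → ℂ) i)) = 0 := by
      funext i
      simp
    rw [h1, Matrix.mulVec_zero]
  smul_mem' := by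
    intro r x hx σ
    have h1 : (fun i => σ ((r • x) i)) = σ r • fun i => σ (x i) := by
      funext i
      simp
    rw [h1, Matrix.mulVec_smul, hx σ, smul_zero]

theorem CZ_le : CZ H ≤ Submodule.span ℂ (cv '' (HZ H : Set (Fin v → ℚ))) := by
  have h1 := Pool.Agent.W437.HD.span_rational (CZ H) (fun σ w hw τ => hw (σ.trans τ))
  rw [h1]
  refine Submodule.span_mono ?_
  rintro _ ⟨hw, u, rfl⟩
  refine ⟨u, ?_, rfl⟩
  exact hw (RingEquiv.refl ℂ)

/-- coordinates -/
theorem exists_coord : ∃ (r : ℕ) (u : Fin r → Fin v → ℚ) (l : Fin r → Fin v → ℚ),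
    (∀ i, IsHodgeOn H (u i)) ∧ ∀ w ∈ CZ H, w = ∑ i, (∑ k, (l i k : ℂ) * w k) • cv (u i) := by
  classical
  let bs := Module.finBasis ℚ (HZ H)
  choose g hg using fun i => LinearMap.exists_extend (bs.coord i)
  have hdot : ∀ i (x : Fin v → ℚ), g i x = ∑ k, g i (Pi.single k 1) * x k := by
    intro i x
    conv_lhs => rw [← Finset.univ_sum_single x]
    rw [map_sum]
    refine sum_congr rfl fun k _ => ?_
    have h1 : (Pi.single k (x k) : Fin v → ℚ) = x k • Pi.single k 1 := by
      rw [← Pi.single_smul, smul_eq_mul, mul_one]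
    rw [h1, map_smul, smul_eq_mul, mul_comm]
  refine ⟨_, fun i => (bs i : Fin v → ℚ), fun i k => g i (Pi.single k 1), fun i => (bs i).2, ?_⟩
  intro w hw
  have key : ∀ w ∈ Submodule.span ℂ (cv '' (HZ H : Set (Fin v → ℚ))),
      w = ∑ i, (∑ k, ((g i (Pi.single k 1) : ℚ) : ℂ) * w k) • cv (bs i : Fin v → ℚ) := by
    intro w hw
    induction hw using Submodule.span_induction with
    | mem x hx =>
      obtain ⟨u, hu, rfl⟩ := hx
      have h2 : u = ∑ i, (g i u) • (bs i : Fin v → ℚ) := by
        have h3 := bs.sum_repr ⟨u, hu⟩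
        have h4 := congrArg Subtype.val h3
        simp only [Submodule.coe_sum, Submodule.coe_smul] at h4
        conv_lhs => rw [← h4]
        refine sum_congr rfl fun i _ => ?_
        have h5 := LinearMap.congr_fun (hg i) ⟨u, hu⟩
        rw [LinearMap.comp_apply] at h5
        change g i u = bs.repr ⟨u, hu⟩ i at h5
        rw [h5]
      funext k
      have h3 := congrFun h2 k
      simp only [Finset.sum_apply, Pi.smul_apply, smul_eq_mul, cv] at h3 ⊢
      have h4 : ((u k : ℚ) : ℂ) = ((∑ i, g i u * (bs i : Fin v → ℚ) k : ℚ) : ℂ) := by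
        exact_mod_cast h3
      rw [h4]
      push_cast
      refine sum_congr rfl fun i _ => ?_
      rw [hdot i u]
      push_cast
      rfl
    | zero =>
      simp
    | add x y _ _ hx hy =>
      refine (congrArg₂ (· + ·) hx hy).trans ?_
      rw [← sum_add_distrib]
      refine sum_congr rfl fun i _ => ?_
      rw [← add_smul, ← sum_add_distrib]
      congr 1
      refine sum_congr rfl fun k _ => ?_
      rw [Pi.add_apply]
      ring
    | smul a x _ hx =>
      refine (congrArg (fun z => a • z) hx).trans ?_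
      rw [smul_sum]
      refine sum_congr rfl fun i _ => ?_
      rw [smul_smul, mul_sum]
      congr 1
      refine sum_congr rfl fun k _ => ?_
      rw [Pi.smul_apply, smul_eq_mul]
      ring
  exact key w (CZ_le H hw)

end span

end Run7.h306.HF
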