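import Pool.Agent.Run7.h306.FVDefs
import Pool.Agent.TH504.VY.Defs
import Pool.Agent.Y1.HZ.CritDefs

/-!
# The cohomology of the product of a variety and of Fermat varieties: definitions

The Fermat variety `x_0 ^ m + ... + x_(n+1) ^ m = 0` of degree `m` and dimension `n` has the cohomology
classes `h ^ i`, `0 ≤ i ≤ n`, of the linear sections and its primitive cohomology in degree `n`. The
group of the diagonal automorphisms operates on the latter through the characters `a`, tuples of
`n + 2` nonzero residues modulo `m` with sum zero, each of which occurs on a line `V(a)`; it is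
contained in `H^(p, q)` with `q + 1 = ∑ ⟨a i / m⟩`, `p + q = n`. The rational structure is given by the
operation of the automorphisms `σ` of `ℂ` on the complex cohomology: generators `e a` of the lines may
be chosen such that `σ (e a) = e (t a)`, where `σ` is the `t`-th power on the roots of unity.
-/

set_option autoImplicit false

namespace Run7.h306.HF

open Matrix Pool.Agent.TH131.GHC Pool.Agent.TH504.VY Pool.Agent.Y1.HZ Pool.Agent.H916R2

noncomputable section

/-- The operation of an automorphism `σ` of `ℂ` on the roots of unity of order `m`: we have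
`σ z = z ^ (cyc m σ)` for these roots of unity `z`. -/
def cyc (m : ℕ) [NeZero m] : (ℂ ≃+* ℂ) →* (ZMod m)ˣ :=
  modularCyclotomicCharacter ℂ (HasEnoughRootsOfUnity.natCard_rootsOfUnity ℂ m)

section product

variable {J : Type} [Fintype J] (m n : J → ℕ) [∀ j, NeZero (m j)]

/-- `ψ` is a (rational) Hodge class on the product `V` of the Fermat varieties of degrees `m j` and
dimensions `n j`: `ψ b` are the coefficients in the basis of the complex cohomology of `V`. -/
def IsHodgeClass (ψ : (∀ j, Label (m j) (n j)) → ℂ) : Prop :=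
  (∀ (σ : ℂ ≃+* ℂ) b, σ (ψ b) = ψ fun j => twist (cyc (m j) σ) (b j)) ∧
    ∀ b, ψ b ≠ 0 → ∑ j, hodge (b j) = 0

/-- `φ` is a (rational) Hodge class on the product `Z × V` of the variety `Z` with cohomology `H` and of
the Fermat varieties of degrees `m j` and dimensions `n j`: the coefficients `φ b` are elements of
the complex cohomology of `Z`. -/
def IsHodgeClassTimes {v : ℕ} (H : Coh v) (φ : (∀ j, Label (m j) (n j)) → Fin v → ℂ) : Prop :=
  (∀ (σ : ℂ ≃+* ℂ) b, (fun i => σ (φ b i)) = φ fun j => twist (cyc (m j) σ) (b j)) ∧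
    ∀ b, H.z *ᵥ φ b = -(((∑ j, hodge (b j) : ℤ) : ℂ) • φ b)

/-- The span of the products `x × ψ` of Hodge classes `x` on `Z` and Hodge classes `ψ` on `V` all whose
components are in lines which consist of algebraic classes by `IsGenerated`. -/
def productSpan {v : ℕ} (H : Coh v) : Submodule ℚ ((∀ j, Label (m j) (n j)) → Fin v → ℂ) :=
  Submodule.span ℚ {φ | ∃ (x : Fin v → ℚ) (ψ : (∀ j, Label (m j) (n j)) → ℂ),
    IsHodgeOn H x ∧ IsHodgeClass m n ψ ∧ (∀ b, ψ b ≠ 0 → IsGenerated b) ∧
      φ = fun b i => (x i : ℂ) * ψ b}

end product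

/-- The cohomology `H` is of level at most `D`: it is a sum of spaces `H^(p, q)` with
`|p - q| ≤ D`. This is true for varieties of dimension at most `D`. -/
def IsLevel {v : ℕ} (H : Coh v) (D : ℕ) : Prop :=
  ∀ (x : Fin v → ℂ) (k : ℤ), x ≠ 0 → H.z *ᵥ x = (k : ℂ) • x → |k| ≤ D

end

end Run7.h306.HF
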