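import Pool.Agent.Run7.h306.Asy
import Pool.Agent.Run7.h306.Cls

set_option autoImplicit false

/-! Primes of a class in an arithmetic progression, and pairs of such primes. -/

namespace Run7.h306

open Finset Real Pool.Agent.H379R2.W Pool.Agent.W57.SW

lemma sum_range_zmod {ℓ : ℕ} [NeZero ℓ] (f : ZMod ℓ → ℤ) :
    ∑ k ∈ range ℓ, f (k : ZMod ℓ) = ∑ z : ZMod ℓ, f z := by
  apply sum_nbij (fun k : ℕ => (k : ZMod ℓ))
  · intro k _; exact mem_univ _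
  · intro k hk k' hk' h
    rw [mem_coe, mem_range] at hk hk'
    simp only at h
    rw [ZMod.natCast_eq_natCast_iff] at h
    exact Nat.ModEq.eq_of_lt_of_lt h hk hk'
  · intro z _
    refine ⟨z.val, ?_, ?_⟩
    · rw [mem_coe, mem_range]; exact ZMod.val_lt z
    · simp only; exact ZMod.natCast_zmod_val z
  · intro k _; rfl

lemma jac_char {ℓ : ℕ} [Fact ℓ.Prime] (a : ℤ) : jacobiSym a ℓ = quadraticChar (ZMod ℓ) (a : ZMod ℓ) := by
  rw [← jacobiSym.legendreSym.to_jacobiSym]; rfl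

lemma jac_abs (a : ℤ) (b : ℕ) : |jacobiSym a b| ≤ 1 := by
  rcases jacobiSym.trichotomy a b with h | h | h <;> rw [h] <;> norm_num

lemma ringChar_ne {ℓ : ℕ} (hℓ : ℓ.Prime) (h2 : ℓ ≠ 2) : ringChar (ZMod ℓ) ≠ 2 := by
  rw [ZMod.ringChar_zmod_n]; exact h2

lemma lin_periodic (g ℓ : ℕ) : Function.Periodic (fun k : ℕ => jacobiSym ((g * k + 1 : ℕ) : ℤ) ℓ) ℓ := by
  intro k
  simp only
  rw [jacobiSym.mod_left, jacobiSym.mod_left ((g * k + 1 : ℕ) : ℤ)]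
  congr 1
  push_cast
  rw [show (g : ℤ) * (k + ℓ) + 1 = (g * k + 1) + ℓ * g by ring, Int.add_mul_emod_self_left]

lemma lin_sum {g ℓ : ℕ} (hℓ : ℓ.Prime) (h2 : ℓ ≠ 2) (hg : ¬ ℓ ∣ g) :
    ∑ k ∈ range ℓ, jacobiSym ((g * k + 1 : ℕ) : ℤ) ℓ = 0 := by
  haveI := Fact.mk hℓ
  have hg0 : (g : ZMod ℓ) ≠ 0 := fun h => hg ((ZMod.natCast_eq_zero_iff _ _).mp h)
  have h1 : ∀ k ∈ range ℓ, jacobiSym ((g * k + 1 : ℕ) : ℤ) ℓ =
      (fun z : ZMod ℓ => quadraticChar (ZMod ℓ) (g * z + 1)) (k : ZMod ℓ) := by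
    intro k _
    rw [jac_char]
    push_cast
    rfl
  rw [sum_congr rfl h1, sum_range_zmod (fun z : ZMod ℓ => quadraticChar (ZMod ℓ) (g * z + 1))]
  have h3 := Equiv.sum_comp ((Equiv.mulLeft₀ (g : ZMod ℓ) hg0).trans (Equiv.addRight 1))
    (fun z : ZMod ℓ => quadraticChar (ZMod ℓ) z)
  rw [quadraticChar_sum_zero (ringChar_ne hℓ h2)] at h3
  exact h3

lemma quad_periodic (a b ℓ : ℕ) : Function.Periodic (fun k : ℕ =>
    jacobiSym ((a * k + 1 : ℕ) : ℤ) ℓ * jacobiSym ((b * k + 1 : ℕ) : ℤ) ℓ) ℓ := by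
  intro k
  have h1 := lin_periodic a ℓ k
  have h2 := lin_periodic b ℓ k
  simp only at h1 h2 ⊢
  rw [h1, h2]

lemma quad_sum {a b ℓ : ℕ} (hℓ : ℓ.Prime) (h2 : ℓ ≠ 2)
    (hb : ¬ ℓ ∣ b) (hab : (a : ZMod ℓ) ≠ b) :
    |∑ k ∈ range ℓ, jacobiSym ((a * k + 1 : ℕ) : ℤ) ℓ * jacobiSym ((b * k + 1 : ℕ) : ℤ) ℓ| ≤ 1 := by
  classical
  haveI := Fact.mk hℓ
  have hb0 : (b : ZMod ℓ) ≠ 0 := fun h => hb ((ZMod.natCast_eq_zero_iff _ _).mp h)
  obtain ⟨χ, hχ⟩ : ∃ χ : MulChar (ZMod ℓ) ℤ, χ = quadraticChar (ZMod ℓ) := ⟨_, rfl⟩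
  have h1 : ∀ k ∈ range ℓ, jacobiSym ((a * k + 1 : ℕ) : ℤ) ℓ * jacobiSym ((b * k + 1 : ℕ) : ℤ) ℓ =
      (fun z : ZMod ℓ => χ (a * z + 1) * χ (b * z + 1)) (k : ZMod ℓ) := by
    intro k _
    rw [jac_char, jac_char, hχ]
    push_cast
    rfl
  rw [sum_congr rfl h1, sum_range_zmod (fun z : ZMod ℓ => χ (a * z + 1) * χ (b * z + 1))]
  -- the map
  obtain ⟨ψ, hψ⟩ : ∃ ψ : ZMod ℓ → ZMod ℓ, ∀ z, ψ z =
      if (b : ZMod ℓ) * z + 1 = 0 then (a : ZMod ℓ) / b else (a * z + 1) / (b * z + 1) :=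
    ⟨_, fun _ => rfl⟩
  have hinj : Function.Injective ψ := by
    intro z z' h
    rw [hψ, hψ] at h
    have hne : ∀ w : ZMod ℓ, (b : ZMod ℓ) * w + 1 ≠ 0 → (a : ZMod ℓ) / b ≠ (a * w + 1) / (b * w + 1) := by
      intro w hw h3
      rw [div_eq_div_iff hb0 hw] at h3
      apply hab
      linear_combination h3
    split_ifs at h with h3 h4 h4
    · have h5 : (b : ZMod ℓ) * (z - z') = 0 := by linear_combination h3 - h4
      rcases mul_eq_zero.mp h5 with h6 | h6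
      · exact absurd h6 hb0
      · exact sub_eq_zero.mp h6
    · exact absurd h (hne _ h4)
    · exact absurd h.symm (hne _ h3)
    · rw [div_eq_div_iff h3 h4] at h
      have h5 : ((a : ZMod ℓ) - b) * (z - z') = 0 := by linear_combination h
      rcases mul_eq_zero.mp h5 with h6 | h6
      · exact absurd (sub_eq_zero.mp h6) hab
      · exact sub_eq_zero.mp h6
  have hbij : Function.Bijective ψ := Finite.injective_iff_bijective.mp hinj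
  have h3 : ∑ z : ZMod ℓ, χ (ψ z) = 0 := by
    have := Equiv.sum_comp (Equiv.ofBijective ψ hbij) (fun z : ZMod ℓ => χ z)
    rw [hχ, quadraticChar_sum_zero (ringChar_ne hℓ h2)] at this
    rw [hχ]
    exact this
  have hsq : ∀ z : ZMod ℓ, z ≠ 0 → χ z * χ z = 1 := by
    intro z hz
    rw [hχ]
    have := quadraticChar_sq_one hz
    rw [sq] at this
    exact this
  obtain ⟨z0, hz0⟩ : ∃ z0 : ZMod ℓ, z0 = -(b : ZMod ℓ)⁻¹ := ⟨_, rfl⟩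
  have hz1 : ∀ z : ZMod ℓ, (b : ZMod ℓ) * z + 1 = 0 ↔ z = z0 := by
    intro z
    rw [hz0]
    constructor
    · intro h
      field_simp
      linear_combination h
    · intro h
      rw [h]
      field_simp
      ring
  have h4 : ∀ z : ZMod ℓ, χ (a * z + 1) * χ (b * z + 1) = χ (ψ z) - if z = z0 then χ ((a : ZMod ℓ) / b) else 0 := by
    intro z
    by_cases hz : z = z0
    · have h5 := (hz1 z).mpr hz
      rw [hψ, if_pos h5, if_pos hz, h5, MulChar.map_zero, mul_zero, sub_self]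
    · have h5 : (b : ZMod ℓ) * z + 1 ≠ 0 := fun h => hz ((hz1 z).mp h)
      rw [hψ, if_neg h5, if_neg hz, sub_zero]
      have h6 : (a * z + 1 : ZMod ℓ) = (a * z + 1) / (b * z + 1) * (b * z + 1) :=
        (div_mul_cancel₀ _ h5).symm
      have h7 : χ (a * z + 1) = χ ((a * z + 1) / (b * z + 1)) * χ (b * z + 1) := by
        conv_lhs => rw [h6]
        rw [map_mul]
      rw [h7, mul_assoc, hsq _ h5, mul_one]
  have h5 : (∑ z : ZMod ℓ, χ (a * z + 1) * χ (b * z + 1)) = - χ ((a : ZMod ℓ) / b) := by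
    rw [sum_congr rfl (fun z _ => h4 z), sum_sub_distrib, h3, sum_ite_eq' univ z0]
    simp
  rw [h5, abs_neg]
  by_cases hz : (a : ZMod ℓ) / b = 0
  · rw [hz, MulChar.map_zero]; norm_num
  · rw [hχ]
    rcases quadraticChar_dichotomy hz with h | h <;> rw [h] <;> norm_num

/-- the symbol of `p` modulo a small prime -/
noncomputable def esg (σ : ℕ → ℕ) (v ℓ : ℕ) : ℤ :=
  (if v = 1 then (-1) ^ (ℓ / 2) else 1) * (if σ ℓ = v then -1 else 1)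

lemma esg_pm (σ : ℕ → ℕ) (v ℓ : ℕ) : esg σ v ℓ = 1 ∨ esg σ v ℓ = -1 := by
  unfold esg
  split_ifs
  · rcases neg_one_pow_eq_or ℤ (ℓ / 2) with h | h <;> rw [h] <;> norm_num
  · rcases neg_one_pow_eq_or ℤ (ℓ / 2) with h | h <;> rw [h] <;> norm_num
  · norm_num
  · norm_num

lemma symbol_rec {p ℓ : ℕ} (hp : p.Prime) (hp2 : p ≠ 2) (hℓ : ℓ.Prime) (hℓ2 : ℓ ≠ 2)
    (hlt : ℓ < p) : jacobiSym (p : ℤ) ℓ = esg (o2 p) (v2 p) ℓ := by
  have hpo := hp.odd_of_ne_two hp2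
  have hℓo := hℓ.odd_of_ne_two hℓ2
  have h1 := jacobiSym.quadratic_reciprocity hpo hℓo
  have hnd : ¬ p ∣ ℓ := fun h => by
    have := Nat.le_of_dvd hℓ.pos h
    omega
  have h2 := symbol_o2 hp hp2 hnd
  rw [h2] at h1
  rw [h1]
  unfold esg
  congr 1
  obtain ⟨t, ht, hpt⟩ := v2_spec hp.two_le
  have hv := v2_pos hp hp2
  have hpp := hp.two_le
  split_ifs with h
  · rw [h, pow_one] at hpt
    have : p / 2 = t := by omega
    rw [this, pow_mul, ht.neg_one_pow]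
  · obtain ⟨w, hw⟩ : ∃ w, v2 p = w + 2 := ⟨v2 p - 2, by omega⟩
    have e : (2 : ℕ) ^ (w + 2) * t = 2 * (2 * (2 ^ w * t)) := by ring
    rw [hw, e] at hpt
    have : p / 2 = 2 * (2 ^ w * t) := by omega
    rw [this, pow_mul, pow_mul]
    norm_num

/-- primes of a class in an arithmetic progression -/
theorem prog_bound (ε : ℝ) (hε : 0 < ε) (hε1 : ε ≤ 1 / 2) : ∃ L0 : ℝ, 3 ≤ L0 ∧ ∀ L : ℝ, L0 ≤ L →
    ∀ g K : ℕ, 1 ≤ g → log g ≤ 10 * L → 1 ≤ K → log K ≤ 2 * L → ∀ (σ : ℕ → ℕ) (v : ℕ),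
    ∀ T : Finset ℕ, T ⊆ range K →
    (∀ k ∈ T, (g * k + 1).Prime ∧ ⌊L ^ 2⌋₊ < g * k + 1 ∧ v2 (g * k + 1) = v ∧
      ∀ ℓ ∈ opr ⌊L ^ 2⌋₊, o2 (g * k + 1) ℓ = σ ℓ) →
    (T.card : ℝ) ≤ 2 * L * (K : ℝ) ^ (4 / 5 + ε) := by
  obtain ⟨L0, hL03, hL0⟩ := block_asym ε hε hε1
  refine ⟨L0, hL03, ?_⟩
  intro L hL g K hg hgL hK hKL σ v T hTK hT
  have hL3 : 3 ≤ L := hL03.trans hL
  have hy3 : 3 ≤ ⌊L ^ 2⌋₊ := by
    apply Nat.le_floor
    push_cast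
    nlinarith
  refine hL0 L hL g hg hgL (fun ℓ k => jacobiSym ((g * k + 1 : ℕ) : ℤ) ℓ)
    (fun ℓ k => jac_abs _ _) ?_ (esg σ v) (esg_pm σ v) K hK hKL T hTK ?_
  · intro ℓ hℓ hℓg
    rw [mem_opr] at hℓ
    refine ⟨lin_periodic g ℓ, ?_⟩
    rw [lin_sum hℓ.1 hℓ.2.2 hℓg]
    norm_num
  · intro k hk ℓ hℓ _
    obtain ⟨h1, h2, h3, h4⟩ := hT k hk
    have h5 := h4 ℓ hℓ
    rw [mem_opr] at hℓ
    show jacobiSym ((g * k + 1 : ℕ) : ℤ) ℓ = esg σ v ℓ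
    rw [symbol_rec h1 (by omega) hℓ.1 hℓ.2.2 (by omega)]
    unfold esg
    rw [h3, h5]

/-- pairs of primes `a k + 1`, `b k + 1` of the same class -/
theorem pair_bound (ε : ℝ) (hε : 0 < ε) (hε1 : ε ≤ 1 / 2) : ∃ L0 : ℝ, 3 ≤ L0 ∧ ∀ L : ℝ, L0 ≤ L →
    ∀ a b K : ℕ, 1 ≤ a → 1 ≤ b → a ≠ b → log a ≤ L → log b ≤ L → 1 ≤ K → log K ≤ 2 * L →
    ∀ T : Finset ℕ, T ⊆ range K →
    (∀ k ∈ T, (a * k + 1).Prime ∧ (b * k + 1).Prime ∧ ⌊L ^ 2⌋₊ < a * k + 1 ∧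
      ⌊L ^ 2⌋₊ < b * k + 1 ∧ v2 (a * k + 1) = v2 (b * k + 1) ∧
      ∀ ℓ ∈ opr ⌊L ^ 2⌋₊, o2 (a * k + 1) ℓ = o2 (b * k + 1) ℓ) →
    (T.card : ℝ) ≤ 2 * L * (K : ℝ) ^ (4 / 5 + ε) := by
  obtain ⟨L0, hL03, hL0⟩ := block_asym ε hε hε1
  refine ⟨L0, hL03, ?_⟩
  intro L hL a b K ha hb hab haL hbL hK hKL T hTK hT
  have hL3 : 3 ≤ L := hL03.trans hL
  have hy3 : 3 ≤ ⌊L ^ 2⌋₊ := by
    apply Nat.le_floor
    push_cast
    nlinarith
  obtain ⟨d, hd⟩ : ∃ d, d = (a - b) + (b - a) := ⟨_, rfl⟩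
  have hd0 : 0 < d := by omega
  have hΔ0 : 0 < b * d := by positivity
  have hΔL : log ((b * d : ℕ) : ℝ) ≤ 10 * L := by
    push_cast
    have hb0 : (0 : ℝ) < b := by exact_mod_cast hb
    have ha0 : (0 : ℝ) < a := by exact_mod_cast ha
    have hd0' : (0 : ℝ) < d := by exact_mod_cast hd0
    rw [log_mul hb0.ne' hd0'.ne']
    have h1 : log (d : ℝ) ≤ L := by
      rcases le_total a b with h | h
      · have h2 : (d : ℝ) ≤ b := by exact_mod_cast (by omega : d ≤ b)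
        exact (log_le_log hd0' h2).trans hbL
      · have h2 : (d : ℝ) ≤ a := by exact_mod_cast (by omega : d ≤ a)
        exact (log_le_log hd0' h2).trans haL
    linarith
  refine hL0 L hL (b * d) hΔ0 hΔL
    (fun ℓ k => jacobiSym ((a * k + 1 : ℕ) : ℤ) ℓ * jacobiSym ((b * k + 1 : ℕ) : ℤ) ℓ)
    (fun ℓ k => ?_) ?_ (fun _ => 1) (fun _ => Or.inl rfl) K hK hKL T hTK ?_
  · rw [abs_mul]
    exact mul_le_one₀ (jac_abs _ _) (abs_nonneg _) (jac_abs _ _)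
  · intro ℓ hℓ hℓg
    rw [mem_opr] at hℓ
    refine ⟨quad_periodic a b ℓ, ?_⟩
    apply quad_sum hℓ.1 hℓ.2.2
    · intro h; exact hℓg (h.mul_right d)
    · intro h
      apply hℓg
      apply Dvd.dvd.mul_left
      rw [ZMod.natCast_eq_natCast_iff] at h
      rcases le_total a b with h4 | h4
      · have : d = b - a := by omega
        rw [this]
        exact (Nat.modEq_iff_dvd' h4).mp h
      · have : d = a - b := by omega
        rw [this]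
        exact (Nat.modEq_iff_dvd' h4).mp h.symm
  · intro k hk ℓ hℓ _
    obtain ⟨h1, h2, h3, h4, h5, h6⟩ := hT k hk
    have h7 := h6 ℓ hℓ
    rw [mem_opr] at hℓ
    show jacobiSym ((a * k + 1 : ℕ) : ℤ) ℓ * jacobiSym ((b * k + 1 : ℕ) : ℤ) ℓ = 1
    rw [symbol_rec h1 (by omega) hℓ.1 hℓ.2.2 (by omega),
      symbol_rec h2 (by omega) hℓ.1 hℓ.2.2 (by omega)]
    have e1 : esg (o2 (a * k + 1)) (v2 (a * k + 1)) ℓ = esg (o2 (b * k + 1)) (v2 (b * k + 1)) ℓ := by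
      unfold esg
      rw [h5, h7]
    rw [e1]
    rcases esg_pm (o2 (b * k + 1)) (v2 (b * k + 1)) ℓ with h | h <;> rw [h] <;> norm_num

end Run7.h306
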