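import Pool.Agent.N876.GB3.Defs

/-!
# Definitions for `MP_2ce3e7_ag.HyperplaneCoveringsRelative`
-/

set_option autoImplicit false

open Polynomial CategoryTheory AlgebraicGeometry

namespace Run7.h306.TB

open Pool.Agent.H914 Pool.Agent.H914.VarClass Pool.Agent.H914.VarClass.Obj Pool.Agent.W492.BB
  Pool.Agent.W484.CK Pool.Agent.N876.GB3

variable {κ : Type} [Field κ] {𝒱 : VarClass κ} {A : TheoryData.{0, 0, 0} 𝒱 ℚ} {K : Type} [Field K]

/-- The motivic homology of the products `X × U`: for each integer `m` a theory `T m`, where the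
subspace `T^n(X)` of the theory `T m` is `CH_j(X × U, m) ⊗ K`, `j = dim X + dim U - n`, on which the
correspondences between the varieties `X` and the Frobenius of `U` operate. It is zero for
negative `m`. -/
structure IsMotivicHomology (T : ℤ → Theory A) (F : ∀ X : 𝒱.Obj, X ⟶ X) (q : ℕ) : Prop where
  theory : ∀ m : ℤ, IsTheory (T m)
  frobenius : ∀ m : ℤ, HasFrobenius (T m) F q
  vanishing : ∀ m : ℤ, m < 0 → ∀ (X : 𝒱.Obj) (n : ℤ), ∀ z ∈ (T m).gr X n, z = 0

/-- The regulators: additive maps from the theories `T m` to `R(X) = H(X) ⊗ M` which send the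
subspace `T^n(X)` of `T m` to the part of degree `2 n - m`, and which commute with the
correspondences and with the Frobenius of `U`. -/
structure IsRegulator {U : Homology K} {H : WeilTheoryData.{0, 0, 0} A K} (T : ℤ → Theory A)
    (reg : ∀ (m : ℤ) (X : 𝒱.Obj), (T m).M X → U.R H X) : Prop where
  add : ∀ {m : ℤ} {X : 𝒱.Obj} (z w : (T m).M X), reg m X (z + w) = reg m X z + reg m X w
  mem : ∀ {m : ℤ} {X : 𝒱.Obj} {n : ℤ}, ∀ z ∈ (T m).gr X n,
    reg m X z ∈ U.degreePart H X (2 * n - m)
  corr : ∀ {m : ℤ} {X Y : 𝒱.Obj} {c : A.A (X.prod Y)} {G : U.R H X → U.R H Y},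
    U.IsTensor (H.act (H.cl c)) id G → ∀ z, reg m Y ((T m).app c z) = G (reg m X z)
  frob : ∀ {m : ℤ} {X : 𝒱.Obj} {G : U.R H X → U.R H X}, U.IsTensor id U.μ G →
    ∀ z, reg m X ((T m).φ X z) = G (reg m X z)

section maps

variable {U : Homology K} {H : WeilTheoryData.{0, 0, 0} A K} (T : ℤ → Theory A)
  (reg : ∀ (m : ℤ) (X : 𝒱.Obj), (T m).M X → U.R H X) (F : ∀ X : 𝒱.Obj, X ⟶ X) (q : ℕ)
  (X : 𝒱.Obj) (i j : ℤ)

/-- `H_i^M(X × U, ℚ(j)) ⊗ K`, that is `CH_j(X × U, i - 2 j) ⊗ K`. -/
def motivic : Submodule ℚ ((T (i - 2 * j)).M X) := (T (i - 2 * j)).gr X (U.codim X j)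

/-- `v` is an element of `H_i(X × U, ℚ_ℓ(j)) ⊗ K`, that is of the part of degree
`2 (dim X + dim U) - i` of `H(X) ⊗ M`. -/
def IsEtale (v : U.R H X) : Prop := v ∈ U.degreePart H X (2 * (X.dim + U.e) - i)

/-- The Frobenius minus one, up to an invertible factor, on `H_i(X × U, ℚ_ℓ(j))`: the Frobenius
endomorphism of `X × U` minus its eigenvalue `q ^ (dim X + dim U - j)`. -/
noncomputable def frobeniusDefect (v : U.R H X) : U.R H X := U.defect F q (U.codim X j) v

/-- The regulator of `X × U` in degree `i` with twist `j` is injective. -/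
def Injective : Prop :=
  ∀ z ∈ motivic (U := U) T X i j, reg (i - 2 * j) X z = 0 → z = 0

/-- The regulator of `X × U` in degree `i` with twist `j` is surjective onto the invariants of the
Frobenius. -/
def Surjective : Prop :=
  ∀ v : U.R H X, IsEtale X i v → frobeniusDefect F q X j v = 0 →
    ∃ z ∈ motivic (U := U) T X i j, reg (i - 2 * j) X z = v

variable (U H)

/-- The eigenvalue `1` of the Frobenius on `H_i(X × U, ℚ_ℓ(j))` is semisimple. -/
def Semisimple : Prop :=
  ∀ v : U.R H X, IsEtale X i v →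
    frobeniusDefect F q X j (frobeniusDefect F q X j v) = 0 → frobeniusDefect F q X j v = 0

variable {U H}

/-- Jannsen's conjecture `TB(X × U)`: for all `i` and `j` the regulator is an isomorphism onto the
invariants of the Frobenius, and the eigenvalue `1` of the Frobenius is semisimple. -/
def TateBeilinson : Prop :=
  ∀ i j : ℤ, (Injective T reg X i j ∧ Surjective T reg F q X i j) ∧ Semisimple U H F q X i j

end maps

/-- The conclusions for the product `V` of the `X i` with `i ∈ L` and of `Z`. -/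
structure Conclusions {ι : Type} {U : Homology K} {H : WeilTheoryData.{0, 0, 0} A K}
    (F : ∀ X : 𝒱.Obj, X ⟶ X) (q : ℕ) (χ : ℚ[X]) (X : ι → 𝒱.Obj) (Z : 𝒱.Obj)
    (T : ℤ → Theory A) (reg : ∀ (m : ℤ) (X : 𝒱.Obj), (T m).M X → U.R H X) (L : List ι) :
    Prop where
  surjective : ∀ i j : ℤ, Surjective T reg F q (productOf X Z L) i j ↔
    ∀ l : ℕ, l ≤ dimension X L → Surjective T reg F q Z (i - 2 * l) (j - l)
  semisimple : ∀ i j : ℤ, Semisimple U H F q (productOf X Z L) i j ↔
    ∀ l : ℕ, l ≤ dimension X L → Semisimple U H F q Z (i - 2 * l) (j - l)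
  injective : (∀ L, Nilpotence H (productOf X Z L)) → (∀ m, IsRoot (T m) χ) → ∀ i j : ℤ,
    (Injective T reg (productOf X Z L) i j ↔
      ∀ l : ℕ, l ≤ dimension X L → Injective T reg Z (i - 2 * l) (j - l))
  conjecture : (∀ L, Nilpotence H (productOf X Z L)) → (∀ m, IsRoot (T m) χ) →
    (TateBeilinson T reg F q (productOf X Z L) ↔ TateBeilinson T reg F q Z)

end Run7.h306.TB
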