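import Pool.Agent.N876.CG.ModE
import Pool.Agent.W484.CK.Main
import Pool.Agent.W484.CK.Motivic
import Pool.Agent.N876.GB3.Proof
import Pool.Agent.Run7.h306.TBDefs

/-!
# Proof of `MP_2ce3e7_ag.HyperplaneCoveringsRelative`
-/

set_option autoImplicit false

open Finset Polynomial CategoryTheory AlgebraicGeometry
open scoped TensorProduct

namespace Run7.h306.TB

open Pool.Agent.H914 Pool.Agent.H914.VarClass Pool.Agent.H914.VarClass.Obj Pool.Agent.W492.BB
  Pool.Agent.W484.CK Pool.Agent.N876.GB3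

/-- the regulator for one theory -/
structure RegAt {κ : Type} [Field κ] {𝒱 : VarClass κ} {A : TheoryData.{0, 0, 0} 𝒱 ℚ} {K : Type}
    [Field K] {U : Homology K} {H : WeilTheoryData.{0, 0, 0} A K} (m : ℤ) (T : Theory A)
    (reg : ∀ X, T.M X → U.R H X) : Prop where
  add : ∀ {X : 𝒱.Obj} (z w : T.M X), reg X (z + w) = reg X z + reg X w
  mem : ∀ {X : 𝒱.Obj} {n : ℤ}, ∀ z ∈ T.gr X n, reg X z ∈ U.degreePart H X (2 * n - m)
  corr : ∀ {X Y : 𝒱.Obj} {c : A.A (X.prod Y)} {G : U.R H X → U.R H Y},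
    U.IsTensor (H.act (H.cl c)) id G → ∀ z, reg Y (T.app c z) = G (reg X z)
  frob : ∀ {X : 𝒱.Obj} {G : U.R H X → U.R H X}, U.IsTensor id U.μ G →
    ∀ z, reg X (T.φ X z) = G (reg X z)

theorem core (c : ℕ) [Fact c.Prime] (κ : Type) [Field κ] [Fintype κ] [CharP κ c] {ι : Type}
    (C : ι → Covering κ) (f N lam : ℕ) (hC : IsSmallSystem C c f N lam)
    {𝒱 : VarClass κ} (A : TheoryData.{0, 0, 0} 𝒱 ℚ) [IsChow A] {K : Type} [Field K]
    [IsAlgClosed K] [CharZero K] (H : WeilTheoryData.{0, 0, 0} A K) [IsWeil H] (τ : K →+* ℂ)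
    (F : ∀ X : 𝒱.Obj, X ⟶ X) (X : ι → 𝒱.Obj) (Z : 𝒱.Obj) (χ : ℚ[X])
    (h : IsCoveringSystem C N lam H τ F X Z χ) (U : Homology K) (hU : IsHomology U χ) (m₀ : ℤ)
    (T : Theory A) (hT : IsTheory T) (hF : HasFrobenius T F (Fintype.card κ))
    (reg : ∀ X, T.M X → U.R H X) (hreg : RegAt m₀ T reg) (L : List ι) (hL : L.Nodup) :
    (∀ n : ℤ, (∀ v ∈ U.degreePart H (productOf X Z L) (2 * n - m₀),
        U.defect F (Fintype.card κ) n v = 0 → ∃ z ∈ T.gr (productOf X Z L) n, reg _ z = v) ↔
      ∀ m : ℤ, n - dimension X L ≤ m → m ≤ n → ∀ v ∈ U.degreePart H Z (2 * m - m₀),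
        U.defect F (Fintype.card κ) m v = 0 → ∃ z ∈ T.gr Z m, reg _ z = v) ∧
    (∀ n : ℤ, (∀ v ∈ U.degreePart H (productOf X Z L) (2 * n - m₀),
        U.defect F (Fintype.card κ) n (U.defect F (Fintype.card κ) n v) = 0 →
          U.defect F (Fintype.card κ) n v = 0) ↔
      ∀ m : ℤ, n - dimension X L ≤ m → m ≤ n → ∀ v ∈ U.degreePart H Z (2 * m - m₀),
        U.defect F (Fintype.card κ) m (U.defect F (Fintype.card κ) m v) = 0 →
          U.defect F (Fintype.card κ) m v = 0) ∧
    ((∀ L, Nilpotence H (productOf X Z L)) → IsRoot T χ →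
      ∀ n : ℤ, (∀ z ∈ T.gr (productOf X Z L) n, reg _ z = 0 → z = 0) ↔
      ∀ m : ℤ, n - dimension X L ≤ m → m ≤ n → ∀ z ∈ T.gr Z m, reg _ z = 0 → z = 0) := by
  obtain ⟨hf, hC, hN, hdN, hsmall⟩ := hC
  obtain ⟨hstd, hfrob, hprod, hmodel, hpol, halg, hχ0, hbase⟩ := h
  have hfin := hstd.finite
  have hf0 : 0 < f := by
    rcases Nat.eq_zero_or_pos f with h | h
    · rw [h, pow_zero] at hf
      have := Fintype.one_lt_card (α := κ)
      omega
    · exact h
  choose g T' hσT hgT hT' hcov hpure using hmodel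
  have hsmall' : ∀ I : Finset ι, I.Nonempty → Pool.Agent.N876.UV.SmallI c f N lam
      (fun i => (C i).N) (fun i => (C i).n) (fun i => (C i).s) (fun i => (C i).a) I := by
    intro I hI j hj
    obtain ⟨u, hu, hlt⟩ := hsmall I hI j hj
    refine ⟨u, hu, Pool.Agent.N876.UV.weight_conv' hf0 hN hdN I
      (fun i => ∑ k, ∑ t ∈ range f, (u * j i * (C i).a k * c ^ t) % (C i).N) ?_⟩
    refine lt_of_le_of_lt (le_of_eq ?_) hlt
    congr 1
    refine sum_congr rfl fun i _ => ?_
    unfold Covering.weight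
    push_cast
    rfl
  have hcov' : ∀ i, Pool.Agent.N876.TC.IsCov (C i).N (C i).l (C i).a (C i).z
      ((ofHom (H.pull (F (X i)))).restrict (hσT i)) ((ofHom (H.pull (g i))).restrict (hgT i)) :=
    fun i => ⟨(hcov i).commute, (hcov i).order, (hcov i).invariants,
      fun L _ _ _ t => (hcov i).lefschetz L t⟩
  have hres : ∀ SZ, Pool.Agent.N876.FL.OtherOK τ (Fintype.card κ) N lam SZ →
      Pool.Agent.N876.FL.NoResF (Fintype.card κ : K)
        (fun i => {α | Module.End.HasEigenvalue
          ((ofHom (H.pull (F (X i)))).restrict (hσT i)) α}) SZ :=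
    fun SZ hSZ => Pool.Agent.N876.FL.nores_cov hN (fun i => (hC i).two_le) hdN κ hf
      (fun i => (hC i).root) (fun i => (C i).l) (fun i => (C i).a) (fun i => (hC i).coprime) τ
      hcov' hsmall' hpure hSZ
  have htw : ∀ L : List ι, productOf X Z L = Pool.Agent.N876.CG.tw X Z L := by
    intro L
    induction L with
    | nil => rfl
    | cons i L ih => rw [productOf, Pool.Agent.N876.CG.tw, ih]
  have hdim : ∀ L : List ι, dimension X L = Pool.Agent.N876.CG.dims X L := by
    intro L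
    induction L with
    | nil => rfl
    | cons i L ih => rw [dimension, Pool.Agent.N876.CG.dims, ih]
  have hq0 : Fintype.card κ ≠ 0 := Fintype.card_ne_zero
  have hsys : Pool.Agent.N876.CG.Cr H F (Fintype.card κ) X Z
      (fun i => {α | Module.End.HasEigenvalue
          ((ofHom (H.pull (F (X i)))).restrict (hσT i)) α}) {ρ | aeval ρ χ = 0} :=
    { std := isStandard_bridge hstd
      one_lt := Fintype.one_lt_card
      frob := fun X => isFrobenius_bridge (hfrob X)
      prod := hprod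
      cg := fun i => ⟨T' i, hσT i, hT' i, fun α hα => hα⟩
      int := fun i α hα => Pool.Agent.N876.CG.int_cov hN (fun i => (hC i).two_le) hdN κ hf
        (fun i => (hC i).root) (fun i => (C i).l) (fun i => (C i).a) (fun i => (hC i).coprime) τ
        hcov' hsmall' hpure i α hα
      ne := fun i α hα h0 => by
        have h1 := hpure i α hα
        rw [h0, map_zero, norm_zero, zero_pow two_ne_zero] at h1
        have h2 : (0 : ℝ) < (Fintype.card κ : ℝ) := by exact_mod_cast Nat.pos_of_ne_zero hq0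
        exact (pow_pos h2 _).ne h1
      intZ := fun β hβ => Pool.Agent.N876.CG.integral_of_emb τ (halg _ ⟨β, hβ, rfl⟩)
      res := by
        have himg : (τ '' {γ | ∃ β ρ, (Pool.Agent.W484.CH.frob H (F Z)).HasEigenvalue β ∧
            ρ ∈ {ρ : K | aeval ρ χ = 0} ∧ γ = β * ρ}) = productsOf (H.pull (F Z)) χ τ := by
          ext b
          constructor
          · rintro ⟨_, ⟨β, ρ, hβ, hρ, rfl⟩, rfl⟩
            exact ⟨β, ρ, hβ, hρ, rfl⟩
          · rintro ⟨β, ρ, hβ, hρ, rfl⟩
            exact ⟨_, ⟨β, ρ, hβ, hρ, rfl⟩, rfl⟩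
        refine hres _ ⟨?_, ?_⟩
        · rintro _ ⟨β, ρ, hβ, hρ, rfl⟩
          exact hbase.1 _ ⟨β, ρ, hβ, hρ, rfl⟩
        · rcases hbase.2 with h | h
          · left
            rw [himg]
            exact h
          · right
            rintro _ ⟨β, ρ, hβ, hρ, rfl⟩
            exact h _ ⟨β, ρ, hβ, hρ, rfl⟩
      res1 := hres _ (Pool.Agent.N876.FL.otherOK_one τ _ _ _) }
  let T' : MotivicData A :=
    { M := T.M
      gr := T.gr
      act := fun {X Y} =>
        { toFun := fun c => (hT.right c).mk' _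
          map_add' := fun c d => LinearMap.ext fun z => (hT.left z).map_add c d
          map_smul' := fun a c => LinearMap.ext fun z => (hT.left z).map_smul a c } }
  have hT' : IsMotivic T' :=
    { app_mem := fun hc hz => hT.mem hc hz
      app_comp := fun c d z => hT.comp c d z
      app_id := fun z => hT.id z }
  let reg' : ∀ (X : 𝒱.Obj), (toCorr T').M X →ₗ[ℚ]
      (Pool.Agent.N876.CG.modT H U.M (Pool.Agent.N876.CG.part H U.W (-m₀))).M X := fun X =>
    (show (toCorr T').M X →+
      (Pool.Agent.N876.CG.modT H U.M (Pool.Agent.N876.CG.part H U.W (-m₀))).M X from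
        AddMonoidHom.mk' (M := T.M X) (G := U.R H X) (reg X)
          fun z w => hreg.add z w).toRatLinearMap
  let phi0 : ∀ (X : 𝒱.Obj), Module.End ℚ (T.M X) := fun X => (hF.linear X).mk' _
  let phi : ∀ (X : 𝒱.Obj), Module.End ℚ ((toCorr T').M X) := phi0
  have hpart : ∀ (X : 𝒱.Obj) (n : ℤ),
      U.degreePart H X (2 * n - m₀) = Pool.Agent.N876.CG.part H U.W (-m₀) X n := fun X n => by
    unfold Homology.degreePart Pool.Agent.N876.CG.part
    simp only [← sub_eq_add_neg]
    rfl
  have hdel : ∀ (X : 𝒱.Obj) (n : ℤ) (v : U.R H X),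
      Pool.Agent.N876.CG.Del (Pool.Agent.N876.CG.modT H U.M (Pool.Agent.N876.CG.part H U.W (-m₀)))
        (Pool.Agent.N876.CG.phiM (Pool.Agent.N876.CG.part H U.W (-m₀)) U.μ) F (Fintype.card κ) X n v =
        U.defect F (Fintype.card κ) n v := fun X n v =>
    Pool.Agent.N876.CG.Del_modT n v
  have hr : Pool.Agent.N876.CG.RegTo H F (Fintype.card κ) U.W U.μ (-m₀)
      (toCorr T') phi reg' :=
    { corr := toCorr_isCorrTheory hT'
      comm := fun Γ z => hF.comm Γ z
      power := fun X n z hz => by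
        have h1 := hF.power z hz
        exact sub_eq_zero.2 h1
      mem := fun X n z hz => by
        rw [← hpart]
        exact hreg.mem z hz
      act := fun Γ z => hreg.corr
        (G := Pool.Agent.N876.CG.actM H U.M Γ)
          ⟨fun v w => map_add (Pool.Agent.N876.CG.actM H U.M Γ) v w, fun a x => rfl⟩ z
      frob := fun X z => hreg.frob
        (G := LinearMap.lTensor (H.A X) U.μ)
          ⟨fun v w => map_add (LinearMap.lTensor (H.A X) U.μ) v w, fun a x => rfl⟩ z }
  have hμ : aeval U.μ (χ.map (algebraMap ℚ K)) = 0 := by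
    refine LinearMap.ext fun x => ?_
    rw [Polynomial.aeval_endomorphism, Polynomial.sum_def,
      Polynomial.support_map_of_injective χ (algebraMap ℚ K).injective, LinearMap.zero_apply]
    refine Eq.trans (Finset.sum_congr rfl fun n _ => ?_) (hU.root x)
    rw [Polynomial.coeff_map, Module.End.pow_apply, eq_ratCast]
  have hOns : ∀ (V : 𝒱.Obj) (n : ℤ),
      (∀ v ∈ U.degreePart H V (2 * n - m₀), U.defect F (Fintype.card κ) n v = 0 →
        ∃ z ∈ T.gr V n, reg V z = v) ↔
      ∀ v ∈ (Pool.Agent.N876.CG.eigT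
        (Pool.Agent.N876.CG.modT H U.M (Pool.Agent.N876.CG.part H U.W (-m₀)))
        (Pool.Agent.N876.CG.phiM (Pool.Agent.N876.CG.part H U.W (-m₀)) U.μ) F (Fintype.card κ)).gr V n,
          ∃ z ∈ (toCorr T').gr V n, reg' V z = v := by
    intro V n
    rw [hpart]
    constructor
    · intro h1 v hv
      obtain ⟨h2, h3⟩ := Pool.Agent.N876.CG.mem_eigT.1 hv
      exact h1 v h2 ((hdel V n v).symm.trans h3)
    · intro h1 v h2 h3
      exact h1 v (Pool.Agent.N876.CG.mem_eigT.2 ⟨h2, (hdel V n v).trans h3⟩)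
  have hSns : ∀ (V : 𝒱.Obj) (n : ℤ),
      (∀ v ∈ U.degreePart H V (2 * n - m₀),
        U.defect F (Fintype.card κ) n (U.defect F (Fintype.card κ) n v) = 0 →
        U.defect F (Fintype.card κ) n v = 0) ↔
      ∀ v ∈ (Pool.Agent.N876.CG.modT H U.M (Pool.Agent.N876.CG.part H U.W (-m₀))).gr V n,
        Pool.Agent.N876.CG.Del (Pool.Agent.N876.CG.modT H U.M (Pool.Agent.N876.CG.part H U.W (-m₀)))
          (Pool.Agent.N876.CG.phiM (Pool.Agent.N876.CG.part H U.W (-m₀)) U.μ) F (Fintype.card κ) V n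
          (Pool.Agent.N876.CG.Del
            (Pool.Agent.N876.CG.modT H U.M (Pool.Agent.N876.CG.part H U.W (-m₀)))
            (Pool.Agent.N876.CG.phiM (Pool.Agent.N876.CG.part H U.W (-m₀)) U.μ) F (Fintype.card κ)
            V n v) = 0 →
        Pool.Agent.N876.CG.Del (Pool.Agent.N876.CG.modT H U.M (Pool.Agent.N876.CG.part H U.W (-m₀)))
          (Pool.Agent.N876.CG.phiM (Pool.Agent.N876.CG.part H U.W (-m₀)) U.μ) F (Fintype.card κ)
          V n v = 0 := by
    intro V n
    rw [hpart]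
    refine forall_congr' fun v => forall_congr' fun hv => ?_
    rw [hdel, hdel]
    rfl
  refine ⟨fun n => ?_, fun n => ?_, fun hnil hroot n => ?_⟩
  · have h1 := Pool.Agent.N876.CG.mod_onto hsys hpol hχ0 hμ hq0 hr hL n
    rw [hOns]
    simp only [hOns]
    rw [← htw L, ← hdim L] at h1
    exact h1
  · have h1 := Pool.Agent.N876.CG.mod_ss hsys hpol hχ0 hμ hU.degree hq0 (-m₀) hL n
    rw [hSns]
    simp only [hSns]
    rw [← htw L, ← hdim L] at h1
    exact h1
  · have h1 := Pool.Agent.N876.CG.mod_inj (χ := χ) hsys hpol hχ0 hr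
      (fun L => Pool.Agent.N876.CG.nilT_of (toCorr_isCorrTheory hT') (by
          rw [← htw L]; exact nilpotence_bridge (hnil L)))
      (fun X n z hz => by
        refine (Polynomial.aeval_endomorphism (R := ℚ) (M := T.M X) (phi0 X) z χ).trans ?_
        refine Eq.trans (Finset.sum_congr rfl fun n _ => ?_) (hroot X n z hz)
        refine congrArg (fun y : T.M X => χ.coeff n • y) ?_
        exact Module.End.pow_apply (R := ℚ) (M := T.M X) (phi0 X) n z) hL n
    rw [← htw L, ← hdim L] at h1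
    exact h1

section forms

variable {κ : Type} [Field κ] {𝒱 : VarClass κ} {A : TheoryData.{0, 0, 0} 𝒱 ℚ} {K : Type} [Field K]
  {U : Homology K} {H : WeilTheoryData.{0, 0, 0} A K} (T : ℤ → Theory A)
  (reg : ∀ (m : ℤ) (X : 𝒱.Obj), (T m).M X → U.R H X) (F : ∀ X : 𝒱.Obj, X ⟶ X) (q : ℕ)
  (X : 𝒱.Obj) (i j m : ℤ)

theorem etale_form (hm : i - 2 * j = m) (v : U.R H X) :
    IsEtale X i v ↔ v ∈ U.degreePart H X (2 * U.codim X j - m) := by
  unfold IsEtale
  have h : 2 * ((X.dim : ℤ) + U.e) - i = 2 * U.codim X j - m := by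
    subst hm
    unfold Homology.codim
    ring
  rw [h]

theorem surj_form (hm : i - 2 * j = m) : Surjective T reg F q X i j ↔
    ∀ v ∈ U.degreePart H X (2 * U.codim X j - m), U.defect F q (U.codim X j) v = 0 →
      ∃ z ∈ (T m).gr X (U.codim X j), reg m X z = v := by
  subst hm
  exact forall_congr' fun v => by
    rw [etale_form X i j _ rfl]
    exact Iff.rfl

theorem semi_form (hm : i - 2 * j = m) : Semisimple U H F q X i j ↔
    ∀ v ∈ U.degreePart H X (2 * U.codim X j - m),
      U.defect F q (U.codim X j) (U.defect F q (U.codim X j) v) = 0 →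
        U.defect F q (U.codim X j) v = 0 := by
  subst hm
  exact forall_congr' fun v => by
    rw [etale_form X i j _ rfl]
    exact Iff.rfl

theorem inj_form (hm : i - 2 * j = m) : Injective T reg X i j ↔
    ∀ z ∈ (T m).gr X (U.codim X j), reg m X z = 0 → z = 0 := by
  subst hm
  exact Iff.rfl

end forms

theorem main (c : ℕ) [Fact c.Prime] (κ : Type) [Field κ] [Fintype κ] [CharP κ c] {ι : Type}
    (C : ι → Covering κ) (f N lam : ℕ) (hC : IsSmallSystem C c f N lam)
    {𝒱 : VarClass κ} (A : TheoryData.{0, 0, 0} 𝒱 ℚ) [IsChow A] {K : Type} [Field K]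
    [IsAlgClosed K] [CharZero K] (H : WeilTheoryData.{0, 0, 0} A K) [IsWeil H] (τ : K →+* ℂ)
    (F : ∀ X : 𝒱.Obj, X ⟶ X) (X : ι → 𝒱.Obj) (Z : 𝒱.Obj) (χ : ℚ[X])
    (h : IsCoveringSystem C N lam H τ F X Z χ) (U : Homology K) (hU : IsHomology U χ)
    (T : ℤ → Theory A) (hT : IsMotivicHomology T F (Fintype.card κ))
    (reg : ∀ (m : ℤ) (X : 𝒱.Obj), (T m).M X → U.R H X) (hreg : IsRegulator T reg)
    (L : List ι) (hL : L.Nodup) :
    Conclusions F (Fintype.card κ) χ X Z T reg L := by
  have hc := fun m => core c κ C f N lam hC A H τ F X Z χ h U hU m (T m) (hT.theory m)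
    (hT.frobenius m) (reg m) ⟨fun z w => hreg.add z w, fun z hz => hreg.mem z hz,
      fun h z => hreg.corr h z, fun h z => hreg.frob h z⟩ L hL
  have hdimV : ((productOf X Z L).dim : ℤ) = Z.dim + dimension X L := by
    clear hL hc
    induction L with
    | nil => simp [productOf, dimension]
    | cons i L ih =>
      rw [productOf, dimension, Obj.dim_prod]
      push_cast
      rw [ih]
      ring
  have hrange : ∀ (j : ℤ) (P : ℤ → Prop),
      (∀ m : ℤ, U.codim (productOf X Z L) j - dimension X L ≤ m →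
        m ≤ U.codim (productOf X Z L) j → P m) ↔
      ∀ l : ℕ, l ≤ dimension X L → P (U.codim Z (j - l)) := by
    intro j P
    unfold Homology.codim
    rw [hdimV]
    constructor
    · intro h1 l hl
      exact h1 _ (by omega) (by omega)
    · intro h1 m h2 h3
      obtain ⟨l, hl⟩ := Int.eq_ofNat_of_zero_le
        (show 0 ≤ m - ((Z.dim : ℤ) + U.e - j) by omega)
      have h4 := h1 l (by omega)
      have h5 : (Z.dim : ℤ) + U.e - (j - l) = m := by omega
      rwa [h5] at h4
  have hi : ∀ (i j : ℤ) (l : ℕ), i - 2 * (l : ℤ) - 2 * (j - l) = i - 2 * j := fun i j l => by ring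
  have hsurj : ∀ i j : ℤ, Surjective T reg F (Fintype.card κ) (productOf X Z L) i j ↔
      ∀ l : ℕ, l ≤ dimension X L →
        Surjective T reg F (Fintype.card κ) Z (i - 2 * l) (j - l) := by
    intro i j
    rw [surj_form T reg F _ _ i j (i - 2 * j) rfl]
    refine (((hc (i - 2 * j)).1 _).trans (hrange j _)).trans ?_
    exact forall_congr' fun l => forall_congr' fun _ =>
      (surj_form T reg F _ _ _ _ (i - 2 * j) (hi i j l)).symm
  have hsemi : ∀ i j : ℤ, Semisimple U H F (Fintype.card κ) (productOf X Z L) i j ↔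
      ∀ l : ℕ, l ≤ dimension X L →
        Semisimple U H F (Fintype.card κ) Z (i - 2 * l) (j - l) := by
    intro i j
    rw [semi_form F _ _ i j (i - 2 * j) rfl]
    refine (((hc (i - 2 * j)).2.1 _).trans (hrange j _)).trans ?_
    exact forall_congr' fun l => forall_congr' fun _ =>
      (semi_form F _ _ _ _ (i - 2 * j) (hi i j l)).symm
  have hinj : (∀ L, Nilpotence H (productOf X Z L)) → (∀ m, IsRoot (T m) χ) → ∀ i j : ℤ,
      (Injective T reg (productOf X Z L) i j ↔
        ∀ l : ℕ, l ≤ dimension X L → Injective T reg Z (i - 2 * l) (j - l)) := by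
    intro hnil hroot i j
    rw [inj_form T reg _ i j (i - 2 * j) rfl]
    refine (((hc (i - 2 * j)).2.2 hnil (hroot _) _).trans (hrange j _)).trans ?_
    exact forall_congr' fun l => forall_congr' fun _ =>
      (inj_form T reg _ _ _ (i - 2 * j) (hi i j l)).symm
  refine ⟨hsurj, hsemi, hinj, fun hnil hroot => ⟨fun h0 i j => ?_, fun h0 i j => ?_⟩⟩
  · have h1 := h0 i j
    refine ⟨⟨?_, ?_⟩, ?_⟩
    · have := (hinj hnil hroot i j).1 h1.1.1 0 (Nat.zero_le _)
      simpa using this
    · have := (hsurj i j).1 h1.1.2 0 (Nat.zero_le _)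
      simpa using this
    · have := (hsemi i j).1 h1.2 0 (Nat.zero_le _)
      simpa using this
  · exact ⟨⟨(hinj hnil hroot i j).2 fun l _ => (h0 _ _).1.1,
      (hsurj i j).2 fun l _ => (h0 _ _).1.2⟩, (hsemi i j).2 fun l _ => (h0 _ _).2⟩

end Run7.h306.TB
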