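import Mathlib
import Pool.Agent.H916R2.Relations

/-!
# Means of the sawtooth over cosets of a subgroup: finite Fourier analysis
-/

set_option autoImplicit false

open Finset Pool.Agent.H916R2

namespace Run7.h306.TC

noncomputable section

/-- Harmonic sums. -/
theorem harmonic_le (n : ℕ) : ∑ b ∈ Ico 1 n, 1 / (b : ℝ) ≤ 1 + Real.log n := by
  have h := harmonic_le_one_add_log n
  have h1 : ∑ b ∈ Ico 1 n, 1 / (b : ℝ) ≤ (harmonic n : ℝ) := by
    rw [harmonic_eq_sum_Icc]
    push_cast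
    have : ∀ b ∈ Ico 1 n, 1 / (b : ℝ) = ((b : ℝ))⁻¹ := fun b _ => one_div _
    rw [sum_congr rfl this]
    apply sum_le_sum_of_subset_of_nonneg
    · intro b hb
      rw [mem_Ico] at hb
      rw [mem_Icc]
      omega
    · intro b _ _
      positivity
  exact h1.trans h

variable {d : ℕ} [NeZero d]

/-- the additive character -/
abbrev e : AddChar (ZMod d) ℂ := ZMod.stdAddChar

theorem norm_e (x : ZMod d) : ‖(e x : ℂ)‖ = 1 := by
  rw [ZMod.stdAddChar_apply]
  exact Circle.norm_coe _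

/-- The size of `1 - e r`. -/
theorem le_norm_one_sub (r : ZMod d) (hr : r ≠ 0) :
    1 ≤ (d : ℝ) / 4 * (1 / (r.val : ℝ) + 1 / ((d : ℝ) - r.val)) * ‖1 - (e r : ℂ)‖ := by
  have hd : (0 : ℝ) < d := by exact_mod_cast NeZero.pos d
  have h0 : 0 < r.val := Nat.pos_of_ne_zero fun h => hr ((ZMod.val_eq_zero r).1 h)
  have h0' : (0 : ℝ) < r.val := by exact_mod_cast h0
  have h1 : (r.val : ℝ) < d := by exact_mod_cast ZMod.val_lt r
  obtain ⟨t, ht⟩ : ∃ t : ℝ, t = r.val / d := ⟨_, rfl⟩
  have ht0 : 0 < t := by rw [ht]; positivity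
  have ht1 : t < 1 := by rw [ht]; exact (div_lt_one hd).2 h1
  have h2 : ‖1 - (e r : ℂ)‖ = 2 * Real.sin (Real.pi * t) := by
    rw [ZMod.stdAddChar_apply, ZMod.toCircle_apply, norm_sub_rev]
    have h3 : (2 * Real.pi * Complex.I * r.val / d : ℂ) =
        Complex.I * ((2 * Real.pi * t : ℝ) : ℂ) := by
      rw [ht]
      push_cast
      ring
    rw [h3, Complex.norm_exp_I_mul_ofReal_sub_one]
    have h4 : 2 * Real.pi * t / 2 = Real.pi * t := by ring
    rw [h4, Real.norm_eq_abs, abs_of_nonneg]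
    have h5 : 0 ≤ Real.sin (Real.pi * t) :=
      Real.sin_nonneg_of_nonneg_of_le_pi (by positivity) (by nlinarith [Real.pi_pos])
    linarith
  have hpos : 0 < Real.pi := Real.pi_pos
  have h1t : 0 < 1 - t := by linarith
  have h5 : (d : ℝ) / 4 * (1 / (r.val : ℝ) + 1 / ((d : ℝ) - r.val)) =
      1 / (4 * t) + 1 / (4 * (1 - t)) := by
    have h6 : (d : ℝ) - r.val ≠ 0 := by linarith
    have h7 : 1 - t = (d - r.val) / d := by rw [ht]; field_simp
    rw [h7, ht]
    field_simp
  rw [h2, h5]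
  rcases le_total t (1 / 2) with h | h
  · have hs : 2 * t ≤ Real.sin (Real.pi * t) := by
      have := Real.mul_le_sin (x := Real.pi * t) (by positivity) (by nlinarith)
      have e : 2 / Real.pi * (Real.pi * t) = 2 * t := by field_simp
      linarith
    have h6 : 0 ≤ 1 / (4 * (1 - t)) := by positivity
    calc (1 : ℝ) = 1 / (4 * t) * (2 * (2 * t)) := by field_simp; norm_num
      _ ≤ 1 / (4 * t) * (2 * Real.sin (Real.pi * t)) := by
          apply mul_le_mul_of_nonneg_left (by linarith) (by positivity)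
      _ ≤ (1 / (4 * t) + 1 / (4 * (1 - t))) * (2 * Real.sin (Real.pi * t)) := by
          apply mul_le_mul_of_nonneg_right (by linarith)
          have : 0 < 2 * t := by positivity
          linarith
  · have hs : 2 * (1 - t) ≤ Real.sin (Real.pi * t) := by
      have := Real.mul_le_sin (x := Real.pi * (1 - t))
        (mul_nonneg hpos.le (by linarith)) (by nlinarith)
      have e : 2 / Real.pi * (Real.pi * (1 - t)) = 2 * (1 - t) := by field_simp
      have e2 : Real.sin (Real.pi * (1 - t)) = Real.sin (Real.pi * t) := by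
        rw [show Real.pi * (1 - t) = Real.pi - Real.pi * t by ring, Real.sin_pi_sub]
      linarith
    have h6 : 0 ≤ 1 / (4 * t) := by positivity
    calc (1 : ℝ) = 1 / (4 * (1 - t)) * (2 * (2 * (1 - t))) := by field_simp; norm_num
      _ ≤ 1 / (4 * (1 - t)) * (2 * Real.sin (Real.pi * t)) := by
          apply mul_le_mul_of_nonneg_left (by linarith) (by positivity)
      _ ≤ (1 / (4 * t) + 1 / (4 * (1 - t))) * (2 * Real.sin (Real.pi * t)) := by
          apply mul_le_mul_of_nonneg_right (by linarith)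
          have : 0 < 2 * (1 - t) := by positivity
          linarith

theorem sum_e (b : ZMod d) : ∑ x : ZMod d, (e (x * b) : ℂ) = if b = 0 then (d : ℂ) else 0 := by
  have h := AddChar.sum_mulShift (R := ZMod d) (R' := ℂ) b (ψ := e) (ZMod.isPrimitive_stdAddChar d)
  rw [h, ZMod.card]
  split_ifs <;> simp

/-- The difference of the sawtooth. -/
theorem saw_diff (hd : 2 ≤ d) (y : ZMod d) :
    saw y - saw (y - 1) = 2 - (if y = 0 then (d : ℤ) else 0) - (if y = 1 then (d : ℤ) else 0) := by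
  have _ : Fact (1 < d) := ⟨hd⟩
  have h10 : (1 : ZMod d) ≠ 0 := one_ne_zero
  by_cases h0 : y = 0
  · subst h0
    rw [if_pos rfl, if_neg h10.symm, saw_zero, zero_sub, zero_sub, saw_neg, neg_neg]
    unfold saw
    rw [if_neg h10, ZMod.val_one]
    push_cast
    ring
  by_cases h1 : y = 1
  · subst h1
    rw [if_neg h10, if_pos rfl, sub_self, saw_zero]
    unfold saw
    rw [if_neg h10, ZMod.val_one]
    push_cast
    ring
  have hy1 : y - 1 ≠ 0 := sub_ne_zero.2 h1
  rw [if_neg h0, if_neg h1]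
  unfold saw
  rw [if_neg h0, if_neg hy1]
  have h2 : (y - 1).val + 1 = y.val := by
    have h3 : y = (y - 1) + 1 := by ring
    have h4 : (y - 1).val + (1 : ZMod d).val < d := by
      rw [ZMod.val_one]
      have h5 := ZMod.val_lt (y - 1)
      by_contra hcon
      have h6 : (y - 1).val + 1 = d := by omega
      apply h0
      have h7 : ((((y - 1).val + 1 : ℕ)) : ZMod d) = 0 := by rw [h6, ZMod.natCast_self]
      rw [Nat.cast_add, ZMod.natCast_zmod_val, Nat.cast_one] at h7
      rw [h3, h7]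
    conv_rhs => rw [h3]
    rw [ZMod.val_add_of_lt h4, ZMod.val_one]
  have h3 : (y.val : ℤ) = (y - 1).val + 1 := by exact_mod_cast h2.symm
  rw [h3]
  ring

/-- The Fourier transform of the sawtooth. -/
theorem saw_fourier (hd : 2 ≤ d) (r : ZMod d) (hr : r ≠ 0) :
    ‖∑ y : ZMod d, (saw y : ℂ) * e (y * r)‖ ≤
      (d : ℝ) ^ 2 / 2 * (1 / (r.val : ℝ) + 1 / ((d : ℝ) - r.val)) := by
  have hd0 : (0 : ℝ) < d := by exact_mod_cast NeZero.pos d
  have h1 : (∑ y : ZMod d, (saw y : ℂ) * e (y * r)) * (1 - e r) = - d * (1 + e r) := by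
    have h2 : (∑ y : ZMod d, (saw y : ℂ) * e (y * r)) * e r =
        ∑ y : ZMod d, (saw (y - 1) : ℂ) * e (y * r) := by
      rw [sum_mul, ← Equiv.sum_comp (Equiv.subRight (1 : ZMod d))]
      refine sum_congr rfl fun y _ => ?_
      rw [Equiv.subRight_apply, mul_assoc, ← AddChar.map_add_eq_mul]
      congr 2
      ring
    rw [mul_sub, mul_one, h2, ← sum_sub_distrib]
    have h3 : ∀ y : ZMod d, (saw y : ℂ) * e (y * r) - (saw (y - 1) : ℂ) * e (y * r) =
        2 * e (y * r) - (if y = 0 then (d : ℂ) * e (y * r) else 0) -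
          (if y = 1 then (d : ℂ) * e (y * r) else 0) := by
      intro y
      rw [← sub_mul]
      have h4 : ((saw y : ℂ) - (saw (y - 1) : ℂ)) = (((saw y - saw (y - 1) : ℤ)) : ℂ) := by
        push_cast
        ring
      rw [h4, saw_diff hd y]
      push_cast
      split_ifs <;> ring
    rw [sum_congr rfl fun y _ => h3 y, sum_sub_distrib, sum_sub_distrib, ← mul_sum, sum_e,
      if_neg hr, sum_ite_eq', sum_ite_eq', if_pos (mem_univ _), if_pos (mem_univ _), zero_mul,
      one_mul, AddChar.map_zero_eq_one]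
    ring
  have h5 : ‖∑ y : ZMod d, (saw y : ℂ) * e (y * r)‖ * ‖1 - (e r : ℂ)‖ ≤ 2 * d := by
    rw [← norm_mul, h1, norm_mul, norm_neg, Complex.norm_natCast]
    have h6 : ‖1 + (e r : ℂ)‖ ≤ 2 := by
      refine (norm_add_le _ _).trans ?_
      rw [norm_one, norm_e]
      norm_num
    nlinarith
  have h7 := le_norm_one_sub r hr
  obtain ⟨A, hA⟩ : ∃ A, A = ‖∑ y : ZMod d, (saw y : ℂ) * e (y * r)‖ := ⟨_, rfl⟩
  obtain ⟨Bn, hBn⟩ : ∃ Bn, Bn = ‖1 - (e r : ℂ)‖ := ⟨_, rfl⟩
  have hrv : (r.val : ℝ) < d := by exact_mod_cast ZMod.val_lt r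
  obtain ⟨T, hT⟩ : ∃ T, T = 1 / (r.val : ℝ) + 1 / ((d : ℝ) - r.val) := ⟨_, rfl⟩
  have hT0 : 0 ≤ T := by
    rw [hT]
    have : 0 < (d : ℝ) - r.val := by linarith
    positivity
  rw [← hA, ← hBn] at h5
  rw [← hT, ← hBn] at h7
  rw [← hA, ← hT]
  have hA0 : 0 ≤ A := by rw [hA]; exact norm_nonneg _
  calc A = A * 1 := (mul_one A).symm
    _ ≤ A * ((d : ℝ) / 4 * T * Bn) := mul_le_mul_of_nonneg_left h7 hA0
    _ = (A * Bn) * ((d : ℝ) / 4 * T) := by ring
    _ ≤ (2 * d) * ((d : ℝ) / 4 * T) := mul_le_mul_of_nonneg_right h5 (by positivity)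
    _ = (d : ℝ) ^ 2 / 2 * T := by ring

/-- Fourier inversion. -/
theorem inversion (f : ZMod d → ℂ) (y : ZMod d) :
    (d : ℂ) * f y = ∑ r : ZMod d, (∑ z : ZMod d, f z * e (z * r)) * e (-(y * r)) := by
  have h1 : ∀ r : ZMod d, (∑ z : ZMod d, f z * e (z * r)) * e (-(y * r)) =
      ∑ z : ZMod d, f z * e (r * (z - y)) := by
    intro r
    rw [sum_mul]
    refine sum_congr rfl fun z _ => ?_
    rw [mul_assoc, ← AddChar.map_add_eq_mul]
    congr 2
    ring
  rw [sum_congr rfl fun r _ => h1 r, sum_comm]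
  have h2 : ∀ z : ZMod d, ∑ r : ZMod d, f z * e (r * (z - y)) =
      if z = y then f z * d else 0 := by
    intro z
    rw [← mul_sum, sum_e]
    by_cases h : z = y
    · rw [if_pos (sub_eq_zero.2 h), if_pos h]
    · rw [if_neg (fun h' => h (sub_eq_zero.1 h')), if_neg h, mul_zero]
  rw [sum_congr rfl fun z _ => h2 z, sum_ite_eq', if_pos (mem_univ _), mul_comm]

end

end Run7.h306.TC
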