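import Pool.Agent.Run7.h306.TC9
import Pool.Agent.TH125.Gal.Std

/-!
# The Tate conjecture for the factors, and the main theorem
-/

set_option autoImplicit false

open CategoryTheory AlgebraicGeometry Finset

namespace Run7.h306.TC

open Pool.Agent.H914 Pool.Agent.H914.VarClass Pool.Agent.H914.VarClass.Obj
  Pool.Agent.H914.WeilCohomology Pool.Agent.TH125.Gal Run7.h306.HF Pool.Agent.H916R2
  Pool.Agent.H281R3.HT

variable {k : Type} [Field k] {𝒱 : VarClass k} {ops : CycleOps 𝒱}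
  {W : WeilCohomology.{0, 0} ops} {Γ : Type} [Group Γ] {χ : Γ →* W.Kˣ}

/-- Elements of even degree are central. -/
theorem even_comm {X : 𝒱.Obj} {i : ℕ} {p : W.H X} (hp : p ∈ W.gr X (2 * i)) (b : W.H X) :
    p * b = b * p := by
  refine gr_induction (W.isInternal X) (p := fun b => p * b = b * p) ?_ ?_ b
  · intro j a ha
    rw [W.comm hp ha, mul_assoc, pow_mul, neg_one_sq, one_pow, one_smul]
  · intro a b ha hb
    rw [mul_add, add_mul, ha, hb]

theorem push_fst {V Z : 𝒱.Obj} {i : ℕ} {p : W.H Z} (hp : p ∈ W.gr Z (2 * i)) (c : W.H V) :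
    W.push (fst V Z) (W.map (fst V Z) c * W.map (snd V Z) p) = W.tr Z p • c := by
  rw [← sub_eq_zero]
  apply W.nondeg
  intro b
  rw [sub_mul, map_sub, W.tr_push, mul_assoc, even_comm (W.map_mem (snd V Z) hp), ← mul_assoc,
    ← map_mul, W.tr_prod, smul_mul_assoc, map_smul, smul_eq_mul, mul_comm (W.tr V _), sub_self]

theorem span_push_fst {V Z : 𝒱.Obj} {j : ℕ} {a : W.H (V.prod Z)}
    (ha : a ∈ Submodule.span W.K (algClasses W (V.prod Z) (Z.dim + j))) :
    W.push (fst V Z) a ∈ Submodule.span W.K (algClasses W V j) := by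
  induction ha using Submodule.span_induction with
  | mem a ha =>
    obtain ⟨z, hz, rfl⟩ := ha
    refine Submodule.subset_span ⟨ops.push (fst V Z) z, ?_, W.cl_push _ z⟩
    refine ops.push_mem (fst V Z) hz ?_
    rw [dim_prod]
    omega
  | zero => rw [map_zero]; exact Submodule.zero_mem _
  | add x y _ _ hx hy => rw [map_add]; exact Submodule.add_mem _ hx hy
  | smul q x _ hx => rw [map_smul]; exact Submodule.smul_mem _ _ hx

/-- The Tate conjecture for the second factor. -/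
theorem tate_snd {V Z Y : GVar W Γ} (hY : TF.IsProduct V Z Y) {p : W.H V.X}
    (hp : p ∈ Submodule.span W.K (algClasses W V.X V.X.dim)) (hp2 : p ∈ W.gr V.X (2 * V.X.dim))
    (hp0 : W.tr V.X p ≠ 0) (hT : TF.Tate χ Y) : TF.Tate χ Z := by
  obtain ⟨υ, hυ1, hυ2, rfl⟩ := TF.prod_cases hY
  intro j c hc hΔ
  obtain ⟨Δ, hΔfin, hΔ⟩ := hΔ
  have h1 : W.map (snd V.X Z.X) c ∈ Submodule.span W.K (algClasses W (V.X.prod Z.X) j) := by
    refine hT j (W.map (snd V.X Z.X) c) (W.map_mem _ hc) ⟨Δ, hΔfin, fun g hg => ?_⟩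
    change υ g (W.map (snd V.X Z.X) c) = _
    rw [hυ2, hΔ g hg, map_smul]
  have h2 : W.map (fst V.X Z.X) p * W.map (snd V.X Z.X) c ∈
      Submodule.span W.K (algClasses W (V.X.prod Z.X) (V.X.dim + j)) := by
    apply algSpan_gr
    · refine algSpan_mul (algSpan_map _ ?_) ?_
      · exact Submodule.span_mono (fun a ha => Set.mem_iUnion.2 ⟨_, ha⟩) hp
      · exact Submodule.span_mono (fun a ha => Set.mem_iUnion.2 ⟨_, ha⟩) h1
    · rw [mul_add]
      exact W.mul_mem (W.map_mem _ hp2) (W.map_mem _ hc)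
  have h3 := TF.span_push h2
  rw [TF.push_snd] at h3
  have h4 := Submodule.smul_mem _ (W.tr V.X p)⁻¹ h3
  rwa [smul_smul, inv_mul_cancel₀ hp0, one_smul] at h4

/-- The Tate conjecture for the first factor. -/
theorem tate_fst {V Z Y : GVar W Γ} (hY : TF.IsProduct V Z Y) {p : W.H Z.X}
    (hp : p ∈ Submodule.span W.K (algClasses W Z.X Z.X.dim)) (hp2 : p ∈ W.gr Z.X (2 * Z.X.dim))
    (hp0 : W.tr Z.X p ≠ 0) (hT : TF.Tate χ Y) : TF.Tate χ V := by
  obtain ⟨υ, hυ1, hυ2, rfl⟩ := TF.prod_cases hY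
  intro j c hc hΔ
  obtain ⟨Δ, hΔfin, hΔ⟩ := hΔ
  have h1 : W.map (fst V.X Z.X) c ∈ Submodule.span W.K (algClasses W (V.X.prod Z.X) j) := by
    refine hT j (W.map (fst V.X Z.X) c) (W.map_mem _ hc) ⟨Δ, hΔfin, fun g hg => ?_⟩
    change υ g (W.map (fst V.X Z.X) c) = _
    rw [hυ1, hΔ g hg, map_smul]
  have h2 : W.map (fst V.X Z.X) c * W.map (snd V.X Z.X) p ∈
      Submodule.span W.K (algClasses W (V.X.prod Z.X) (Z.X.dim + j)) := by
    apply algSpan_gr
    · refine algSpan_mul ?_ (algSpan_map _ ?_)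
      · exact Submodule.span_mono (fun a ha => Set.mem_iUnion.2 ⟨_, ha⟩) h1
      · exact Submodule.span_mono (fun a ha => Set.mem_iUnion.2 ⟨_, ha⟩) hp
    · rw [mul_add, add_comm]
      exact W.mul_mem (W.map_mem _ hc) (W.map_mem _ hp2)
  have h3 := span_push_fst h2
  rw [push_fst hp2] at h3
  have h4 := Submodule.smul_mem _ (W.tr Z.X p)⁻¹ h3
  rwa [smul_smul, inv_mul_cancel₀ hp0, one_smul] at h4

/-- The class of a point, if the Tate conjecture is true. -/
theorem exists_point {Z : GVar W Γ} (hZ : TF.IsGalois χ Z) (h1 : (1 : W.H Z.X) ≠ 0)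
    (hT : TF.Tate χ Z) : ∃ p : W.H Z.X, p ∈ Submodule.span W.K (algClasses W Z.X Z.X.dim) ∧
      p ∈ W.gr Z.X (2 * Z.X.dim) ∧ W.tr Z.X p ≠ 0 := by
  obtain ⟨a, ha⟩ := exists_tr h1
  obtain ⟨p, hp⟩ : ∃ p, p = proj (W.isInternal Z.X) (2 * Z.X.dim) a := ⟨_, rfl⟩
  have hp2 : p ∈ W.gr Z.X (2 * Z.X.dim) := by
    rw [hp]
    exact proj_mem _ _ _
  have hp0 : W.tr Z.X p ≠ 0 := by
    have h2 := sum_proj (W.isInternal Z.X) (N := 2 * Z.X.dim + 1)
      (fun i hi => W.gr_eq_bot Z.X i (by omega))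
    have h3 := LinearMap.congr_fun h2 a
    rw [LinearMap.sum_apply] at h3
    have h4 : W.tr Z.X a = W.tr Z.X p := by
      have h5 := congrArg (W.tr Z.X) h3
      rw [map_sum, sum_eq_single (2 * Z.X.dim)] at h5
      · rw [hp]
        exact h5.symm
      · intro i _ hi
        exact W.tr_eq_zero (proj_mem _ _ _) hi
      · intro h
        exact absurd (mem_range.2 (by omega)) h
    rw [← h4]
    exact ha
  refine ⟨p, ?_, hp2, hp0⟩
  refine hT Z.X.dim p hp2 ⟨⊤, inferInstance, fun g _ => ?_⟩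
  rw [← sub_eq_zero]
  by_contra hne
  have h2 : Z.act g p - (χ g : W.K) ^ Z.X.dim • p ∈ W.gr Z.X (2 * Z.X.dim) :=
    Submodule.sub_mem _ (hZ.gr_mem g _ p hp2) (Submodule.smul_mem _ _ hp2)
  apply TF.tr_top h2 hne
  rw [map_sub, map_smul, hZ.tr_act, smul_eq_mul, sub_self]

/-- **The main theorem.** -/
theorem main {k : Type} [Field k] {𝒱 : VarClass k} {ops : CycleOps 𝒱}
    {W : WeilCohomology.{0, 0} ops} (σ : W.K ≃+* ℂ) {Γ : Type} [Group Γ] (χ : Γ →* W.Kˣ) (F : Γ)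
    (κ : Type) [Field κ] [Fintype κ] (c : ℕ) [Fact c.Prime] [CharP κ c] (B : ℕ) (J : Type)
    [Fintype J] (m n : J → ℕ) (V Z Y : GVar W Γ) (hm : AreLarge c B (∑ j, (n j + 2)) m)
    (hY : IsFermatTimes c σ χ F κ B m n V Z Y) :
    ((IsEven Z ∨ HaveParity c m n) → (TF.Tate χ Y ↔ TF.Tate χ V ∧ TF.Tate χ Z)) ∧
      (HaveParity c m n → (∀ j, IsPrimePow (m j)) → (TF.Tate χ Y ↔ TF.Tate χ Z)) := by
  classical
  obtain ⟨N, θ, ψ, e, ⟨hN0, hmN, hNκ, hθ, hψ⟩, hedeg, heF, -, hlin, halg⟩ := hY.fermat.2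
  have hm0 : ∀ j, NeZero (m j) := by
    intro j
    exact ⟨fun h => by
      have h1 := hmN j
      rw [h, zero_dvd_iff] at h1
      omega⟩
  -- the class of a point on the product of Fermat varieties
  obtain ⟨b, hb⟩ : ∃ b : (∀ j, Label (m j) (n j)), b = fun j => Sum.inl (Fin.last (n j)) :=
    ⟨_, rfl⟩
  have hdeg : ∑ j, TF.degree (b j) = 2 * ∑ j, n j := by
    rw [hb, mul_sum]
    rfl
  have hp1 := hlin b _ (fun j => ⟨Fin.last (n j), by rw [hb]⟩) hdeg
  have hp2 := hedeg b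
  rw [hdeg, ← hY.fermat.1] at hp2
  rw [← hY.fermat.1] at hp1
  have hp3 : W.tr V.X (e b) ≠ 0 := TF.tr_top hp2 (e.ne_zero b)
  have hsnd := tate_snd (χ := χ) hY.prod hp1 hp2 hp3
  constructor
  · intro hpar
    constructor
    · intro hT
      have hTZ := hsnd hT
      obtain ⟨p, h1, h2, h3⟩ := exists_point hY.galois_base hY.bounded.one_ne hTZ
      exact ⟨tate_fst hY.prod h1 h2 h3 hT, hTZ⟩
    · rintro ⟨hTV, hTZ⟩
      exact tate_prod hm hY.fermat hY.bounded hY.galois_base hY.prod hpar hTV hTZ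
  · intro hpar hpp
    refine ⟨hsnd, fun hTZ => ?_⟩
    exact tate_prod hm hY.fermat hY.bounded hY.galois_base hY.prod (Or.inr hpar)
      (tate_fermat hpp hY.fermat hY.bounded.twist hpar) hTZ

end Run7.h306.TC
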