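import Pool.Agent.Run7.h306.TC1

/-!
# Exponential sums over subgroups of the units
-/

set_option autoImplicit false

open Finset Pool.Agent.H916R2

namespace Run7.h306.TC

noncomputable section

/-- Sums along a surjective homomorphism. -/
theorem sum_hom {G G' : Type} [Group G] [Group G'] [Fintype G] [Fintype G'] (φ : G →* G')
    (hφ : Function.Surjective φ) (f : G' → ℂ) :
    (Fintype.card G' : ℂ) * ∑ g : G, f (φ g) = Fintype.card G * ∑ g : G', f g := by
  have h1 : ∑ g : G, ∑ w : G', f (φ g * w) = Fintype.card G * ∑ g : G', f g := by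
    have h0 : ∀ g : G, ∑ w : G', f (φ g * w) = ∑ w : G', f w := fun g =>
      Equiv.sum_comp (Equiv.mulLeft (φ g)) f
    rw [sum_congr rfl fun g _ => h0 g, sum_const, card_univ, nsmul_eq_mul]
  rw [← h1, sum_comm]
  have h2 : ∀ w : G', ∑ g : G, f (φ g * w) = ∑ g : G, f (φ g) := by
    intro w
    obtain ⟨v, rfl⟩ := hφ w
    rw [← Equiv.sum_comp (Equiv.mulRight v) fun g => f (φ g)]
    refine sum_congr rfl fun g _ => ?_
    rw [Equiv.coe_mulRight, map_mul]
  rw [sum_congr rfl fun w _ => h2 w, sum_const, card_univ, nsmul_eq_mul]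

variable {d : ℕ} [NeZero d]

open Classical in
/-- The exponential sum over a subgroup. -/
def SS (H : Subgroup (ZMod d)ˣ) (r : ZMod d) : ℂ := ∑ u : H, e (((u : (ZMod d)ˣ) : ZMod d) * r)

theorem SS_mul (H : Subgroup (ZMod d)ˣ) (v : H) (r : ZMod d) :
    SS H (((v : (ZMod d)ˣ) : ZMod d) * r) = SS H r := by
  classical
  unfold SS
  rw [← Equiv.sum_comp (Equiv.mulRight v) fun u : H => (e (((u : (ZMod d)ˣ) : ZMod d) * r) : ℂ)]
  refine sum_congr rfl fun u _ => ?_
  rw [Equiv.coe_mulRight, Subgroup.coe_mul, Units.val_mul, mul_assoc]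

open Classical in
theorem SS_parseval (H : Subgroup (ZMod d)ˣ) :
    ∑ r : ZMod d, ‖SS H r‖ ^ 2 = d * Fintype.card H := by
  have h1 : ∀ r : ZMod d, ((‖SS H r‖ ^ 2 : ℝ) : ℂ) =
      ∑ u : H, ∑ v : H, e (r * (((u : (ZMod d)ˣ) : ZMod d) - ((v : (ZMod d)ˣ) : ZMod d))) := by
    intro r
    have h2 : ((‖SS H r‖ ^ 2 : ℝ) : ℂ) = SS H r * starRingEnd ℂ (SS H r) := by
      rw [Complex.mul_conj, Complex.normSq_eq_norm_sq]
    rw [h2]
    unfold SS
    rw [map_sum, sum_mul_sum]
    refine sum_congr rfl fun u _ => sum_congr rfl fun v _ => ?_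
    rw [← AddChar.map_neg_eq_conj, ← AddChar.map_add_eq_mul]
    congr 1
    ring
  have h3 : ((∑ r : ZMod d, ‖SS H r‖ ^ 2 : ℝ) : ℂ) = ((d * Fintype.card H : ℝ) : ℂ) := by
    rw [Complex.ofReal_sum, sum_congr rfl fun r _ => h1 r, sum_comm]
    have h4 : ∀ u : H, ∑ r : ZMod d, ∑ v : H,
        (e (r * (((u : (ZMod d)ˣ) : ZMod d) - ((v : (ZMod d)ˣ) : ZMod d))) : ℂ) = d := by
      intro u
      rw [sum_comm]
      have h5 : ∀ v : H, ∑ r : ZMod d,
          (e (r * (((u : (ZMod d)ˣ) : ZMod d) - ((v : (ZMod d)ˣ) : ZMod d))) : ℂ) =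
          if v = u then (d : ℂ) else 0 := by
        intro v
        rw [sum_e]
        by_cases h : v = u
        · rw [h, if_pos (sub_self _), if_pos rfl]
        · rw [if_neg h, if_neg]
          intro h'
          exact h (Subtype.ext (Units.ext (sub_eq_zero.1 h').symm))
      rw [sum_congr rfl fun v _ => h5 v, sum_ite_eq', if_pos (mem_univ _)]
    rw [sum_congr rfl fun u _ => h4 u, sum_const, card_univ, nsmul_eq_mul]
    push_cast
    ring
  exact_mod_cast h3

/-- The bound at units. -/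
theorem SS_unit (H : Subgroup (ZMod d)ˣ) {r : ZMod d} (hr : IsUnit r) :
    ‖SS H r‖ ^ 2 ≤ d := by
  classical
  have h1 : (Fintype.card H : ℝ) * ‖SS H r‖ ^ 2 ≤ d * Fintype.card H := by
    rw [← SS_parseval H]
    have h2 : (Fintype.card H : ℝ) * ‖SS H r‖ ^ 2 =
        ∑ v : H, ‖SS H (((v : (ZMod d)ˣ) : ZMod d) * r)‖ ^ 2 := by
      rw [sum_congr rfl fun v _ => congrArg (fun x => ‖x‖ ^ 2) (SS_mul H v r), sum_const,
        card_univ, nsmul_eq_mul]
    rw [h2]
    have h3 : Set.InjOn (fun v : H => ((v : (ZMod d)ˣ) : ZMod d) * r)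
        ((univ : Finset H) : Set H) := by
      intro u _ v _ h
      exact Subtype.ext (Units.ext (hr.mul_right_cancel h))
    rw [← sum_image (f := fun s => ‖SS H s‖ ^ 2) h3]
    apply sum_le_sum_of_subset_of_nonneg (subset_univ _)
    intro i _ _
    positivity
  have h4 : (0 : ℝ) < Fintype.card H := by exact_mod_cast Fintype.card_pos
  have h5 : (Fintype.card H : ℝ) * ‖SS H r‖ ^ 2 ≤ Fintype.card H * d := by
    rw [mul_comm (Fintype.card H : ℝ) (d : ℝ)]
    exact h1
  exact le_of_mul_le_mul_left h5 h4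

theorem e_mul {g d' : ℕ} [NeZero d'] (h : g * d' = d) (x : ZMod d) :
    (e ((g : ZMod d) * x) : ℂ) = e (ZMod.castHom (Dvd.intro_left g h) (ZMod d') x) := by
  have hg : (g : ℂ) ≠ 0 := by
    intro h0
    have h1 : g = 0 := by exact_mod_cast h0
    rw [h1, zero_mul] at h
    exact NeZero.ne d h.symm
  have hd' : (d' : ℂ) ≠ 0 := by exact_mod_cast NeZero.ne d'
  have h1 : x = ((x.val : ℤ) : ZMod d) := by
    rw [Int.cast_natCast, ZMod.natCast_zmod_val]
  obtain ⟨n, hn⟩ : ∃ n : ℤ, x = (n : ZMod d) := ⟨_, h1⟩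
  rw [hn]
  have h2 : (g : ZMod d) * (n : ZMod d) = ((g * n : ℤ) : ZMod d) := by push_cast; rfl
  have h3 : ZMod.castHom (Dvd.intro_left g h) (ZMod d') (n : ZMod d) = (n : ZMod d') := map_intCast _ _
  have h4 : (d : ℂ) = g * d' := by rw [← h]; push_cast; rfl
  rw [h2, h3, ZMod.stdAddChar_coe, ZMod.stdAddChar_coe, h4]
  congr 1
  push_cast
  field_simp

/-- Reduction to a divisor. -/
theorem SS_red {g d' : ℕ} [NeZero d'] (h : g * d' = d) (H : Subgroup (ZMod d)ˣ) (x : ZMod d) :
    (Nat.card (H.map (ZMod.unitsMap (Dvd.intro_left g h : d' ∣ d))) : ℂ) *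
        SS H ((g : ZMod d) * x) =
      Nat.card H * SS (H.map (ZMod.unitsMap (Dvd.intro_left g h : d' ∣ d)))
        (ZMod.castHom (Dvd.intro_left g h) (ZMod d') x) := by
  classical
  have h1 := sum_hom ((ZMod.unitsMap (Dvd.intro_left g h : d' ∣ d)).subgroupMap H)
    (MonoidHom.subgroupMap_surjective _ _) (fun w =>
      (e (((w : (ZMod d')ˣ) : ZMod d') * ZMod.castHom (Dvd.intro_left g h) (ZMod d') x) : ℂ))
  rw [Nat.card_eq_fintype_card, Nat.card_eq_fintype_card]
  unfold SS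
  rw [← h1]
  congr 1
  refine sum_congr rfl fun u _ => ?_
  have h2 : ((u : (ZMod d)ˣ) : ZMod d) * ((g : ZMod d) * x) =
      (g : ZMod d) * (((u : (ZMod d)ˣ) : ZMod d) * x) := by ring
  rw [h2, e_mul h, map_mul]
  rfl

/-- The bound for the exponential sums. -/
theorem SS_bound {g d' : ℕ} [NeZero d'] (h : g * d' = d) (H : Subgroup (ZMod d)ˣ) (x : ZMod d)
    (hx : IsUnit (ZMod.castHom (Dvd.intro_left g h) (ZMod d') x)) :
    ‖SS H ((g : ZMod d) * x)‖ * Real.sqrt d ≤
      Nat.card H * H.index * d.divisors.card * Real.sqrt g := by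
  have hg0 : 0 < g := Nat.pos_of_ne_zero fun h0 => by
    rw [h0, zero_mul] at h
    exact NeZero.ne d h.symm
  obtain ⟨H', hH'⟩ : ∃ H', H' = H.map (ZMod.unitsMap (Dvd.intro_left g h : d' ∣ d)) := ⟨_, rfl⟩
  have h1 := SS_red h H x
  rw [← hH'] at h1
  have h2 := congrArg norm h1
  rw [norm_mul, norm_mul, Complex.norm_natCast, Complex.norm_natCast] at h2
  have h3 : ‖SS H' (ZMod.castHom (Dvd.intro_left g h) (ZMod d') x)‖ ≤ Real.sqrt d' :=
    Real.le_sqrt_of_sq_le (SS_unit H' hx)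
  have h4 : Nat.card H' * H'.index = d'.totient := by
    rw [Subgroup.card_mul_index, Nat.card_eq_fintype_card, ZMod.card_units_eq_totient]
  have h5 : H'.index ≤ H.index := by
    rw [hH']
    exact Nat.le_of_dvd (Nat.pos_of_ne_zero (Subgroup.FiniteIndex.index_ne_zero))
      (Subgroup.index_map_dvd H (ZMod.unitsMap_surjective _))
  have h6 : d' ≤ d.divisors.card * d'.totient := by
    have h7 : d' ≤ d'.divisors.card * d'.totient := by
      conv_lhs => rw [← Nat.sum_totient d']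
      rw [← smul_eq_mul, ← Finset.sum_const]
      apply sum_le_sum
      intro i hi
      exact Nat.le_of_dvd (Nat.totient_pos.2 (NeZero.pos d'))
        (Nat.totient_dvd_of_dvd (Nat.dvd_of_mem_divisors hi))
    refine h7.trans (Nat.mul_le_mul_right _ (card_le_card ?_))
    exact Nat.divisors_subset_of_dvd (NeZero.ne d) (Dvd.intro_left g h)
  have h8 : (d' : ℝ) ≤ d.divisors.card * (Nat.card H' * H.index) := by
    have h9 : d' ≤ d.divisors.card * (Nat.card H' * H.index) := by
      refine h6.trans (Nat.mul_le_mul_left _ ?_)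
      rw [← h4]
      exact Nat.mul_le_mul_left _ h5
    exact_mod_cast h9
  have hd' : (0 : ℝ) < d' := by exact_mod_cast NeZero.pos d'
  have hsd : Real.sqrt d = Real.sqrt g * Real.sqrt d' := by
    rw [← Real.sqrt_mul (Nat.cast_nonneg g), ← h]
    push_cast
    rfl
  have hc : (0 : ℝ) < Nat.card H' := by exact_mod_cast Nat.card_pos
  have hsd' : Real.sqrt d' * Real.sqrt d' = d' := Real.mul_self_sqrt hd'.le
  have hsg : 0 ≤ Real.sqrt g := Real.sqrt_nonneg _
  have hs0 : 0 ≤ Real.sqrt d' := Real.sqrt_nonneg _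
  refine le_of_mul_le_mul_left ?_ hc
  calc (Nat.card H' : ℝ) * (‖SS H ((g : ZMod d) * x)‖ * Real.sqrt d)
      = (Nat.card H' * ‖SS H ((g : ZMod d) * x)‖) * Real.sqrt d := by ring
    _ = (Nat.card H * ‖SS H' (ZMod.castHom (Dvd.intro_left g h) (ZMod d') x)‖) * Real.sqrt d := by
        rw [h2]
    _ ≤ (Nat.card H * Real.sqrt d') * Real.sqrt d := by
        apply mul_le_mul_of_nonneg_right _ (Real.sqrt_nonneg _)
        exact mul_le_mul_of_nonneg_left h3 (Nat.cast_nonneg _)
    _ = Nat.card H * Real.sqrt g * d' := by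
        rw [hsd]
        calc (Nat.card H * Real.sqrt d') * (Real.sqrt g * Real.sqrt d') =
            Nat.card H * Real.sqrt g * (Real.sqrt d' * Real.sqrt d') := by ring
          _ = _ := by rw [hsd']
    _ ≤ Nat.card H * Real.sqrt g * (d.divisors.card * (Nat.card H' * H.index)) := by
        apply mul_le_mul_of_nonneg_left h8 (by positivity)
    _ = (Nat.card H' : ℝ) * (Nat.card H * H.index * d.divisors.card * Real.sqrt g) := by ring

/-- Harmonic sums over multiples. -/
theorem sum_multiples (g : ℕ) (hg : 0 < g) :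
    ∑ k ∈ (Ico 1 d).filter (g ∣ ·), 1 / (k : ℝ) ≤ 1 / g * (1 + Real.log d) := by
  have h1 : ∑ k ∈ (Ico 1 d).filter (g ∣ ·), 1 / (k : ℝ) ≤ ∑ l ∈ Ico 1 d, 1 / ((g * l : ℕ) : ℝ) := by
    rw [← sum_image (f := fun k : ℕ => 1 / (k : ℝ)) (g := fun l : ℕ => g * l)
      (fun a _ b _ h => Nat.eq_of_mul_eq_mul_left hg h)]
    apply sum_le_sum_of_subset_of_nonneg
    · intro k hk
      obtain ⟨hk1, l, rfl⟩ := mem_filter.1 hk
      rw [mem_Ico] at hk1
      rw [mem_image]
      refine ⟨l, ?_, rfl⟩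
      rw [mem_Ico]
      constructor
      · rcases Nat.eq_zero_or_pos l with h | h
        · rw [h, mul_zero] at hk1
          omega
        · exact h
      · exact lt_of_le_of_lt (Nat.le_mul_of_pos_left l hg) hk1.2
    · intro k _ _
      positivity
  refine h1.trans ?_
  have h2 : ∀ l ∈ Ico 1 d, 1 / ((g * l : ℕ) : ℝ) = 1 / g * (1 / (l : ℝ)) := by
    intro l _
    push_cast
    rw [one_div_mul_one_div]
  rw [sum_congr rfl h2, ← mul_sum]
  exact mul_le_mul_of_nonneg_left (harmonic_le d) (by positivity)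

theorem sum_gcd :
    ∑ k ∈ Ico 1 d, Real.sqrt (Nat.gcd k d) * (1 / (k : ℝ)) ≤ d.divisors.card * (1 + Real.log d) := by
  have h1 : ∀ k ∈ Ico 1 d, Real.sqrt (Nat.gcd k d) * (1 / (k : ℝ)) ≤
      ∑ g ∈ d.divisors, if g ∣ k then Real.sqrt g * (1 / (k : ℝ)) else 0 := by
    intro k hk
    have h2 : Nat.gcd k d ∈ d.divisors := Nat.mem_divisors.2 ⟨Nat.gcd_dvd_right _ _, NeZero.ne d⟩
    have h3 := single_le_sum (f := fun g : ℕ => if g ∣ k then Real.sqrt g * (1 / (k : ℝ)) else 0)
      (fun g _ => by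
        change 0 ≤ (if g ∣ k then Real.sqrt g * (1 / (k : ℝ)) else 0)
        split_ifs <;> positivity) h2
    change (if Nat.gcd k d ∣ k then Real.sqrt (Nat.gcd k d) * (1 / (k : ℝ)) else 0) ≤ _ at h3
    rwa [if_pos (Nat.gcd_dvd_left _ _)] at h3
  refine (sum_le_sum h1).trans ?_
  rw [sum_comm, ← nsmul_eq_mul, ← sum_const]
  refine sum_le_sum fun g hg => ?_
  have hg0 : 0 < g := Nat.pos_of_mem_divisors hg
  rw [← sum_filter, ← mul_sum]
  have hg1 : (1 : ℝ) ≤ g := by exact_mod_cast hg0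
  have hd1 : (1 : ℝ) ≤ d := by exact_mod_cast NeZero.pos d
  have hlog : 0 ≤ Real.log d := Real.log_nonneg hd1
  have h4 : Real.sqrt g * (1 / g) ≤ 1 := by
    have h5 : Real.sqrt g ≤ g := by
      rw [Real.sqrt_le_left (by linarith)]
      nlinarith
    rw [mul_one_div, div_le_one (by linarith)]
    exact h5
  calc Real.sqrt g * ∑ k ∈ (Ico 1 d).filter (g ∣ ·), 1 / (k : ℝ)
      ≤ Real.sqrt g * (1 / g * (1 + Real.log d)) :=
        mul_le_mul_of_nonneg_left (sum_multiples g hg0) (Real.sqrt_nonneg _)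
    _ = (Real.sqrt g * (1 / g)) * (1 + Real.log d) := by ring
    _ ≤ 1 * (1 + Real.log d) := mul_le_mul_of_nonneg_right h4 (by linarith)
    _ = 1 + Real.log d := one_mul _

theorem sum_gcd_both :
    ∑ k ∈ Ico 1 d, Real.sqrt (Nat.gcd k d) * (1 / (k : ℝ) + 1 / ((d : ℝ) - k)) ≤
      2 * (d.divisors.card * (1 + Real.log d)) := by
  simp only [mul_add, sum_add_distrib]
  have h1 : ∑ k ∈ Ico 1 d, Real.sqrt (Nat.gcd k d) * (1 / ((d : ℝ) - k)) =
      ∑ k ∈ Ico 1 d, Real.sqrt (Nat.gcd k d) * (1 / (k : ℝ)) := by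
    apply sum_bij (fun (b : ℕ) _ => d - b)
    · intro b hb; rw [mem_Ico] at hb ⊢; omega
    · intro a ha b hb h; rw [mem_Ico] at ha hb; omega
    · intro b hb; rw [mem_Ico] at hb; exact ⟨d - b, by rw [mem_Ico]; omega, by omega⟩
    · intro b hb
      rw [mem_Ico] at hb
      have h2 : Nat.gcd (d - b) d = Nat.gcd b d := by
        rw [Nat.gcd_comm, Nat.gcd_self_sub_right hb.2.le, Nat.gcd_comm]
      rw [h2, Nat.cast_sub hb.2.le]
  rw [h1, ← two_mul]
  linarith [sum_gcd (d := d)]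

/-- **The mean of the sawtooth over a coset.** -/
theorem mean_bound (hd : 2 ≤ d) (H : Subgroup (ZMod d)ˣ) (a : (ZMod d)ˣ) [Fintype H] :
    |((∑ u : H, saw (((u : (ZMod d)ˣ) : ZMod d) * (a : ZMod d)) : ℤ) : ℝ)| * Real.sqrt d ≤
      Nat.card H * d * H.index * (d.divisors.card ^ 2 * (1 + Real.log d)) := by
  classical
  have hd0 : (0 : ℝ) < d := by exact_mod_cast NeZero.pos d
  -- Fourier inversion
  have h1 : (d : ℂ) * ((∑ u : H, saw (((u : (ZMod d)ˣ) : ZMod d) * (a : ZMod d)) : ℤ) : ℂ) =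
      ∑ r : ZMod d, (∑ z : ZMod d, (saw z : ℂ) * e (z * r)) * SS H (-((a : ZMod d) * r)) := by
    push_cast
    rw [mul_sum, sum_congr rfl fun u _ => inversion (fun y => (saw y : ℂ)) _, sum_comm]
    refine sum_congr rfl fun r _ => ?_
    rw [← mul_sum]
    congr 1
    unfold SS
    refine sum_congr (by ext; simp) fun u _ => ?_
    congr 1
    ring
  -- the bound of each term
  have h2 : ∀ r : ZMod d, r ≠ 0 → ‖SS H (-((a : ZMod d) * r))‖ * Real.sqrt d ≤
      Nat.card H * H.index * d.divisors.card * Real.sqrt (Nat.gcd r.val d) := by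
    intro r hr
    have hv : 0 < r.val := Nat.pos_of_ne_zero fun h => hr ((ZMod.val_eq_zero r).1 h)
    obtain ⟨g, hg⟩ : ∃ g, g = Nat.gcd r.val d := ⟨_, rfl⟩
    have hg0 : 0 < g := by rw [hg]; exact Nat.gcd_pos_of_pos_left _ hv
    obtain ⟨k, hk⟩ : g ∣ r.val := by rw [hg]; exact Nat.gcd_dvd_left _ _
    obtain ⟨d', hd'⟩ : g ∣ d := by rw [hg]; exact Nat.gcd_dvd_right _ _
    have hd'0 : NeZero d' := ⟨by
      rintro rfl
      rw [mul_zero] at hd'
      exact NeZero.ne d hd'⟩
    have hcop : k.Coprime d' := by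
      have h3 := Nat.gcd_mul_left g k d'
      rw [← hk, ← hd', ← hg] at h3
      exact Nat.eq_of_mul_eq_mul_left hg0 (by rw [mul_one]; exact h3.symm)
    have h3 : -((a : ZMod d) * r) = (g : ZMod d) * (-(a : ZMod d) * (k : ZMod d)) := by
      have h4 : r = ((g * k : ℕ) : ZMod d) := by rw [← hk, ZMod.natCast_zmod_val]
      rw [h4]
      push_cast
      ring
    have h4 := SS_bound hd'.symm H (-(a : ZMod d) * (k : ZMod d)) (by
      rw [map_mul, map_neg, map_natCast]
      apply IsUnit.mul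
      · exact (a.isUnit.map _).neg
      · exact (ZMod.isUnit_iff_coprime k d').2 hcop)
    rw [h3, ← hg]
    exact h4
  have h3 : ∀ r : ZMod d, ‖(∑ z : ZMod d, (saw z : ℂ) * e (z * r)) *
      SS H (-((a : ZMod d) * r))‖ * Real.sqrt d ≤ if r = 0 then 0 else
        (d : ℝ) ^ 2 / 2 * (Nat.card H * H.index * d.divisors.card) *
          (Real.sqrt (Nat.gcd r.val d) * (1 / (r.val : ℝ) + 1 / ((d : ℝ) - r.val))) := by
    intro r
    by_cases hr : r = 0
    · rw [if_pos hr, hr]
      have h4 : ∑ z : ZMod d, (saw z : ℂ) * e (z * 0) = 0 := by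
        have h5 : ∑ z : ZMod d, (saw z : ℂ) = 0 := by
          have h6 : ∑ z : ZMod d, (saw z : ℂ) = - ∑ z : ZMod d, (saw z : ℂ) := by
            conv_lhs => rw [← Equiv.sum_comp (Equiv.neg (ZMod d))]
            rw [← sum_neg_distrib]
            refine sum_congr rfl fun z _ => ?_
            rw [Equiv.neg_apply, saw_neg]
            push_cast
            rfl
          have h7 : (2 : ℂ) * ∑ z : ZMod d, (saw z : ℂ) = 0 := by
            linear_combination h6
          exact (mul_eq_zero.1 h7).resolve_left two_ne_zero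
        rw [← h5]
        refine sum_congr rfl fun z _ => ?_
        rw [mul_zero, AddChar.map_zero_eq_one, mul_one]
      rw [h4, zero_mul, norm_zero, zero_mul]
    · rw [if_neg hr, norm_mul]
      have h4 := saw_fourier hd r hr
      have h5 := h2 r hr
      have hrv : (r.val : ℝ) < d := by exact_mod_cast ZMod.val_lt r
      have hT0 : 0 ≤ 1 / (r.val : ℝ) + 1 / ((d : ℝ) - r.val) := by
        have : 0 < (d : ℝ) - r.val := by linarith
        positivity
      calc ‖∑ z : ZMod d, (saw z : ℂ) * e (z * r)‖ * ‖SS H (-((a : ZMod d) * r))‖ * Real.sqrt d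
          = ‖∑ z : ZMod d, (saw z : ℂ) * e (z * r)‖ *
              (‖SS H (-((a : ZMod d) * r))‖ * Real.sqrt d) := by ring
        _ ≤ ((d : ℝ) ^ 2 / 2 * (1 / (r.val : ℝ) + 1 / ((d : ℝ) - r.val))) *
              (Nat.card H * H.index * d.divisors.card * Real.sqrt (Nat.gcd r.val d)) := by
            apply mul_le_mul h4 h5 (by positivity) (by positivity)
        _ = _ := by ring
  have h4 : (d : ℝ) * (|((∑ u : H, saw (((u : (ZMod d)ˣ) : ZMod d) * (a : ZMod d)) : ℤ) : ℝ)| * Real.sqrt d) ≤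
      (d : ℝ) ^ 2 / 2 * (Nat.card H * H.index * d.divisors.card) *
        (2 * (d.divisors.card * (1 + Real.log d))) := by
    have h5 : (d : ℝ) * |((∑ u : H, saw (((u : (ZMod d)ˣ) : ZMod d) * (a : ZMod d)) : ℤ) : ℝ)| =
        ‖∑ r : ZMod d, (∑ z : ZMod d, (saw z : ℂ) * e (z * r)) * SS H (-((a : ZMod d) * r))‖ := by
      rw [← h1, norm_mul, Complex.norm_natCast, Complex.norm_intCast]
    rw [← mul_assoc, h5]
    calc _ ≤ (∑ r : ZMod d, ‖(∑ z : ZMod d, (saw z : ℂ) * e (z * r)) *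
          SS H (-((a : ZMod d) * r))‖) * Real.sqrt d :=
          mul_le_mul_of_nonneg_right (norm_sum_le _ _) (Real.sqrt_nonneg _)
      _ = ∑ r : ZMod d, ‖(∑ z : ZMod d, (saw z : ℂ) * e (z * r)) *
          SS H (-((a : ZMod d) * r))‖ * Real.sqrt d := by rw [sum_mul]
      _ ≤ ∑ r : ZMod d, if r = 0 then 0 else
          (d : ℝ) ^ 2 / 2 * (Nat.card H * H.index * d.divisors.card) *
          (Real.sqrt (Nat.gcd r.val d) * (1 / (r.val : ℝ) + 1 / ((d : ℝ) - r.val))) :=
          sum_le_sum fun r _ => h3 r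
      _ = ∑ k ∈ Ico 1 d, (d : ℝ) ^ 2 / 2 * (Nat.card H * H.index * d.divisors.card) *
          (Real.sqrt (Nat.gcd k d) * (1 / (k : ℝ) + 1 / ((d : ℝ) - k))) := by
          rw [← sum_filter_add_sum_filter_not univ (fun r : ZMod d => r = 0)]
          have h6 : ∑ r ∈ univ.filter (fun r : ZMod d => r = 0), (if r = 0 then 0 else
              (d : ℝ) ^ 2 / 2 * (Nat.card H * H.index * d.divisors.card) *
              (Real.sqrt (Nat.gcd r.val d) * (1 / (r.val : ℝ) + 1 / ((d : ℝ) - r.val)))) = 0 :=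
            sum_eq_zero fun r hr => if_pos (mem_filter.1 hr).2
          rw [h6, zero_add]
          apply sum_bij (fun (r : ZMod d) _ => r.val)
          · intro r hr
            rw [mem_Ico]
            have h7 := (mem_filter.1 hr).2
            exact ⟨Nat.pos_of_ne_zero fun h => h7 ((ZMod.val_eq_zero r).1 h), ZMod.val_lt r⟩
          · intro r _ s _ h
            exact ZMod.val_injective d h
          · intro k hk
            rw [mem_Ico] at hk
            refine ⟨(k : ZMod d), ?_, ?_⟩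
            · rw [mem_filter]
              refine ⟨mem_univ _, fun h => ?_⟩
              rw [ZMod.natCast_eq_zero_iff] at h
              exact absurd (Nat.le_of_dvd (by omega) h) (by omega)
            · rw [ZMod.val_natCast, Nat.mod_eq_of_lt hk.2]
          · intro r hr
            rw [if_neg (mem_filter.1 hr).2]
      _ = (d : ℝ) ^ 2 / 2 * (Nat.card H * H.index * d.divisors.card) *
          ∑ k ∈ Ico 1 d, (Real.sqrt (Nat.gcd k d) * (1 / (k : ℝ) + 1 / ((d : ℝ) - k))) := by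
          rw [mul_sum]
      _ ≤ _ := mul_le_mul_of_nonneg_left sum_gcd_both (by positivity)
  refine le_of_mul_le_mul_left ?_ hd0
  refine h4.trans (le_of_eq ?_)
  ring

end

end Run7.h306.TC
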