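import Pool.Agent.Run7.h306.TF4

/-!
# The labels of Tate classes: the main arithmetic theorem
-/

set_option autoImplicit false

open Finset Pool.Agent.Y145.DI Pool.Agent.N214.HB Pool.Agent.H916R2 Pool.Agent.Y1.HZ Run7.h306.HF

namespace Run7.h306.TF

theorem norm_le_one_of_isIntegral {p : ℕ} [Fact p.Prime] {z : PadicAlgCl p}
    (hz : IsIntegral ℤ z) : ‖z‖ ≤ 1 := by
  have h1 := (Valuation.integer.integers
    (Valued.v : Valuation (PadicAlgCl p) NNReal)).mem_of_integral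
    (hz.tower_top (A := (Valued.v : Valuation (PadicAlgCl p) NNReal).integer))
  rw [← PadicAlgCl.valuation_coe p z]
  exact_mod_cast h1

theorem isIntegral_coe {z : algebraicClosure ℚ ℂ} (hz : IsIntegral ℤ (z : ℂ)) :
    IsIntegral ℤ z := by
  have h1 : Function.Injective (algebraMap (algebraicClosure ℚ ℂ) ℂ) :=
    (algebraMap (algebraicClosure ℚ ℂ) ℂ).injective
  exact (isIntegral_algebraMap_iff h1).1 hz

/-- every unit is attained -/
theorem exists_cyc_eq {N : ℕ} [NeZero N] (t : (ZMod N)ˣ) : ∃ τ : ℂ ≃+* ℂ, cyc N τ = t := by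
  obtain ⟨τ, h, -⟩ := exists_cyc (Nat.coprime_one_right N) t (1 : (ZMod 1)ˣ)
  exact ⟨τ, h⟩

section

variable {κ : Type} [Field κ] [Fintype κ] {c N : ℕ} [Fact c.Prime] [CharP κ c] [NeZero N]

theorem card_pow : ∃ F : ℕ, 0 < F ∧ Fintype.card κ = c ^ F := by
  obtain ⟨F, -, hF⟩ := FiniteField.card κ c
  exact ⟨F, F.pos, hF⟩

/-- the number in the relation is algebraic -/
theorem algebraic_of_rel (θ : MulChar κ ℂ) (ψ : AddChar κ ℂ) {ι : Type} (s : Finset ι)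
    (x : ι → ZMod N) {ρ : ℂ} {a r e : ℕ} (he : 0 < e)
    (h : (ρ * (Fintype.card κ : ℂ) ^ a *
        ∏ i ∈ s, gaussSum (θ ^ (x i).val) ψ) ^ e = ((Fintype.card κ : ℂ) ^ r) ^ e) :
    ρ ∈ algebraicClosure ℚ ℂ := by
  obtain ⟨G, hG⟩ : ∃ G : algebraicClosure ℚ ℂ, (G : ℂ) = (Fintype.card κ : ℂ) ^ a *
        ∏ i ∈ s, gaussSum (θ ^ (x i).val) ψ := by
    refine ⟨(Fintype.card κ : algebraicClosure ℚ ℂ) ^ a *
      ∏ i ∈ s, gaussSum (liftChi (θ ^ (x i).val)) (liftPsi ψ), ?_⟩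
    have h1 : ∀ y : algebraicClosure ℚ ℂ, (y : ℂ) = (algebraicClosure ℚ ℂ).val y := fun _ => rfl
    rw [h1, map_mul, map_pow, map_natCast, map_prod]
    congr 1
    exact prod_congr rfl fun i _ => coe_gauss _ _
  rw [mul_assoc, ← hG, mul_pow] at h
  have hq : ((Fintype.card κ : ℂ) ^ r) ^ e ≠ 0 :=
    pow_ne_zero _ (pow_ne_zero _ (by exact_mod_cast Fintype.card_ne_zero))
  have hG0 : (G : ℂ) ^ e ≠ 0 := by
    intro h0
    rw [h0, mul_zero] at h
    exact hq h.symm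
  rw [mem_algebraicClosure_iff]
  apply IsAlgebraic.of_pow he
  rw [← mem_algebraicClosure_iff, eq_div_of_mul_eq hG0 h]
  exact div_mem (pow_mem (pow_mem (natCast_mem _ _) _) _) (pow_mem G.2 _)

/-- The bound for the slopes. -/
theorem level_le (hN : N ∣ Fintype.card κ - 1) (θ : MulChar κ ℂ) (hθ : orderOf θ = N)
    (ψ : AddChar κ ℂ) (hψ : ψ ≠ 1) (F : ℕ) (hF0 : 0 < F) (hF : Fintype.card κ = c ^ F)
    {ι : Type} (s : Finset ι) (x : ι → ZMod N) (hx : ∀ i ∈ s, x i ≠ 0) {ρ : ℂ} {a r e w D : ℕ}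
    (he : 0 < e) (h : (ρ * (Fintype.card κ : ℂ) ^ a *
        ∏ i ∈ s, gaussSum (θ ^ (x i).val) ψ) ^ e = ((Fintype.card κ : ℂ) ^ r) ^ e)
    (hw : ‖ρ‖ ^ 2 = (Fintype.card κ : ℝ) ^ w)
    (hD : IsIntegral ℤ ((Fintype.card κ : ℂ) ^ D * ρ / starRingEnd ℂ ρ)) (t : (ZMod N)ˣ) :
    |EE c F s x t| ≤ F * N * D := by
  obtain ⟨σ, hσ⟩ := rel_zpow hN θ hθ ψ hψ F hF
  have hρ := algebraic_of_rel θ ψ s x he h
  obtain ⟨hL0, hL1⟩ := norm_p_lt (p := c)
  have hq : (Fintype.card κ : ℂ) ≠ 0 := by exact_mod_cast Fintype.card_ne_zero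
  have hρ0 : ρ ≠ 0 := by
    rintro rfl
    rw [norm_zero, zero_pow two_ne_zero] at hw
    exact (pow_pos (by exact_mod_cast Fintype.card_pos : (0 : ℝ) < Fintype.card κ) w).ne hw
  have hconj : (starRingEnd ℂ) ρ = (Fintype.card κ : ℂ) ^ w / ρ := by
    rw [eq_div_iff hρ0, mul_comm, Complex.mul_conj, Complex.normSq_eq_norm_sq, hw]
    push_cast
    rfl
  let ρ' : algebraicClosure ℚ ℂ := ⟨ρ, hρ⟩
  let y : algebraicClosure ℚ ℂ := (Fintype.card κ : algebraicClosure ℚ ℂ) ^ D * ρ' ^ 2 /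
    (Fintype.card κ : algebraicClosure ℚ ℂ) ^ w
  have hy : IsIntegral ℤ y := by
    apply isIntegral_coe
    have h1 : (y : ℂ) = (Fintype.card κ : ℂ) ^ D * ρ / starRingEnd ℂ ρ := by
      have h2 : (y : ℂ) = (Fintype.card κ : ℂ) ^ D * ρ ^ 2 / (Fintype.card κ : ℂ) ^ w := by
        have h1 : ∀ y : algebraicClosure ℚ ℂ, (y : ℂ) = (algebraicClosure ℚ ℂ).val y :=
          fun _ => rfl
        rw [h1, map_div₀, map_mul, map_pow, map_pow, map_pow, map_natCast]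
        rfl
      rw [h2, hconj]
      field_simp
    rw [h1]
    exact hD
  have hle : ∀ u : (ZMod N)ˣ, EE c F s x u ≤ F * N * D := by
    intro u
    obtain ⟨τ, rfl⟩ := exists_cyc_eq u
    have h1 := hσ s x hx ρ' a r e w he h hw τ
    have h2 : ‖σ (restr τ y)‖ ≤ 1 := by
      apply norm_le_one_of_isIntegral
      exact (hy.map (restr τ).toIntAlgHom).map σ.toIntAlgHom
    have h3 : σ (restr τ y) = (Fintype.card κ : PadicAlgCl c) ^ D * σ (restr τ ρ') ^ 2 /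
        (Fintype.card κ : PadicAlgCl c) ^ w := by
      simp only [y, map_div₀, map_mul, map_pow, map_natCast]
    rw [h3, norm_div, norm_mul, norm_pow, norm_pow, norm_pow, hF] at h2
    push_cast at h2
    rw [norm_pow, ← pow_mul, ← pow_mul] at h2
    have h4 := pow_le_pow_left₀ (by positivity) h2 N
    rw [one_pow, div_pow, mul_pow, ← pow_mul, ← pow_mul, ← pow_mul, h1, ← zpow_natCast,
      ← zpow_natCast, ← zpow_add₀ hL0.ne', ← zpow_sub₀ hL0.ne'] at h4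
    by_contra hcon
    push Not at hcon
    have h5 : ((F * D * N : ℕ) : ℤ) + ((F * N * w : ℤ) - EE c F s x (cyc N τ)) -
        ((F * w * N : ℕ) : ℤ) < 0 := by
      push_cast
      have : (F : ℤ) * D * N = F * N * D := by ring
      have : (F : ℤ) * w * N = F * N * w := by ring
      omega
    exact absurd h4 (not_le.2 (one_lt_zpow_of_neg₀ hL0 hL1 h5))
  rw [abs_le]
  constructor
  · have h1 := hle (-t)
    rw [Units.val_neg, EE_neg] at h1
    linarith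
  · exact hle t

/-- The slopes are determined by the conjugates. -/
theorem slope_conj (hN : N ∣ Fintype.card κ - 1) (θ : MulChar κ ℂ) (hθ : orderOf θ = N)
    (ψ : AddChar κ ℂ) (hψ : ψ ≠ 1) (F : ℕ) (hF0 : 0 < F) (hF : Fintype.card κ = c ^ F)
    {ι : Type} (s : Finset ι) (x : ι → ZMod N) (hx : ∀ i ∈ s, x i ≠ 0) {ρ : ℂ} {a r e w : ℕ}
    (he : 0 < e) (h : (ρ * (Fintype.card κ : ℂ) ^ a *
        ∏ i ∈ s, gaussSum (θ ^ (x i).val) ψ) ^ e = ((Fintype.card κ : ℂ) ^ r) ^ e)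
    (hw : ‖ρ‖ ^ 2 = (Fintype.card κ : ℝ) ^ w) {τ τ' : ℂ ≃+* ℂ} (hτ : τ ρ = τ' ρ) :
    EE c F s x (cyc N τ) = EE c F s x (cyc N τ') := by
  obtain ⟨σ, hσ⟩ := rel_zpow hN θ hθ ψ hψ F hF
  have hρ := algebraic_of_rel θ ψ s x he h
  obtain ⟨hL0, hL1⟩ := norm_p_lt (p := c)
  let ρ' : algebraicClosure ℚ ℂ := ⟨ρ, hρ⟩
  have h1 := hσ s x hx ρ' a r e w he h hw τ
  have h2 := hσ s x hx ρ' a r e w he h hw τ'
  have h3 : restr τ ρ' = restr τ' ρ' := Subtype.ext hτ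
  rw [h3, h2] at h1
  have h4 := zpow_right_injective₀ hL0 hL1.ne h1
  omega

end

end Run7.h306.TF
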