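import Pool.Agent.Run7.h306.TC2
import Pool.Agent.Run7.h306.TF5

/-!
# The vanishing of the slopes
-/

set_option autoImplicit false

open Finset Pool.Agent.H916R2

namespace Run7.h306.TC

open Run7.h306.TF

noncomputable section

theorem unit_iota {N g d : ℕ} [NeZero N] [NeZero d] (h : g * d = N) (u : ZMod N) (b : ZMod d) :
    u * iota g b = iota g (ZMod.castHom (Dvd.intro_left g h) (ZMod d) u * b) := by
  have h1 : ZMod.castHom (Dvd.intro_left g h) (ZMod d) u = (u.val : ZMod d) := by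
    conv_lhs => rw [← ZMod.natCast_zmod_val u]
    exact map_natCast _ _
  rw [h1, iota_natMul h, ZMod.natCast_zmod_val]

/-- The mean of the sawtooth over the multiples of a residue. -/
theorem mean_bound' {N : ℕ} [NeZero N] (H : Subgroup (ZMod N)ˣ) [Fintype H] {x : ZMod N}
    (hx : x ≠ 0) :
    |((∑ u : H, saw (((u : (ZMod N)ˣ) : ZMod N) * x) : ℤ) : ℝ)| * Real.sqrt (addOrderOf x) ≤
      Nat.card H * N * H.index *
        ((addOrderOf x).divisors.card ^ 2 * (1 + Real.log (addOrderOf x))) := by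
  classical
  obtain ⟨d, hd⟩ : ∃ d, d = addOrderOf x := ⟨_, rfl⟩
  obtain ⟨g, hg⟩ : ∃ g, g = Nat.gcd N x.val := ⟨_, rfl⟩
  have hN : 0 < N := NeZero.pos N
  have hxv : 0 < x.val := Nat.pos_of_ne_zero fun h => hx ((ZMod.val_eq_zero x).1 h)
  have hg0 : 0 < g := by rw [hg]; exact Nat.gcd_pos_of_pos_left _ hN
  have hdN : d = N / g := by
    rw [hd, hg]
    conv_lhs => rw [← ZMod.natCast_zmod_val x]
    exact ZMod.addOrderOf_coe _ hN.ne'
  have hgd : g * d = N := by
    rw [hdN]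
    exact Nat.mul_div_cancel' (by rw [hg]; exact Nat.gcd_dvd_left _ _)
  have hd0 : 0 < d := Nat.pos_of_ne_zero fun h => by
    rw [h, mul_zero] at hgd
    omega
  have _ : NeZero d := ⟨hd0.ne'⟩
  obtain ⟨k, hk⟩ : g ∣ x.val := by rw [hg]; exact Nat.gcd_dvd_right _ _
  have hcop : k.Coprime d := by
    have h3 := Nat.gcd_mul_left g d k
    rw [← hk, hgd, ← hg] at h3
    have h4 : Nat.gcd d k = 1 := Nat.eq_of_mul_eq_mul_left hg0 (by rw [mul_one]; exact h3.symm)
    exact Nat.Coprime.symm h4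
  have hkd : k < d := by
    have h1 := ZMod.val_lt x
    rw [hk, ← hgd] at h1
    exact lt_of_mul_lt_mul_left h1 (Nat.zero_le g)
  have hd2 : 2 ≤ d := by
    by_contra hcon
    have h1 : d = 1 := by omega
    have h2 : k = 0 := by omega
    rw [h2, mul_zero] at hk
    omega
  obtain ⟨a, ha⟩ : ∃ a : (ZMod d)ˣ, (a : ZMod d) = (k : ZMod d) :=
    ⟨ZMod.unitOfCoprime k hcop, ZMod.coe_unitOfCoprime _ _⟩
  have hxa : x = iota g (a : ZMod d) := by
    rw [ha]
    unfold iota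
    rw [ZMod.val_natCast, Nat.mod_eq_of_lt hkd, ← hk, ZMod.natCast_zmod_val]
  have h1 := sum_hom ((ZMod.unitsMap (Dvd.intro_left g hgd : d ∣ N)).subgroupMap H)
    (MonoidHom.subgroupMap_surjective _ _) (fun w =>
      ((saw (((w : (ZMod d)ˣ) : ZMod d) * (a : ZMod d)) : ℤ) : ℂ))
  have h2 : ∀ u : H, saw (((u : (ZMod N)ˣ) : ZMod N) * x) = (g : ℤ) * saw
      (((((ZMod.unitsMap (Dvd.intro_left g hgd : d ∣ N)).subgroupMap H u :
        H.map (ZMod.unitsMap (Dvd.intro_left g hgd : d ∣ N))) : (ZMod d)ˣ) : ZMod d) *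
          (a : ZMod d)) := by
    intro u
    rw [hxa, unit_iota hgd, saw_iota hgd]
    rfl
  obtain ⟨H', hH'⟩ : ∃ H', H' = H.map (ZMod.unitsMap (Dvd.intro_left g hgd : d ∣ N)) := ⟨_, rfl⟩
  have h5 : H'.index ≤ H.index := by
    rw [hH']
    exact Nat.le_of_dvd (Nat.pos_of_ne_zero (Subgroup.FiniteIndex.index_ne_zero))
      (Subgroup.index_map_dvd H (ZMod.unitsMap_surjective _))
  have h3 := mean_bound hd2 H' a
  subst hH'
  have h4 : (Nat.card (H.map (ZMod.unitsMap (Dvd.intro_left g hgd : d ∣ N))) : ℝ) *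
      ((∑ u : H, saw (((u : (ZMod N)ˣ) : ZMod N) * x) : ℤ) : ℝ) =
      Nat.card H * (g * ((∑ w : H.map (ZMod.unitsMap (Dvd.intro_left g hgd : d ∣ N)),
        saw (((w : (ZMod d)ˣ) : ZMod d) * (a : ZMod d)) : ℤ) : ℝ)) := by
    rw [sum_congr rfl fun u _ => h2 u, ← mul_sum]
    rw [Nat.card_eq_fintype_card, Nat.card_eq_fintype_card]
    have h6 : ((Fintype.card (H.map (ZMod.unitsMap (Dvd.intro_left g hgd : d ∣ N))) *
        (∑ u : H, saw (((((ZMod.unitsMap (Dvd.intro_left g hgd : d ∣ N)).subgroupMap H u :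
        H.map (ZMod.unitsMap (Dvd.intro_left g hgd : d ∣ N))) : (ZMod d)ˣ) : ZMod d) *
          (a : ZMod d))) : ℤ) : ℂ) = ((Fintype.card H *
          (∑ w : H.map (ZMod.unitsMap (Dvd.intro_left g hgd : d ∣ N)),
        saw (((w : (ZMod d)ˣ) : ZMod d) * (a : ZMod d))) : ℤ) : ℂ) := by
      push_cast
      exact h1
    have h7 := Int.cast_injective h6
    obtain ⟨Q1, hQ1⟩ : ∃ Q1 : ℤ, Q1 = ∑ u : H, saw
      (((((ZMod.unitsMap (Dvd.intro_left g hgd : d ∣ N)).subgroupMap H u :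
        H.map (ZMod.unitsMap (Dvd.intro_left g hgd : d ∣ N))) : (ZMod d)ˣ) : ZMod d) *
          (a : ZMod d)) := ⟨_, rfl⟩
    obtain ⟨Q2, hQ2⟩ : ∃ Q2 : ℤ, Q2 = ∑ w : H.map (ZMod.unitsMap (Dvd.intro_left g hgd : d ∣ N)),
        saw (((w : (ZMod d)ˣ) : ZMod d) * (a : ZMod d)) := ⟨_, rfl⟩
    rw [← hQ1, ← hQ2] at h7
    rw [← hQ1, ← hQ2]
    have h8 : ((Fintype.card (H.map (ZMod.unitsMap (Dvd.intro_left g hgd : d ∣ N))) : ℝ)) * Q1 =
        Fintype.card H * Q2 := by exact_mod_cast h7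
    rw [Int.cast_mul, Int.cast_natCast]
    linear_combination (g : ℝ) * h8
  obtain ⟨A, hA⟩ : ∃ A, A = |((∑ u : H, saw (((u : (ZMod N)ˣ) : ZMod N) * x) : ℤ) : ℝ)| := ⟨_, rfl⟩
  obtain ⟨A', hA'⟩ : ∃ A', A' = |((∑ w : H.map (ZMod.unitsMap (Dvd.intro_left g hgd : d ∣ N)),
        saw (((w : (ZMod d)ˣ) : ZMod d) * (a : ZMod d)) : ℤ) : ℝ)| := ⟨_, rfl⟩
  have h6 := congrArg abs h4
  rw [abs_mul, abs_mul, abs_mul, Nat.abs_cast, Nat.abs_cast, Nat.abs_cast, ← hA, ← hA'] at h6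
  rw [← hA'] at h3
  rw [← hA, ← hd]
  have hc : (0 : ℝ) < Nat.card (H.map (ZMod.unitsMap (Dvd.intro_left g hgd : d ∣ N))) := by
    exact_mod_cast Nat.card_pos
  have h5' : ((H.map (ZMod.unitsMap (Dvd.intro_left g hgd : d ∣ N))).index : ℝ) ≤ H.index := by
    exact_mod_cast h5
  generalize ((H.map (ZMod.unitsMap (Dvd.intro_left g hgd : d ∣ N))).index : ℝ) = I at h3 h5'
  generalize (Nat.card (H.map (ZMod.unitsMap (Dvd.intro_left g hgd : d ∣ N))) : ℝ) = K at h3 h6 hc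
  refine le_of_mul_le_mul_left ?_ hc
  have hβ : 0 ≤ ((d.divisors.card : ℝ) ^ 2 * (1 + Real.log d)) := by
    have h9 : 0 ≤ Real.log d := Real.log_natCast_nonneg _
    exact mul_nonneg (sq_nonneg _) (add_nonneg zero_le_one h9)
  have hNgd : (N : ℝ) = g * d := by rw [← hgd]; push_cast; rfl
  calc K * (A * Real.sqrt d) = (K * A) * Real.sqrt d := by ring
    _ = Nat.card H * g * (A' * Real.sqrt d) := by rw [h6]; ring
    _ ≤ Nat.card H * g * (K * d * I * (d.divisors.card ^ 2 * (1 + Real.log d))) :=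
        mul_le_mul_of_nonneg_left h3 (mul_nonneg (Nat.cast_nonneg _) (Nat.cast_nonneg _))
    _ ≤ Nat.card H * g * (K * d * H.index * (d.divisors.card ^ 2 * (1 + Real.log d))) := by
        apply mul_le_mul_of_nonneg_left _ (mul_nonneg (Nat.cast_nonneg _) (Nat.cast_nonneg _))
        apply mul_le_mul_of_nonneg_right _ hβ
        exact mul_le_mul_of_nonneg_left h5' (mul_nonneg hc.le (Nat.cast_nonneg _))
    _ = _ := by rw [hNgd]; ring

theorem super_zero {N c F : ℕ} [NeZero N] {y : ZMod N} (hF : (c : ZMod N) ^ F * y = y) {k : ℕ}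
    (hk : (c : ZMod N) ^ k * y = -y) : ∑ j ∈ range F, saw ((c : ZMod N) ^ j * y) = 0 := by
  have h1 : ∀ l : ℕ, ∑ j ∈ range F, saw ((c : ZMod N) ^ (j + l) * y) =
      ∑ j ∈ range F, saw ((c : ZMod N) ^ j * y) := by
    intro l
    induction l with
    | zero => rfl
    | succ l ih =>
      rw [← ih]
      have h2 := sum_range_succ (fun j => saw ((c : ZMod N) ^ (j + l) * y)) F
      have h3 := sum_range_succ' (fun j => saw ((c : ZMod N) ^ (j + l) * y)) F
      have h4 : saw ((c : ZMod N) ^ (F + l) * y) = saw ((c : ZMod N) ^ (0 + l) * y) := by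
        rw [zero_add, add_comm, pow_add, mul_assoc, hF]
      rw [h3, h4] at h2
      have h5 := add_right_cancel h2
      rw [← h5]
      refine sum_congr rfl fun j _ => ?_
      congr 3
      omega
  have h2 := h1 k
  have h3 : ∀ j ∈ range F, saw ((c : ZMod N) ^ (j + k) * y) = - saw ((c : ZMod N) ^ j * y) := by
    intro j _
    rw [pow_add, mul_assoc, hk, mul_neg, saw_neg]
  rw [sum_congr rfl h3, sum_neg_distrib] at h2
  omega

theorem addOrderOf_unit {N : ℕ} (u : (ZMod N)ˣ) (x : ZMod N) :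
    addOrderOf ((u : ZMod N) * x) = addOrderOf x := by
  have h3 : ∀ k : ℕ, k • ((u : ZMod N) * x) = 0 ↔ k • x = 0 := by
    intro k
    rw [nsmul_eq_mul, nsmul_eq_mul, mul_left_comm]
    exact u.isUnit.mul_right_eq_zero
  apply Nat.dvd_antisymm
  · rw [addOrderOf_dvd_iff_nsmul_eq_zero, h3]
    exact addOrderOf_nsmul_eq_zero _
  · rw [addOrderOf_dvd_iff_nsmul_eq_zero, ← h3]
    exact addOrderOf_nsmul_eq_zero _

/-- The residues of an order `d` for which `-1` is a power of `c` modulo `d`. -/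
theorem super_of {N c k : ℕ} {x : ZMod N} (h : (c : ZMod (addOrderOf x)) ^ k = -1) :
    (c : ZMod N) ^ k * x = -x := by
  have h1 : ((c ^ k + 1 : ℕ) : ZMod (addOrderOf x)) = 0 := by
    push_cast
    rw [h]
    ring
  rw [ZMod.natCast_eq_zero_iff, addOrderOf_dvd_iff_nsmul_eq_zero, nsmul_eq_mul] at h1
  push_cast at h1
  linear_combination h1

/-- **The slopes vanish.** -/
theorem EE_zero {N c F B M : ℕ} [NeZero N] (hc : (c : ZMod N) ^ F = 1) (hF : 0 < F) {ι : Type}
    (s : Finset ι) (x : ι → ZMod N) (hx : ∀ i ∈ s, x i ≠ 0) (hM : s.card ≤ M)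
    (H : Subgroup (ZMod N)ˣ)
    (hH : ∀ h ∈ H, ∀ t : (ZMod N)ˣ, EE c F s x ((h * t : (ZMod N)ˣ) : ZMod N) = EE c F s x t)
    (hB : H.index ≤ B)
    (hl : ∀ i ∈ s, (∃ k : ℕ, (c : ZMod (addOrderOf (x i))) ^ k = -1) ∨
      (M : ℝ) * B ^ 2 * ((addOrderOf (x i)).divisors.card ^ 2 *
        (1 + Real.log (addOrderOf (x i)))) < Real.sqrt (addOrderOf (x i)))
    (t : (ZMod N)ˣ) (hd : EE c F s x t = 0 ∨ (F * N : ℤ) ≤ |EE c F s x t| * B) :
    EE c F s x t = 0 := by
  classical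
  rcases hd with hd | hd
  · exact hd
  exfalso
  have hN : (0 : ℝ) < N := by exact_mod_cast NeZero.pos N
  have hF' : (0 : ℝ) < F := by exact_mod_cast hF
  have hB0 : 0 < B := lt_of_lt_of_le (Nat.pos_of_ne_zero Subgroup.FiniteIndex.index_ne_zero) hB
  have hB1 : (0 : ℝ) < B := by exact_mod_cast hB0
  have hcu : IsUnit (c : ZMod N) := IsUnit.of_pow_eq_one hc hF.ne'
  obtain ⟨cu, hcu⟩ := hcu
  -- the terms
  have hterm : ∀ i ∈ s, ((|∑ u : H, ∑ j ∈ range F, saw ((c : ZMod N) ^ j *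
      ((((u : (ZMod N)ˣ) * t : (ZMod N)ˣ) : ZMod N) * x i))| : ℤ) : ℝ) * (M * B) ≤
        Nat.card H * F * N ∧ ((∑ u : H, ∑ j ∈ range F, saw ((c : ZMod N) ^ j *
      ((((u : (ZMod N)ˣ) * t : (ZMod N)ˣ) : ZMod N) * x i))) ≠ 0 →
      ((|∑ u : H, ∑ j ∈ range F, saw ((c : ZMod N) ^ j *
      ((((u : (ZMod N)ˣ) * t : (ZMod N)ˣ) : ZMod N) * x i))| : ℤ) : ℝ) * (M * B) <
        Nat.card H * F * N) := by
    intro i hi
    rcases hl i hi with ⟨k, hk⟩ | hlarge
    · have h1 := super_of hk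
      have h2 : ∀ u : H, ∑ j ∈ range F, saw ((c : ZMod N) ^ j *
          ((((u : (ZMod N)ˣ) * t : (ZMod N)ˣ) : ZMod N) * x i)) = 0 := by
        intro u
        refine super_zero (k := k) ?_ ?_
        · rw [hc, one_mul]
        · rw [mul_left_comm, h1, mul_neg]
      rw [sum_congr rfl fun u _ => h2 u, sum_const_zero, abs_zero, Int.cast_zero, zero_mul]
      exact ⟨by positivity, fun h => absurd rfl h⟩
    · have h1 : ((|∑ u : H, ∑ j ∈ range F, saw ((c : ZMod N) ^ j *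
          ((((u : (ZMod N)ˣ) * t : (ZMod N)ˣ) : ZMod N) * x i))| : ℤ) : ℝ) *
            Real.sqrt (addOrderOf (x i)) ≤ F * (Nat.card H * N * H.index *
        ((addOrderOf (x i)).divisors.card ^ 2 * (1 + Real.log (addOrderOf (x i))))) := by
        rw [sum_comm]
        have h2 : ∀ j ∈ range F, ∑ u : H, saw ((c : ZMod N) ^ j *
          ((((u : (ZMod N)ˣ) * t : (ZMod N)ˣ) : ZMod N) * x i)) =
          ∑ u : H, saw (((u : (ZMod N)ˣ) : ZMod N) * (((cu ^ j * t : (ZMod N)ˣ) : ZMod N) * x i)) := by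
          intro j _
          refine sum_congr rfl fun u _ => ?_
          congr 1
          rw [Units.val_mul, Units.val_mul, Units.val_pow_eq_pow_val, hcu]
          ring
        rw [sum_congr rfl h2]
        have h3 : ∀ j ∈ range F, ((|∑ u : H, saw (((u : (ZMod N)ˣ) : ZMod N) *
            (((cu ^ j * t : (ZMod N)ˣ) : ZMod N) * x i))| : ℤ) : ℝ) *
              Real.sqrt (addOrderOf (x i)) ≤ (Nat.card H * N * H.index *
        ((addOrderOf (x i)).divisors.card ^ 2 * (1 + Real.log (addOrderOf (x i))))) := by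
          intro j _
          have h4 : ((cu ^ j * t : (ZMod N)ˣ) : ZMod N) * x i ≠ 0 := by
            intro h5
            exact hx i hi ((Units.mul_right_eq_zero _).1 h5)
          have h5 := mean_bound' H h4
          rw [addOrderOf_unit, ← Int.cast_abs] at h5
          exact h5
        calc _ ≤ (∑ j ∈ range F, ((|∑ u : H, saw (((u : (ZMod N)ˣ) : ZMod N) *
            (((cu ^ j * t : (ZMod N)ˣ) : ZMod N) * x i))| : ℤ) : ℝ)) *
              Real.sqrt (addOrderOf (x i)) := by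
              apply mul_le_mul_of_nonneg_right _ (Real.sqrt_nonneg _)
              exact_mod_cast abs_sum_le_sum_abs _ _
          _ = ∑ j ∈ range F, ((|∑ u : H, saw (((u : (ZMod N)ˣ) : ZMod N) *
            (((cu ^ j * t : (ZMod N)ˣ) : ZMod N) * x i))| : ℤ) : ℝ) *
              Real.sqrt (addOrderOf (x i)) := by rw [sum_mul]
          _ ≤ ∑ j ∈ range F, (Nat.card H * N * H.index *
        ((addOrderOf (x i)).divisors.card ^ 2 * (1 + Real.log (addOrderOf (x i))))) :=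
              sum_le_sum h3
          _ = _ := by rw [sum_const, card_range, nsmul_eq_mul]
      obtain ⟨A, hA⟩ : ∃ A, A = ((|∑ u : H, ∑ j ∈ range F, saw ((c : ZMod N) ^ j *
          ((((u : (ZMod N)ˣ) * t : (ZMod N)ˣ) : ZMod N) * x i))| : ℤ) : ℝ) := ⟨_, rfl⟩
      obtain ⟨β, hβ⟩ : ∃ β, β = ((addOrderOf (x i)).divisors.card : ℝ) ^ 2 *
        (1 + Real.log (addOrderOf (x i))) := ⟨_, rfl⟩
      obtain ⟨r, hr⟩ : ∃ r, r = Real.sqrt (addOrderOf (x i)) := ⟨_, rfl⟩
      rw [← hA, ← hβ, ← hr] at h1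
      rw [← hβ, ← hr] at hlarge
      have hβ0 : 0 ≤ β := by
        rw [hβ]
        have : 0 ≤ Real.log (addOrderOf (x i)) := Real.log_natCast_nonneg _
        positivity
      have hA0 : 0 ≤ A := by rw [hA]; positivity
      have hr0 : 0 < r := lt_of_le_of_lt (by positivity) hlarge
      have hi1 : (H.index : ℝ) ≤ B := by exact_mod_cast hB
      have h2 : A * r * (M * B) ≤ Nat.card H * F * N * (M * B ^ 2 * β) := by
        calc A * r * (M * B) ≤ (F * (Nat.card H * N * H.index * β)) * (M * B) :=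
              mul_le_mul_of_nonneg_right h1 (by positivity)
          _ = Nat.card H * F * N * (M * B * β) * H.index := by ring
          _ ≤ Nat.card H * F * N * (M * B * β) * B :=
              mul_le_mul_of_nonneg_left hi1 (by positivity)
          _ = _ := by ring
      have hcH : (0 : ℝ) < Nat.card H := by exact_mod_cast Nat.card_pos
      have h3 : A * (M * B) * r < Nat.card H * F * N * r := by
        calc A * (M * B) * r = A * r * (M * B) := by ring
          _ ≤ _ := h2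
          _ < Nat.card H * F * N * r := mul_lt_mul_of_pos_left hlarge (by positivity)
      have h4 : A * (M * B) < Nat.card H * F * N := lt_of_mul_lt_mul_right h3 hr0.le
      rw [← hA]
      exact ⟨h4.le, fun _ => h4⟩
  -- the sum
  have hcH : (0 : ℝ) < Nat.card H := by exact_mod_cast Nat.card_pos
  have h1 : (Nat.card H : ℤ) * EE c F s x t = ∑ i ∈ s, ∑ u : H, ∑ j ∈ range F,
      saw ((c : ZMod N) ^ j * ((((u : (ZMod N)ˣ) * t : (ZMod N)ˣ) : ZMod N) * x i)) := by
    have h2 : (Nat.card H : ℤ) * EE c F s x t =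
        ∑ u : H, EE c F s x (((u : (ZMod N)ˣ) * t : (ZMod N)ˣ) : ZMod N) := by
      have h0 : ∀ u : H, EE c F s x (((u : (ZMod N)ˣ) * t : (ZMod N)ˣ) : ZMod N) =
          EE c F s x t := fun u => hH u u.2 t
      rw [sum_congr rfl fun u _ => h0 u, sum_const, card_univ, nsmul_eq_mul,
        Nat.card_eq_fintype_card]
    rw [h2, sum_comm]
    rfl
  have h2 : (Nat.card H : ℝ) * ((|EE c F s x t| : ℤ) : ℝ) * (M * B) ≤
      ∑ i ∈ s, ((|∑ u : H, ∑ j ∈ range F, saw ((c : ZMod N) ^ j *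
          ((((u : (ZMod N)ˣ) * t : (ZMod N)ˣ) : ZMod N) * x i))| : ℤ) : ℝ) * (M * B) := by
    rw [← sum_mul]
    apply mul_le_mul_of_nonneg_right _ (by positivity)
    have h3 : (Nat.card H : ℝ) * ((|EE c F s x t| : ℤ) : ℝ) =
        ((|(Nat.card H : ℤ) * EE c F s x t| : ℤ) : ℝ) := by
      rw [abs_mul, Nat.abs_cast]
      push_cast
      rfl
    rw [h3, h1]
    exact_mod_cast abs_sum_le_sum_abs _ _
  have h3 : (F * N : ℝ) ≤ ((|EE c F s x t| : ℤ) : ℝ) * B := by exact_mod_cast hd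
  have hE0 : EE c F s x t ≠ 0 := by
    intro h0
    rw [h0, abs_zero, Int.cast_zero, zero_mul] at h3
    have : (0 : ℝ) < F * N := by positivity
    linarith
  have h4 : ∃ i ∈ s, (∑ u : H, ∑ j ∈ range F, saw ((c : ZMod N) ^ j *
      ((((u : (ZMod N)ˣ) * t : (ZMod N)ˣ) : ZMod N) * x i))) ≠ 0 := by
    by_contra hall
    push Not at hall
    rw [sum_eq_zero hall] at h1
    rcases mul_eq_zero.1 h1 with h5 | h5
    · exact absurd h5 (by exact_mod_cast hcH.ne')
    · exact hE0 h5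
  have h5 : ∑ i ∈ s, ((|∑ u : H, ∑ j ∈ range F, saw ((c : ZMod N) ^ j *
          ((((u : (ZMod N)ˣ) * t : (ZMod N)ˣ) : ZMod N) * x i))| : ℤ) : ℝ) * (M * B) <
      ∑ i ∈ s, (Nat.card H * F * N : ℝ) := by
    obtain ⟨i, hi, hi0⟩ := h4
    exact sum_lt_sum (fun i hi => (hterm i hi).1) ⟨i, hi, (hterm i hi).2 hi0⟩
  rw [sum_const, nsmul_eq_mul] at h5
  have hM' : (s.card : ℝ) ≤ M := by exact_mod_cast hM
  have h6 : (Nat.card H : ℝ) * F * N * M ≤ Nat.card H * ((|EE c F s x t| : ℤ) : ℝ) * (M * B) := by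
    calc (Nat.card H : ℝ) * F * N * M = Nat.card H * M * (F * N) := by ring
      _ ≤ Nat.card H * M * (((|EE c F s x t| : ℤ) : ℝ) * B) :=
          mul_le_mul_of_nonneg_left h3 (by positivity)
      _ = _ := by ring
  have h7 : (s.card : ℝ) * (Nat.card H * F * N) ≤ M * (Nat.card H * F * N) :=
    mul_le_mul_of_nonneg_right hM' (by positivity)
  linarith

end

end Run7.h306.TC
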