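import Pool.Agent.Run7.h306.TFDefs
import Pool.Agent.H916T.Defs

/-!
# Products with Fermat varieties in positive characteristic: definitions

The framework is that of `MP_0d42ed_ag` and its neighbours in the starting files: `W` is a Weil
cohomology theory on a class of varieties over the separable closure `k` of a finitely generated field
`F₀`, here of characteristic `c > 0` (for instance a finite field), a `GVar` is a variety with an action
of the group `Γ` (the Galois group of `k` over `F₀`) on its cohomology. The coefficient field of `W` (an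
algebraic closure of `ℚ_ℓ`) is isomorphic to `ℂ`.
-/

set_option autoImplicit false

open CategoryTheory AlgebraicGeometry

namespace Run7.h306.TC

open Pool.Agent.H914 Pool.Agent.H914.VarClass Pool.Agent.H914.VarClass.Obj
  Pool.Agent.H914.WeilCohomology Pool.Agent.TH125.Gal Run7.h306.HF Run7.h306.TF

noncomputable section

/-- The slopes of `z` with respect to `q` are rational numbers with denominators at most `B`: for
each embedding `φ` of the algebraic numbers in the algebraic closure of `ℚ_c` a relation
`|φ z| ^ d = |q| ^ r` with `1 ≤ d ≤ B` holds. -/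
def HasSlopes (c : ℕ) [Fact c.Prime] (q B : ℕ) (z : ℂ) : Prop :=
  ∀ (φ : algebraicClosure ℚ ℂ →+* PadicAlgCl c) (y : algebraicClosure ℚ ℂ), (y : ℂ) = z →
    ∃ d r : ℕ, 0 < d ∧ d ≤ B ∧ ‖φ y‖ ^ d = ‖((q : ℕ) : PadicAlgCl c)‖ ^ r

/-- The characters in the family `b` which belong to the Fermat varieties whose degree is a power of
the prime number `q` form (together) a Tate character, for each `q`, which belongs after raising the
degree `q ^ K` to a multiple prime to `c` to the family generated by the Tate characters of surfaces,
the pairs `{a, -a}` and the standard characters, under union and removing pairs. The line of such a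
character consists of algebraic classes. -/
def IsTateGenerated (c : ℕ) {J : Type} [Fintype J] {m n : J → ℕ} (b : ∀ j, Label (m j) (n j)) :
    Prop :=
  ∀ q K : ℕ, q.Prime → (∀ j, q ∣ m j → m j ∣ q ^ K) → entries b (q ^ K) ≠ 0 →
    ∃ N : ℕ, 0 < N ∧ c.Coprime N ∧ Pool.Agent.H916T.Generated (N * q ^ K)
      (fun t => Pool.Agent.H916T.SurfaceTate c (N * q ^ K) t ∨
        Pool.Agent.H916T.Standard q (N * q ^ K) t)
      ((entries b (q ^ K)).map fun a => ((N * a.val : ℕ) : ZMod (N * q ^ K)))

section alg

variable {K A : Type} [Field K] [Ring A] [Algebra K A] {Γ : Type} [Group Γ]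

/-- Properties of the cohomology algebra `A` of a variety `Z` with an action `ρ` of `Γ`, and of a
Frobenius element `F` of `Γ` at a place of good reduction with a residue field of `q` elements and
characteristic `c`: `A` is not zero, `F` operates as `q` on the Tate twist (`χ` is the inverse of the
cyclotomic character), all Betti numbers are at most `B`, the set of the eigenvalues of `F` on `H^i(Z)`
is stable under the automorphisms of `ℂ`, the eigenvalues have the absolute value `q ^ (i / 2)` and
their slopes are rational numbers with denominators at most `B`. By the theorems of Deligne, Katz,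
Messing and Manin this is true for all smooth projective varieties (the denominator of a slope is at
most the multiplicity of the slope in the crystalline cohomology). -/
structure IsBoundedCohomology (c : ℕ) [Fact c.Prime] (σ : K ≃+* ℂ) (χ : Γ →* Kˣ)
    (gr : ℕ → Submodule K A) (ρ : Γ →* (A ≃ₐ[K] A)) (F : Γ) (q B : ℕ) : Prop where
  one_ne : (1 : A) ≠ 0
  twist : (χ F : K) = q
  betti : ∀ i, Module.finrank K (gr i) ≤ B
  conjugate : ∀ i α, IsEigenvalue gr (ρ F) i α → ∀ τ : ℂ ≃+* ℂ,
    IsEigenvalue gr (ρ F) i (σ.symm (τ (σ α)))
  weight : ∀ i α, IsEigenvalue gr (ρ F) i α → HasWeight q i (σ α)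
  slopes : ∀ i α, IsEigenvalue gr (ρ F) i α → HasSlopes c q B (σ α)

variable {J : Type} [Fintype J] {m n : J → ℕ}

/-- If a power of `F` operates on an element `e b` of the basis by the power of `χ F` with the exponent
`i` then a subgroup of finite index of `Γ` operates on `e b` by `χ ^ i`. (The Fermat varieties are
defined over a finite field: `Γ` operates through the Galois group of the finite field, which is
topologically generated by the image of a power of `F`.) -/
def IsConstant (χ : Γ →* Kˣ) (ρ : Γ →* (A ≃ₐ[K] A)) (F : Γ)
    (e : Module.Basis (∀ j, Label (m j) (n j)) K A) : Prop :=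
  ∀ b (i s : ℕ), 0 < s → ρ (F ^ s) (e b) = (χ (F ^ s) : K) ^ i • e b →
    ∃ Δ : Subgroup Γ, Δ.FiniteIndex ∧ ∀ g ∈ Δ, ρ g (e b) = (χ g : K) ^ i • e b

/-- The products of the classes `h ^ i` are algebraic: combinations of elements of the set `C i` of the
classes of cycles of codimension `i`. -/
def HasLinearSections (C : ℕ → Set A) (e : Module.Basis (∀ j, Label (m j) (n j)) K A) : Prop :=
  ∀ b i, (∀ j, ∃ l, b j = Sum.inl l) → ∑ j, degree (b j) = 2 * i →
    e b ∈ Submodule.span K (C i)

/-- If all degrees `m j` are powers of prime numbers then the elements `e b` with the property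
`IsTateGenerated` are algebraic. -/
def HasAlgebraicTateLines (c : ℕ) (C : ℕ → Set A)
    (e : Module.Basis (∀ j, Label (m j) (n j)) K A) : Prop :=
  (∀ j, IsPrimePow (m j)) → ∀ b i, IsTateGenerated c b → ∑ j, degree (b j) = 2 * i →
    e b ∈ Submodule.span K (C i)

/-- `A` is the cohomology algebra of a product of Fermat varieties of degrees `m j` and dimensions `n j`
in characteristic `c`, and `F` is a Frobenius element at a place of good reduction with the residue
field `κ`, which contains the roots of unity of the orders `m j`. The basis `e b` of the cohomology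
consists of the products of the classes `h ^ i` and of generators of the lines `V(a)` of the factors;
it consists of eigenvectors of `F`, with eigenvalues the products of the numbers `jacobi` and a root
of unity (Weil; the forms `∑ c_i x_i ^ m = 0` are allowed). The classes `e b` with the property
`IsTateGenerated` are algebraic (Tate, Shioda, Aoki). -/
def IsFermatCohomology (c : ℕ) (σ : K ≃+* ℂ) (χ : Γ →* Kˣ) (gr : ℕ → Submodule K A)
    (C : ℕ → Set A) (ρ : Γ →* (A ≃ₐ[K] A)) (F : Γ) (κ : Type) [Field κ] [Fintype κ]
    (m n : J → ℕ) : Prop :=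
  ∃ (N : ℕ) (θ : MulChar κ ℂ) (ψ : AddChar κ ℂ)
    (e : Module.Basis (∀ j, Label (m j) (n j)) K A), AreCharacters m N θ ψ ∧
      HasDegrees gr e ∧ HasJacobiSums σ (ρ F) N θ ψ e ∧ IsConstant χ ρ F e ∧
        HasLinearSections C e ∧ HasAlgebraicTateLines c C e

end alg

variable {k : Type} [Field k] {𝒱 : VarClass k} {ops : CycleOps 𝒱}
  {W : WeilCohomology.{0, 0} ops} {Γ : Type} [Group Γ]

/-- `Z` is a variety with Betti numbers at most `B`, `F` is a Frobenius element at a place of good
reduction with a residue field of `q` elements, see `IsBoundedCohomology`. -/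
def IsBounded (c : ℕ) [Fact c.Prime] (σ : W.K ≃+* ℂ) (χ : Γ →* W.Kˣ) (F : Γ) (q B : ℕ)
    (Z : GVar W Γ) : Prop :=
  IsBoundedCohomology c σ χ (W.gr Z.X) Z.act F q B

/-- `V` is a product of Fermat varieties of degrees `m j` and dimensions `n j`, see
`IsFermatCohomology`. -/
def IsFermatProduct (c : ℕ) (σ : W.K ≃+* ℂ) (χ : Γ →* W.Kˣ) (F : Γ) (κ : Type) [Field κ]
    [Fintype κ] {J : Type} [Fintype J] (m n : J → ℕ) (V : GVar W Γ) : Prop :=
  V.X.dim = ∑ j, n j ∧ IsFermatCohomology c σ χ (W.gr V.X) (algClasses W V.X) V.act F κ m n

/-- The cohomology of `Z` in odd degrees is zero. -/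
def IsEven (Z : GVar W Γ) : Prop := ∀ i, Odd i → W.gr Z.X i = ⊥

/-- `Z` is a variety with Betti numbers at most `B`, `V` is a product of Fermat varieties of degrees
`m j` and dimensions `n j`, and `Y = V × Z`; `F` is a Frobenius element at a place of good reduction
with the residue field `κ` of characteristic `c`. -/
structure IsFermatTimes (c : ℕ) [Fact c.Prime] (σ : W.K ≃+* ℂ) (χ : Γ →* W.Kˣ) (F : Γ) (κ : Type)
    [Field κ] [Fintype κ] (B : ℕ) {J : Type} [Fintype J] (m n : J → ℕ) (V Z Y : GVar W Γ) :
    Prop where
  galois_base : IsGalois χ Z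
  bounded : IsBounded c σ χ F (Fintype.card κ) B Z
  galois : IsGalois χ V
  fermat : IsFermatProduct c σ χ F κ m n V
  prod : IsProduct V Z Y

/-- For all divisors `d` of the numbers `m j` either `-1` is a power of `c` modulo `d` or
`M B ^ 2 τ(d) ^ 2 (1 + log d) < √d`, where `τ(d)` is the number of divisors of `d`. -/
def AreLarge (c B M : ℕ) {J : Type} (m : J → ℕ) : Prop :=
  ∀ j d, d ∣ m j → (∃ s : ℕ, d ∣ c ^ s + 1) ∨
    (M : ℝ) * B ^ 2 * (d.divisors.card ^ 2 * (1 + Real.log d)) < Real.sqrt d

/-- All the dimensions `n j` are even, or the order of `c` modulo `m j` is odd for all `j`. -/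
def HaveParity (c : ℕ) {J : Type} (m n : J → ℕ) : Prop :=
  (∀ j, Even (n j)) ∨ ∀ j, Odd (orderOf (c : ZMod (m j)))

end

end Run7.h306.TC
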