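import Pool.Agent.Run7.h306.TC3
import Pool.Agent.Run7.h306.TCDefs

/-!
# The slopes of labels of Tate classes vanish
-/

set_option autoImplicit false

open Finset Pool.Agent.Y145.DI Pool.Agent.N214.HB Pool.Agent.H916R2

namespace Run7.h306.TC

open Run7.h306.HF Run7.h306.TF

noncomputable section

variable {κ : Type} [Field κ] [Fintype κ] {c N : ℕ} [Fact c.Prime] [CharP κ c] [NeZero N]

theorem pow_card {F : ℕ} (hN : N ∣ Fintype.card κ - 1) (hF : Fintype.card κ = c ^ F) :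
    (c : ZMod N) ^ F = 1 := by
  have h1 : 1 ≤ Fintype.card κ := Fintype.card_pos
  have h2 : ((Fintype.card κ - 1 : ℕ) : ZMod N) = 0 := (ZMod.natCast_eq_zero_iff _ _).2 hN
  rw [Nat.cast_sub h1, hF] at h2
  push_cast at h2
  linear_combination h2

/-- **The slopes vanish.** -/
theorem EE_of_rel (hN : N ∣ Fintype.card κ - 1) (θ : MulChar κ ℂ) (hθ : orderOf θ = N)
    (ψ : AddChar κ ℂ) (hψ : ψ ≠ 1) (F : ℕ) (hF0 : 0 < F) (hF : Fintype.card κ = c ^ F)
    {ι : Type} (s : Finset ι) (x : ι → ZMod N) (hx : ∀ i ∈ s, x i ≠ 0) {ρ : ℂ} {a r e w : ℕ}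
    (he : 0 < e) (h : (ρ * (Fintype.card κ : ℂ) ^ a *
        ∏ i ∈ s, gaussSum (θ ^ (x i).val) ψ) ^ e = ((Fintype.card κ : ℂ) ^ r) ^ e)
    (hw : ‖ρ‖ ^ 2 = (Fintype.card κ : ℝ) ^ w) {B M : ℕ}
    (S : Set ℂ) (hS : S.Finite) (hSB : S.ncard ≤ B)
    (hSc : ∀ z ∈ S, ∀ τ : ℂ ≃+* ℂ, τ z ∈ S) (hρ : ρ ∈ S)
    (hslope : HasSlopes c (Fintype.card κ) B ρ) (hM : s.card ≤ M)
    (hl : ∀ i ∈ s, (∃ k : ℕ, (c : ZMod (addOrderOf (x i))) ^ k = -1) ∨
      (M : ℝ) * B ^ 2 * ((addOrderOf (x i)).divisors.card ^ 2 *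
        (1 + Real.log (addOrderOf (x i)))) < Real.sqrt (addOrderOf (x i)))
    (t : (ZMod N)ˣ) : EE c F s x t = 0 := by
  classical
  obtain ⟨σ, hσ⟩ := rel_zpow hN θ hθ ψ hψ F hF
  have hρa := algebraic_of_rel θ ψ s x he h
  obtain ⟨hL0, hL1⟩ := norm_p_lt (p := c)
  let ρ' : algebraicClosure ℚ ℂ := ⟨ρ, hρa⟩
  -- the stabilizer
  let H : Subgroup (ZMod N)ˣ :=
    { carrier := {h | ∀ t : (ZMod N)ˣ, EE c F s x ((h * t : (ZMod N)ˣ) : ZMod N) = EE c F s x t}
      mul_mem' := by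
        intro h h' hh hh' t
        rw [mul_assoc, hh, hh']
      one_mem' := by
        intro t
        rw [one_mul]
      inv_mem' := by
        intro h hh t
        rw [← hh (h⁻¹ * t), mul_inv_cancel_left] }
  choose τ hτ using fun t : (ZMod N)ˣ => exists_cyc_eq t
  have hcoset : ∀ t t' : (ZMod N)ˣ, τ t ρ = τ t' ρ → t⁻¹ * t' ∈ H := by
    intro t t' hρρ u
    have h1 : ∀ υ : ℂ ≃+* ℂ, EE c F s x ((cyc N υ * t : (ZMod N)ˣ) : ZMod N) =
        EE c F s x ((cyc N υ * t' : (ZMod N)ˣ) : ZMod N) := by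
      intro υ
      have h2 : (τ t).trans υ = υ * τ t := rfl
      have h2' : (τ t').trans υ = υ * τ t' := rfl
      have h3 := slope_conj hN θ hθ ψ hψ F hF0 hF s x hx he h hw
        (τ := (τ t).trans υ) (τ' := (τ t').trans υ) (by
          change υ (τ t ρ) = υ (τ t' ρ)
          rw [hρρ])
      rw [h2, h2', map_mul, map_mul, hτ, hτ] at h3
      exact h3
    have h2 := h1 (τ (t⁻¹ * u))
    rw [hτ] at h2
    have h3 : t⁻¹ * u * t = u := by rw [mul_comm t⁻¹ u, inv_mul_cancel_right]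
    have h4 : t⁻¹ * u * t' = t⁻¹ * t' * u := by rw [mul_assoc, mul_comm u t', ← mul_assoc]
    rw [h3, h4] at h2
    exact h2.symm
  have hidx : H.index ≤ B := by
    refine le_trans ?_ hSB
    let g : (ZMod N)ˣ ⧸ H → S := fun y => ⟨τ y.out ρ, hSc ρ hρ _⟩
    have hg : Function.Injective g := by
      intro y z hyz
      have h1 := hcoset y.out z.out (congrArg Subtype.val hyz)
      have h2 : (QuotientGroup.mk y.out : (ZMod N)ˣ ⧸ H) = QuotientGroup.mk z.out :=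
        QuotientGroup.eq.2 h1
      rw [QuotientGroup.out_eq', QuotientGroup.out_eq'] at h2
      exact h2
    have _ : Finite S := hS.to_subtype
    have h1 := Nat.card_le_card_of_injective g hg
    rw [Nat.card_coe_set_eq] at h1
    exact h1
  refine EE_zero (pow_card hN hF) hF0 s x hx hM H (fun h hh t => hh t) hidx hl t ?_
  -- the denominators
  obtain ⟨d, r', hd0, hdB, hd⟩ := hslope (σ.comp (restr (τ t))) ρ' rfl
  have h1 := hσ s x hx ρ' a r e w he h hw (τ t)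
  rw [hτ] at h1
  have h2 : ‖((Fintype.card κ : ℕ) : PadicAlgCl c)‖ = ‖((c : ℕ) : PadicAlgCl c)‖ ^ F := by
    rw [hF]
    push_cast
    rw [norm_pow]
  rw [h2, ← pow_mul] at hd
  change ‖σ (restr (τ t) ρ')‖ ^ d = _ at hd
  have h3 : ‖((c : ℕ) : PadicAlgCl c)‖ ^ (((F : ℤ) * N * w - EE c F s x t) * d) =
      ‖((c : ℕ) : PadicAlgCl c)‖ ^ ((F * r' * (2 * N) : ℕ) : ℤ) := by
    rw [zpow_mul, ← h1, zpow_natCast, zpow_natCast, ← pow_mul, mul_comm (2 * N) d, pow_mul, hd,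
      ← pow_mul]
  have h4 := zpow_right_injective₀ hL0 hL1.ne h3
  push_cast at h4
  by_cases hE : EE c F s x t = 0
  · exact Or.inl hE
  right
  have h5 : (EE c F s x t) * d = F * N * (w * d - 2 * r') := by linear_combination -h4
  have h6 : (w * d - 2 * r' : ℤ) ≠ 0 := by
    intro h7
    rw [h7, mul_zero] at h5
    rcases mul_eq_zero.1 h5 with h8 | h8
    · exact hE h8
    · exact absurd h8 (by exact_mod_cast hd0.ne')
  have h7 : (1 : ℤ) ≤ |(w * d - 2 * r' : ℤ)| := Int.one_le_abs h6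
  have h8 : |EE c F s x t| * d = F * N * |(w * d - 2 * r' : ℤ)| := by
    have h9 := congrArg abs h5
    rw [abs_mul, abs_mul, Nat.abs_cast] at h9
    rw [h9]
    congr 1
    exact abs_of_nonneg (by positivity)
  have hFN : (0 : ℤ) ≤ F * N := by positivity
  calc (F * N : ℤ) = F * N * 1 := (mul_one _).symm
    _ ≤ F * N * |(w * d - 2 * r' : ℤ)| := mul_le_mul_of_nonneg_left h7 hFN
    _ = |EE c F s x t| * d := h8.symm
    _ ≤ |EE c F s x t| * B := by
        apply mul_le_mul_of_nonneg_left _ (abs_nonneg _)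
        exact_mod_cast hdB

end

end Run7.h306.TC
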