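import Pool.Agent.Run7.h306.TF5

/-!
# Kronecker's theorem for numbers which are integral away from one prime number
-/

set_option autoImplicit false

open Finset Pool.Agent.Y145.DI Pool.Agent.N214.HB Pool.Agent.H916R2

namespace Run7.h306.TC

open Run7.h306.HF Run7.h306.TF

noncomputable section

open Polynomial in
theorem coeff_mem {R : Type*} [CommRing R] (O : Subring R) (s : Multiset R) (hs : ∀ w ∈ s, w ∈ O)
    (i : ℕ) : ((s.map (fun w => X - C w)).prod).coeff i ∈ O := by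
  have h1 : (s.map (fun w => X - C w)).prod ∈ Polynomial.lifts O.subtype := by
    apply multiset_prod_mem
    intro p hp
    obtain ⟨w, hw, rfl⟩ := Multiset.mem_map.1 hp
    exact ⟨X - C ⟨w, hs w hw⟩, by simp⟩
  obtain ⟨y, hy⟩ := (Polynomial.lifts_iff_coeff_lifts _).1 h1 i
  rw [← hy]
  exact y.2

/-- The numbers which become integral after multiplication with a power of `c`. -/
def AwayInt (c : ℕ) : Subring ℂ where
  carrier := {y | ∃ k : ℕ, IsIntegral ℤ ((c : ℂ) ^ k * y)}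
  mul_mem' := by
    rintro x y ⟨k, hk⟩ ⟨l, hl⟩
    refine ⟨k + l, ?_⟩
    have h := hk.mul hl
    have h2 : (c : ℂ) ^ (k + l) * (x * y) = (c : ℂ) ^ k * x * ((c : ℂ) ^ l * y) := by ring
    rw [h2]
    exact h
  one_mem' := ⟨0, by rw [pow_zero, one_mul]; exact isIntegral_one⟩
  add_mem' := by
    rintro x y ⟨k, hk⟩ ⟨l, hl⟩
    refine ⟨k + l, ?_⟩
    have hc : ∀ n : ℕ, IsIntegral ℤ ((c : ℂ) ^ n) := fun n => (isIntegral_natCast (R := ℤ) (B := ℂ) c).pow n
    have h := ((hc l).mul hk).add ((hc k).mul hl)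
    have h2 : (c : ℂ) ^ (k + l) * (x + y) =
        (c : ℂ) ^ l * ((c : ℂ) ^ k * x) + (c : ℂ) ^ k * ((c : ℂ) ^ l * y) := by ring
    rw [h2]
    exact h
  zero_mem' := ⟨0, by rw [mul_zero]; exact isIntegral_zero⟩
  neg_mem' := by
    rintro x ⟨k, hk⟩
    refine ⟨k, ?_⟩
    have h2 : (c : ℂ) ^ k * -x = -((c : ℂ) ^ k * x) := by ring
    rw [h2]
    exact hk.neg

/-- The elements of norm at most one. -/
def UnitBall (c : ℕ) [Fact c.Prime] : Subring (PadicAlgCl c) where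
  carrier := {y | ‖y‖ ≤ 1}
  mul_mem' := by
    intro x y hx hy
    change ‖x * y‖ ≤ 1
    rw [norm_mul]
    exact mul_le_one₀ hx (norm_nonneg _) hy
  one_mem' := by
    change ‖(1 : PadicAlgCl c)‖ ≤ 1
    rw [norm_one]
  add_mem' := by
    intro x y hx hy
    exact (PadicAlgCl.isNonarchimedean c x y).trans (max_le hx hy)
  zero_mem' := by
    change ‖(0 : PadicAlgCl c)‖ ≤ 1
    rw [norm_zero]
    exact zero_le_one
  neg_mem' := by
    intro x hx
    change ‖-x‖ ≤ 1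
    rw [norm_neg]
    exact hx

/-- The conjugates of an algebraic number. -/
theorem exists_conj {z : algebraicClosure ℚ ℂ} {w : algebraicClosure ℚ ℂ}
    (h : Polynomial.aeval w (minpoly ℚ z) = 0) : ∃ τ : ℂ ≃+* ℂ, restr τ z = w := by
  have : IsAlgClosure ℚ (algebraicClosure ℚ ℂ) := algebraicClosure.isAlgClosure ℚ ℂ
  have : Normal ℚ (algebraicClosure ℚ ℂ) := IsAlgClosure.normal ℚ _
  have hz : IsAlgebraic ℚ z := Algebra.IsAlgebraic.isAlgebraic z
  obtain ⟨g, hg⟩ := minpoly.exists_algEquiv_of_root' hz h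
  obtain ⟨τ, hτ⟩ := Pool.Agent.H977R3.CM.exists_aut
    (algebraMap (algebraicClosure ℚ ℂ) ℂ) (g : algebraicClosure ℚ ℂ ≃+* algebraicClosure ℚ ℂ)
  refine ⟨τ, Subtype.ext ?_⟩
  rw [coe_restr, ← hg]
  exact hτ z

theorem integral_of {c : ℕ} [Fact c.Prime] (σ : algebraicClosure ℚ ℂ →+* PadicAlgCl c)
    (z : algebraicClosure ℚ ℂ) {k : ℕ} (hk : IsIntegral ℤ ((c : ℂ) ^ k * z))
    (h : ∀ τ : ℂ ≃+* ℂ, ‖σ (restr τ z)‖ ≤ 1) : IsIntegral ℤ z := by
  have hac : IsAlgClosure ℚ (algebraicClosure ℚ ℂ) := algebraicClosure.isAlgClosure ℚ ℂ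
  have _ : IsAlgClosed (algebraicClosure ℚ ℂ) := hac.isAlgClosed
  have hz : IsAlgebraic ℚ z := Algebra.IsAlgebraic.isAlgebraic z
  have hmonic : (minpoly ℚ z).Monic := minpoly.monic hz.isIntegral
  -- the roots
  have hroot : ∀ w ∈ ((minpoly ℚ z).map (algebraMap ℚ (algebraicClosure ℚ ℂ))).roots,
      ∃ τ : ℂ ≃+* ℂ, restr τ z = w := by
    intro w hw
    apply exists_conj
    have h1 := Polynomial.isRoot_of_mem_roots hw
    rw [Polynomial.IsRoot.def, Polynomial.eval_map_algebraMap] at h1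
    exact h1
  have hsplit := Polynomial.Splits.eq_prod_roots_of_monic
    (IsAlgClosed.splits ((minpoly ℚ z).map (algebraMap ℚ (algebraicClosure ℚ ℂ))))
    (hmonic.map _)
  -- the coefficients, away from `c`
  have hA : ∀ i, ∃ k : ℕ, IsIntegral ℤ ((c : ℂ) ^ k * ((minpoly ℚ z).coeff i : ℂ)) := by
    intro i
    have h1 := coeff_mem ((AwayInt c).comap (algebraMap (algebraicClosure ℚ ℂ) ℂ)) _ (fun w hw => by
      obtain ⟨τ, hτ⟩ := hroot w hw
      refine ⟨k, ?_⟩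
      have h2 : (c : ℂ) ^ k * (algebraMap (algebraicClosure ℚ ℂ) ℂ w) = τ ((c : ℂ) ^ k * z) := by
        rw [map_mul, map_pow, map_natCast, ← hτ]
        rfl
      rw [h2]
      exact hk.map (τ : ℂ →+* ℂ).toIntAlgHom) i
    rw [← hsplit, Polynomial.coeff_map] at h1
    obtain ⟨l, hl⟩ := h1
    refine ⟨l, ?_⟩
    have h3 : algebraMap (algebraicClosure ℚ ℂ) ℂ (algebraMap ℚ (algebraicClosure ℚ ℂ)
        ((minpoly ℚ z).coeff i)) = ((minpoly ℚ z).coeff i : ℂ) := by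
      rw [eq_ratCast, map_ratCast]
    rw [h3] at hl
    exact hl
  -- the coefficients, at `c`
  have hB : ∀ i, ‖(((minpoly ℚ z).coeff i : ℚ) : ℚ_[c])‖ ≤ 1 := by
    intro i
    have h1 := coeff_mem ((UnitBall c).comap σ) _ (fun w hw => by
      obtain ⟨τ, hτ⟩ := hroot w hw
      change ‖σ w‖ ≤ 1
      rw [← hτ]
      exact h τ) i
    rw [← hsplit, Polynomial.coeff_map] at h1
    change ‖σ (algebraMap ℚ (algebraicClosure ℚ ℂ) ((minpoly ℚ z).coeff i))‖ ≤ 1 at h1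
    rw [eq_ratCast, map_ratCast] at h1
    have h2 := PadicAlgCl.norm_extends c (((minpoly ℚ z).coeff i : ℚ) : ℚ_[c])
    rw [← h2]
    have h3 : (((((minpoly ℚ z).coeff i : ℚ) : ℚ_[c])) : PadicAlgCl c) =
        (((minpoly ℚ z).coeff i : ℚ) : PadicAlgCl c) := by
      change algebraMap ℚ_[c] (PadicAlgCl c) _ = _
      rw [map_ratCast]
    rw [h3]
    exact h1
  -- the coefficients are integers
  have hC : ∀ i, ∃ m : ℤ, (m : ℚ) = (minpoly ℚ z).coeff i := by
    intro i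
    obtain ⟨l, hl⟩ := hA i
    have h1 : IsIntegral ℤ ((c : ℚ) ^ l * (minpoly ℚ z).coeff i) := by
      have h2 : (c : ℂ) ^ l * ((minpoly ℚ z).coeff i : ℂ) =
          algebraMap ℚ ℂ ((c : ℚ) ^ l * (minpoly ℚ z).coeff i) := by
        rw [map_mul, map_pow, map_natCast, eq_ratCast]
      rw [h2] at hl
      exact (isIntegral_algebraMap_iff (algebraMap ℚ ℂ).injective).1 hl
    obtain ⟨m, hm⟩ := IsIntegrallyClosed.isIntegral_iff.1 h1
    rw [eq_intCast] at hm
    have hc0 : (c : ℚ) ≠ 0 := by exact_mod_cast (Fact.out : c.Prime).ne_zero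
    have h2 : ‖((m : ℤ) : ℚ_[c])‖ ≤ (c : ℝ) ^ (-l : ℤ) := by
      have h3 : ((m : ℤ) : ℚ_[c]) = (c : ℚ_[c]) ^ l * (((minpoly ℚ z).coeff i : ℚ) : ℚ_[c]) := by
        have h4 : (((m : ℤ) : ℚ) : ℚ_[c]) = (((c : ℚ) ^ l * (minpoly ℚ z).coeff i : ℚ) : ℚ_[c]) := by
          rw [hm]
        push_cast at h4
        exact h4
      rw [h3, norm_mul, norm_pow, Padic.norm_p, inv_pow, zpow_neg, zpow_natCast]
      have h5 : (0 : ℝ) ≤ ((c : ℝ) ^ l)⁻¹ := by positivity
      calc _ ≤ ((c : ℝ) ^ l)⁻¹ * 1 := mul_le_mul_of_nonneg_left (hB i) h5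
        _ = _ := mul_one _
    rw [Padic.norm_int_le_pow_iff_dvd] at h2
    obtain ⟨m', hm'⟩ := h2
    refine ⟨m', ?_⟩
    rw [hm'] at hm
    push_cast at hm
    exact mul_left_cancel₀ (pow_ne_zero l hc0) hm
  have hL : minpoly ℚ z ∈ Polynomial.lifts (Int.castRingHom ℚ) := by
    rw [Polynomial.lifts_iff_coeff_lifts]
    intro i
    obtain ⟨m, hm⟩ := hC i
    exact ⟨m, by rw [← hm]; rfl⟩
  obtain ⟨p, hp, -, hpm⟩ := Polynomial.lifts_and_natDegree_eq_and_monic hL hmonic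
  refine ⟨p, hpm, ?_⟩
  have h1 := minpoly.aeval ℚ z
  rw [← hp, Polynomial.aeval_def, Polynomial.eval₂_map] at h1
  have h2 : (algebraMap ℚ (algebraicClosure ℚ ℂ)).comp (Int.castRingHom ℚ) =
      algebraMap ℤ (algebraicClosure ℚ ℂ) := Subsingleton.elim _ _
  rw [h2] at h1
  exact h1

/-- **Kronecker's theorem.** -/
theorem kronecker {c : ℕ} [Fact c.Prime] (σ : algebraicClosure ℚ ℂ →+* PadicAlgCl c)
    (z : algebraicClosure ℚ ℂ) {k : ℕ} (hk : IsIntegral ℤ ((c : ℂ) ^ k * z))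
    (h : ∀ τ : ℂ ≃+* ℂ, ‖σ (restr τ z)‖ ≤ 1) (h1 : ∀ τ : ℂ ≃+* ℂ, ‖τ (z : ℂ)‖ = 1) :
    ∃ n : ℕ, 0 < n ∧ (z : ℂ) ^ n = 1 := by
  have hint := integral_of σ z hk h
  have hz : IsAlgebraic ℚ z := Algebra.IsAlgebraic.isAlgebraic z
  let L := IntermediateField.adjoin ℚ {z}
  have _ : FiniteDimensional ℚ L := IntermediateField.adjoin.finiteDimensional hz.isIntegral
  have _ : NumberField L := ⟨⟩
  let y : L := IntermediateField.AdjoinSimple.gen ℚ z
  have hyz : algebraMap L (algebraicClosure ℚ ℂ) y = z := IntermediateField.AdjoinSimple.algebraMap_gen ℚ z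
  have hy : IsIntegral ℤ y := by
    rw [← hyz] at hint
    exact (isIntegral_algebraMap_iff (algebraMap L (algebraicClosure ℚ ℂ)).injective).1 hint
  obtain ⟨n, hn, hyn⟩ := NumberField.Embeddings.pow_eq_one_of_norm_eq_one L ℂ hy (by
    intro φ
    have h2 : Polynomial.aeval (φ y) (minpoly ℚ z) = 0 := by
      have h3 : Polynomial.aeval y (minpoly ℚ z) = 0 := by
        apply (algebraMap L (algebraicClosure ℚ ℂ)).injective
        rw [← Polynomial.aeval_algebraMap_apply, hyz, minpoly.aeval, map_zero]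
      have h4 := congrArg φ h3
      rw [map_zero, Polynomial.aeval_def, Polynomial.hom_eval₂] at h4
      rw [Polynomial.aeval_def, ← h4]
      congr 1
      exact Subsingleton.elim _ _
    have h5 : IsAlgebraic ℚ (φ y) := ⟨minpoly ℚ z, minpoly.ne_zero hz.isIntegral, h2⟩
    let w : algebraicClosure ℚ ℂ := ⟨φ y, mem_algebraicClosure_iff.2 h5⟩
    have h6 : Polynomial.aeval w (minpoly ℚ z) = 0 := by
      apply (algebraMap (algebraicClosure ℚ ℂ) ℂ).injective
      rw [← Polynomial.aeval_algebraMap_apply, map_zero]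
      exact h2
    obtain ⟨τ, hτ⟩ := exists_conj h6
    have h7 := h1 τ
    rw [← coe_restr, hτ] at h7
    exact h7)
  refine ⟨n, hn, ?_⟩
  have h2 := congrArg (algebraMap L (algebraicClosure ℚ ℂ)) hyn
  rw [map_pow, hyz, map_one] at h2
  have h3 := congrArg (algebraMap (algebraicClosure ℚ ℂ) ℂ) h2
  rw [map_pow, map_one] at h3
  exact h3

end

end Run7.h306.TC
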