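import Pool.Agent.Run7.h306.TF6
import Pool.Agent.TH125.Gal.Diag

/-!
# Tate classes on products
-/

set_option autoImplicit false

open CategoryTheory AlgebraicGeometry Finset

namespace Run7.h306.TF

open Pool.Agent.H914 Pool.Agent.H914.VarClass Pool.Agent.H914.VarClass.Obj
  Pool.Agent.H914.WeilCohomology Pool.Agent.TH125.Gal Run7.h306.HF

section weights

variable {κ : Type} [Field κ] [Fintype κ]

theorem norm_jacobi (θ : MulChar κ ℂ) (ψ : AddChar κ ℂ) (hψ : ψ ≠ 1) {N : ℕ} [NeZero N]
    (hθ : orderOf θ = N) {m n : ℕ} [NeZero m] (h : m ∣ N) (b : Label m n) :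
    ‖jacobi θ ψ N b‖ ^ 2 = (Fintype.card κ : ℝ) ^ degree b := by
  have hq : (0 : ℝ) < Fintype.card κ := by exact_mod_cast Fintype.card_pos
  cases b with
  | inl i =>
    simp only [jacobi, degree, norm_pow, Complex.norm_natCast]
    rw [← pow_mul, mul_comm]
  | inr a =>
    simp only [jacobi, degree, norm_div, norm_prod, Complex.norm_natCast]
    rw [div_pow, ← prod_pow]
    have h1 : ∀ l, ‖gaussSum (θ ^ (N / m * (a.entry l).val)) ψ‖ ^ 2 = Fintype.card κ := by
      intro l
      apply norm_gauss_sq _ _ ψ hψ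
      intro h4
      have h5 := orderOf_dvd_of_pow_eq_one h4
      rw [hθ] at h5
      have h6 := ent_ne N h a l
      rw [← h6.1] at h5
      have h7 := Nat.eq_zero_of_dvd_of_lt h5 (ZMod.val_lt _)
      exact h6.2 ((ZMod.val_eq_zero _).1 h7)
    rw [prod_congr rfl fun l _ => h1 l, prod_const, card_univ, Fintype.card_fin, pow_add,
      mul_div_cancel_right₀ _ (pow_ne_zero _ hq.ne')]

theorem degree_parity {m n : ℕ} (b : Label m n) : (2 : ℤ) ∣ hodge b + degree b := by
  cases b with
  | inl i =>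
    simp only [hodge, degree]
    push_cast
    omega
  | inr a =>
    simp only [hodge, degree]
    omega

theorem sum_degree_even {J : Type} [Fintype J] {m n : J → ℕ} (b : ∀ j, Label (m j) (n j))
    (h : ∑ j, hodge (b j) = 0) : ∃ i, ∑ j, degree (b j) = 2 * i := by
  have h1 : (2 : ℤ) ∣ ∑ j, (hodge (b j) + degree (b j)) := dvd_sum fun j _ => degree_parity (b j)
  rw [sum_add_distrib, h, zero_add] at h1
  obtain ⟨i, hi⟩ := h1
  refine ⟨i.toNat, ?_⟩
  have h2 : (0 : ℤ) ≤ ∑ j, (degree (b j) : ℤ) := sum_nonneg fun j _ => Int.natCast_nonneg _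
  have h3 : ((∑ j, degree (b j) : ℕ) : ℤ) = ∑ j, (degree (b j) : ℤ) := by push_cast; rfl
  omega

end weights

variable {k : Type} [Field k] {𝒱 : VarClass k} {ops : CycleOps 𝒱}
  {W : WeilCohomology.{0, 0} ops} {Γ : Type} [Group Γ]

/-- The action commutes with the projections to the degrees. -/
theorem act_proj {χ : Γ →* W.Kˣ} {Z : GVar W Γ} (hZ : IsGalois χ Z) (g : Γ) (i : ℕ) (x : W.H Z.X) :
    Z.act g (proj (W.isInternal Z.X) i x) = proj (W.isInternal Z.X) i (Z.act g x) := by
  have h := gr_ext (W.isInternal Z.X)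
    (F := (Z.act g).toLinearMap ∘ₗ proj (W.isInternal Z.X) i)
    (G := proj (W.isInternal Z.X) i ∘ₗ (Z.act g).toLinearMap) (by
      intro j a ha
      rw [LinearMap.comp_apply, LinearMap.comp_apply]
      by_cases hij : j = i
      · subst hij
        rw [proj_same _ ha]
        exact (proj_same _ (hZ.gr_mem g j a ha)).symm
      · rw [proj_ne _ ha hij, map_zero]
        exact (proj_ne _ (hZ.gr_mem g j a ha) hij).symm)
  exact LinearMap.congr_fun h x

/-- Contraction is compatible with the action. -/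
theorem ctr_act {V Z : 𝒱.Obj} {R : Type} [Fintype R] (e : Module.Basis R W.K (W.H V))
    {v : W.H V ≃ₐ[W.K] W.H V} {z : W.H Z ≃ₐ[W.K] W.H Z}
    {y : W.H (V.prod Z) ≃ₐ[W.K] W.H (V.prod Z)}
    (h1 : ∀ a, y (W.map (fst V Z) a) = W.map (fst V Z) (v a))
    (h2 : ∀ a, y (W.map (snd V Z) a) = W.map (snd V Z) (z a)) {μ : R → W.K}
    (hμ : ∀ r, v (e r) = μ r • e r) (r : R) (c : W.H (V.prod Z)) :
    ctr (e.coord r) (y c) = μ r • z (ctr (e.coord r) c) := by
  refine kun_ext (L := fun c => ctr (e.coord r) (y c))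
    (L' := fun c => μ r • z (ctr (e.coord r) c)) ?_ ?_ ?_ c
  · intro a b
    rw [map_add, map_add]
  · intro a b
    rw [map_add, map_add, smul_add]
  · intro a b
    rw [map_mul, h1, h2, ctr_apply, ctr_apply, map_smul, smul_smul]
    congr 1
    have h3 : e.coord r ∘ₗ v.toLinearMap = μ r • e.coord r := by
      refine e.ext fun r' => ?_
      rw [LinearMap.comp_apply, LinearMap.smul_apply]
      change e.coord r (v (e r')) = _
      rw [hμ r', map_smul, Module.Basis.coord_apply, Module.Basis.repr_self]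
      by_cases hr : r' = r
      · subst hr
        rfl
      · rw [Finsupp.single_eq_of_ne (Ne.symm hr), smul_zero, smul_zero]
    exact LinearMap.congr_fun h3 a

end Run7.h306.TF
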