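import Pool.Agent.Run7.h306.TC4
import Pool.Agent.Run7.h306.TC5
import Pool.Agent.Run7.h306.TF7

/-!
# Products of Gauss sums whose slopes vanish
-/

set_option autoImplicit false

open Finset Pool.Agent.Y145.DI Pool.Agent.N214.HB Pool.Agent.H916R2

namespace Run7.h306.TC

open Run7.h306.HF Run7.h306.TF

noncomputable section

section gauss

variable {κ : Type} [Field κ] [Fintype κ]

theorem isIntegral_gauss (χ : MulChar κ ℂ) (ψ : AddChar κ ℂ) : IsIntegral ℤ (gaussSum χ ψ) := by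
  classical
  unfold gaussSum
  refine IsIntegral.sum _ fun a _ => IsIntegral.mul ?_ ?_
  · by_cases ha : a = 0
    · rw [ha, MulChar.map_nonunit χ not_isUnit_zero]
      exact isIntegral_zero
    · have h1 : 0 < Fintype.card κ - 1 := by
        have := Fintype.one_lt_card (α := κ)
        omega
      apply IsIntegral.of_pow h1
      rw [← map_pow, FiniteField.pow_card_sub_one_eq_one a ha, map_one]
      exact isIntegral_one
  · apply IsIntegral.of_pow (Fintype.card_pos (α := κ))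
    rw [← AddChar.map_nsmul_eq_pow, card_nsmul_eq_zero, AddChar.map_zero_eq_one]
    exact isIntegral_one

/-- The absolute values of the conjugates of a Gauss sum. -/
theorem norm_map_gauss (f : ℂ →+* ℂ) (χ : MulChar κ ℂ) (hχ : χ ≠ 1) (ψ : AddChar κ ℂ)
    (hψ : ψ ≠ 1) : ‖f (gaussSum χ ψ)‖ ^ 2 = Fintype.card κ := by
  have h1 : f (gaussSum χ ψ) = gaussSum (χ.ringHomComp f) ((f : ℂ →* ℂ).compAddChar ψ) := by
    unfold gaussSum
    rw [map_sum]
    refine sum_congr rfl fun a _ => ?_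
    rw [map_mul]
    rfl
  rw [h1]
  apply norm_gauss_sq
  · intro h
    apply hχ
    ext a
    have h2 := congrArg (fun g : MulChar κ ℂ => g a) h
    simp only [MulChar.ringHomComp_apply, MulChar.one_apply_coe] at h2
    rw [MulChar.one_apply_coe]
    exact f.injective (h2.trans (map_one f).symm)
  · intro h
    apply hψ
    ext a
    have h2 := congrArg (fun g : AddChar κ ℂ => g a) h
    have h3 : f (ψ a) = 1 := h2
    exact f.injective (h3.trans (map_one f).symm)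

end gauss

variable {κ : Type} [Field κ] [Fintype κ] {c N : ℕ} [Fact c.Prime] [CharP κ c] [NeZero N]

/-- **Products of Gauss sums whose slopes vanish.** -/
theorem gauss_pow (hN : N ∣ Fintype.card κ - 1) (θ : MulChar κ ℂ) (hθ : orderOf θ = N)
    (ψ : AddChar κ ℂ) (hψ : ψ ≠ 1) (F : ℕ) (hF0 : 0 < F) (hF : Fintype.card κ = c ^ F)
    {ι : Type} (s : Finset ι) (x : ι → ZMod N) (hx : ∀ i ∈ s, x i ≠ 0)
    (hE : ∀ t : (ZMod N)ˣ, EE c F s x t = 0) :
    ∃ n : ℕ, 0 < n ∧ (∏ i ∈ s, gaussSum (θ ^ (x i).val) ψ) ^ (2 * n) =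
      (Fintype.card κ : ℂ) ^ (s.card * n) := by
  classical
  obtain ⟨σ, hσ⟩ := rel_zpow hN θ hθ ψ hψ F hF
  obtain ⟨hL0, hL1⟩ := norm_p_lt (p := c)
  have hq : (Fintype.card κ : ℂ) ≠ 0 := by exact_mod_cast Fintype.card_ne_zero
  have hq0 : (0 : ℝ) < Fintype.card κ := by exact_mod_cast Fintype.card_pos
  obtain ⟨G, hG⟩ : ∃ G : ℂ, G = ∏ i ∈ s, gaussSum (θ ^ (x i).val) ψ := ⟨_, rfl⟩
  have hne : ∀ i ∈ s, θ ^ (x i).val ≠ 1 := by
    intro i hi h4
    have h5 := orderOf_dvd_of_pow_eq_one h4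
    rw [hθ] at h5
    have h6 := Nat.eq_zero_of_dvd_of_lt h5 (ZMod.val_lt _)
    exact hx i hi ((ZMod.val_eq_zero _).1 h6)
  have hnorm : ∀ f : ℂ →+* ℂ, ‖f G‖ ^ 2 = (Fintype.card κ : ℝ) ^ s.card := by
    intro f
    rw [hG, map_prod, norm_prod, ← prod_pow, prod_congr rfl fun i hi =>
      norm_map_gauss f _ (hne i hi) ψ hψ, prod_const]
  have hGG : starRingEnd ℂ G * G = (Fintype.card κ : ℂ) ^ s.card := by
    rw [mul_comm, Complex.mul_conj, Complex.normSq_eq_norm_sq]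
    have h1 := hnorm (RingHom.id ℂ)
    rw [RingHom.id_apply] at h1
    rw [h1]
    push_cast
    rfl
  have hrel : (starRingEnd ℂ G * (Fintype.card κ : ℂ) ^ 0 *
      ∏ i ∈ s, gaussSum (θ ^ (x i).val) ψ) ^ 1 = ((Fintype.card κ : ℂ) ^ s.card) ^ 1 := by
    rw [pow_zero, mul_one, ← hG, hGG]
  have hρa := algebraic_of_rel θ ψ s x one_pos hrel
  let ρ : algebraicClosure ℚ ℂ := ⟨starRingEnd ℂ G, hρa⟩
  let z : algebraicClosure ℚ ℂ := ρ ^ 2 / (Fintype.card κ : algebraicClosure ℚ ℂ) ^ s.card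
  have hz : (z : ℂ) = (starRingEnd ℂ G) ^ 2 / (Fintype.card κ : ℂ) ^ s.card := by
    have h1 : ∀ y : algebraicClosure ℚ ℂ, (y : ℂ) = (algebraicClosure ℚ ℂ).val y := fun _ => rfl
    rw [h1, map_div₀, map_pow, map_pow, map_natCast]
    rfl
  have hw : ‖(ρ : ℂ)‖ ^ 2 = (Fintype.card κ : ℝ) ^ s.card := by
    have h1 := hnorm (starRingEnd ℂ)
    exact h1
  obtain ⟨n, hn, hzn⟩ := kronecker (c := c) σ z (k := F * s.card) (by
      rw [hz, pow_mul]
      have h1 : ((c : ℂ) ^ F) = Fintype.card κ := by rw [hF]; push_cast; rfl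
      rw [h1, mul_div_cancel₀ _ (pow_ne_zero _ hq)]
      apply IsIntegral.pow
      rw [hG]
      exact (IsIntegral.prod _ fun i _ => isIntegral_gauss _ _).map (starRingEnd ℂ).toIntAlgHom)
    (by
      intro τ
      have h1 := hσ s x hx ρ 0 s.card 1 s.card one_pos hrel hw τ
      rw [hE, sub_zero] at h1
      have h2 : ‖σ (restr τ z)‖ ^ N = 1 := by
        have h3 : σ (restr τ z) = σ (restr τ ρ) ^ 2 / (Fintype.card κ : PadicAlgCl c) ^ s.card := by
          simp only [z, map_div₀, map_pow, map_natCast]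
        rw [h3, norm_div, norm_pow, norm_pow, div_pow, ← pow_mul, h1, hF]
        push_cast
        rw [norm_pow, ← pow_mul, ← pow_mul]
        have h4 : ((F : ℤ) * N * s.card) = ((F * s.card * N : ℕ) : ℤ) := by push_cast; ring
        rw [h4, zpow_natCast, ← mul_assoc F, div_self (pow_ne_zero _ hL0.ne')]
      exact ((pow_eq_one_iff_of_nonneg (norm_nonneg _) (NeZero.ne N)).1 h2).le)
    (by
      intro τ
      rw [hz, map_div₀, map_pow, map_pow, map_natCast, norm_div, norm_pow, norm_pow,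
        Complex.norm_natCast]
      have h1 := hnorm ((τ : ℂ →+* ℂ).comp (starRingEnd ℂ))
      change ‖τ (starRingEnd ℂ G)‖ ^ 2 = _ at h1
      rw [h1, div_self (pow_ne_zero _ hq0.ne')])
  refine ⟨n, hn, ?_⟩
  rw [← hG]
  rw [hz, div_pow, div_eq_one_iff_eq (pow_ne_zero _ (pow_ne_zero _ hq)), ← pow_mul,
    ← pow_mul] at hzn
  have h1 := congrArg (fun y => y ^ (2 * n)) hGG
  simp only [mul_pow] at h1
  rw [hzn, ← pow_mul] at h1
  have h2 : (Fintype.card κ : ℂ) ^ (s.card * (2 * n)) =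
      (Fintype.card κ : ℂ) ^ (s.card * n) * (Fintype.card κ : ℂ) ^ (s.card * n) := by
    rw [← pow_add]
    congr 1
    ring
  rw [h2] at h1
  exact mul_left_cancel₀ (pow_ne_zero _ hq) h1

variable {J : Type} [Fintype J] {m n : J → ℕ} [∀ j, NeZero (m j)]

/-- The degree and the number of entries. -/
theorem degree_card (θ : MulChar κ ℂ) (hθ : orderOf θ = N) (ψ : AddChar κ ℂ) (hψ : ψ ≠ 1)
    (hmN : ∀ j, m j ∣ N) (b : ∀ j, Label (m j) (n j)) :
    ∑ j, degree (b j) + 2 * ∑ j, uu (b j) = 2 * ∑ j, aa (b j) + (idx N b).card := by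
  have h := prod_jacobi_eq θ ψ N hmN b
  have h1 := congrArg (fun z => ‖z‖ ^ 2) h
  simp only [norm_mul, norm_prod, norm_pow, Complex.norm_natCast, mul_pow, ← prod_pow] at h1
  have hne : ∀ i ∈ idx N b, θ ^ (ent N (b i.1) i.2).val ≠ 1 := by
    intro i hi h4
    have h5 := orderOf_dvd_of_pow_eq_one h4
    rw [hθ] at h5
    have h6 := Nat.eq_zero_of_dvd_of_lt h5 (ZMod.val_lt _)
    exact (mem_filter.1 hi).2 ((ZMod.val_eq_zero _).1 h6)
  rw [prod_congr rfl fun j _ => norm_jacobi θ ψ hψ hθ (hmN j) (b j), prod_congr rfl fun i hi =>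
    norm_gauss_sq _ (hne i hi) ψ hψ, prod_pow_eq_pow_sum, prod_const, ← pow_mul, ← pow_mul,
    ← pow_add, ← pow_add] at h1
  have hq : (1 : ℝ) < Fintype.card κ := by exact_mod_cast Fintype.one_lt_card
  have h2 := pow_right_injective₀ (by linarith) hq.ne' h1
  omega

/-- **Products of Jacobi sums whose slopes vanish.** -/
theorem jacobi_pow (hN : N ∣ Fintype.card κ - 1) (θ : MulChar κ ℂ) (hθ : orderOf θ = N)
    (ψ : AddChar κ ℂ) (hψ : ψ ≠ 1) (F : ℕ) (hF0 : 0 < F) (hF : Fintype.card κ = c ^ F)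
    (hmN : ∀ j, m j ∣ N) (b : ∀ j, Label (m j) (n j))
    (hE : ∀ t : (ZMod N)ˣ, EE c F (idx N b) (fun x => ent N (b x.1) x.2) t = 0) :
    ∃ l : ℕ, 0 < l ∧ (∏ j, jacobi θ ψ N (b j)) ^ (2 * l) =
      (Fintype.card κ : ℂ) ^ ((∑ j, degree (b j)) * l) := by
  obtain ⟨l, hl, h⟩ := gauss_pow hN θ hθ ψ hψ F hF0 hF (idx N b)
    (fun x => ent N (b x.1) x.2) (fun i hi => (mem_filter.1 hi).2) hE
  refine ⟨l, hl, ?_⟩
  have hq : (Fintype.card κ : ℂ) ≠ 0 := by exact_mod_cast Fintype.card_ne_zero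
  have h1 := congrArg (fun z => z ^ (2 * l)) (prod_jacobi_eq θ ψ N hmN b)
  simp only [mul_pow] at h1
  rw [h, ← pow_mul, ← pow_mul, ← pow_add] at h1
  have h2 := degree_card θ hθ ψ hψ hmN b
  have h3 : (∑ j, aa (b j)) * (2 * l) + (idx N b).card * l =
      (∑ j, degree (b j)) * l + (∑ j, uu (b j)) * (2 * l) := by
    calc _ = (2 * ∑ j, aa (b j) + (idx N b).card) * l := by ring
      _ = _ := by rw [← h2]; ring
  rw [h3, pow_add] at h1
  exact mul_right_cancel₀ (pow_ne_zero _ hq) h1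

end

end Run7.h306.TC
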