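import Pool.Agent.Run7.h306.TC6
import Pool.Agent.H916T.Main

/-!
# Labels whose slopes vanish
-/

set_option autoImplicit false

open Finset Pool.Agent.Y145.DI Pool.Agent.N214.HB Pool.Agent.H916R2

namespace Run7.h306.TC

open Run7.h306.HF Run7.h306.TF

noncomputable section

theorem sum_range_period {F : ℕ} {g : ℕ → ℤ} (hg : ∀ l, g (l + F) = g l) (k : ℕ) :
    ∑ l ∈ range (F * k), g l = k * ∑ l ∈ range F, g l := by
  have hg' : ∀ k l, g (l + F * k) = g l := by
    intro k
    induction k with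
    | zero => intro l; rfl
    | succ k ih =>
      intro l
      rw [Nat.mul_succ, ← add_assoc, hg, ih]
  induction k with
  | zero => simp
  | succ k ih =>
    rw [Nat.mul_succ, sum_range_add, ih]
    have h1 : ∀ l ∈ range F, g (F * k + l) = g l := by
      intro l _
      rw [add_comm, hg']
    rw [sum_congr rfl h1]
    push_cast
    ring

theorem period_sum {F f : ℕ} (hF : 0 < F) {g : ℕ → ℤ} (hg : ∀ l, g (l + F) = g l)
    (hg' : ∀ l, g (l + f) = g l) (h0 : ∑ l ∈ range F, g l = 0) : ∑ l ∈ range f, g l = 0 := by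
  have h1 := sum_range_period hg f
  have h2 := sum_range_period hg' F
  rw [h0, mul_zero] at h1
  rw [mul_comm f F, h1] at h2
  rcases mul_eq_zero.1 h2.symm with h3 | h3
  · exact absurd h3 (by exact_mod_cast hF.ne')
  · exact h3

variable {J : Type} [Fintype J] {m n : J → ℕ} [∀ j, NeZero (m j)]

theorem degree_twist {m n : ℕ} (u : (ZMod m)ˣ) (b : Label m n) : degree (twist u b) = degree b := by
  cases b <;> rfl

theorem tot_parity (b : ∀ j, Label (m j) (n j)) (σ : ℂ ≃+* ℂ) :
    (2 : ℤ) ∣ tot b σ + ((∑ j, degree (b j) : ℕ) : ℤ) := by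
  unfold tot
  push_cast
  rw [← sum_add_distrib]
  refine dvd_sum fun j _ => ?_
  have h := degree_parity (twist (cyc (m j) σ) (b j))
  rwa [degree_twist] at h

section

variable {c N : ℕ} [Fact c.Prime] [NeZero N]

/-- The slopes as sums of the types of the conjugates. -/
theorem EE_tot (b : ∀ j, Label (m j) (n j)) (h : ∀ j, m j ∣ N) (F : ℕ) {γ : ℂ ≃+* ℂ}
    (hγ : ((cyc N γ : (ZMod N)ˣ) : ZMod N) = c) (τ : ℂ ≃+* ℂ) :
    EE c F (idx N b) (fun x => ent N (b x.1) x.2) (cyc N τ) =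
      -((N : ℤ) * ∑ l ∈ range F, tot b (γ ^ l * τ)) := by
  classical
  unfold TF.EE
  rw [sum_comm, mul_sum, ← sum_neg_distrib]
  refine sum_congr rfl fun l _ => ?_
  rw [tot_part b h, part_eq b N, neg_neg]
  have h2 : idx N b = (univ : Finset (Σ j, Fin (n j + 2))).filter
        (fun x => m x.1 ∣ N ∧ ent N (b x.1) x.2 ≠ 0) := by
    unfold idx
    refine filter_congr fun x _ => ?_
    exact ⟨fun h' => ⟨h x.1, h'⟩, fun h' => h'.2⟩
  rw [h2]
  refine sum_congr (by congr) fun x _ => ?_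
  rw [map_mul, map_pow, Units.val_mul, Units.val_pow_eq_pow_val, hγ, mul_assoc]

theorem tot_of_EE (b : ∀ j, Label (m j) (n j)) (h : ∀ j, m j ∣ N) {F : ℕ} {γ : ℂ ≃+* ℂ}
    (hγ : ((cyc N γ : (ZMod N)ˣ) : ZMod N) = c)
    (hE : ∀ t : (ZMod N)ˣ, EE c F (idx N b) (fun x => ent N (b x.1) x.2) t = 0) (τ : ℂ ≃+* ℂ) :
    ∑ l ∈ range F, tot b (γ ^ l * τ) = 0 := by
  have h1 := EE_tot b h F hγ τ
  rw [hE, eq_comm, neg_eq_zero] at h1
  rcases mul_eq_zero.1 h1 with h2 | h2
  · exact absurd h2 (by exact_mod_cast NeZero.ne N)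
  · exact h2

theorem tot_period (b : ∀ j, Label (m j) (n j)) {γ : ℂ ≃+* ℂ} {f : ℕ}
    (hf : ∀ j, (cyc (m j) γ) ^ f = 1) (τ : ℂ ≃+* ℂ) (l : ℕ) :
    tot b (γ ^ (l + f) * τ) = tot b (γ ^ l * τ) := by
  unfold tot
  refine sum_congr rfl fun j _ => ?_
  rw [map_mul, map_mul, map_pow, map_pow, pow_add, hf, mul_one]

omit [Fact c.Prime] in
theorem cyc_pow_one {m' : ℕ} [NeZero m'] (h : m' ∣ N) {γ : ℂ ≃+* ℂ}
    (hγ : ((cyc N γ : (ZMod N)ˣ) : ZMod N) = c) :
    ((cyc m' γ : (ZMod m')ˣ) : ZMod m') = c := by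
  rw [cyc_dvd h, ZMod.unitsMap_def, Units.coe_map]
  change ZMod.castHom h (ZMod m') ((cyc N γ : (ZMod N)ˣ) : ZMod N) = _
  rw [hγ, map_natCast]

/-- **Parity.** -/
theorem even_degree (b : ∀ j, Label (m j) (n j)) (h : ∀ j, m j ∣ N) {F : ℕ} (hF : 0 < F)
    (hcF : (c : ZMod N) ^ F = 1)
    (hE : ∀ t : (ZMod N)ˣ, EE c F (idx N b) (fun x => ent N (b x.1) x.2) t = 0)
    (hp : HaveParity c m n) : Even (∑ j, degree (b j)) := by
  classical
  rcases hp with hp | hp
  · refine even_sum _ fun j _ => ?_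
    rcases b j with i | a
    · exact even_two_mul _
    · exact hp j
  · have hcN : c.Coprime N := by
      rw [← ZMod.isUnit_iff_coprime]
      exact IsUnit.of_pow_eq_one hcF hF.ne'
    obtain ⟨γ, hγ'⟩ := exists_cyc_eq (ZMod.unitOfCoprime c hcN)
    have hγ : ((cyc N γ : (ZMod N)ˣ) : ZMod N) = c := by rw [hγ', ZMod.coe_unitOfCoprime]
    obtain ⟨f, hf⟩ : ∃ f, f = ∏ j, orderOf (c : ZMod (m j)) := ⟨_, rfl⟩
    have hfodd : Odd f := by
      rw [hf]
      exact Finset.prod_induction _ Odd (fun a b ha hb => ha.mul hb) odd_one fun j _ => hp j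
    have hper : ∀ j, (cyc (m j) γ) ^ f = 1 := by
      intro j
      apply Units.ext
      rw [Units.val_pow_eq_pow_val, cyc_pow_one (h j) hγ, Units.val_one]
      have h1 : orderOf (c : ZMod (m j)) ∣ f := by
        rw [hf]
        exact dvd_prod_of_mem _ (mem_univ j)
      exact orderOf_dvd_iff_pow_eq_one.1 h1
    have hper' : ∀ j, (cyc (m j) γ) ^ F = 1 := by
      intro j
      rw [cyc_dvd (h j), ← map_pow]
      have h1 : (cyc N γ) ^ F = 1 := by
        apply Units.ext
        rw [Units.val_pow_eq_pow_val, hγ, hcF, Units.val_one]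
      rw [h1, map_one]
    have h1 := tot_of_EE b h hγ hE 1
    have h2 := period_sum hF (g := fun l => tot b (γ ^ l * 1)) (fun l => tot_period b hper' 1 l)
      (fun l => tot_period b hper 1 l) h1
    have h3 : (2 : ℤ) ∣ ∑ l ∈ range f, (tot b (γ ^ l * 1) + ((∑ j, degree (b j) : ℕ) : ℤ)) :=
      dvd_sum fun l _ => tot_parity b _
    rw [sum_add_distrib, h2, zero_add, sum_const, card_range, nsmul_eq_mul] at h3
    have h4 : 2 ∣ f * ∑ j, degree (b j) := by exact_mod_cast h3
    rcases (Nat.Prime.dvd_mul Nat.prime_two).1 h4 with h5 | h5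
    · exact absurd (even_iff_two_dvd.2 h5) (Nat.not_even_iff_odd.2 hfodd)
    · exact even_iff_two_dvd.2 h5

end

/-- An automorphism with the same operation on one part and the opposite operation on the rest. -/
theorem rest_neg (b : ∀ j, Label (m j) (n j)) {q K : ℕ} [hq : Fact q.Prime] (hm : PP m q K)
    (σ : ℂ ≃+* ℂ) : ∃ σ₂ : ℂ ≃+* ℂ, cyc (q ^ K) σ₂ = cyc (q ^ K) σ ∧
      ∀ ρ : ℂ ≃+* ℂ, rest b (q ^ K) (ρ * σ₂) = - rest b (q ^ K) (ρ * σ) := by
  classical
  obtain ⟨M, hM⟩ : ∃ M : ℕ, M = ∏ j, if m j ∣ q ^ K then 1 else m j := ⟨_, rfl⟩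
  have hM0 : M ≠ 0 := by
    rw [hM]
    refine prod_ne_zero_iff.2 fun j _ => ?_
    split_ifs
    · exact one_ne_zero
    · exact NeZero.ne _
  have _ : NeZero M := ⟨hM0⟩
  have hcop : (q ^ K).Coprime M := by
    rw [hM]
    refine Nat.Coprime.prod_right fun j _ => ?_
    split_ifs with h
    · exact Nat.coprime_one_right _
    · rcases hm j with h1 | h1
      · exact absurd h1 h
      · exact (Nat.Coprime.pow_right K h1).symm
  have hdvd : ∀ j, ¬ m j ∣ q ^ K → m j ∣ M := by
    intro j hj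
    rw [hM]
    have h1 := dvd_prod_of_mem (fun j => if m j ∣ q ^ K then 1 else m j) (mem_univ j)
    rwa [if_neg hj] at h1
  obtain ⟨σ₂, h2, h2'⟩ := exists_cyc hcop (cyc (q ^ K) σ) (-(cyc M σ))
  refine ⟨σ₂, h2, fun ρ => ?_⟩
  unfold rest
  rw [← sum_neg_distrib]
  refine sum_congr rfl fun j _ => ?_
  by_cases h : m j ∣ q ^ K
  · rw [if_pos h, if_pos h, neg_zero]
  · rw [if_neg h, if_neg h, map_mul, map_mul, cyc_dvd (hdvd j h) σ₂, cyc_dvd (hdvd j h) σ, h2']
    have h3 : ZMod.unitsMap (hdvd j h) (-(cyc M σ)) = -ZMod.unitsMap (hdvd j h) (cyc M σ) := by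
      apply Units.ext
      rw [Units.val_neg]
      change ZMod.castHom (hdvd j h) (ZMod (m j)) ((-(cyc M σ) : (ZMod M)ˣ) : ZMod M) =
        -ZMod.castHom (hdvd j h) (ZMod (m j)) ((cyc M σ : (ZMod M)ˣ) : ZMod M)
      rw [Units.val_neg, map_neg]
    rw [h3, mul_neg, hodge_neg]

/-- The parts of a label whose slopes vanish. -/
theorem part_sum (b : ∀ j, Label (m j) (n j)) {q K : ℕ} [hq : Fact q.Prime] (hm : PP m q K)
    {F : ℕ} {γ : ℂ ≃+* ℂ} (h0 : ∀ τ, ∑ l ∈ range F, tot b (γ ^ l * τ) = 0) (τ : ℂ ≃+* ℂ) :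
    ∑ l ∈ range F, part b (q ^ K) ((cyc (q ^ K) γ) ^ l * cyc (q ^ K) τ) = 0 := by
  obtain ⟨σ₂, h1, h2⟩ := rest_neg b hm τ
  have h3 := h0 τ
  have h4 := h0 σ₂
  simp only [tot_eq b (q ^ K), map_mul, map_pow] at h3 h4
  simp only [h1, h2] at h4
  rw [sum_add_distrib] at h3 h4
  rw [sum_neg_distrib] at h4
  linarith

theorem part_parity (b : ∀ j, Label (m j) (n j)) (N : ℕ) [NeZero N] (t : (ZMod N)ˣ) :
    open Classical in (2 : ℤ) ∣ part b N t + ((∑ j, if m j ∣ N then degree (b j) else 0 : ℕ) : ℤ) := by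
  classical
  unfold part
  rw [Nat.cast_sum, ← sum_add_distrib]
  refine dvd_sum fun j _ => ?_
  by_cases h : m j ∣ N
  · rw [dif_pos h, if_pos h]
    have h := degree_parity (twist (ZMod.unitsMap h t) (b j))
    rwa [degree_twist] at h
  · rw [dif_neg h, if_neg h]
    simp

/-- The parts of a label whose slopes vanish are Tate characters. -/
theorem isTate_entries (b : ∀ j, Label (m j) (n j)) {q K : ℕ} [hq : Fact q.Prime] {c : ℕ}
    {F : ℕ} (hF : 0 < F) {γ : ℂ ≃+* ℂ} (hγ : ((cyc (q ^ K) γ : (ZMod (q ^ K))ˣ) : ZMod (q ^ K)) = c)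
    (hcF : (c : ZMod (q ^ K)) ^ F = 1) (hm : PP m q K)
    (h0 : ∀ τ, ∑ l ∈ range F, tot b (γ ^ l * τ) = 0) (hp : HaveParity c m n) :
    Pool.Agent.H916T.IsTate c (q ^ K) (entries b (q ^ K)) := by
  classical
  have hN0 : 0 < q ^ K := pow_pos hq.out.pos K
  obtain ⟨f, hf⟩ : ∃ f, f = orderOf (c : ZMod (q ^ K)) := ⟨_, rfl⟩
  have hcf : (cyc (q ^ K) γ) ^ f = 1 := by
    apply Units.ext
    rw [Units.val_pow_eq_pow_val, hγ, Units.val_one, hf, pow_orderOf_eq_one]
  have hcF' : (cyc (q ^ K) γ) ^ F = 1 := by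
    apply Units.ext
    rw [Units.val_pow_eq_pow_val, hγ, Units.val_one, hcF]
  -- the sums of the parts
  have hpart : ∀ t : (ZMod (q ^ K))ˣ, ∑ l ∈ range f, part b (q ^ K) ((cyc (q ^ K) γ) ^ l * t) = 0 := by
    intro t
    obtain ⟨τ, rfl⟩ := exists_cyc_eq t
    refine period_sum hF (g := fun l => part b (q ^ K) ((cyc (q ^ K) γ) ^ l * cyc (q ^ K) τ))
      ?_ ?_ (part_sum b hm h0 τ)
    · intro l
      change part b (q ^ K) ((cyc (q ^ K) γ) ^ (l + F) * cyc (q ^ K) τ) = _
      rw [pow_add, hcF', mul_one]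
    · intro l
      change part b (q ^ K) ((cyc (q ^ K) γ) ^ (l + f) * cyc (q ^ K) τ) = _
      rw [pow_add, hcf, mul_one]
  obtain ⟨s, hs⟩ : ∃ s, s = (Finset.univ : Finset (Σ j, Fin (n j + 2))).filter
    (fun x => m x.1 ∣ q ^ K ∧ ent (q ^ K) (b x.1) x.2 ≠ 0) := ⟨_, rfl⟩
  have hent : entries b (q ^ K) = s.val.map fun x => ent (q ^ K) (b x.1) x.2 := by
    rw [hs]
    unfold entries
    congr
  have hval : ∀ t : (ZMod (q ^ K))ˣ, 2 * ((∑ x ∈ s, ((t : ZMod (q ^ K)) *
      ent (q ^ K) (b x.1) x.2).val : ℕ) : ℤ) = ((q ^ K : ℕ) : ℤ) * s.card -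
        ((q ^ K : ℕ) : ℤ) * part b (q ^ K) t := by
    intro t
    have h1 := part_eq b (q ^ K) t
    have h2 : ∑ x ∈ s, saw ((t : ZMod (q ^ K)) * ent (q ^ K) (b x.1) x.2) =
        -(((q ^ K : ℕ) : ℤ) * part b (q ^ K) t) := by
      rw [hs, h1, neg_neg]
    have h3 : ∀ x ∈ s, saw ((t : ZMod (q ^ K)) * ent (q ^ K) (b x.1) x.2) =
        2 * (((t : ZMod (q ^ K)) * ent (q ^ K) (b x.1) x.2).val : ℤ) - ((q ^ K : ℕ) : ℤ) := by
      intro x hx
      rw [hs] at hx
      have h4 := (mem_filter.1 hx).2.2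
      have h5 : (t : ZMod (q ^ K)) * ent (q ^ K) (b x.1) x.2 ≠ 0 := by simpa using h4
      unfold saw
      rw [if_neg h5]
    rw [sum_congr rfl h3, sum_sub_distrib, ← mul_sum, sum_const, nsmul_eq_mul] at h2
    rw [Nat.cast_sum]
    linarith
  have hsum : ∑ x ∈ s, ent (q ^ K) (b x.1) x.2 = 0 := by
    have h1 : ∑ x ∈ s, ent (q ^ K) (b x.1) x.2 =
        ∑ x : Σ j, Fin (n j + 2), if m x.1 ∣ q ^ K then ent (q ^ K) (b x.1) x.2 else 0 := by
      rw [hs, sum_filter]
      refine sum_congr rfl fun x _ => ?_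
      by_cases h : m x.1 ∣ q ^ K
      · by_cases h0 : ent (q ^ K) (b x.1) x.2 = 0
        · rw [if_neg (fun h' => h'.2 h0), if_pos h, h0]
        · rw [if_pos ⟨h, h0⟩, if_pos h]
      · rw [if_neg (fun h' => h h'.1), if_neg h]
    rw [h1, Fintype.sum_sigma]
    refine sum_eq_zero fun j _ => ?_
    by_cases h : m j ∣ q ^ K
    · simp only [h, if_true]
      exact sum_ent h (b j)
    · simp only [h, if_false]
      simp
  have hcard : Multiset.card (entries b (q ^ K)) = s.card := by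
    rw [hent, Multiset.card_map]
    rfl
  -- the parity of the number of entries
  have hparity : ∀ t : (ZMod (q ^ K))ˣ, (2 : ℤ) ∣ (s.card : ℤ) - part b (q ^ K) t := by
    intro t
    have h1 := hval t
    have h2 : q ^ K ∣ ∑ x ∈ s, ((t : ZMod (q ^ K)) * ent (q ^ K) (b x.1) x.2).val := by
      rw [← ZMod.natCast_eq_zero_iff, Nat.cast_sum]
      have h3 : ∀ x ∈ s, ((((t : ZMod (q ^ K)) * ent (q ^ K) (b x.1) x.2).val : ℕ) : ZMod (q ^ K)) =
          (t : ZMod (q ^ K)) * ent (q ^ K) (b x.1) x.2 := fun x _ => ZMod.natCast_zmod_val _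
      rw [sum_congr rfl h3, ← mul_sum, hsum, mul_zero]
    obtain ⟨y, hy⟩ := h2
    rw [hy] at h1
    have hqK : ((q ^ K : ℕ) : ℤ) ≠ 0 := by exact_mod_cast hN0.ne'
    refine ⟨y, mul_left_cancel₀ hqK ?_⟩
    rw [Nat.cast_mul] at h1
    linarith
  have heven : Even s.card := by
    obtain ⟨D, hD⟩ : ∃ D : ℕ, D = ∑ j, if m j ∣ q ^ K then degree (b j) else 0 := ⟨_, rfl⟩
    have hpp : ∀ t : (ZMod (q ^ K))ˣ, (2 : ℤ) ∣ part b (q ^ K) t + (D : ℤ) := by
      intro t
      have h1 := part_parity b (q ^ K) t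
      rw [hD]
      convert h1
    have hDeven : Even D := by
      rcases hp with hp | hp
      · rw [hD]
        refine even_sum _ fun j _ => ?_
        split_ifs
        · rcases b j with i | a
          · exact even_two_mul _
          · exact hp j
        · exact Even.zero
      · by_cases hex : ∃ j, q ∣ m j ∧ m j ∣ q ^ K
        · -- the order of `c` modulo a power of `q` is odd
          obtain ⟨g, hg⟩ : ∃ g, g = ∏ j, orderOf (c : ZMod (m j)) := ⟨_, rfl⟩
          have hgodd : Odd g := by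
            rw [hg]
            exact Finset.prod_induction _ Odd (fun a b ha hb => ha.mul hb) odd_one fun j _ => hp j
          have hg1 : ∀ t : (ZMod (q ^ K))ˣ, ∀ l,
              part b (q ^ K) ((cyc (q ^ K) γ) ^ (l + g) * t) =
              part b (q ^ K) ((cyc (q ^ K) γ) ^ l * t) := by
            intro t l
            unfold part
            refine sum_congr rfl fun j _ => ?_
            by_cases h : m j ∣ q ^ K
            · rw [dif_pos h, dif_pos h, map_mul, map_mul, map_pow, map_pow, pow_add]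
              have h1 : (ZMod.unitsMap h (cyc (q ^ K) γ)) ^ g = 1 := by
                apply Units.ext
                rw [Units.val_pow_eq_pow_val, ← cyc_dvd h, cyc_pow_one h hγ, Units.val_one]
                have h2 : orderOf (c : ZMod (m j)) ∣ g := by
                  rw [hg]
                  exact dvd_prod_of_mem _ (mem_univ j)
                exact orderOf_dvd_iff_pow_eq_one.1 h2
              rw [h1, mul_one]
            · rw [dif_neg h, dif_neg h]
          have h2 := period_sum hF (g := fun l => part b (q ^ K) ((cyc (q ^ K) γ) ^ l *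
            cyc (q ^ K) (1 : ℂ ≃+* ℂ))) (fun l => by
              change part b (q ^ K) ((cyc (q ^ K) γ) ^ (l + F) * cyc (q ^ K) 1) = _
              rw [pow_add, hcF', mul_one]) (fun l => hg1 _ l) (part_sum b hm h0 1)
          have h3 : (2 : ℤ) ∣ ∑ l ∈ range g, (part b (q ^ K) ((cyc (q ^ K) γ) ^ l *
              cyc (q ^ K) (1 : ℂ ≃+* ℂ)) + (D : ℤ)) := dvd_sum fun l _ => hpp _
          rw [sum_add_distrib, h2, zero_add, sum_const, card_range, nsmul_eq_mul] at h3
          have h4 : 2 ∣ g * D := by exact_mod_cast h3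
          rcases (Nat.Prime.dvd_mul Nat.prime_two).1 h4 with h5 | h5
          · exact absurd (even_iff_two_dvd.2 h5) (Nat.not_even_iff_odd.2 hgodd)
          · exact even_iff_two_dvd.2 h5
        · push Not at hex
          -- there are no entries
          rw [hD]
          refine even_sum _ fun j _ => ?_
          split_ifs with h
          · have h1 : m j = 1 := by
              rcases (Nat.dvd_prime_pow hq.out).1 h with ⟨a, -, ha⟩
              rcases Nat.eq_zero_or_pos a with h2 | h2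
              · rw [ha, h2, pow_zero]
              · exact absurd h (hex j (by rw [ha]; exact dvd_pow_self q h2.ne'))
            rcases hb : b j with i | a
            · exact even_two_mul _
            · exfalso
              apply a.ne_zero 0
              have : Subsingleton (ZMod (m j)) := by
                rw [h1]
                infer_instance
              exact Subsingleton.elim _ _
          · exact Even.zero
    have h1 := hparity 1
    have h2 := hpp 1
    obtain ⟨y, hy⟩ := hDeven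
    rw [even_iff_two_dvd]
    have h3 : (2 : ℤ) ∣ s.card := by omega
    exact_mod_cast h3
  refine ⟨?_, ?_, ?_, ?_⟩
  · rw [hent, Multiset.mem_map]
    rintro ⟨x, hx, hx0⟩
    rw [hs] at hx
    exact (mem_filter.1 hx).2.2 hx0
  · rw [hcard]
    exact heven
  · rw [hent]
    exact hsum
  · intro t
    rw [hcard, ← hf]
    have h1 : ∀ l ∈ range f, 2 * (((((entries b (q ^ K)).map fun a =>
        ((c : ZMod (q ^ K)) ^ l * ((t : ZMod (q ^ K)) * a)).val).sum : ℕ)) : ℤ) =
        ((q ^ K : ℕ) : ℤ) * s.card - ((q ^ K : ℕ) : ℤ) *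
          part b (q ^ K) ((cyc (q ^ K) γ) ^ l * t) := by
      intro l _
      rw [← hval, hent, Multiset.map_map]
      congr 2
      refine sum_congr rfl fun x _ => ?_
      change ((c : ZMod (q ^ K)) ^ l * ((t : ZMod (q ^ K)) * ent (q ^ K) (b x.1) x.2)).val = _
      rw [Units.val_mul, Units.val_pow_eq_pow_val, hγ, mul_assoc]
    have h2 : ((2 * ∑ l ∈ range f, ((entries b (q ^ K)).map fun a =>
        ((c : ZMod (q ^ K)) ^ l * ((t : ZMod (q ^ K)) * a)).val).sum : ℕ) : ℤ) =
        ((f * (q ^ K * s.card) : ℕ) : ℤ) := by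
      rw [Nat.cast_mul, Nat.cast_sum, mul_sum]
      rw [show ((2 : ℕ) : ℤ) = 2 from rfl, sum_congr rfl h1, sum_sub_distrib, ← mul_sum, ← mul_sum,
        hpart t, mul_zero, sub_zero, sum_const, card_range, nsmul_eq_mul]
      push_cast
      ring
    exact_mod_cast h2

theorem generated_mono {M : ℕ} {base base' : Multiset (ZMod M) → Prop}
    (h : ∀ s, base s → base' s) {s : Multiset (ZMod M)}
    (hs : Pool.Agent.H916T.Generated M base s) : Pool.Agent.H916T.Generated M base' s := by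
  induction hs with
  | ofBase s hs => exact .ofBase s (h s hs)
  | pair a ha => exact .pair a ha
  | join s t _ _ ihs iht => exact .join s t ihs iht
  | cancel a s _ ih => exact .cancel a s ih

end

end Run7.h306.TC
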