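import Pool.Agent.Run7.h306.TC7

/-!
# Labels of Tate classes
-/

set_option autoImplicit false

open Finset Pool.Agent.Y145.DI Pool.Agent.N214.HB Pool.Agent.H916R2

namespace Run7.h306.TC

open Run7.h306.HF Run7.h306.TF

noncomputable section

variable {J : Type} [Fintype J] {m n : J → ℕ} [∀ j, NeZero (m j)]

/-- **Labels whose slopes vanish are generated.** -/
theorem label_generated {c N : ℕ} [hc : Fact c.Prime] [NeZero N] {F : ℕ} (hF : 0 < F)
    (hcF : (c : ZMod N) ^ F = 1) (hmN : ∀ j, m j ∣ N) (hm : ∀ j, IsPrimePow (m j))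
    (hp : HaveParity c m n) (b : ∀ j, Label (m j) (n j))
    (hE : ∀ t : (ZMod N)ˣ, TF.EE c F (idx N b) (fun x => ent N (b x.1) x.2) t = 0) :
    IsTateGenerated c b := by
  intro q K hq hqm hne
  have _ : Fact q.Prime := ⟨hq⟩
  have hcN : c.Coprime N := by
    rw [← ZMod.isUnit_iff_coprime]
    exact IsUnit.of_pow_eq_one hcF hF.ne'
  have hPP : PP m q K := by
    intro j
    by_cases h : q ∣ m j
    · exact Or.inl (hqm j h)
    · exact Or.inr ((Nat.Prime.coprime_iff_not_dvd hq).2 h).symm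
  have hj : ∃ j, q ∣ m j := by
    obtain ⟨z, hz⟩ := Multiset.exists_mem_of_ne_zero hne
    unfold entries at hz
    rw [Multiset.mem_map] at hz
    obtain ⟨x, hx, -⟩ := hz
    have hx' := (mem_filter.1 (show x ∈ (Finset.univ : Finset (Σ j, Fin (n j + 2))).filter
      (fun x => m x.1 ∣ q ^ K ∧ ent (q ^ K) (b x.1) x.2 ≠ 0) from hx)).2.1
    obtain ⟨p, k, hp, hk, hpk⟩ := (isPrimePow_nat_iff _).1 (hm x.1)
    have h1 : p ∣ q ^ K := (dvd_pow_self p (by omega)).trans (hpk.symm ▸ hx')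
    have h2 := (Nat.prime_dvd_prime_iff_eq hp hq).1 (hp.dvd_of_dvd_pow h1)
    refine ⟨x.1, ?_⟩
    rw [← hpk, ← h2]
    exact dvd_pow_self p (by omega)
  obtain ⟨j, hj⟩ := hj
  have hcq : c.Coprime q := (Nat.Coprime.coprime_dvd_right (hmN j) hcN).coprime_dvd_right hj
  have hcqK : c.Coprime (q ^ K) := hcq.pow_right K
  have hN0 : 0 < q ^ K := pow_pos hq.pos K
  have _ : NeZero (N * q ^ K) := ⟨Nat.mul_ne_zero (NeZero.ne N) hN0.ne'⟩
  obtain ⟨γ, hγ'⟩ := exists_cyc_eq (ZMod.unitOfCoprime c (hcN.mul_right hcqK))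
  have hγ : ((cyc (N * q ^ K) γ : (ZMod (N * q ^ K))ˣ) : ZMod (N * q ^ K)) = c := by
    rw [hγ', ZMod.coe_unitOfCoprime]
  have hγN : ((cyc N γ : (ZMod N)ˣ) : ZMod N) = c := cyc_pow_one (Dvd.intro _ rfl) hγ
  have hγq : ((cyc (q ^ K) γ : (ZMod (q ^ K))ˣ) : ZMod (q ^ K)) = c :=
    cyc_pow_one (Dvd.intro_left _ rfl) hγ
  have h0 := fun τ => tot_of_EE b hmN hγN hE τ
  obtain ⟨φ, hφ⟩ : ∃ φ, φ = (q ^ K).totient := ⟨_, rfl⟩
  have hφ0 : 0 < φ := by rw [hφ]; exact Nat.totient_pos.2 hN0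
  have hcφ : (c : ZMod (q ^ K)) ^ φ = 1 := by
    have h1 := ZMod.pow_totient (ZMod.unitOfCoprime c hcqK)
    have h2 := congrArg Units.val h1
    rw [Units.val_pow_eq_pow_val, ZMod.coe_unitOfCoprime, Units.val_one] at h2
    rw [hφ]
    exact h2
  have hper : ∀ j, (cyc (m j) γ) ^ F = 1 := by
    intro j
    rw [cyc_dvd (hmN j), ← map_pow]
    have h1 : (cyc N γ) ^ F = 1 := by
      apply Units.ext
      rw [Units.val_pow_eq_pow_val, hγN, hcF, Units.val_one]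
    rw [h1, map_one]
  have h0' : ∀ τ, ∑ l ∈ range (F * φ), tot b (γ ^ l * τ) = 0 := by
    intro τ
    have h1 := sum_range_period (F := F) (g := fun l => tot b (γ ^ l * τ))
      (fun l => tot_period b hper τ l) φ
    rw [h0 τ, mul_zero] at h1
    exact h1
  have hT := isTate_entries b (Nat.mul_pos hF hφ0) hγq
    (by rw [mul_comm, pow_mul, hcφ, one_pow]) hPP h0' hp
  obtain ⟨N', hN', hcN', H⟩ := Pool.Agent.H916T.main c (q ^ K) q K hc.out hq (Or.inl rfl) hcqK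
  refine ⟨N', hN', hcN', generated_mono ?_ (H _ hT hne)⟩
  intro s hs
  exact hs.imp id fun h => h.2

/-- The slopes of a product of Jacobi sums which is a power of `q` up to a root of unity. -/
theorem EE_of_one {κ : Type} [Field κ] [Fintype κ] {c N : ℕ} [Fact c.Prime] [CharP κ c]
    [NeZero N] (hN : N ∣ Fintype.card κ - 1) (θ : MulChar κ ℂ) (hθ : orderOf θ = N)
    (ψ : AddChar κ ℂ) (hψ : ψ ≠ 1) (F : ℕ) (hF : Fintype.card κ = c ^ F) (hmN : ∀ j, m j ∣ N)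
    (b : ∀ j, Label (m j) (n j)) {e r : ℕ} (he : 0 < e)
    (h : (∏ j, jacobi θ ψ N (b j)) ^ e = ((Fintype.card κ : ℂ) ^ r) ^ e) (t : (ZMod N)ˣ) :
    TF.EE c F (idx N b) (fun x => ent N (b x.1) x.2) t = 0 := by
  obtain ⟨σ, hσ⟩ := rel_zpow hN θ hθ ψ hψ F hF
  obtain ⟨hL0, hL1⟩ := norm_p_lt (p := c)
  obtain ⟨τ, rfl⟩ := exists_cyc_eq t
  have h' : (((1 : algebraicClosure ℚ ℂ) : ℂ) * (Fintype.card κ : ℂ) ^ (∑ j, aa (b j)) *
      ∏ i ∈ idx N b, gaussSum (θ ^ ((fun x : Σ j, Fin (n j + 2) => ent N (b x.1) x.2) i).val) ψ) ^ e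
      = ((Fintype.card κ : ℂ) ^ (r + ∑ j, uu (b j))) ^ e := by
    rw [mul_assoc, ← prod_jacobi_eq θ ψ N hmN b, OneMemClass.coe_one, one_mul, mul_pow, h, pow_add,
      mul_pow]
  have h1 := hσ (idx N b) (fun x => ent N (b x.1) x.2) (fun i hi => (mem_filter.1 hi).2) 1
    (∑ j, aa (b j)) (r + ∑ j, uu (b j)) e 0 he h' (by
      rw [OneMemClass.coe_one, norm_one, one_pow, pow_zero]) τ
  rw [map_one, map_one, norm_one, one_pow, Nat.cast_zero, mul_zero, zero_sub, ← zpow_zero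
    ‖((c : ℕ) : PadicAlgCl c)‖] at h1
  have h2 := zpow_right_injective₀ hL0 hL1.ne h1
  omega

end

end Run7.h306.TC
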