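import Pool.Agent.Run7.h306.TF8

/-!
# The Tate conjecture for the factor, and the main theorem
-/

set_option autoImplicit false

open CategoryTheory AlgebraicGeometry Finset

namespace Run7.h306.TF

open Pool.Agent.H914 Pool.Agent.H914.VarClass Pool.Agent.H914.VarClass.Obj
  Pool.Agent.H914.WeilCohomology Pool.Agent.TH125.Gal Run7.h306.HF Pool.Agent.H916R2
  Pool.Agent.H281R3.HT

variable {k : Type} [Field k] {𝒱 : VarClass k} {ops : CycleOps 𝒱}
  {W : WeilCohomology.{0, 0} ops} {Γ : Type} [Group Γ] {χ : Γ →* W.Kˣ}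

/-- A nonzero class in the top degree has a nonzero trace. -/
theorem tr_top {X : 𝒱.Obj} {p : W.H X} (hp : p ∈ W.gr X (2 * X.dim)) (hp0 : p ≠ 0) :
    W.tr X p ≠ 0 := by
  intro h0
  apply hp0
  apply W.nondeg
  intro b
  refine gr_induction (W.isInternal X) (p := fun b => W.tr X (p * b) = 0) ?_ ?_ b
  · intro i a ha
    have h1 := W.mul_mem hp ha
    rcases Nat.eq_zero_or_pos i with hi | hi
    · subst hi
      rw [W.gr_zero, Submodule.mem_span_singleton] at ha
      obtain ⟨r, rfl⟩ := ha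
      rw [mul_smul_comm, mul_one, map_smul, h0, smul_zero]
    · rw [W.gr_eq_bot X _ (by omega), Submodule.mem_bot] at h1
      rw [h1, map_zero]
  · intro a b ha hb
    rw [mul_add, map_add, ha, hb, add_zero]

theorem push_snd {V Z : 𝒱.Obj} (p : W.H V) (c : W.H Z) :
    W.push (snd V Z) (W.map (fst V Z) p * W.map (snd V Z) c) = W.tr V p • c := by
  rw [← sub_eq_zero]
  apply W.nondeg
  intro b
  rw [sub_mul, map_sub, W.tr_push, mul_assoc, ← map_mul, W.tr_prod, smul_mul_assoc, map_smul,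
    smul_eq_mul, sub_self]

theorem span_push {V Z : 𝒱.Obj} {j : ℕ} {a : W.H (V.prod Z)}
    (ha : a ∈ Submodule.span W.K (algClasses W (V.prod Z) (V.dim + j))) :
    W.push (snd V Z) a ∈ Submodule.span W.K (algClasses W Z j) := by
  induction ha using Submodule.span_induction with
  | mem a ha =>
    obtain ⟨z, hz, rfl⟩ := ha
    refine Submodule.subset_span ⟨ops.push (snd V Z) z, ?_, W.cl_push _ z⟩
    refine ops.push_mem (snd V Z) hz ?_
    rw [dim_prod]
    omega
  | zero => rw [map_zero]; exact Submodule.zero_mem _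
  | add x y _ _ hx hy => rw [map_add]; exact Submodule.add_mem _ hx hy
  | smul q x _ hx => rw [map_smul]; exact Submodule.smul_mem _ _ hx

theorem tate_factor {σ : W.K ≃+* ℂ} {F : Γ} {κ : Type} [Field κ] [Fintype κ]
    {J : Type} [Fintype J] {m n : J → ℕ} {V Z Y : GVar W Γ}
    (hV : IsFermatProduct σ F κ m n V) (hY : IsProduct V Z Y) (hT : Tate χ Y) : Tate χ Z := by
  classical
  obtain ⟨N, θ, ψ, e, -, hedeg, -, healg⟩ := hV.2
  obtain ⟨υ, hυ1, hυ2, rfl⟩ := prod_cases hY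
  intro j c hc hΔ
  obtain ⟨Δ, hΔfin, hΔ⟩ := hΔ
  obtain ⟨b, hb⟩ : ∃ b : (∀ j, Label (m j) (n j)), b = fun j => Sum.inl (Fin.last (n j)) :=
    ⟨_, rfl⟩
  have hdeg : ∑ j, degree (b j) = 2 * ∑ j, n j := by
    rw [hb, mul_sum]
    rfl
  have hgen : IsGenerated b := by
    intro q K _ _ hne
    exfalso
    apply hne
    unfold entries
    rw [Multiset.map_eq_zero, Finset.val_eq_zero, filter_eq_empty_iff]
    intro x _ h
    apply h.2
    rw [hb]
    rfl
  have hp1 := healg b _ hgen hdeg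
  have hp2 := hedeg b
  rw [hdeg] at hp2
  have hp3 : W.tr V.X (e b) ≠ 0 := by
    apply tr_top _ (e.ne_zero b)
    rw [hV.1]
    exact hp2
  have h1 : W.map (snd V.X Z.X) c ∈ Submodule.span W.K (algClasses W (V.X.prod Z.X) j) := by
    refine hT j (W.map (snd V.X Z.X) c) (W.map_mem _ hc) ⟨Δ, hΔfin, fun g hg => ?_⟩
    change υ g (W.map (snd V.X Z.X) c) = _
    rw [hυ2, hΔ g hg, map_smul]
  have h2 : W.map (fst V.X Z.X) (e b) * W.map (snd V.X Z.X) c ∈
      Submodule.span W.K (algClasses W (V.X.prod Z.X) (V.X.dim + j)) := by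
    apply algSpan_gr
    · refine algSpan_mul (algSpan_map _ ?_) ?_
      · exact Submodule.span_mono (fun a ha => Set.mem_iUnion.2 ⟨_, ha⟩) hp1
      · exact Submodule.span_mono (fun a ha => Set.mem_iUnion.2 ⟨_, ha⟩) h1
    · rw [hV.1, mul_add]
      exact W.mul_mem (W.map_mem _ hp2) (W.map_mem _ hc)
  have h3 := span_push h2
  rw [push_snd] at h3
  have h4 := Submodule.smul_mem _ (W.tr V.X (e b))⁻¹ h3
  rwa [smul_smul, inv_mul_cancel₀ hp3, one_smul] at h4

/-- **The main theorem.** -/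
theorem main (ε : ℝ) (hε : 0 < ε) : ∃ C : ℝ, 0 < C ∧
    ∀ {k : Type} [Field k] {𝒱 : VarClass k} {ops : CycleOps 𝒱} {W : WeilCohomology.{0, 0} ops}
      (σ : W.K ≃+* ℂ) {Γ : Type} [Group Γ] (χ : Γ →* W.Kˣ) (F : Γ) (κ : Type) [Field κ]
      [Fintype κ] (c : ℕ) [Fact c.Prime] [CharP κ c] (B D : ℕ) (J : Type) [Fintype J]
      (m n : J → ℕ) (V Z Y : GVar W Γ), AreLarge C ε B D c m →
        IsFermatTimes σ χ F κ B D m n V Z Y → (Tate χ Y ↔ Tate χ Z) := by
  have h1ε : 0 < 1 + ε := by linarith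
  have hε' : 0 < ε / (2 * (1 + ε)) := by positivity
  have hε2 : ε / (2 * (1 + ε)) ≤ 1 / 2 := by
    rw [div_le_div_iff₀ (by positivity) (by norm_num)]
    linarith
  obtain ⟨c₀, hc₀, hcore⟩ := core hε' hε2
  have hexp : 1 - 2 * (ε / (2 * (1 + ε))) = 1 / (1 + ε) := by
    field_simp
    ring
  refine ⟨(1 / c₀) ^ (1 + ε), by positivity, ?_⟩
  intro k _ 𝒱 ops W σ Γ _ χ F κ _ _ c _ _ B D J _ m n V Z Y hm hY
  have hm0 : ∀ j, NeZero (m j) := by
    intro j
    obtain ⟨p, a, hp, -, hpa, -, -⟩ := hm j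
    exact ⟨by rw [hpa]; exact pow_ne_zero _ hp.ne_zero⟩
  refine ⟨tate_factor hY.fermat hY.prod, tate_prod hcore (ε := ε / (2 * (1 + ε))) ?_ ?_ hY.fermat
    hY.galois hY.good hY.galois_base hY.prod⟩
  · exact fun j => by
      obtain ⟨p, a, -, -, -, h, -⟩ := hm j
      exact h
  · intro j
    obtain ⟨p, a, hp, ha, hpa, -, hl⟩ := hm j
    refine ⟨p, a, hp, ha, hpa, ?_⟩
    have hX : (0 : ℝ) ≤ (B : ℝ) * D ^ 2 := by positivity
    rw [← Real.mul_rpow (by positivity) hX] at hl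
    have h2 := Real.rpow_lt_rpow (by positivity) hl (show (0 : ℝ) < 1 / (1 + ε) by positivity)
    rw [← Real.rpow_mul (by positivity), mul_one_div_cancel h1ε.ne', Real.rpow_one, ← hexp] at h2
    have h3 : (B : ℝ) * D ^ 2 = c₀ * (1 / c₀ * ((B : ℝ) * D ^ 2)) := by
      field_simp
    rw [h3]
    exact mul_lt_mul_of_pos_left h2 hc₀

end Run7.h306.TF
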