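import Pool.Agent.Run7.h306.TC8
import Pool.Agent.Run7.h306.TF9

/-!
# The Tate conjecture for the product, in positive characteristic
-/

set_option autoImplicit false

open CategoryTheory AlgebraicGeometry Finset

namespace Run7.h306.TC

open Pool.Agent.H914 Pool.Agent.H914.VarClass Pool.Agent.H914.VarClass.Obj
  Pool.Agent.H914.WeilCohomology Pool.Agent.TH125.Gal Run7.h306.HF Pool.Agent.H916R2
  Pool.Agent.H281R3.HT

variable {k : Type} [Field k] {𝒱 : VarClass k} {ops : CycleOps 𝒱}
  {W : WeilCohomology.{0, 0} ops} {Γ : Type} [Group Γ] {χ : Γ →* W.Kˣ}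

/-- The order of the entries. -/
theorem order_ent {m n N : ℕ} [NeZero m] (h : m ∣ N) (b : Label m n) (i : Fin (n + 2)) :
    addOrderOf (ent N b i) ∣ m := by
  rw [addOrderOf_dvd_iff_nsmul_eq_zero]
  cases b with
  | inl l =>
    change m • (0 : ZMod N) = 0
    exact smul_zero _
  | inr a =>
    change m • ((N / m * (a.entry i).val : ℕ) : ZMod N) = 0
    rw [nsmul_eq_mul, ← Nat.cast_mul, ZMod.natCast_eq_zero_iff, ← mul_assoc,
      Nat.mul_div_cancel' h]
    exact dvd_mul_right _ _

theorem idx_card {J : Type} [Fintype J] {m n : J → ℕ} {N : ℕ} (b : ∀ j, Label (m j) (n j)) :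
    (TF.idx N b).card ≤ ∑ j, (n j + 2) := by
  classical
  refine (card_le_univ _).trans (le_of_eq ?_)
  rw [Fintype.card_sigma]
  simp

/-- **The Tate conjecture for the product with Fermat varieties.** -/
theorem tate_prod {B : ℕ} {σ : W.K ≃+* ℂ} {F : Γ} {κ : Type} [Field κ] [Fintype κ] {c : ℕ}
    [Fact c.Prime] [CharP κ c] {J : Type} [Fintype J] {m n : J → ℕ} [∀ j, NeZero (m j)]
    {V Z Y : GVar W Γ} (hm : AreLarge c B (∑ j, (n j + 2)) m)
    (hV : IsFermatProduct c σ χ F κ m n V)
    (hZ : IsBounded c σ χ F (Fintype.card κ) B Z) (hGZ : TF.IsGalois χ Z)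
    (hY : TF.IsProduct V Z Y) (hpar : IsEven Z ∨ HaveParity c m n)
    (hTV : TF.Tate χ V) (hTZ : TF.Tate χ Z) : TF.Tate χ Y := by
  classical
  obtain ⟨N, θ, ψ, e, ⟨hN0, hmN, hNκ, hθ, hψ⟩, hedeg, heF, hconst, -, -⟩ := hV.2
  obtain ⟨υ, hυ1, hυ2, rfl⟩ := TF.prod_cases hY
  have _ : NeZero N := ⟨hN0.ne'⟩
  have _ : Finite (∀ j, Label (m j) (n j)) := Module.Finite.finite_basis e
  have _ : Fintype (∀ j, Label (m j) (n j)) := Fintype.ofFinite _
  have hq0 : (Fintype.card κ : ℂ) ≠ 0 := by exact_mod_cast Fintype.card_ne_zero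
  obtain ⟨f, hf0, hf⟩ := TF.card_pow (κ := κ) (c := c)
  intro j c' hc' hΔ
  obtain ⟨Δ, hΔfin, hΔ⟩ := hΔ
  change c' ∈ W.gr (V.X.prod Z.X) (2 * j) at hc'
  -- the coefficients
  obtain ⟨x, hx⟩ : ∃ x : (∀ j, Label (m j) (n j)) → W.H Z.X,
    x = fun b => ctr (e.coord b) c' := ⟨_, rfl⟩
  have hexp : c' = ∑ b, W.map (fst V.X Z.X) (e b) * W.map (snd V.X Z.X) (x b) := by
    rw [hx]
    exact expand e c'
  -- a power of Frobenius in `Δ`
  obtain ⟨s, hs, -, hFs⟩ := Subgroup.exists_pow_mem_of_index_ne_zero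
    (Subgroup.FiniteIndex.index_ne_zero (H := Δ)) F
  choose ζ s' hs' hζ heF using heF
  obtain ⟨lam, hlam⟩ : ∃ lam : (∀ j, Label (m j) (n j)) → W.K,
    lam = fun b => σ.symm (ζ b * ∏ j, TF.jacobi θ ψ N (b j)) := ⟨_, rfl⟩
  have hVs : ∀ (s : ℕ) b, V.act (F ^ s) (e b) = (lam b) ^ s • e b := by
    intro s b
    induction s with
    | zero => rw [pow_zero, pow_zero, map_one, one_smul]; rfl
    | succ s ih =>
      rw [pow_succ, map_mul]
      change V.act (F ^ s) (V.act F (e b)) = _
      rw [heF b, map_smul, ih, smul_smul, hlam]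
      congr 1
      ring
  have hrel : ∀ b, (lam b) ^ s • Z.act (F ^ s) (x b) =
      ((Fintype.card κ : W.K) ^ j) ^ s • x b := by
    intro b
    have h1 := TF.ctr_act e (v := V.act (F ^ s)) (z := Z.act (F ^ s)) (y := υ (F ^ s))
      (fun a => hυ1 _ a) (fun a => hυ2 _ a) (hVs s) b c'
    have h2 := hΔ (F ^ s) hFs
    change υ (F ^ s) c' = _ at h2
    rw [h2, map_smul, map_pow, Units.val_pow_eq_pow_val, hZ.twist] at h1
    rw [hx]
    rw [← h1, ← pow_mul, ← pow_mul, mul_comm s j]
  -- the coefficients are homogeneous and the labels are labels of Tate classes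
  have key : ∀ b, x b ≠ 0 → ∃ i l : ℕ, ∑ j, TF.degree (b j) = 2 * i ∧ j = i + l ∧
      x b ∈ W.gr Z.X (2 * l) ∧ ∃ Δ' : Subgroup Γ, Δ'.FiniteIndex ∧
        ∀ g ∈ Δ', V.act g (e b) = (χ g : W.K) ^ i • e b := by
    intro b hb
    -- homogeneous components
    have hcomp : ∀ i, proj (W.isInternal Z.X) i (x b) ≠ 0 →
        (∀ t : (ZMod N)ˣ, TF.EE c f (TF.idx N b) (fun x => ent N (b x.1) x.2) t = 0) ∧
          i + ∑ j, TF.degree (b j) = 2 * j ∧ Even (∑ j, TF.degree (b j)) := by
      intro i hi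
      have h1 : (lam b) ^ s • Z.act (F ^ s) (proj (W.isInternal Z.X) i (x b)) =
          ((Fintype.card κ : W.K) ^ j) ^ s • proj (W.isInternal Z.X) i (x b) := by
        rw [TF.act_proj hGZ, ← map_smul, hrel b, map_smul]
      have hqK : (Fintype.card κ : W.K) ≠ 0 := by
        rw [← hZ.twist]
        exact (χ F).ne_zero
      have hne : ((Fintype.card κ : W.K) ^ j) ^ s ≠ 0 := pow_ne_zero _ (pow_ne_zero _ hqK)
      have hlam0 : (lam b) ^ s ≠ 0 := by
        intro h0
        rw [h0, zero_smul] at h1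
        rcases smul_eq_zero.1 h1.symm with h2 | h2
        · exact hne h2
        · exact hi h2
      have h2 : Z.act (F ^ s) (proj (W.isInternal Z.X) i (x b)) =
          (((Fintype.card κ : W.K) ^ j) ^ s / (lam b) ^ s) •
            proj (W.isInternal Z.X) i (x b) := by
        rw [div_eq_inv_mul, mul_smul, ← h1, smul_smul, inv_mul_cancel₀ hlam0, one_smul]
      obtain ⟨α, hα, hαs⟩ := TF.exists_eig hGZ σ F hs (proj_mem _ _ _) hi h2
      have h3 : (σ α * ∏ j, TF.jacobi θ ψ N (b j)) ^ (s * s' b) =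
          ((Fintype.card κ : ℂ) ^ j) ^ (s * s' b) := by
        have h4 : (σ α) ^ s * (ζ b * ∏ j, TF.jacobi θ ψ N (b j)) ^ s =
            ((Fintype.card κ : ℂ) ^ j) ^ s := by
          have h5 : α ^ s * (lam b) ^ s = ((Fintype.card κ : W.K) ^ j) ^ s := by
            rw [hαs, div_mul_cancel₀ _ hlam0]
          have h6 := congrArg σ h5
          rw [map_mul, map_pow, map_pow, map_pow, map_pow, map_natCast, hlam] at h6
          simp only [RingEquiv.apply_symm_apply] at h6
          exact h6
        rw [pow_mul ((Fintype.card κ : ℂ) ^ j), ← h4]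
        rw [← mul_pow, ← pow_mul]
        have h7 : σ α * (ζ b * ∏ j, TF.jacobi θ ψ N (b j)) =
            ζ b * (σ α * ∏ j, TF.jacobi θ ψ N (b j)) := by ring
        rw [h7, mul_pow (ζ b), mul_comm s, pow_mul (ζ b), hζ b, one_pow, one_mul]
      have hw : ‖σ α‖ ^ 2 = (Fintype.card κ : ℝ) ^ i := hZ.weight i α hα
      obtain ⟨hS, hSB⟩ := TF.eig_bound hGZ σ F i B (hZ.betti i)
      have h8 : (σ α * (Fintype.card κ : ℂ) ^ (∑ j, TF.aa (b j)) *
          ∏ i ∈ TF.idx N b, gaussSum (θ ^ ((fun x : Σ j, Fin (n j + 2) =>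
            ent N (b x.1) x.2) i).val) ψ) ^ (s * s' b) =
          ((Fintype.card κ : ℂ) ^ (j + ∑ j, TF.uu (b j))) ^ (s * s' b) := by
        rw [mul_assoc, ← TF.prod_jacobi_eq θ ψ N hmN b, ← mul_assoc, mul_pow, h3, pow_add, mul_pow]
      have hEE : ∀ t : (ZMod N)ˣ,
          TF.EE c f (TF.idx N b) (fun x => ent N (b x.1) x.2) t = 0 := by
        intro t
        refine EE_of_rel hNκ θ hθ ψ hψ f hf0 hf (TF.idx N b) _
          (fun i hi => (mem_filter.1 hi).2) (Nat.mul_pos hs (hs' b)) h8 hw
          {z : ℂ | TF.IsEigenvalue (W.gr Z.X) (Z.act F) i (σ.symm z)} hS hSB ?_ ?_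
          (hZ.slopes i α hα) (idx_card b) ?_ t
        · intro z hz τ
          have h4 := hZ.conjugate i (σ.symm z) hz τ
          rw [RingEquiv.apply_symm_apply] at h4
          exact h4
        · change TF.IsEigenvalue (W.gr Z.X) (Z.act F) i (σ.symm (σ α))
          rw [RingEquiv.symm_apply_apply]
          exact hα
        · intro y _
          rcases hm y.1 _ (order_ent (hmN y.1) (b y.1) y.2) with ⟨s₁, h4⟩ | h4
          · left
            refine ⟨s₁, ?_⟩
            rw [← ZMod.natCast_eq_zero_iff] at h4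
            push_cast at h4
            linear_combination h4
          · exact Or.inr h4
      have hdeg : i + ∑ j, TF.degree (b j) = 2 * j := by
        have h4 := congrArg norm h3
        rw [norm_pow, norm_pow] at h4
        have h5 := (pow_left_inj₀ (norm_nonneg _) (norm_nonneg _)
          (Nat.mul_pos hs (hs' b)).ne').1 h4
        have h6 := congrArg (fun x => x ^ 2) h5
        simp only [norm_mul, norm_prod, norm_pow, Complex.norm_natCast, mul_pow, ← prod_pow] at h6
        rw [hw, prod_congr rfl fun j _ => TF.norm_jacobi θ ψ hψ hθ (hmN j) (b j),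
          prod_pow_eq_pow_sum, ← pow_add, ← pow_mul, mul_comm j 2] at h6
        have hq : (1 : ℝ) < Fintype.card κ := by exact_mod_cast Fintype.one_lt_card
        exact pow_right_injective₀ (by linarith) hq.ne' h6
      refine ⟨hEE, hdeg, ?_⟩
      rcases hpar with hpar | hpar
      · have hi2 : ¬ Odd i := by
          intro hodd
          have h4 := proj_mem (W.isInternal Z.X) i (x b)
          rw [hpar i hodd, Submodule.mem_bot] at h4
          exact hi h4
        rw [Nat.not_odd_iff_even] at hi2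
        obtain ⟨i', hi'⟩ := hi2
        exact ⟨j - i', by omega⟩
      · exact even_degree b hmN hf0 (pow_card hNκ hf) hEE hpar
    obtain ⟨i, hi⟩ : ∃ i, proj (W.isInternal Z.X) i (x b) ≠ 0 := by
      by_contra hall
      push Not at hall
      apply hb
      have h1 := sum_proj (W.isInternal Z.X) (N := 2 * Z.X.dim + 1)
        (fun i hi => W.gr_eq_bot Z.X i (by omega))
      have h2 := LinearMap.congr_fun h1 (x b)
      rw [LinearMap.sum_apply, sum_eq_zero fun i _ => hall i] at h2
      exact h2.symm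
    obtain ⟨hEE, hdeg, i', hi'⟩ := hcomp i hi
    refine ⟨i', j - i', by omega, by omega, ?_, ?_⟩
    · have h3 : ∀ i'', i'' ≠ 2 * (j - i') → proj (W.isInternal Z.X) i'' (x b) = 0 := by
        intro i'' hi''
        by_contra hne
        have := (hcomp i'' hne).2.1
        omega
      have h1 := sum_proj (W.isInternal Z.X) (N := 2 * Z.X.dim + 1)
          (fun i hi => W.gr_eq_bot Z.X i (by omega))
      have h2 := LinearMap.congr_fun h1 (x b)
      rw [LinearMap.sum_apply] at h2
      have h4 : x b = ∑ i ∈ range (2 * Z.X.dim + 1), proj (W.isInternal Z.X) i (x b) := h2.symm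
      rw [h4]
      refine Submodule.sum_mem _ fun i'' _ => ?_
      by_cases hi'' : i'' = 2 * (j - i')
      · rw [hi'']
        exact proj_mem _ _ _
      · rw [h3 i'' hi'']
        exact Submodule.zero_mem _
    · -- the element of the basis is a Tate class
      obtain ⟨l, hl, hJ⟩ := jacobi_pow hNκ θ hθ ψ hψ f hf0 hf hmN b hEE
      have hdeg' : ∑ j, TF.degree (b j) = 2 * i' := by omega
      refine hconst b i' (s' b * (2 * l)) (Nat.mul_pos (hs' b) (by omega)) ?_
      rw [hVs, map_pow, Units.val_pow_eq_pow_val, hZ.twist]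
      congr 1
      rw [hlam]
      apply σ.injective
      simp only [map_pow, RingEquiv.apply_symm_apply, map_natCast]
      rw [mul_pow, pow_mul, hζ b, one_pow, one_mul, mul_comm (s' b), pow_mul (∏ j, _), hJ, hdeg',
        ← pow_mul, ← pow_mul]
      congr 1
      ring
  -- the coefficients are Tate classes
  have hfix : ∀ b, ∃ Δ' : Subgroup Γ, Δ'.FiniteIndex ∧ (x b ≠ 0 → ∀ i, ∑ j, TF.degree (b j) = 2 * i →
      ∀ g ∈ Δ', V.act g (e b) = (χ g : W.K) ^ i • e b) := by
    intro b
    by_cases hb : x b = 0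
    · exact ⟨⊤, inferInstance, fun h => absurd hb h⟩
    · obtain ⟨i, l, hi, -, -, Δ', h1, h2⟩ := key b hb
      refine ⟨Δ', h1, fun _ i' hi' => ?_⟩
      have : i' = i := by omega
      rw [this]
      exact h2
  choose Δ' hΔ'fin hΔ' using hfix
  have hx_alg : ∀ b, x b ≠ 0 → x b ∈ algSpan W Z.X := by
    intro b hb
    obtain ⟨i, l, hi, hj, hgr, -⟩ := key b hb
    have h1 : x b ∈ Submodule.span W.K (algClasses W Z.X l) := by
      refine hTZ l (x b) hgr ⟨Δ ⊓ ⨅ b, Δ' b, ?_, ?_⟩
      · have := Subgroup.finiteIndex_iInf hΔ'fin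
        infer_instance
      · intro g hg
        have hg2 : ∀ b, g ∈ Δ' b := fun b => (Subgroup.mem_iInf.1 hg.2) b
        have h2 := hΔ g hg.1
        change υ g c' = _ at h2
        have h3 : ctr (e.coord b) (υ g c') = (χ g : W.K) ^ i • Z.act g (x b) := by
          rw [hexp, map_sum, map_sum]
          rw [sum_eq_single b]
          · rw [map_mul, hυ1, hυ2, hΔ' b hb i hi g (hg2 b), map_smul, smul_mul_assoc, map_smul,
              ctr_apply, Module.Basis.coord_apply, Module.Basis.repr_self, Finsupp.single_eq_same,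
              one_smul]
          · intro b' _ hbb
            by_cases hb' : x b' = 0
            · rw [hb', map_zero, mul_zero, map_zero, map_zero]
            · obtain ⟨i', -, hi', -, -⟩ := key b' hb'
              rw [map_mul, hυ1, hυ2, hΔ' b' hb' i' hi' g (hg2 b'), map_smul, smul_mul_assoc,
                map_smul, ctr_apply, Module.Basis.coord_apply, Module.Basis.repr_self,
                Finsupp.single_eq_of_ne (Ne.symm hbb), zero_smul, smul_zero]
          · intro h
            exact absurd (mem_univ _) h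
        rw [h2, map_smul] at h3
        have h4 : ctr (e.coord b) c' = x b := by rw [hx]
        rw [h4, hj, pow_add, mul_smul] at h3
        have h5 : (χ g : W.K) ^ i ≠ 0 := pow_ne_zero _ (χ g).ne_zero
        exact (smul_right_injective _ h5 h3).symm
    exact Submodule.span_mono (fun a ha => Set.mem_iUnion.2 ⟨l, ha⟩) h1
  have hc_alg : c' ∈ algSpan W (V.X.prod Z.X) := by
    rw [hexp]
    refine Submodule.sum_mem _ fun b _ => ?_
    by_cases hb : x b = 0
    · rw [hb, map_zero, mul_zero]
      exact Submodule.zero_mem _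
    · obtain ⟨i, l, hi, -, -, Δ₁, hΔ₁, h1⟩ := key b hb
      have h2 : e b ∈ Submodule.span W.K (algClasses W V.X i) := by
        refine hTV i (e b) ?_ ⟨Δ₁, hΔ₁, h1⟩
        rw [← hi]
        exact hedeg b
      refine algSpan_mul (algSpan_map _ ?_) (algSpan_map _ (hx_alg b hb))
      exact Submodule.span_mono (fun a ha => Set.mem_iUnion.2 ⟨i, ha⟩) h2
  exact algSpan_gr hc_alg hc'

/-- **The Tate conjecture for products of Fermat varieties of prime power degrees.** -/
theorem tate_fermat {σ : W.K ≃+* ℂ} {F : Γ} {κ : Type} [Field κ] [Fintype κ] {c : ℕ}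
    [Fact c.Prime] [CharP κ c] {J : Type} [Fintype J] {m n : J → ℕ} [∀ j, NeZero (m j)]
    {V : GVar W Γ} (hm : ∀ j, IsPrimePow (m j))
    (hV : IsFermatProduct c σ χ F κ m n V) (hF : (χ F : W.K) = Fintype.card κ)
    (hpar : HaveParity c m n) : TF.Tate χ V := by
  classical
  obtain ⟨N, θ, ψ, e, ⟨hN0, hmN, hNκ, hθ, hψ⟩, hedeg, heF, -, -, halg⟩ := hV.2
  have _ : NeZero N := ⟨hN0.ne'⟩
  have _ : Finite (∀ j, Label (m j) (n j)) := Module.Finite.finite_basis e
  have _ : Fintype (∀ j, Label (m j) (n j)) := Fintype.ofFinite _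
  obtain ⟨f, hf0, hf⟩ := TF.card_pow (κ := κ) (c := c)
  intro j v hv hΔ
  obtain ⟨Δ, hΔfin, hΔ⟩ := hΔ
  obtain ⟨s, hs, -, hFs⟩ := Subgroup.exists_pow_mem_of_index_ne_zero
    (Subgroup.FiniteIndex.index_ne_zero (H := Δ)) F
  choose ζ s' hs' hζ heF using heF
  obtain ⟨lam, hlam⟩ : ∃ lam : (∀ j, Label (m j) (n j)) → W.K,
    lam = fun b => σ.symm (ζ b * ∏ j, TF.jacobi θ ψ N (b j)) := ⟨_, rfl⟩
  have hVs : ∀ (s : ℕ) b, V.act (F ^ s) (e b) = (lam b) ^ s • e b := by
    intro s b
    induction s with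
    | zero => rw [pow_zero, pow_zero, map_one, one_smul]; rfl
    | succ s ih =>
      rw [pow_succ, map_mul]
      change V.act (F ^ s) (V.act F (e b)) = _
      rw [heF b, map_smul, ih, smul_smul, hlam]
      congr 1
      ring
  have hexp : v = ∑ b, e.repr v b • e b := (e.sum_repr v).symm
  rw [hexp]
  refine Submodule.sum_mem _ fun b _ => ?_
  by_cases hb : e.repr v b = 0
  · rw [hb, zero_smul]
    exact Submodule.zero_mem _
  refine Submodule.smul_mem _ _ ?_
  -- the eigenvalue
  have h1 : (lam b) ^ s = ((Fintype.card κ : W.K) ^ j) ^ s := by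
    have h2 := hΔ (F ^ s) hFs
    have h3 := congrArg (fun y => e.repr y b) h2
    have h4 : e.repr (V.act (F ^ s) v) b = (lam b) ^ s * e.repr v b := by
      have h5 : (e.coord b) ∘ₗ (V.act (F ^ s)).toLinearMap = (lam b) ^ s • e.coord b := by
        refine e.ext fun b' => ?_
        rw [LinearMap.comp_apply, LinearMap.smul_apply]
        change e.coord b (V.act (F ^ s) (e b')) = _
        rw [hVs, map_smul, Module.Basis.coord_apply, Module.Basis.repr_self]
        by_cases hr : b' = b
        · subst hr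
          rfl
        · rw [Finsupp.single_eq_of_ne (Ne.symm hr), smul_zero, smul_zero]
      exact LinearMap.congr_fun h5 v
    simp only [map_smul, Finsupp.smul_apply, smul_eq_mul] at h3
    rw [h4] at h3
    have h5 := mul_right_cancel₀ hb h3
    rw [h5, map_pow, Units.val_pow_eq_pow_val, hF, ← pow_mul, ← pow_mul, mul_comm]
  have h3 : (∏ j, TF.jacobi θ ψ N (b j)) ^ (s * s' b) =
      ((Fintype.card κ : ℂ) ^ j) ^ (s * s' b) := by
    have h6 := congrArg σ h1
    rw [map_pow, map_pow, map_pow, map_natCast, hlam] at h6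
    simp only [RingEquiv.apply_symm_apply] at h6
    rw [pow_mul ((Fintype.card κ : ℂ) ^ j), ← h6, ← pow_mul, mul_pow, mul_comm s,
      pow_mul (ζ b), hζ b, one_pow, one_mul]
  have hEE := EE_of_one hNκ θ hθ ψ hψ f hf hmN b (Nat.mul_pos hs (hs' b)) h3
  have hdeg : ∑ j, TF.degree (b j) = 2 * j := by
    have h4 := congrArg norm h3
    rw [norm_pow, norm_pow] at h4
    have h5 := (pow_left_inj₀ (norm_nonneg _) (norm_nonneg _)
      (Nat.mul_pos hs (hs' b)).ne').1 h4
    have h6 := congrArg (fun x => x ^ 2) h5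
    simp only [norm_prod, norm_pow, Complex.norm_natCast, ← prod_pow] at h6
    rw [prod_congr rfl fun j _ => TF.norm_jacobi θ ψ hψ hθ (hmN j) (b j),
      prod_pow_eq_pow_sum, ← pow_mul, mul_comm j 2] at h6
    have hq : (1 : ℝ) < Fintype.card κ := by exact_mod_cast Fintype.one_lt_card
    exact pow_right_injective₀ (by linarith) hq.ne' h6
  exact halg hm b j (label_generated hf0 (pow_card hNκ hf) hmN hm hpar b hEE) hdeg

end Run7.h306.TC
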