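import Pool.Agent.N876.FL.NR
import Pool.Agent.Run7.h306.HF6

/-!
# Relations with numbers of bounded degree: the p-adic absolute values
-/

set_option autoImplicit false

namespace Run7.h306.TE

open Finset Polynomial Pool.Agent.N876.TC Pool.Agent.N876.UV Pool.Agent.N876.FL
  Pool.Agent.W528.HA Pool.Agent.W528.HB Run7.h306.HF

/-- The restriction of an automorphism to the algebraic numbers. -/
noncomputable def res (γ : ℂ ≃+* ℂ) : AA →+* AA where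
  toFun x := ⟨γ x.1, by
    have h1 : IsAlgebraic ℚ x.1 := mem_algebraicClosure_iff.mp x.2
    refine mem_algebraicClosure_iff.mpr ?_
    exact h1.algHom ((γ : ℂ →+* ℂ).toRatAlgHom)⟩
  map_one' := Subtype.ext (map_one γ)
  map_mul' x y := Subtype.ext (map_mul γ x.1 y.1)
  map_zero' := Subtype.ext (map_zero γ)
  map_add' x y := Subtype.ext (map_add γ x.1 y.1)

theorem res_coe (γ : ℂ ≃+* ℂ) (x : AA) : ((res γ x : AA) : ℂ) = γ x := rfl

/-- The stabilizer of `β`. -/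
noncomputable def stab (β : ℂ) : Subgroup (ℂ ≃+* ℂ) := MulAction.stabilizer (RingAut ℂ) β

theorem mem_stab {β : ℂ} {γ : ℂ ≃+* ℂ} : γ ∈ stab β ↔ γ β = β := Iff.rfl

theorem index_le {N : ℕ} [NeZero N] {β : ℂ} (hβ : IsAlgebraic ℚ β) :
    ((stab β).map (cyc N)).index ≤ (minpoly ℚ β).natDegree := by
  have hsurj : Function.Surjective (cyc N) := by
    intro t
    obtain ⟨γ, hγ⟩ := exists_aut_pow (NeZero.pos N) t
    refine ⟨γ, Units.ext ?_⟩
    rw [cyc_unique γ hγ, ZMod.natCast_zmod_val]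
  have h1 : (stab β).index = (MulAction.orbit (RingAut ℂ) β).ncard :=
    MulAction.index_stabilizer (RingAut ℂ) β
  have hsub : MulAction.orbit (RingAut ℂ) β ⊆ (minpoly ℚ β).rootSet ℂ := by
    rintro _ ⟨γ, rfl⟩
    rw [Polynomial.mem_rootSet]
    refine ⟨minpoly.ne_zero hβ.isIntegral, ?_⟩
    have h2 : ((γ : ℂ ≃+* ℂ) : ℂ →+* ℂ).toRatAlgHom β = γ • β := rfl
    change aeval (γ • β) (minpoly ℚ β) = 0
    rw [← h2, aeval_algHom_apply, minpoly.aeval, map_zero]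
  have hfin : ((minpoly ℚ β).rootSet ℂ).Finite := Polynomial.rootSet_finite _ _
  have h3 : (MulAction.orbit (RingAut ℂ) β).ncard ≤ (minpoly ℚ β).natDegree := by
    refine (Set.ncard_le_ncard hsub hfin).trans ?_
    rw [Polynomial.rootSet_def, Set.ncard_coe_finset]
    refine (Multiset.toFinset_card_le _).trans ?_
    refine (Polynomial.card_roots' _).trans ?_
    exact natDegree_map_le
  have h4 : 0 < (stab β).index := by
    rw [h1, Set.ncard_pos (hfin.subset hsub)]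
    exact MulAction.nonempty_orbit _
  exact (Nat.le_of_dvd h4 (Subgroup.index_map_dvd _ hsurj)).trans (h1.le.trans h3)

/-- The condition on the exponents, for the subgroups of index at most `D`. -/
def SmallB {ι : Type} (c f N D : ℕ) (d n s : ι → ℕ) (a : ∀ i, Fin (s i) → ℕ) : Prop :=
  ∀ H : Subgroup (ZMod N)ˣ, H.index ≤ D → ∀ I : Finset ι, I.Nonempty → ∀ j : ι → ℕ,
    (∀ i ∈ I, ¬ d i ∣ j i) → ∃ u ∈ H,
      2 * ∑ i ∈ I, (N / d i) * ∑ k, ∑ t ∈ range f,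
        (((u : (ZMod N)ˣ) : ZMod N).val * j i * a i k * c ^ t) % d i < f * N * ∑ i ∈ I, (n i + 2)

variable {c : ℕ} [Fact c.Prime]

section

variable {ι : Type} {N D : ℕ} (hN : 0 < N) {d n s : ι → ℕ}
    (hd : ∀ i, 2 ≤ d i) (hdN : ∀ i, d i ∣ N) (κ : Type) [Field κ] [Fintype κ] [CharP κ c] {f : ℕ}
    (hf : Fintype.card κ = c ^ f) {z : ι → κ} (hz : ∀ i, IsPrimitiveRoot (z i) (d i))
    (l : ∀ i, Fin (s i) → Fin (n i + 1) → κ) (a : ∀ i, Fin (s i) → ℕ)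
    (ha : ∀ i k, (a i k).Coprime (d i))
    {W : ι → Type} [∀ i, AddCommGroup (W i)] [∀ i, Module ℂ (W i)]
    [∀ i, FiniteDimensional ℂ (W i)] {Φ g : ∀ i, Module.End ℂ (W i)}
    (h : ∀ i, IsCov (d i) (l i) (a i) (z i) (Φ i) (g i))

include hN hd hdN hf hz ha h

/-- For every embedding the product of the eigenvalues is small. -/
theorem all_small (hsmall : SmallB c f N D d n s a) {β' : ℂ} (hβ' : IsAlgebraic ℚ β')
    (hdeg : (minpoly ℚ β').natDegree ≤ D)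
    {I : Finset ι} (hI : I.Nonempty) {α : ι → ℂ}
    (hα : ∀ i ∈ I, (Φ i).HasEigenvalue (α i)) (hα0 : ∀ i ∈ I, α i ≠ 0) :
    ∃ hx : ∀ i ∈ I, α i ∈ AA, ∀ fe : AA →+* PadicAlgCl c, ∃ γ : ℂ ≃+* ℂ, γ β' = β' ∧
      (∏ i ∈ I.attach, ‖fe (res γ ⟨α i.1, hx i.1 i.2⟩)‖) ^ 2 <
        ‖((Fintype.card κ : ℕ) : PadicAlgCl c)‖ ^ (∑ i ∈ I, n i) := by
  classical
  have hN0 : NeZero N := ⟨hN.ne'⟩
  obtain ⟨k, _, R, res', _, _, hR⟩ := Pool.Agent.W999.HB.TP.main c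
  have _ : Algebra (ZMod c) κ := ZMod.algebra κ c
  have _ : Algebra (ZMod c) k := ZMod.algebra k c
  have hκk : Nonempty (κ →ₐ[ZMod c] k) := ⟨IsAlgClosed.lift⟩
  obtain ⟨eκ'⟩ := hκk
  set eκ : κ →+* k := (eκ' : κ →+* k)
  have hOm : ∀ i, ∃ Ω : PadicAlgCl c, IsPrimitiveRoot Ω (d i) ∧
      ∃ h : Ω ∈ R, res' ⟨Ω, h⟩ = eκ (z i) := fun i => exists_Om (hd i) hf (hz i) hR eκ
  choose Ω hΩ hΩz using hOm
  have hcs := fun (i : ι) (hi : i ∈ I) => cov_slope (hd i) κ hf (hz i) hR eκ (hΩ i) (hΩz i) (l i)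
    (a i) (ha i) (h i) (hα i hi) (hα0 i hi)
  choose hx μ hμ1 hμ2 hμ3 using hcs
  refine ⟨hx, ?_⟩
  intro fe
  -- the exponents
  have hj : ∀ i (hi : i ∈ I), ∃ j : ℕ, ¬ d i ∣ j ∧ fe (μ i hi) = Ω i ^ j := by
    intro i hi
    have : NeZero (d i) := ⟨by have := hd i; omega⟩
    obtain ⟨j, _, hj⟩ := (hΩ i).eq_pow_of_pow_eq_one (ξ := fe (μ i hi))
      (by rw [← map_pow, hμ1, map_one])
    refine ⟨j, ?_, hj.symm⟩
    intro h0
    apply hμ2 i hi
    apply fe.injective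
    rw [← hj, map_one]
    exact ((hΩ i).pow_eq_one_iff_dvd j).mpr h0
  choose j0 hj0 hj1 using hj
  set j : ι → ℕ := fun i => if hi : i ∈ I then j0 i hi else 0 with hjdef
  have hjI : ∀ i (hi : i ∈ I), j i = j0 i hi := by
    intro i hi
    simp only [hjdef]
    rw [dif_pos hi]
  obtain ⟨u', hu', hlt⟩ := hsmall _ ((index_le (N := N) hβ').trans hdeg) I hI j
    (fun i hi => by rw [hjI i hi]; exact hj0 i hi)
  obtain ⟨γ, hγ, rfl⟩ := hu'
  refine ⟨γ, mem_stab.1 hγ, ?_⟩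
  obtain ⟨u, hu0⟩ : ∃ u : ℕ, u = ((cyc N γ : (ZMod N)ˣ) : ZMod N).val := ⟨_, rfl⟩
  rw [← hu0] at hlt
  have hu : u.Coprime N := by
    rw [hu0]
    exact ZMod.val_coe_unit_coprime _
  set fe' : AA →+* PadicAlgCl c := fe.comp (res γ) with hfe'
  have hμ' : ∀ i (hi : i ∈ I), fe' (μ i hi) = Ω i ^ (u * j i) := by
    intro i hi
    have h1 : res γ (μ i hi) = μ i hi ^ u := by
      apply Subtype.ext
      rw [res_coe, SubmonoidClass.coe_pow, hu0]
      apply cyc_spec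
      obtain ⟨v, hv⟩ := hdN i
      have h2 := congrArg Subtype.val (hμ1 i hi)
      rw [SubmonoidClass.coe_pow] at h2
      rw [hv, pow_mul, h2]
      exact one_pow _
    rw [hfe', RingHom.comp_apply, h1, map_pow, hj1 i hi, ← pow_mul, hjI i hi, mul_comm]
  have hnd : ∀ i (hi : i ∈ I), ¬ d i ∣ u * j i := by
    intro i hi h0
    have h1 : (d i).Coprime u := (Nat.Coprime.coprime_dvd_right (hdN i) hu).symm
    rw [hjI i hi] at h0
    exact hj0 i hi (h1.dvd_of_dvd_mul_left h0)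
  have hest := fun i (hi : i ∈ I) => hμ3 i hi fe' (u * j i) (hnd i hi) (hμ' i hi)
  set ρ := ‖((c : ℕ) : PadicAlgCl c)‖ with hρ
  have hρ0 : 0 < ρ := norm_c_pos
  have hρ1 : ρ < 1 := norm_c_lt
  set A : ι → ℕ := fun i => ∑ k, ∑ t ∈ range f, (u * j i * a i k * c ^ t) % d i with hAdef
  change (∏ i ∈ I.attach, ‖fe' ⟨α i.1, hx i.1 i.2⟩‖) ^ 2 < _
  set P := ∏ i ∈ I.attach, ‖fe' ⟨α i.1, hx i.1 i.2⟩‖ with hP
  have hP0 : 0 ≤ P := prod_nonneg fun i _ => norm_nonneg _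
  have h1 : P ^ N * ρ ^ (∑ i ∈ I, (N / d i) * A i) ≤ ρ ^ (∑ i ∈ I, f * (n i + 1) * N) := by
    rw [hP, ← prod_pow, ← prod_pow_eq_pow_sum, ← prod_pow_eq_pow_sum,
      ← prod_attach I (fun i => ρ ^ ((N / d i) * A i)),
      ← prod_attach I (fun i => ρ ^ (f * (n i + 1) * N)), ← prod_mul_distrib]
    apply prod_le_prod
    · intro i _
      exact mul_nonneg (pow_nonneg (norm_nonneg _) _) (pow_nonneg hρ0.le _)
    · intro i _
      have h2 := pow_le_pow_left₀ (mul_nonneg (pow_nonneg (norm_nonneg _) _)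
        (pow_nonneg hρ0.le _)) (hest i.1 i.2) (N / d i.1)
      have h3 : d i.1 * (N / d i.1) = N := Nat.mul_div_cancel' (hdN i.1)
      rw [mul_pow, ← pow_mul, ← pow_mul, ← pow_mul, h3] at h2
      have h4 : f * (n i.1 + 1) * d i.1 * (N / d i.1) = f * (n i.1 + 1) * N := by
        rw [mul_assoc _ (d i.1), h3]
      rw [h4] at h2
      rw [mul_comm (N / d i.1)]
      exact h2
  have hq : ‖((Fintype.card κ : ℕ) : PadicAlgCl c)‖ = ρ ^ f := by
    rw [hf]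
    push_cast
    rw [norm_pow]
  rw [hq, ← pow_mul]
  set B := ∑ i ∈ I, (N / d i) * A i with hB
  have h5 : ∑ i ∈ I, f * (n i + 1) * N = f * N * ∑ i ∈ I, (n i + 1) := by
    rw [mul_sum]
    exact sum_congr rfl fun i _ => by ring
  have h6 : ∑ i ∈ I, (n i + 2) + ∑ i ∈ I, n i = 2 * ∑ i ∈ I, (n i + 1) := by
    rw [← sum_add_distrib, mul_sum]
    exact sum_congr rfl fun i _ => by ring
  have h7 : (P ^ 2) ^ N * ρ ^ (2 * B) ≤ ρ ^ (2 * (f * N * ∑ i ∈ I, (n i + 1))) := by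
    have h8 := pow_le_pow_left₀ (mul_nonneg (pow_nonneg hP0 _) (pow_nonneg hρ0.le _)) h1 2
    rw [mul_pow, ← pow_mul, ← pow_mul, ← pow_mul, h5, mul_comm N 2, pow_mul, mul_comm B 2,
      mul_comm _ 2] at h8
    exact h8
  have h9 : 2 * (f * N * ∑ i ∈ I, (n i + 1)) = f * N * ∑ i ∈ I, (n i + 2) + f * N * ∑ i ∈ I, n i := by
    rw [← mul_add, h6]
    ring
  rw [h9, pow_add] at h7
  have h10 : ρ ^ (f * N * ∑ i ∈ I, (n i + 2)) < ρ ^ (2 * B) :=
    pow_lt_pow_right_of_lt_one₀ hρ0 hρ1 hlt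
  have h11 : (P ^ 2) ^ N * ρ ^ (2 * B) < ρ ^ (2 * B) * ρ ^ (f * N * ∑ i ∈ I, n i) :=
    lt_of_le_of_lt h7 (mul_lt_mul_of_pos_right h10 (pow_pos hρ0 _))
  have h12 : (P ^ 2) ^ N < (ρ ^ (f * ∑ i ∈ I, n i)) ^ N := by
    rw [mul_comm (ρ ^ (2 * B))] at h11
    have h13 := lt_of_mul_lt_mul_right h11 (pow_nonneg hρ0.le _)
    have h14 : f * N * ∑ i ∈ I, n i = f * (∑ i ∈ I, n i) * N := by ring
    rw [h14, pow_mul ρ _ N] at h13
    exact h13
  exact lt_of_pow_lt_pow_left₀ N (pow_nonneg hρ0.le _) h12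

end

end Run7.h306.TE
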