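import Pool.Agent.Run7.h306.TE1

/-!
# No resonances with numbers of bounded degree
-/

set_option autoImplicit false

namespace Run7.h306.TE

open Finset Polynomial Pool.Agent.N876.TC Pool.Agent.N876.UV Pool.Agent.N876.FL
  Pool.Agent.W528.HA Pool.Agent.W528.HB Run7.h306.HF

variable {c : ℕ} [Fact c.Prime]

section

variable {ι : Type} {N D : ℕ} (hN : 0 < N) {d n s : ι → ℕ}
    (hd : ∀ i, 2 ≤ d i) (hdN : ∀ i, d i ∣ N) (κ : Type) [Field κ] [Fintype κ] [CharP κ c] {f : ℕ}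
    (hf : Fintype.card κ = c ^ f) {z : ι → κ} (hz : ∀ i, IsPrimitiveRoot (z i) (d i))
    (l : ∀ i, Fin (s i) → Fin (n i + 1) → κ) (a : ∀ i, Fin (s i) → ℕ)
    (ha : ∀ i k, (a i k).Coprime (d i))

include hN hd hdN hf hz ha

/-- **No relations.** -/
theorem core {W : ι → Type} [∀ i, AddCommGroup (W i)] [∀ i, Module ℂ (W i)]
    [∀ i, FiniteDimensional ℂ (W i)] {Φ g : ∀ i, Module.End ℂ (W i)}
    (h : ∀ i, IsCov (d i) (l i) (a i) (z i) (Φ i) (g i)) (hsmall : SmallB c f N D d n s a)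
    {I : Finset ι} (hI : I.Nonempty) {α : ι → ℂ} (hα : ∀ i ∈ I, (Φ i).HasEigenvalue (α i))
    (hpure : ∀ i ∈ I, ‖α i‖ ^ 2 = (Fintype.card κ : ℝ) ^ n i)
    {β : ℂ} (hβ : IsAlgebraic ℚ β) (hβ0 : β ≠ 0) {t : ℕ} (ht : 0 < t)
    (hdeg : (minpoly ℚ (β ^ t)).natDegree ≤ D) {e m w : ℕ}
    (hm : 0 < m) (heq : ((∏ i ∈ I, α i) * (Fintype.card κ : ℂ) ^ e * β) ^ m =
      (Fintype.card κ : ℂ) ^ (m * w)) : False := by
  classical
  have hq : 1 < Fintype.card κ := Fintype.one_lt_card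
  have hq1 : (1 : ℝ) < Fintype.card κ := by exact_mod_cast hq
  have hq0 : (0 : ℝ) < Fintype.card κ := by linarith
  have hα0 : ∀ i ∈ I, α i ≠ 0 := by
    intro i hi h0
    have h1 := hpure i hi
    rw [h0, norm_zero, zero_pow two_ne_zero] at h1
    exact (pow_pos hq0 (n i)).ne h1
  obtain ⟨hx, hfe⟩ := all_small hN hd hdN κ hf hz l a ha h hsmall (hβ.pow t) hdeg hI hα hα0
  have hβA : β ∈ AA := mem_algebraicClosure_iff.mpr hβ
  set Q := ‖((Fintype.card κ : ℕ) : PadicAlgCl c)‖ with hQ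
  have hQ0 : 0 < Q := norm_card_pos (c := c) (L := κ)
  -- the product does not depend on the automorphism
  have key : ∀ fe : AA →+* PadicAlgCl c,
      (∏ i ∈ I.attach, ‖fe ⟨α i.1, hx i.1 i.2⟩‖) ^ 2 < Q ^ (∑ i ∈ I, n i) := by
    intro fe
    obtain ⟨γ, hγ, hlt⟩ := hfe fe
    have h1 := rel_emb hx hβA hm heq fe
    have h2 := rel_emb hx hβA hm heq (fe.comp (res γ))
    have h3 : ‖(fe.comp (res γ)) ⟨β, hβA⟩‖ = ‖fe ⟨β, hβA⟩‖ := by
      have h4 : (res γ ⟨β, hβA⟩) ^ t = (⟨β, hβA⟩ : AA) ^ t := by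
        apply Subtype.ext
        rw [SubmonoidClass.coe_pow, SubmonoidClass.coe_pow, res_coe, ← map_pow]
        exact hγ
      have h5 := congrArg (fun x => ‖fe x‖) h4
      simp only [map_pow, norm_pow] at h5
      exact (pow_left_inj₀ (norm_nonneg _) (norm_nonneg _) ht.ne').1 h5
    have hβ1 : ‖fe ⟨β, hβA⟩‖ ≠ 0 := by
      rw [norm_ne_zero_iff, Ne, map_eq_zero]
      intro h0
      exact hβ0 (congrArg Subtype.val h0)
    have h4 : (∏ i ∈ I.attach, ‖(fe.comp (res γ)) ⟨α i.1, hx i.1 i.2⟩‖) =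
        ∏ i ∈ I.attach, ‖fe ⟨α i.1, hx i.1 i.2⟩‖ := by
      rw [h3, ← h1] at h2
      exact mul_right_cancel₀ (pow_ne_zero _ hQ0.ne') (mul_right_cancel₀ hβ1 h2)
    rw [← h4]
    exact hlt
  obtain ⟨fe⟩ : Nonempty (AA →+* PadicAlgCl c) := by
    have : Algebra.IsAlgebraic ℚ AA := algebraicClosure.isAlgebraic ℚ ℂ
    exact ⟨((IsAlgClosed.lift : AA →ₐ[ℚ] PadicAlgCl c) : AA →+* PadicAlgCl c)⟩
  have k1 := key fe
  have k2 := key (fe.comp cj)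
  have h1 : (∏ i ∈ I.attach, ‖fe ⟨α i.1, hx i.1 i.2⟩‖) *
      (∏ i ∈ I.attach, ‖(fe.comp cj) ⟨α i.1, hx i.1 i.2⟩‖) = Q ^ (∑ i ∈ I, n i) := by
    rw [← prod_mul_distrib, ← prod_pow_eq_pow_sum, ← prod_attach I (fun i => Q ^ n i)]
    refine prod_congr rfl fun i _ => ?_
    rw [← norm_mul, RingHom.comp_apply, ← map_mul]
    have h2 : (⟨α i.1, hx i.1 i.2⟩ : AA) * cj ⟨α i.1, hx i.1 i.2⟩ =
        ((Fintype.card κ : ℕ) : AA) ^ n i.1 := by
      apply Subtype.ext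
      push_cast
      change α i.1 * starRingEnd ℂ (α i.1) = _
      rw [Complex.mul_conj, Complex.normSq_eq_norm_sq, hpure i.1 i.2]
      push_cast
      rfl
    rw [h2, map_pow, map_natCast, norm_pow]
  have h2 := mul_lt_mul'' k1 k2 (sq_nonneg _) (sq_nonneg _)
  rw [← mul_pow, h1, ← pow_two] at h2
  exact lt_irrefl _ h2

/-- A power of the number has degree at most `D`. -/
def HasPowerOfDegree (D : ℕ) (β : ℂ) : Prop := ∃ t : ℕ, 0 < t ∧ (minpoly ℚ (β ^ t)).natDegree ≤ D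

omit hN hd hdN hf hz ha in
theorem ne_zero_of_weight {q j : ℕ} (hq : 0 < q) {β : ℂ} (h : ‖β‖ ^ 2 = (q : ℝ) ^ j) : β ≠ 0 := by
  rintro rfl
  rw [norm_zero, zero_pow two_ne_zero] at h
  have : (0 : ℝ) < (q : ℝ) ^ j := pow_pos (by exact_mod_cast hq) j
  linarith

/-- No resonances. -/
theorem nores {W : ι → Type} [∀ i, AddCommGroup (W i)] [∀ i, Module ℂ (W i)]
    [∀ i, FiniteDimensional ℂ (W i)] {Φ g : ∀ i, Module.End ℂ (W i)}
    (h : ∀ i, IsCov (d i) (l i) (a i) (z i) (Φ i) (g i)) (hsmall : SmallB c f N D d n s a)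
    (hpure : ∀ i (α : ℂ), (Φ i).HasEigenvalue α → ‖α‖ ^ 2 = (Fintype.card κ : ℝ) ^ n i)
    {B : Type} [AddCommGroup B] [Module ℂ B] {ΦB : Module.End ℂ B}
    (hB : ∀ β, ΦB.HasEigenvalue β →
      IsAlgebraic ℚ β ∧ ∃ j : ℕ, ‖β‖ ^ 2 = (Fintype.card κ : ℝ) ^ j)
    (hdeg : ∀ β, ΦB.HasEigenvalue β → HasPowerOfDegree D β) :
    NoRes (Fintype.card κ) Φ ΦB := by
  intro I hI α hα β hβ e m w hm heq
  obtain ⟨hβa, j, hβj⟩ := hB β hβ
  obtain ⟨t, ht, hdt⟩ := hdeg β hβ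
  exact core hN hd hdN κ hf hz l a ha h hsmall hI hα (fun i hi => hpure i _ (hα i hi)) hβa
    (ne_zero_of_weight Fintype.card_pos hβj) ht hdt hm heq

/-- No resonances, over any coefficient field. -/
theorem noresF {K : Type} [Field K] [CharZero K] (σ₀ : K →+* ℂ)
    {T : ι → Type} [∀ i, AddCommGroup (T i)] [∀ i, Module K (T i)]
    [∀ i, FiniteDimensional K (T i)] {Φ g : ∀ i, Module.End K (T i)}
    (h : ∀ i, IsCov (d i) (l i) (a i) (z i) (Φ i) (g i)) (hsmall : SmallB c f N D d n s a)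
    (hpure : ∀ i α, (Φ i).HasEigenvalue α → ‖σ₀ α‖ ^ 2 = (Fintype.card κ : ℝ) ^ n i)
    {SZ : Set K} (hZ : ∀ β ∈ SZ, IsAlgebraic ℚ (σ₀ β) ∧
      ∃ j : ℕ, ‖σ₀ β‖ ^ 2 = (Fintype.card κ : ℝ) ^ j)
    (hdeg : ∀ β ∈ SZ, HasPowerOfDegree D (σ₀ β)) :
    NoResF (Fintype.card κ : K) (fun i => {α | (Φ i).HasEigenvalue α}) SZ := by
  intro I hI α hα β hβ e m w hm heq
  have h1 : ∀ i, ∃ (T' : Type) (_ : AddCommGroup T') (_ : Module ℂ T')
      (_ : FiniteDimensional ℂ T') (Φ' τ' : Module.End ℂ T'), IsCov (d i) (l i) (a i) (z i) Φ' τ' ∧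
        ∀ α, (Φ i).HasEigenvalue α → Φ'.HasEigenvalue (σ₀ α) :=
    fun i => exists_bc (by have := hd i; omega) (h i) σ₀
  choose T' i1 i2 i3 Φ' τ' h2 h3 using h1
  have heq' : ((∏ i ∈ I, σ₀ (α i)) * (Fintype.card κ : ℂ) ^ e * σ₀ β) ^ m =
      (Fintype.card κ : ℂ) ^ (m * w) := by
    have h4 := congrArg σ₀ heq
    simpa only [map_mul, map_pow, map_prod, map_natCast] using h4
  obtain ⟨hβ1, j, hβj⟩ := hZ β hβ
  obtain ⟨t, ht, hdt⟩ := hdeg β hβ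
  exact core hN hd hdN κ hf hz l a ha h2 hsmall hI (α := fun i => σ₀ (α i))
    (fun i hi => h3 i _ (hα i hi)) (fun i hi => hpure i _ (hα i hi)) hβ1
    (ne_zero_of_weight Fintype.card_pos hβj) ht hdt hm heq'

end

end Run7.h306.TE
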