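import Pool.Agent.Run7.h306.TE2

/-!
# The condition on the exponents for pairwise coprime degrees
-/

set_option autoImplicit false

namespace Run7.h306.TE

open Finset

/-- The condition on the exponents for one covering. -/
def SmallOne (c f N D n s : ℕ) (a : Fin s → ℕ) : Prop :=
  ∀ H : Subgroup (ZMod N)ˣ, H.index ≤ D → ∀ j : ℕ, ¬ N ∣ j → ∃ u ∈ H,
    2 * ∑ k, ∑ t ∈ range f, (((u : (ZMod N)ˣ) : ZMod N).val * j * a k * c ^ t) % N <
      f * N * (n + 2)

theorem smallB_of_coprime {ι : Type} [Fintype ι] {c f D : ℕ} {d n s : ι → ℕ}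
    {a : ∀ i, Fin (s i) → ℕ} (hd : ∀ i, 0 < d i)
    (hco : ∀ i i', i ≠ i' → (d i).Coprime (d i'))
    (h : ∀ i, SmallOne c f (d i) D (n i) (s i) (a i)) : SmallB c f (∏ i, d i) D d n s a := by
  classical
  intro H hH I hI j hj
  have hP : Pairwise (Function.onFun Nat.Coprime d) := fun i i' h => hco i i' h
  have hN : 0 < ∏ i, d i := prod_pos fun i _ => hd i
  have _ : NeZero (∏ i, d i) := ⟨hN.ne'⟩
  have _ : ∀ i, NeZero (d i) := fun i => ⟨(hd i).ne'⟩
  let E := ZMod.prodEquivPi d hP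
  let EU : (ZMod (∏ i, d i))ˣ ≃* (∀ i, (ZMod (d i))ˣ) :=
    (Units.mapEquiv E.toMulEquiv).trans MulEquiv.piUnits
  have hEU : ∀ (u : (ZMod (∏ i, d i))ˣ) i, ((EU u i : (ZMod (d i))ˣ) : ZMod (d i)) =
      ZMod.castHom (dvd_prod_of_mem d (mem_univ i)) (ZMod (d i)) (u : ZMod (∏ i, d i)) := by
    intro u i
    exact ZMod.prodEquivPi_apply d hP (u : ZMod (∏ i, d i)) i
  let em : ∀ i, (ZMod (d i))ˣ →* (ZMod (∏ i, d i))ˣ := fun i =>
    EU.symm.toMonoidHom.comp (MonoidHom.mulSingle (fun i => (ZMod (d i))ˣ) i)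
  have hidx : ∀ i, (H.comap (em i)).index ≤ D := by
    intro i
    rw [Subgroup.index_comap]
    refine (Nat.le_of_dvd (Nat.pos_of_ne_zero ?_)
      (Subgroup.relIndex_dvd_index_of_normal (H := H) (K := (em i).range))).trans hH
    exact Subgroup.FiniteIndex.index_ne_zero
  have hch : ∀ i (hi : i ∈ I), ∃ u ∈ H.comap (em i),
      2 * ∑ k, ∑ t ∈ range f, (((u : (ZMod (d i))ˣ) : ZMod (d i)).val * j i * a i k * c ^ t) % d i <
        f * d i * (n i + 2) := fun i hi => h i _ (hidx i) (j i) (hj i hi)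
  choose v hv1 hv2 using hch
  obtain ⟨u, hu⟩ : ∃ u : (ZMod (∏ i, d i))ˣ, u = ∏ i ∈ I.attach, em i.1 (v i.1 i.2) := ⟨_, rfl⟩
  have huH : u ∈ H := by
    rw [hu]
    exact Subgroup.prod_mem _ fun i _ => hv1 i.1 i.2
  have hui : ∀ i (hi : i ∈ I), EU u i = v i hi := by
    intro i hi
    rw [hu, map_prod, Finset.prod_apply, prod_eq_single (⟨i, hi⟩ : I)]
    · change EU (EU.symm (Pi.mulSingle i (v i hi))) i = _
      rw [MulEquiv.apply_symm_apply, Pi.mulSingle_eq_same]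
    · intro b _ hb
      change EU (EU.symm (Pi.mulSingle b.1 (v b.1 b.2))) i = _
      rw [MulEquiv.apply_symm_apply, Pi.mulSingle_eq_of_ne]
      intro h0
      exact hb (Subtype.ext h0.symm)
    · intro h0
      exact absurd (mem_attach _ _) h0
  have hmod : ∀ i (hi : i ∈ I), (u : ZMod (∏ i, d i)).val ≡ (v i hi : ZMod (d i)).val [MOD d i] := by
    intro i hi
    rw [← ZMod.natCast_eq_natCast_iff, ZMod.natCast_zmod_val, ← hui i hi, hEU]
    rw [ZMod.castHom_apply, ZMod.natCast_val]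
  refine ⟨u, huH, ?_⟩
  rw [mul_sum, mul_sum]
  refine sum_lt_sum_of_nonempty hI fun i hi => ?_
  have h1 : ∑ k, ∑ t ∈ range f, ((u : ZMod (∏ i, d i)).val * j i * a i k * c ^ t) % d i =
      ∑ k, ∑ t ∈ range f, ((v i hi : ZMod (d i)).val * j i * a i k * c ^ t) % d i := by
    refine sum_congr rfl fun k _ => sum_congr rfl fun t _ => ?_
    exact (((hmod i hi).mul_right _).mul_right _).mul_right _
  rw [h1]
  have h2 := hv2 i hi
  have h3 : (∏ i, d i) / d i * d i = ∏ i, d i := Nat.div_mul_cancel (dvd_prod_of_mem d (mem_univ i))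
  have h4 : 0 < (∏ i, d i) / d i := Nat.div_pos (Nat.le_of_dvd hN (dvd_prod_of_mem d (mem_univ i)))
    (hd i)
  calc 2 * ((∏ i, d i) / d i * ∑ k, ∑ t ∈ range f,
        ((v i hi : ZMod (d i)).val * j i * a i k * c ^ t) % d i)
      = (∏ i, d i) / d i * (2 * ∑ k, ∑ t ∈ range f,
        ((v i hi : ZMod (d i)).val * j i * a i k * c ^ t) % d i) := by ring
    _ < (∏ i, d i) / d i * (f * d i * (n i + 2)) := Nat.mul_lt_mul_of_pos_left h2 h4
    _ = f * ((∏ i, d i) / d i * d i) * (n i + 2) := by ring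
    _ = f * (∏ i, d i) * (n i + 2) := by rw [h3]

end Run7.h306.TE
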