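import Pool.Agent.Run7.h306.HF6
import Pool.Agent.Run7.h306.HF5
import Pool.Agent.N214.HB.Gauss

/-!
# Stickelberger's theorem for products of a number and of Gauss sums
-/

set_option autoImplicit false

open Finset Pool.Agent.Y145.DI Pool.Agent.N214.HB Pool.Agent.H916R2 Run7.h306.HF

namespace Run7.h306.TF

/-- The restriction of an automorphism of `ℂ` to the algebraic numbers. -/
noncomputable def restr (τ : ℂ ≃+* ℂ) : algebraicClosure ℚ ℂ →+* algebraicClosure ℚ ℂ :=
  (τ : ℂ →+* ℂ).restrict (algebraicClosure ℚ ℂ) (algebraicClosure ℚ ℂ) (by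
    intro x hx
    rw [mem_algebraicClosure_iff] at hx ⊢
    exact IsAlgebraic.algHom (τ : ℂ →+* ℂ).toRatAlgHom hx)

theorem coe_restr (τ : ℂ ≃+* ℂ) (x : algebraicClosure ℚ ℂ) :
    ((restr τ x : algebraicClosure ℚ ℂ) : ℂ) = τ x := rfl

section

variable {κ : Type} [Field κ] [Fintype κ] {c N : ℕ} [Fact c.Prime] [CharP κ c] [NeZero N]

/-- **Stickelberger's theorem** for a relation between a number and Gauss sums. -/
theorem rel_norm (hN : N ∣ Fintype.card κ - 1) (θ : MulChar κ ℂ) (hθ : orderOf θ = N)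
    (ψ : AddChar κ ℂ) (hψ : ψ ≠ 1) (F : ℕ) (hF : Fintype.card κ = c ^ F) :
    ∃ σ : algebraicClosure ℚ ℂ →+* PadicAlgCl c, ∀ {ι : Type} (s : Finset ι) (x : ι → ZMod N)
      (_ : ∀ i ∈ s, x i ≠ 0) (ρ : algebraicClosure ℚ ℂ) (a r e : ℕ) (_ : 0 < e)
      (_ : ((ρ : ℂ) * (Fintype.card κ : ℂ) ^ a *
        ∏ i ∈ s, gaussSum (θ ^ (x i).val) ψ) ^ e = ((Fintype.card κ : ℂ) ^ r) ^ e)
      (τ : ℂ ≃+* ℂ),
      ‖σ (restr τ ρ)‖ ^ N * ‖((c : ℕ) : PadicAlgCl c)‖ ^ (F * a * N +
        ∑ i ∈ s, expo c N F (((cyc N τ : ZMod N) * x i).val)) =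
        ‖((c : ℕ) : PadicAlgCl c)‖ ^ (F * r * N) := by
  classical
  have hm : 0 < N := Nat.pos_of_ne_zero (NeZero.ne N)
  have hF0 : 0 < F := by
    rcases Nat.eq_zero_or_pos F with h | h
    · rw [h, pow_zero] at hF
      have : 1 < Fintype.card κ := Fintype.one_lt_card
      omega
    · exact h
  obtain ⟨w, ψp, hψp, hψc, hw, ho⟩ := exists_wp (p := c) κ
  set T : MulChar κ (PadicAlgCl c) := w ^ ((Fintype.card κ - 1) / N) with hT
  obtain ⟨g, hg⟩ := IsCyclic.exists_generator (α := κˣ)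
  have hTo : orderOf T = N := by
    have hQ1 : 1 < Fintype.card κ := Fintype.one_lt_card
    have hd : (Fintype.card κ - 1) / N ≠ 0 := by
      have := Nat.div_pos (Nat.le_of_dvd (by omega) hN) hm
      omega
    rw [hT, orderOf_pow_of_dvd hd (by rw [ho]; exact Nat.div_dvd_of_dvd hN), ho,
      Nat.div_div_self hN (by omega)]
  have hTm : T ^ N = 1 := by rw [← hTo, pow_orderOf_eq_one]
  have hTg : IsPrimitiveRoot (T (g : κ)) N := by
    refine IsPrimitiveRoot.mk_of_lt _ hm ?_ ?_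
    · rw [← MulChar.pow_apply_coe, hTm, MulChar.one_apply_coe]
    · intro l hl0 hl h2
      have h3 : T ^ l = 1 := by
        apply mulChar_ext_gen hg
        rw [MulChar.pow_apply_coe, h2, MulChar.one_apply_coe]
      exact absurd (orderOf_le_of_pow_eq_one hl0 h3) (by omega)
  obtain ⟨σ, hσ⟩ := exists_sigma (p := c) hθ hg hTg.inv
  refine ⟨σ, ?_⟩
  intro ι s x hx ρ a r e he h τ
  have hθg : (θ (g : κ)) ^ N = 1 := by
    rw [← MulChar.pow_apply_coe, ← hθ, pow_orderOf_eq_one, MulChar.one_apply_coe]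
  set στ : algebraicClosure ℚ ℂ →+* PadicAlgCl c := σ.comp (restr τ) with hστ
  set v := (cyc N τ : ZMod N).val with hv
  set ψs : AddChar κ (PadicAlgCl c) := (στ : _ →* PadicAlgCl c).compAddChar (liftPsi ψ) with hψs
  obtain ⟨c0, hc0⟩ := exists_shift (ψ' := ψs) hψp
  have hc00 : c0 ≠ 0 := by
    rintro rfl
    rw [AddChar.mulShift_zero] at hc0
    apply hψ
    ext y
    have h1 : στ (liftPsi ψ y) = 1 := by
      have := congrArg (fun f : AddChar κ (PadicAlgCl c) => f y) hc0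
      simpa [hψs] using this
    have h2 : liftPsi ψ y = 1 := στ.injective (h1.trans (map_one στ).symm)
    exact congrArg Subtype.val h2
  have hchi : (liftChi θ).ringHomComp στ = (T ^ v)⁻¹ := by
    apply mulChar_ext_gen hg
    rw [MulChar.ringHomComp_apply, MulChar.inv_apply_eq_inv']
    have h1 : restr τ (liftChi θ g) = (liftChi θ g) ^ v := by
      apply Subtype.ext
      rw [coe_restr]
      have h2 := cyc_spec (n := N) τ hθg
      exact h2
    rw [hστ, RingHom.comp_apply, h1, map_pow, hσ, inv_pow]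
    congr 1
    exact (MulChar.pow_apply_coe T v g).symm
  have hgs : ∀ a : ZMod N, στ (gaussSum (liftChi (θ ^ a.val)) (liftPsi ψ))
      = gaussSum ((T ^ ((cyc N τ : ZMod N) * a).val)⁻¹) ψs := by
    intro a
    rw [map_gauss, liftChi_pow]
    congr 1
    rw [← MulChar.ringHomComp_pow, hchi, inv_pow, ← pow_mul]
    congr 1
    rw [pow_eq_pow_iff_modEq, hTo]
    rw [← ZMod.natCast_eq_natCast_iff]
    push_cast
    simp only [hv, ZMod.natCast_zmod_val]
  -- the equation in the p-adic field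
  have h1 : (ρ * (Fintype.card κ : algebraicClosure ℚ ℂ) ^ a *
      ∏ i ∈ s, gaussSum (liftChi (θ ^ (x i).val)) (liftPsi ψ)) ^ e
      = ((Fintype.card κ : algebraicClosure ℚ ℂ) ^ r) ^ e := by
    apply (algebraicClosure ℚ ℂ).val.injective
    rw [map_pow, map_pow, map_pow, map_natCast, map_mul, map_mul, map_pow, map_natCast,
      map_prod, ← h]
    congr 2
    exact prod_congr rfl fun i _ => coe_gauss _ _
  have h3 : (στ ρ * (Fintype.card κ : PadicAlgCl c) ^ a *
      ∏ i ∈ s, gaussSum ((T ^ ((cyc N τ : ZMod N) * x i).val)⁻¹) ψs) ^ e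
      = ((Fintype.card κ : PadicAlgCl c) ^ r) ^ e := by
    have h4 := congrArg στ h1
    rw [map_pow, map_pow, map_pow, map_natCast, map_mul, map_mul, map_pow, map_natCast,
      map_prod, prod_congr rfl fun i _ => hgs (x i)] at h4
    exact h4
  have h2 : ‖στ ρ‖ * ‖((c : ℕ) : PadicAlgCl c)‖ ^ (F * a) *
      ∏ i ∈ s, ‖gaussSum ((T ^ ((cyc N τ : ZMod N) * x i).val)⁻¹) ψp‖
      = ‖((c : ℕ) : PadicAlgCl c)‖ ^ (F * r) := by
    have h4 := congrArg norm h3
    rw [norm_pow, norm_pow] at h4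
    have h5 := (pow_left_inj₀ (norm_nonneg _) (norm_nonneg _) he.ne').1 h4
    rw [norm_mul, norm_mul, norm_prod, norm_pow, norm_pow, hF] at h5
    push_cast at h5
    rw [norm_pow, ← pow_mul, ← pow_mul] at h5
    rw [← h5]
    congr 1
    refine prod_congr rfl fun i _ => ?_
    rw [hc0, norm_gauss_shift _ _ hc00]
  have h4 : ∀ i ∈ s, ‖gaussSum ((T ^ ((cyc N τ : ZMod N) * x i).val)⁻¹) ψp‖ ^ N
      = ‖((c : ℕ) : PadicAlgCl c)‖ ^ expo c N F (((cyc N τ : ZMod N) * x i).val) := by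
    intro i hi
    have ha0 : (cyc N τ : ZMod N) * x i ≠ 0 := by
      intro h5
      exact hx i hi ((Units.mul_right_eq_zero (cyc N τ)).1 h5)
    exact norm_gauss_eq w ψp hψp hψc hw ho hF hN hF0 _
      (Nat.pos_of_ne_zero fun h5 => ha0 ((ZMod.val_eq_zero _).1 h5)) (ZMod.val_lt _)
  have h6 := congrArg (fun x => x ^ N) h2
  simp only [mul_pow, ← prod_pow] at h6
  rw [prod_congr rfl h4, ← pow_mul, ← pow_mul, prod_pow_eq_pow_sum] at h6
  rw [pow_add, ← mul_assoc]
  exact h6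

end

end Run7.h306.TF
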