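import Pool.Agent.Run7.h306.TF1
import Pool.Agent.Run7.h306.HF7

/-!
# The slope function
-/

set_option autoImplicit false

open Finset Pool.Agent.Y145.DI Pool.Agent.N214.HB Pool.Agent.H916R2 Run7.h306.HF

namespace Run7.h306.TF

/-- The slope function. -/
def EE (c F : ℕ) {N : ℕ} {ι : Type} (s : Finset ι) (x : ι → ZMod N) (t : ZMod N) : ℤ :=
  ∑ i ∈ s, ∑ j ∈ range F, saw ((c : ZMod N) ^ j * (t * x i))

theorem EE_neg (c F : ℕ) {N : ℕ} [NeZero N] {ι : Type} (s : Finset ι) (x : ι → ZMod N)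
    (t : ZMod N) : EE c F s x (-t) = - EE c F s x t := by
  unfold EE
  rw [← sum_neg_distrib]
  refine sum_congr rfl fun i _ => ?_
  rw [← sum_neg_distrib]
  refine sum_congr rfl fun j _ => ?_
  rw [neg_mul, mul_neg, saw_neg]

section

variable {κ : Type} [Field κ] [Fintype κ] {c N : ℕ} [Fact c.Prime] [CharP κ c] [NeZero N]

omit [Fintype κ] [CharP κ c] [NeZero N] in
theorem expo_saw (hc : c.Coprime N) (F : ℕ) {a : ZMod N} (ha : a ≠ 0) :
    ∑ j ∈ range F, saw ((c : ZMod N) ^ j * a) = 2 * (expo c N F a.val : ℤ) - F * N := by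
  have h1 : ∀ j, saw ((c : ZMod N) ^ j * a) = 2 * (((a.val * c ^ j) % N : ℕ) : ℤ) - N := by
    intro j
    have hu : IsUnit ((c : ZMod N) ^ j) := ((ZMod.isUnit_iff_coprime c N).2 hc).pow j
    have h2 : (c : ZMod N) ^ j * a ≠ 0 := by
      intro h
      exact ha ((hu.mul_right_eq_zero).1 h)
    unfold saw
    rw [if_neg h2]
    congr 3
    have h3 : (c : ZMod N) ^ j * a = ((a.val * c ^ j : ℕ) : ZMod N) := by
      have : NeZero N := ⟨by
        rintro rfl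
        have := Nat.Coprime.eq_one_of_dvd hc (dvd_zero c)
        exact (Fact.out : c.Prime).one_lt.ne' this⟩
      push_cast
      rw [ZMod.natCast_zmod_val, mul_comm]
    rw [h3, ZMod.val_natCast]
  rw [sum_congr rfl fun j _ => h1 j, sum_sub_distrib, ← mul_sum, sum_const, card_range,
    nsmul_eq_mul, expo]
  push_cast
  ring

theorem norm_gauss_sq (χ : MulChar κ ℂ) (hχ : χ ≠ 1) (ψ : AddChar κ ℂ) (hψ : ψ ≠ 1) :
    ‖gaussSum χ ψ‖ ^ 2 = Fintype.card κ := by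
  have h1 := gaussSum_mul_gaussSum_eq_card hχ (AddChar.IsPrimitive.of_ne_one hψ)
  have h2 : (starRingEnd ℂ) (gaussSum χ ψ) = gaussSum χ⁻¹ ψ⁻¹ := by
    simp only [gaussSum, map_sum, map_mul]
    refine sum_congr rfl fun y _ => ?_
    congr 1
    · exact MulChar.star_apply' χ y
    · rw [AddChar.inv_apply]
      exact (AddChar.map_neg_eq_conj ψ y).symm
  rw [← h2, Complex.mul_conj] at h1
  have h3 : Complex.normSq (gaussSum χ ψ) = Fintype.card κ := by exact_mod_cast h1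
  rw [← h3, Complex.normSq_eq_norm_sq]

theorem weight_eq (θ : MulChar κ ℂ) (hθ : orderOf θ = N)
    (ψ : AddChar κ ℂ) (hψ : ψ ≠ 1) {ι : Type} (s : Finset ι) (x : ι → ZMod N)
    (hx : ∀ i ∈ s, x i ≠ 0) {ρ : ℂ} {a r e w : ℕ} (he : 0 < e)
    (h : (ρ * (Fintype.card κ : ℂ) ^ a *
        ∏ i ∈ s, gaussSum (θ ^ (x i).val) ψ) ^ e = ((Fintype.card κ : ℂ) ^ r) ^ e)
    (hw : ‖ρ‖ ^ 2 = (Fintype.card κ : ℝ) ^ w) : w + 2 * a + s.card = 2 * r := by
  have h1 := congrArg norm h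
  rw [norm_pow, norm_pow] at h1
  have h2 := (pow_left_inj₀ (norm_nonneg _) (norm_nonneg _) he.ne').1 h1
  rw [norm_mul, norm_mul, norm_prod, norm_pow, norm_pow, Complex.norm_natCast] at h2
  have h3 := congrArg (fun x => x ^ 2) h2
  simp only [mul_pow, ← prod_pow] at h3
  have hne : ∀ i ∈ s, θ ^ (x i).val ≠ 1 := by
    intro i hi h4
    have h5 := orderOf_dvd_of_pow_eq_one h4
    rw [hθ] at h5
    have h6 := Nat.eq_zero_of_dvd_of_lt h5 (ZMod.val_lt _)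
    exact hx i hi ((ZMod.val_eq_zero _).1 h6)
  rw [hw, prod_congr rfl fun i hi => norm_gauss_sq _ (hne i hi) ψ hψ, prod_const, ← pow_mul,
    ← pow_mul, ← pow_add, ← pow_add] at h3
  have hq : (1 : ℝ) < Fintype.card κ := by exact_mod_cast Fintype.one_lt_card
  have h7 := pow_right_injective₀ (by linarith) hq.ne' h3
  omega

/-- The norm of the conjugates of `ρ`. -/
theorem rel_zpow (hN : N ∣ Fintype.card κ - 1) (θ : MulChar κ ℂ) (hθ : orderOf θ = N)
    (ψ : AddChar κ ℂ) (hψ : ψ ≠ 1) (F : ℕ) (hF : Fintype.card κ = c ^ F) :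
    ∃ σ : algebraicClosure ℚ ℂ →+* PadicAlgCl c, ∀ {ι : Type} (s : Finset ι) (x : ι → ZMod N)
      (_ : ∀ i ∈ s, x i ≠ 0) (ρ : algebraicClosure ℚ ℂ) (a r e w : ℕ) (_ : 0 < e)
      (_ : ((ρ : ℂ) * (Fintype.card κ : ℂ) ^ a *
        ∏ i ∈ s, gaussSum (θ ^ (x i).val) ψ) ^ e = ((Fintype.card κ : ℂ) ^ r) ^ e)
      (_ : ‖(ρ : ℂ)‖ ^ 2 = (Fintype.card κ : ℝ) ^ w)
      (τ : ℂ ≃+* ℂ),
      ‖σ (restr τ ρ)‖ ^ (2 * N) =
        ‖((c : ℕ) : PadicAlgCl c)‖ ^ ((F * N * w : ℤ) - EE c F s x (cyc N τ)) := by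
  obtain ⟨σ, hσ⟩ := rel_norm hN θ hθ ψ hψ F hF
  refine ⟨σ, ?_⟩
  intro ι s x hx ρ a r e w he h hw τ
  have h1 := hσ s x hx ρ a r e he h τ
  have h2 := weight_eq θ hθ ψ hψ s x hx he h hw
  obtain ⟨hL0, hL1⟩ := norm_p_lt (p := c)
  have hcN : c.Coprime N := by
    rw [Nat.Prime.coprime_iff_not_dvd Fact.out]
    intro h3
    have h4 : c ∣ Fintype.card κ - 1 := h3.trans hN
    have hF0 : F ≠ 0 := by
      rintro rfl
      rw [pow_zero] at hF
      have : 1 < Fintype.card κ := Fintype.one_lt_card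
      omega
    have h5 : c ∣ Fintype.card κ := by
      rw [hF]
      exact dvd_pow_self c hF0
    have hQ1 : 1 < Fintype.card κ := Fintype.one_lt_card
    have h10 : c ∣ 1 := (Nat.dvd_sub_iff_right hQ1.le h5).1 h4
    exact (Fact.out : c.Prime).one_lt.ne' (Nat.dvd_one.1 h10)
  have hEE : EE c F s x (cyc N τ) =
      2 * ((∑ i ∈ s, expo c N F (((cyc N τ : ZMod N) * x i).val) : ℕ) : ℤ) -
        F * N * s.card := by
    unfold EE
    rw [sum_congr rfl fun i hi => expo_saw hcN F (fun h5 => hx i hi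
      ((Units.mul_right_eq_zero (cyc N τ)).1 h5)), sum_sub_distrib, ← mul_sum, sum_const,
      nsmul_eq_mul]
    push_cast
    ring
  set L := ‖((c : ℕ) : PadicAlgCl c)‖
  set X := ∑ i ∈ s, expo c N F (((cyc N τ : ZMod N) * x i).val)
  set Y := ‖σ (restr τ ρ)‖
  have h3 : Y ^ (2 * N) * L ^ ((2 * (F * a * N + X) : ℕ) : ℤ) = L ^ ((2 * (F * r * N) : ℕ) : ℤ) := by
    have h4 := congrArg (fun y => y ^ 2) h1
    simp only [mul_pow, ← pow_mul] at h4
    rw [zpow_natCast, zpow_natCast, mul_comm 2 N, mul_comm 2 (F * a * N + X),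
      mul_comm 2 (F * r * N)]
    exact h4
  have h5 : Y ^ (2 * N) = L ^ ((2 * (F * r * N) : ℕ) : ℤ) / L ^ ((2 * (F * a * N + X) : ℕ) : ℤ) := by
    rw [eq_div_iff (zpow_ne_zero _ hL0.ne')]
    exact h3
  rw [h5, ← zpow_sub₀ hL0.ne']
  congr 1
  rw [hEE]
  have h6 : (w : ℤ) + 2 * a + s.card = 2 * r := by exact_mod_cast h2
  push_cast
  have h7 : (F : ℤ) * N * (w + 2 * a + s.card) = F * N * (2 * r) := by rw [h6]
  linarith

end

end Run7.h306.TF
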