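import Pool.Agent.Run7.h306.HF10
import Pool.Agent.Run7.h306.TF2

/-!
# The slopes vanish
-/

set_option autoImplicit false

open Finset Pool.Agent.H916R2 Pool.Agent.Y1.HZ Run7.h306.HF

namespace Run7.h306.TF

variable {J : Type} [Fintype J] {m n : J → ℕ} [∀ j, NeZero (m j)]

/-- **The vanishing of the types.** -/
theorem vanish' {ε c : ℝ} (hc : ∀ (p K : ℕ) [Fact p.Prime] {ι : Type} (s : Finset ι)
      (x : ι → ZMod (p ^ K))
      (_ : ∀ i ∈ s, x i ≠ 0) (H : Subgroup (ZMod (p ^ K))ˣ)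
      (_ : ∀ h ∈ H, ∀ t : (ZMod (p ^ K))ˣ, ∑ i ∈ s, saw (((h * t : (ZMod (p ^ K))ˣ) :
        ZMod (p ^ K)) * x i) = ∑ i ∈ s, saw ((t : ZMod (p ^ K)) * x i)) (M : ℝ)
      (_ : ∀ t : (ZMod (p ^ K))ˣ, |((∑ i ∈ s, saw ((t : ZMod (p ^ K)) * x i) : ℤ) : ℝ)| ≤
        ((p ^ K : ℕ) : ℝ) * M)
      (_ : ∃ t : (ZMod (p ^ K))ˣ, ∑ i ∈ s, saw ((t : ZMod (p ^ K)) * x i) ≠ 0),
      c * (p : ℝ) ^ (1 - 2 * ε) ≤ H.index * M ^ 2)
    {B D : ℕ}
    {q K : ℕ} [hq : Fact q.Prime] (hm : PP m q K) (hlarge : (B : ℝ) * D ^ 2 < c * (q : ℝ) ^ (1 - 2 * ε))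
    (b : ∀ j, Label (m j) (n j)) (hlev : ∀ σ : ℂ ≃+* ℂ, |tot b σ| ≤ D)
    (hfin : (Set.range (dd (fun σ => - tot b σ))).Finite)
    (hcard : (Set.range (dd (fun σ => - tot b σ))).ncard ≤ B) (t : (ZMod (q ^ K))ˣ) :
    part b (q ^ K) t = 0 := by
  classical
  have hN0 : (0 : ℤ) < ((q ^ K : ℕ) : ℤ) := by exact_mod_cast pow_pos hq.out.pos K
  have hpart : ∀ t, |part b (q ^ K) t| ≤ D := by
    intro t
    obtain ⟨σ₁, σ₂, h1, h2, h3⟩ := rest_pm b hm t
    have h4 := hlev σ₁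
    have h5 := hlev σ₂
    rw [tot_eq b (q ^ K), h1] at h4
    rw [tot_eq b (q ^ K), h2, h3] at h5
    rw [abs_le] at h4 h5 ⊢
    constructor <;> omega
  -- the stabilizer
  let S : Subgroup (ZMod (q ^ K))ˣ :=
    { carrier := {h | ∀ t, part b (q ^ K) (h * t) = part b (q ^ K) t}
      mul_mem' := by
        intro h h' hh hh' t
        rw [mul_assoc, hh, hh']
      one_mem' := by
        intro t
        rw [one_mul]
      inv_mem' := by
        intro h hh t
        rw [← hh (h⁻¹ * t), mul_inv_cancel_left] }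
  choose s hs1 hs2 using fun t => rest_one b hm t
  have hidx : S.index ≤ B := by
    refine le_trans ?_ hcard
    have hcoset : ∀ t t', dd (fun σ => - tot b σ) (s t) = dd (fun σ => - tot b σ) (s t') →
        t'⁻¹ * t ∈ S := by
      intro t t' h u
      obtain ⟨ρ, hρ, -⟩ := rest_one b hm (t * u)
      have h1 := congrFun h ρ
      simp only [dd, tot_eq b (q ^ K), hs2] at h1
      have h2 : ∀ σ ρ : ℂ ≃+* ℂ, cyc (q ^ K) (σ.symm.trans ρ) = cyc (q ^ K) ρ * (cyc (q ^ K) σ)⁻¹ := by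
        intro σ ρ
        have h3 : σ.symm.trans ρ = ρ * σ⁻¹ := rfl
        rw [h3, map_mul, map_inv]
      rw [h2, h2, hs1, hs1, hρ] at h1
      have h4 : t * u * t⁻¹ = u := by rw [mul_comm t u, mul_inv_cancel_right]
      have h5 : t * u * t'⁻¹ = t'⁻¹ * t * u := by rw [mul_comm (t * u), mul_assoc]
      rw [h4, h5] at h1
      omega
    let g : (ZMod (q ^ K))ˣ ⧸ S → Set.range (dd (fun σ => - tot b σ)) := fun x =>
      ⟨dd (fun σ => - tot b σ) (s x.out), ⟨_, rfl⟩⟩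
    have hg : Function.Injective g := by
      intro x y hxy
      have h1 := hcoset x.out y.out (congrArg Subtype.val hxy)
      have h2 : (QuotientGroup.mk y.out : (ZMod (q ^ K))ˣ ⧸ S) = QuotientGroup.mk x.out :=
        QuotientGroup.eq.2 h1
      rw [QuotientGroup.out_eq', QuotientGroup.out_eq'] at h2
      exact h2.symm
    have _ : Finite (Set.range (dd (fun σ => - tot b σ))) := hfin.to_subtype
    have h1 := Nat.card_le_card_of_injective g hg
    rw [Nat.card_coe_set_eq] at h1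
    exact h1
  by_contra hne
  have h1 := hc q K ((univ : Finset (Σ j, Fin (n j + 2))).filter
        (fun x => m x.1 ∣ q ^ K ∧ ent (q ^ K) (b x.1) x.2 ≠ 0)) (fun x => ent (q ^ K) (b x.1) x.2)
    (fun x hx => (mem_filter.1 hx).2.2) S (fun h hh t => by
      have h2 := part_eq b (q ^ K) (h * t)
      have h3 := part_eq b (q ^ K) t
      rw [hh t] at h2
      rw [h2] at h3
      exact neg_injective h3) D (fun t => by
      have h3 := part_eq b (q ^ K) t
      rw [← neg_eq_iff_eq_neg] at h3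
      rw [← h3, ← neg_mul, Int.cast_mul, abs_mul]
      have h4 : |(((-((q ^ K : ℕ) : ℤ) : ℤ)) : ℝ)| = ((q ^ K : ℕ) : ℝ) := by
        rw [Int.cast_neg, abs_neg, Int.cast_natCast, abs_of_nonneg (Nat.cast_nonneg _)]
      rw [h4]
      apply mul_le_mul_of_nonneg_left _ (Nat.cast_nonneg _)
      have h5 := hpart t
      have h6 : ((|part b (q ^ K) t| : ℤ) : ℝ) ≤ D := by exact_mod_cast h5
      rwa [Int.cast_abs] at h6) ⟨t, fun h0 => hne (by
      have h3 := part_eq b (q ^ K) t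
      rw [h0, neg_zero] at h3
      rcases mul_eq_zero.1 h3 with h4 | h4
      · exact absurd h4 hN0.ne'
      · exact h4)⟩
  have h2 : (S.index : ℝ) * (D : ℝ) ^ 2 ≤ B * (D : ℝ) ^ 2 := by
    apply mul_le_mul_of_nonneg_right _ (by positivity)
    exact_mod_cast hidx
  linarith

end Run7.h306.TF
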