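import Pool.Agent.Run7.h306.TFDefs
import Pool.Agent.Run7.h306.TF3

/-!
# The labels of Tate classes
-/

set_option autoImplicit false

open Finset Pool.Agent.Y145.DI Pool.Agent.N214.HB Pool.Agent.H916R2 Pool.Agent.Y1.HZ Run7.h306.HF

namespace Run7.h306.TF

section jac

variable {κ : Type} [Field κ] [Fintype κ] (θ : MulChar κ ℂ) (ψ : AddChar κ ℂ) (N : ℕ)

def aa {m n : ℕ} : Label m n → ℕ
  | Sum.inl i => i
  | Sum.inr _ => 0

def uu {m n : ℕ} : Label m n → ℕ
  | Sum.inl _ => 0
  | Sum.inr _ => 1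

theorem ent_ne {m n : ℕ} [NeZero m] [NeZero N] (h : m ∣ N) (a : Character m n) (l : Fin (n + 2)) :
    (ent N (Sum.inr a : Label m n) l).val = N / m * (a.entry l).val ∧
      ent N (Sum.inr a : Label m n) l ≠ 0 := by
  have hlt : N / m * (a.entry l).val < N := by
    have h1 : N / m * m = N := Nat.div_mul_cancel h
    have h2 : 0 < N / m := Nat.div_pos (Nat.le_of_dvd (NeZero.pos N) h) (NeZero.pos m)
    calc N / m * (a.entry l).val < N / m * m :=
          Nat.mul_lt_mul_of_pos_left (ZMod.val_lt _) h2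
      _ = N := h1
  have h1 : (ent N (Sum.inr a : Label m n) l).val = N / m * (a.entry l).val := by
    change ((N / m * (a.entry l).val : ℕ) : ZMod N).val = _
    rw [ZMod.val_natCast, Nat.mod_eq_of_lt hlt]
  refine ⟨h1, fun h0 => ?_⟩
  rw [h0, ZMod.val_zero] at h1
  have h2 : 0 < N / m := Nat.div_pos (Nat.le_of_dvd (NeZero.pos N) h) (NeZero.pos m)
  have h3 : (a.entry l).val ≠ 0 := fun h => a.ne_zero l ((ZMod.val_eq_zero _).1 h)
  exact (Nat.mul_ne_zero h2.ne' h3) h1.symm

open Classical in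
theorem jacobi_eq {m n : ℕ} [NeZero m] [NeZero N] (h : m ∣ N) (b : Label m n) :
    jacobi θ ψ N b * (Fintype.card κ : ℂ) ^ uu b = (Fintype.card κ : ℂ) ^ aa b *
      ∏ l, if ent N b l ≠ 0 then gaussSum (θ ^ (ent N b l).val) ψ else 1 := by
  have hq : (Fintype.card κ : ℂ) ≠ 0 := by exact_mod_cast Fintype.card_ne_zero
  cases b with
  | inl i =>
    have h1 : ∀ l : Fin (n + 2), (if ent N (Sum.inl i : Label m n) l ≠ 0 then
        gaussSum (θ ^ (ent N (Sum.inl i : Label m n) l).val) ψ else 1) = 1 := by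
      intro l
      rw [if_neg]
      simp [ent]
    rw [prod_congr rfl fun l _ => h1 l, prod_const_one]
    simp [jacobi, uu, aa]
  | inr a =>
    have h1 : ∀ l : Fin (n + 2), (if ent N (Sum.inr a : Label m n) l ≠ 0 then
        gaussSum (θ ^ (ent N (Sum.inr a : Label m n) l).val) ψ else 1) =
          gaussSum (θ ^ (N / m * (a.entry l).val)) ψ := by
      intro l
      rw [if_pos (ent_ne N h a l).2, (ent_ne N h a l).1]
    rw [prod_congr rfl fun l _ => h1 l]
    simp only [jacobi, uu, aa, pow_one, pow_zero, one_mul]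
    rw [div_mul_cancel₀ _ hq]

variable {J : Type} [Fintype J] {m n : J → ℕ} [∀ j, NeZero (m j)]

open Classical in
/-- the index set of the entries -/
noncomputable def idx (N : ℕ) (b : ∀ j, Label (m j) (n j)) : Finset (Σ j, Fin (n j + 2)) :=
  (univ : Finset (Σ j, Fin (n j + 2))).filter (fun x => ent N (b x.1) x.2 ≠ 0)

theorem prod_jacobi_eq [NeZero N] (h : ∀ j, m j ∣ N) (b : ∀ j, Label (m j) (n j)) :
    (∏ j, jacobi θ ψ N (b j)) * (Fintype.card κ : ℂ) ^ (∑ j, uu (b j)) =
      (Fintype.card κ : ℂ) ^ (∑ j, aa (b j)) *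
        ∏ x ∈ idx N b, gaussSum (θ ^ (ent N (b x.1) x.2).val) ψ := by
  classical
  rw [← prod_pow_eq_pow_sum, ← prod_mul_distrib, prod_congr rfl fun j _ =>
    jacobi_eq θ ψ N (h j) (b j), prod_mul_distrib, prod_pow_eq_pow_sum]
  congr 1
  rw [idx, prod_filter, Fintype.prod_sigma]

end jac

section main

variable {J : Type} [Fintype J] {m n : J → ℕ} [∀ j, NeZero (m j)]

theorem tot_part (b : ∀ j, Label (m j) (n j)) {N : ℕ} [NeZero N] (h : ∀ j, m j ∣ N)
    (τ : ℂ ≃+* ℂ) : tot b τ = part b N (cyc N τ) := by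
  rw [tot_eq b N τ]
  have h1 : rest b N τ = 0 := by
    classical
    unfold rest
    refine sum_eq_zero fun j _ => ?_
    rw [if_pos (h j)]
  rw [h1, add_zero]

theorem EE_part (b : ∀ j, Label (m j) (n j)) {N : ℕ} [NeZero N] (h : ∀ j, m j ∣ N) {c : ℕ}
    (F : ℕ) (hc1 : 1 ≤ c) (hc : ∀ j, m j ∣ c - 1) (t : (ZMod N)ˣ) :
    EE c F (idx N b) (fun x => ent N (b x.1) x.2) t = -((F : ℤ) * N * part b N t) := by
  classical
  have hcx : ∀ x : Σ j, Fin (n j + 2), (c : ZMod N) * ent N (b x.1) x.2 = ent N (b x.1) x.2 := by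
    intro x
    rcases hbx : b x.1 with i | a
    · change (c : ZMod N) * 0 = 0
      rw [mul_zero]
    · change (c : ZMod N) * ((N / m x.1 * (a.entry x.2).val : ℕ) : ZMod N) = _
      have h1 : ((c - 1 : ℕ) : ZMod N) * ((N / m x.1 * (a.entry x.2).val : ℕ) : ZMod N) = 0 := by
        rw [← Nat.cast_mul, ZMod.natCast_eq_zero_iff]
        obtain ⟨d, hd⟩ := hc x.1
        have h2 : N / m x.1 * m x.1 = N := Nat.div_mul_cancel (h x.1)
        refine ⟨d * (a.entry x.2).val, ?_⟩
        rw [hd]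
        calc m x.1 * d * (N / m x.1 * (a.entry x.2).val) =
            (N / m x.1 * m x.1) * (d * (a.entry x.2).val) := by ring
          _ = N * (d * (a.entry x.2).val) := by rw [h2]
      rw [Nat.cast_sub hc1, sub_mul, Nat.cast_one, one_mul, sub_eq_zero] at h1
      exact h1
  have hcj : ∀ (j : ℕ) (x : Σ j, Fin (n j + 2)),
      (c : ZMod N) ^ j * ((t : ZMod N) * ent N (b x.1) x.2) = (t : ZMod N) * ent N (b x.1) x.2 := by
    intro j x
    induction j with
    | zero => rw [pow_zero, one_mul]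
    | succ j ih =>
      rw [pow_succ, mul_assoc, mul_left_comm (c : ZMod N), hcx x]
      exact ih
  unfold EE
  have h1 : ∀ x ∈ idx N b, ∑ j ∈ range F, saw ((c : ZMod N) ^ j *
      ((t : ZMod N) * ent N (b x.1) x.2)) = (F : ℤ) * saw ((t : ZMod N) * ent N (b x.1) x.2) := by
    intro x _
    rw [sum_congr rfl fun j _ => congrArg saw (hcj j x), sum_const, card_range, nsmul_eq_mul]
  rw [sum_congr rfl h1, ← mul_sum, mul_assoc, part_eq b N t]
  have h2 : idx N b = (univ : Finset (Σ j, Fin (n j + 2))).filter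
        (fun x => m x.1 ∣ N ∧ ent N (b x.1) x.2 ≠ 0) := by
    unfold idx
    refine filter_congr fun x _ => ?_
    exact ⟨fun h' => ⟨h x.1, h'⟩, fun h' => h'.2⟩
  rw [h2]
  ring

end main

end Run7.h306.TF
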