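import Pool.Agent.Run7.h306.TF5

/-!
# The labels of Tate classes: the main arithmetic theorem
-/

set_option autoImplicit false

open Finset Pool.Agent.Y145.DI Pool.Agent.N214.HB Pool.Agent.H916R2 Pool.Agent.Y1.HZ Run7.h306.HF

namespace Run7.h306.TF

variable {κ : Type} [Field κ] [Fintype κ] {c N : ℕ} [Fact c.Prime] [CharP κ c] [NeZero N]
  {J : Type} [Fintype J] {m n : J → ℕ} [∀ j, NeZero (m j)]

/-- **The labels of Tate classes are generated.** -/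
theorem label_main {ε c₀ : ℝ} (hcore : ∀ (p K : ℕ) [Fact p.Prime] {ι : Type} (s : Finset ι)
      (x : ι → ZMod (p ^ K))
      (_ : ∀ i ∈ s, x i ≠ 0) (H : Subgroup (ZMod (p ^ K))ˣ)
      (_ : ∀ h ∈ H, ∀ t : (ZMod (p ^ K))ˣ, ∑ i ∈ s, saw (((h * t : (ZMod (p ^ K))ˣ) :
        ZMod (p ^ K)) * x i) = ∑ i ∈ s, saw ((t : ZMod (p ^ K)) * x i)) (M : ℝ)
      (_ : ∀ t : (ZMod (p ^ K))ˣ, |((∑ i ∈ s, saw ((t : ZMod (p ^ K)) * x i) : ℤ) : ℝ)| ≤
        ((p ^ K : ℕ) : ℝ) * M)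
      (_ : ∃ t : (ZMod (p ^ K))ˣ, ∑ i ∈ s, saw ((t : ZMod (p ^ K)) * x i) ≠ 0),
      c₀ * (p : ℝ) ^ (1 - 2 * ε) ≤ H.index * M ^ 2) {B D : ℕ}
    (hN : N ∣ Fintype.card κ - 1) (θ : MulChar κ ℂ) (hθ : orderOf θ = N)
    (ψ : AddChar κ ℂ) (hψ : ψ ≠ 1) (hmN : ∀ j, m j ∣ N) (hmc : ∀ j, m j ∣ c - 1)
    (hm : ∀ j, ∃ p k : ℕ, p.Prime ∧ 1 ≤ k ∧ m j = p ^ k ∧
      (B : ℝ) * D ^ 2 < c₀ * (p : ℝ) ^ (1 - 2 * ε))
    (S : Set ℂ) (hS : S.Finite) (hSB : S.ncard ≤ B)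
    (hSc : ∀ z ∈ S, ∀ τ : ℂ ≃+* ℂ, τ z ∈ S) {w : ℕ}
    (b : ∀ j, Label (m j) (n j)) {ρ : ℂ} (hρ : ρ ∈ S)
    (hw : ‖ρ‖ ^ 2 = (Fintype.card κ : ℝ) ^ w)
    (hD : IsIntegral ℤ ((Fintype.card κ : ℂ) ^ D * ρ / starRingEnd ℂ ρ)) {e r : ℕ} (he : 0 < e)
    (h : (ρ * ∏ j, jacobi θ ψ N (b j)) ^ e = ((Fintype.card κ : ℂ) ^ r) ^ e) :
    IsGenerated b ∧ ∑ j, hodge (b j) = 0 := by
  classical
  obtain ⟨F, hF0, hF⟩ := card_pow (κ := κ) (c := c)
  have hc1 : 1 ≤ c := (Fact.out : c.Prime).one_lt.le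
  have hx : ∀ i ∈ idx N b, (fun x : Σ j, Fin (n j + 2) => ent N (b x.1) x.2) i ≠ 0 := by
    intro i hi
    exact (mem_filter.1 hi).2
  have h' : (ρ * (Fintype.card κ : ℂ) ^ (∑ j, aa (b j)) *
      ∏ i ∈ idx N b, gaussSum (θ ^ ((fun x : Σ j, Fin (n j + 2) => ent N (b x.1) x.2) i).val) ψ) ^ e
      = ((Fintype.card κ : ℂ) ^ (r + ∑ j, uu (b j))) ^ e := by
    rw [mul_assoc, ← prod_jacobi_eq θ ψ N hmN b, ← mul_assoc, mul_pow, h, pow_add, mul_pow]
  have hFN : (F : ℤ) * N ≠ 0 := by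
    have h1 : (F : ℤ) ≠ 0 := by exact_mod_cast hF0.ne'
    have h2 : (N : ℤ) ≠ 0 := by exact_mod_cast NeZero.ne N
    exact mul_ne_zero h1 h2
  have hlev : ∀ σ : ℂ ≃+* ℂ, |tot b σ| ≤ D := by
    intro σ
    have h1 := level_le hN θ hθ ψ hψ F hF0 hF (idx N b) _ hx he h' hw hD (cyc N σ)
    rw [EE_part b hmN F hc1 hmc, abs_neg, abs_mul] at h1
    rw [tot_part b hmN σ]
    have h2 : |(F : ℤ) * N| = F * N := abs_of_nonneg (by positivity)
    rw [h2] at h1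
    exact le_of_mul_le_mul_left h1 (lt_of_le_of_ne (by positivity) hFN.symm)
  have hconj : ∀ τ τ' : ℂ ≃+* ℂ, τ ρ = τ' ρ → tot b τ = tot b τ' := by
    intro τ τ' hτ
    have h1 := slope_conj hN θ hθ ψ hψ F hF0 hF (idx N b) _ hx he h' hw hτ
    rw [EE_part b hmN F hc1 hmc, EE_part b hmN F hc1 hmc, neg_inj] at h1
    rw [tot_part b hmN, tot_part b hmN]
    exact mul_left_cancel₀ hFN h1
  choose s hs using fun f : Set.range (dd (fun σ => - tot b σ)) => f.2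
  let g : Set.range (dd (fun σ => - tot b σ)) → S := fun f =>
    ⟨(s f).symm ρ, hSc ρ hρ (s f).symm⟩
  have hg : Function.Injective g := by
    intro f f' hff
    have h1 : (s f).symm ρ = (s f').symm ρ := congrArg Subtype.val hff
    apply Subtype.ext
    rw [← hs f, ← hs f']
    funext υ
    change - tot b ((s f).symm.trans υ) = - tot b ((s f').symm.trans υ)
    congr 1
    apply hconj
    change υ ((s f).symm ρ) = υ ((s f').symm ρ)
    rw [h1]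
  have _ : Finite S := hS.to_subtype
  have hfin : (Set.range (dd (fun σ => - tot b σ))).Finite := by
    have : Finite (Set.range (dd (fun σ => - tot b σ))) := Finite.of_injective g hg
    exact Set.toFinite _
  have hcard : (Set.range (dd (fun σ => - tot b σ))).ncard ≤ B := by
    refine le_trans ?_ hSB
    have h1 := Nat.card_le_card_of_injective g hg
    rwa [Nat.card_coe_set_eq, Nat.card_coe_set_eq] at h1
  have hpart : ∀ q K : ℕ, q.Prime → PP m q K → (∃ j, q ∣ m j) → ∀ t, part b (q ^ K) t = 0 := by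
    intro q K hq hPP hj t
    have _ : Fact q.Prime := ⟨hq⟩
    obtain ⟨j, hj⟩ := hj
    obtain ⟨p, k, hp, hk, hpk, hl⟩ := hm j
    rw [hpk] at hj
    have h2 := (Nat.prime_dvd_prime_iff_eq hq hp).1 (hq.dvd_of_dvd_pow hj)
    rw [← h2] at hl
    exact vanish' hcore hPP hl b hlev hfin hcard t
  constructor
  · intro q K hq hqm hne
    have hPP : PP m q K := by
      intro j
      by_cases h : q ∣ m j
      · exact Or.inl (hqm j h)
      · exact Or.inr ((Nat.Prime.coprime_iff_not_dvd hq).2 h).symm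
    have hj : ∃ j, q ∣ m j := by
      obtain ⟨z, hz⟩ := Multiset.exists_mem_of_ne_zero hne
      unfold entries at hz
      rw [Multiset.mem_map] at hz
      obtain ⟨x, hx, -⟩ := hz
      have hx' := (mem_filter.1 (show x ∈ (Finset.univ : Finset (Σ j, Fin (n j + 2))).filter
        (fun x => m x.1 ∣ q ^ K ∧ ent (q ^ K) (b x.1) x.2 ≠ 0) from hx)).2.1
      obtain ⟨p, k, hp, hk, hpk, hl⟩ := hm x.1
      have h1 : p ∣ q ^ K := (dvd_pow_self p (by omega)).trans (hpk ▸ hx')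
      have h2 := (Nat.prime_dvd_prime_iff_eq hp hq).1 (hp.dvd_of_dvd_pow h1)
      refine ⟨x.1, ?_⟩
      rw [hpk, ← h2]
      exact dvd_pow_self p (by omega)
    exact generated' b hq (hpart q K hq hPP hj) hne
  · choose p k hp hk hpk _ using hm
    refine sum_hodge b p k hp hk hpk fun q K hq hj hPP => ?_
    obtain ⟨j, rfl⟩ := hj
    refine hpart _ K hq hPP ⟨j, ?_⟩ 1
    rw [hpk j]
    exact dvd_pow_self _ (by have := hk j; omega)

end Run7.h306.TF
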