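import Pool.Agent.Run7.h306.TF7

/-!
# The Tate conjecture for the product
-/

set_option autoImplicit false

open CategoryTheory AlgebraicGeometry Finset

namespace Run7.h306.TF

open Pool.Agent.H914 Pool.Agent.H914.VarClass Pool.Agent.H914.VarClass.Obj
  Pool.Agent.H914.WeilCohomology Pool.Agent.TH125.Gal Run7.h306.HF Pool.Agent.H916R2
  Pool.Agent.H281R3.HT

variable {k : Type} [Field k] {𝒱 : VarClass k} {ops : CycleOps 𝒱}
  {W : WeilCohomology.{0, 0} ops} {Γ : Type} [Group Γ] {χ : Γ →* W.Kˣ}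

/-- The operator on `H^i(Z)`. -/
noncomputable def fr {Z : GVar W Γ} (hZ : IsGalois χ Z) (F : Γ) (i : ℕ) :
    Module.End W.K (W.gr Z.X i) :=
  (Z.act F).toLinearMap.restrict (fun x hx => hZ.gr_mem F i x hx)

theorem fr_pow {Z : GVar W Γ} (hZ : IsGalois χ Z) (F : Γ) (i s : ℕ) (x : W.gr Z.X i) :
    (((fr hZ F i) ^ s) x : W.H Z.X) = Z.act (F ^ s) x := by
  induction s generalizing x with
  | zero =>
    rw [pow_zero, pow_zero, map_one]
    rfl
  | succ s ih =>
    rw [pow_succ, Module.End.mul_apply, ih, pow_succ, map_mul]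
    rfl

theorem eig_iff {Z : GVar W Γ} (hZ : IsGalois χ Z) (F : Γ) (i : ℕ) (α : W.K) :
    IsEigenvalue (W.gr Z.X) (Z.act F) i α ↔ (fr hZ F i).HasEigenvalue α := by
  constructor
  · rintro ⟨x, hx, hx0, h⟩
    refine Module.End.hasEigenvalue_of_hasEigenvector (x := ⟨x, hx⟩) ⟨?_, ?_⟩
    · rw [Module.End.mem_eigenspace_iff]
      exact Subtype.ext h
    · intro h0
      exact hx0 (congrArg Subtype.val h0)
  · intro h
    obtain ⟨x, hx⟩ := h.exists_hasEigenvector
    refine ⟨x, x.2, fun h0 => hx.2 (Subtype.ext h0), ?_⟩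
    have h1 := hx.apply_eq_smul
    exact congrArg Subtype.val h1

theorem eig_bound {Z : GVar W Γ} (hZ : IsGalois χ Z) (σ : W.K ≃+* ℂ) (F : Γ) (i B : ℕ)
    (hB : Module.finrank W.K (W.gr Z.X i) ≤ B) :
    {z : ℂ | IsEigenvalue (W.gr Z.X) (Z.act F) i (σ.symm z)}.Finite ∧
      {z : ℂ | IsEigenvalue (W.gr Z.X) (Z.act F) i (σ.symm z)}.ncard ≤ B := by
  classical
  obtain ⟨S, hS⟩ : ∃ S : Set ℂ, S = {z : ℂ | IsEigenvalue (W.gr Z.X) (Z.act F) i (σ.symm z)} := ⟨_, rfl⟩
  rw [← hS]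
  have hv : ∀ z : S, ∃ x : W.gr Z.X i, (fr hZ F i).HasEigenvector (σ.symm z) x := by
    intro z
    have h1 : IsEigenvalue (W.gr Z.X) (Z.act F) i (σ.symm z) := (Set.ext_iff.1 hS z).1 z.2
    exact ((eig_iff hZ F i _).1 h1).exists_hasEigenvector
  choose x hx using hv
  have hli := Module.End.eigenvectors_linearIndependent' (fr hZ F i) (fun z : S => σ.symm z)
    (fun a b h => Subtype.ext (σ.symm.injective h)) x hx
  have hfin : Finite S := hli.finite
  have _ : Fintype S := Fintype.ofFinite S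
  refine ⟨Set.toFinite S, ?_⟩
  have h1 := hli.fintype_card_le_finrank
  rw [← Nat.card_coe_set_eq, Nat.card_eq_fintype_card]
  exact h1.trans hB

theorem exists_eig {Z : GVar W Γ} (hZ : IsGalois χ Z) (σ : W.K ≃+* ℂ) (F : Γ) {i s : ℕ}
    (hs : 0 < s) {x : W.H Z.X} (hx : x ∈ W.gr Z.X i) (hx0 : x ≠ 0) {μ : W.K}
    (h : Z.act (F ^ s) x = μ • x) : ∃ α, IsEigenvalue (W.gr Z.X) (Z.act F) i α ∧ α ^ s = μ := by
  have _ : IsAlgClosed W.K := IsAlgClosed.of_ringEquiv ℂ W.K σ.symm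
  have h1 : ((fr hZ F i) ^ s).HasEigenvalue μ := by
    refine Module.End.hasEigenvalue_of_hasEigenvector (x := ⟨x, hx⟩) ⟨?_, ?_⟩
    · rw [Module.End.mem_eigenspace_iff]
      apply Subtype.ext
      rw [fr_pow]
      exact h
    · intro h0
      exact hx0 (congrArg Subtype.val h0)
  rw [Module.End.hasEigenvalue_iff_mem_spectrum, spectrum.map_pow_of_pos _ hs] at h1
  obtain ⟨α, hα, hαs⟩ := h1
  refine ⟨α, (eig_iff hZ F i α).2 (Module.End.hasEigenvalue_iff_mem_spectrum.2 hα), hαs⟩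

theorem prod_cases {V Z Y : GVar W Γ} (h : IsProduct V Z Y) :
    ∃ υ : Γ →* (W.H (V.X.prod Z.X) ≃ₐ[W.K] W.H (V.X.prod Z.X)),
      Intertwines (W.map (fst V.X Z.X)) V.act υ ∧ Intertwines (W.map (snd V.X Z.X)) Z.act υ ∧
        Y = ⟨V.X.prod Z.X, υ⟩ := by
  obtain ⟨X, υ⟩ := Y
  obtain ⟨h, h1, h2⟩ := h
  change X = _ at h
  subst h
  refine ⟨υ, ?_, ?_, rfl⟩
  · rw [eqToHom_refl, Category.id_comp] at h1
    exact h1
  · rw [eqToHom_refl, Category.id_comp] at h2
    exact h2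

/-- Combinations of algebraic classes are fixed by a subgroup of finite index. -/
theorem span_fix {Z : GVar W Γ} (hZ : IsGalois χ Z) {i : ℕ} {a : W.H Z.X}
    (ha : a ∈ Submodule.span W.K (algClasses W Z.X i)) :
    ∃ Δ : Subgroup Γ, Δ.FiniteIndex ∧ ∀ g ∈ Δ, Z.act g a = (χ g : W.K) ^ i • a := by
  induction ha using Submodule.span_induction with
  | mem a ha => exact hZ.cl_fix i a ha
  | zero => exact ⟨⊤, inferInstance, fun g _ => by rw [map_zero, smul_zero]⟩
  | add x y _ _ hx hy =>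
    obtain ⟨Δ, h1, h2⟩ := hx
    obtain ⟨Δ', h1', h2'⟩ := hy
    refine ⟨Δ ⊓ Δ', inferInstance, fun g hg => ?_⟩
    rw [map_add, h2 g hg.1, h2' g hg.2, smul_add]
  | smul r x _ hx =>
    obtain ⟨Δ, h1, h2⟩ := hx
    refine ⟨Δ, h1, fun g hg => ?_⟩
    rw [map_smul, h2 g hg, smul_comm]

/-- **The Tate conjecture for the product with Fermat varieties.** -/
theorem tate_prod {ε c₀ : ℝ} (hcore : ∀ (p K : ℕ) [Fact p.Prime] {ι : Type} (s : Finset ι)
      (x : ι → ZMod (p ^ K))
      (_ : ∀ i ∈ s, x i ≠ 0) (H : Subgroup (ZMod (p ^ K))ˣ)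
      (_ : ∀ h ∈ H, ∀ t : (ZMod (p ^ K))ˣ, ∑ i ∈ s, saw (((h * t : (ZMod (p ^ K))ˣ) :
        ZMod (p ^ K)) * x i) = ∑ i ∈ s, saw ((t : ZMod (p ^ K)) * x i)) (M : ℝ)
      (_ : ∀ t : (ZMod (p ^ K))ˣ, |((∑ i ∈ s, saw ((t : ZMod (p ^ K)) * x i) : ℤ) : ℝ)| ≤
        ((p ^ K : ℕ) : ℝ) * M)
      (_ : ∃ t : (ZMod (p ^ K))ˣ, ∑ i ∈ s, saw ((t : ZMod (p ^ K)) * x i) ≠ 0),
      c₀ * (p : ℝ) ^ (1 - 2 * ε) ≤ H.index * M ^ 2)
    {B D : ℕ} {σ : W.K ≃+* ℂ} {F : Γ} {κ : Type} [Field κ] [Fintype κ] {c : ℕ} [Fact c.Prime]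
    [CharP κ c] {J : Type} [Fintype J] {m n : J → ℕ} [∀ j, NeZero (m j)] {V Z Y : GVar W Γ}
    (hmc : ∀ j, m j ∣ c - 1)
    (hm : ∀ j, ∃ p k : ℕ, p.Prime ∧ 1 ≤ k ∧ m j = p ^ k ∧
      (B : ℝ) * D ^ 2 < c₀ * (p : ℝ) ^ (1 - 2 * ε))
    (hV : IsFermatProduct σ F κ m n V) (hGV : IsGalois χ V)
    (hZ : IsGoodReduction σ χ F (Fintype.card κ) B D Z) (hGZ : IsGalois χ Z)
    (hY : IsProduct V Z Y) (hT : Tate χ Z) : Tate χ Y := by
  classical
  obtain ⟨N, θ, ψ, e, ⟨hN0, hmN, hNκ, hθ, hψ⟩, hedeg, heF, healg⟩ := hV.2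
  obtain ⟨υ, hυ1, hυ2, rfl⟩ := prod_cases hY
  have _ : NeZero N := ⟨hN0.ne'⟩
  have _ : Finite (∀ j, Label (m j) (n j)) := Module.Finite.finite_basis e
  have _ : Fintype (∀ j, Label (m j) (n j)) := Fintype.ofFinite _
  have hq0 : (Fintype.card κ : ℂ) ≠ 0 := by exact_mod_cast Fintype.card_ne_zero
  intro j c' hc' hΔ
  obtain ⟨Δ, hΔfin, hΔ⟩ := hΔ
  change c' ∈ W.gr (V.X.prod Z.X) (2 * j) at hc'
  -- the coefficients
  obtain ⟨x, hx⟩ : ∃ x : (∀ j, Label (m j) (n j)) → W.H Z.X,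
    x = fun b => ctr (e.coord b) c' := ⟨_, rfl⟩
  have hexp : c' = ∑ b, W.map (fst V.X Z.X) (e b) * W.map (snd V.X Z.X) (x b) := by
    rw [hx]
    exact expand e c'
  -- a power of Frobenius in `Δ`
  obtain ⟨s, hs, -, hFs⟩ := Subgroup.exists_pow_mem_of_index_ne_zero
    (Subgroup.FiniteIndex.index_ne_zero (H := Δ)) F
  choose ζ s' hs' hζ heF using heF
  obtain ⟨lam, hlam⟩ : ∃ lam : (∀ j, Label (m j) (n j)) → W.K,
    lam = fun b => σ.symm (ζ b * ∏ j, jacobi θ ψ N (b j)) := ⟨_, rfl⟩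
  have hVs : ∀ (s : ℕ) b, V.act (F ^ s) (e b) = (lam b) ^ s • e b := by
    intro s b
    induction s with
    | zero => rw [pow_zero, pow_zero, map_one, one_smul]; rfl
    | succ s ih =>
      rw [pow_succ, map_mul]
      change V.act (F ^ s) (V.act F (e b)) = _
      rw [heF b, map_smul, ih, smul_smul, hlam]
      congr 1
      ring
  have hrel : ∀ b, (lam b) ^ s • Z.act (F ^ s) (x b) =
      ((Fintype.card κ : W.K) ^ j) ^ s • x b := by
    intro b
    have h1 := ctr_act e (v := V.act (F ^ s)) (z := Z.act (F ^ s)) (y := υ (F ^ s))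
      (fun a => hυ1 _ a) (fun a => hυ2 _ a) (hVs s) b c'
    have h2 := hΔ (F ^ s) hFs
    change υ (F ^ s) c' = _ at h2
    rw [h2, map_smul, map_pow, Units.val_pow_eq_pow_val, hZ.twist] at h1
    rw [hx]
    rw [← h1, ← pow_mul, ← pow_mul, mul_comm s j]
  -- the coefficients are homogeneous and the labels generated
  have key : ∀ b, x b ≠ 0 → IsGenerated b ∧ ∃ i l : ℕ, ∑ j, degree (b j) = 2 * i ∧ j = i + l ∧
      x b ∈ W.gr Z.X (2 * l) := by
    intro b hb
    -- homogeneous components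
    have hcomp : ∀ i, proj (W.isInternal Z.X) i (x b) ≠ 0 →
        (IsGenerated b ∧ ∑ j, hodge (b j) = 0) ∧ i + ∑ j, degree (b j) = 2 * j := by
      intro i hi
      have h1 : (lam b) ^ s • Z.act (F ^ s) (proj (W.isInternal Z.X) i (x b)) =
          ((Fintype.card κ : W.K) ^ j) ^ s • proj (W.isInternal Z.X) i (x b) := by
        rw [act_proj hGZ, ← map_smul, hrel b, map_smul]
      have hqK : (Fintype.card κ : W.K) ≠ 0 := by exact_mod_cast Fintype.card_ne_zero
      have hne : ((Fintype.card κ : W.K) ^ j) ^ s ≠ 0 := pow_ne_zero _ (pow_ne_zero _ hqK)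
      have hlam0 : (lam b) ^ s ≠ 0 := by
        intro h0
        rw [h0, zero_smul] at h1
        rcases smul_eq_zero.1 h1.symm with h2 | h2
        · exact hne h2
        · exact hi h2
      have h2 : Z.act (F ^ s) (proj (W.isInternal Z.X) i (x b)) =
          (((Fintype.card κ : W.K) ^ j) ^ s / (lam b) ^ s) •
            proj (W.isInternal Z.X) i (x b) := by
        rw [div_eq_inv_mul, mul_smul, ← h1, smul_smul, inv_mul_cancel₀ hlam0, one_smul]
      obtain ⟨α, hα, hαs⟩ := exists_eig hGZ σ F hs (proj_mem _ _ _) hi h2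
      have h3 : (σ α * ∏ j, jacobi θ ψ N (b j)) ^ (s * s' b) =
          ((Fintype.card κ : ℂ) ^ j) ^ (s * s' b) := by
        have h4 : (σ α) ^ s * (ζ b * ∏ j, jacobi θ ψ N (b j)) ^ s =
            ((Fintype.card κ : ℂ) ^ j) ^ s := by
          have h5 : α ^ s * (lam b) ^ s = ((Fintype.card κ : W.K) ^ j) ^ s := by
            rw [hαs, div_mul_cancel₀ _ hlam0]
          have h6 := congrArg σ h5
          rw [map_mul, map_pow, map_pow, map_pow, map_pow, map_natCast, hlam] at h6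
          simp only [RingEquiv.apply_symm_apply] at h6
          exact h6
        rw [pow_mul ((Fintype.card κ : ℂ) ^ j), ← h4]
        rw [← mul_pow, ← pow_mul]
        have h7 : σ α * (ζ b * ∏ j, jacobi θ ψ N (b j)) =
            ζ b * (σ α * ∏ j, jacobi θ ψ N (b j)) := by ring
        rw [h7, mul_pow (ζ b), mul_comm s, pow_mul (ζ b), hζ b, one_pow, one_mul]
      have hw : ‖σ α‖ ^ 2 = (Fintype.card κ : ℝ) ^ i := hZ.weight i α hα
      obtain ⟨hS, hSB⟩ := eig_bound hGZ σ F i B (hZ.betti i)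
      refine ⟨?_, ?_⟩
      · refine label_main hcore hNκ θ hθ ψ hψ hmN hmc hm _ hS hSB ?_ b (ρ := σ α) ?_ hw
          (hZ.level i α hα) (Nat.mul_pos hs (hs' b)) h3
        · intro z hz τ
          have h4 := hZ.conjugate i (σ.symm z) hz τ
          rw [RingEquiv.apply_symm_apply] at h4
          exact h4
        · change IsEigenvalue (W.gr Z.X) (Z.act F) i (σ.symm (σ α))
          rw [RingEquiv.symm_apply_apply]
          exact hα
      · have h4 := congrArg norm h3
        rw [norm_pow, norm_pow] at h4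
        have h5 := (pow_left_inj₀ (norm_nonneg _) (norm_nonneg _)
          (Nat.mul_pos hs (hs' b)).ne').1 h4
        have h6 := congrArg (fun x => x ^ 2) h5
        simp only [norm_mul, norm_prod, norm_pow, Complex.norm_natCast, mul_pow, ← prod_pow] at h6
        rw [hw, prod_congr rfl fun j _ => norm_jacobi θ ψ hψ hθ (hmN j) (b j),
          prod_pow_eq_pow_sum, ← pow_add, ← pow_mul, mul_comm j 2] at h6
        have hq : (1 : ℝ) < Fintype.card κ := by exact_mod_cast Fintype.one_lt_card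
        exact pow_right_injective₀ (by linarith) hq.ne' h6
    obtain ⟨i, hi⟩ : ∃ i, proj (W.isInternal Z.X) i (x b) ≠ 0 := by
      by_contra hall
      push Not at hall
      apply hb
      have h1 := sum_proj (W.isInternal Z.X) (N := 2 * Z.X.dim + 1)
        (fun i hi => W.gr_eq_bot Z.X i (by omega))
      have h2 := LinearMap.congr_fun h1 (x b)
      rw [LinearMap.sum_apply, sum_eq_zero fun i _ => hall i] at h2
      exact h2.symm
    obtain ⟨⟨hgen, hh⟩, hdeg⟩ := hcomp i hi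
    obtain ⟨i', hi'⟩ := sum_degree_even b hh
    refine ⟨hgen, i', j - i', hi', by omega, ?_⟩
    have h3 : ∀ i'', i'' ≠ 2 * (j - i') → proj (W.isInternal Z.X) i'' (x b) = 0 := by
      intro i'' hi''
      by_contra hne
      have := (hcomp i'' hne).2
      omega
    have h1 := sum_proj (W.isInternal Z.X) (N := 2 * Z.X.dim + 1)
        (fun i hi => W.gr_eq_bot Z.X i (by omega))
    have h2 := LinearMap.congr_fun h1 (x b)
    rw [LinearMap.sum_apply] at h2
    have h4 : x b = ∑ i ∈ range (2 * Z.X.dim + 1), proj (W.isInternal Z.X) i (x b) := h2.symm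
    rw [h4]
    refine Submodule.sum_mem _ fun i'' _ => ?_
    by_cases hi'' : i'' = 2 * (j - i')
    · rw [hi'']
      exact proj_mem _ _ _
    · rw [h3 i'' hi'']
      exact Submodule.zero_mem _
  -- the coefficients are Tate classes
  have hfix : ∀ b, ∃ Δ' : Subgroup Γ, Δ'.FiniteIndex ∧ (x b ≠ 0 → ∀ i, ∑ j, degree (b j) = 2 * i →
      ∀ g ∈ Δ', V.act g (e b) = (χ g : W.K) ^ i • e b) := by
    intro b
    by_cases hb : x b = 0
    · exact ⟨⊤, inferInstance, fun h => absurd hb h⟩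
    · obtain ⟨hgen, i, l, hi, -, -⟩ := key b hb
      obtain ⟨Δ', h1, h2⟩ := span_fix hGV (healg b i hgen hi)
      refine ⟨Δ', h1, fun _ i' hi' => ?_⟩
      have : i' = i := by omega
      rw [this]
      exact h2
  choose Δ' hΔ'fin hΔ' using hfix
  have hx_alg : ∀ b, x b ≠ 0 → x b ∈ algSpan W Z.X := by
    intro b hb
    obtain ⟨hgen, i, l, hi, hj, hgr⟩ := key b hb
    have h1 : x b ∈ Submodule.span W.K (algClasses W Z.X l) := by
      refine hT l (x b) hgr ⟨Δ ⊓ ⨅ b, Δ' b, ?_, ?_⟩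
      · have := Subgroup.finiteIndex_iInf hΔ'fin
        infer_instance
      · intro g hg
        have hg2 : ∀ b, g ∈ Δ' b := fun b => (Subgroup.mem_iInf.1 hg.2) b
        have h2 := hΔ g hg.1
        change υ g c' = _ at h2
        have h3 : ctr (e.coord b) (υ g c') = (χ g : W.K) ^ i • Z.act g (x b) := by
          rw [hexp, map_sum, map_sum]
          rw [sum_eq_single b]
          · rw [map_mul, hυ1, hυ2, hΔ' b hb i hi g (hg2 b), map_smul, smul_mul_assoc, map_smul,
              ctr_apply, Module.Basis.coord_apply, Module.Basis.repr_self, Finsupp.single_eq_same,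
              one_smul]
          · intro b' _ hbb
            by_cases hb' : x b' = 0
            · rw [hb', map_zero, mul_zero, map_zero, map_zero]
            · obtain ⟨-, i', -, hi', -, -⟩ := key b' hb'
              rw [map_mul, hυ1, hυ2, hΔ' b' hb' i' hi' g (hg2 b'), map_smul, smul_mul_assoc,
                map_smul, ctr_apply, Module.Basis.coord_apply, Module.Basis.repr_self,
                Finsupp.single_eq_of_ne (Ne.symm hbb), zero_smul, smul_zero]
          · intro h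
            exact absurd (mem_univ _) h
        rw [h2, map_smul] at h3
        have h4 : ctr (e.coord b) c' = x b := by rw [hx]
        rw [h4, hj, pow_add, mul_smul] at h3
        have h5 : (χ g : W.K) ^ i ≠ 0 := pow_ne_zero _ (χ g).ne_zero
        exact (smul_right_injective _ h5 h3).symm
    exact Submodule.span_mono (fun a ha => Set.mem_iUnion.2 ⟨l, ha⟩) h1
  have hc_alg : c' ∈ algSpan W (V.X.prod Z.X) := by
    rw [hexp]
    refine Submodule.sum_mem _ fun b _ => ?_
    by_cases hb : x b = 0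
    · rw [hb, map_zero, mul_zero]
      exact Submodule.zero_mem _
    · obtain ⟨hgen, i, l, hi, -, -⟩ := key b hb
      refine algSpan_mul (algSpan_map _ ?_) (algSpan_map _ (hx_alg b hb))
      exact Submodule.span_mono (fun a ha => Set.mem_iUnion.2 ⟨i, ha⟩) (healg b i hgen hi)
  exact algSpan_gr hc_alg hc'

end Run7.h306.TF
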