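import Pool.Agent.Run7.h306.FVDefs
import Pool.Agent.Y127.NDefs

/-!
# Galois representations of products with Fermat varieties: definitions

The framework is that of `MP_0d42ed_ag` and its neighbours in the starting files: `W` is a Weil
cohomology theory on a class of varieties over the separable closure `k` of a finitely generated field
`F₀`, a `GVar` is a variety with an action of the group `Γ` (the Galois group of `k` over `F₀`) on its
cohomology. The coefficient field of `W` (an algebraic closure of `ℚ_ℓ`) is isomorphic to `ℂ`.
-/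

set_option autoImplicit false

open CategoryTheory AlgebraicGeometry

namespace Run7.h306.TF

open Pool.Agent.H914 Pool.Agent.H914.VarClass Pool.Agent.H914.VarClass.Obj
  Pool.Agent.H914.WeilCohomology Pool.Agent.TH125.Gal Run7.h306.HF

noncomputable section

/-- The degree of the elements of the basis of the cohomology of a Fermat variety. -/
def degree {m n : ℕ} : Label m n → ℕ
  | Sum.inl i => 2 * i
  | Sum.inr _ => n

/-- The eigenvalue of the Frobenius of the finite field `κ` for the elements of the basis of the
cohomology of the Fermat variety of degree `m` over `κ`, up to a root of unity (Weil): a power of the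
number `q` of elements of `κ`, or a Jacobi sum, written as a product of Gauss sums divided by `q`. Here
`θ` is a character of order `N` of the multiplicative group of `κ`, where `N` is a multiple of `m`, and
`ψ` is a character of the additive group. -/
def jacobi {κ : Type} [Field κ] [Fintype κ] (θ : MulChar κ ℂ) (ψ : AddChar κ ℂ) (N : ℕ) {m n : ℕ} :
    Label m n → ℂ
  | Sum.inl i => (Fintype.card κ : ℂ) ^ (i : ℕ)
  | Sum.inr a => (∏ l, gaussSum (θ ^ (N / m * (a.entry l).val)) ψ) / Fintype.card κ

/-- The complex number `z` has the absolute value `q ^ (i / 2)`. -/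
def HasWeight (q i : ℕ) (z : ℂ) : Prop := ‖z‖ ^ 2 = (q : ℝ) ^ i

/-- The number `q ^ D z / z̄` is an algebraic integer. -/
def HasLevel (q D : ℕ) (z : ℂ) : Prop := IsIntegral ℤ ((q : ℂ) ^ D * z / starRingEnd ℂ z)

/-- The character `θ` of the multiplicative group of `κ` has the order `N`, a common multiple of the
degrees `m j` (so `κ` contains the roots of unity of order `N`), and the character `ψ` of the additive
group is not trivial. -/
structure AreCharacters {κ : Type} [Field κ] [Fintype κ] {J : Type} (m : J → ℕ) (N : ℕ)
    (θ : MulChar κ ℂ) (ψ : AddChar κ ℂ) : Prop where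
  pos : 0 < N
  dvd : ∀ j, m j ∣ N
  dvd_card : N ∣ Fintype.card κ - 1
  order : orderOf θ = N
  ne_one : ψ ≠ 1

section alg

variable {K A : Type} [Field K] [Ring A] [Algebra K A] {Γ : Type} [Group Γ]

/-- `α` is an eigenvalue of `f` on `gr i`. -/
def IsEigenvalue (gr : ℕ → Submodule K A) (f : A ≃ₐ[K] A) (i : ℕ) (α : K) : Prop :=
  ∃ x ∈ gr i, x ≠ 0 ∧ f x = α • x

/-- Properties of the cohomology algebra `A` of a variety `Z` with an action `ρ` of `Γ`, and of a Frobenius
element `F` of `Γ` at a place of good reduction with a residue field of `q` elements: `F` operates as `q`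
on the Tate twist (`χ` is the inverse of the cyclotomic character), all Betti numbers are at most
`B`, the set of the eigenvalues of `F` on `H^i(Z)` is stable under the automorphisms of `ℂ` (the
characteristic polynomial has rational coefficients), the eigenvalues have the absolute value
`q ^ (i / 2)`, and `Z` is of level at most `D`: the numbers `q ^ D α / ᾱ` are algebraic integers. By the
theorems of Deligne this is true with `D = dim Z` for all smooth projective varieties. -/
structure IsGoodCohomology (σ : K ≃+* ℂ) (χ : Γ →* Kˣ) (gr : ℕ → Submodule K A)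
    (ρ : Γ →* (A ≃ₐ[K] A)) (F : Γ) (q B D : ℕ) : Prop where
  twist : (χ F : K) = q
  betti : ∀ i, Module.finrank K (gr i) ≤ B
  conjugate : ∀ i α, IsEigenvalue gr (ρ F) i α → ∀ τ : ℂ ≃+* ℂ,
    IsEigenvalue gr (ρ F) i (σ.symm (τ (σ α)))
  weight : ∀ i α, IsEigenvalue gr (ρ F) i α → HasWeight q i (σ α)
  level : ∀ i α, IsEigenvalue gr (ρ F) i α → HasLevel q D (σ α)

variable {J : Type} [Fintype J] {m n : J → ℕ}

/-- The element `e b` of the basis has the degree of the label `b`. -/
def HasDegrees (gr : ℕ → Submodule K A) (e : Module.Basis (∀ j, Label (m j) (n j)) K A) : Prop :=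
  ∀ b, e b ∈ gr (∑ j, degree (b j))

/-- The elements `e b` of the basis are eigenvectors of `f`, with eigenvalues the products of the numbers
`jacobi` and a root of unity. -/
def HasJacobiSums (σ : K ≃+* ℂ) (f : A ≃ₐ[K] A) {κ : Type} [Field κ] [Fintype κ] (N : ℕ)
    (θ : MulChar κ ℂ) (ψ : AddChar κ ℂ) (e : Module.Basis (∀ j, Label (m j) (n j)) K A) : Prop :=
  ∀ b, ∃ (ζ : ℂ) (s : ℕ), 0 < s ∧ ζ ^ s = 1 ∧
    f (e b) = σ.symm (ζ * ∏ j, jacobi θ ψ N (b j)) • e b

/-- The elements `e b` with the property `IsGenerated` are algebraic: combinations of elements of the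
set `C i` of the classes of cycles of codimension `i`. -/
def HasAlgebraicLines (C : ℕ → Set A) (e : Module.Basis (∀ j, Label (m j) (n j)) K A) : Prop :=
  ∀ b i, IsGenerated b → ∑ j, degree (b j) = 2 * i → e b ∈ Submodule.span K (C i)

/-- `A` is the cohomology algebra of a product of Fermat varieties of degrees `m j` and dimensions `n j`,
and `F` is a Frobenius element at a place of good reduction with the residue field `κ`,
which contains the roots of unity of the orders `m j`. The basis `e b` of the cohomology consists of the
products of the classes `h ^ i` and of generators of the lines `V(a)` of the factors; it consists of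
eigenvectors of `F`, with eigenvalues the products of the numbers `jacobi` and a root of unity (Weil; the
forms `∑ c_i x_i ^ m = 0` are allowed). The classes `e b` with the property `IsGenerated` are algebraic
(Shioda, Aoki). -/
def IsFermatCohomology (σ : K ≃+* ℂ) (gr : ℕ → Submodule K A) (C : ℕ → Set A)
    (ρ : Γ →* (A ≃ₐ[K] A)) (F : Γ) (κ : Type) [Field κ] [Fintype κ] (m n : J → ℕ) : Prop :=
  ∃ (N : ℕ) (θ : MulChar κ ℂ) (ψ : AddChar κ ℂ)
    (e : Module.Basis (∀ j, Label (m j) (n j)) K A), AreCharacters m N θ ψ ∧
      HasDegrees gr e ∧ HasJacobiSums σ (ρ F) N θ ψ e ∧ HasAlgebraicLines C e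

end alg

variable {k : Type} [Field k] {𝒱 : VarClass k} {ops : CycleOps 𝒱}
  {W : WeilCohomology.{0, 0} ops} {Γ : Type} [Group Γ]

/-- `Z` is a variety with Betti numbers at most `B` and of level at most `D`, `F` is a Frobenius element
at a place of good reduction with a residue field of `q` elements, see `IsGoodCohomology`. -/
def IsGoodReduction (σ : W.K ≃+* ℂ) (χ : Γ →* W.Kˣ) (F : Γ) (q B D : ℕ) (Z : GVar W Γ) : Prop :=
  IsGoodCohomology σ χ (W.gr Z.X) Z.act F q B D

/-- `V` is a product of Fermat varieties of degrees `m j` and dimensions `n j`, see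
`IsFermatCohomology`. -/
def IsFermatProduct (σ : W.K ≃+* ℂ) (F : Γ) (κ : Type) [Field κ] [Fintype κ] {J : Type}
    [Fintype J] (m n : J → ℕ) (V : GVar W Γ) : Prop :=
  V.X.dim = ∑ j, n j ∧ IsFermatCohomology σ (W.gr V.X) (algClasses W V.X) V.act F κ m n

/-- `Y` is the product of `V` and `Z`; the actions of `Γ` are compatible with the projections. -/
def IsProduct (V Z Y : GVar W Γ) : Prop :=
  ∃ h : Y.X = V.X.prod Z.X, Intertwines (W.map (eqToHom h ≫ fst V.X Z.X)) V.act Y.act ∧
    Intertwines (W.map (eqToHom h ≫ snd V.X Z.X)) Z.act Y.act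

/-- The Tate conjecture for `Z`, over all finite extensions of the ground field: for all `j` each class
in `H^(2j)(Z)` on which a subgroup of finite index of `Γ` acts by `χ ^ j` is a linear combination of
classes of algebraic cycles of codimension `j`. -/
def Tate (χ : Γ →* W.Kˣ) (Z : GVar W Γ) : Prop :=
  TateAct χ (W.gr Z.X) (algClasses W Z.X) Z.act

/-- The action on the cohomology of `Z` has the formal properties of the action of a Galois group; `χ` is
the inverse of the cyclotomic character. -/
def IsGalois (χ : Γ →* W.Kˣ) (Z : GVar W Γ) : Prop :=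
  IsGaloisAct χ (W.gr Z.X) Z.X.dim (W.tr Z.X) (algClasses W Z.X) Z.act

/-- `Z` is a variety with Betti numbers at most `B` and of level at most `D`, `V` is a product of Fermat
varieties of degrees `m j` and dimensions `n j`, and `Y = V × Z`; `F` is a Frobenius element at a place
of good reduction with the residue field `κ`. -/
structure IsFermatTimes (σ : W.K ≃+* ℂ) (χ : Γ →* W.Kˣ) (F : Γ) (κ : Type) [Field κ] [Fintype κ]
    (B D : ℕ) {J : Type} [Fintype J] (m n : J → ℕ) (V Z Y : GVar W Γ) : Prop where
  galois_base : IsGalois χ Z
  good : IsGoodReduction σ χ F (Fintype.card κ) B D Z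
  galois : IsGalois χ V
  fermat : IsFermatProduct σ F κ m n V
  prod : IsProduct V Z Y

/-- Each `m j` is a divisor of `c - 1` and a power of a prime number larger than
`C (B D ^ 2) ^ (1 + ε)`. -/
def AreLarge (C ε : ℝ) (B D c : ℕ) {J : Type} (m : J → ℕ) : Prop :=
  ∀ j, ∃ p a : ℕ, p.Prime ∧ 1 ≤ a ∧ m j = p ^ a ∧ m j ∣ c - 1 ∧
    C * ((B : ℝ) * D ^ 2) ^ (1 + ε) < p

end

end Run7.h306.TF
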