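import Pool.Agent.Run7.h306.TGDefs

/-!
# Rational structures on vector spaces
-/

set_option autoImplicit false

open scoped TensorProduct

namespace Run7.h306.TG

variable {K : Type} [Field K] [CharZero K] {V : Type} [AddCommGroup V] [Module K V]

theorem naturalMap_tmul (A : AddSubgroup V) (c : K) (a : A) :
    naturalMap K A (c ⊗ₜ[ℤ] a) = c • (a : V) := rfl

omit [CharZero K] in
theorem range_naturalMap (A : AddSubgroup V) :
    LinearMap.range (naturalMap K A) = Submodule.span K (A : Set V) := by
  apply le_antisymm
  · rintro _ ⟨x, rfl⟩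
    induction x using TensorProduct.induction_on with
    | zero => rw [map_zero]; exact Submodule.zero_mem _
    | tmul c a => exact Submodule.smul_mem _ _ (Submodule.subset_span a.2)
    | add x y hx hy => rw [map_add]; exact Submodule.add_mem _ hx hy
  · rw [Submodule.span_le]
    intro a ha
    exact ⟨1 ⊗ₜ[ℤ] (⟨a, ha⟩ : A), by
      change (1 : K) • a = a
      rw [one_smul]⟩

/-- **The test lemma.** -/
theorem isRational_of {R : Type} [Fintype R] [DecidableEq R] {U : R → Type}
    [∀ i, AddCommGroup (U i)] [∀ i, Module K (U i)] (f : ∀ i, V →ₗ[K] U i) {A : AddSubgroup V}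
    {B : ∀ i, AddSubgroup (U i)} (hf : ∀ i, ∀ a ∈ A, f i a ∈ B i)
    (hinj : ∀ a ∈ A, (∀ i, f i a = 0) → a = 0) (hB : ∀ i, IsRational K (B i)) :
    IsRational K A := by
  let φ : A →ₗ[ℤ] (∀ i, B i) :=
    (AddMonoidHom.toIntLinearMap
      { toFun := fun a i => ⟨f i a, hf i a a.2⟩
        map_zero' := by
          funext i
          exact Subtype.ext (map_zero (f i))
        map_add' := fun a b => by
          funext i
          exact Subtype.ext (map_add (f i) _ _) })
  have hφ : ∀ a i, ((φ a i : B i) : U i) = f i a := fun a i => rfl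
  have hφinj : Function.Injective φ := by
    rw [injective_iff_map_eq_zero]
    intro a ha
    apply Subtype.ext
    refine hinj a a.2 fun i => ?_
    rw [← hφ, ha]
    rfl
  constructor
  · have h1 : ∀ i, Module.Finite ℤ (B i) := fun i =>
      Module.Finite.iff_addGroup_fg.2 (hB i).1
    have h2 : Module.Finite ℤ (∀ i, B i) := Module.Finite.pi
    have h3 : Module.Finite ℤ A := Module.Finite.of_injective φ hφinj
    exact Module.Finite.iff_addGroup_fg.1 h3
  · rw [injective_iff_map_eq_zero]
    intro x hx
    have h1 : Function.Injective (LinearMap.lTensor K φ) :=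
      Module.Flat.lTensor_preserves_injective_linearMap φ hφinj
    apply h1
    rw [map_zero]
    apply (TensorProduct.piRight ℤ K K (fun i => B i)).injective
    rw [map_zero]
    funext i
    apply (hB i).2
    rw [Pi.zero_apply, map_zero]
    have h2 : ∀ y : K ⊗[ℤ] A, naturalMap K (B i)
        ((TensorProduct.piRight ℤ K K (fun i => B i)) (LinearMap.lTensor K φ y) i) =
        f i (naturalMap K A y) := by
      intro y
      induction y using TensorProduct.induction_on with
      | zero => simp
      | tmul c a =>
        rw [LinearMap.lTensor_tmul]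
        change naturalMap K (B i) (c ⊗ₜ[ℤ] (φ a i)) = f i (c • (a : V))
        rw [map_smul]
        rfl
      | add x y hx hy =>
        rw [map_add, map_add, Pi.add_apply, map_add, hx, hy, map_add, map_add]
    rw [h2, hx, map_zero]

/-- One test map. -/
theorem isRational_of_one {U : Type} [AddCommGroup U] [Module K U] (f : V →ₗ[K] U)
    {A : AddSubgroup V} {B : AddSubgroup U} (hf : ∀ a ∈ A, f a ∈ B)
    (hinj : ∀ a ∈ A, f a = 0 → a = 0) (hB : IsRational K B) : IsRational K A :=
  isRational_of (R := Unit) (U := fun _ => U) (fun _ => f) (B := fun _ => B) (fun _ => hf)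
    (fun a ha h => hinj a ha (h ())) fun _ => hB

end Run7.h306.TG
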