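import Pool.Agent.Run7.h306.TG2
import Pool.Agent.Run7.h306.TC10
import Pool.Agent.N876.FL.Geo3

/-!
# The Tate conjecture for one step of a product
-/

set_option autoImplicit false

open CategoryTheory AlgebraicGeometry
open scoped TensorProduct

namespace Run7.h306.TG

open Pool.Agent.H914 Pool.Agent.H914.VarClass Pool.Agent.H914.VarClass.Obj
  Pool.Agent.H914.WeilCohomology Pool.Agent.H281R3.HT Pool.Agent.W552 Pool.Agent.TH125.Gal
  Pool.Agent.TH132.A Pool.Agent.N876.FL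

variable {k : Type} [Field k] {𝒱 : VarClass k} {ops : CycleOps 𝒱}
  {W : WeilCohomology.{0, 0} ops} {Γ : Type} [Group Γ] {χ : Γ →* W.Kˣ}

/-- The coefficients are equivariant. -/
theorem coef_act {A B : GVar W Γ} {υ : Γ →* (W.H (A.X.prod B.X) ≃ₐ[W.K] W.H (A.X.prod B.X))}
    (hA : TF.IsGalois χ A) (hB : TF.IsGalois χ B)
    (hC : ∀ g a, W.tr (A.X.prod B.X) (υ g a) =
      (χ g : W.K) ^ (A.X.prod B.X).dim * W.tr (A.X.prod B.X) a)
    (h1 : Intertwines (W.map (fst A.X B.X)) A.act υ)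
    (h2 : Intertwines (W.map (snd A.X B.X)) B.act υ) (g : Γ) (b : W.H A.X)
    (c : W.H (A.X.prod B.X)) :
    coef W (A.act g b) (υ g c) = (χ g : W.K) ^ A.X.dim • B.act g (coef W b c) := by
  rw [← sub_eq_zero]
  refine W.nondeg _ fun y => ?_
  obtain ⟨y', rfl⟩ := (B.act g).surjective y
  rw [sub_mul, map_sub, tr_coef, smul_mul_assoc, map_smul, ← map_mul (B.act g), hB.tr_act, tr_coef]
  have h3 : ext W (A.act g b) (B.act g y') = υ g (ext W b y') := by
    rw [ext, ext, map_mul, h1, h2]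
  rw [h3, ← map_mul (υ g), hC, smul_eq_mul, ← mul_assoc, ← pow_add]
  exact sub_self _

/-- The coefficients of a Tate class are Tate classes. -/
theorem coef_tate {A B : GVar W Γ} {υ : Γ →* (W.H (A.X.prod B.X) ≃ₐ[W.K] W.H (A.X.prod B.X))}
    (hA : TF.IsGalois χ A) (hB : TF.IsGalois χ B)
    (hC : ∀ g a, W.tr (A.X.prod B.X) (υ g a) =
      (χ g : W.K) ^ (A.X.prod B.X).dim * W.tr (A.X.prod B.X) a)
    (h1 : Intertwines (W.map (fst A.X B.X)) A.act υ)
    (h2 : Intertwines (W.map (snd A.X B.X)) B.act υ) {j l : ℕ} {b : W.H A.X}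
    (hb : b ∈ algClasses W A.X l) {c : W.H (A.X.prod B.X)} (hc : c ∈ W.gr (A.X.prod B.X) (2 * j))
    {Δ : Subgroup Γ} (hΔ : Δ.FiniteIndex) (hcΔ : ∀ g ∈ Δ, υ g c = (χ g : W.K) ^ j • c)
    (hT : TF.Tate χ B) : coef W b c ∈ algSpan W B.X := by
  have h3 : coef W b c ∈ grZ (W.gr B.X) (2 * ((j : ℤ) + l - A.X.dim)) := by
    have h4 : c * W.map (fst A.X B.X) b ∈ W.gr (A.X.prod B.X) (2 * (j + l)) := by
      rw [mul_add]
      exact W.mul_mem hc (W.map_mem _ (alg_gr hb))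
    have h5 := W.push_mem (snd A.X B.X) h4
    have h6 : ((2 * (j + l) : ℕ) : ℤ) + 2 * ((B.X.dim : ℤ) - (A.X.prod B.X).dim) =
        2 * ((j : ℤ) + l - A.X.dim) := by
      rw [dim_prod]
      push_cast
      ring
    rwa [h6] at h5
  by_cases hjl : A.X.dim ≤ j + l
  · obtain ⟨Δb, hΔb, hbΔ⟩ := hA.cl_fix l b hb
    have h7 : (2 * ((j : ℤ) + l - A.X.dim)) = ((2 * (j + l - A.X.dim) : ℕ) : ℤ) := by omega
    rw [h7, grZ_natCast] at h3
    have h8 := hT (j + l - A.X.dim) _ h3 ⟨Δ ⊓ Δb, inferInstance, fun g hg => by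
      have h9 := coef_act hA hB hC h1 h2 g b c
      rw [hcΔ g hg.1, hbΔ g hg.2] at h9
      have h10 : coef W ((χ g : W.K) ^ l • b) ((χ g : W.K) ^ j • c) =
          (χ g : W.K) ^ (j + l) • coef W b c := by
        rw [coef, coef, map_smul, smul_mul_smul_comm, map_smul, pow_add]
      rw [h10] at h9
      have h11 : (χ g : W.K) ^ A.X.dim ≠ 0 := pow_ne_zero _ (Units.ne_zero _)
      have h12 : (χ g : W.K) ^ A.X.dim • ((χ g : W.K) ^ (j + l - A.X.dim) • coef W b c) =
          (χ g : W.K) ^ A.X.dim • B.act g (coef W b c) := by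
        rw [smul_smul, ← pow_add, ← h9]
        congr 2
        omega
      exact ((smul_right_injective _ h11) h12).symm⟩
    exact (Submodule.span_mono (fun a ha => Set.mem_iUnion.2 ⟨_, ha⟩)) h8
  · rw [grZ_of_neg (by omega)] at h3
    rw [(Submodule.mem_bot _).1 h3]
    exact Submodule.zero_mem _

variable [IsAlgClosed W.K]

/-- **The Tate conjecture for a product without resonances.** -/
theorem tate_step {A B C : GVar W Γ} (hA : TF.IsGalois χ A) (hB : TF.IsGalois χ B)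
    (hC : TF.IsGalois χ C) (hP : TF.IsProduct A B C) {σ : Γ} {SA SB : Set W.K} (hSA : Cv A σ SA)
    (hSB : Eig B σ SB) (hres : Res ((χ σ : W.Kˣ) : W.K) SA SB) (hDA : HomEqNum W A.X)
    (hT : TF.Tate χ B) : TF.Tate χ C := by
  obtain ⟨υ, h1, h2, rfl⟩ := TF.prod_cases hP
  obtain ⟨T, hTT, hPT, hTS⟩ := hSA.ex
  rintro j c hc ⟨Δ, hΔ, hcΔ⟩
  obtain ⟨m, hm, hmΔ⟩ := Subgroup.exists_pow_mem_of_index_ne_zero hΔ.index_ne_zero σ
  have hm0 : 0 < m := hm
  have h0 : ((op (⟨A.X.prod B.X, υ⟩ : GVar W Γ) σ) ^ m) c =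
      ((χ σ : W.Kˣ) : W.K) ^ (m * j) • c := by
    rw [op_pow, op_apply]
    change υ (σ ^ m) c = _
    rw [hcΔ _ hmΔ.2, map_pow, Units.val_pow_eq_pow_val, ← pow_mul]
  have hs : c ∈ Submodule.span W.K {w | ∃ x y, AS W A.X x ∧ w = ext W x y} := by
    obtain ⟨u, rfl⟩ := (W.kunneth A.X B.X).2 c
    have h3 : ((TensorProduct.map (op A σ) (op B σ)) ^ m) u =
        ((χ σ : W.Kˣ) : W.K) ^ (m * j) • u := by
      apply (W.kunneth A.X B.X).1
      rw [← kun_op h1 h2, map_smul]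
      exact h0
    have h4 := mem_of_res (alg_stable hA σ) hTT hPT (fun α β hα hβ =>
      hres α (hTS α hα) β (hSB β hβ) m j hm0) h3
    obtain ⟨u', rfl⟩ := h4
    exact kun_range u'
  obtain ⟨N, a, b, hab⟩ := exists_dualFam hDA
  have h5 : c ∈ algSpan W (A.X.prod B.X) := by
    rw [hab.rep hs]
    refine Submodule.sum_mem _ fun i _ => ?_
    have h6 : coef W (b i) c ∈ algSpan W B.X := by
      refine AS.ind (p := fun b => coef W b c ∈ algSpan W B.X) ?_ ?_ (hab.hb i)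
      · intro l b hb
        exact coef_tate hA hB hC.tr_act h1 h2 hb hc hΔ hcΔ hT
      · intro b b' hb hb'
        rw [coef_add]
        exact Submodule.add_mem _ hb hb'
    exact algSpan_mul (algSpan_map _ (as_algSpan (hab.ha i))) (algSpan_map _ h6)
  exact algSpan_gr h5 hc

/-- **The Tate conjecture with finite generation for a product without resonances.** -/
theorem full_step (hops : HasIntegralOperations W) {A B C : GVar W Γ} (hA : TF.IsGalois χ A)
    (hB : TF.IsGalois χ B) (hC : TF.IsGalois χ C) (hP : TF.IsProduct A B C) {σ : Γ}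
    {SA SB : Set W.K} (hSA : Cv A σ SA) (hSB : Eig B σ SB)
    (hres : Res ((χ σ : W.Kˣ) : W.K) SA SB) (hDA : HomEqNum W A.X) (h1 : (1 : W.H A.X) ≠ 0) :
    TateConjecture χ C ↔ TateConjecture χ B := by
  rw [tate_iff, tate_iff]
  constructor
  · rintro ⟨h2, h3⟩
    refine ⟨?_, ?_⟩
    · obtain ⟨υ, -, -, rfl⟩ := TF.prod_cases hP
      exact isRational_factor hops h1 h2
    · obtain ⟨-, x, hx, htr⟩ := exists_partner hDA (alg_one (W := W) (X := A.X)) h1
      rw [one_mul] at htr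
      rw [Nat.sub_zero] at hx
      exact TC.tate_snd hP (Submodule.subset_span hx) (alg_gr hx) htr h3
  · rintro ⟨h2, h3⟩
    refine ⟨?_, tate_step hA hB hC hP hSA hSB hres hDA h3⟩
    obtain ⟨υ, e1, e2, rfl⟩ := TF.prod_cases hP
    exact isRational_prod hops hDA (span_of_res hA hC (IsProdVar.mk υ e1 e2) hSA hSB hres) h2

end Run7.h306.TG
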