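import Pool.Agent.Run7.h306.TG3
import Pool.Agent.Run7.h306.TGDefs2

/-!
# Towers
-/

set_option autoImplicit false

open CategoryTheory AlgebraicGeometry
open scoped TensorProduct

namespace Run7.h306.TG

open Pool.Agent.H914 Pool.Agent.H914.VarClass Pool.Agent.H914.VarClass.Obj
  Pool.Agent.H914.WeilCohomology Pool.Agent.H281R3.HT Pool.Agent.W552 Pool.Agent.TH125.Gal
  Pool.Agent.TH132.A Pool.Agent.N876.FL

variable {k : Type} [Field k] {𝒱 : VarClass k} {ops : CycleOps 𝒱}
  {W : WeilCohomology.{0, 0} ops} {Γ : Type} [Group Γ] {χ : Γ →* W.Kˣ}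

/-- the shape of the eigenvalues -/
def ShapeS {ι : Type} (S : ι → Set W.K) (SZ : Set W.K) (q : W.K) (L : Set ι) (γ : W.K) : Prop :=
  ∃ (I : Finset ι) (α : ι → W.K) (β : W.K) (e m : ℕ), (∀ i ∈ I, i ∈ L) ∧ (∀ i ∈ I, α i ∈ S i) ∧
    β ∈ SZ ∧ 0 < m ∧ γ ^ m = ((∏ i ∈ I, α i) * q ^ e * β) ^ m

variable [IsAlgClosed W.K] {ι : Type} {X : ι → GVar W Γ} {Z : GVar W Γ} {S : ι → Set W.K} {σ : Γ}

theorem tower_shape (hX : ∀ i, TF.IsGalois χ (X i)) (hcv : ∀ i, Cv (X i) σ (S i)) {L : Set ι}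
    {Y : GVar W Γ} (hY : IsTower X Z L Y) : ∀ γ, (op Y σ).HasEigenvalue γ →
      ShapeS S {β | (op Z σ).HasEigenvalue β} ((χ σ : W.Kˣ) : W.K) L γ := by
  classical
  induction hY with
  | base =>
    refine fun γ hγ => ⟨∅, fun _ => 0, γ, 0, 1, by simp, by simp, hγ, one_pos, ?_⟩
    rw [Finset.prod_empty, pow_zero, one_mul, one_mul]
  | @step L Y Y' i hY hi hP ih =>
    intro γ hγ
    obtain ⟨υ, h1, h2, rfl⟩ := TF.prod_cases hP
    obtain ⟨α, β', hα, hβ', rfl⟩ := eig_prod (A := X i) (B := Y) (IsProdVar.mk υ h1 h2) hγ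
    obtain ⟨I, α', β, e, m, hI, hα', hβ, hm, hγ'⟩ := ih β' hβ'
    have hiI : i ∉ I := fun h0 => hi (hI i h0)
    rcases eig_factor (hX i) (hcv i) hα with hαS | ⟨m', j, hm', hαm⟩
    · refine ⟨insert i I, Function.update α' i α, β, e, m, ?_, ?_, hβ, hm, ?_⟩
      · intro i' hi'
        rcases Finset.mem_insert.1 hi' with rfl | hi'
        · exact Set.mem_insert _ _
        · exact Set.mem_insert_of_mem _ (hI i' hi')
      · intro i' hi'
        rcases Finset.mem_insert.1 hi' with rfl | hi'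
        · rw [Function.update_self]; exact hαS
        · rw [Function.update_of_ne (ne_of_mem_of_not_mem hi' hiI)]
          exact hα' i' hi'
      · rw [Finset.prod_insert hiI, Function.update_self, mul_pow, hγ', ← mul_pow]
        congr 1
        rw [Finset.prod_congr rfl fun i' hi' =>
          Function.update_of_ne (ne_of_mem_of_not_mem hi' hiI) α α']
        ring
    · refine ⟨I, α', β, e + j, m * m', fun i' hi' => Set.mem_insert_of_mem _ (hI i' hi'), hα', hβ,
        Nat.mul_pos hm hm', ?_⟩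
      have h3 : α ^ (m * m') = (((χ σ : W.Kˣ) : W.K) ^ j) ^ (m * m') := by
        rw [mul_comm m m', pow_mul, hαm, ← pow_mul, ← pow_mul]
        congr 1
        ring
      rw [mul_pow, h3, pow_mul β', hγ', ← pow_mul ((∏ i ∈ I, α' i) * _ * β), ← mul_pow]
      congr 1
      rw [pow_add]
      ring

/-- no resonances for one step -/
theorem res_step (hres : NoResF ((χ σ : W.Kˣ) : W.K) S {β | (op Z σ).HasEigenvalue β}) {i : ι}
    {L : Set ι} (hi : i ∉ L) {B : GVar W Γ}
    (hB : ∀ γ, (op B σ).HasEigenvalue γ →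
      ShapeS S {β | (op Z σ).HasEigenvalue β} ((χ σ : W.Kˣ) : W.K) L γ) :
    Res ((χ σ : W.Kˣ) : W.K) (S i) {γ | (op B σ).HasEigenvalue γ} := by
  classical
  intro α hα γ hγ m w hm heq
  obtain ⟨I, α', β, e, m', hI, hα', hβ, hm', hγ'⟩ := hB γ hγ
  have hiI : i ∉ I := fun h0 => hi (hI i h0)
  refine hres (insert i I) (Finset.insert_nonempty i I) (Function.update α' i α) ?_ β hβ e
    (m * m') w (Nat.mul_pos hm hm') ?_
  · intro i' hi'
    rcases Finset.mem_insert.1 hi' with rfl | hi'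
    · rw [Function.update_self]; exact hα
    · rw [Function.update_of_ne (ne_of_mem_of_not_mem hi' hiI)]
      exact hα' i' hi'
  · rw [Finset.prod_insert hiI, Function.update_self,
      Finset.prod_congr rfl fun i' hi' =>
        Function.update_of_ne (ne_of_mem_of_not_mem hi' hiI) α α']
    have h1 : α * (∏ i ∈ I, α' i) * ((χ σ : W.Kˣ) : W.K) ^ e * β =
        α * ((∏ i ∈ I, α' i) * ((χ σ : W.Kˣ) : W.K) ^ e * β) := by ring
    rw [h1, mul_pow, mul_comm m m', pow_mul ((∏ i ∈ I, α' i) * _ * β), ← hγ', ← pow_mul γ,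
      ← mul_pow, mul_comm m' m, pow_mul, heq, ← pow_mul]
    congr 1
    ring

theorem homEqNum_factor (hX : ∀ i, TF.IsGalois χ (X i)) (hcv : ∀ i, Cv (X i) σ (S i))
    (hres1 : NoResF ((χ σ : W.Kˣ) : W.K) S {1}) (i : ι) : HomEqNum W (X i).X := by
  classical
  refine homEqNum_of_res (hX i) (hcv i) fun α hα m w hm heq => ?_
  refine hres1 {i} (Finset.singleton_nonempty i) (fun _ => α) ?_ 1 rfl 0 m w hm ?_
  · intro i' hi'
    rw [Finset.mem_singleton.1 hi']
    exact hα
  · rw [Finset.prod_singleton, pow_zero, mul_one, mul_one, heq]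

/-- **The Tate conjecture for towers without resonances.** -/
theorem tower_full (hops : HasIntegralOperations W) (hX : ∀ i, TF.IsGalois χ (X i))
    (hcv : ∀ i, Cv (X i) σ (S i))
    (hres : NoResF ((χ σ : W.Kˣ) : W.K) S {β | (op Z σ).HasEigenvalue β})
    (hres1 : NoResF ((χ σ : W.Kˣ) : W.K) S {1}) (hone : ∀ i, (1 : W.H (X i).X) ≠ 0)
    (hG : ∀ L Y, IsTower X Z L Y → TF.IsGalois χ Y) {L : Set ι} {Y : GVar W Γ}
    (hY : IsTower X Z L Y) : TateConjecture χ Y ↔ TateConjecture χ Z := by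
  induction hY with
  | base => exact Iff.rfl
  | @step L Y Y' i hY hi hP ih =>
    rw [← ih]
    exact full_step hops (hX i) (hG _ _ hY) (hG _ _ (IsTower.step i hY hi hP)) hP (hcv i)
      (SB := {γ | (op Y σ).HasEigenvalue γ}) (fun γ hγ => hγ)
      (res_step hres hi (tower_shape hX hcv hY)) (homEqNum_factor hX hcv hres1 i) (hone i)

end Run7.h306.TG
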