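import Pool.Agent.Run7.h306.TFDefs

/-!
# The Tate conjecture with finite generation: definitions

`W` is a Weil cohomology theory on a class of varieties over the separable closure `k` of a finitely
generated field, a `GVar` is a variety with an action of the Galois group `Γ` on its cohomology.
-/

set_option autoImplicit false

open CategoryTheory AlgebraicGeometry
open scoped TensorProduct

namespace Run7.h306.TG

open Pool.Agent.H914 Pool.Agent.H914.VarClass Pool.Agent.H914.VarClass.Obj
  Pool.Agent.H914.WeilCohomology Pool.Agent.TH125.Gal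

noncomputable section

section alg

variable (K : Type) [Field K] {V : Type} [AddCommGroup V] [Module K V]

/-- The natural map `K ⊗ A → V` for a subgroup `A` of the `K`-vector space `V`. -/
def naturalMap (A : AddSubgroup V) : K ⊗[ℤ] A →ₗ[K] V :=
  LinearMap.liftBaseChange K A.subtype.toIntLinearMap

/-- `A` is finitely generated and `K ⊗ A → V` is injective. -/
def IsRational (A : AddSubgroup V) : Prop :=
  AddGroup.FG A ∧ Function.Injective (naturalMap K A)

end alg

section alg

variable {K A Γ : Type} [Field K] [Ring A] [Algebra K A] [Group Γ]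

/-- A subgroup of finite index of `Γ` operates on `c` by `χ ^ j`. -/
def IsTateElement (χ : Γ →* Kˣ) (ρ : Γ →* (A ≃ₐ[K] A)) (j : ℕ) (c : A) : Prop :=
  ∃ Δ : Subgroup Γ, Δ.FiniteIndex ∧ ∀ g ∈ Δ, ρ g c = (χ g : K) ^ j • c

/-- The assertion of the Tate conjecture for an algebra `A` with the subspaces `gr i`, the operation `ρ`
of `Γ` and the subgroups `C j`: for all `j` the group `C j` is finitely generated, and the natural
map from `K ⊗ C j` to `A` is injective and its image contains the elements of `gr (2 j)` on which
a subgroup of finite index of `Γ` operates by `χ ^ j`. -/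
def HasTateProperty (χ : Γ →* Kˣ) (gr : ℕ → Submodule K A) (C : ℕ → AddSubgroup A)
    (ρ : Γ →* (A ≃ₐ[K] A)) : Prop :=
  ∀ j, AddGroup.FG (C j) ∧ Function.Injective (naturalMap K (C j)) ∧
    ∀ c ∈ gr (2 * j), IsTateElement χ ρ j c → c ∈ LinearMap.range (naturalMap K (C j))

end alg

variable {k : Type} [Field k] {𝒱 : VarClass k} {ops : CycleOps 𝒱}

/-- The cycle `z` has integral coefficients. -/
def IsIntegralCycle {X : 𝒱.Obj} (z : X.Cycles) : Prop := ∀ x, ∃ n : ℤ, X.V.coeff z x = n

/-- The group `A^j(X)`: the classes of the cycles of codimension `j` with integral coefficients in the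
cohomology. -/
def cycleGroup (W : WeilCohomology.{0, 0} ops) (X : 𝒱.Obj) (j : ℕ) : AddSubgroup (W.H X) where
  carrier := {a | ∃ z : X.Cycles, X.IsCyc j z ∧ IsIntegralCycle z ∧ W.cl X z = a}
  zero_mem' := ⟨0, SmVar.IsCyc.zero _ _, fun _ => ⟨0, by rw [Int.cast_zero]; rfl⟩, map_zero _⟩
  add_mem' := by
    rintro _ _ ⟨z, hz, hz', rfl⟩ ⟨w, hw, hw', rfl⟩
    refine ⟨z + w, hz.add hw, fun x => ?_, map_add _ _ _⟩
    obtain ⟨m, hm⟩ := hz' x
    obtain ⟨n, hn⟩ := hw' x
    refine ⟨m + n, ?_⟩
    rw [Int.cast_add, ← hm, ← hn]
    rfl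
  neg_mem' := by
    rintro _ ⟨z, hz, hz', rfl⟩
    refine ⟨-z, ?_, fun x => ?_, map_neg _ _⟩
    · have h := hz.smul (-1)
      rwa [neg_smul, one_smul] at h
    · obtain ⟨m, hm⟩ := hz' x
      refine ⟨-m, ?_⟩
      rw [Int.cast_neg, ← hm]
      rfl

/-- The intersection products of classes of cycles with integral coefficients are such classes. -/
def HasIntegralProducts (W : WeilCohomology.{0, 0} ops) : Prop :=
  ∀ (X : 𝒱.Obj) (i j : ℕ) (a b : W.H X), a ∈ cycleGroup W X i → b ∈ cycleGroup W X j →
    a * b ∈ cycleGroup W X (i + j)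

/-- The pull-backs of classes of cycles with integral coefficients are such classes. -/
def HasIntegralPullbacks (W : WeilCohomology.{0, 0} ops) : Prop :=
  ∀ (X Y : 𝒱.Obj) (f : X ⟶ Y) (i : ℕ) (a : W.H Y), a ∈ cycleGroup W Y i →
    W.map f a ∈ cycleGroup W X i

/-- The push-forwards of classes of cycles with integral coefficients are such classes. -/
def HasIntegralPushforwards (W : WeilCohomology.{0, 0} ops) : Prop :=
  ∀ (X Y : 𝒱.Obj) (f : X ⟶ Y) (i j : ℕ) (a : W.H X), a ∈ cycleGroup W X i →
    i + Y.dim = j + X.dim → W.push f a ∈ cycleGroup W Y j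

/-- The intersection products, the pull-backs and the push-forwards of classes of cycles with
integral coefficients are classes of cycles with integral coefficients. -/
structure HasIntegralOperations (W : WeilCohomology.{0, 0} ops) : Prop where
  products : HasIntegralProducts W
  pullbacks : HasIntegralPullbacks W
  pushforwards : HasIntegralPushforwards W

variable {W : WeilCohomology.{0, 0} ops} {Γ : Type} [Group Γ]

/-- The Tate conjecture for `X`: for all `j` the group `A^j(X)` is finitely generated and the natural map
from `K ⊗ A^j(X)` to the space of the classes in `H^(2j)(X)` on which a subgroup of finite index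
of `Γ` acts by `χ ^ j` is bijective. -/
def TateConjecture (χ : Γ →* W.Kˣ) (X : GVar W Γ) : Prop :=
  HasTateProperty χ (W.gr X.X) (cycleGroup W X.X) X.act

end

end Run7.h306.TG
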