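import Pool.Agent.E8helper14.PA.Fin

/-!
# Rational points of simple abelian varieties over all `ℚ_p`: definitions and counting

`SimpleAbelianVariety p n`, `closure`, `rank` and `HasZpRank` are in `Pool.Agent.E8helper40.PC`, `box` is
in `Pool.Agent.E8helper14.PA.Count`.
-/

set_option autoImplicit false

open TensorProduct Module Pool.Agent.E8helper40.PC Pool.Agent.E8helper14.PA

namespace Pool.Agent.Run7.h306.WA

/-- A simple abelian variety `A` over `ℚ` of dimension `n`: the group `A(ℚ)` and, for each prime number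
`p`, the data `SimpleAbelianVariety p n` (`A(ℚ_p)`, the logarithm, the endomorphisms, ...). -/
structure AbVar (n : ℕ) where
  /-- `A(ℚ)` -/
  Pts : Type
  [grp : AddCommGroup Pts]
  /-- the Mordell-Weil theorem -/
  fg : AddGroup.FG Pts
  /-- `A` over `ℚ_p` -/
  loc : ∀ (p : ℕ) [Fact p.Prime], SimpleAbelianVariety p n
  /-- the points over `ℚ` of `A` over `ℚ_p` are the points of `A` -/
  pts : ∀ (p : ℕ) [Fact p.Prime], Pts ≃+ (loc p).Pts

attribute [instance] AbVar.grp

variable {n : ℕ} (A : AbVar n)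

/-- The rank of a subgroup of `A(ℚ)`. -/
noncomputable def rk (L : AddSubgroup A.Pts) : ℕ := finrank ℚ (ℚ ⊗[ℤ] L)

/-- The closure in `A(ℚ_p)` of a subgroup `L` of `A(ℚ)` is isomorphic to `ℤ_p ^ r` modulo finite
torsion. -/
def ClosureRank (p : ℕ) [Fact p.Prime] (L : AddSubgroup A.Pts) (r : ℕ) : Prop :=
  HasZpRank p (closure (A.loc p) (L.map (A.pts p).toAddMonoidHom)) r

/-- Waldschmidt's theorem on the `p`-adic closure of a subgroup of rank `ℓ` of a simple abelian variety
over `ℚ`: its `ℤ_p`-rank `ρ` satisfies `ρ ≥ ℓ n / (ℓ + 2 n)`. -/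
def Waldschmidt : Prop :=
  ∀ (p : ℕ) [Fact p.Prime] (L : AddSubgroup A.Pts) (ρ : ℕ), ClosureRank A p L ρ →
    rk A L * n ≤ ρ * (rk A L + 2 * n)

/-- The points are independent modulo torsion. -/
def Indep {N : ℕ} (e : Fin N → A.Pts) : Prop := LinearIndependent ℚ fun j => (1 : ℚ) ⊗ₜ[ℤ] e j

/-- The point `∑_j k_j e_j`. -/
def pt {N : ℕ} (e : Fin N → A.Pts) (k : Fin N → ℤ) : A.Pts := ∑ j, k j • e j

/-- The subgroup generated by the points `∑_j k_ij e_j + t_i`, `i = 1, …, m`. -/
def grp {m N : ℕ} (e : Fin N → A.Pts) (t : Fin m → A.Pts) (k : Fin m → Fin N → ℤ) :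
    AddSubgroup A.Pts :=
  AddSubgroup.closure (Set.range fun i => pt A e (k i) + t i)

/-- For all torsion points `t_i`, the closure in `A(ℚ_p)` of the group generated by the `m` points
`∑_j k_ij e_j + t_i` is isomorphic to `ℤ_p ^ m` modulo finite torsion. -/
def Good (p : ℕ) [Fact p.Prime] {m N : ℕ} (e : Fin N → A.Pts) (k : Fin m → Fin N → ℤ) : Prop :=
  ∀ t : Fin m → A.Pts, (∀ i, IsOfFinAddOrder (t i)) → ClosureRank A p (grp A e t k) m

/-- `k` fails to be good at some prime number of the finite set `Q`. -/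
def FailsAt (Q : Finset ℕ) {m N : ℕ} (e : Fin N → A.Pts) (k : Fin m → Fin N → ℤ) : Prop :=
  ∃ (p : ℕ) (hp : p.Prime), p ∈ Q ∧ ¬ @Good n A p ⟨hp⟩ m N e k

open Classical in
/-- The number of the `m × N` matrices of integers of absolute value at most `H` which fail at some prime
number of the set `Q`. -/
noncomputable def failures (Q : Finset ℕ) {N : ℕ} (e : Fin N → A.Pts) (m H : ℕ) : ℕ :=
  ((box m N H).filter fun k => FailsAt A Q e k).card

/-- The number `2 n r / (n - r)`, rounded down. -/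
def bnd (n r : ℕ) : ℕ := 2 * n * r / (n - r)

/-! ### Translation -/

variable {p : ℕ} [Fact p.Prime]

/-- The points over `ℚ_p`. -/
def locPts (p : ℕ) [Fact p.Prime] {N : ℕ} (e : Fin N → A.Pts) : Fin N → (A.loc p).Pts :=
  fun j => A.pts p (e j)

lemma locPts_indep {N : ℕ} (e : Fin N → A.Pts) (he : Indep A e) :
    Independent (A.loc p) (locPts A p e) := by
  let j : ℚ ⊗[ℤ] A.Pts →ₗ[ℚ] ℚ ⊗[ℤ] (A.loc p).Pts :=
    LinearMap.baseChange ℚ (A.pts p).toAddMonoidHom.toIntLinearMap
  have hj : Function.Injective j :=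
    Module.Flat.lTensor_preserves_injective_linearMap (M := ℚ)
      (A.pts p).toAddMonoidHom.toIntLinearMap (A.pts p).injective
  exact he.map' j (LinearMap.ker_eq_bot.2 hj)

lemma isOfFin {t : A.Pts} (ht : IsOfFinAddOrder t) : IsOfFinAddOrder (A.pts p t) := by
  obtain ⟨m, hm, h⟩ := isOfFinAddOrder_iff_nsmul_eq_zero.1 ht
  exact isOfFinAddOrder_iff_nsmul_eq_zero.2 ⟨m, hm, by rw [← map_nsmul, h, map_zero]⟩

lemma map_pt {N : ℕ} (e : Fin N → A.Pts) (k : Fin N → ℤ) :
    A.pts p (pt A e k) = ∑ j, k j • locPts A p e j := by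
  rw [pt, map_sum]
  exact Finset.sum_congr rfl fun j _ => map_zsmul _ _ _

lemma map_grp {m N : ℕ} (e : Fin N → A.Pts) (t : Fin m → A.Pts) (k : Fin m → Fin N → ℤ) :
    (grp A e t k).map (A.pts p).toAddMonoidHom =
      tupleGroup (A.loc p) (locPts A p e) (fun i => A.pts p (t i)) k := by
  rw [grp, tupleGroup, AddMonoidHom.map_closure]
  congr 1
  rw [← Set.range_comp]
  congr 1
  funext i
  change A.pts p (pt A e (k i) + t i) = _
  rw [map_add, map_pt]

lemma good_of_local {m N : ℕ} (e : Fin N → A.Pts) (k : Fin m → Fin N → ℤ)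
    (h : GoodTuple (A.loc p) (locPts A p e) k) : Good A p e k := by
  intro t ht
  rw [ClosureRank, map_grp]
  exact h _ fun i => isOfFin A (ht i)

lemma rk_map (L : AddSubgroup A.Pts) :
    rank (A.loc p) (L.map (A.pts p).toAddMonoidHom) = rk A L := by
  let f : L ≃+ (L.map (A.pts p).toAddMonoidHom) :=
    (A.pts p).addSubgroupMap L
  rw [rank, rk]
  exact (TensorProduct.AlgebraTensorModule.congr (LinearEquiv.refl ℚ ℚ)
    f.toIntLinearEquiv).symm.finrank_eq

/-- Every subgroup of `(A.loc p).Pts` is an image. -/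
lemma map_comap (C : AddSubgroup (A.loc p).Pts) :
    (C.comap (A.pts p).toAddMonoidHom).map (A.pts p).toAddMonoidHom = C :=
  AddSubgroup.map_comap_eq_self_of_surjective (A.pts p).surjective C

lemma loc_fg (C : AddSubgroup (A.loc p).Pts) : C.FG := by
  have h1 : Module.Finite ℤ A.Pts := Module.Finite.iff_addGroup_fg.2 A.fg
  have h2 : Module.Finite ℤ (A.loc p).Pts := Module.Finite.equiv (A.pts p).toIntLinearEquiv
  have h3 : IsNoetherian ℤ (A.loc p).Pts := isNoetherian_of_isNoetherianRing_of_finite ℤ _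
  have h4 := h3.noetherian (AddSubgroup.toIntSubmodule C)
  have h5 := (Submodule.fg_iff_addSubgroup_fg (AddSubgroup.toIntSubmodule C)).1 h4
  rwa [AddSubgroup.toIntSubmodule_toAddSubgroup] at h5

/-- Waldschmidt's theorem for the subgroups of `(A.loc p).Pts`. -/
lemma wald_loc (hW : Waldschmidt A) (C : AddSubgroup (A.loc p).Pts) :
    rank (A.loc p) C * n ≤ finrank ℚ_[p] (logSpan (A.loc p) C) * (rank (A.loc p) C + 2 * n) := by
  have h := hW p (C.comap (A.pts p).toAddMonoidHom) (finrank ℚ_[p] (logSpan (A.loc p) C)) (by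
    rw [ClosureRank, map_comap]
    exact hasZpRank_logSpan (A.loc p) C)
  have h1 := rk_map (p := p) A (C.comap (A.pts p).toAddMonoidHom)
  rw [map_comap] at h1
  rwa [← h1] at h

/-- The points whose logarithms lie in `W`. -/
noncomputable def inW (W : Submodule ℚ_[p] (Fin n → ℚ_[p])) : AddSubgroup (A.loc p).Pts :=
  W.toAddSubgroup.comap ((A.loc p).log.comp (A.loc p).incl)

lemma mem_inW (W : Submodule ℚ_[p] (Fin n → ℚ_[p])) (x : (A.loc p).Pts) :
    x ∈ inW A W ↔ (A.loc p).log ((A.loc p).incl x) ∈ W := Iff.rfl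

/-- The rank of the group of the points whose logarithms lie in `W`. -/
lemma rank_inW (hW : Waldschmidt A) (W : Submodule ℚ_[p] (Fin n → ℚ_[p])) :
    rank (A.loc p) (inW A W) * (n - finrank ℚ_[p] W) ≤ 2 * n * finrank ℚ_[p] W := by
  have h1 := wald_loc A hW (inW A W)
  have h2 : finrank ℚ_[p] (logSpan (A.loc p) (inW A W)) ≤ finrank ℚ_[p] W := by
    refine Submodule.finrank_mono ?_
    rw [logSpan, Submodule.span_le]
    rintro _ ⟨x, hx, rfl⟩
    exact hx
  have h3 := h1.trans (Nat.mul_le_mul_right _ h2)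
  have h4 : finrank ℚ_[p] W ≤ n := by
    have := Submodule.finrank_le W
    simpa using this
  obtain ⟨c, hc⟩ := Nat.exists_eq_add_of_le h4
  have h5 : n - finrank ℚ_[p] W = c := by omega
  rw [h5]
  generalize rank (A.loc p) (inW A W) = ℓ at h3 ⊢
  generalize finrank ℚ_[p] W = d at h3 hc ⊢
  rw [hc] at h3 ⊢
  nlinarith [h3]

/-- The rational combinations of independent points whose logarithms lie in `W`. -/
lemma relSpace_le {N : ℕ} (e : Fin N → (A.loc p).Pts) (he : Independent (A.loc p) e)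
    (W : Submodule ℚ_[p] (Fin n → ℚ_[p])) :
    finrank ℚ (relSpace (logs (A.loc p) e) W) ≤ rank (A.loc p) (inW A W) := by
  classical
  obtain ⟨g, hg, hgspan⟩ := exists_family (A.loc p) (inW A W) (loc_fg A _)
  set T := Submodule.span ℚ (Set.range fun i => (1 : ℚ) ⊗ₜ[ℤ] ((g i : inW A W) : (A.loc p).Pts))
    with hT
  have hTr : finrank ℚ T = rank (A.loc p) (inW A W) := by
    rw [hT, finrank_span_eq_card hg, Fintype.card_fin]
  have hTfin : Module.Finite ℚ T := FiniteDimensional.span_of_finite ℚ (Set.finite_range _)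
  have hmem : ∀ q ∈ relSpace (logs (A.loc p) e) W,
      Fintype.linearCombination ℚ (fun j => (1 : ℚ) ⊗ₜ[ℤ] e j) q ∈ T := by
    intro q hq
    obtain ⟨b, hb⟩ := IsLocalization.exist_integer_multiples_of_finite (nonZeroDivisors ℤ) q
    choose k hk using hb
    have hb0 : ((b : ℤ) : ℚ) ≠ 0 := by
      exact_mod_cast nonZeroDivisors.coe_ne_zero b
    have hkq : ∀ j, (k j : ℚ) = ((b : ℤ) : ℚ) * q j := by
      intro j
      have := hk j
      simpa [zsmul_eq_mul] using this
    have hkS : ∑ j, k j • e j ∈ inW A W := by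
      rw [mem_inW, log_sum, icomb_mem]
      have h1 : (fun l => (k l : ℚ)) = ((b : ℤ) : ℚ) • q := by
        funext j
        rw [hkq j]
        rfl
      rw [h1]
      exact Submodule.smul_mem _ _ hq
    have h2 := hgspan _ hkS
    have h3 : Fintype.linearCombination ℚ (fun j => (1 : ℚ) ⊗ₜ[ℤ] e j) q =
        ((b : ℤ) : ℚ)⁻¹ • ((1 : ℚ) ⊗ₜ[ℤ] ∑ j, k j • e j) := by
      rw [Fintype.linearCombination_apply, TensorProduct.tmul_sum, Finset.smul_sum]
      refine Finset.sum_congr rfl fun j _ => ?_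
      rw [TensorProduct.tmul_smul, ← Int.cast_smul_eq_zsmul ℚ, smul_smul, hkq j,
        inv_mul_cancel_left₀ hb0]
    rw [h3]
    exact Submodule.smul_mem _ _ h2
  rw [← hTr]
  let ι : relSpace (logs (A.loc p) e) W →ₗ[ℚ] T :=
    ((Fintype.linearCombination ℚ (fun j => (1 : ℚ) ⊗ₜ[ℤ] e j)).comp
      (relSpace (logs (A.loc p) e) W).subtype).codRestrict T fun q => hmem q.1 q.2
  refine LinearMap.finrank_le_finrank_of_injective (f := ι) ?_
  intro x y hxy
  have h4 := congrArg Subtype.val hxy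
  have h5 := he.fintypeLinearCombination_injective h4
  exact Subtype.ext h5

lemma relSpace_bnd (hW : Waldschmidt A) {N : ℕ} (e : Fin N → (A.loc p).Pts)
    (he : Independent (A.loc p) e) (W : Submodule ℚ_[p] (Fin n → ℚ_[p])) (r : ℕ) (hr : r < n)
    (hd : finrank ℚ_[p] W ≤ r) : finrank ℚ (relSpace (logs (A.loc p) e) W) ≤ bnd n r := by
  refine (relSpace_le A e he W).trans ?_
  have h1 := rank_inW A hW W
  rw [bnd, Nat.le_div_iff_mul_le (by omega)]
  refine (Nat.mul_le_mul_left _ (by omega : n - r ≤ n - finrank ℚ_[p] W)).trans (h1.trans ?_)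
  exact Nat.mul_le_mul_left _ hd

/-! ### Counting -/

/-- Tuples that are not good at `p`. -/
lemma count_local (hW : Waldschmidt A) {N : ℕ} (e : Fin N → A.Pts) (he : Indep A e) {m : ℕ}
    (hm0 : 0 < m) (hm : m ≤ n) (H : ℕ) (S : Finset (Fin m → Fin N → ℤ))
    (hS : ∀ k ∈ S, k ∈ box m N H ∧ ¬ Good A p e k) :
    S.card ≤ m * (2 * H + 1) ^ ((m - 1) * N + bnd n (m - 1)) := by
  classical
  have h1 : S ⊆ (box m N H).filter fun k =>
      ¬ LinearIndependent ℚ_[p] fun i => icomb (logs (A.loc p) (locPts A p e)) (k i) := by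
    intro k hk
    rw [Finset.mem_filter]
    exact ⟨(hS k hk).1, fun h =>
      (hS k hk).2 (good_of_local A e k (good_of_independent (A.loc p) (locPts A p e) k h))⟩
  refine (Finset.card_le_card h1).trans (count_dependent _ (bnd n (m - 1)) fun i k => ?_)
  exact relSpace_bnd A hW _ (locPts_indep A e he) _ (m - 1) (by omega) (finrank_span_Iio _ i)

theorem failures_le (hW : Waldschmidt A) {N : ℕ} (e : Fin N → A.Pts) (he : Indep A e) (Q : Finset ℕ)
    {m : ℕ} (hm : m ≤ n) (H : ℕ) :
    failures A Q e m H ≤ Q.card * (m * (2 * H + 1) ^ ((m - 1) * N + bnd n (m - 1))) := by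
  classical
  rcases Nat.eq_zero_or_pos m with rfl | hm0
  · -- no condition
    have h0 : failures A Q e 0 H = 0 := by
      rw [failures, Finset.card_eq_zero, Finset.filter_eq_empty_iff]
      rintro k - ⟨p, hp, -, hbad⟩
      haveI : Fact p.Prime := ⟨hp⟩
      refine hbad (good_of_local A e k (good_of_independent (A.loc p) (locPts A p e) k ?_))
      exact linearIndependent_empty_type
    rw [h0]
    exact Nat.zero_le _
  · have h1 : ((box m N H).filter fun k => FailsAt A Q e k) ⊆ Q.biUnion fun p =>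
        (box m N H).filter fun k => ∃ hp : p.Prime, ¬ @Good n A p ⟨hp⟩ m N e k := by
      intro k hk
      rw [Finset.mem_filter] at hk
      obtain ⟨hk, p, hp, hpQ, hbad⟩ := hk
      exact Finset.mem_biUnion.2 ⟨p, hpQ, Finset.mem_filter.2 ⟨hk, hp, hbad⟩⟩
    rw [failures]
    refine (Finset.card_le_card h1).trans (Finset.card_biUnion_le.trans ?_)
    rw [← smul_eq_mul, ← Finset.sum_const]
    refine Finset.sum_le_sum fun p _ => ?_
    by_cases hp : p.Prime
    · haveI : Fact p.Prime := ⟨hp⟩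
      refine count_local (p := p) A hW e he hm0 hm H _ fun k hk => ?_
      rw [Finset.mem_filter] at hk
      obtain ⟨hk, _, hbad⟩ := hk
      exact ⟨hk, hbad⟩
    · have h2 : ((box m N H).filter fun k => ∃ hp : p.Prime, ¬ @Good n A p ⟨hp⟩ m N e k) = ∅ := by
        rw [Finset.filter_eq_empty_iff]
        rintro k - ⟨h, -⟩
        exact hp h
      rw [h2, Finset.card_empty]
      exact Nat.zero_le _

/-- `B(m - 1) < N` -/
lemma bnd_lt {N m : ℕ} (hm0 : 0 < m) (hm : m ≤ n) (h : 2 * n * (m - 1) < N * (n + 1 - m)) :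
    bnd n (m - 1) < N := by
  rw [bnd, Nat.div_lt_iff_lt_mul (by omega)]
  have h1 : n - (m - 1) = n + 1 - m := by omega
  rwa [h1]

theorem proportion_le (hW : Waldschmidt A) {N : ℕ} (e : Fin N → A.Pts) (he : Indep A e) (Q : Finset ℕ)
    {m : ℕ} (hm0 : 0 < m) (hm : m ≤ n) (h : 2 * n * (m - 1) < N * (n + 1 - m)) (H : ℕ) :
    failures A Q e m H * (2 * H + 1) ^ (N - bnd n (m - 1)) ≤ Q.card * m * (box m N H).card := by
  have h1 := bnd_lt hm0 hm h
  refine (Nat.mul_le_mul_right _ (failures_le A hW e he Q hm H)).trans_eq ?_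
  rw [card_box, mul_assoc, mul_assoc, mul_assoc, ← pow_add]
  congr 3
  obtain ⟨a, rfl⟩ : ∃ a, m = a + 1 := ⟨m - 1, by omega⟩
  rw [Nat.add_sub_cancel] at h1 ⊢
  have h2 : (a + 1) * N = a * N + N := by ring
  omega

/-! ### Adding one point -/

/-- The points `x` of `A(ℚ)` whose logarithms are in the space spanned by the logarithms of `L`. -/
noncomputable def hull (p : ℕ) [Fact p.Prime] (L : AddSubgroup A.Pts) : AddSubgroup A.Pts :=
  (inW A (logSpan (A.loc p) (L.map (A.pts p).toAddMonoidHom))).comap (A.pts p).toAddMonoidHom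

lemma rk_hull (L : AddSubgroup A.Pts) :
    rk A (hull A p L) =
      rank (A.loc p) (inW A (logSpan (A.loc p) (L.map (A.pts p).toAddMonoidHom))) := by
  rw [← rk_map (p := p) A (hull A p L), hull, map_comap]

lemma le_hull (L : AddSubgroup A.Pts) : L ≤ hull A p L := by
  intro x hx
  change (A.loc p).log ((A.loc p).incl (A.pts p x)) ∈
    logSpan (A.loc p) (L.map (A.pts p).toAddMonoidHom)
  exact Submodule.subset_span ⟨A.pts p x, ⟨x, hx, rfl⟩, rfl⟩

/-- The rank of the closure after adding a point. -/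
lemma closureRank_sup (L : AddSubgroup A.Pts) (x : A.Pts) :
    ClosureRank A p (L ⊔ AddSubgroup.zmultiples x) (finrank ℚ_[p]
      (logSpan (A.loc p) (L.map (A.pts p).toAddMonoidHom) ⊔
        Submodule.span ℚ_[p] {(A.loc p).log ((A.loc p).incl (A.pts p x))} :
        Submodule ℚ_[p] (Fin n → ℚ_[p]))) := by
  have h1 : (L ⊔ AddSubgroup.zmultiples x).map (A.pts p).toAddMonoidHom =
      AddSubgroup.closure ((L.map (A.pts p).toAddMonoidHom : Set (A.loc p).Pts) ∪ {A.pts p x}) := by
    rw [AddSubgroup.map_sup, AddMonoidHom.map_zmultiples, AddSubgroup.closure_union,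
      AddSubgroup.closure_eq, ← AddSubgroup.zmultiples_eq_closure]
    rfl
  have h2 := hasZpRank_logSpan (A.loc p) ((L ⊔ AddSubgroup.zmultiples x).map
    (A.pts p).toAddMonoidHom)
  have h3 : logSpan (A.loc p) ((L ⊔ AddSubgroup.zmultiples x).map (A.pts p).toAddMonoidHom) =
      logSpan (A.loc p) (L.map (A.pts p).toAddMonoidHom) ⊔
        Submodule.span ℚ_[p] {(A.loc p).log ((A.loc p).incl (A.pts p x))} := by
    rw [h1, logSpan_closure, Set.image_union, Set.image_singleton, Submodule.span_union]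
    rfl
  rw [h3] at h2
  exact h2

/-- Adding one point to a subgroup with closure of rank `r < n`. -/
theorem extension (hW : Waldschmidt A) (L : AddSubgroup A.Pts) (r : ℕ) (hL : ClosureRank A p L r) :
    (∀ x, x ∈ hull A p L → ClosureRank A p (L ⊔ AddSubgroup.zmultiples x) r) ∧
      (∀ x, x ∉ hull A p L → ClosureRank A p (L ⊔ AddSubgroup.zmultiples x) (r + 1)) ∧
      rk A (hull A p L) * (n - r) ≤ 2 * n * r := by
  have hr := rank_closure (A.loc p) _ hL
  refine ⟨fun x hx => ?_, fun x hx => ?_, ?_⟩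
  · have h1 := closureRank_sup (p := p) A L x
    have h2 : Submodule.span ℚ_[p] {(A.loc p).log ((A.loc p).incl (A.pts p x))} ≤
        logSpan (A.loc p) (L.map (A.pts p).toAddMonoidHom) := by
      rw [Submodule.span_singleton_le_iff_mem]
      exact hx
    rw [sup_eq_left.2 h2, ← hr] at h1
    exact h1
  · have h1 := closureRank_sup (p := p) A L x
    rw [Submodule.finrank_sup_span_singleton (by exact hx), ← hr] at h1
    exact h1
  · rw [rk_hull, hr]
    exact rank_inW A hW _

/-- The number of the points of the box in a group of the form `hull A p L`. -/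
theorem extension_count (hW : Waldschmidt A) {N : ℕ} (e : Fin N → A.Pts) (he : Indep A e)
    (L : AddSubgroup A.Pts) (r : ℕ) (hr : r < n) (hL : ClosureRank A p L r) (H : ℕ) :
    {k : Fin N → ℤ | (∀ j, |k j| ≤ H) ∧ pt A e k ∈ hull A p L}.ncard ≤ (2 * H + 1) ^ bnd n r := by
  classical
  have hr1 := rank_closure (A.loc p) _ hL
  set W := logSpan (A.loc p) (L.map (A.pts p).toAddMonoidHom) with hWdef
  let row : Finset (Fin N → ℤ) := Fintype.piFinset fun _ : Fin N => Finset.Icc (-(H : ℤ)) H
  let S := row.filter fun k => icomb (logs (A.loc p) (locPts A p e)) k ∈ W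
  have hsub : {k : Fin N → ℤ | (∀ j, |k j| ≤ H) ∧ pt A e k ∈ hull A p L} ⊆
      (S : Set (Fin N → ℤ)) := by
    rintro k ⟨hk, hmem⟩
    rw [Finset.mem_coe, Finset.mem_filter, Fintype.mem_piFinset]
    refine ⟨fun j => Finset.mem_Icc.2 (abs_le.1 (hk j)), ?_⟩
    have h1 : (A.loc p).log ((A.loc p).incl (A.pts p (pt A e k))) ∈ W := hmem
    rwa [map_pt, log_sum] at h1
  refine (Set.ncard_le_ncard hsub S.finite_toSet).trans ?_
  rw [Set.ncard_coe_finset]
  refine (card_subspace (relSpace (logs (A.loc p) (locPts A p e)) W) H S ?_).trans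
    (Nat.pow_le_pow_right (by omega) ?_)
  · intro k hk
    rw [Finset.mem_filter, Fintype.mem_piFinset] at hk
    exact ⟨hk.1, (icomb_mem _ W k).1 hk.2⟩
  · exact relSpace_bnd A hW _ (locPts_indep A e he) W r hr hr1.ge

/-! ### One good tuple -/

lemma relSpace_lt {N : ℕ} (φ : Fin N → Fin n → ℚ_[p]) (W : Submodule ℚ_[p] (Fin n → ℚ_[p]))
    (h : finrank ℚ_[p] W < finrank ℚ_[p] (Submodule.span ℚ_[p] (Set.range φ))) :
    finrank ℚ (relSpace φ W) ≤ N - 1 := by
  classical
  have h1 : relSpace φ W < ⊤ := by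
    rw [lt_top_iff_ne_top]
    intro htop
    have h2 : Submodule.span ℚ_[p] (Set.range φ) ≤ W := by
      rw [Submodule.span_le]
      rintro _ ⟨j, rfl⟩
      have h3 : (Pi.single j (1 : ℚ) : Fin N → ℚ) ∈ relSpace φ W := by
        rw [htop]
        trivial
      rw [mem_relSpace] at h3
      rw [Finset.sum_eq_single j] at h3
      · simpa using h3
      · intro l _ hl
        rw [Pi.single_eq_of_ne hl, zero_smul]
      · intro hj
        exact absurd (Finset.mem_univ j) hj
    exact absurd (Submodule.finrank_mono h2) (not_le.2 h)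
  have h4 := Submodule.finrank_lt h1.ne
  rw [Module.finrank_fin_fun] at h4
  omega

/-- If one tuple of points of the group generated by the `e_j` (and torsion points) gives a group whose
closure has the rank `m`, then almost all tuples do. -/
theorem one_to_all {N : ℕ} (e : Fin N → A.Pts) (m : ℕ) (t₀ : Fin m → A.Pts)
    (ht₀ : ∀ i, IsOfFinAddOrder (t₀ i)) (k₀ : Fin m → Fin N → ℤ)
    (h₀ : ClosureRank A p (grp A e t₀ k₀) m) (H : ℕ) :
    failures A {p} e m H ≤ m * (2 * H + 1) ^ (m * N - 1) := by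
  classical
  rcases Nat.eq_zero_or_pos m with rfl | hm0
  · have h0 : failures A {p} e 0 H = 0 := by
      rw [failures, Finset.card_eq_zero, Finset.filter_eq_empty_iff]
      rintro k - ⟨q, hq, -, hbad⟩
      haveI : Fact q.Prime := ⟨hq⟩
      refine hbad (good_of_local A e k (good_of_independent (A.loc q) (locPts A q e) k ?_))
      exact linearIndependent_empty_type
    rw [h0]
    exact Nat.zero_le _
  have h1 : ((box m N H).filter fun k => FailsAt A {p} e k) ⊆ (box m N H).filter fun k =>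
      ¬ LinearIndependent ℚ_[p] fun i => icomb (logs (A.loc p) (locPts A p e)) (k i) := by
    intro k hk
    rw [Finset.mem_filter] at hk ⊢
    obtain ⟨hk, q, hq, hqp, hbad⟩ := hk
    obtain rfl := Finset.mem_singleton.1 hqp
    exact ⟨hk, fun h =>
      hbad (good_of_local A e k (good_of_independent (A.loc q) (locPts A q e) k h))⟩
  have hrank : m ≤ finrank ℚ_[p]
      (Submodule.span ℚ_[p] (Set.range (logs (A.loc p) (locPts A p e)))) := by
    rw [ClosureRank, map_grp] at h₀
    have h2 := rank_closure (A.loc p) _ h₀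
    refine h2.le.trans (Submodule.finrank_mono ?_)
    rw [tupleGroup, logSpan_closure, Submodule.span_le]
    rintro _ ⟨_, ⟨i, rfl⟩, rfl⟩
    change (A.loc p).log ((A.loc p).incl (∑ j, k₀ i j • locPts A p e j + A.pts p (t₀ i))) ∈
      Submodule.span ℚ_[p] (Set.range (logs (A.loc p) (locPts A p e)))
    rw [log_point (A.loc p) (locPts A p e) (k₀ i) (isOfFin A (ht₀ i)), icomb]
    refine Submodule.sum_mem _ fun j _ => ?_
    exact Submodule.smul_of_tower_mem _ _ (Submodule.subset_span ⟨j, rfl⟩)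
  have hN : 0 < N := by
    rcases Nat.eq_zero_or_pos N with rfl | h
    · exfalso
      have h3 := hrank.trans (finrank_range_le_card _)
      rw [Fintype.card_fin] at h3
      omega
    · exact h
  rw [failures]
  refine (Finset.card_le_card h1).trans ((count_dependent _ (N - 1) fun i k => ?_).trans_eq ?_)
  · refine relSpace_lt _ _ (lt_of_le_of_lt (finrank_span_Iio _ i) ?_)
    omega
  · congr 2
    obtain ⟨a, rfl⟩ : ∃ a, m = a + 1 := ⟨m - 1, by omega⟩
    rw [Nat.add_sub_cancel]
    have h4 : (a + 1) * N = a * N + N := by ring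
    omega

end Pool.Agent.Run7.h306.WA
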