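import Pool.Agent.Run7.h306.WA

/-!
# The statements of the theorem on almost all subgroups
-/

set_option autoImplicit false

open TensorProduct Module Pool.Agent.E8helper40.PC Pool.Agent.E8helper14.PA

namespace Pool.Agent.Run7.h306.WA

variable {n : ℕ} (A : AbVar n)

/-- If, for some prime number `p` and some `m`, one group generated by `m` combinations of the `e_j` and
torsion points has a closure of rank `m`, then this is so for all but `m (2 H + 1) ^ (m N - 1)` of the
`(2 H + 1) ^ (m N)` matrices of the box. -/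
def OneToAll {N : ℕ} (e : Fin N → A.Pts) : Prop :=
  ∀ (p : ℕ) [Fact p.Prime] (m : ℕ) (t : Fin m → A.Pts) (k : Fin m → Fin N → ℤ),
    (∀ i, IsOfFinAddOrder (t i)) → ClosureRank A p (grp A e t k) m →
      ∀ H : ℕ, failures A {p} e m H ≤ m * (2 * H + 1) ^ (m * N - 1)

/-- For a subgroup `L` with closure of rank `r < n`, the points `x` such that the closure of `L + ℤ x` has
the rank `r` form a group `S` of rank at most `2 n r / (n - r)`, which contains at most
`(2 H + 1) ^ (2 n r / (n - r))` of the points of the box; for `x` outside `S` the closure of `L + ℤ x` has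
the rank `r + 1`. -/
def OnePoint {N : ℕ} (e : Fin N → A.Pts) : Prop :=
  ∀ (p : ℕ) [Fact p.Prime] (L : AddSubgroup A.Pts) (r : ℕ), r < n → ClosureRank A p L r →
    ∃ S : AddSubgroup A.Pts, L ≤ S ∧
      (∀ x, x ∈ S → ClosureRank A p (L ⊔ AddSubgroup.zmultiples x) r) ∧
      (∀ x, x ∉ S → ClosureRank A p (L ⊔ AddSubgroup.zmultiples x) (r + 1)) ∧
      rk A S * (n - r) ≤ 2 * n * r ∧
      ∀ H : ℕ, {k : Fin N → ℤ | (∀ j, |k j| ≤ H) ∧ pt A e k ∈ S}.ncard ≤ (2 * H + 1) ^ bnd n r

/-- At most `|Q| m (2 H + 1) ^ ((m - 1) N + B(m - 1))` of the matrices fail at some prime number of the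
finite set `Q`. -/
def Tuples {N : ℕ} (e : Fin N → A.Pts) : Prop :=
  ∀ (Q : Finset ℕ) (m H : ℕ), m ≤ n →
    failures A Q e m H ≤ Q.card * (m * (2 * H + 1) ^ ((m - 1) * N + bnd n (m - 1)))

/-- If `m - 1 < n N / (N + 2 n)` then `B(m - 1) < N` and the proportion of the matrices that fail at some
prime number of the finite set `Q` is at most `|Q| m / (2 H + 1) ^ (N - B(m - 1))`. -/
def Proportion {N : ℕ} (e : Fin N → A.Pts) : Prop :=
  ∀ m : ℕ, 0 < m → m ≤ n → (m - 1) * (N + 2 * n) < n * N →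
    bnd n (m - 1) < N ∧ ∀ (Q : Finset ℕ) (H : ℕ),
      failures A Q e m H * (2 * H + 1) ^ (N - bnd n (m - 1)) ≤ Q.card * m * (box m N H).card

/-- If `N > 2 n (n - 1)` then for all `m ≤ n` the proportion of the matrices that fail at some prime
number of the finite set `Q` is at most `|Q| m / (2 H + 1)`. -/
def LargeRank {N : ℕ} (e : Fin N → A.Pts) : Prop :=
  2 * n * (n - 1) < N → ∀ (Q : Finset ℕ) (m H : ℕ), m ≤ n →
    failures A Q e m H * (2 * H + 1) ≤ Q.card * m * (box m N H).card

lemma cond_iff {N m : ℕ} (hm0 : 0 < m) (hm : m ≤ n) (h : (m - 1) * (N + 2 * n) < n * N) :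
    2 * n * (m - 1) < N * (n + 1 - m) := by
  obtain ⟨a, rfl⟩ : ∃ a, m = a + 1 := ⟨m - 1, by omega⟩
  obtain ⟨b, hb⟩ := Nat.exists_eq_add_of_le hm
  have h1 : n + 1 - (a + 1) = b + 1 := by omega
  rw [h1]
  rw [Nat.add_sub_cancel] at h ⊢
  rw [hb] at h ⊢
  nlinarith

theorem main {N : ℕ} (e : Fin N → A.Pts) :
    OneToAll A e ∧ (Waldschmidt A → Indep A e →
      OnePoint A e ∧ Tuples A e ∧ Proportion A e ∧ LargeRank A e) := by
  refine ⟨?_, fun hW he => ⟨?_, ?_, ?_, ?_⟩⟩
  · intro p _ m t k ht h H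
    exact one_to_all A e m t ht k h H
  · intro p _ L r hr hL
    obtain ⟨h1, h2, h3⟩ := extension A hW L r hL
    exact ⟨hull A p L, le_hull A L, h1, h2, h3, extension_count A hW e he L r hr hL⟩
  · intro Q m H hm
    exact failures_le A hW e he Q hm H
  · intro m hm0 hm h
    have h1 := cond_iff hm0 hm h
    exact ⟨bnd_lt hm0 hm h1, fun Q H => proportion_le A hW e he Q hm0 hm h1 H⟩
  · intro hN Q m H hm
    rcases Nat.eq_zero_or_pos m with rfl | hm0
    · have h0 := failures_le A hW e he Q hm H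
      rw [Nat.zero_mul, Nat.mul_zero] at h0
      rw [Nat.le_zero.1 h0, Nat.zero_mul]
      exact Nat.zero_le _
    · have h1 : 2 * n * (m - 1) < N * (n + 1 - m) := by
        have h2 : 2 * n * (m - 1) ≤ 2 * n * (n - 1) := Nat.mul_le_mul_left _ (by omega)
        have h3 : N * 1 ≤ N * (n + 1 - m) := Nat.mul_le_mul_left _ (by omega)
        omega
      have h4 := bnd_lt hm0 hm h1
      refine le_trans (Nat.mul_le_mul_left _ ?_) (proportion_le A hW e he Q hm0 hm h1 H)
      calc 2 * H + 1 = (2 * H + 1) ^ 1 := (pow_one _).symm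
        _ ≤ _ := Nat.pow_le_pow_right (by omega) (by omega)

end Pool.Agent.Run7.h306.WA
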