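import Mathlib
import Pool.Agent.N876.CG.ModE
import Pool.Agent.W484.CK.Main

/-!
# Polynomials in the Frobenius which map the cohomology to the mixed part
-/

set_option autoImplicit false
set_option linter.unusedSectionVars false

open CategoryTheory AlgebraicGeometry
open scoped TensorProduct

universe u

namespace Run7.h306.WE

open Module Polynomial Pool.Agent.H914 Pool.Agent.H914.VarClass Pool.Agent.H914.VarClass.Obj
  Pool.Agent.W492.BB Pool.Agent.W550.Corr Pool.Agent.W484.TB Pool.Agent.W484.CH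
  Pool.Agent.N876.CG

variable {k : Type u} [Field k] {𝒱 : VarClass k} {C : TheoryData.{u, 0, 0} 𝒱 ℚ} {K : Type}
  [Field K] [CharZero K] {H : WeilTheoryData.{u, 0, 0} C K} [hC : IsChow C] [hH : IsWeil H]
  {A Z : 𝒱.Obj} {F : ∀ X : 𝒱.Obj, X ⟶ X} {Q : ℕ} [IsAlgClosed K]

/-- **the polynomials** -/
theorem rel_poly (hS : IsStandard H) (hπA : IsFrobenius C (F A) Q) (hQ : 1 < Q) {S : Set K}
    (hcv : Cg H (F A) S) (hSint : ∀ α ∈ S, IsIntegral ℚ α)
    (hZint : ∀ β, (frob H (F Z)).HasEigenvalue β → IsIntegral ℚ β)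
    (hres1 : ∀ α ∈ S, ∀ w : ℕ, α ≠ (Q : K) ^ w)
    (hres : ∀ α ∈ S, ∀ β, (frob H (F Z)).HasEigenvalue β →
      ∀ e w : ℕ, α * β * (Q : K) ^ e ≠ (Q : K) ^ w) :
    ∃ (J : Type) (_ : Fintype J) (deg : J → ℕ) (D E : J → C.A A), IsDual A Z deg D E ∧
      (∀ n, AK H A n ≤ Submodule.span K {c | ∃ j, deg j = n ∧ c = H.cl (D j)}) ∧
      ∀ i : ℕ, ∃ P : ℤ[X], P.eval ((Q : ℤ) ^ i) ≠ 0 ∧ ∀ w : H.A (A.prod Z),
        H.act (H.cl (proj Z D E))
          (H.act (H.cl (polyC (prodMap (F A) (F Z)) (P.map (algebraMap ℤ ℚ)))) w) =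
          H.act (H.cl (polyC (prodMap (F A) (F Z)) (P.map (algebraMap ℤ ℚ)))) w := by
  have hfA := hS.finite A
  have hQ0 : Q ≠ 0 := by omega
  have hQK : (Q : K) ≠ 0 := by exact_mod_cast hQ0
  obtain ⟨J, hJ, deg, D, E, hdual, hN⟩ := exists_dual hS (nondeg_of hfA hπA hQ hcv hres1) Z
  refine ⟨J, hJ, deg, D, E, hdual, hN, fun i => ?_⟩
  obtain ⟨P, hP, hmix⟩ := exists_kill (πA := F A) (πZ := F Z) hS hπA hcv hSint hZint
    (Polynomial.X - Polynomial.C ((Q : ℚ) ^ i)) (by
      intro α hα β hβ h0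
      rw [map_sub, aeval_X, aeval_C, sub_eq_zero] at h0
      have h2 : α * β = (Q : K) ^ i := by
        rw [h0, map_pow, map_natCast]
      refine hres α hα β hβ 0 i ?_
      rw [pow_zero, mul_one, h2])
  obtain ⟨b, hb⟩ := IsLocalization.integerNormalization_map_to_map (nonZeroDivisors ℤ) P
  have hb0 : ((b : ℤ) : ℚ) ≠ 0 := by
    exact_mod_cast nonZeroDivisors.coe_ne_zero b
  refine ⟨IsLocalization.integerNormalization (nonZeroDivisors ℤ) P, ?_, fun w => ?_⟩
  · intro h0
    have h2 : (P.eval ((Q : ℚ) ^ i)) = 0 := by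
      have h3 := congrArg (Polynomial.eval ((Q : ℚ) ^ i)) hb
      have h4 : ((Q : ℚ) ^ i) = algebraMap ℤ ℚ ((Q : ℤ) ^ i) := by simp
      rw [h4, Polynomial.eval_map, Polynomial.eval₂_at_apply, h0, map_zero, ← h4,
        Polynomial.eval_smul] at h3
      have h5 : ((b : ℤ) : ℚ) * P.eval ((Q : ℚ) ^ i) = 0 := by
        rw [← zsmul_eq_mul]
        exact h3.symm
      exact (mul_eq_zero.1 h5).resolve_left hb0
    obtain ⟨a, b, hab⟩ := hP
    have h1 := congrArg (Polynomial.eval ((Q : ℚ) ^ i)) hab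
    rw [Polynomial.eval_add, Polynomial.eval_mul, Polynomial.eval_mul, h2, Polynomial.eval_sub,
      Polynomial.eval_X, Polynomial.eval_C, sub_self, mul_zero, mul_zero, add_zero,
      Polynomial.eval_one] at h1
    exact zero_ne_one h1
  · apply act_proj_mixA hdual hN
    rw [act_cl_polyC, hb]
    have h3 : ((b : ℤ) • P).map (algebraMap ℚ K) = ((b : ℤ) : K) • P.map (algebraMap ℚ K) := by
      ext m
      simp
    have h4 := hmix w
    have h5 : (aeval (frob H (prodMap (F A) (F Z))) (((b : ℤ) • P).map (algebraMap ℚ K))) w =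
        ((b : ℤ) : K) • (aeval (frob H (prodMap (F A) (F Z))) (P.map (algebraMap ℚ K))) w := by
      rw [h3, map_smul, LinearMap.smul_apply]
    have h6 : (aeval (frob H (prodMap (F A) (F Z))) (((b : ℤ) • P).map (algebraMap ℚ K))) w ∈
        mixA H A Z := by
      rw [h5]
      exact Submodule.smul_mem _ _ h4
    exact h6

variable {ι : Type} {X : ι → 𝒱.Obj} {S : ι → Set K}

/-- **one step** -/
theorem step_poly (h : Cr H F Q X Z S {1}) {i : ι} {L : List ι} (hi : i ∉ L) (hL : L.Nodup) :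
    ∃ (J : Type) (_ : Fintype J) (deg : J → ℕ) (D E : J → C.A (X i)),
      IsDual (X i) (tw X Z L) deg D E ∧
      (∀ n, AK H (X i) n ≤ Submodule.span K {c | ∃ j, deg j = n ∧ c = H.cl (D j)}) ∧
      ∀ n : ℕ, ∃ P : ℤ[X], P.eval ((Q : ℤ) ^ n) ≠ 0 ∧ ∀ w : H.A ((X i).prod (tw X Z L)),
        H.act (H.cl (proj (tw X Z L) D E))
          (H.act (H.cl (polyC (prodMap (F (X i)) (F (tw X Z L))) (P.map (algebraMap ℤ ℚ)))) w) =
          H.act (H.cl (polyC (prodMap (F (X i)) (F (tw X Z L)))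
            (P.map (algebraMap ℤ ℚ)))) w := by
  classical
  refine rel_poly h.std (h.frob _) h.one_lt (h.cg i) (h.int i)
    (h.int_tw hL) (fun α hα w hw => by
      refine h.res1 {i} (Finset.singleton_nonempty i) (fun _ => α) ?_ 1 rfl 0 1 w one_pos ?_
      · intro i' hi'
        rw [Finset.mem_singleton.1 hi']
        exact hα
      · rw [Finset.prod_singleton, pow_zero, mul_one, mul_one, hw, pow_one, one_mul])
    (fun α hα γ hγ e' w heq => by
      obtain ⟨I, α', β, e, hI, hα', hβ, rfl⟩ := h.eig_tw L hL γ hγ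
      have hiI : i ∉ I := fun h0 => hi (hI i h0)
      refine h.res (insert i I) (Finset.insert_nonempty i I) (Function.update α' i α) ?_ (β * 1)
        ⟨β, 1, hβ, rfl, rfl⟩ (e + e') 1 w one_pos ?_
      · intro i' hi'
        rcases Finset.mem_insert.1 hi' with rfl | hi'
        · rw [Function.update_self]; exact hα
        · rw [Function.update_of_ne (ne_of_mem_of_not_mem hi' hiI)]
          exact hα' i' hi'
      · rw [Finset.prod_insert hiI, Function.update_self,
          Finset.prod_congr rfl fun i' hi' =>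
            Function.update_of_ne (ne_of_mem_of_not_mem hi' hiI) α α', pow_one, one_mul, ← heq,
            pow_add]
        ring)

end Run7.h306.WE
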