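import Mathlib

/-!
# Homomorphisms of abelian groups up to bounded torsion
-/

set_option autoImplicit false

namespace Run7.h306.WE

section bd

variable {G G' G'' : Type} [AddCommGroup G] [AddCommGroup G'] [AddCommGroup G'']

/-- the homomorphism has bounded torsion image -/
def Bd (f : G →+ G') : Prop := ∃ M : ℕ, 0 < M ∧ ∀ z, M • f z = 0

theorem Bd.zero : Bd (0 : G →+ G') := ⟨1, one_pos, fun z => by simp⟩

theorem Bd.add {f g : G →+ G'} (hf : Bd f) (hg : Bd g) : Bd (f + g) := by
  obtain ⟨M, hM, h⟩ := hf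
  obtain ⟨M', hM', h'⟩ := hg
  refine ⟨M * M', Nat.mul_pos hM hM', fun z => ?_⟩
  rw [AddMonoidHom.add_apply, smul_add, mul_comm, mul_smul, h, smul_zero, mul_comm, mul_smul, h',
    smul_zero, add_zero]

theorem Bd.neg {f : G →+ G'} (hf : Bd f) : Bd (-f) := by
  obtain ⟨M, hM, h⟩ := hf
  exact ⟨M, hM, fun z => by rw [AddMonoidHom.neg_apply, smul_neg, h, neg_zero]⟩

theorem Bd.sub {f g : G →+ G'} (hf : Bd f) (hg : Bd g) : Bd (f - g) := by
  rw [sub_eq_add_neg]
  exact hf.add hg.neg

theorem Bd.sum {J : Type} (s : Finset J) {f : J → (G →+ G')} (hf : ∀ j ∈ s, Bd (f j)) :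
    Bd (∑ j ∈ s, f j) := by
  classical
  induction s using Finset.induction_on with
  | empty => rw [Finset.sum_empty]; exact Bd.zero
  | insert a s ha ih =>
    rw [Finset.sum_insert ha]
    exact (hf a (Finset.mem_insert_self _ _)).add
      (ih fun j hj => hf j (Finset.mem_insert_of_mem hj))

theorem Bd.comp_left {f : G →+ G'} (hf : Bd f) (g : G' →+ G'') : Bd (g.comp f) := by
  obtain ⟨M, hM, h⟩ := hf
  exact ⟨M, hM, fun z => by rw [AddMonoidHom.comp_apply, ← map_nsmul, h, map_zero]⟩

theorem Bd.comp_right {f : G' →+ G''} (hf : Bd f) (g : G →+ G') : Bd (f.comp g) := by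
  obtain ⟨M, hM, h⟩ := hf
  exact ⟨M, hM, fun z => by rw [AddMonoidHom.comp_apply, h]⟩

theorem Bd.of_zsmul {f : G →+ G'} {a : ℤ} (ha : a ≠ 0) (h : Bd (a • f)) : Bd f := by
  obtain ⟨M, hM, h⟩ := h
  refine ⟨a.natAbs * M, Nat.mul_pos (Int.natAbs_pos.2 ha) hM, fun z => ?_⟩
  have h1 : M • (a • f z) = 0 := h z
  have h2 : (a.natAbs * M) • f z = a.natAbs • (M • f z) := mul_smul _ _ _
  rw [h2, ← natCast_zsmul, Int.natCast_natAbs]
  rcases abs_choice a with h3 | h3
  · rw [h3, smul_comm]
    exact h1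
  · rw [h3, neg_smul, smul_comm, h1, neg_zero]

theorem Bd.of_nsmul {f : G →+ G'} {a : ℕ} (ha : 0 < a) (h : Bd (a • f)) : Bd f := by
  refine Bd.of_zsmul (a := (a : ℤ)) (by exact_mod_cast ha.ne') ?_
  rwa [natCast_zsmul]

theorem Bd.nsmul {f : G →+ G'} (hf : Bd f) (a : ℕ) : Bd (a • f) := by
  obtain ⟨M, hM, h⟩ := hf
  refine ⟨M, hM, fun z => ?_⟩
  have : M • (a • f z) = 0 := by rw [smul_comm, h, smul_zero]
  exact this

/-- the iterates of an endomorphism -/
def pw (u : G →+ G) : ℕ → (G →+ G)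
  | 0 => AddMonoidHom.id G
  | n + 1 => u.comp (pw u n)

/-- if `u` is an idempotent up to a factor and nilpotent then it is torsion -/
theorem bd_of_nilp {u : G →+ G} {a : ℕ} (ha : 0 < a) (h1 : Bd (u.comp u - a • u)) {n : ℕ}
    (h2 : Bd (pw u n)) : Bd u := by
  have h3 : ∀ m : ℕ, Bd (pw u (m + 1) - a ^ m • u) := by
    intro m
    induction m with
    | zero =>
      have : pw u 1 - a ^ 0 • u = 0 := by
        ext z
        simp [pw]
      rw [this]
      exact Bd.zero
    | succ m ih =>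
      have e1 : pw u (m + 1 + 1) - a ^ (m + 1) • u =
          u.comp (pw u (m + 1) - a ^ m • u) + a ^ m • (u.comp u - a • u) := by
        ext z
        have : pw u (m + 1 + 1) z = u (pw u (m + 1) z) := rfl
        simp only [AddMonoidHom.sub_apply, AddMonoidHom.add_apply, AddMonoidHom.comp_apply,
          AddMonoidHom.nsmul_apply, map_sub, map_nsmul, this, smul_sub]
        rw [pow_succ, mul_smul]
        abel
      rw [e1]
      exact (ih.comp_left u).add (h1.nsmul _)
  have h4 : Bd (pw u (n + 1)) := h2.comp_left u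
  have h5 := h4.sub (h3 n)
  rw [sub_sub_cancel] at h5
  exact Bd.of_nsmul (pow_pos ha n) h5

end bd

section fg

variable {G : Type} [AddCommGroup G]

theorem fg_iff : AddGroup.FG G ↔ Module.Finite ℤ G := Module.Finite.iff_addGroup_fg.symm

/-- a group with a homomorphism with finite kernel to a finitely generated group is finitely
generated -/
theorem fg_of_ker {G' : Type} [AddCommGroup G'] (f : G →+ G') (h : AddGroup.FG G')
    (hk : {z : G | f z = 0}.Finite) : AddGroup.FG G := by
  rw [fg_iff] at h ⊢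
  have : IsNoetherian ℤ G' := isNoetherian_of_isNoetherianRing_of_finite ℤ G'
  rw [Module.finite_def]
  refine Submodule.fg_of_fg_map_of_fg_inf_ker f.toIntLinearMap (IsNoetherian.noetherian _) ?_
  rw [top_inf_eq]
  have h1 : (LinearMap.ker f.toIntLinearMap : Set G).Finite := hk
  have h2 : Finite (LinearMap.ker f.toIntLinearMap) := h1.to_subtype
  exact Module.Finite.iff_fg.1 (Module.Finite.of_finite)

theorem fg_pi {J : Type} [Fintype J] {G' : J → Type} [∀ j, AddCommGroup (G' j)]
    (h : ∀ j, AddGroup.FG (G' j)) : AddGroup.FG (∀ j, G' j) := by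
  rw [fg_iff]
  have : ∀ j, Module.Finite ℤ (G' j) := fun j => fg_iff.1 (h j)
  exact Module.Finite.pi

end fg

end Run7.h306.WE
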