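import Pool.Agent.Run7.h306.WEDefs
import Pool.Agent.Run7.h306.WE1
import Pool.Agent.Run7.h306.WE2

/-!
# The step: Weil-étale cohomology of a product up to finite groups
-/

set_option autoImplicit false
set_option linter.unusedSectionVars false

open Polynomial CategoryTheory AlgebraicGeometry

namespace Run7.h306.WE

open Pool.Agent.H914 Pool.Agent.H914.VarClass Pool.Agent.H914.VarClass.Obj
  Pool.Agent.W492.BB Pool.Agent.W550.Corr Pool.Agent.W484.TB Pool.Agent.W484.CH

variable {κ : Type} [Field κ] {𝒱 : VarClass κ} {C : TheoryData.{0, 0, 0} 𝒱 ℚ}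
  {F : ∀ X : 𝒱.Obj, X ⟶ X}

section basic

variable {I : IntegralChow C} (hI : IsIntegralChow I F)

/-- the map to the rational groups -/
def ratH (X : 𝒱.Obj) : I.CH X →+ C.A X := AddMonoidHom.mk' (I.rat X) fun a b => hI.rat_add a b

theorem ratH_apply {X : 𝒱.Obj} (a : I.CH X) : ratH hI X a = I.rat X a := rfl

include hI in
theorem rat_comp' {X Y Z : 𝒱.Obj} (a : I.CH (X.prod Y)) (b : I.CH (Y.prod Z)) :
    I.rat (X.prod Z) (I.comp a b) = C.comp (I.rat (X.prod Y) a) (I.rat (Y.prod Z) b) :=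
  hI.rat_comp a b

include hI in
theorem comp_mem' {X Y Z : 𝒱.Obj} {i j l : ℤ} {a : I.CH (X.prod Y)} {b : I.CH (Y.prod Z)}
    (ha : a ∈ I.gr (X.prod Y) (X.dim + i)) (hb : b ∈ I.gr (Y.prod Z) (Y.dim + j))
    (hl : l = X.dim + (i + j)) : I.comp a b ∈ I.gr (X.prod Z) l := by
  rw [hl]
  exact hI.comp_mem ha hb

include hI in
/-- lifts of finitely many classes with the same multiple -/
theorem exists_lifts {J : Type} [Fintype J] {X : 𝒱.Obj} (d : J → ℤ) (c : J → C.A X)
    (hc : ∀ j, C.Deg (d j) (c j)) : ∃ N : ℕ, 0 < N ∧ ∀ m : ℕ, ∃ a : J → I.CH X,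
      (∀ j, a j ∈ I.gr X (d j)) ∧ ∀ j, I.rat X (a j) = ((m * N : ℕ) : ℚ) • c j := by
  classical
  choose N hN a ha hr using fun j => hI.lift (hc j)
  refine ⟨∏ j, N j, Finset.prod_pos fun j _ => hN j, fun m => ?_⟩
  choose M hM using fun j => Finset.dvd_prod_of_mem N (Finset.mem_univ j)
  refine ⟨fun j => (m * M j) • a j, fun j => AddSubgroup.nsmul_mem _ (ha j) _, fun j => ?_⟩
  have h1 : I.rat X ((m * M j) • a j) = (m * M j) • I.rat X (a j) := map_nsmul (ratH hI X) _ _
  rw [h1, hr, ← Nat.cast_smul_eq_nsmul ℚ, smul_smul, hM j]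
  push_cast
  ring_nf

/-- the iterates -/
noncomputable def powL {X : 𝒱.Obj} (a : I.CH (X.prod X)) : ℕ → I.CH (X.prod X)
  | 0 => I.diag X
  | l + 1 => I.comp a (powL a l)

/-- the iterates -/
noncomputable def powR {X : 𝒱.Obj} (a : I.CH (X.prod X)) : ℕ → I.CH (X.prod X)
  | 0 => I.diag X
  | l + 1 => I.comp (powR a l) a

include hI in
theorem powL_mem {X : 𝒱.Obj} {a : I.CH (X.prod X)} (ha : a ∈ I.gr (X.prod X) X.dim) (l : ℕ) :
    powL a l ∈ I.gr (X.prod X) X.dim := by
  induction l with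
  | zero => exact hI.diag_mem X
  | succ l ih =>
    exact comp_mem' hI (i := 0) (j := 0) (by rwa [add_zero]) (by rwa [add_zero]) (by ring)

include hI in
theorem powR_mem {X : 𝒱.Obj} {a : I.CH (X.prod X)} (ha : a ∈ I.gr (X.prod X) X.dim) (l : ℕ) :
    powR a l ∈ I.gr (X.prod X) X.dim := by
  induction l with
  | zero => exact hI.diag_mem X
  | succ l ih =>
    exact comp_mem' hI (i := 0) (j := 0) (by rwa [add_zero]) (by rwa [add_zero]) (by ring)

variable [hC : IsChow C]

include hI in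
theorem rat_powL {X : 𝒱.Obj} (l : ℕ) :
    I.rat _ (powL (I.frob X) l) = C.cograph (Pool.Agent.W484.CH.iter (F X) l) := by
  induction l with
  | zero => exact hI.rat_diag X
  | succ l ih =>
    rw [powL, rat_comp' hI, ih, Pool.Agent.W484.CH.iter, ← cograph_comp]
    exact congrArg (fun y => C.comp y _) (hI.rat_frob X)

theorem smul_comp' {X Y Z : 𝒱.Obj} (r s : ℚ) (a : C.A (X.prod Y)) (b : C.A (Y.prod Z)) :
    C.comp (r • a) (s • b) = (r * s) • C.comp a b := by
  rw [← compL_apply, ← compL_apply, map_smul, map_smul, LinearMap.smul_apply, smul_smul, mul_comm]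

include hI in
theorem rat_powR {X : 𝒱.Obj} {a : I.CH (X.prod X)} {r : ℚ} {c : C.A (X.prod X)}
    (h : I.rat _ a = r • c) (l : ℕ) : I.rat _ (powR a l) = r ^ l • powC C c l := by
  induction l with
  | zero => rw [pow_zero, one_smul]; exact hI.rat_diag X
  | succ l ih => rw [powR, rat_comp' hI, ih, h, smul_comp', powC, pow_succ]

end basic

section act

variable {I : IntegralChow C} (hI : IsIntegralChow I F) {E : WeilEtale I} {q : ℕ}
  (hE : IsWeilEtale E q)

/-- the action as a homomorphism -/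
noncomputable def actH {X Y : 𝒱.Obj} (n i n' i' : ℤ) : I.CH (X.prod Y) →+ (E.W X n i →+ E.W Y n' i') :=
  AddMonoidHom.mk' (fun a => AddMonoidHom.mk' (E.act n i n' i' a) fun z w => hE.add_right a z w)
    fun a b => AddMonoidHom.ext fun z => hE.add_left a b z

theorem actH_apply {X Y : 𝒱.Obj} (n i n' i' : ℤ) (a : I.CH (X.prod Y)) (z : E.W X n i) :
    actH hE n i n' i' a z = E.act n i n' i' a z := rfl

include hI in
theorem bd_act {X Y : 𝒱.Obj} (n i n' i' : ℤ) {a : I.CH (X.prod Y)} (ha : I.rat _ a = 0) :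
    Bd (actH hE n i n' i' a) := by
  obtain ⟨N, hN, h⟩ := hI.torsion ha
  refine ⟨N, hN, fun z => ?_⟩
  have h1 : N • actH hE n i n' i' a = actH hE n i n' i' (N • a) := (map_nsmul _ _ _).symm
  have h2 : N • (actH hE n i n' i' a) z = (N • actH hE n i n' i' a) z := rfl
  rw [h2, h1, h, map_zero, AddMonoidHom.zero_apply]

theorem actH_comp {X Y Z : 𝒱.Obj} {n i n' i' n'' i'' : ℤ} {a : I.CH (X.prod Y)}
    {b : I.CH (Y.prod Z)} (h1 : i' - 2 * n' = i - 2 * n) (h2 : i'' - 2 * n'' = i' - 2 * n')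
    (ha : a ∈ I.gr (X.prod Y) (X.dim + (n' - n))) (hb : b ∈ I.gr (Y.prod Z) (Y.dim + (n'' - n'))) :
    actH hE n i n'' i'' (I.comp a b) = (actH hE n' i' n'' i'' b).comp (actH hE n i n' i' a) :=
  AddMonoidHom.ext fun z => hE.comp h1 h2 ha hb z

theorem actH_diag {X : 𝒱.Obj} (n i : ℤ) :
    actH hE n i n i (I.diag X) = AddMonoidHom.id _ := AddMonoidHom.ext fun z => hE.id z

theorem actH_comp0 {X : 𝒱.Obj} {n i : ℤ} {a b : I.CH (X.prod X)} (ha : a ∈ I.gr (X.prod X) X.dim)
    (hb : b ∈ I.gr (X.prod X) X.dim) :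
    actH hE n i n i (I.comp a b) = (actH hE n i n i b).comp (actH hE n i n i a) :=
  actH_comp hE rfl rfl (by rwa [sub_self, add_zero]) (by rwa [sub_self, add_zero])

include hI in
theorem actH_powR {X : 𝒱.Obj} {n i : ℤ} {a : I.CH (X.prod X)} (ha : a ∈ I.gr (X.prod X) X.dim)
    (l : ℕ) : actH hE n i n i (powR a l) = pw (actH hE n i n i a) l := by
  induction l with
  | zero => exact actH_diag hE n i
  | succ l ih => rw [powR, actH_comp0 hE (powR_mem hI ha l) ha, ih]; rfl

include hI in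
theorem actH_powL {X : 𝒱.Obj} {n : ℕ} {i : ℤ} (l : ℕ) (z : E.W X n i) :
    actH hE n i n i (powL (I.frob X) l) z = ((q : ℤ) ^ n) ^ l • z := by
  induction l generalizing z with
  | zero =>
    rw [pow_zero, one_smul]
    exact hE.id z
  | succ l ih =>
    rw [powL, actH_comp0 hE (hI.frob_mem X) (powL_mem hI (hI.frob_mem X) l),
      AddMonoidHom.comp_apply]
    have h1 : actH hE n i n i (I.frob X) z = ((q : ℤ) ^ n) • z := by
      rw [actH_apply, hE.frobenius]
      rw [← natCast_zsmul]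
      push_cast
      rfl
    rw [h1, ih, smul_smul, pow_succ]

end act

end Run7.h306.WE
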