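import Pool.Agent.Run7.h306.WE3

/-!
# The step: Weil-étale cohomology of a product up to finite groups
-/

set_option autoImplicit false
set_option linter.unusedSectionVars false

open Polynomial CategoryTheory AlgebraicGeometry

namespace Run7.h306.WE

open Pool.Agent.H914 Pool.Agent.H914.VarClass Pool.Agent.H914.VarClass.Obj
  Pool.Agent.W492.BB Pool.Agent.W550.Corr Pool.Agent.W484.TB Pool.Agent.W484.CH

variable {κ : Type} [Field κ] {𝒱 : VarClass κ} {C : TheoryData.{0, 0, 0} 𝒱 ℚ} [hC : IsChow C]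
  {K : Type} [Field K] [CharZero K] {H : WeilTheoryData.{0, 0, 0} C K} [hH : IsWeil H]
  {F : ∀ X : 𝒱.Obj, X ⟶ X} {I : IntegralChow C} (hI : IsIntegralChow I F) {E : WeilEtale I}
  {q : ℕ} (hE : IsWeilEtale E q) {A₀ Z : 𝒱.Obj} {J : Type} [Fintype J] {deg : J → ℕ}
  {D E' : J → C.A A₀}

theorem pw_zsmul {G : Type} [AddCommGroup G] (u v : G →+ G) (c : ℤ) (h : ∀ z, v z = c • u z)
    (m : ℕ) (z : G) : pw v m z = c ^ m • pw u m z := by
  induction m generalizing z with
  | zero => simp [pw]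
  | succ m ih =>
    have e1 : pw v (m + 1) z = v (pw v m z) := rfl
    have e2 : pw u (m + 1) z = u (pw u m z) := rfl
    rw [e1, e2, ih, h, map_zsmul, smul_smul, pow_succ, mul_comm]

include hI hE in
theorem maps (h : IsDual A₀ Z deg D E') (n : ℕ) (i : ℤ) (P : ℤ[X])
    (hP : P.eval ((q : ℤ) ^ n) ≠ 0)
    (hF : F (A₀.prod Z) = prodMap (F A₀) (F Z))
    (hkill : ∀ w : H.A (A₀.prod Z), H.act (H.cl (proj Z D E'))
      (H.act (H.cl (polyC (prodMap (F A₀) (F Z)) (P.map (algebraMap ℤ ℚ)))) w) =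
      H.act (H.cl (polyC (prodMap (F A₀) (F Z)) (P.map (algebraMap ℤ ℚ)))) w)
    (hnil : Pool.Agent.W484.CH.Nilpotence H (A₀.prod Z)) :
    ∃ (e : ∀ j, E.W (A₀.prod Z) n i →+ E.W Z (n - deg j) (i - 2 * deg j))
      (d : ∀ j, E.W Z (n - deg j) (i - 2 * deg j) →+ E.W (A₀.prod Z) n i) (a : ℕ), 0 < a ∧
      (∀ j, Bd ((e j).comp (d j) - a • AddMonoidHom.id _)) ∧
      Bd (a • AddMonoidHom.id _ - ∑ j, (d j).comp (e j)) := by
  classical
  set V := A₀.prod Z with hV
  obtain ⟨N1, hN1, h1⟩ := exists_lifts hI (fun j => (Z.dim : ℤ) + deg j)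
    (fun j => extBy C Z (D j)) fun j => extBy_mem (h.left j)
  obtain ⟨N2, hN2, h2⟩ := exists_lifts hI (fun j => (V.dim : ℤ) + -(deg j : ℤ))
    (fun j => pairBy C Z (E' j)) fun j => pairBy_mem (h.right j)
  obtain ⟨dd, hdd, rdd⟩ := h1 N2
  obtain ⟨ee, hee, ree⟩ := h2 N1
  rw [mul_comm N2 N1] at rdd
  set N := N1 * N2 with hN
  have hN0 : 0 < N := Nat.mul_pos hN1 hN2
  -- the homomorphisms
  set e : ∀ j, E.W V n i →+ E.W Z (n - deg j) (i - 2 * deg j) :=
    fun j => actH hE n i (n - deg j) (i - 2 * deg j) (ee j) with he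
  set d : ∀ j, E.W Z (n - deg j) (i - 2 * deg j) →+ E.W V n i :=
    fun j => actH hE (n - deg j) (i - 2 * deg j) n i (dd j) with hd
  have hee' : ∀ j, ee j ∈ I.gr (V.prod Z) (V.dim + ((n : ℤ) - deg j - n)) := fun j => by
    have := hee j
    convert this using 2
    ring
  have hdd' : ∀ j, dd j ∈ I.gr (Z.prod V) (Z.dim + ((n : ℤ) - (n - deg j))) := fun j => by
    have := hdd j
    convert this using 2
    ring
  have hdi : ∀ j : J, (i - 2 * (deg j : ℤ)) - 2 * ((n : ℤ) - deg j) = i - 2 * n := fun j => by ring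
  -- composition `d` then `e`
  have hed : ∀ j, Bd ((e j).comp (d j) - (N ^ 2) • AddMonoidHom.id _) := by
    intro j
    have e1 : (e j).comp (d j) =
        actH hE (n - deg j) (i - 2 * deg j) (n - deg j) (i - 2 * deg j) (I.comp (dd j) (ee j)) :=
      (actH_comp hE (hdi j).symm (hdi j) (hdd' j) (hee' j)).symm
    have e2 : (e j).comp (d j) - (N ^ 2) • AddMonoidHom.id _ =
        actH hE (n - deg j) (i - 2 * deg j) (n - deg j) (i - 2 * deg j)
          (I.comp (dd j) (ee j) - (N ^ 2) • I.diag Z) := by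
      rw [map_sub, map_nsmul, actH_diag, e1]
    rw [e2]
    refine bd_act hI hE _ _ _ _ ?_
    have e3 : I.rat _ (I.comp (dd j) (ee j) - (N ^ 2) • I.diag Z) =
        I.rat _ (I.comp (dd j) (ee j)) - (N ^ 2) • I.rat _ (I.diag Z) := by
      rw [← ratH_apply hI, map_sub, map_nsmul, ratH_apply, ratH_apply]
    have e4 : I.rat _ (I.diag Z) = dg C Z := hI.rat_diag Z
    rw [e3, rat_comp' hI, rdd, ree, smul_comp', comp_extBy_same h, e4,
      ← Nat.cast_smul_eq_nsmul ℚ, ← sub_smul]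
    push_cast
    rw [show (N : ℚ) * N - (N : ℚ) ^ 2 = 0 by ring, zero_smul]
  have hed' : ∀ j k, j ≠ k → Bd ((e k).comp (d j)) := by
    intro j k hjk
    have e1 : (e k).comp (d j) =
        actH hE (n - deg j) (i - 2 * deg j) (n - deg k) (i - 2 * deg k) (I.comp (dd j) (ee k)) :=
      (actH_comp hE (hdi j).symm (hdi k) (hdd' j) (hee' k)).symm
    rw [e1]
    refine bd_act hI hE _ _ _ _ ?_
    rw [rat_comp' hI, rdd, ree, smul_comp', comp_extBy_ne h j k hjk, smul_zero]
  -- the complement of the projector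
  set UU : I.CH (V.prod V) := (N ^ 2) • I.diag V - ∑ j, I.comp (ee j) (dd j) with hUU
  set u : E.W V n i →+ E.W V n i :=
    (N ^ 2) • AddMonoidHom.id _ - ∑ j, (d j).comp (e j) with hu
  have hcm : ∀ j, I.comp (ee j) (dd j) ∈ I.gr (V.prod V) V.dim := fun j =>
    comp_mem' hI (hee j) (hdd j) (by ring)
  have hUUm : UU ∈ I.gr (V.prod V) V.dim :=
    AddSubgroup.sub_mem _ (AddSubgroup.nsmul_mem _ (hI.diag_mem V) _)
      (AddSubgroup.sum_mem _ fun j _ => hcm j)
  have hactU : actH hE n i n i UU = u := by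
    rw [hUU, map_sub, map_nsmul, actH_diag, map_sum]
    congr 1
    exact Finset.sum_congr rfl fun j _ =>
      actH_comp hE (hdi j) (hdi j).symm (hee' j) (hdd' j)
  have hratU : I.rat _ UU = ((N : ℚ) ^ 2) • (dg C V - proj Z D E') := by
    have e4 : I.rat _ (I.diag V) = dg C V := hI.rat_diag V
    rw [hUU, ← ratH_apply hI, map_sub, map_nsmul, map_sum]
    simp only [ratH_apply]
    rw [e4, smul_sub, Pool.Agent.W484.CH.proj, Finset.smul_sum]
    congr 1
    · rw [← Nat.cast_smul_eq_nsmul ℚ]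
      push_cast
      rfl
    · refine Finset.sum_congr rfl fun j _ => ?_
      rw [rat_comp' hI, rdd, ree, smul_comp', pow_two]
  -- the polynomial
  set PP : I.CH (V.prod V) := ∑ l ∈ P.support, P.coeff l • powL (I.frob V) l with hPP
  have hPPm : PP ∈ I.gr (V.prod V) V.dim := AddSubgroup.sum_mem _ fun l _ =>
    AddSubgroup.zsmul_mem _ (powL_mem hI (hI.frob_mem V) l) _
  have hactP : ∀ z, actH hE n i n i PP z = P.eval ((q : ℤ) ^ n) • z := by
    intro z
    rw [hPP, map_sum, AddMonoidHom.finsetSum_apply, Polynomial.eval_eq_sum, Polynomial.sum_def,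
      Finset.sum_smul]
    refine Finset.sum_congr rfl fun l _ => ?_
    rw [map_zsmul, AddMonoidHom.zsmul_apply, actH_powL hI hE, smul_smul]
  have hratP : I.rat _ PP = polyC (prodMap (F A₀) (F Z)) (P.map (algebraMap ℤ ℚ)) := by
    rw [hPP, ← ratH_apply hI, map_sum, polyC,
      Polynomial.support_map_of_injective P (algebraMap ℤ ℚ).injective_int]
    refine Finset.sum_congr rfl fun l _ => ?_
    rw [map_zsmul, ratH_apply, rat_powL hI, Polynomial.coeff_map, hF]
    exact (Int.cast_smul_eq_zsmul ℚ _ _).symm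
  -- the nilpotent correspondence
  set Θ := C.comp (polyC (prodMap (F A₀) (F Z)) (P.map (algebraMap ℤ ℚ))) (dg C V - proj Z D E')
    with hΘ
  have hdg : C.Deg V.dim (dg C V) := by
    have := hI.rat_mem (hI.diag_mem V)
    rwa [hI.rat_diag V] at this
  have hΘd : C.Deg V.dim Θ := comp_mem (polyC_mem _ _) (Submodule.sub_mem _ hdg (proj_mem h))
  have hΘ0 : ∀ w : H.A V, H.act (H.cl Θ) w = 0 := by
    intro w
    rw [hΘ, act_cl_comp, map_sub, H.act_sub, act_cl_dg, hkill, sub_self]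
  obtain ⟨m, hm⟩ := hnil Θ hΘd hΘ0
  set TT : I.CH (V.prod V) := I.comp PP UU with hTT
  have hTTm : TT ∈ I.gr (V.prod V) V.dim :=
    comp_mem' hI (i := 0) (j := 0) (by rwa [add_zero]) (by rwa [add_zero]) (by ring)
  have hratT : I.rat _ TT = ((N : ℚ) ^ 2) • Θ := by
    rw [hTT, rat_comp' hI, hratP, hratU, hΘ]
    have := smul_comp' (C := C) (1 : ℚ) ((N : ℚ) ^ 2)
      (polyC (prodMap (F A₀) (F Z)) (P.map (algebraMap ℤ ℚ))) (dg C V - proj Z D E')
    rwa [one_smul, one_mul] at this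
  have hactT : ∀ z, actH hE n i n i TT z = P.eval ((q : ℤ) ^ n) • u z := by
    intro z
    rw [hTT, actH_comp0 hE hPPm hUUm, AddMonoidHom.comp_apply, hactP, map_zsmul, hactU]
  have hbd : Bd (pw u m) := by
    have h3 : Bd (pw (actH hE n i n i TT) m) := by
      rw [← actH_powR hI hE hTTm]
      refine bd_act hI hE _ _ _ _ ?_
      rw [rat_powR hI hratT, hm, smul_zero]
    refine Bd.of_zsmul (a := P.eval ((q : ℤ) ^ n) ^ m) (pow_ne_zero _ hP) ?_
    have h4 : (P.eval ((q : ℤ) ^ n) ^ m) • pw u m = pw (actH hE n i n i TT) m :=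
      AddMonoidHom.ext fun z => (pw_zsmul u _ _ hactT m z).symm
    rwa [h4]
  -- `u` is an idempotent up to a factor
  have hud : ∀ j, Bd (u.comp (d j)) := by
    intro j
    have e1 : u.comp (d j) = -((d j).comp ((e j).comp (d j) - (N ^ 2) • AddMonoidHom.id _)) -
        ∑ k ∈ Finset.univ.erase j, (d k).comp ((e k).comp (d j)) := by
      ext z
      have e2 : u.comp (d j) z = (N ^ 2) • d j z - ∑ k, d k (e k (d j z)) := by
        rw [AddMonoidHom.comp_apply, hu]
        simp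
      rw [e2, ← Finset.add_sum_erase _ _ (Finset.mem_univ j)]
      simp only [AddMonoidHom.sub_apply, AddMonoidHom.neg_apply, AddMonoidHom.comp_apply,
        AddMonoidHom.nsmul_apply, AddMonoidHom.id_apply, map_sub, map_nsmul,
        AddMonoidHom.finsetSum_apply]
      abel
    rw [e1]
    exact ((hed j).comp_left _).neg.sub (Bd.sum _ fun k hk =>
      (hed' j k (Ne.symm (Finset.ne_of_mem_erase hk))).comp_left _)
  have huu : Bd (u.comp u - (N ^ 2) • u) := by
    have e1 : u.comp u - (N ^ 2) • u = -∑ j, (u.comp (d j)).comp (e j) := by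
      ext z
      have e2 : u.comp u z = u ((N ^ 2) • z - ∑ k, d k (e k z)) := by
        rw [AddMonoidHom.comp_apply]
        congr 1
        rw [hu]
        simp
      rw [AddMonoidHom.sub_apply, e2, map_sub, map_nsmul, map_sum]
      simp
    rw [e1]
    exact (Bd.sum _ fun j _ => (hud j).comp_right _).neg
  exact ⟨e, d, N ^ 2, pow_pos hN0 2, hed, bd_of_nilp (pow_pos hN0 2) huu hbd⟩

include hI hE in
/-- **The step.** -/
theorem finiteness_step (h : IsDual A₀ Z deg D E') (n : ℕ) (P : ℤ[X])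
    (hP : P.eval ((q : ℤ) ^ n) ≠ 0)
    (hF : F (A₀.prod Z) = prodMap (F A₀) (F Z))
    (hkill : ∀ w : H.A (A₀.prod Z), H.act (H.cl (proj Z D E'))
      (H.act (H.cl (polyC (prodMap (F A₀) (F Z)) (P.map (algebraMap ℤ ℚ)))) w) =
      H.act (H.cl (polyC (prodMap (F A₀) (F Z)) (P.map (algebraMap ℤ ℚ)))) w)
    (hnil : Pool.Agent.W484.CH.Nilpotence H (A₀.prod Z)) :
    Finiteness E (A₀.prod Z) n ↔ ∀ j, Finiteness E Z (n - deg j) := by
  constructor
  · intro h0 j i
    obtain ⟨e, d, a, ha, h1, h2⟩ := maps hI hE h n (i + 2 * deg j) P hP hF hkill hnil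
    have hi : i + 2 * (deg j : ℤ) - 2 * deg j = i := by ring
    suffices AddGroup.FG (E.W Z (n - deg j) (i + 2 * (deg j : ℤ) - 2 * deg j)) by
      rwa [hi] at this
    refine fg_of_ker (d j) (h0 _) ?_
    obtain ⟨M, hM, h3⟩ := h1 j
    refine (hE.torsion (m := M * a) (Nat.mul_pos hM ha)).subset ?_
    intro z hz
    have h4 := h3 z
    rw [AddMonoidHom.sub_apply, AddMonoidHom.comp_apply, show d j z = 0 from hz, map_zero,
      zero_sub, smul_neg, neg_eq_zero] at h4
    change (M * a) • z = 0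
    rw [mul_smul]
    exact h4
  · intro h0 i
    obtain ⟨e, d, a, ha, h1, M, hM, h3⟩ := maps hI hE h n i P hP hF hkill hnil
    refine fg_of_ker (G' := ∀ j, E.W Z (n - deg j) (i - 2 * deg j)) (AddMonoidHom.mk' (fun z j => e j z)
      fun z w => funext fun j => map_add _ _ _) (fg_pi fun j => h0 j _) ?_
    refine (hE.torsion (m := M * a) (Nat.mul_pos hM ha)).subset ?_
    intro z hz
    have h4 := h3 z
    have h5 : ∀ j, e j z = 0 := fun j => congrFun hz j
    simp only [AddMonoidHom.sub_apply, AddMonoidHom.finsetSum_apply, AddMonoidHom.comp_apply, h5,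
      map_zero, Finset.sum_const_zero, sub_zero] at h4
    change (M * a) • z = 0
    rw [mul_smul]
    exact h4

end Run7.h306.WE
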