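import Pool.Agent.Run7.h306.WE4

/-!
# Proof of `MP_cb388a_ag.CoveringProducts`
-/

set_option autoImplicit false
set_option linter.unusedSectionVars false

open Finset Polynomial CategoryTheory AlgebraicGeometry
open scoped TensorProduct

namespace Run7.h306.WE

section sys

open Pool.Agent.H914 Pool.Agent.H914.VarClass Pool.Agent.H914.VarClass.Obj Pool.Agent.W492.BB
  Pool.Agent.W484.CK Pool.Agent.N876.GB3

/-- the hypotheses of the general theory -/
theorem sys (c : ℕ) [Fact c.Prime] (κ : Type) [Field κ] [Fintype κ] [CharP κ c] {ι : Type}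
    (C : ι → Covering κ) (f N lam : ℕ) (hC : IsSmallSystem C c f N lam)
    {𝒱 : VarClass κ} (A : TheoryData.{0, 0, 0} 𝒱 ℚ) [IsChow A] {K : Type} [Field K]
    [IsAlgClosed K] [CharZero K] (H : WeilTheoryData.{0, 0, 0} A K) [IsWeil H] (τ : K →+* ℂ)
    (F : ∀ X : 𝒱.Obj, X ⟶ X) (X : ι → 𝒱.Obj) (Z : 𝒱.Obj) (χ : ℚ[X])
    (h : IsCoveringSystem C N lam H τ F X Z χ) : ∃ S : ι → Set K,
      Pool.Agent.N876.CG.Cr H F (Fintype.card κ) X Z S {ρ | aeval ρ χ = 0} := by
  obtain ⟨hf, hC, hN, hdN, hsmall⟩ := hC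
  obtain ⟨hstd, hfrob, hprod, hmodel, hpol, halg, hχ0, hbase⟩ := h
  have hfin := hstd.finite
  have hf0 : 0 < f := by
    rcases Nat.eq_zero_or_pos f with h | h
    · rw [h, pow_zero] at hf
      have := Fintype.one_lt_card (α := κ)
      omega
    · exact h
  choose g T' hσT hgT hT' hcov hpure using hmodel
  have hsmall' : ∀ I : Finset ι, I.Nonempty → Pool.Agent.N876.UV.SmallI c f N lam
      (fun i => (C i).N) (fun i => (C i).n) (fun i => (C i).s) (fun i => (C i).a) I := by
    intro I hI j hj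
    obtain ⟨u, hu, hlt⟩ := hsmall I hI j hj
    refine ⟨u, hu, Pool.Agent.N876.UV.weight_conv' hf0 hN hdN I
      (fun i => ∑ k, ∑ t ∈ range f, (u * j i * (C i).a k * c ^ t) % (C i).N) ?_⟩
    refine lt_of_le_of_lt (le_of_eq ?_) hlt
    congr 1
    refine sum_congr rfl fun i _ => ?_
    unfold Covering.weight
    push_cast
    rfl
  have hcov' : ∀ i, Pool.Agent.N876.TC.IsCov (C i).N (C i).l (C i).a (C i).z
      ((ofHom (H.pull (F (X i)))).restrict (hσT i)) ((ofHom (H.pull (g i))).restrict (hgT i)) :=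
    fun i => ⟨(hcov i).commute, (hcov i).order, (hcov i).invariants,
      fun L _ _ _ t => (hcov i).lefschetz L t⟩
  have hres : ∀ SZ, Pool.Agent.N876.FL.OtherOK τ (Fintype.card κ) N lam SZ →
      Pool.Agent.N876.FL.NoResF (Fintype.card κ : K)
        (fun i => {α | Module.End.HasEigenvalue
          ((ofHom (H.pull (F (X i)))).restrict (hσT i)) α}) SZ :=
    fun SZ hSZ => Pool.Agent.N876.FL.nores_cov hN (fun i => (hC i).two_le) hdN κ hf
      (fun i => (hC i).root) (fun i => (C i).l) (fun i => (C i).a) (fun i => (hC i).coprime) τ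
      hcov' hsmall' hpure hSZ
  have hq0 : Fintype.card κ ≠ 0 := Fintype.card_ne_zero
  exact ⟨_,
    { std := isStandard_bridge hstd
      one_lt := Fintype.one_lt_card
      frob := fun X => isFrobenius_bridge (hfrob X)
      prod := hprod
      cg := fun i => ⟨T' i, hσT i, hT' i, fun α hα => hα⟩
      int := fun i α hα => Pool.Agent.N876.CG.int_cov hN (fun i => (hC i).two_le) hdN κ hf
        (fun i => (hC i).root) (fun i => (C i).l) (fun i => (C i).a) (fun i => (hC i).coprime) τ
        hcov' hsmall' hpure i α hα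
      ne := fun i α hα h0 => by
        have h1 := hpure i α hα
        rw [h0, map_zero, norm_zero, zero_pow two_ne_zero] at h1
        have h2 : (0 : ℝ) < (Fintype.card κ : ℝ) := by exact_mod_cast Nat.pos_of_ne_zero hq0
        exact (pow_pos h2 _).ne h1
      intZ := fun β hβ => Pool.Agent.N876.CG.integral_of_emb τ (halg _ ⟨β, hβ, rfl⟩)
      res := by
        have himg : (τ '' {γ | ∃ β ρ, (Pool.Agent.W484.CH.frob H (F Z)).HasEigenvalue β ∧
            ρ ∈ {ρ : K | aeval ρ χ = 0} ∧ γ = β * ρ}) = productsOf (H.pull (F Z)) χ τ := by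
          ext b
          constructor
          · rintro ⟨_, ⟨β, ρ, hβ, hρ, rfl⟩, rfl⟩
            exact ⟨β, ρ, hβ, hρ, rfl⟩
          · rintro ⟨β, ρ, hβ, hρ, rfl⟩
            exact ⟨_, ⟨β, ρ, hβ, hρ, rfl⟩, rfl⟩
        refine hres _ ⟨?_, ?_⟩
        · rintro _ ⟨β, ρ, hβ, hρ, rfl⟩
          exact hbase.1 _ ⟨β, ρ, hβ, hρ, rfl⟩
        · rcases hbase.2 with h | h
          · left
            rw [himg]
            exact h
          · right
            rintro _ ⟨β, ρ, hβ, hρ, rfl⟩
            exact h _ ⟨β, ρ, hβ, hρ, rfl⟩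
      res1 := hres _ (Pool.Agent.N876.FL.otherOK_one τ _ _ _) }⟩

end sys

section induct

open Module Pool.Agent.H914 Pool.Agent.H914.VarClass Pool.Agent.H914.VarClass.Obj
  Pool.Agent.W492.BB Pool.Agent.W550.Corr Pool.Agent.W484.TB Pool.Agent.W484.CH
  Pool.Agent.N876.CG

variable {κ : Type} [Field κ] {𝒱 : VarClass κ} {C : TheoryData.{0, 0, 0} 𝒱 ℚ} [hC : IsChow C]
  {K : Type} [Field K] [CharZero K] [IsAlgClosed K] {H : WeilTheoryData.{0, 0, 0} C K}
  [hH : IsWeil H]
  {F : ∀ X : 𝒱.Obj, X ⟶ X} {I : IntegralChow C} (hI : IsIntegralChow I F) {E : WeilEtale I}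
  {q : ℕ} (hE : IsWeilEtale E q) {ι : Type} {X : ι → 𝒱.Obj} {Z : 𝒱.Obj} {S : ι → Set K}

include hE in
theorem finiteness_neg (Y : 𝒱.Obj) {n : ℤ} (hn : n < 0) : Finiteness E Y n := by
  intro i
  have := hE.negative (X := Y) (i := i) hn
  infer_instance

include hI hE in
theorem induct (h : Cr H F q X Z S {1}) (hbig : ∀ i, Big H (X i))
    (hnil : ∀ L : List ι, L.Nodup → Pool.Agent.W484.CH.Nilpotence H (tw X Z L)) {L : List ι}
    (hL : L.Nodup) (n : ℤ) :
    Finiteness E (tw X Z L) n ↔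
      ∀ m : ℤ, n - dims X L ≤ m → m ≤ n → Finiteness E Z m := by
  induction L generalizing n with
  | nil =>
    constructor
    · intro h1 m h2 h3
      have h4 : m = n := by
        simp only [dims, Nat.cast_zero, sub_zero] at h2
        omega
      rw [h4]
      exact h1
    · intro h1
      exact h1 n (by simp [dims]) le_rfl
  | cons i L ih =>
    rcases lt_or_ge n 0 with hn | hn
    · exact ⟨fun _ m _ h3 => finiteness_neg hE Z (by omega), fun _ => finiteness_neg hE _ hn⟩
    obtain ⟨k, rfl⟩ := Int.eq_ofNat_of_zero_le hn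
    rw [List.nodup_cons] at hL
    obtain ⟨J, hJ, deg, D, E', h1, h2, h3⟩ := step_poly h hL.1 hL.2
    obtain ⟨P, hP, hkill⟩ := h3 k
    have h4 : Finiteness E (tw X Z (i :: L)) k ↔ ∀ j, Finiteness E (tw X Z L) (k - deg j) :=
      finiteness_step hI hE h1 k P hP (h.prod _ _) hkill
        (hnil (i :: L) (List.nodup_cons.2 hL))
    rw [h4]
    constructor
    · intro hp m hm1 hm2
      obtain ⟨l, hl1, hl2, hl3⟩ := exists_codim (a := (X i).dim) (b := dims X L) hm1 hm2
      obtain ⟨j, hj⟩ := exists_deg_big (hbig i) h2 hl1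
      have h5 := (ih hL.2 (k - deg j)).1 (hp j)
      rw [hj] at h5
      exact h5 m hl2 hl3
    · intro hp j
      rw [ih hL.2]
      intro m hm1 hm2
      have h5 := h1.le j
      refine hp m ?_ (by omega)
      change (k : ℤ) - ((X i).dim + dims X L : ℕ) ≤ m
      push_cast
      omega

end induct

section main

open Pool.Agent.H914 Pool.Agent.H914.VarClass Pool.Agent.H914.VarClass.Obj Pool.Agent.W492.BB
  Pool.Agent.W484.CK Pool.Agent.N876.GB3

theorem main (c : ℕ) [Fact c.Prime] (κ : Type) [Field κ] [Fintype κ] [CharP κ c] {ι : Type}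
    (C : ι → Covering κ) (f N lam : ℕ) (hC : IsSmallSystem C c f N lam)
    {𝒱 : VarClass κ} (A : TheoryData.{0, 0, 0} 𝒱 ℚ) [IsChow A] {K : Type} [Field K]
    [IsAlgClosed K] [CharZero K] (H : WeilTheoryData.{0, 0, 0} A K) [IsWeil H] (τ : K →+* ℂ)
    (F : ∀ X : 𝒱.Obj, X ⟶ X) (X : ι → 𝒱.Obj) (Z : 𝒱.Obj)
    (h : IsCoveringSystem C N lam H τ F X Z (Polynomial.X - 1))
    (hnil : ∀ L : List ι, L.Nodup → Nilpotence H (productOf X Z L)) (I : IntegralChow A)
    (hI : IsIntegralChow I F)
    (E : WeilEtale I) (hE : IsWeilEtale E (Fintype.card κ)) (L : List ι) (hL : L.Nodup) (n : ℕ) :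
    Finiteness E (productOf X Z L) n ↔
      ∀ m : ℕ, n ≤ m + dimension X L → m ≤ n → Finiteness E Z m := by
  obtain ⟨S, hS⟩ := sys c κ C f N lam hC A H τ F X Z _ h
  have hB : {ρ : K | aeval ρ (Polynomial.X - 1 : ℚ[X]) = 0} = {1} := by
    ext ρ
    simp [sub_eq_zero]
  rw [hB] at hS
  have htw : ∀ L : List ι, productOf X Z L = Pool.Agent.N876.CG.tw X Z L := by
    intro L
    induction L with
    | nil => rfl
    | cons i L ih => rw [productOf, Pool.Agent.N876.CG.tw, ih]
  have hdim : ∀ L : List ι, dimension X L = Pool.Agent.N876.CG.dims X L := by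
    intro L
    induction L with
    | nil => rfl
    | cons i L ih => rw [dimension, Pool.Agent.N876.CG.dims, ih]
  have h1 := induct hI hE hS h.polarized (fun L hL' => by
    rw [← htw]
    exact nilpotence_bridge (hnil L hL')) hL n
  rw [htw L, hdim L, h1]
  constructor
  · intro h2 m h3 h4
    exact h2 m (by omega) (by omega)
  · intro h2 m h3 h4
    rcases lt_or_ge m 0 with h5 | h5
    · exact finiteness_neg hE Z h5
    · obtain ⟨k, rfl⟩ := Int.eq_ofNat_of_zero_le h5
      exact h2 k (by omega) (by omega)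

end main

end Run7.h306.WE
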