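import Pool.Agent.N876.GB3.Defs

/-!
# Definitions for `MP_cb388a_ag.CoveringProducts`: integral Chow groups and Weil-étale cohomology
-/

set_option autoImplicit false

open Polynomial CategoryTheory AlgebraicGeometry

namespace Run7.h306.WE

open Pool.Agent.H914 Pool.Agent.H914.VarClass Pool.Agent.H914.VarClass.Obj Pool.Agent.W492.BB
  Pool.Agent.W484.CK Pool.Agent.N876.GB3

variable {κ : Type} [Field κ] {𝒱 : VarClass κ}

/-- The Chow groups `CH(X)` with integral coefficients, with the subgroups `CH^i(X)`, the maps to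
the Chow groups with rational coefficients, the composition of correspondences, the diagonals, and
the transposed graphs of the Frobenius endomorphisms. -/
structure IntegralChow (A : TheoryData.{0, 0, 0} 𝒱 ℚ) where
  CH : 𝒱.Obj → Type
  [group : ∀ X, AddCommGroup (CH X)]
  gr : ∀ X : 𝒱.Obj, ℤ → AddSubgroup (CH X)
  rat : ∀ X : 𝒱.Obj, CH X → A.A X
  comp : ∀ {X Y Z : 𝒱.Obj}, CH (X.prod Y) → CH (Y.prod Z) → CH (X.prod Z)
  diag : ∀ X : 𝒱.Obj, CH (X.prod X)
  frob : ∀ X : 𝒱.Obj, CH (X.prod X)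

attribute [instance] IntegralChow.group

/-- The formal properties of the integral Chow groups: the map to the rational Chow groups is
additive, compatible with the degrees and has a torsion kernel, every rational class of degree `i`
has a multiple which comes from `CH^i(X)`, and it is compatible with composition, diagonals and the
Frobenius endomorphisms `F`. -/
structure IsIntegralChow {A : TheoryData.{0, 0, 0} 𝒱 ℚ} (I : IntegralChow A)
    (F : ∀ X : 𝒱.Obj, X ⟶ X) : Prop where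
  rat_add : ∀ {X : 𝒱.Obj} (a b : I.CH X), I.rat X (a + b) = I.rat X a + I.rat X b
  rat_mem : ∀ {X : 𝒱.Obj} {i : ℤ} {a : I.CH X}, a ∈ I.gr X i → A.Deg i (I.rat X a)
  torsion : ∀ {X : 𝒱.Obj} {a : I.CH X}, I.rat X a = 0 → ∃ N : ℕ, 0 < N ∧ N • a = 0
  lift : ∀ {X : 𝒱.Obj} {i : ℤ} {c : A.A X}, A.Deg i c →
    ∃ N : ℕ, 0 < N ∧ ∃ a ∈ I.gr X i, I.rat X a = (N : ℚ) • c
  comp_mem : ∀ {X Y Z : 𝒱.Obj} {i j : ℤ} {a : I.CH (X.prod Y)} {b : I.CH (Y.prod Z)},
    a ∈ I.gr (X.prod Y) (X.dim + i) → b ∈ I.gr (Y.prod Z) (Y.dim + j) →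
      I.comp a b ∈ I.gr (X.prod Z) (X.dim + (i + j))
  rat_comp : ∀ {X Y Z : 𝒱.Obj} (a : I.CH (X.prod Y)) (b : I.CH (Y.prod Z)),
    I.rat (X.prod Z) (I.comp a b) = compose A (I.rat (X.prod Y) a) (I.rat (Y.prod Z) b)
  diag_mem : ∀ X : 𝒱.Obj, I.diag X ∈ I.gr (X.prod X) X.dim
  rat_diag : ∀ X : 𝒱.Obj, I.rat (X.prod X) (I.diag X) = diagonal A X
  frob_mem : ∀ X : 𝒱.Obj, I.frob X ∈ I.gr (X.prod X) X.dim
  rat_frob : ∀ X : 𝒱.Obj, I.rat (X.prod X) (I.frob X) = A.down (Obj.lift (F X) (𝟙 X)) 1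

/-- Weil-étale motivic cohomology: `W X n i` is the group `H^i_W(X, ℤ(n))`. A correspondence `a` of
degree `n' - n` from `X` to `Y`, that is a class in `CH(X × Y)` of codimension `dim X + n' - n`, acts
as a map `act n i n' i' a` from `W X n i` to `W Y n' i'`, where `i' - 2 n' = i - 2 n`; for an arbitrary
class this is the action of its component of this codimension (`act` has no meaning for other
`i'`). -/
structure WeilEtale {A : TheoryData.{0, 0, 0} 𝒱 ℚ} (I : IntegralChow A) where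
  W : 𝒱.Obj → ℤ → ℤ → Type
  [group : ∀ X n i, AddCommGroup (W X n i)]
  act : ∀ {X Y : 𝒱.Obj} (n i n' i' : ℤ), I.CH (X.prod Y) → W X n i → W Y n' i'

attribute [instance] WeilEtale.group

/-- The formal properties of Weil-étale motivic cohomology which are used: the operation of
correspondences is biadditive and compatible with composition and with the identity; for `n ≥ 0` the
Frobenius endomorphism of `X` acts on `H^i_W(X, ℤ(n))` as multiplication by `q ^ n`; the torsion
subgroups `H^i_W(X, ℤ(n))[m]` are finite, as quotients of étale cohomology groups with finite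
coefficients; and the groups with `n < 0` (étale cohomology with coefficients in `ℚ / ℤ'(n)`) are
finite. -/
structure IsWeilEtale {A : TheoryData.{0, 0, 0} 𝒱 ℚ} {I : IntegralChow A} (E : WeilEtale I)
    (q : ℕ) : Prop where
  add_left : ∀ {X Y : 𝒱.Obj} {n i n' i' : ℤ} (a b : I.CH (X.prod Y)) (z : E.W X n i),
    E.act n i n' i' (a + b) z = E.act n i n' i' a z + E.act n i n' i' b z
  add_right : ∀ {X Y : 𝒱.Obj} {n i n' i' : ℤ} (a : I.CH (X.prod Y)) (z w : E.W X n i),
    E.act n i n' i' a (z + w) = E.act n i n' i' a z + E.act n i n' i' a w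
  comp : ∀ {X Y Z : 𝒱.Obj} {n i n' i' n'' i'' : ℤ} {a : I.CH (X.prod Y)} {b : I.CH (Y.prod Z)},
    i' - 2 * n' = i - 2 * n → i'' - 2 * n'' = i' - 2 * n' →
      a ∈ I.gr (X.prod Y) (X.dim + (n' - n)) → b ∈ I.gr (Y.prod Z) (Y.dim + (n'' - n')) →
        ∀ z : E.W X n i, E.act n i n'' i'' (I.comp a b) z =
          E.act n' i' n'' i'' b (E.act n i n' i' a z)
  id : ∀ {X : 𝒱.Obj} {n i : ℤ} (z : E.W X n i), E.act n i n i (I.diag X) z = z
  frobenius : ∀ {X : 𝒱.Obj} {n : ℕ} {i : ℤ} (z : E.W X n i),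
    E.act n i n i (I.frob X) z = q ^ n • z
  torsion : ∀ {X : 𝒱.Obj} {n i : ℤ} {m : ℕ}, 0 < m → {z : E.W X n i | m • z = 0}.Finite
  negative : ∀ {X : 𝒱.Obj} {n i : ℤ}, n < 0 → Finite (E.W X n i)

/-- The statement `L^n(X)`: the groups `H^i_W(X, ℤ(n))` are finitely generated for all `i`. -/
def Finiteness {A : TheoryData.{0, 0, 0} 𝒱 ℚ} {I : IntegralChow A} (E : WeilEtale I)
    (X : 𝒱.Obj) (n : ℤ) : Prop :=
  ∀ i : ℤ, AddGroup.FG (E.W X n i)

end Run7.h306.WE
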